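import Mathlib
import Pool.Agent.TP975.RP.Cd7

/-!
Arbitrary points: the sieve model at two levels.
-/

set_option autoImplicit false

namespace Pool.Agent.TP975.RP

open Finset
open Pool.Agent.H373R2.T7

variable {m d k : ℕ}

/-- the product of the sieve models at the points `u j` -/
noncomputable def QM (z : ℕ) (io : Fin k → Fin m) (u : Fin k → ℤ) (a : Fin m → Fin (d + 1) → ℤ) : ℝ :=
  ∏ j, lamz z (ev (a (io j)) (u j)).natAbs

/-- the product of the von Mangoldt functions at the points `u j` -/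
noncomputable def QL (io : Fin k → Fin m) (u : Fin k → ℤ) (a : Fin m → Fin (d + 1) → ℤ) : ℝ :=
  ∏ j, ArithmeticFunction.vonMangoldt (ev (a (io j)) (u j)).natAbs

lemma QM_bd (z : ℕ) (io : Fin k → Fin m) (u : Fin k → ℤ) (a : Fin m → Fin (d + 1) → ℤ) :
    0 ≤ QM z io u a ∧ QM z io u a ≤ ((Vz z)⁻¹) ^ k := by
  unfold QM
  refine ⟨prod_nonneg fun j _ => lamz_nonneg _ _, ?_⟩
  calc ∏ j, lamz z (ev (a (io j)) (u j)).natAbs ≤ ∏ j : Fin k, (Vz z)⁻¹ :=
        prod_le_prod (fun j _ => lamz_nonneg _ _) (fun j _ => lamz_le _ _)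
    _ = _ := by rw [prod_const, card_univ, Fintype.card_fin]

lemma QL_nonneg (io : Fin k → Fin m) (u : Fin k → ℤ) (a : Fin m → Fin (d + 1) → ℤ) : 0 ≤ QL io u a :=
  prod_nonneg fun _ _ => ArithmeticFunction.vonMangoldt_nonneg

/-- the sum of the excesses over the pairs of points -/
noncomputable def SxG (w z : ℕ) (io : Fin k → Fin m) (u v : Fin k → ℤ) : ℝ :=
  ∑ q ∈ Qp (io2 io), (Yf (Kc m k) w z ((Sum.elim u v : Fin k ⊕ Fin k → ℤ) q.1 - (Sum.elim u v : Fin k ⊕ Fin k → ℤ) q.2) - 1)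

theorem patG (m d k E : ℕ) (hd : 1 ≤ d) : ∃ C : ℝ, 1 ≤ C ∧ ∃ H0 : ℕ, ∀ H : ℕ, H0 ≤ H → ∀ w z : ℕ, C ≤ w → w < z →
    (z : ℝ) ≤ Real.log H ^ E → ∀ (io : Fin k → Fin m) (u v : Fin k → ℤ) (s1 s2 : ℕ), (s1 = w ∨ s1 = z) → (s2 = w ∨ s2 = z) →
    |∑ a ∈ Bx m d H, QM s1 io u a * QM s2 io v a - ∑ a ∈ Bx m d H, Gf w (io2 io) (Sum.elim u v) a| ≤
      (Bx m d H).card * (((Vz w)⁻¹) ^ (2 * k) * (C * (1 / w + SxG w z io u v)) + 1 / Real.log H ^ 1) := by
  obtain ⟨C1, hC1, H1, h1⟩ := Xavg m d (2 * k) E hd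
  obtain ⟨H2, h2⟩ := mf m d (2 * k) E 1
  set M : ℝ := m * ((2 * k : ℕ) : ℝ) ^ 2 with hM
  have hM0 : 0 ≤ M := by positivity
  refine ⟨max (C1 + M) ((2 * k : ℕ) : ℝ), le_max_of_le_left (by linarith), max H1 H2,
    fun H hH w z hCw hwz hzE io u v s s' hs hs' => ?_⟩
  have b1 := le_trans (le_max_left _ _) hH
  have b2 := le_trans (le_max_right _ _) hH
  have hc1 : C1 + M ≤ w := (le_max_left _ _).trans hCw
  have hc2 : ((2 * k : ℕ) : ℝ) ≤ w := (le_max_right _ _).trans hCw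
  have hkw : 2 * k ≤ w := by exact_mod_cast hc2
  have hw1r : (1 : ℝ) ≤ w := by linarith
  have hw1 : 1 ≤ w := by exact_mod_cast hw1r
  have hcard : Fintype.card (Fin k ⊕ Fin k) = 2 * k := by simp; ring
  set zl : Fin k ⊕ Fin k → ℕ := Sum.elim (fun _ => s) (fun _ => s') with hzl
  have hzlv : ∀ l, zl l = w ∨ zl l = z := by
    rintro (j | j)
    · exact hs
    · exact hs'
  set tt : Fin k ⊕ Fin k → ℤ := Sum.elim u v with htt
  have g1 := h1 H b1 w z (by linarith) hwz hzE (Fin k ⊕ Fin k) hcard.le (io2 io) tt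
  have g2 := h2 H b2 z (by omega) hzE (Fin k ⊕ Fin k) hcard.le (io2 io) tt zl
    (fun l => by rcases hzlv l with h | h <;> omega)
  have e1 : ∀ a : Fin m → Fin (d + 1) → ℤ, ∏ l, lamz (zl l) (ev (a (io2 io l)) (tt l)).natAbs =
      QM s io u a * QM s' io v a := by
    intro a
    rw [Fintype.prod_sum_type]
    rfl
  simp only [e1] at g2
  have e2 : |∑ a ∈ Bx m d H, ∏ i, dens (univ.filter (fun l => io2 io l = i)) (fun l => rr 0 (a i) (tt l)) zl z -
      ∑ a ∈ Bx m d H, Gf w (io2 io) tt a| ≤ (Bx m d H).card * (((Vz w)⁻¹) ^ (2 * k) *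
        (C1 * (1 / w + SxG w z io u v) + M * (1 / w))) := by
    rw [← sum_sub_distrib]
    refine (abs_sum_le_sum_abs _ _).trans ?_
    refine (sum_le_sum fun a _ => near (2 * k) hcard.le (io2 io) tt zl w z hw1 hkw hwz hzlv a).trans ?_
    rw [← mul_sum, sum_add_distrib, sum_const, nsmul_eq_mul, hcard]
    have hV : 0 ≤ ((Vz w)⁻¹) ^ (2 * k) := pow_nonneg (by have := one_le_Vinv w; linarith) _
    have e3 : (m : ℝ) * ((2 * k : ℕ) : ℝ) ^ 2 / w = M * (1 / w) := by rw [hM]; ring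
    rw [e3]
    unfold SxG Kc
    have g3 := mul_le_mul_of_nonneg_left (add_le_add_left g1 (((Bx m d H).card : ℝ) * (M * (1 / w)))) hV
    refine g3.trans (le_of_eq ?_)
    ring
  have hV1 : 1 ≤ ((Vz w)⁻¹) ^ (2 * k) := one_le_pow₀ (one_le_Vinv w)
  have hSx : 0 ≤ SxG w z io u v := by
    unfold SxG
    refine sum_nonneg fun q _ => ?_
    have := Yf_one_le (Kc m k) (Kc_nonneg m k) w z (tt q.1 - tt q.2)
    linarith
  set S := SxG w z io u v with hS
  set G := ∑ a ∈ Bx m d H, Gf w (io2 io) tt a with hG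
  set D := ∑ a ∈ Bx m d H, ∏ i, dens (univ.filter (fun l => io2 io l = i)) (fun l => rr 0 (a i) (tt l)) zl z with hD
  have hB0 : (0 : ℝ) ≤ (Bx m d H).card := Nat.cast_nonneg _
  have h5 : C1 * (1 / w + S) + M * (1 / w) ≤ max (C1 + M) ((2 * k : ℕ) : ℝ) * (1 / w + S) := by
    have h6 : C1 * (1 / w + S) + M * (1 / w) ≤ (C1 + M) * (1 / w + S) := by
      have : 0 ≤ M * S := mul_nonneg hM0 hSx
      linarith
    refine h6.trans (mul_le_mul_of_nonneg_right (le_max_left _ _) ?_)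
    have : 0 ≤ 1 / (w : ℝ) := by positivity
    linarith
  have h7 := mul_le_mul_of_nonneg_left (mul_le_mul_of_nonneg_left h5 (by linarith : 0 ≤ ((Vz w)⁻¹) ^ (2 * k))) hB0
  calc |∑ a ∈ Bx m d H, QM s io u a * QM s' io v a - G|
      ≤ |∑ a ∈ Bx m d H, QM s io u a * QM s' io v a - D| + |D - G| := abs_sub_le _ _ _
    _ ≤ (Bx m d H).card / Real.log H ^ 1 + (Bx m d H).card * (((Vz w)⁻¹) ^ (2 * k) *
        (C1 * (1 / w + S) + M * (1 / w))) := add_le_add g2 e2
    _ ≤ (Bx m d H).card / Real.log H ^ 1 + (Bx m d H).card * (((Vz w)⁻¹) ^ (2 * k) *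
        (max (C1 + M) ((2 * k : ℕ) : ℝ) * (1 / w + S))) := by linarith
    _ = _ := by ring

/-- the excess at a single point -/
lemma Yf_pt (K : ℝ) (hK : 0 ≤ K) (w z : ℕ) (hw : 1 ≤ w) (u : ℤ) (hu : u ≠ 0) (l : ℝ) (hl : Real.log (|u| : ℤ) ≤ l)
    (hb : 2 * K * l ≤ w) : Yf K w z u - 1 ≤ 4 * K * l / w := by
  classical
  have hw0 : (0 : ℝ) < w := by exact_mod_cast hw
  set S : Finset ℕ := (pw w z).filter (fun p : ℕ => (p : ℤ) ∣ u) with hS
  have h1 : Yf K w z u ≤ Real.exp (K / w * S.card) := by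
    unfold Yf
    calc ∏ p ∈ pw w z, (1 + K * (if (p : ℤ) ∣ u then (1 : ℝ) else 0) / p) ≤
        ∏ p ∈ pw w z, (if (p : ℤ) ∣ u then Real.exp (K / w) else 1) := by
          apply prod_le_prod
          · intro p _
            have : 0 ≤ K * (if (p : ℤ) ∣ u then (1 : ℝ) else 0) / p := by
              have : (0 : ℝ) ≤ (if (p : ℤ) ∣ u then (1 : ℝ) else 0) := by split_ifs <;> norm_num
              positivity
            linarith
          · intro p hp
            rw [mem_pw] at hp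
            split_ifs with hd
            · have h2 : K * 1 / p ≤ K / w := by
                rw [mul_one]
                apply div_le_div_of_nonneg_left hK hw0
                exact_mod_cast hp.1.le
              have h3 := Real.add_one_le_exp (K / w)
              linarith
            · simp
      _ = Real.exp (K / w) ^ S.card := by rw [prod_ite, prod_const, prod_const_one, mul_one]
      _ = Real.exp (K / w * S.card) := by rw [← Real.exp_nat_mul]; ring_nf
  have h2 : (2 : ℝ) ^ S.card ≤ ((|u| : ℤ) : ℝ) := by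
    have h3 : ∏ p ∈ S, p ∣ u.natAbs := by
      apply Finset.prod_primes_dvd
      · intro p hp
        rw [hS, mem_filter, mem_pw] at hp
        exact Nat.prime_iff.1 hp.1.2.2
      · intro p hp
        rw [hS, mem_filter] at hp
        exact Int.natCast_dvd.1 hp.2
    have h4 : 2 ^ S.card ≤ ∏ p ∈ S, p := by
      rw [← prod_const]
      apply prod_le_prod'
      intro p hp
      rw [hS, mem_filter, mem_pw] at hp
      exact hp.1.2.2.two_le
    have h5 : ∏ p ∈ S, p ≤ u.natAbs := Nat.le_of_dvd (Int.natAbs_pos.2 hu) h3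
    have h6 : 2 ^ S.card ≤ u.natAbs := h4.trans h5
    have h7 : ((u.natAbs : ℕ) : ℤ) = |u| := Int.natCast_natAbs u
    rw [← h7]
    exact_mod_cast h6
  have h3 : (S.card : ℝ) * Real.log 2 ≤ l := by
    have h4 := Real.log_le_log (by positivity) h2
    rw [Real.log_pow] at h4
    linarith
  have hlog2 := Real.log_two_gt_d9
  have h5 : (S.card : ℝ) ≤ 2 * l := by
    have h6 : (0 : ℝ) ≤ S.card := Nat.cast_nonneg _
    nlinarith
  set y := K / w * S.card with hy
  have hy0 : 0 ≤ y := by positivity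
  have hyl : y ≤ K / w * (2 * l) := mul_le_mul_of_nonneg_left h5 (by positivity)
  have hyl2 : K / w * (2 * l) = 2 * K * l / w := by ring
  have hy1 : y ≤ 1 := by
    rw [hyl2] at hyl
    refine hyl.trans ?_
    rw [div_le_one hw0]; exact hb
  have h6 : Real.exp y ≤ 1 + 2 * y := by
    have h7 := Real.exp_bound' hy0 hy1 (n := 2) (by norm_num)
    norm_num [Finset.sum_range_succ, Nat.factorial] at h7
    nlinarith
  have h8 : 2 * y ≤ 4 * K * l / w := by
    calc 2 * y ≤ 2 * (K / w * (2 * l)) := by linarith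
      _ = _ := by ring
  linarith

end Pool.Agent.TP975.RP
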