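import Mathlib
import Pool.Agent.TP975.RP.Gn1

/-!
Arbitrary points: the correlation of the differences between the primes and the model.
-/

set_option autoImplicit false

namespace Pool.Agent.TP975.RP

open Finset
open Pool.Agent.H373R2.T7

variable {m d k : ℕ}

/-- distinct points for each polynomial -/
def Nd (io : Fin k → Fin m) (u : Fin k → ℤ) : Prop := ∀ j j', j ≠ j' → io j = io j' → u j ≠ u j'

/-- separated points -/
def Sp (io : Fin k → Fin m) (u v : Fin k → ℤ) : Prop := ∀ j j', io j = io j' → u j ≠ v j'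

lemma Sp.symm {io : Fin k → Fin m} {u v : Fin k → ℤ} (h : Sp io u v) : Sp io v u :=
  fun j j' hj => (h j' j hj.symm).symm

lemma fib_two (io : Fin k → Fin m) (hfib : ∀ i, (univ.filter (fun j => io j = i)).card ≤ d) (l : Fin k) :
    ((univ.erase l).filter (fun l' => io l' = io l)).card + (univ.filter (fun q => io q = io l)).card ≤ 2 * d := by
  have h1 : ((univ.erase l).filter (fun l' => io l' = io l)).card ≤ (univ.filter (fun l' => io l' = io l)).card :=
    card_le_card (filter_subset_filter _ (erase_subset _ _))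
  have h2 := hfib (io l)
  omega

lemma ll_ev (C : ℝ) : ∃ H0 : ℕ, ∀ H : ℕ, H0 ≤ H → C ≤ Real.log (Real.log H) :=
  Filter.eventually_atTop.1 ((Real.tendsto_log_atTop.comp log_tend).eventually_ge_atTop C)

theorem pairG (m d k A : ℕ) (hd : 1 ≤ d) : ∃ C : ℝ, 1 ≤ C ∧ ∃ H0 : ℕ, ∀ H : ℕ, H0 ≤ H → ∀ w : ℕ,
    C * Real.log (Real.log H) ≤ w → (w : ℝ) ≤ Real.log H → ∀ (io : Fin k → Fin m),
    (∀ i, (univ.filter (fun j => io j = i)).card ≤ d) → ∀ (u v : Fin k → ℤ),
    (∀ j, |(u j : ℝ)| ≤ Real.log H ^ A) → (∀ j, |(v j : ℝ)| ≤ Real.log H ^ A) → Nd io u → Nd io v → Sp io u v →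
    |∑ a ∈ Bx m d H, (QL io u a - QM w io u a) * (QL io v a - QM w io v a)| ≤
      (Bx m d H).card * (((Vz w)⁻¹) ^ (2 * k) * (C * (Real.log (Real.log H) / w))) := by
  classical
  obtain ⟨B, hB⟩ := mlt m d A 1 (k + k)
  obtain ⟨H1, h1⟩ := hB (B + 2)
  obtain ⟨C1, hC1, H2, h2⟩ := patG m d k (B + 2) hd
  obtain ⟨H3, h3⟩ := Vz_inv_small (B + 2)
  obtain ⟨H4, h4⟩ := Filter.eventually_atTop.1 (ev_log 3)
  obtain ⟨H5, h5⟩ := ll_ev 1
  have hK0 := Kc_nonneg m k
  set K := Kc m k with hK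
  set C : ℝ := 4 * C1 * (1 + (2 * k : ℝ) ^ 2 * (4 * K * (A + 1))) + 4 + 4 * k + 2 * K * (A + 1) with hC
  have hnn : 0 ≤ C1 * ((2 * k : ℝ) ^ 2 * (4 * K * (A + 1))) := by positivity
  have hA0 : (0 : ℝ) ≤ A := Nat.cast_nonneg _
  have hk0 : (0 : ℝ) ≤ k := Nat.cast_nonneg _
  have hKA : 0 ≤ 2 * K * ((A : ℝ) + 1) := by positivity
  have hCC1 : C1 ≤ C := by rw [hC]; nlinarith
  have hCK : 2 * K * (A + 1) ≤ C := by rw [hC]; nlinarith
  refine ⟨C, hC1.trans hCC1, max (max H1 H2) (max (max H3 H4) (max H5 3)),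
    fun H hH w hCw hwL io hfib u v hu hv hnu hnv hsp => ?_⟩
  have b1 := le_trans (le_trans (le_max_left _ _) (le_max_left _ _)) hH
  have b2 := le_trans (le_trans (le_max_right _ _) (le_max_left _ _)) hH
  have b3 := le_trans (le_trans (le_trans (le_max_left _ _) (le_max_left _ _)) (le_max_right _ _)) hH
  have b4 := le_trans (le_trans (le_trans (le_max_right _ _) (le_max_left _ _)) (le_max_right _ _)) hH
  have b5 := le_trans (le_trans (le_trans (le_max_left _ _) (le_max_right _ _)) (le_max_right _ _)) hH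
  have b6 : 3 ≤ H := le_trans (le_trans (le_trans (le_max_right _ _) (le_max_right _ _)) (le_max_right _ _)) hH
  have hL3 := h4 H b4
  have hLL1 := h5 H b5
  set L := Real.log H with hL
  set LL := Real.log L with hLL
  have hL0 : 0 < L := by linarith
  have hL1 : 1 ≤ L := by linarith
  set z : ℕ := ⌈L ^ (B + 1)⌉₊ + 1 with hz
  have hz0 : L ^ (B + 1) + 1 ≤ z := by
    have : L ^ (B + 1) ≤ (⌈L ^ (B + 1)⌉₊ : ℝ) := Nat.le_ceil _
    rw [hz]; push_cast; linarith
  have hz1 : L ^ (B + 1) ≤ z := by linarith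
  have hz2 : (z : ℝ) ≤ L ^ (B + 2) := by
    have h5 : (⌈L ^ (B + 1)⌉₊ : ℝ) < L ^ (B + 1) + 1 := Nat.ceil_lt_add_one (by positivity)
    have h6 : (1 : ℝ) ≤ L ^ (B + 1) := one_le_pow₀ hL1
    have h7 : L ^ (B + 2) = L ^ (B + 1) * L := by rw [pow_succ]
    have h8 := mul_le_mul_of_nonneg_left hL3 (by linarith : 0 ≤ L ^ (B + 1))
    rw [h7, hz]
    push_cast
    linarith
  have hzB : L ^ B ≤ z := (pow_le_pow_right₀ hL1 (by omega)).trans hz1
  have hC0 : 1 ≤ C := hC1.trans hCC1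
  have hw1r : (1 : ℝ) ≤ w := by
    calc (1 : ℝ) ≤ C * LL := by nlinarith
      _ ≤ w := hCw
  have hw1 : 1 ≤ w := by exact_mod_cast hw1r
  have hw0 : (0 : ℝ) < w := by linarith
  have hwz' : w < z := by
    have : (w : ℝ) < z := by
      calc (w : ℝ) ≤ L := hwL
        _ = L ^ 1 := (pow_one L).symm
        _ ≤ L ^ (B + 1) := pow_le_pow_right₀ hL1 (by omega)
        _ < z := by linarith
    exact_mod_cast this
  have hwz : w ≤ z := hwz'.le
  -- a little larger level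
  have hVzL := h3 H b3 z (by omega) hz2
  have hVwL : (Vz w)⁻¹ ≤ L := (Vz_anti hwz).trans hVzL
  have hL2 : L ≤ L ^ 2 := by rw [sq]; exact le_mul_self' L L hL1 hL0.le
  have hgb : ∀ v : ℤ, |(v : ℝ)| ≤ (H : ℝ) ^ 2 → |ArithmeticFunction.vonMangoldt v.natAbs| ≤ L ^ 2 ∧ |lamz z v.natAbs| ≤ L ^ 2 :=
    fun v hv => g_bd H z b6 (by linarith) hVzL v hv
  have hgw : ∀ v : ℤ, |lamz w v.natAbs| ≤ L ^ 2 := by
    intro v
    rw [abs_of_nonneg (lamz_nonneg _ _)]
    exact (lamz_le _ _).trans (hVwL.trans hL2)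
  have hml : ∀ u v : Fin k → ℤ, (∀ j, |(u j : ℝ)| ≤ L ^ A) → (∀ j, |(v j : ℝ)| ≤ L ^ A) → Nd io u → Sp io u v →
      ∀ g : ℤ → ℝ, (∀ v : ℤ, |(v : ℝ)| ≤ (H : ℝ) ^ 2 → |g v| ≤ L ^ 2) →
      |∑ a ∈ Bx m d H, (QL io u a - QM z io u a) * ∏ j, g (ev (a (io j)) (v j))| ≤ (Bx m d H).card * (k / L ^ 1) := by
    intro u v hu hv hnu hsp g hg
    exact h1 H b1 z hzB hz2 k (Fin k) (by simp) io u io v hu hv hnu hsp (fib_two io hfib) (fun _ => g) (fun _ => hg)
  have m1 := hml u v hu hv hnu hsp (fun x => ArithmeticFunction.vonMangoldt x.natAbs) (fun x hx => (hgb x hx).1)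
  have m2 := hml v u hv hu hnv hsp.symm (fun x => lamz z x.natAbs) (fun x hx => (hgb x hx).2)
  have m3 := hml u v hu hv hnu hsp (fun x => lamz w x.natAbs) (fun x _ => hgw x)
  have m4 := hml v u hv hu hnv hsp.symm (fun x => lamz w x.natAbs) (fun x _ => hgw x)
  have hCw' : C1 ≤ w := hCC1.trans (le_trans (le_mul_self' C LL hLL1 (by linarith)) hCw)
  have p1 := h2 H b2 w z hCw' hwz' hz2 io u v z z (Or.inr rfl) (Or.inr rfl)
  have p2 := h2 H b2 w z hCw' hwz' hz2 io u v z w (Or.inr rfl) (Or.inl rfl)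
  have p3 := h2 H b2 w z hCw' hwz' hz2 io u v w z (Or.inl rfl) (Or.inr rfl)
  have p4 := h2 H b2 w z hCw' hwz' hz2 io u v w w (Or.inl rfl) (Or.inl rfl)
  have n1 : |∑ a ∈ Bx m d H, (QL io u a - QM z io u a) * QL io v a| ≤ (Bx m d H).card * (k / L ^ 1) := m1
  have n2 : |∑ a ∈ Bx m d H, (QL io v a - QM z io v a) * QM z io u a| ≤ (Bx m d H).card * (k / L ^ 1) := m2
  have n3 : |∑ a ∈ Bx m d H, (QL io u a - QM z io u a) * QM w io v a| ≤ (Bx m d H).card * (k / L ^ 1) := m3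
  have n4 : |∑ a ∈ Bx m d H, (QL io v a - QM z io v a) * QM w io u a| ≤ (Bx m d H).card * (k / L ^ 1) := m4
  set G := ∑ a ∈ Bx m d H, Gf w (io2 io) (Sum.elim u v) a with hG
  set S := SxG w z io u v with hS
  set V := ((Vz w)⁻¹) ^ (2 * k) with hV
  have hV1 : 1 ≤ V := one_le_pow₀ (one_le_Vinv w)
  set Bc : ℝ := ((Bx m d H).card : ℝ) with hBc
  have hBc0 : 0 ≤ Bc := Nat.cast_nonneg _
  have e1 : ∑ a ∈ Bx m d H, (QL io u a - QM w io u a) * (QL io v a - QM w io v a) =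
      ∑ a ∈ Bx m d H, (QL io u a - QM z io u a) * QL io v a +
      ∑ a ∈ Bx m d H, (QL io v a - QM z io v a) * QM z io u a -
      ∑ a ∈ Bx m d H, (QL io u a - QM z io u a) * QM w io v a -
      ∑ a ∈ Bx m d H, (QL io v a - QM z io v a) * QM w io u a +
      (∑ a ∈ Bx m d H, QM z io u a * QM z io v a - G) - (∑ a ∈ Bx m d H, QM z io u a * QM w io v a - G) -
      (∑ a ∈ Bx m d H, QM w io u a * QM z io v a - G) + (∑ a ∈ Bx m d H, QM w io u a * QM w io v a - G) := by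
    have e2 : ∑ a ∈ Bx m d H, (QL io u a - QM w io u a) * (QL io v a - QM w io v a) =
      ∑ a ∈ Bx m d H, (QL io u a - QM z io u a) * QL io v a +
      ∑ a ∈ Bx m d H, (QL io v a - QM z io v a) * QM z io u a -
      ∑ a ∈ Bx m d H, (QL io u a - QM z io u a) * QM w io v a -
      ∑ a ∈ Bx m d H, (QL io v a - QM z io v a) * QM w io u a +
      ∑ a ∈ Bx m d H, QM z io u a * QM z io v a - ∑ a ∈ Bx m d H, QM z io u a * QM w io v a -
      ∑ a ∈ Bx m d H, QM w io u a * QM z io v a + ∑ a ∈ Bx m d H, QM w io u a * QM w io v a := by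
      rw [← sum_add_distrib, ← sum_sub_distrib, ← sum_sub_distrib, ← sum_add_distrib, ← sum_sub_distrib,
        ← sum_sub_distrib, ← sum_add_distrib]
      refine sum_congr rfl fun a _ => ?_
      ring
    rw [e2]
    ring
  -- the excess
  have hS1 : S ≤ (2 * k : ℝ) ^ 2 * (4 * K * (A + 1) * LL / w) := by
    rw [hS]
    unfold SxG
    have hq : ∀ q ∈ Qp (io2 io), Yf K w z ((Sum.elim u v : Fin k ⊕ Fin k → ℤ) q.1 - (Sum.elim u v : Fin k ⊕ Fin k → ℤ) q.2) - 1 ≤
        4 * K * (A + 1) * LL / w := by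
      intro q hq
      unfold Qp at hq
      rw [mem_filter] at hq
      have hne : (Sum.elim u v : Fin k ⊕ Fin k → ℤ) q.1 - (Sum.elim u v : Fin k ⊕ Fin k → ℤ) q.2 ≠ 0 := by
        rw [sub_ne_zero]
        obtain ⟨q1, q2⟩ := q
        obtain ⟨_, hq1, hq2⟩ := hq
        simp only at hq1 hq2
        rcases q1 with j | j <;> rcases q2 with j' | j'
        · exact hnu j j' (fun hc => hq1 (by rw [hc])) hq2
        · exact hsp j j' hq2
        · exact (hsp j' j hq2.symm).symm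
        · exact hnv j j' (fun hc => hq1 (by rw [hc])) hq2
      have hbd : ∀ l : Fin k ⊕ Fin k, |(((Sum.elim u v : Fin k ⊕ Fin k → ℤ) l : ℤ) : ℝ)| ≤ L ^ A := by
        rintro (j | j)
        · exact hu j
        · exact hv j
      set x := (Sum.elim u v : Fin k ⊕ Fin k → ℤ) q.1 - (Sum.elim u v : Fin k ⊕ Fin k → ℤ) q.2 with hx
      have hxb : ((|x| : ℤ) : ℝ) ≤ L ^ (A + 1) := by
        push_cast
        rw [hx]
        push_cast
        refine (abs_sub _ _).trans ?_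
        have h1 := hbd q.1
        have h2 := hbd q.2
        have h3 : (0 : ℝ) ≤ L ^ A := by positivity
        rw [pow_succ]
        nlinarith
      have hx1 : (1 : ℝ) ≤ ((|x| : ℤ) : ℝ) := by
        exact_mod_cast Int.one_le_abs hne
      have hlog : Real.log ((|x| : ℤ) : ℝ) ≤ (A + 1) * LL := by
        have h1 := Real.log_le_log (by linarith) hxb
        rw [Real.log_pow] at h1
        push_cast at h1 ⊢
        exact h1
      have h1 := Yf_pt K hK0 w z hw1 x hne ((A + 1) * LL) hlog (by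
        calc 2 * K * ((A + 1) * LL) = 2 * K * (A + 1) * LL := by ring
          _ ≤ C * LL := mul_le_mul_of_nonneg_right hCK (by linarith)
          _ ≤ w := hCw)
      refine h1.trans (le_of_eq ?_)
      ring
    refine (sum_le_sum hq).trans ?_
    rw [sum_const, nsmul_eq_mul]
    have hcard : ((Qp (io2 io)).card : ℝ) ≤ (2 * k : ℝ) ^ 2 := by
      have h1 : (Qp (io2 io)).card ≤ (2 * k) ^ 2 := by
        unfold Qp
        refine (card_filter_le _ _).trans (le_of_eq ?_)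
        rw [card_univ, Fintype.card_prod, Fintype.card_sum, Fintype.card_fin]
        ring
      exact_mod_cast h1
    apply mul_le_mul_of_nonneg_right hcard
    have : 0 ≤ LL := by linarith
    positivity
  have hS0 : 0 ≤ S := by
    rw [hS]; unfold SxG
    refine sum_nonneg fun q _ => ?_
    have := Yf_one_le (Kc m k) (Kc_nonneg m k) w z ((Sum.elim u v : Fin k ⊕ Fin k → ℤ) q.1 - (Sum.elim u v : Fin k ⊕ Fin k → ℤ) q.2)
    linarith
  have hfin : |∑ a ∈ Bx m d H, (QL io u a - QM w io u a) * (QL io v a - QM w io v a)| ≤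
      4 * (Bc * (k / L ^ 1)) + 4 * (Bc * (V * (C1 * (1 / w + S)) + 1 / L ^ 1)) := by
    rw [e1]
    rw [abs_le] at n1 n2 n3 n4 p1 p2 p3 p4 ⊢
    constructor <;> linarith [n1.1, n1.2, n2.1, n2.2, n3.1, n3.2, n4.1, n4.2, p1.1, p1.2, p2.1, p2.2, p3.1, p3.2, p4.1, p4.2]
  refine hfin.trans ?_
  rw [pow_one]
  have hu0 : 0 < 1 / (w : ℝ) := by positivity
  have hLw : 1 / L ≤ 1 / w := one_div_le_one_div_of_le hw0 hwL
  set r : ℝ := LL / w with hr
  have hur : 1 / (w : ℝ) ≤ r := by rw [hr]; exact div_le_div_of_nonneg_right hLL1 hw0.le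
  have hr0 : 0 < r := by linarith
  have q1 : 1 / L ≤ V * r := hLw.trans (hur.trans (le_mul_V _ _ V le_rfl hr0.le hV1))
  have q2 : V * (C1 * (1 / w + S)) ≤ V * (C1 * (r + (2 * k : ℝ) ^ 2 * (4 * K * (A + 1)) * r)) := by
    apply mul_le_mul_of_nonneg_left _ (by linarith)
    apply mul_le_mul_of_nonneg_left _ (by linarith)
    have : (2 * k : ℝ) ^ 2 * (4 * K * (A + 1) * LL / w) = (2 * k : ℝ) ^ 2 * (4 * K * (A + 1)) * r := by rw [hr]; ring
    linarith
  have q3 : 4 * (Bc * (k / L)) = Bc * (4 * k * (1 / L)) := by ring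
  have q4 : Bc * (4 * k * (1 / L)) ≤ Bc * (4 * k * (V * r)) := by
    apply mul_le_mul_of_nonneg_left _ hBc0
    exact mul_le_mul_of_nonneg_left q1 (by positivity)
  have q5 : 4 * (Bc * (V * (C1 * (1 / w + S)) + 1 / L)) ≤
      4 * (Bc * (V * (C1 * (r + (2 * k : ℝ) ^ 2 * (4 * K * (A + 1)) * r)) + V * r)) := by
    apply mul_le_mul_of_nonneg_left _ (by norm_num)
    apply mul_le_mul_of_nonneg_left _ hBc0
    linarith
  have q6 : Bc * (4 * k * (V * r)) + 4 * (Bc * (V * (C1 * (r + (2 * k : ℝ) ^ 2 * (4 * K * (A + 1)) * r)) + V * r)) =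
      Bc * (V * ((C - 2 * K * (A + 1)) * r)) := by rw [hC]; ring
  have q7 : Bc * (V * ((C - 2 * K * (A + 1)) * r)) ≤ Bc * (V * (C * r)) := by
    apply mul_le_mul_of_nonneg_left _ hBc0
    apply mul_le_mul_of_nonneg_left _ (by linarith)
    apply mul_le_mul_of_nonneg_right _ hr0.le
    linarith
  linarith

end Pool.Agent.TP975.RP
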