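import Mathlib
import Pool.Agent.TP975.RP.Gn2

/-!
Arbitrary points: the mean square of the difference between the primes and the model.
-/

set_option autoImplicit false

namespace Pool.Agent.TP975.RP

open Finset
open Pool.Agent.H373R2.T7

variable {m d k : ℕ}

open Classical in
/-- a system of points with few coincidences -/
structure Pts (A c0 H : ℕ) (io : Fin k → Fin m) (T : Finset ℕ) (G : ℕ → Fin k → ℤ) : Prop where
  bd : ∀ n ∈ T, ∀ j, |(G n j : ℝ)| ≤ Real.log H ^ A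
  dg : (T.filter (fun n => ¬ Nd io (G n))).card ≤ c0
  co : ((T ×ˢ T).filter (fun q => ¬ Sp io (G q.1) (G q.2))).card ≤ c0 * T.card

lemma QL_bd (A H : ℕ) (hH : 1 ≤ H) (hL1 : 1 ≤ Real.log H) (hbig : ((d : ℝ) + 1) * Real.log H ^ (A * d) ≤ H)
    {a : Fin m → Fin (d + 1) → ℤ} (ha : a ∈ Bx m d H) (io : Fin k → Fin m) (u : Fin k → ℤ)
    (hu : ∀ j, |(u j : ℝ)| ≤ Real.log H ^ A) : QL io u a ≤ (2 * Real.log H) ^ k := by
  unfold QL
  calc ∏ j, ArithmeticFunction.vonMangoldt (ev (a (io j)) (u j)).natAbs ≤ ∏ j : Fin k, (2 * Real.log H) :=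
        prod_le_prod (fun j _ => ArithmeticFunction.vonMangoldt_nonneg)
          (fun j _ => Lam_bd A H hH hL1 hbig ha (io j) (u j) (hu j))
    _ = _ := by rw [prod_const, card_univ, Fintype.card_fin]

lemma sq_two (x y : ℝ) : (x + y) ^ 2 ≤ 2 * x ^ 2 + 2 * y ^ 2 := by nlinarith [sq_nonneg (x - y)]

lemma pow_small (N : ℕ) (ε : ℝ) (hε : 0 < ε) : ∃ H0 : ℕ, ∀ H : ℕ, H0 ≤ H →
    Real.log (Real.log H) ^ N ≤ Real.log H ^ ε := by
  have h1 := (isLittleO_log_rpow_rpow_atTop (N : ℝ) hε).bound (show (0 : ℝ) < 1 by norm_num)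
  obtain ⟨H0, h0⟩ := Filter.eventually_atTop.1 ((log_tend.eventually h1).and (log_tend.eventually_ge_atTop 1))
  refine ⟨H0, fun H hH => ?_⟩
  obtain ⟨a1, a2⟩ := h0 H hH
  have h3 := Real.log_nonneg a2
  rw [Real.rpow_natCast, Real.norm_of_nonneg (by positivity), Real.norm_of_nonneg (by positivity), one_mul] at a1
  exact a1

open Classical in
theorem msG (m d k A c0 N : ℕ) (hd : 1 ≤ d) (ε : ℝ) (hε : 0 < ε) : ∃ C : ℝ, 1 ≤ C ∧ ∃ H0 : ℕ, ∀ H : ℕ, H0 ≤ H →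
    ∀ w : ℕ, C * Real.log (Real.log H) ≤ w → (w : ℝ) ≤ Real.log (Real.log H) ^ N → ∀ (io : Fin k → Fin m),
    (∀ i, (univ.filter (fun j => io j = i)).card ≤ d) → ∀ (T : Finset ℕ) (G : ℕ → Fin k → ℤ), Pts A c0 H io T G →
    Real.log H ^ ((k : ℝ) + ε) ≤ T.card → ∀ ν : ℕ → ℝ, (∀ n, |ν n| ≤ 1) →
    ∑ a ∈ Bx m d H, (∑ n ∈ T, ν n * (QL io (G n) a - QM w io (G n) a)) ^ 2 ≤
      (Bx m d H).card * ((T.card : ℝ) ^ 2 * (((Vz w)⁻¹) ^ (2 * k) * (C * (Real.log (Real.log H) / w)))) := by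
  obtain ⟨C1, hC1, H1, h1⟩ := pairG m d k A hd
  obtain ⟨B, hB⟩ := meanW_le m d k A
  obtain ⟨H2, h2⟩ := hB (B + 2)
  obtain ⟨H3, h3⟩ := Vz_eps (B + 2) k (ε / 2) (by positivity)
  obtain ⟨H4, h4⟩ := Vz_inv_small (B + 2)
  obtain ⟨H5, h5⟩ := Filter.eventually_atTop.1 (ev_log 3)
  obtain ⟨H6, h6⟩ := ll_ev 1
  obtain ⟨H7, h7⟩ := pow_small N (min (ε / 2) 1) (by positivity)
  obtain ⟨H8, h8⟩ := Filter.eventually_atTop.1 (ev_pow (A * d) ((d : ℝ) + 1))
  have hk0 : (0 : ℝ) ≤ k := Nat.cast_nonneg _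
  have hc00 : (0 : ℝ) ≤ c0 := Nat.cast_nonneg _
  set C : ℝ := 2 * (C1 + c0 * (2 ^ k * (2 + k))) + 2 * ((c0 : ℝ) ^ 2 * 4 ^ k) with hC
  have hCC1 : C1 ≤ C := by
    rw [hC]
    have : 0 ≤ (c0 : ℝ) * (2 ^ k * (2 + k)) := by positivity
    have : 0 ≤ (c0 : ℝ) ^ 2 * 4 ^ k := by positivity
    linarith
  refine ⟨C, hC1.trans hCC1, max (max (max H1 H2) (max H3 H4)) (max (max H5 H6) (max (max H7 H8) 3)),
    fun H hH w hCw hwN io hfib T G hP hX ν hν => ?_⟩
  have b0 := le_trans (le_max_left _ _) hH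
  have b0' := le_trans (le_max_right _ _) hH
  have b1 := le_trans (le_max_left _ _) (le_trans (le_max_left _ _) b0)
  have b2 := le_trans (le_max_right _ _) (le_trans (le_max_left _ _) b0)
  have b3 := le_trans (le_max_left _ _) (le_trans (le_max_right _ _) b0)
  have b4 := le_trans (le_max_right _ _) (le_trans (le_max_right _ _) b0)
  have b5 := le_trans (le_max_left _ _) (le_trans (le_max_left _ _) b0')
  have b6 := le_trans (le_max_right _ _) (le_trans (le_max_left _ _) b0')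
  have b7 := le_trans (le_max_left _ _) (le_trans (le_max_left _ _) (le_trans (le_max_right _ _) b0'))
  have b8 := le_trans (le_max_right _ _) (le_trans (le_max_left _ _) (le_trans (le_max_right _ _) b0'))
  have b9 : 3 ≤ H := le_trans (le_max_right _ _) (le_trans (le_max_right _ _) b0')
  have hL3 := h5 H b5
  have hLL1 := h6 H b6
  have hpw := h7 H b7
  have hbig := h8 H b8
  have hW := h2 H b2
  have hVe := h3 H b3
  have hVs := h4 H b4
  have hpr := h1 H b1 w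
  set L := Real.log H with hL
  set LL := Real.log L with hLL
  have hL0 : 0 < L := by linarith
  have hL1 : 1 ≤ L := by linarith
  have hC0 : 1 ≤ C := hC1.trans hCC1
  have hw1r : (1 : ℝ) ≤ w := by
    calc (1 : ℝ) ≤ C * LL := by nlinarith
      _ ≤ w := hCw
  have hw1 : 1 ≤ w := by exact_mod_cast hw1r
  have hw0 : (0 : ℝ) < w := by linarith
  have hwe : (w : ℝ) ≤ L ^ (ε / 2) := hwN.trans (hpw.trans (Real.rpow_le_rpow_of_exponent_le hL1 (min_le_left _ _)))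
  have hwL : (w : ℝ) ≤ L := by
    calc (w : ℝ) ≤ L ^ (min (ε / 2) 1) := hwN.trans hpw
      _ ≤ L ^ (1 : ℝ) := Real.rpow_le_rpow_of_exponent_le hL1 (min_le_right _ _)
      _ = L := Real.rpow_one L
  set z : ℕ := ⌈L ^ (B + 1)⌉₊ with hz
  have hz1 : L ^ (B + 1) ≤ z := Nat.le_ceil _
  have hz2 : (z : ℝ) ≤ L ^ (B + 2) := by
    have h5 : (z : ℝ) < L ^ (B + 1) + 1 := Nat.ceil_lt_add_one (by positivity)
    have h6 : (1 : ℝ) ≤ L ^ (B + 1) := one_le_pow₀ hL1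
    have h7 : L ^ (B + 2) = L ^ (B + 1) * L := by rw [pow_succ]
    rw [h7]
    exact ceil_aux z _ L h5 h6 hL3
  have hzB : L ^ B ≤ z := (pow_le_pow_right₀ hL1 (by omega)).trans hz1
  have hwz : w ≤ z := by
    have : (w : ℝ) ≤ z := by
      calc (w : ℝ) ≤ L := hwL
        _ = L ^ 1 := (pow_one L).symm
        _ ≤ L ^ (B + 1) := pow_le_pow_right₀ hL1 (by omega)
        _ ≤ z := hz1
    exact_mod_cast this
  have hVzL := hVs z (by omega) hz2
  have hVwz : ((Vz w)⁻¹) ^ k ≤ ((Vz z)⁻¹) ^ k :=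
    pow_le_pow_left₀ (by have := one_le_Vinv w; linarith) (Vz_anti hwz) k
  have hVze := hVe z hz2
  set V := ((Vz w)⁻¹) ^ (2 * k) with hV
  have hV1 : 1 ≤ V := one_le_pow₀ (one_le_Vinv w)
  set Bc : ℝ := ((Bx m d H).card : ℝ) with hBc
  have hBc0 : 0 ≤ Bc := Nat.cast_nonneg _
  set X : ℝ := (T.card : ℝ) with hXd
  have hX0 : 0 < X := lt_of_lt_of_le (Real.rpow_pos_of_pos hL0 _) hX
  set r : ℝ := LL / w with hr
  have hr0 : 0 < r := by rw [hr]; positivity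
  have hur : 1 / (w : ℝ) ≤ r := by rw [hr]; exact div_le_div_of_nonneg_right hLL1 hw0.le
  set D : ℕ → (Fin m → Fin (d + 1) → ℤ) → ℝ := fun n a => QL io (G n) a - QM w io (G n) a with hD
  have hDb : ∀ n ∈ T, ∀ a ∈ Bx m d H, |D n a| ≤ (2 * L) ^ k := by
    intro n hn a ha
    have p1 := QL_bd A H (by omega) hL1 hbig ha io (G n) (hP.bd n hn)
    have p2 : QM w io (G n) a ≤ (2 * L) ^ k := by
      refine (QM_bd w io (G n) a).2.trans (hVwz.trans ?_)
      apply pow_le_pow_left₀ (by have := one_le_Vinv z; linarith)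
      linarith
    have p3 := QL_nonneg io (G n) a
    have p4 := (QM_bd w io (G n) a).1
    rw [hD, abs_le]
    constructor <;> simp only <;> linarith
  have hDs : ∀ n ∈ T, Nd io (G n) → ∑ a ∈ Bx m d H, |D n a| ≤ Bc * ((2 + k) * L ^ (ε / 2)) := by
    intro n hn hnd
    have p1 := hW z hzB hz2 io (G n) (hP.bd n hn) hnd (fun l => by have := hfib l; omega)
    have p2 : ∑ a ∈ Bx m d H, |D n a| ≤ ∑ a ∈ Bx m d H, (Wt io (G n) a + L ^ (ε / 2)) := by
      refine sum_le_sum fun a _ => ?_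
      have p3 := QL_nonneg io (G n) a
      have p4 := QM_bd w io (G n) a
      have p5 : QM w io (G n) a ≤ L ^ (ε / 2) := p4.2.trans (hVwz.trans hVze)
      have p6 : Wt io (G n) a = QL io (G n) a := rfl
      have p7 : 0 ≤ L ^ (ε / 2) := Real.rpow_nonneg hL0.le _
      rw [p6, hD, abs_le]
      constructor <;> simp only <;> linarith
    refine p2.trans ?_
    rw [sum_add_distrib, sum_const, nsmul_eq_mul]
    have p8 : Bc * ((1 + k) * ((Vz z)⁻¹) ^ k) ≤ Bc * ((1 + k) * L ^ (ε / 2)) := by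
      apply mul_le_mul_of_nonneg_left _ hBc0
      exact mul_le_mul_of_nonneg_left hVze (by positivity)
    linarith
  set T1 := T.filter (fun n => Nd io (G n)) with hT1
  set T2 := T.filter (fun n => ¬ Nd io (G n)) with hT2
  -- the degenerate part
  have hS2 : ∀ a ∈ Bx m d H, (∑ n ∈ T2, ν n * D n a) ^ 2 ≤ (c0 : ℝ) ^ 2 * 4 ^ k * L ^ (2 * k) := by
    intro a ha
    have p1 : |∑ n ∈ T2, ν n * D n a| ≤ c0 * (2 * L) ^ k := by
      refine (abs_sum_le_sum_abs _ _).trans ?_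
      have p2 : ∀ n ∈ T2, |ν n * D n a| ≤ (2 * L) ^ k := by
        intro n hn
        rw [hT2, mem_filter] at hn
        rw [abs_mul]
        have p3 := hDb n hn.1 a ha
        calc |ν n| * |D n a| ≤ 1 * (2 * L) ^ k := mul_le_mul (hν n) p3 (abs_nonneg _) (by norm_num)
          _ = _ := one_mul _
      refine (sum_le_sum p2).trans ?_
      rw [sum_const, nsmul_eq_mul]
      apply mul_le_mul_of_nonneg_right _ (by positivity)
      exact_mod_cast hP.dg
    have p4 := sq_le_sq' (by linarith [(abs_le.1 p1).1]) (abs_le.1 p1).2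
    refine p4.trans (le_of_eq ?_)
    rw [mul_pow, mul_pow, mul_pow, ← pow_mul, ← pow_mul, mul_comm k 2, pow_mul (2 : ℝ) 2 k]
    norm_num
    ring
  -- the main part
  have e1 : ∑ a ∈ Bx m d H, (∑ n ∈ T1, ν n * D n a) ^ 2 =
      ∑ q ∈ T1 ×ˢ T1, ν q.1 * ν q.2 * ∑ a ∈ Bx m d H, D q.1 a * D q.2 a := by
    have h3 : ∀ a ∈ Bx m d H, (∑ n ∈ T1, ν n * D n a) ^ 2 =
        ∑ q ∈ T1 ×ˢ T1, ν q.1 * ν q.2 * (D q.1 a * D q.2 a) := by
      intro a _
      rw [sq, sum_mul_sum, sum_product]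
      refine sum_congr rfl fun n _ => sum_congr rfl fun n' _ => ?_
      ring
    rw [sum_congr rfl h3, sum_comm]
    refine sum_congr rfl fun q _ => ?_
    rw [← mul_sum]
  have hpair : ∀ q ∈ T1 ×ˢ T1, ν q.1 * ν q.2 * ∑ a ∈ Bx m d H, D q.1 a * D q.2 a ≤
      Bc * (V * (C1 * r)) + Bc * ((2 * L) ^ k * ((2 + k) * L ^ (ε / 2))) * (if ¬ Sp io (G q.1) (G q.2) then 1 else 0) := by
    intro q hq
    rw [mem_product, hT1, mem_filter, mem_filter] at hq
    obtain ⟨⟨q1, q2⟩, q3, q4⟩ := hq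
    have hνν : |ν q.1 * ν q.2| ≤ 1 := by
      rw [abs_mul]
      calc |ν q.1| * |ν q.2| ≤ 1 * 1 := mul_le_mul (hν _) (hν _) (abs_nonneg _) (by norm_num)
        _ = 1 := one_mul _
    have hab : ν q.1 * ν q.2 * ∑ a ∈ Bx m d H, D q.1 a * D q.2 a ≤ |∑ a ∈ Bx m d H, D q.1 a * D q.2 a| := by
      refine (le_abs_self _).trans ?_
      rw [abs_mul]
      exact mul_le_of_le_one_left (abs_nonneg _) hνν
    refine hab.trans ?_
    by_cases hsp : Sp io (G q.1) (G q.2)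
    · rw [if_neg (not_not.2 hsp), mul_zero, add_zero]
      exact hpr (le_trans (mul_le_mul_of_nonneg_right hCC1 (by linarith)) hCw) hwL io hfib (G q.1) (G q.2)
        (hP.bd _ q1) (hP.bd _ q3) q2 q4 hsp
    · rw [if_pos hsp, mul_one]
      have p1 : |∑ a ∈ Bx m d H, D q.1 a * D q.2 a| ≤ (2 * L) ^ k * ∑ a ∈ Bx m d H, |D q.1 a| := by
        refine (abs_sum_le_sum_abs _ _).trans ?_
        rw [mul_sum]
        refine sum_le_sum fun a ha => ?_
        rw [abs_mul, mul_comm]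
        exact mul_le_mul_of_nonneg_right (hDb q.2 q3 a ha) (abs_nonneg _)
      refine p1.trans ?_
      have p2 := mul_le_mul_of_nonneg_left (hDs q.1 q1 q2) (by positivity : 0 ≤ (2 * L) ^ k)
      have p3 : 0 ≤ Bc * (V * (C1 * r)) := by positivity
      linarith
  have hLe0 : 0 < L ^ (ε / 2) := Real.rpow_pos_of_pos hL0 _
  have hLk : L ^ k * (L ^ (ε / 2) * L ^ (ε / 2)) ≤ X := by
    have : L ^ k * (L ^ (ε / 2) * L ^ (ε / 2)) = L ^ ((k : ℝ) + ε) := by
      rw [← Real.rpow_natCast, ← Real.rpow_add hL0, ← Real.rpow_add hL0]; congr 1; ring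
    rw [this]; exact hX
  have hmain : ∑ a ∈ Bx m d H, (∑ n ∈ T1, ν n * D n a) ^ 2 ≤
      Bc * (X ^ 2 * (V * ((C1 + c0 * (2 ^ k * (2 + k))) * r))) := by
    rw [e1]
    refine (sum_le_sum hpair).trans ?_
    rw [sum_add_distrib, sum_const, nsmul_eq_mul, ← mul_sum, sum_boole, card_product]
    have hc1 : (((T1.card * T1.card : ℕ)) : ℝ) ≤ X ^ 2 := by
      have : T1.card ≤ T.card := card_filter_le _ _
      rw [hXd]
      have h2 : T1.card * T1.card ≤ T.card ^ 2 := by rw [sq]; exact Nat.mul_le_mul this this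
      exact_mod_cast h2
    have hc2 : (((T1 ×ˢ T1).filter (fun q => ¬ Sp io (G q.1) (G q.2))).card : ℝ) ≤ c0 * X := by
      have h2 : ((T1 ×ˢ T1).filter (fun q => ¬ Sp io (G q.1) (G q.2))).card ≤ c0 * T.card := by
        refine le_trans (card_le_card ?_) hP.co
        exact filter_subset_filter _ (product_subset_product (filter_subset _ _) (filter_subset _ _))
      rw [hXd]
      exact_mod_cast h2
    have f1 : (((T1.card * T1.card : ℕ)) : ℝ) * (Bc * (V * (C1 * r))) ≤ Bc * (X ^ 2 * (V * (C1 * r))) := by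
      have := mul_le_mul_of_nonneg_right hc1 (by positivity : 0 ≤ Bc * (V * (C1 * r)))
      refine this.trans (le_of_eq ?_)
      ring
    have f2 : Bc * ((2 * L) ^ k * ((2 + k) * L ^ (ε / 2))) * (((T1 ×ˢ T1).filter (fun q => ¬ Sp io (G q.1) (G q.2))).card : ℝ) ≤
        Bc * (X ^ 2 * (V * (c0 * (2 ^ k * (2 + k)) * r))) := by
      have g1 : L ^ k * L ^ (ε / 2) ≤ X * r := by
        have g2 : L ^ k * L ^ (ε / 2) * w ≤ X := by
          calc L ^ k * L ^ (ε / 2) * w ≤ L ^ k * L ^ (ε / 2) * L ^ (ε / 2) :=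
                mul_le_mul_of_nonneg_left hwe (by positivity)
            _ = L ^ k * (L ^ (ε / 2) * L ^ (ε / 2)) := by ring
            _ ≤ X := hLk
        have g3 : L ^ k * L ^ (ε / 2) ≤ X * (1 / w) := by
          rw [mul_one_div, le_div_iff₀ hw0]; exact g2
        exact g3.trans (mul_le_mul_of_nonneg_left hur hX0.le)
      have g4 := mul_le_mul_of_nonneg_left hc2 (by positivity : 0 ≤ Bc * ((2 * L) ^ k * ((2 + k) * L ^ (ε / 2))))
      refine g4.trans ?_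
      have g5 : Bc * ((2 * L) ^ k * ((2 + k) * L ^ (ε / 2))) * (c0 * X) =
          (Bc * X * (c0 * (2 ^ k * (2 + k)))) * (L ^ k * L ^ (ε / 2)) := by rw [mul_pow]; ring
      rw [g5]
      have g6 := mul_le_mul_of_nonneg_left g1 (by positivity : 0 ≤ Bc * X * (c0 * (2 ^ k * (2 + k))))
      refine g6.trans ?_
      have g7 : Bc * X * (c0 * (2 ^ k * (2 + k))) * (X * r) = 1 * (Bc * (X ^ 2 * (c0 * (2 ^ k * (2 + k)) * r))) := by ring
      rw [g7]
      have g8 := mul_le_mul_of_nonneg_right hV1 (by positivity : 0 ≤ Bc * (X ^ 2 * (c0 * (2 ^ k * (2 + k)) * r)))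
      refine g8.trans (le_of_eq ?_)
      ring
    calc _ ≤ Bc * (X ^ 2 * (V * (C1 * r))) + Bc * (X ^ 2 * (V * (c0 * (2 ^ k * (2 + k)) * r))) := add_le_add f1 f2
      _ = _ := by ring
  have hdeg : ∑ a ∈ Bx m d H, (∑ n ∈ T2, ν n * D n a) ^ 2 ≤ Bc * (X ^ 2 * (V * ((c0 : ℝ) ^ 2 * 4 ^ k * r))) := by
    refine (sum_le_sum hS2).trans ?_
    rw [sum_const, nsmul_eq_mul]
    have g1 : L ^ (2 * k) * w ≤ X ^ 2 := by
      have g2 : (L ^ k * (L ^ (ε / 2) * L ^ (ε / 2))) ^ 2 ≤ X ^ 2 := pow_le_pow_left₀ (by positivity) hLk 2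
      refine le_trans ?_ g2
      have hLe1 : 1 ≤ L ^ (ε / 2) := Real.one_le_rpow hL1 (by positivity)
      have e : (L ^ k * (L ^ (ε / 2) * L ^ (ε / 2))) ^ 2 = L ^ (2 * k) * (L ^ (ε / 2) * (L ^ (ε / 2)) ^ 3) := by
        rw [mul_pow, ← pow_mul, mul_comm k 2]; ring
      rw [e]
      apply mul_le_mul_of_nonneg_left _ (by positivity)
      calc (w : ℝ) ≤ L ^ (ε / 2) * 1 := by rw [mul_one]; exact hwe
        _ ≤ L ^ (ε / 2) * (L ^ (ε / 2)) ^ 3 := mul_le_mul_of_nonneg_left (one_le_pow₀ hLe1) hLe0.le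
    have g3 : L ^ (2 * k) ≤ X ^ 2 * r := by
      have g4 : L ^ (2 * k) ≤ X ^ 2 * (1 / w) := by
        rw [mul_one_div, le_div_iff₀ hw0]; exact g1
      exact g4.trans (mul_le_mul_of_nonneg_left hur (by positivity))
    have g5 := mul_le_mul_of_nonneg_left g3 (by positivity : 0 ≤ Bc * ((c0 : ℝ) ^ 2 * 4 ^ k))
    have g6 : Bc * ((c0 : ℝ) ^ 2 * 4 ^ k * L ^ (2 * k)) = Bc * ((c0 : ℝ) ^ 2 * 4 ^ k) * L ^ (2 * k) := by ring
    rw [g6]
    refine g5.trans ?_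
    have g7 : Bc * ((c0 : ℝ) ^ 2 * 4 ^ k) * (X ^ 2 * r) = 1 * (Bc * (X ^ 2 * ((c0 : ℝ) ^ 2 * 4 ^ k * r))) := by ring
    rw [g7]
    have g8 := mul_le_mul_of_nonneg_right hV1 (by positivity : 0 ≤ Bc * (X ^ 2 * ((c0 : ℝ) ^ 2 * 4 ^ k * r)))
    refine g8.trans (le_of_eq ?_)
    ring
  have hsplit : ∀ a ∈ Bx m d H, (∑ n ∈ T, ν n * D n a) ^ 2 ≤
      2 * (∑ n ∈ T1, ν n * D n a) ^ 2 + 2 * (∑ n ∈ T2, ν n * D n a) ^ 2 := by
    intro a _
    rw [← sum_filter_add_sum_filter_not T (fun n => Nd io (G n))]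
    exact sq_two _ _
  refine (sum_le_sum hsplit).trans ?_
  rw [sum_add_distrib, ← mul_sum, ← mul_sum]
  have : Bc * (X ^ 2 * (V * (C * r))) = 2 * (Bc * (X ^ 2 * (V * ((C1 + c0 * (2 ^ k * (2 + k))) * r)))) +
      2 * (Bc * (X ^ 2 * (V * ((c0 : ℝ) ^ 2 * 4 ^ k * r)))) := by rw [hC]; ring
  rw [this]
  linarith

end Pool.Agent.TP975.RP
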