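import Mathlib
import Pool.Agent.TP975.RP.Gn3

/-!
Arbitrary points: the number of prime values.
-/

set_option autoImplicit false

namespace Pool.Agent.TP975.RP

open Finset
open Pool.Agent.H373R2.T7

variable {m d k : ℕ}

/-- the number of the indices for which all the values are primes in absolute value -/
def piG (io : Fin k → Fin m) (T : Finset ℕ) (G : ℕ → Fin k → ℤ) (a : Fin m → Fin (d + 1) → ℤ) : ℕ :=
  (T.filter (fun n : ℕ => ∀ j, (ev (a (io j)) (G n j)).natAbs.Prime)).card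

/-- the model -/
noncomputable def MG (w : ℕ) (io : Fin k → Fin m) (T : Finset ℕ) (G : ℕ → Fin k → ℤ) (a : Fin m → Fin (d + 1) → ℤ) : ℝ :=
  ∑ n ∈ T, QM w io (G n) a

lemma MG_nonneg (w : ℕ) (io : Fin k → Fin m) (T : Finset ℕ) (G : ℕ → Fin k → ℤ) (a : Fin m → Fin (d + 1) → ℤ) :
    0 ≤ MG w io T G a := sum_nonneg fun n _ => (QM_bd w io (G n) a).1

/-- the exceptional coefficient vectors -/
def BadG (io : Fin k → Fin m) (T : Finset ℕ) (G : ℕ → Fin k → ℤ) (y Y : ℕ) (a : Fin m → Fin (d + 1) → ℤ) : Prop :=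
  ∃ n ∈ T, ∃ j, ev (a (io j)) (G n j) ∈ badS y Y

open Classical in
lemma BadG_card (H : ℕ) (io : Fin k → Fin m) (T : Finset ℕ) (G : ℕ → Fin k → ℤ) (y Y : ℕ) :
    (((Bx m d H).filter (fun a => BadG io T G y Y a)).card : ℝ) ≤
      (Bx m d H).card * (T.card * k * (((badS y Y).card : ℝ) / (2 * H + 1))) := by
  have h1 : (Bx m d H).filter (fun a => BadG io T G y Y a) ⊆ (T ×ˢ (univ : Finset (Fin k))).biUnion
      (fun q => (Bx m d H).filter (fun a => ev (a (io q.2)) (G q.1 q.2) ∈ badS y Y)) := by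
    intro a ha
    rw [mem_filter] at ha
    obtain ⟨ha1, n, hn, j, hj⟩ := ha
    rw [mem_biUnion]
    exact ⟨(n, j), mem_product.2 ⟨hn, mem_univ _⟩, mem_filter.2 ⟨ha1, hj⟩⟩
  have h2 : (((Bx m d H).filter (fun a => BadG io T G y Y a)).card : ℝ) ≤ ∑ q ∈ T ×ˢ (univ : Finset (Fin k)),
      (((Bx m d H).filter (fun a => ev (a (io q.2)) (G q.1 q.2) ∈ badS y Y)).card : ℝ) := by
    exact_mod_cast (card_le_card h1).trans card_biUnion_le
  refine h2.trans ((sum_le_sum fun q _ => few H (io q.2) _ _).trans (le_of_eq ?_))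
  rw [sum_const, card_product, card_univ, Fintype.card_fin, nsmul_eq_mul]
  push_cast
  ring

/-- from the weighted count to the count of primes -/
lemma transferG (io : Fin k → Fin m) (T : Finset ℕ) (G : ℕ → Fin k → ℤ) (a : Fin m → Fin (d + 1) → ℤ) (y Y : ℕ) (L η : ℝ)
    (hL : 0 ≤ L) (hη1 : η ≤ 1) (hy : (1 - η) * L ≤ Real.log (y + 1)) (hY : Real.log Y ≤ (1 + η) * L)
    (hv : ∀ n ∈ T, ∀ j, |ev (a (io j)) (G n j)| ≤ Y) (hbad : ¬ BadG io T G y Y a) :
    ((1 - η) * L) ^ k * piG io T G a ≤ ∑ n ∈ T, QL io (G n) a ∧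
    ∑ n ∈ T, QL io (G n) a ≤ ((1 + η) * L) ^ k * piG io T G a := by
  classical
  have hb : ∀ n ∈ T, ∀ j, ev (a (io j)) (G n j) ∉ badS y Y := by
    intro n hn j hc
    exact hbad ⟨n, hn, j, hc⟩
  have h1 : ∑ n ∈ T, QL io (G n) a = ∑ n ∈ T.filter (fun n : ℕ => ∀ j, (ev (a (io j)) (G n j)).natAbs.Prime),
      QL io (G n) a := by
    rw [sum_filter]
    refine sum_congr rfl fun n hn => ?_
    split_ifs with hp
    · rfl
    · push Not at hp
      obtain ⟨j, hj⟩ := hp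
      unfold QL
      apply prod_eq_zero (mem_univ j)
      obtain ⟨_, h2⟩ := not_badS y Y _ (hb n hn j) (hv n hn j)
      rw [ArithmeticFunction.vonMangoldt_apply, if_neg]
      intro hpp
      exact hj (h2 hpp)
  have h2 : ∀ n ∈ T.filter (fun n : ℕ => ∀ j, (ev (a (io j)) (G n j)).natAbs.Prime),
      ((1 - η) * L) ^ k ≤ QL io (G n) a ∧ QL io (G n) a ≤ ((1 + η) * L) ^ k := by
    intro n hn
    rw [mem_filter] at hn
    have h3 : ∀ j, (1 - η) * L ≤ ArithmeticFunction.vonMangoldt (ev (a (io j)) (G n j)).natAbs ∧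
        ArithmeticFunction.vonMangoldt (ev (a (io j)) (G n j)).natAbs ≤ (1 + η) * L := by
      intro j
      rw [ArithmeticFunction.vonMangoldt_apply_prime (hn.2 j)]
      obtain ⟨h4, _⟩ := not_badS y Y _ (hb n hn.1 j) (hv n hn.1 j)
      have h5 : ((ev (a (io j)) (G n j)).natAbs : ℤ) = |ev (a (io j)) (G n j)| := Int.natCast_natAbs _
      have h6 := hv n hn.1 j
      set v := (ev (a (io j)) (G n j)).natAbs with hvd
      have h7 : y + 1 ≤ v := by omega
      have h8 : v ≤ Y := by omega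
      have h7r : (y : ℝ) + 1 ≤ v := by exact_mod_cast h7
      have h8r : (v : ℝ) ≤ Y := by exact_mod_cast h8
      have hy0 : (0 : ℝ) < (y : ℝ) + 1 := by positivity
      exact ⟨hy.trans (Real.log_le_log hy0 h7r), (Real.log_le_log (by linarith) h8r).trans hY⟩
    unfold QL
    have h0 : 0 ≤ (1 - η) * L := mul_nonneg (by linarith) hL
    constructor
    · calc ((1 - η) * L) ^ k = ∏ j : Fin k, ((1 - η) * L) := by rw [prod_const, card_univ, Fintype.card_fin]
        _ ≤ _ := prod_le_prod (fun _ _ => h0) (fun j _ => (h3 j).1)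
    · calc ∏ j, ArithmeticFunction.vonMangoldt (ev (a (io j)) (G n j)).natAbs ≤ ∏ j : Fin k, ((1 + η) * L) :=
          prod_le_prod (fun _ _ => ArithmeticFunction.vonMangoldt_nonneg) (fun j _ => (h3 j).2)
        _ = _ := by rw [prod_const, card_univ, Fintype.card_fin]
  rw [h1]
  constructor
  · calc ((1 - η) * L) ^ k * piG io T G a = ∑ n ∈ T.filter (fun n : ℕ => ∀ j, (ev (a (io j)) (G n j)).natAbs.Prime),
          ((1 - η) * L) ^ k := by rw [sum_const, nsmul_eq_mul]; unfold piG; ring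
      _ ≤ _ := sum_le_sum fun n hn => (h2 n hn).1
  · calc _ ≤ ∑ n ∈ T.filter (fun n : ℕ => ∀ j, (ev (a (io j)) (G n j)).natAbs.Prime),
          ((1 + η) * L) ^ k := sum_le_sum fun n hn => (h2 n hn).2
      _ = _ := by rw [sum_const, nsmul_eq_mul]; unfold piG; ring

/-- comparison -/
lemma transferG2 (k : ℕ) (L η N P M X θ : ℝ) (hL : 0 < L) (hη : 0 ≤ η) (hη1 : 2 ^ (k + 1) * η ≤ 1)
    (hP : 0 ≤ P) (h1 : ((1 - η) * L) ^ k * P ≤ N) (h2 : N ≤ ((1 + η) * L) ^ k * P) (hM : 0 ≤ M) (hX : 0 ≤ X)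
    (hθ : 0 ≤ θ) (hθ1 : θ ≤ 1) (h3 : |N - M| ≤ θ * X) :
    |L ^ k * P - M| ≤ (2 ^ (k + 1) * η + θ) * (M + X) := by
  have hk0 : (1 : ℝ) ≤ 2 ^ k := one_le_pow₀ (by norm_num)
  have hη1' : η ≤ 1 := by
    rw [pow_succ] at hη1
    nlinarith
  have e1 : (1 + η) ^ k ≤ 1 + 2 ^ k * η := by
    have := pow_lin 1 η (by norm_num) hη hη1' k
    rw [one_mul] at this
    norm_num at this
    nlinarith
  have e2 : 1 - 2 ^ k * η ≤ (1 - η) ^ k := by
    have h4 := one_add_mul_le_pow (show (-2 : ℝ) ≤ -η by linarith) k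
    have h5 : (k : ℝ) ≤ 2 ^ k := by exact_mod_cast (Nat.lt_two_pow_self (n := k)).le
    have e : 1 + (k : ℝ) * -η = 1 - k * η := by ring
    rw [e] at h4
    have : (k : ℝ) * η ≤ 2 ^ k * η := mul_le_mul_of_nonneg_right h5 hη
    calc 1 - 2 ^ k * η ≤ 1 - k * η := by linarith
      _ ≤ (1 + -η) ^ k := h4
      _ = _ := by ring
  rw [mul_pow] at h1 h2
  set Q := L ^ k * P with hQ
  have hQ0 : 0 ≤ Q := by positivity
  set ξ := 2 ^ k * η with hξ
  have hξ0 : 0 ≤ ξ := by positivity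
  have hξ2 : 2 ^ (k + 1) * η = 2 * ξ := by rw [pow_succ, hξ]; ring
  rw [hξ2] at hη1 ⊢
  have f1 : (1 - ξ) * Q ≤ N := by
    refine le_trans ?_ h1
    rw [mul_assoc, ← hQ]
    exact mul_le_mul_of_nonneg_right e2 hQ0
  have f2 : N ≤ (1 + ξ) * Q := by
    refine h2.trans ?_
    rw [mul_assoc, ← hQ]
    exact mul_le_mul_of_nonneg_right e1 hQ0
  have f3 : Q ≤ 2 * N := by nlinarith
  have hN0 : 0 ≤ N := by linarith
  have f5 : |Q - N| ≤ 2 * ξ * N := by
    rw [abs_le]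
    constructor <;> nlinarith
  rw [abs_le] at h3 f5 ⊢
  have f6 : N ≤ M + X := by nlinarith [h3.2]
  have f7 : 2 * ξ * N ≤ 2 * ξ * (M + X) := mul_le_mul_of_nonneg_left f6 (by linarith)
  have f8 : θ * X ≤ θ * (M + X) := mul_le_mul_of_nonneg_left (by linarith) hθ
  constructor <;> nlinarith [h3.1, h3.2, f5.1, f5.2]

lemma beta_le (H : ℕ) (η : ℝ) (hη : 0 < η) (hη4 : η ≤ 1 / 4) (hH : 3 ≤ H) (hL : 1 ≤ Real.log H) :
    ((badS ⌊(H : ℝ) ^ (1 - η)⌋₊ ⌊(H : ℝ) ^ (1 + η)⌋₊).card : ℝ) / (2 * H + 1) ≤ 19 * Real.log H / (H : ℝ) ^ η := by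
  have hH3 : (3 : ℝ) ≤ H := by exact_mod_cast hH
  have hH1 : (1 : ℝ) ≤ H := by linarith
  have hH0 : (0 : ℝ) < H := by linarith
  set L := Real.log H with hL
  have hL0 : 0 < L := by linarith
  set y := ⌊(H : ℝ) ^ (1 - η)⌋₊ with hy
  set Y := ⌊(H : ℝ) ^ (1 + η)⌋₊ with hY
  set T := (H : ℝ) ^ (1 - η) with hT
  have hT1 : 1 ≤ T := Real.one_le_rpow hH1 (by linarith)
  have hyT : (y : ℝ) ≤ T := Nat.floor_le (by positivity)
  have hYle : (Y : ℝ) ≤ (H : ℝ) ^ (1 + η) := Nat.floor_le (by positivity)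
  have hY1r : (1 : ℝ) ≤ (H : ℝ) ^ (1 + η) := Real.one_le_rpow hH1 (by linarith)
  have hY1 : 1 ≤ Y := Nat.le_floor (by exact_mod_cast hY1r)
  have hsq : √(Y : ℝ) ≤ T := by
    have h3 : √(Y : ℝ) ≤ √((H : ℝ) ^ (1 + η)) := Real.sqrt_le_sqrt hYle
    refine h3.trans ?_
    rw [Real.sqrt_eq_rpow, ← Real.rpow_mul hH0.le]
    apply Real.rpow_le_rpow_of_exponent_le hH1
    linarith
  have hlY : Real.log Y ≤ 2 * L := by
    have h3 := Real.log_le_log (by exact_mod_cast hY1) hYle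
    rw [Real.log_rpow hH0] at h3
    have : (1 + η) * Real.log H ≤ 2 * L := by rw [← hL]; nlinarith
    linarith
  have hlY0 : 0 ≤ Real.log (Y : ℝ) := Real.log_nonneg (by exact_mod_cast hY1)
  have hc := badS_card y Y hY1
  have hc2 : ((badS y Y).card : ℝ) ≤ 19 * (L * T) := by
    have h3 : √(Y : ℝ) * Real.log Y ≤ T * (2 * L) := mul_le_mul hsq hlY hlY0 (by linarith)
    have h4 : T ≤ L * T := by nlinarith
    have h5 : 1 ≤ L * T := by nlinarith
    linarith
  have hTH : T * (H : ℝ) ^ η = H := by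
    rw [hT, ← Real.rpow_add hH0]
    have : 1 - η + η = 1 := by ring
    rw [this, Real.rpow_one]
  have hHη : 0 < (H : ℝ) ^ η := by positivity
  rw [div_le_div_iff₀ (by positivity) hHη]
  calc ((badS y Y).card : ℝ) * (H : ℝ) ^ η ≤ 19 * (L * T) * (H : ℝ) ^ η := mul_le_mul_of_nonneg_right hc2 hHη.le
    _ = 19 * L * (T * (H : ℝ) ^ η) := by ring
    _ = 19 * L * H := by rw [hTH]
    _ ≤ 19 * L * (2 * H + 1) := by
        apply mul_le_mul_of_nonneg_left _ (by positivity)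
        linarith

/-- powers of `H` beat powers of `log H` -/
lemma Heta (A B : ℕ) (c : ℝ) : ∃ H0 : ℕ, ∀ H : ℕ, H0 ≤ H → ∀ η : ℝ, 1 / Real.log (Real.log H) ^ B ≤ η →
    c * Real.log H ^ A ≤ (H : ℝ) ^ η := by
  obtain ⟨H1, h1⟩ := pow_small (B + 2) 1 (by norm_num)
  obtain ⟨H2, h2⟩ := ll_ev (max ((A : ℝ) + 1) (max 1 c))
  obtain ⟨H3, h3⟩ := Filter.eventually_atTop.1 (ev_log 1)
  refine ⟨max (max H1 H2) (max H3 3), fun H hH η hη => ?_⟩
  have a1 := h1 H (le_trans (le_trans (le_max_left _ _) (le_max_left _ _)) hH)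
  have a2 := h2 H (le_trans (le_trans (le_max_right _ _) (le_max_left _ _)) hH)
  have a3 := h3 H (le_trans (le_trans (le_max_left _ _) (le_max_right _ _)) hH)
  have a4 : 3 ≤ H := le_trans (le_trans (le_max_right _ _) (le_max_right _ _)) hH
  rw [Real.rpow_one] at a1
  have hHpos : (0 : ℝ) < H := by have : (3 : ℝ) ≤ H := by exact_mod_cast a4
                                 linarith
  set L := Real.log H with hL
  set LL := Real.log L with hLL
  have hL0 : 0 < L := by linarith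
  have hA : (A : ℝ) + 1 ≤ LL := (le_max_left _ _).trans a2
  have h1' : 1 ≤ LL := ((le_max_left _ _).trans (le_max_right _ _)).trans a2
  have hc : c ≤ LL := ((le_max_right _ _).trans (le_max_right _ _)).trans a2
  have hLL0 : 0 < LL := by linarith
  have hcL : c ≤ L := by
    have : LL ≤ L := by
      calc LL = LL ^ 1 := (pow_one _).symm
        _ ≤ LL ^ (B + 2) := pow_le_pow_right₀ h1' (by omega)
        _ ≤ L := a1
    linarith
  have h5 : c * L ^ A ≤ L ^ (A + 1) := by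
    rw [pow_succ, mul_comm]
    exact mul_le_mul_of_nonneg_left hcL (by positivity)
  refine h5.trans ?_
  have h6 : L ^ (A + 1) = Real.exp ((A + 1 : ℕ) * LL) := by
    rw [Real.exp_nat_mul, hLL, Real.exp_log hL0]
  have h7 : (H : ℝ) ^ η = Real.exp (L * η) := by rw [Real.rpow_def_of_pos hHpos]
  rw [h6, h7]
  apply Real.exp_le_exp.2
  push_cast
  have h8 : ((A : ℝ) + 1) * LL ≤ LL * LL := mul_le_mul_of_nonneg_right hA hLL0.le
  have h9 : LL * LL ≤ L * (1 / LL ^ B) := by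
    rw [mul_one_div, le_div_iff₀ (by positivity)]
    calc LL * LL * LL ^ B = LL ^ (B + 2) := by ring
      _ ≤ L := a1
  have h10 : L * (1 / LL ^ B) ≤ L * η := mul_le_mul_of_nonneg_left hη hL0.le
  linarith

end Pool.Agent.TP975.RP
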