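import Mathlib
import Pool.Agent.TP975.RP.Gn4

/-!
Arbitrary points: the number of prime values, the theorem.
-/

set_option autoImplicit false

namespace Pool.Agent.TP975.RP

open Finset
open Pool.Agent.H373R2.T7

variable {m d k : ℕ}

lemma V_sq (k B : ℕ) (C : ℝ) (hC : 0 ≤ C) : ∃ H0 : ℕ, ∀ H : ℕ, H0 ≤ H → ∀ w : ℕ,
    Real.log (Real.log H) ^ (2 * B) ≤ w → 1 ≤ B → C * ((Vz w)⁻¹) ^ k * Real.log (Real.log H) ^ B ≤ w := by
  obtain ⟨w0, hw0⟩ := V_lt (2 * k) (C ^ 2)
  obtain ⟨H0, h0⟩ := ll_ev (max 1 (w0 : ℝ))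
  refine ⟨H0, fun H hH w hw hB => ?_⟩
  have a1 := h0 H hH
  set LL := Real.log (Real.log H) with hLL
  have h1 : 1 ≤ LL := (le_max_left _ _).trans a1
  have h2 : (w0 : ℝ) ≤ w := by
    calc (w0 : ℝ) ≤ LL := (le_max_right _ _).trans a1
      _ = LL ^ 1 := (pow_one _).symm
      _ ≤ LL ^ (2 * B) := pow_le_pow_right₀ h1 (by omega)
      _ ≤ w := hw
  have h3 := hw0 w (by exact_mod_cast h2)
  have hV0 : 0 ≤ ((Vz w)⁻¹) ^ k := pow_nonneg (by have := one_le_Vinv w; linarith) _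
  have h4 : (C * ((Vz w)⁻¹) ^ k * LL ^ B) ^ 2 ≤ (w : ℝ) ^ 2 := by
    have e : (C * ((Vz w)⁻¹) ^ k * LL ^ B) ^ 2 = (C ^ 2 * ((Vz w)⁻¹) ^ (2 * k)) * LL ^ (2 * B) := by
      rw [mul_pow, mul_pow, ← pow_mul, ← pow_mul, mul_comm k 2, mul_comm B 2]
    rw [e, sq (w : ℝ)]
    exact mul_le_mul h3 hw (by positivity) (Nat.cast_nonneg _)
  exact le_of_sq_le_sq h4 (Nat.cast_nonneg _)

open Classical in
theorem cntG (m d k A c0 B : ℕ) (hd : 1 ≤ d) (ε : ℝ) (hε : 0 < ε) : ∃ E1 : ℕ, ∀ E2 : ℕ, ∃ H0 : ℕ, ∀ H : ℕ, H0 ≤ H →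
    ∀ w : ℕ, Real.log (Real.log H) ^ E1 ≤ w → (w : ℝ) ≤ Real.log (Real.log H) ^ E2 → ∀ (io : Fin k → Fin m),
    (∀ i, (univ.filter (fun j => io j = i)).card ≤ d) → ∀ (T : Finset ℕ) (G : ℕ → Fin k → ℤ), Pts A c0 H io T G →
    Real.log H ^ ((k : ℝ) + ε) ≤ T.card → (T.card : ℝ) ≤ Real.log H ^ A →
    (((Bx m d H).filter (fun a => (MG w io T G a + T.card) / Real.log (Real.log H) ^ B <
      |Real.log H ^ k * piG io T G a - MG w io T G a|)).card : ℝ) ≤ (Bx m d H).card / Real.log (Real.log H) ^ B := by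
  refine ⟨2 * (3 * B + 4), fun E2 => ?_⟩
  obtain ⟨C, hC1, H1, h1⟩ := msG m d k A c0 E2 hd ε hε
  obtain ⟨H2, h2⟩ := V_sq (2 * k) (3 * B + 4) (2 * C) (by linarith)
  obtain ⟨H3, h3⟩ := ll_ev (max (2 ^ (k + 2)) (max C 2))
  obtain ⟨H4, h4⟩ := Filter.eventually_atTop.1 (ev_log 3)
  obtain ⟨H5, h5⟩ := Heta (A * d) (B + 1) ((d : ℝ) + 1)
  obtain ⟨H6, h6⟩ := Heta (A + 2) (B + 1) (2 * (19 * (k + 1)))
  obtain ⟨H7, h7⟩ := pow_small (B + 1) 1 (by norm_num)
  refine ⟨max (max (max H1 H2) (max H3 H4)) (max (max H5 H6) (max H7 3)),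
    fun H hH w hw1 hw2 io hfib T G hP hX hXA => ?_⟩
  have b0 := le_trans (le_max_left _ _) hH
  have b0' := le_trans (le_max_right _ _) hH
  have b1 := le_trans (le_max_left _ _) (le_trans (le_max_left _ _) b0)
  have b2 := le_trans (le_max_right _ _) (le_trans (le_max_left _ _) b0)
  have b3 := le_trans (le_max_left _ _) (le_trans (le_max_right _ _) b0)
  have b4 := le_trans (le_max_right _ _) (le_trans (le_max_right _ _) b0)
  have b5 := le_trans (le_max_left _ _) (le_trans (le_max_left _ _) b0')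
  have b6 := le_trans (le_max_right _ _) (le_trans (le_max_left _ _) b0')
  have b7 := le_trans (le_max_left _ _) (le_trans (le_max_right _ _) b0')
  have b8 : 3 ≤ H := le_trans (le_max_right _ _) (le_trans (le_max_right _ _) b0')
  have hVV := h2 H b2 w hw1 (by omega)
  have hLLm := h3 H b3
  have hL3 := h4 H b4
  have hη5 := h5 H b5
  have hη6 := h6 H b6
  have hp7 := h7 H b7
  have hH3 : (3 : ℝ) ≤ H := by exact_mod_cast b8
  have hH0 : (0 : ℝ) < H := by linarith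
  set L := Real.log H with hL
  set LL := Real.log L with hLL
  have hL0 : 0 < L := by linarith
  have hL1 : 1 ≤ L := by linarith
  have hLLk : (2 : ℝ) ^ (k + 2) ≤ LL := (le_max_left _ _).trans hLLm
  have hLLC : C ≤ LL := ((le_max_left _ _).trans (le_max_right _ _)).trans hLLm
  have hLL2 : 2 ≤ LL := ((le_max_right _ _).trans (le_max_right _ _)).trans hLLm
  have hLL0 : 0 < LL := by linarith
  have hLL1 : 1 ≤ LL := by linarith
  have h2k : (4 : ℝ) ≤ 2 ^ (k + 2) := by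
    calc (4 : ℝ) = 2 ^ 2 := by norm_num
      _ ≤ 2 ^ (k + 2) := pow_le_pow_right₀ (by norm_num) (by omega)
  have hCw : C * LL ≤ w := by
    calc C * LL ≤ LL * LL := mul_le_mul_of_nonneg_right hLLC hLL0.le
      _ = LL ^ 2 := by ring
      _ ≤ LL ^ (2 * (3 * B + 4)) := pow_le_pow_right₀ hLL1 (by omega)
      _ ≤ w := hw1
  have hw0 : (0 : ℝ) < w := by nlinarith
  have hms := h1 H b1 w hCw hw2 io hfib T G hP hX (fun _ => 1) (fun _ => by simp)
  simp only [one_mul] at hms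
  set X : ℝ := (T.card : ℝ) with hXd
  have hX0 : 0 < X := lt_of_lt_of_le (Real.rpow_pos_of_pos hL0 _) hX
  set V := ((Vz w)⁻¹) ^ (2 * k) with hV
  set Bc : ℝ := ((Bx m d H).card : ℝ) with hBc
  have hBc0 : 0 ≤ Bc := Nat.cast_nonneg _
  set η : ℝ := 1 / LL ^ (B + 1) with hη
  have hη0 : 0 < η := by positivity
  have hLLB : LL ≤ LL ^ (B + 1) := by
    calc LL = LL ^ 1 := (pow_one _).symm
      _ ≤ LL ^ (B + 1) := pow_le_pow_right₀ hLL1 (by omega)
  have hη4 : η ≤ 1 / 4 := by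
    rw [hη]
    apply one_div_le_one_div_of_le (by norm_num)
    linarith
  have hηk : 2 ^ (k + 1) * η ≤ 1 / 2 * (1 / LL ^ B) := by
    rw [hη, pow_succ LL B]
    have e : (2 : ℝ) ^ (k + 1) * (1 / (LL ^ B * LL)) = (2 ^ (k + 1) / LL) * (1 / LL ^ B) := by field_simp
    rw [e]
    apply mul_le_mul_of_nonneg_right _ (by positivity)
    rw [div_le_iff₀ hLL0]
    rw [pow_succ] at hLLk
    linarith
  have hLLBinv : 1 / LL ^ B ≤ 1 := by
    rw [div_le_one (by positivity)]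
    exact one_le_pow₀ hLL1
  have hη1 : 2 ^ (k + 1) * η ≤ 1 := by linarith
  have hθ : η ≤ 1 / 2 * (1 / LL ^ B) := by
    have h9 : (1 : ℝ) ≤ 2 ^ (k + 1) := one_le_pow₀ (by norm_num)
    have h10 : 1 * η ≤ 2 ^ (k + 1) * η := mul_le_mul_of_nonneg_right h9 hη0.le
    linarith
  set y := ⌊(H : ℝ) ^ (1 - η)⌋₊ with hy
  set Y := ⌊(H : ℝ) ^ (1 + η)⌋₊ with hY
  have g5 : (1 - η) * L ≤ Real.log (y + 1) := by
    have : (H : ℝ) ^ (1 - η) ≤ y + 1 := (Nat.lt_floor_add_one _).le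
    calc (1 - η) * L = Real.log ((H : ℝ) ^ (1 - η)) := (Real.log_rpow hH0 _).symm
      _ ≤ _ := Real.log_le_log (by positivity) this
  have hYle : (Y : ℝ) ≤ (H : ℝ) ^ (1 + η) := Nat.floor_le (by positivity)
  have hY1r : (1 : ℝ) ≤ (H : ℝ) ^ (1 + η) := Real.one_le_rpow (by linarith) (by linarith)
  have hY1 : 1 ≤ Y := Nat.le_floor (by exact_mod_cast hY1r)
  have g6 : Real.log Y ≤ (1 + η) * L := by
    have h3 := Real.log_le_log (by exact_mod_cast hY1) hYle
    rwa [Real.log_rpow hH0] at h3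
  set S1 := (Bx m d H).filter (fun a => BadG io T G y Y a) with hS1
  set S2 := (Bx m d H).filter (fun a => η * X < |∑ n ∈ T, (QL io (G n) a - QM w io (G n) a)|) with hS2
  have hsub : (Bx m d H).filter (fun a => (MG w io T G a + X) / LL ^ B < |L ^ k * piG io T G a - MG w io T G a|) ⊆
      S1 ∪ S2 := by
    intro a ha
    rw [mem_filter] at ha
    obtain ⟨haB, hgt⟩ := ha
    rw [mem_union]
    by_contra hcon
    push Not at hcon
    obtain ⟨hn1, hn2⟩ := hcon
    have g1 : ¬ BadG io T G y Y a := fun hc => hn1 (mem_filter.2 ⟨haB, hc⟩)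
    have g2 : |∑ n ∈ T, (QL io (G n) a - QM w io (G n) a)| ≤ η * X := by
      by_contra hc
      exact hn2 (mem_filter.2 ⟨haB, not_le.1 hc⟩)
    have g7 : ∀ n ∈ T, ∀ j, |ev (a (io j)) (G n j)| ≤ Y := by
      intro n hn j
      exact val_bd A H Y η (by omega) hη0 hL1 (hη5 η le_rfl) hY haB (io j) (G n j) (hP.bd n hn j)
    obtain ⟨t1, t2⟩ := transferG io T G a y Y L η hL0.le (by linarith) g5 g6 g7 g1
    rw [sum_sub_distrib] at g2
    have g8 := transferG2 k L η (∑ n ∈ T, QL io (G n) a) (piG io T G a) (MG w io T G a) X η hL0 hη0.le hη1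
      (Nat.cast_nonneg _) t1 t2 (MG_nonneg w io T G a) hX0.le hη0.le (by linarith) g2
    have g9 : (2 ^ (k + 1) * η + η) * (MG w io T G a + X) ≤ (MG w io T G a + X) / LL ^ B := by
      rw [div_eq_mul_one_div, mul_comm]
      apply mul_le_mul_of_nonneg_left _ (by have := MG_nonneg w io T G a; linarith)
      linarith
    linarith
  have hS1c : (S1.card : ℝ) ≤ Bc * (1 / 2 * (1 / LL ^ B)) := by
    have g1 := BadG_card (d := d) H io T G y Y
    have g2 := beta_le H η hη0 hη4 b8 hL1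
    have g3 : X * k * (((badS y Y).card : ℝ) / (2 * H + 1)) ≤ 1 / 2 * (1 / LL ^ B) := by
      have hHη : 0 < (H : ℝ) ^ η := by positivity
      have g4 : X * k * (((badS y Y).card : ℝ) / (2 * H + 1)) ≤ L ^ A * (k + 1) * (19 * L / (H : ℝ) ^ η) := by
        apply mul_le_mul _ g2 (by positivity) (by positivity)
        have hk0 : (0 : ℝ) ≤ k := Nat.cast_nonneg _
        calc X * k ≤ L ^ A * k := mul_le_mul_of_nonneg_right hXA hk0
          _ ≤ L ^ A * (k + 1) := mul_le_mul_of_nonneg_left (by linarith) (by positivity)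
      refine g4.trans ?_
      have g5 := hη6 η le_rfl
      have g6 : L ^ A * (k + 1) * (19 * L / (H : ℝ) ^ η) = (19 * (k + 1) * L ^ (A + 1)) / (H : ℝ) ^ η := by
        rw [pow_succ]; ring
      rw [g6, div_le_iff₀ hHη]
      have g7 : 19 * ((k : ℝ) + 1) * L ^ (A + 1) = (1 / 2 * (1 / L)) * (2 * (19 * (k + 1)) * L ^ (A + 2)) := by
        rw [pow_succ L (A + 1)]
        field_simp
      rw [g7]
      have g8 : 1 / 2 * (1 / L) ≤ 1 / 2 * (1 / LL ^ B) := by
        apply mul_le_mul_of_nonneg_left _ (by norm_num)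
        apply one_div_le_one_div_of_le (by positivity)
        rw [Real.rpow_one] at hp7
        exact (pow_le_pow_right₀ hLL1 (by omega)).trans hp7
      exact mul_le_mul g8 g5 (by positivity) (by positivity)
    refine le_trans ?_ (mul_le_mul_of_nonneg_left g3 hBc0)
    convert g1
  have hS2c : (S2.card : ℝ) ≤ Bc * (1 / 2 * (1 / LL ^ B)) := by
    have g1 : (S2.card : ℝ) * (η * X) ^ 2 ≤ Bc * (X ^ 2 * (V * (C * (LL / w)))) := by
      refine le_trans ?_ hms
      calc (S2.card : ℝ) * (η * X) ^ 2 = ∑ a ∈ S2, (η * X) ^ 2 := by rw [sum_const, nsmul_eq_mul]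
        _ ≤ ∑ a ∈ S2, (∑ n ∈ T, (QL io (G n) a - QM w io (G n) a)) ^ 2 := by
            refine sum_le_sum fun a ha => ?_
            rw [hS2, mem_filter] at ha
            rw [← sq_abs (∑ n ∈ T, (QL io (G n) a - QM w io (G n) a))]
            exact pow_le_pow_left₀ (by positivity) ha.2.le 2
        _ ≤ _ := sum_le_sum_of_subset_of_nonneg (filter_subset _ _) (fun _ _ _ => sq_nonneg _)
    have g2 : (S2.card : ℝ) * η ^ 2 ≤ Bc * (V * (C * (LL / w))) := by
      have h6 : 0 < X ^ 2 := by positivity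
      apply le_of_mul_le_mul_right _ h6
      calc (S2.card : ℝ) * η ^ 2 * X ^ 2 = (S2.card : ℝ) * (η * X) ^ 2 := by ring
        _ ≤ _ := g1
        _ = _ := by ring
    have g3 : V * (C * (LL / w)) ≤ (1 / 2 * (1 / LL ^ B)) * η ^ 2 := by
      have h6 : 2 * C * V * LL ^ (3 * B + 4) ≤ w := hVV
      have e1 : (1 / 2 * (1 / LL ^ B)) * η ^ 2 = 1 / (2 * LL ^ (3 * B + 2)) := by
        rw [hη, div_pow, one_pow, ← pow_mul, div_mul_div_comm, div_mul_div_comm]
        congr 1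
        · norm_num
        · have : LL ^ (3 * B + 2) = LL ^ B * LL ^ ((B + 1) * 2) := by rw [← pow_add]; congr 1; ring
          rw [this]; ring
      rw [e1, mul_div_assoc', mul_div_assoc', div_le_div_iff₀ hw0 (by positivity), one_mul]
      have hV0 : 0 ≤ V := pow_nonneg (by have := one_le_Vinv w; linarith) _
      calc V * (C * LL) * (2 * LL ^ (3 * B + 2)) = 2 * C * V * LL ^ (3 * B + 3) := by ring
        _ ≤ 2 * C * V * LL ^ (3 * B + 4) := by
            apply mul_le_mul_of_nonneg_left (pow_le_pow_right₀ hLL1 (by omega))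
            have : 0 ≤ C := by linarith
            positivity
        _ ≤ w := h6
    have h10 : 0 < η ^ 2 := by positivity
    apply le_of_mul_le_mul_right _ h10
    calc (S2.card : ℝ) * η ^ 2 ≤ Bc * (V * (C * (LL / w))) := g2
      _ ≤ Bc * ((1 / 2 * (1 / LL ^ B)) * η ^ 2) := mul_le_mul_of_nonneg_left g3 hBc0
      _ = _ := by ring
  have hfin : (((Bx m d H).filter (fun a => (MG w io T G a + X) / LL ^ B <
      |L ^ k * piG io T G a - MG w io T G a|)).card : ℝ) ≤ S1.card + S2.card := by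
    exact_mod_cast (card_le_card hsub).trans (card_union_le _ _)
  calc _ ≤ (S1.card : ℝ) + S2.card := hfin
    _ ≤ Bc * (1 / 2 * (1 / LL ^ B)) + Bc * (1 / 2 * (1 / LL ^ B)) := add_le_add hS1c hS2c
    _ = Bc / LL ^ B := by ring

end Pool.Agent.TP975.RP
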