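import Mathlib
import Pool.Agent.TP975.RP.Gn5

/-!
Compositions with fixed polynomials: local conditions and the sieve.
-/

set_option autoImplicit false

namespace Pool.Agent.TP975.RP

open Finset
open Pool.Agent.H373R2.T7

variable {m d k : ℕ}

/-- the number of residues `n` modulo `p` such that `p` divides one of the values `f_(io j) (g_j n)` -/
def omC (io : Fin k → Fin m) (g : Fin k → Polynomial ℤ) (a : Fin m → Fin (d + 1) → ℤ) (p : ℕ) : ℕ :=
  ((range p).filter (fun n : ℕ => ∃ j, (p : ℤ) ∣ ev (a (io j)) ((g j).eval (n : ℤ)))).card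

/-- the truncated constant -/
noncomputable def CwC (w : ℕ) (io : Fin k → Fin m) (g : Fin k → Polynomial ℤ) (a : Fin m → Fin (d + 1) → ℤ) : ℝ :=
  ∏ p ∈ (Icc 1 w).filter Nat.Prime, (1 - (omC io g a p : ℝ) / p) * ((1 - 1 / (p : ℝ))⁻¹) ^ k

/-- the number of prime values -/
def piC (io : Fin k → Fin m) (g : Fin k → Polynomial ℤ) (a : Fin m → Fin (d + 1) → ℤ) (x : ℕ) : ℕ :=
  ((Icc 1 x).filter (fun n : ℕ => ∀ j, (ev (a (io j)) ((g j).eval (n : ℤ))).natAbs.Prime)).card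

/-- the points -/
def Gp (g : Fin k → Polynomial ℤ) (n : ℕ) (j : Fin k) : ℤ := (g j).eval (n : ℤ)

lemma omC_le (io : Fin k → Fin m) (g : Fin k → Polynomial ℤ) (a : Fin m → Fin (d + 1) → ℤ) (p : ℕ) : omC io g a p ≤ p :=
  (card_filter_le _ _).trans (by simp)

lemma CwC_eq (w : ℕ) (io : Fin k → Fin m) (g : Fin k → Polynomial ℤ) (a : Fin m → Fin (d + 1) → ℤ) :
    CwC w io g a = ((Vz w)⁻¹) ^ k * ∏ p ∈ pz w, (1 - (omC io g a p : ℝ) / p) := by
  unfold CwC Vz pz
  rw [prod_mul_distrib, mul_comm, prod_pow, prod_inv_distrib]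

lemma CwC_bd (w : ℕ) (io : Fin k → Fin m) (g : Fin k → Polynomial ℤ) (a : Fin m → Fin (d + 1) → ℤ) :
    0 ≤ CwC w io g a ∧ CwC w io g a ≤ ((Vz w)⁻¹) ^ k := by
  rw [CwC_eq]
  have h0 : 0 ≤ ((Vz w)⁻¹) ^ k := pow_nonneg (by have := one_le_Vinv w; linarith) _
  have h1 : ∀ p ∈ pz w, 0 ≤ 1 - (omC io g a p : ℝ) / p ∧ 1 - (omC io g a p : ℝ) / p ≤ 1 := by
    intro p hp
    rw [mem_pz] at hp
    have hp0 : (0 : ℝ) < p := by exact_mod_cast hp.2.pos
    have h2 : (omC io g a p : ℝ) ≤ p := by exact_mod_cast omC_le io g a p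
    constructor
    · rw [sub_nonneg, div_le_one hp0]; exact h2
    · have : 0 ≤ (omC io g a p : ℝ) / p := by positivity
      linarith
  refine ⟨mul_nonneg h0 (prod_nonneg fun p hp => (h1 p hp).1), ?_⟩
  exact mul_le_of_le_one_right h0 (prod_le_one (fun p hp => (h1 p hp).1) (fun p hp => (h1 p hp).2))

lemma eval_mod (g : Polynomial ℤ) (a : Fin (d + 1) → ℤ) (p n : ℕ) :
    (p : ℤ) ∣ ev a (g.eval (n : ℤ)) ↔ (p : ℤ) ∣ ev a (g.eval ((n % p : ℕ) : ℤ)) := by
  apply ev_mod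
  have h1 : (p : ℤ) ∣ (n : ℤ) - ((n % p : ℕ) : ℤ) := by
    rw [Int.natCast_mod]
    exact Int.dvd_self_sub_emod
  exact h1.trans (Polynomial.sub_dvd_eval_sub _ _ _)

lemma root_countC (D : ℕ) (g : Polynomial ℤ) (hg : g.natDegree ≤ D) (p : ℕ) (hp : p.Prime) (a : Fin (d + 1) → ℤ) (n0 : ℕ)
    (hn0 : ¬ (p : ℤ) ∣ ev a (g.eval (n0 : ℤ))) :
    ((range p).filter (fun n : ℕ => (p : ℤ) ∣ ev a (g.eval (n : ℤ)))).card ≤ d * D := by
  classical
  haveI := Fact.mk hp
  set P : Polynomial (ZMod p) := ∑ c : Fin (d + 1), Polynomial.C ((a c : ℤ) : ZMod p) * (g.map (Int.castRingHom (ZMod p))) ^ (c : ℕ)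
    with hP
  have heval : ∀ n : ℕ, P.eval (n : ZMod p) = ((ev a (g.eval (n : ℤ)) : ℤ) : ZMod p) := by
    intro n
    rw [hP, Polynomial.eval_finset_sum]
    unfold ev
    push_cast
    refine sum_congr rfl fun c _ => ?_
    rw [Polynomial.eval_mul, Polynomial.eval_C, Polynomial.eval_pow]
    congr 2
    have h1 := Polynomial.eval_intCast_map (Int.castRingHom (ZMod p)) g (n : ℤ)
    simpa using h1
  have hdvd : ∀ n : ℕ, (p : ℤ) ∣ ev a (g.eval (n : ℤ)) ↔ P.eval (n : ZMod p) = 0 := by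
    intro n
    rw [heval, ZMod.intCast_zmod_eq_zero_iff_dvd]
  have hP0 : P ≠ 0 := by
    intro h0
    apply hn0
    rw [hdvd, h0, Polynomial.eval_zero]
  have hdeg : P.natDegree ≤ d * D := by
    rw [hP]
    apply Polynomial.natDegree_sum_le_of_forall_le
    intro c _
    refine (Polynomial.natDegree_C_mul_le _ _).trans ?_
    refine (Polynomial.natDegree_pow_le).trans ?_
    have h1 : (g.map (Int.castRingHom (ZMod p))).natDegree ≤ D := (Polynomial.natDegree_map_le).trans hg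
    have := c.2
    exact Nat.mul_le_mul (by omega) h1
  have h1 : ((range p).filter (fun n : ℕ => (p : ℤ) ∣ ev a (g.eval (n : ℤ)))).card ≤ P.roots.toFinset.card := by
    apply card_le_card_of_injOn (fun n : ℕ => (n : ZMod p))
    · intro n hn
      rw [mem_coe, mem_filter] at hn
      rw [mem_coe, Multiset.mem_toFinset, Polynomial.mem_roots hP0]
      exact (hdvd n).1 hn.2
    · intro n hn n' hn' heq
      rw [mem_coe, mem_filter, mem_range] at hn hn'
      simp only at heq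
      rw [ZMod.natCast_eq_natCast_iff] at heq
      unfold Nat.ModEq at heq
      rwa [Nat.mod_eq_of_lt hn.1, Nat.mod_eq_of_lt hn'.1] at heq
  exact h1.trans ((Multiset.toFinset_card_le _).trans ((Polynomial.card_roots' P).trans hdeg))

lemma omC_le_kd (D : ℕ) (io : Fin k → Fin m) (g : Fin k → Polynomial ℤ) (hg : ∀ j, (g j).natDegree ≤ D)
    (a : Fin m → Fin (d + 1) → ℤ) (p : ℕ) (hp : p.Prime) (hom : omC io g a p < p) : omC io g a p ≤ k * (d * D) := by
  classical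
  have h1 : ∃ n0 : ℕ, ∀ j, ¬ (p : ℤ) ∣ ev (a (io j)) ((g j).eval (n0 : ℤ)) := by
    by_contra hc
    push Not at hc
    have : omC io g a p = p := by
      unfold omC
      rw [filter_true_of_mem (fun n _ => hc n), card_range]
    omega
  obtain ⟨n0, hn0⟩ := h1
  unfold omC
  have h2 : (range p).filter (fun n : ℕ => ∃ j, (p : ℤ) ∣ ev (a (io j)) ((g j).eval (n : ℤ))) ⊆
      (univ : Finset (Fin k)).biUnion (fun j => (range p).filter (fun n : ℕ => (p : ℤ) ∣ ev (a (io j)) ((g j).eval (n : ℤ)))) := by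
    intro n hn
    rw [mem_filter] at hn
    obtain ⟨h3, j, h4⟩ := hn
    rw [mem_biUnion]
    exact ⟨j, mem_univ _, mem_filter.2 ⟨h3, h4⟩⟩
  refine (card_le_card h2).trans (card_biUnion_le.trans ?_)
  refine (sum_le_sum fun j _ => root_countC D (g j) (hg j) p hp (a (io j)) n0 (hn0 j)).trans ?_
  simp

/-- a lower bound for the truncated constant -/
lemma CwC_lower (k d D0 : ℕ) : ∃ c : ℝ, 0 < c ∧ ∀ (m w : ℕ) (io : Fin k → Fin m) (g : Fin k → Polynomial ℤ)
    (a : Fin m → Fin (d + 1) → ℤ), (∀ j, (g j).natDegree ≤ D0) →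
    (∀ p ≤ w, p.Prime → omC io g a p < p) → c * (Vz w) ^ (2 * (k * (d * D0))) ≤ CwC w io g a := by
  set D := k * (d * D0) with hD
  refine ⟨(1 / (2 * D + 1 : ℝ)) ^ (2 * D), by positivity, fun m w io g a hg hom => ?_⟩
  have hg1 : 1 / (2 * (D : ℝ) + 1) ≤ 1 := by
    rw [div_le_one (by positivity)]
    have : (0 : ℝ) ≤ D := Nat.cast_nonneg _
    linarith
  have hg0 : 0 < 1 / (2 * (D : ℝ) + 1) := by positivity
  have h1 : ∀ p ∈ pz w, (if p ≤ 2 * D then 1 / (2 * D + 1 : ℝ) else 1) * (1 - 1 / (p : ℝ)) ^ (2 * D) ≤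
      (1 - (omC io g a p : ℝ) / p) * ((1 - 1 / (p : ℝ))⁻¹) ^ k := by
    intro p hp
    rw [mem_pz] at hp
    obtain ⟨i1, i2, i3⟩ := inv_bd hp.2.two_le
    have hp2 : (2 : ℝ) ≤ p := by exact_mod_cast hp.2.two_le
    have hp0 : (0 : ℝ) < p := by linarith
    have hopen := hom p hp.1 hp.2
    have hoD := omC_le_kd D0 io g hg a p hp.2 hopen
    have hup : 0 < 1 / (p : ℝ) := by positivity
    have hinv : 1 ≤ ((1 - 1 / (p : ℝ))⁻¹) ^ k := one_le_pow₀ (by linarith)
    have hq1 : 1 - 1 / (p : ℝ) ≤ 1 := by linarith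
    have hpw1 : (1 - 1 / (p : ℝ)) ^ (2 * D) ≤ 1 := pow_le_one₀ i3.le hq1
    have hpw0 : 0 < (1 - 1 / (p : ℝ)) ^ (2 * D) := pow_pos i3 _
    split_ifs with hpD
    · have h2 : 1 / (p : ℝ) ≤ 1 - (omC io g a p : ℝ) / p := by
        rw [div_le_iff₀ hp0, sub_mul, div_mul_cancel₀ _ hp0.ne', one_mul]
        have : (omC io g a p : ℝ) + 1 ≤ p := by exact_mod_cast hopen
        linarith
      have h3 : 1 / (2 * (D : ℝ) + 1) ≤ 1 / (p : ℝ) := by
        apply one_div_le_one_div_of_le hp0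
        have : (p : ℝ) ≤ ((2 * D : ℕ) : ℝ) := by exact_mod_cast hpD
        push_cast at this
        linarith
      have h4 : 0 ≤ 1 - (omC io g a p : ℝ) / p := by linarith
      calc 1 / (2 * (D : ℝ) + 1) * (1 - 1 / (p : ℝ)) ^ (2 * D) ≤ 1 / (2 * (D : ℝ) + 1) * 1 :=
            mul_le_mul_of_nonneg_left hpw1 hg0.le
        _ ≤ (1 - (omC io g a p : ℝ) / p) * 1 := by linarith
        _ ≤ _ := mul_le_mul_of_nonneg_left hinv h4
    · have hDp : 2 * (D : ℝ) ≤ p := by
        have : ((2 * D : ℕ) : ℝ) ≤ p := by exact_mod_cast (not_le.1 hpD).le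
        push_cast at this
        exact this
      have hD0 : (0 : ℝ) ≤ D := Nat.cast_nonneg _
      set u := 1 / (p : ℝ) with hu
      have hu0 : 0 < u := by positivity
      have hDu : D * u ≤ 1 / 2 := by
        rw [hu, mul_one_div, div_le_iff₀ hp0]; linarith
      have h2 : 1 + (2 * D : ℕ) * u ≤ ((1 - u)⁻¹) ^ (2 * D) := by
        refine le_trans (one_add_mul_le_pow (by linarith) (2 * D)) ?_
        exact pow_le_pow_left₀ (by linarith) i1 _
      push_cast at h2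
      have h3 : (1 - u) ^ (2 * D) ≤ 1 - D * u := by
        have h4 : (1 - u) ^ (2 * D) * ((1 - u)⁻¹) ^ (2 * D) = 1 := by
          rw [← mul_pow, mul_inv_cancel₀ i3.ne', one_pow]
        have h5 : (1 - u) ^ (2 * D) * (1 + 2 * D * u) ≤ 1 := (mul_le_mul_of_nonneg_left h2 hpw0.le).trans h4.le
        have hv0 : 0 ≤ D * u := by positivity
        have h6 : 1 ≤ (1 - D * u) * (1 + 2 * D * u) := by
          have e : (1 - D * u) * (1 + 2 * D * u) = 1 + D * u * (1 - 2 * (D * u)) := by ring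
          rw [e]
          have : 0 ≤ D * u * (1 - 2 * (D * u)) := mul_nonneg hv0 (by linarith)
          linarith
        have h7 : 0 < 1 + 2 * D * u := by positivity
        exact le_of_mul_le_mul_right (h5.trans h6) h7
      have h8 : (omC io g a p : ℝ) / p ≤ D * u := by
        rw [hu, mul_one_div]
        apply div_le_div_of_nonneg_right _ hp0.le
        exact_mod_cast hoD
      have h9 : 0 ≤ 1 - (omC io g a p : ℝ) / p := by linarith
      calc 1 * (1 - u) ^ (2 * D) ≤ (1 - (omC io g a p : ℝ) / p) * 1 := by linarith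
        _ ≤ _ := mul_le_mul_of_nonneg_left hinv h9
  have h2 : ∏ p ∈ pz w, ((if p ≤ 2 * D then 1 / (2 * D + 1 : ℝ) else 1) * (1 - 1 / (p : ℝ)) ^ (2 * D)) ≤ CwC w io g a := by
    unfold CwC
    apply prod_le_prod
    · intro p hp
      rw [mem_pz] at hp
      have i3 := (inv_bd hp.2.two_le).2.2
      apply mul_nonneg
      · split_ifs
        · exact hg0.le
        · norm_num
      · exact pow_nonneg i3.le _
    · intro p hp
      exact h1 p hp
  refine le_trans ?_ h2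
  rw [prod_mul_distrib, prod_pow]
  have h3 : ∏ p ∈ pz w, (1 - 1 / (p : ℝ)) = Vz w := rfl
  rw [h3]
  apply mul_le_mul_of_nonneg_right _ (pow_nonneg (Vz_pos w).le _)
  rw [prod_ite, prod_const, prod_const_one, mul_one]
  apply pow_le_pow_of_le_one hg0.le hg1
  have h4 : (pz w).filter (fun p => p ≤ 2 * D) ⊆ Icc 1 (2 * D) := by
    intro p hp
    rw [mem_filter, mem_pz] at hp
    rw [mem_Icc]
    exact ⟨hp.1.2.one_le, hp.2⟩
  refine (card_le_card h4).trans ?_
  rw [Nat.card_Icc]; omega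

/-- the evaluation of the model -/
theorem MG_eval (k d D E U : ℕ) : ∃ N0 : ℕ, ∀ x : ℕ, N0 ≤ x → ∀ w : ℕ, 1 ≤ w → (w : ℝ) ≤ Real.log x ^ E →
    ∀ (m : ℕ) (io : Fin k → Fin m) (g : Fin k → Polynomial ℤ) (a : Fin m → Fin (d + 1) → ℤ), (∀ j, (g j).natDegree ≤ D) →
    (∀ p ≤ w, p.Prime → omC io g a p < p) →
    |MG w io (Icc 1 x) (Gp g) a - CwC w io g a * x| ≤ ((Vz w)⁻¹) ^ k * (x / Real.log x ^ U) := by
  classical
  obtain ⟨N0, h0⟩ := sys_count (k * (d * D) + 1) E U (by omega)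
  refine ⟨N0, fun x hx w hw hwE m io g a hg hom => ?_⟩
  obtain ⟨Q, hQ⟩ : ∃ Q : ℕ → ℕ → Prop, ∀ p n, Q p n ↔ (p ≤ w ∧ ∃ j, (p : ℤ) ∣ ev (a (io j)) ((g j).eval (n : ℤ))) :=
    ⟨fun p n => p ≤ w ∧ ∃ j, (p : ℤ) ∣ ev (a (io j)) ((g j).eval (n : ℤ)), fun _ _ => Iff.rfl⟩
  have hnu : ∀ p, p ≤ w → nuB Q p = omC io g a p := by
    intro p hp
    unfold nuB omC
    congr 1
    ext n
    rw [mem_filter, mem_filter, hQ]
    exact ⟨fun h => ⟨h.1, h.2.2⟩, fun h => ⟨h.1, hp, h.2⟩⟩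
  have hper : PerB Q (k * (d * D) + 1) := by
    refine ⟨fun p n => ?_, fun p hp => ?_⟩
    · rw [hQ, hQ]
      refine and_congr_right fun _ => exists_congr fun j => ?_
      exact eval_mod (g j) (a (io j)) p n
    · by_cases hpw : p ≤ w
      · rw [hnu p hpw]
        have := omC_le_kd D io g hg a p hp (hom p hpw hp)
        omega
      · have : nuB Q p = 0 := by
          unfold nuB
          rw [card_eq_zero, filter_eq_empty_iff]
          intro n _ hn
          exact hpw ((hQ p n).1 hn).1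
        omega
  have h1 := h0 x hx w hw hwE Q hper
  have e1 : MG w io (Icc 1 x) (Gp g) a = ((Vz w)⁻¹) ^ k * (((Icc 1 x).filter (fun n : ℕ => ∀ p ∈ pz w, ¬ Q p n)).card : ℝ) := by
    unfold MG
    have h2 : ∀ n ∈ Icc 1 x, QM w io (Gp g n) a = if (∀ p ∈ pz w, ¬ Q p n) then ((Vz w)⁻¹) ^ k else 0 := by
      intro n _
      split_ifs with hc
      · unfold QM
        have : ∀ j ∈ (univ : Finset (Fin k)), lamz w (ev (a (io j)) (Gp g n j)).natAbs = (Vz w)⁻¹ := by
          intro j _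
          unfold lamz
          rw [if_pos]
          intro p hp hd
          exact hc p hp ((hQ p n).2 ⟨(mem_pz.1 hp).1, j, Int.natCast_dvd.2 hd⟩)
        rw [prod_congr rfl this, prod_const, card_univ, Fintype.card_fin]
      · unfold QM
        push Not at hc
        obtain ⟨p, hp, hd0⟩ := hc
        obtain ⟨hpw, j, hd⟩ := (hQ p n).1 hd0
        apply prod_eq_zero (mem_univ j)
        unfold lamz
        rw [if_neg]
        push Not
        exact ⟨p, hp, Int.natCast_dvd.1 hd⟩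
    rw [sum_congr rfl h2, ← sum_filter, sum_const, nsmul_eq_mul, mul_comm]
  have e2 : ∏ p ∈ pz w, (1 - (nuB Q p : ℝ) / p) = ∏ p ∈ pz w, (1 - (omC io g a p : ℝ) / p) := by
    refine prod_congr rfl fun p hp => ?_
    rw [hnu p (mem_pz.1 hp).1]
  rw [e2] at h1
  have hV : 0 ≤ ((Vz w)⁻¹) ^ k := pow_nonneg (by have := one_le_Vinv w; linarith) _
  rw [e1, CwC_eq]
  have e3 : ∀ c : ℝ, ((Vz w)⁻¹) ^ k * c - ((Vz w)⁻¹) ^ k * (∏ p ∈ pz w, (1 - (omC io g a p : ℝ) / p)) * x =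
      ((Vz w)⁻¹) ^ k * (c - x * ∏ p ∈ pz w, (1 - (omC io g a p : ℝ) / p)) := by
    intro c; ring
  rw [e3, abs_mul, abs_of_nonneg hV]
  exact mul_le_mul_of_nonneg_left h1 hV

end Pool.Agent.TP975.RP
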