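import Mathlib
import Pool.Agent.TP975.RP.Gn6

/-!
Compositions with fixed polynomials: the points.
-/

set_option autoImplicit false

namespace Pool.Agent.TP975.RP

open Finset
open Pool.Agent.H373R2.T7

variable {m d k : ℕ}

lemma zeros_card (P : Polynomial ℤ) (hP : P ≠ 0) (S : Finset ℕ) (D : ℕ) (hD : P.natDegree ≤ D) :
    (S.filter (fun n : ℕ => P.eval (n : ℤ) = 0)).card ≤ D := by
  classical
  have h1 : (S.filter (fun n : ℕ => P.eval (n : ℤ) = 0)).card ≤ P.roots.toFinset.card := by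
    apply card_le_card_of_injOn (fun n : ℕ => (n : ℤ))
    · intro n hn
      rw [mem_coe, mem_filter] at hn
      rw [mem_coe, Multiset.mem_toFinset, Polynomial.mem_roots hP]
      exact hn.2
    · intro n _ n' _ heq
      simpa using heq
  exact h1.trans ((Multiset.toFinset_card_le _).trans ((Polynomial.card_roots' P).trans hD))

lemma eval_bound (P : Polynomial ℤ) (n : ℕ) (hn : 1 ≤ n) (D : ℕ) (hD : P.natDegree ≤ D) :
    |((P.eval (n : ℤ) : ℤ) : ℝ)| ≤ ((∑ i ∈ range (P.natDegree + 1), (P.coeff i).natAbs : ℕ) : ℝ) * (n : ℝ) ^ D := by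
  have hn1 : (1 : ℝ) ≤ n := by exact_mod_cast hn
  rw [Polynomial.eval_eq_sum_range]
  push_cast
  refine (abs_sum_le_sum_abs _ _).trans ?_
  rw [sum_mul]
  refine sum_le_sum fun i hi => ?_
  rw [mem_range] at hi
  rw [abs_mul, abs_pow, abs_of_nonneg (by positivity : (0 : ℝ) ≤ n)]
  have h1 : (((P.coeff i).natAbs : ℕ) : ℝ) = |((P.coeff i : ℤ) : ℝ)| := by
    rw [Nat.cast_natAbs]; push_cast; rfl
  rw [h1]
  apply mul_le_mul_of_nonneg_left _ (abs_nonneg _)
  exact pow_le_pow_right₀ hn1 (by omega)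

open Classical in
/-- the values of fixed polynomials are a system of points with few coincidences -/
lemma pts_poly (io : Fin k → Fin m) (g : Fin k → Polynomial ℤ) (hg : ∀ j, 1 ≤ (g j).natDegree) (D : ℕ)
    (hD : ∀ j, (g j).natDegree ≤ D) (hinj : ∀ j j', j ≠ j' → io j = io j' → g j ≠ g j') (A : ℕ) :
    ∃ H0 : ℕ, ∀ H : ℕ, H0 ≤ H → ∀ x : ℕ, (x : ℝ) ≤ Real.log H ^ A →
      Pts (A * D + 1) (k * k * D) H io (Icc 1 x) (Gp g) := by
  set S : ℕ := ∑ j, ∑ i ∈ range ((g j).natDegree + 1), ((g j).coeff i).natAbs with hS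
  obtain ⟨H0, h0⟩ := Filter.eventually_atTop.1 (ev_log (max (S : ℝ) 1))
  refine ⟨H0, fun H hH x hx => ⟨?_, ?_, ?_⟩⟩
  · intro n hn j
    rw [mem_Icc] at hn
    have h1 := h0 H hH
    have hL1 : 1 ≤ Real.log H := (le_max_right _ _).trans h1
    have hLS : (S : ℝ) ≤ Real.log H := (le_max_left _ _).trans h1
    have h2 := eval_bound (g j) n hn.1 D (hD j)
    have h3 : ((∑ i ∈ range ((g j).natDegree + 1), ((g j).coeff i).natAbs : ℕ) : ℝ) ≤ S := by
      have : ∑ i ∈ range ((g j).natDegree + 1), ((g j).coeff i).natAbs ≤ S :=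
        single_le_sum (f := fun j => ∑ i ∈ range ((g j).natDegree + 1), ((g j).coeff i).natAbs)
          (fun _ _ => Nat.zero_le _) (mem_univ j)
      exact_mod_cast this
    have h4 : (n : ℝ) ≤ Real.log H ^ A := le_trans (by exact_mod_cast hn.2) hx
    have h5 : (n : ℝ) ^ D ≤ Real.log H ^ (A * D) := by
      rw [pow_mul]
      exact pow_le_pow_left₀ (Nat.cast_nonneg _) h4 D
    calc |((Gp g n j : ℤ) : ℝ)| ≤ _ := h2
      _ ≤ S * Real.log H ^ (A * D) := mul_le_mul h3 h5 (by positivity) (Nat.cast_nonneg _)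
      _ ≤ Real.log H * Real.log H ^ (A * D) := mul_le_mul_of_nonneg_right hLS (by positivity)
      _ = _ := by rw [pow_succ]; ring
  · have h1 : (Icc 1 x).filter (fun n => ¬ Nd io (Gp g n)) ⊆
        (univ : Finset (Fin k × Fin k)).biUnion (fun q => (Icc 1 x).filter (fun n : ℕ =>
          g q.1 ≠ g q.2 ∧ (g q.1 - g q.2).eval (n : ℤ) = 0)) := by
      intro n hn
      rw [mem_filter] at hn
      obtain ⟨hn1, hn2⟩ := hn
      unfold Nd at hn2
      push Not at hn2
      obtain ⟨j, j', hj, hio, he⟩ := hn2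
      rw [mem_biUnion]
      refine ⟨(j, j'), mem_univ _, mem_filter.2 ⟨hn1, hinj j j' hj hio, ?_⟩⟩
      rw [Polynomial.eval_sub, sub_eq_zero]
      exact he
    refine (card_le_card h1).trans (card_biUnion_le.trans ?_)
    have h2 : ∀ q ∈ (univ : Finset (Fin k × Fin k)), ((Icc 1 x).filter (fun n : ℕ =>
          g q.1 ≠ g q.2 ∧ (g q.1 - g q.2).eval (n : ℤ) = 0)).card ≤ D := by
      intro q _
      by_cases hq : g q.1 = g q.2
      · rw [filter_false_of_mem (fun n _ h => h.1 hq)]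
        simp
      · refine le_trans (card_le_card ?_) (zeros_card (g q.1 - g q.2) (sub_ne_zero.2 hq) (Icc 1 x) D
          ((Polynomial.natDegree_sub_le _ _).trans (max_le (hD _) (hD _))))
        intro n hn
        rw [mem_filter] at hn ⊢
        exact ⟨hn.1, hn.2.2⟩
    refine (sum_le_sum h2).trans ?_
    rw [sum_const, card_univ, Fintype.card_prod, Fintype.card_fin, smul_eq_mul]
  · have h1 : (Icc 1 x ×ˢ Icc 1 x).filter (fun q => ¬ Sp io (Gp g q.1) (Gp g q.2)) ⊆
        ((univ : Finset (Fin k × Fin k)) ×ˢ Icc 1 x).biUnion (fun r => ((Icc 1 x).filter (fun n' : ℕ =>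
          (g r.1.2 - Polynomial.C ((g r.1.1).eval (r.2 : ℤ))).eval (n' : ℤ) = 0)).image (fun n' => (r.2, n'))) := by
      intro q hq
      rw [mem_filter, mem_product] at hq
      obtain ⟨⟨hq1, hq2⟩, hq3⟩ := hq
      unfold Sp at hq3
      push Not at hq3
      obtain ⟨j, j', _, he⟩ := hq3
      rw [mem_biUnion]
      refine ⟨((j, j'), q.1), mem_product.2 ⟨mem_univ _, hq1⟩, ?_⟩
      rw [mem_image]
      refine ⟨q.2, mem_filter.2 ⟨hq2, ?_⟩, rfl⟩
      rw [Polynomial.eval_sub, Polynomial.eval_C, sub_eq_zero]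
      exact he.symm
    refine (card_le_card h1).trans (card_biUnion_le.trans ?_)
    have h2 : ∀ r ∈ (univ : Finset (Fin k × Fin k)) ×ˢ Icc 1 x, (((Icc 1 x).filter (fun n' : ℕ =>
          (g r.1.2 - Polynomial.C ((g r.1.1).eval (r.2 : ℤ))).eval (n' : ℤ) = 0)).image (fun n' => (r.2, n'))).card ≤ D := by
      intro r _
      refine card_image_le.trans ?_
      have hdeg : (g r.1.2 - Polynomial.C ((g r.1.1).eval (r.2 : ℤ))).natDegree = (g r.1.2).natDegree :=
        Polynomial.natDegree_sub_C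
      apply zeros_card
      · intro h0
        rw [h0, Polynomial.natDegree_zero] at hdeg
        have := hg r.1.2
        omega
      · rw [hdeg]; exact hD _
    refine (sum_le_sum h2).trans ?_
    rw [sum_const, card_product, card_univ, Fintype.card_prod, Fintype.card_fin, smul_eq_mul, Nat.card_Icc,
      Nat.add_sub_cancel]
    apply le_of_eq; ring

end Pool.Agent.TP975.RP
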