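import Mathlib
import Pool.Agent.TP975.RP.Gn7

/-!
Compositions with fixed polynomials: the theorem for one `x`.
-/

set_option autoImplicit false

namespace Pool.Agent.TP975.RP

open Finset
open Pool.Agent.H373R2.T7

variable {m d k : ℕ}

/-- powers of the inverse of the Mertens product at powers of `log log H` -/
lemma V_small (E M : ℕ) : ∃ H0 : ℕ, ∀ H : ℕ, H0 ≤ H → ∀ w : ℕ, (w : ℝ) ≤ Real.log (Real.log H) ^ E →
    ((Vz w)⁻¹) ^ M ≤ Real.log (Real.log H) := by
  obtain ⟨N0, h0⟩ := Vz_eps E M (1 / 2) (by norm_num)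
  obtain ⟨H1, h1⟩ := Filter.eventually_atTop.1 (ev_log (max (N0 : ℝ) 3))
  obtain ⟨H2, h2⟩ := ll_ev 2
  refine ⟨max H1 H2, fun H hH w hw => ?_⟩
  have a1 := h1 H (le_trans (le_max_left _ _) hH)
  have a2 := h2 H (le_trans (le_max_right _ _) hH)
  set L := Real.log H with hL
  set LL := Real.log L with hLL
  have hL3 : 3 ≤ L := (le_max_right _ _).trans a1
  have hLN : (N0 : ℝ) ≤ L := (le_max_left _ _).trans a1
  have hc1 : L ≤ ⌈L⌉₊ := Nat.le_ceil L
  have hc2 : (⌈L⌉₊ : ℝ) ≤ 2 * L := by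
    have : (⌈L⌉₊ : ℝ) < L + 1 := Nat.ceil_lt_add_one (by linarith)
    linarith
  have hN : N0 ≤ ⌈L⌉₊ := by exact_mod_cast hLN.trans hc1
  have hl1 : LL ≤ Real.log (⌈L⌉₊ : ℝ) := Real.log_le_log (by linarith) hc1
  have hl2 : Real.log (⌈L⌉₊ : ℝ) ≤ 2 * LL := by
    have h3 := Real.log_le_log (by linarith) hc2
    rw [Real.log_mul (by norm_num) (by linarith)] at h3
    have h4 : Real.log 2 ≤ LL := by
      rw [hLL]; exact Real.log_le_log (by norm_num) (by linarith)
    linarith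
  have h3 := h0 ⌈L⌉₊ hN w (hw.trans (pow_le_pow_left₀ (by linarith) hl1 E))
  refine h3.trans ?_
  have h4 : Real.log (⌈L⌉₊ : ℝ) ^ (1 / 2 : ℝ) ≤ (LL ^ 2) ^ (1 / 2 : ℝ) := by
    apply Real.rpow_le_rpow (by linarith) _ (by norm_num)
    nlinarith
  refine h4.trans (le_of_eq ?_)
  rw [← Real.sqrt_eq_rpow, Real.sqrt_sq (by linarith)]

lemma Pts.mono {A A' c0 H : ℕ} {io : Fin k → Fin m} {T : Finset ℕ} {G : ℕ → Fin k → ℤ} (h : Pts A c0 H io T G)
    (hA : A ≤ A') (hL : 1 ≤ Real.log H) : Pts A' c0 H io T G :=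
  ⟨fun n hn j => (h.bd n hn j).trans (pow_le_pow_right₀ hL hA), h.dg, h.co⟩

open Classical in
theorem cmp1 (m d k : ℕ) (hd : 1 ≤ d) (hk : 1 ≤ k) (io : Fin k → Fin m)
    (hfib : ∀ i, (univ.filter (fun j => io j = i)).card ≤ d) (g : Fin k → Polynomial ℤ) (hg : ∀ j, 1 ≤ (g j).natDegree)
    (hinj : ∀ j j', j ≠ j' → io j = io j' → g j ≠ g j') (ε : ℝ) (hε : 0 < ε) (A B : ℕ) : ∃ E1 : ℕ, ∀ E2 : ℕ, ∃ H0 : ℕ,
    ∀ H : ℕ, H0 ≤ H → ∀ w : ℕ, Real.log (Real.log H) ^ E1 ≤ w → (w : ℝ) ≤ Real.log (Real.log H) ^ E2 →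
    ∀ x : ℕ, Real.log H ^ ((k : ℝ) + ε) ≤ x → (x : ℝ) ≤ Real.log H ^ A →
    (((Bx m d H).filter (fun a => (∀ p ≤ w, p.Prime → omC io g a p < p) ∧
      CwC w io g a * x / Real.log (Real.log H) ^ B < |Real.log H ^ k * piC io g a x - CwC w io g a * x|)).card : ℝ) ≤
      (Bx m d H).card / Real.log (Real.log H) ^ B := by
  set D : ℕ := univ.sup (fun j => (g j).natDegree) with hDd
  have hD : ∀ j, (g j).natDegree ≤ D := fun j => le_sup (f := fun j => (g j).natDegree) (mem_univ j)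
  set A' : ℕ := A * D + 1 + A with hA'
  obtain ⟨E1, h1⟩ := cntG m d k A' (k * k * D) (B + 4) hd ε hε
  refine ⟨E1, fun E2 => ?_⟩
  obtain ⟨H1, h1⟩ := h1 E2
  obtain ⟨H2, h2⟩ := pts_poly io g hg D hD hinj A
  obtain ⟨N0, h3⟩ := MG_eval k d D E2 (B + 5)
  obtain ⟨H4, h4⟩ := V_small E2 k
  obtain ⟨H5, h5⟩ := V_small E2 (2 * (k * (d * D)))
  obtain ⟨c, hc, hlow⟩ := CwC_lower k d D
  obtain ⟨H6, h6⟩ := ll_ev (max 2 (1 / c))
  obtain ⟨H7, h7⟩ := Filter.eventually_atTop.1 (ev_log (max 3 (N0 : ℝ)))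
  refine ⟨max (max (max H1 H2) (max H4 H5)) (max H6 H7), fun H hH w hw1 hw2 x hx hxA => ?_⟩
  have b0 := le_trans (le_max_left _ _) hH
  have b0' := le_trans (le_max_right _ _) hH
  have b1 := le_trans (le_max_left _ _) (le_trans (le_max_left _ _) b0)
  have b2 := le_trans (le_max_right _ _) (le_trans (le_max_left _ _) b0)
  have b4 := le_trans (le_max_left _ _) (le_trans (le_max_right _ _) b0)
  have b5 := le_trans (le_max_right _ _) (le_trans (le_max_right _ _) b0)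
  have b6 := le_trans (le_max_left _ _) b0'
  have b7 := le_trans (le_max_right _ _) b0'
  have hPt := h2 H b2 x hxA
  have hV4 := h4 H b4 w hw2
  have hV5 := h5 H b5 w hw2
  have hLLm := h6 H b6
  have hLm := h7 H b7
  have hcnt := h1 H b1 w hw1 hw2 io hfib (Icc 1 x) (Gp g)
  set L := Real.log H with hL
  set LL := Real.log L with hLL
  have hL3 : 3 ≤ L := (le_max_left _ _).trans hLm
  have hLN : (N0 : ℝ) ≤ L := (le_max_right _ _).trans hLm
  have hLL2 : 2 ≤ LL := (le_max_left _ _).trans hLLm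
  have hLLc : 1 / c ≤ LL := (le_max_right _ _).trans hLLm
  have hL0 : 0 < L := by linarith
  have hL1 : 1 ≤ L := by linarith
  have hLL0 : 0 < LL := by linarith
  have hLL1 : 1 ≤ LL := by linarith
  have hw0' : (1 : ℝ) ≤ w := (one_le_pow₀ hLL1).trans hw1
  have hw1' : 1 ≤ w := by exact_mod_cast hw0'
  have hLx : L ≤ x := by
    refine le_trans ?_ hx
    calc L = L ^ (1 : ℝ) := (Real.rpow_one L).symm
      _ ≤ L ^ ((k : ℝ) + ε) := by
        apply Real.rpow_le_rpow_of_exponent_le hL1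
        have : (1 : ℝ) ≤ k := by exact_mod_cast hk
        linarith
  have hx0 : (0 : ℝ) < x := by linarith
  have hNx : N0 ≤ x := by exact_mod_cast hLN.trans hLx
  have hlogx : LL ≤ Real.log x := Real.log_le_log hL0 hLx
  have hcard : (Icc 1 x).card = x := by rw [Nat.card_Icc, Nat.add_sub_cancel]
  rw [hcard] at hcnt
  have hxA' : (x : ℝ) ≤ L ^ A' := hxA.trans (pow_le_pow_right₀ hL1 (by omega))
  have hcnt2 := hcnt (hPt.mono (by omega) hL1) hx hxA'
  have hsub : (Bx m d H).filter (fun a => (∀ p ≤ w, p.Prime → omC io g a p < p) ∧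
      CwC w io g a * x / LL ^ B < |L ^ k * piC io g a x - CwC w io g a * x|) ⊆
      (Bx m d H).filter (fun a => (MG w io (Icc 1 x) (Gp g) a + x) / LL ^ (B + 4) <
        |L ^ k * piG io (Icc 1 x) (Gp g) a - MG w io (Icc 1 x) (Gp g) a|) := by
    intro a ha
    rw [mem_filter] at ha
    obtain ⟨haB, hom, hgt⟩ := ha
    rw [mem_filter]
    refine ⟨haB, ?_⟩
    by_contra hcon
    rw [not_lt] at hcon
    have e1 : piG io (Icc 1 x) (Gp g) a = piC io g a x := rfl
    rw [e1] at hcon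
    have hev := h3 x hNx w hw1' (hw2.trans (pow_le_pow_left₀ hLL0.le hlogx E2)) m io g a hD hom
    set Cc := CwC w io g a with hCc
    set M := MG w io (Icc 1 x) (Gp g) a with hM
    set P := L ^ k * (piC io g a x : ℝ) with hP
    have hlow1 : 1 ≤ Cc * LL ^ 2 := by
      have p1 := hlow m w io g a hD hom
      have p2 : 1 ≤ (Vz w) ^ (2 * (k * (d * D))) * LL := by
        have p3 : (Vz w) ^ (2 * (k * (d * D))) * ((Vz w)⁻¹) ^ (2 * (k * (d * D))) = 1 := by
          rw [← mul_pow, mul_inv_cancel₀ (Vz_pos w).ne', one_pow]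
        rw [← p3]
        exact mul_le_mul_of_nonneg_left hV5 (pow_nonneg (Vz_pos w).le _)
      have p4 : 1 ≤ c * LL := by
        rw [div_le_iff₀ hc] at hLLc
        linarith
      calc (1 : ℝ) = 1 * 1 := by norm_num
        _ ≤ (c * LL) * ((Vz w) ^ (2 * (k * (d * D))) * LL) := mul_le_mul p4 p2 (by norm_num) (by positivity)
        _ = (c * (Vz w) ^ (2 * (k * (d * D)))) * LL ^ 2 := by ring
        _ ≤ Cc * LL ^ 2 := mul_le_mul_of_nonneg_right p1 (by positivity)
    have hCc0 : 0 ≤ Cc := (CwC_bd w io g a).1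
    have hev2 : |M - Cc * x| ≤ x / LL ^ (B + 4) := by
      refine hev.trans ?_
      have q1 : (x : ℝ) / Real.log x ^ (B + 5) ≤ x / LL ^ (B + 5) :=
        div_le_div_of_nonneg_left hx0.le (by positivity) (pow_le_pow_left₀ hLL0.le hlogx _)
      calc ((Vz w)⁻¹) ^ k * (x / Real.log x ^ (B + 5)) ≤ LL * (x / LL ^ (B + 5)) :=
            mul_le_mul hV4 q1 (by have : 0 ≤ Real.log (x : ℝ) := by linarith
                                  positivity) hLL0.le
        _ = x / LL ^ (B + 4) := by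
            rw [pow_succ LL (B + 4)]
            field_simp
    have hxC : (x : ℝ) ≤ Cc * x * LL ^ 2 := by
      calc (x : ℝ) = 1 * x := (one_mul _).symm
        _ ≤ (Cc * LL ^ 2) * x := mul_le_mul_of_nonneg_right hlow1 hx0.le
        _ = _ := by ring
    have hLLp : 0 < LL ^ (B + 4) := by positivity
    have hM2 : M ≤ Cc * x + x := by
      have q1 := (abs_le.1 hev2).2
      have q2 : (x : ℝ) / LL ^ (B + 4) ≤ x := div_le_self hx0.le (one_le_pow₀ hLL1)
      linarith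
    have q3 : |P - Cc * x| ≤ (Cc * x + 3 * x) / LL ^ (B + 4) := by
      have q4 : |P - Cc * x| ≤ |P - M| + |M - Cc * x| := abs_sub_le _ _ _
      have q5 : (M + x) / LL ^ (B + 4) ≤ (Cc * x + 2 * x) / LL ^ (B + 4) :=
        div_le_div_of_nonneg_right (by linarith) hLLp.le
      have q6 : (Cc * x + 3 * x) / LL ^ (B + 4) = (Cc * x + 2 * x) / LL ^ (B + 4) + x / LL ^ (B + 4) := by
        rw [← add_div]; congr 1; ring
      rw [q6]
      linarith
    have q7 : (Cc * x + 3 * x) / LL ^ (B + 4) ≤ Cc * x / LL ^ B := by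
      have hCx : 0 ≤ Cc * x := by positivity
      have q8 : Cc * x + 3 * x ≤ Cc * x * LL ^ 4 := by
        have r1 : 4 ≤ LL ^ 2 := by nlinarith
        have r2 : Cc * x + 3 * x ≤ Cc * x * LL ^ 2 + 3 * (Cc * x * LL ^ 2) := by nlinarith
        have r3 : Cc * x * LL ^ 2 * 4 ≤ Cc * x * LL ^ 2 * LL ^ 2 := mul_le_mul_of_nonneg_left r1 (by positivity)
        have r4 : Cc * x * LL ^ 2 * LL ^ 2 = Cc * x * LL ^ 4 := by ring
        linarith
      rw [div_le_div_iff₀ hLLp (by positivity)]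
      calc (Cc * x + 3 * x) * LL ^ B ≤ Cc * x * LL ^ 4 * LL ^ B := mul_le_mul_of_nonneg_right q8 (by positivity)
        _ = Cc * x * LL ^ (B + 4) := by rw [pow_add]; ring
    linarith
  have hfin : (((Bx m d H).filter (fun a => (∀ p ≤ w, p.Prime → omC io g a p < p) ∧
      CwC w io g a * x / LL ^ B < |L ^ k * piC io g a x - CwC w io g a * x|)).card : ℝ) ≤
      (Bx m d H).card / LL ^ (B + 4) := by
    refine le_trans ?_ hcnt2
    exact_mod_cast card_le_card hsub
  refine hfin.trans ?_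
  apply div_le_div_of_nonneg_left (Nat.cast_nonneg _) (by positivity)
  exact pow_le_pow_right₀ hLL1 (by omega)

end Pool.Agent.TP975.RP
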