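import Mathlib
import Pool.Agent.TP975.RP.Gn8

/-!
Compositions with fixed polynomials: all `x` at once.
-/

set_option autoImplicit false

namespace Pool.Agent.TP975.RP

open Finset
open Pool.Agent.H373R2.T7

variable {m d k : ℕ}

lemma piC_mono (io : Fin k → Fin m) (g : Fin k → Polynomial ℤ) (a : Fin m → Fin (d + 1) → ℤ) {x y : ℕ} (h : x ≤ y) :
    piC io g a x ≤ piC io g a y := by
  unfold piC
  apply card_le_card
  apply filter_subset_filter
  exact Icc_subset_Icc le_rfl h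

/-- a grid -/
lemma grid_pt (ρ : ℝ) (hρ : 0 < ρ) (hρ2 : ρ ≤ 1 / 4) (x : ℕ) (hx : 1 ≤ ρ * x) : ∃ i : ℕ,
    (1 + ρ) ^ i ≤ x ∧ ⌊(1 + ρ) ^ i⌋₊ ≤ x ∧ x ≤ ⌊(1 + ρ) ^ (i + 1)⌋₊ ∧ x * (1 - 2 * ρ) ≤ (⌊(1 + ρ) ^ i⌋₊ : ℝ) ∧
    (⌊(1 + ρ) ^ (i + 1)⌋₊ : ℝ) ≤ (1 + ρ) * x := by
  have hx0 : (0 : ℝ) ≤ x := Nat.cast_nonneg _
  have hx1 : (1 : ℝ) ≤ x := by nlinarith
  obtain ⟨i, h1, h2⟩ := exists_nat_pow_near hx1 (by linarith : 1 < 1 + ρ)
  have hp0 : 0 ≤ (1 + ρ) ^ i := by positivity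
  have hfl : (⌊(1 + ρ) ^ i⌋₊ : ℝ) ≤ (1 + ρ) ^ i := Nat.floor_le hp0
  refine ⟨i, h1, ?_, ?_, ?_, ?_⟩
  · exact_mod_cast hfl.trans h1
  · exact Nat.le_floor h2.le
  · have h3 : (1 + ρ) ^ i - 1 < (⌊(1 + ρ) ^ i⌋₊ : ℝ) := Nat.sub_one_lt_floor _
    have h4 : x * (1 - ρ) ≤ (1 + ρ) ^ i := by
      rw [pow_succ] at h2
      have h5 : (x : ℝ) * (1 - ρ) ≤ (1 + ρ) ^ i * (1 + ρ) * (1 - ρ) := mul_le_mul_of_nonneg_right h2.le (by linarith)
      have h6 : (1 + ρ) ^ i * (1 + ρ) * (1 - ρ) = (1 + ρ) ^ i - (1 + ρ) ^ i * ρ ^ 2 := by ring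
      have h7 : 0 ≤ (1 + ρ) ^ i * ρ ^ 2 := by positivity
      linarith
    have h5 : (x : ℝ) * (1 - 2 * ρ) = x * (1 - ρ) - ρ * x := by ring
    linarith
  · refine (Nat.floor_le (by positivity)).trans ?_
    rw [pow_succ, mul_comm]
    exact mul_le_mul_of_nonneg_left h1 (by linarith)

/-- the index of a grid point is small -/
lemma grid_idx (ρ : ℝ) (hρ : 0 < ρ) (hρ2 : ρ ≤ 1 / 4) (i : ℕ) (X : ℝ) (hX : (1 + ρ) ^ i ≤ X) :
    (i : ℝ) * ρ ≤ 2 * Real.log X := by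
  have h1 : Real.log ((1 + ρ) ^ i) ≤ Real.log X := Real.log_le_log (by positivity) hX
  rw [Real.log_pow] at h1
  have h2 : ρ / 2 ≤ Real.log (1 + ρ) := by
    have h3 := Real.one_sub_inv_le_log_of_pos (by linarith : 0 < 1 + ρ)
    refine le_trans ?_ h3
    rw [le_sub_iff_add_le, ← le_sub_iff_add_le', inv_eq_one_div, div_le_iff₀ (by linarith)]
    nlinarith
  have h4 : (i : ℝ) * (ρ / 2) ≤ i * Real.log (1 + ρ) := mul_le_mul_of_nonneg_left h2 (Nat.cast_nonneg _)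
  linarith

open Classical in
theorem cmp2 (m d k : ℕ) (hd : 1 ≤ d) (hk : 1 ≤ k) (io : Fin k → Fin m)
    (hfib : ∀ i, (univ.filter (fun j => io j = i)).card ≤ d) (g : Fin k → Polynomial ℤ) (hg : ∀ j, 1 ≤ (g j).natDegree)
    (hinj : ∀ j j', j ≠ j' → io j = io j' → g j ≠ g j') (ε : ℝ) (hε : 0 < ε) (A B : ℕ) : ∃ E1 : ℕ, ∀ E2 : ℕ, ∃ H0 : ℕ,
    ∀ H : ℕ, H0 ≤ H → ∀ w : ℕ, Real.log (Real.log H) ^ E1 ≤ w → (w : ℝ) ≤ Real.log (Real.log H) ^ E2 →
    (((Bx m d H).filter (fun a => (∀ p ≤ w, p.Prime → omC io g a p < p) ∧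
      ∃ x : ℕ, Real.log H ^ ((k : ℝ) + ε) ≤ x ∧ (x : ℝ) ≤ Real.log H ^ A ∧
      CwC w io g a * x / Real.log H ^ k / Real.log (Real.log H) ^ B <
        |(piC io g a x : ℝ) - CwC w io g a * x / Real.log H ^ k|)).card : ℝ) ≤
      (Bx m d H).card / Real.log (Real.log H) ^ B := by
  obtain ⟨E1, h1⟩ := cmp1 m d k hd hk io hfib g hg hinj (ε / 2) (by linarith) (A + 1) (2 * B + 5)
  refine ⟨E1, fun E2 => ?_⟩
  obtain ⟨H1, h1⟩ := h1 E2
  obtain ⟨H2, h2⟩ := ll_ev (max 2 (2 * A))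
  obtain ⟨H3, h3⟩ := Filter.eventually_atTop.1 (ev_log 3)
  -- powers of LL are small against powers of L
  have hsm : ∃ H4 : ℕ, ∀ H : ℕ, H4 ≤ H → Real.log (Real.log H) ^ (B + 2) ≤ Real.log H ^ (min (ε / 2) 1) := by
    have t1 : Filter.Tendsto (fun H : ℕ => Real.log (H : ℝ)) Filter.atTop Filter.atTop :=
      Real.tendsto_log_atTop.comp tendsto_natCast_atTop_atTop
    have t2 := (isLittleO_log_rpow_rpow_atTop (s := min (ε / 2) 1) ((B + 2 : ℕ) : ℝ) (by positivity)).bound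
      (show (0 : ℝ) < 1 by norm_num)
    have t3 := t1.eventually t2
    obtain ⟨H4, h4⟩ := Filter.eventually_atTop.1 (t3.and (ev_log 3))
    refine ⟨H4, fun H hH => ?_⟩
    obtain ⟨h5, h6⟩ := h4 H hH
    rw [one_mul, Real.norm_eq_abs, Real.norm_eq_abs, Real.rpow_natCast] at h5
    have h7 : 0 ≤ Real.log (H : ℝ) ^ (min (ε / 2) 1) := Real.rpow_nonneg (by linarith) _
    rw [abs_of_nonneg h7] at h5
    exact (le_abs_self _).trans h5
  obtain ⟨H4, h4⟩ := hsm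
  refine ⟨max (max H1 H2) (max H3 H4), fun H hH w hw1 hw2 => ?_⟩
  have b1 := le_trans (le_max_left _ _) (le_trans (le_max_left _ _) hH)
  have b2 := le_trans (le_max_right _ _) (le_trans (le_max_left _ _) hH)
  have b3 := le_trans (le_max_left _ _) (le_trans (le_max_right _ _) hH)
  have b4 := le_trans (le_max_right _ _) (le_trans (le_max_right _ _) hH)
  have hbad := h1 H b1 w hw1 hw2
  have hLLm := h2 H b2
  have hL3 := h3 H b3
  have hsm := h4 H b4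
  set L := Real.log H with hL
  set LL := Real.log L with hLL
  have hLL2 : 2 ≤ LL := (le_max_left _ _).trans hLLm
  have hLLA : 2 * (A : ℝ) ≤ LL := (le_max_right _ _).trans hLLm
  have hL0 : 0 < L := by linarith
  have hL1 : 1 ≤ L := by linarith
  have hLL0 : 0 < LL := by linarith
  have hLL1 : 1 ≤ LL := by linarith
  have hLk : 0 < L ^ k := by positivity
  set ρ : ℝ := 1 / LL ^ (B + 2) with hρd
  have hp0 : 0 < LL ^ (B + 2) := by positivity
  have hρ : 0 < ρ := by positivity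
  have hpB : 1 ≤ LL ^ B := one_le_pow₀ hLL1
  have hp4 : 4 ≤ LL ^ (B + 2) := by
    rw [pow_add]
    have : 4 ≤ LL ^ 2 := by nlinarith
    nlinarith
  have hρ2 : ρ ≤ 1 / 4 := one_div_le_one_div_of_le (by norm_num) hp4
  have h3ρ : 3 * ρ ≤ 1 / LL ^ B := by
    rw [hρd, mul_one_div, div_le_div_iff₀ hp0 (by positivity), pow_add]
    have : 4 ≤ LL ^ 2 := by nlinarith
    nlinarith
  set I : ℕ := ⌊LL ^ (B + 4)⌋₊ with hI
  set u : ℕ → ℕ := fun i => ⌊(1 + ρ) ^ i⌋₊ with hu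
  set Bd : ℕ → Finset (Fin m → Fin (d + 1) → ℤ) := fun y => (Bx m d H).filter (fun a =>
    (∀ p ≤ w, p.Prime → omC io g a p < p) ∧
      CwC w io g a * y / LL ^ (2 * B + 5) < |L ^ k * piC io g a y - CwC w io g a * y|) with hBd
  set J : Finset ℕ := (range (I + 2)).filter (fun i => L ^ ((k : ℝ) + ε / 2) ≤ (u i : ℝ) ∧ (u i : ℝ) ≤ L ^ (A + 1)) with hJ
  have hsub : (Bx m d H).filter (fun a => (∀ p ≤ w, p.Prime → omC io g a p < p) ∧
      ∃ x : ℕ, L ^ ((k : ℝ) + ε) ≤ x ∧ (x : ℝ) ≤ L ^ A ∧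
      CwC w io g a * x / L ^ k / LL ^ B < |(piC io g a x : ℝ) - CwC w io g a * x / L ^ k|) ⊆
      J.biUnion (fun i => Bd (u i)) := by
    intro a ha
    rw [mem_filter] at ha
    obtain ⟨haB, hom, x, hx, hxA, hgt⟩ := ha
    have hk1 : (1 : ℝ) ≤ k := by exact_mod_cast hk
    have hsplit : L ^ ((k : ℝ) + ε) = L ^ ((k : ℝ) + ε / 2) * L ^ (ε / 2) := by
      rw [← Real.rpow_add hL0]; congr 1; ring
    have hmin : L ^ (min (ε / 2) 1) ≤ L ^ (ε / 2) := Real.rpow_le_rpow_of_exponent_le hL1 (min_le_left _ _)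
    have hge4 : LL ^ (B + 2) ≤ L ^ (ε / 2) := hsm.trans hmin
    have hLke1 : 1 ≤ L ^ ((k : ℝ) + ε / 2) := Real.one_le_rpow hL1 (by linarith)
    have hxp : LL ^ (B + 2) * L ^ ((k : ℝ) + ε / 2) ≤ x := by
      refine le_trans ?_ hx
      rw [hsplit, mul_comm]
      exact mul_le_mul_of_nonneg_left hge4 (by linarith)
    have hxp1 : LL ^ (B + 2) ≤ x := by
      refine le_trans ?_ hxp
      nlinarith
    have hx0 : (0 : ℝ) < x := by linarith
    have hρx : 1 ≤ ρ * x := by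
      rw [hρd, one_div_mul_eq_div, le_div_iff₀ hp0, one_mul]
      exact hxp1
    obtain ⟨i, g1, g2, g3, g4, g5⟩ := grid_pt ρ hρ hρ2 x hρx
    have hlow : L ^ ((k : ℝ) + ε / 2) ≤ (u i : ℝ) := by
      refine le_trans ?_ g4
      have q1 : (x : ℝ) * (1 / 2) ≤ x * (1 - 2 * ρ) := mul_le_mul_of_nonneg_left (by linarith) hx0.le
      have q2 : 4 * L ^ ((k : ℝ) + ε / 2) ≤ LL ^ (B + 2) * L ^ ((k : ℝ) + ε / 2) :=
        mul_le_mul_of_nonneg_right hp4 (by linarith)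
      linarith
    have hupp : (u (i + 1) : ℝ) ≤ L ^ (A + 1) := by
      refine g5.trans ?_
      rw [pow_succ, mul_comm]
      exact mul_le_mul hxA (by linarith) (by linarith) (by positivity)
    have hmono : (u i : ℝ) ≤ (u (i + 1) : ℝ) := by
      have : u i ≤ u (i + 1) := g2.trans g3
      exact_mod_cast this
    have hiI : i ≤ I := by
      apply Nat.le_floor
      have q1 := grid_idx ρ hρ hρ2 i (L ^ A) (g1.trans hxA)
      rw [Real.log_pow, ← hLL] at q1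
      have q2 : (i : ℝ) = i * ρ * LL ^ (B + 2) := by
        rw [hρd]; field_simp
      rw [q2]
      calc (i : ℝ) * ρ * LL ^ (B + 2) ≤ 2 * (A * LL) * LL ^ (B + 2) := mul_le_mul_of_nonneg_right q1 hp0.le
        _ = (2 * A) * (LL * LL ^ (B + 2)) := by ring
        _ ≤ LL * (LL * LL ^ (B + 2)) := mul_le_mul_of_nonneg_right hLLA (by positivity)
        _ = LL ^ (B + 4) := by ring
    by_contra hcon
    have hcon2 : ∀ i' ∈ J, a ∉ Bd (u i') := by
      intro i' hi' hmem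
      exact hcon (mem_biUnion.2 ⟨i', hi', hmem⟩)
    have m1 : i ∈ J := by
      rw [hJ, mem_filter, mem_range]
      exact ⟨by omega, hlow, hmono.trans hupp⟩
    have m2 : i + 1 ∈ J := by
      rw [hJ, mem_filter, mem_range]
      exact ⟨by omega, hlow.trans hmono, hupp⟩
    have n1 := hcon2 i m1
    have n2 := hcon2 (i + 1) m2
    simp only [hBd, mem_filter, not_and, not_lt] at n1 n2
    have n1' := n1 haB hom
    have n2' := n2 haB hom
    set Cc := CwC w io g a with hCc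
    have hCc0 : 0 ≤ Cc := (CwC_bd w io g a).1
    have hρB : 1 / LL ^ (2 * B + 5) ≤ ρ :=
      one_div_le_one_div_of_le hp0 (pow_le_pow_right₀ hLL1 (by omega))
    have hpi1 : (piC io g a (u i) : ℝ) ≤ piC io g a x := by exact_mod_cast piC_mono io g a g2
    have hpi2 : (piC io g a x : ℝ) ≤ piC io g a (u (i + 1)) := by exact_mod_cast piC_mono io g a g3
    have hCx : 0 ≤ Cc * x := by positivity
    have up : L ^ k * (piC io g a x : ℝ) ≤ Cc * x * (1 + 3 * ρ) := by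
      have r1 := (abs_le.1 n2').2
      have r2 : Cc * (u (i + 1) : ℝ) / LL ^ (2 * B + 5) ≤ Cc * (u (i + 1) : ℝ) * ρ := by
        rw [div_eq_mul_one_div]
        exact mul_le_mul_of_nonneg_left hρB (by positivity)
      have r3 : L ^ k * (piC io g a x : ℝ) ≤ L ^ k * (piC io g a (u (i + 1)) : ℝ) :=
        mul_le_mul_of_nonneg_left hpi2 hLk.le
      have r4 : Cc * (u (i + 1) : ℝ) * (1 + ρ) ≤ Cc * ((1 + ρ) * x) * (1 + ρ) :=
        mul_le_mul_of_nonneg_right (mul_le_mul_of_nonneg_left g5 hCc0) (by linarith)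
      have r5 : Cc * ((1 + ρ) * x) * (1 + ρ) = Cc * x * (1 + 2 * ρ + ρ * ρ) := by ring
      have r6 : Cc * x * (1 + 2 * ρ + ρ * ρ) ≤ Cc * x * (1 + 3 * ρ) := by
        apply mul_le_mul_of_nonneg_left _ hCx
        nlinarith
      linarith
    have dn : Cc * x * (1 - 3 * ρ) ≤ L ^ k * (piC io g a x : ℝ) := by
      have r1 := (abs_le.1 n1').1
      have r2 : Cc * (u i : ℝ) / LL ^ (2 * B + 5) ≤ Cc * (u i : ℝ) * ρ := by
        rw [div_eq_mul_one_div]
        exact mul_le_mul_of_nonneg_left hρB (by positivity)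
      have r3 : L ^ k * (piC io g a (u i) : ℝ) ≤ L ^ k * (piC io g a x : ℝ) :=
        mul_le_mul_of_nonneg_left hpi1 hLk.le
      have r4 : Cc * (x * (1 - 2 * ρ)) * (1 - ρ) ≤ Cc * (u i : ℝ) * (1 - ρ) :=
        mul_le_mul_of_nonneg_right (mul_le_mul_of_nonneg_left g4 hCc0) (by linarith)
      have r5 : Cc * (x * (1 - 2 * ρ)) * (1 - ρ) = Cc * x * (1 - 3 * ρ + 2 * (ρ * ρ)) := by ring
      have r6 : Cc * x * (1 - 3 * ρ) ≤ Cc * x * (1 - 3 * ρ + 2 * (ρ * ρ)) := by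
        apply mul_le_mul_of_nonneg_left _ hCx
        nlinarith
      linarith
    have hfin : |L ^ k * (piC io g a x : ℝ) - Cc * x| ≤ Cc * x / LL ^ B := by
      have r1 : Cc * x * (3 * ρ) ≤ Cc * x * (1 / LL ^ B) := mul_le_mul_of_nonneg_left h3ρ hCx
      rw [div_eq_mul_one_div]
      rw [abs_le]
      constructor
      · linarith
      · linarith
    have hgt2 : Cc * x / LL ^ B < |L ^ k * (piC io g a x : ℝ) - Cc * x| := by
      have r1 := mul_lt_mul_of_pos_left hgt hLk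
      have r2 : L ^ k * (Cc * x / L ^ k / LL ^ B) = Cc * x / LL ^ B := by field_simp
      have r3 : L ^ k * |(piC io g a x : ℝ) - Cc * x / L ^ k| = |L ^ k * (piC io g a x : ℝ) - Cc * x| := by
        rw [← abs_of_pos hLk, ← abs_mul, abs_of_pos hLk, mul_sub]
        congr 2
        field_simp
      rw [r2, r3] at r1
      exact r1
    exact absurd hfin (not_le.2 hgt2)
  have hc1 : (((Bx m d H).filter (fun a => (∀ p ≤ w, p.Prime → omC io g a p < p) ∧
      ∃ x : ℕ, L ^ ((k : ℝ) + ε) ≤ x ∧ (x : ℝ) ≤ L ^ A ∧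
      CwC w io g a * x / L ^ k / LL ^ B < |(piC io g a x : ℝ) - CwC w io g a * x / L ^ k|)).card : ℝ) ≤
      ∑ i ∈ J, ((Bd (u i)).card : ℝ) := by
    exact_mod_cast (card_le_card hsub).trans card_biUnion_le
  refine hc1.trans ?_
  have hc2 : ∑ i ∈ J, ((Bd (u i)).card : ℝ) ≤ ∑ _i ∈ J, ((Bx m d H).card / LL ^ (2 * B + 5) : ℝ) := by
    apply sum_le_sum
    intro i hi
    rw [hJ, mem_filter] at hi
    exact hbad (u i) hi.2.1 hi.2.2
  refine hc2.trans ?_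
  rw [sum_const, nsmul_eq_mul]
  have hJc : (J.card : ℝ) ≤ LL ^ (B + 5) := by
    have q1 : J.card ≤ I + 2 := by
      refine (card_filter_le _ _).trans ?_
      rw [card_range]
    have q2 : (J.card : ℝ) ≤ I + 2 := by exact_mod_cast q1
    have q3 : (I : ℝ) ≤ LL ^ (B + 4) := Nat.floor_le (by positivity)
    have q4 : LL ^ (B + 5) = LL ^ (B + 4) * LL := pow_succ _ _
    have q5 : 2 ≤ LL ^ (B + 4) := by
      calc (2 : ℝ) ≤ LL := hLL2
        _ = LL ^ 1 := (pow_one _).symm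
        _ ≤ LL ^ (B + 4) := pow_le_pow_right₀ hLL1 (by omega)
    rw [q4]
    nlinarith
  have hB0 : (0 : ℝ) ≤ (Bx m d H).card := Nat.cast_nonneg _
  calc (J.card : ℝ) * ((Bx m d H).card / LL ^ (2 * B + 5)) ≤ LL ^ (B + 5) * ((Bx m d H).card / LL ^ (2 * B + 5)) :=
        mul_le_mul_of_nonneg_right hJc (by positivity)
    _ = (Bx m d H).card / LL ^ B := by
        have : LL ^ (2 * B + 5) = LL ^ (B + 5) * LL ^ B := by rw [← pow_add]; congr 1; ring
        rw [this]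
        field_simp

end Pool.Agent.TP975.RP
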