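import Mathlib
import Pool.Agent.TP975.RP.Cd8

/-!
One polynomial with prescribed arguments.
-/

set_option autoImplicit false

namespace Pool.Agent.TP975.RP

open Finset
open Pool.Agent.H373R2.T7

/-- one polynomial -/
lemma card_one {d H : ℕ} (P : (Fin (d + 1) → ℤ) → Prop) [DecidablePred P] :
    ((Bx 1 d H).filter (fun a => P (a 0))).card = ((QQ d H).filter P).card := by
  refine card_nbij' (fun a => a 0) (fun f => fun _ => f) ?_ ?_ ?_ ?_
  · intro a ha
    rw [mem_coe, mem_filter, mem_Bx] at ha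
    exact mem_coe.2 (mem_filter.2 ⟨ha.1 0, ha.2⟩)
  · intro f hf
    rw [mem_coe, mem_filter] at hf
    rw [mem_coe, mem_filter, mem_Bx]
    exact ⟨fun _ => hf.1, hf.2⟩
  · intro a _
    funext i
    rw [Fin.fin_one_eq_zero i]
  · intro f _
    rfl

/-- the polynomials with primes at the prescribed arguments -/
noncomputable def Gv (d H : ℕ) {s : ℕ} (t : Fin s → ℤ) : Finset (Fin (d + 1) → ℤ) :=
  (QQ d H).filter (fun f => ∀ i, (ev f (t i)).natAbs.Prime)

/-- the number of prime values -/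
def pi1 {d : ℕ} (f : Fin (d + 1) → ℤ) (x : ℕ) : ℕ :=
  ((Icc 1 x).filter (fun n : ℕ => (ev f (n : ℤ)).natAbs.Prime)).card

/-- the number of roots -/
def om1 {d : ℕ} (f : Fin (d + 1) → ℤ) (p : ℕ) : ℕ := ((range p).filter (fun n : ℕ => (p : ℤ) ∣ ev f (n : ℤ))).card

/-- the truncated constant -/
noncomputable def C1 {d : ℕ} (w : ℕ) (f : Fin (d + 1) → ℤ) : ℝ :=
  ∏ p ∈ (Icc 1 w).filter Nat.Prime, (1 - (om1 f p : ℝ) / p) * (1 - 1 / (p : ℝ))⁻¹

lemma om1_eq {d : ℕ} (a : Fin 1 → Fin (d + 1) → ℤ) (p : ℕ) :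
    om (fun _ : Fin 1 => (0 : Fin 1)) (fun _ => 0) a p = om1 (a 0) p := by
  unfold om om1
  congr 1
  apply filter_congr
  intro n _
  constructor
  · rintro ⟨j, hj⟩
    simpa using hj
  · intro h
    exact ⟨0, by simpa using h⟩

lemma C1_eq {d : ℕ} (a : Fin 1 → Fin (d + 1) → ℤ) (w : ℕ) :
    Cw w (fun _ : Fin 1 => (0 : Fin 1)) (fun _ => 0) a = C1 w (a 0) := by
  unfold Cw C1
  refine prod_congr rfl fun p _ => ?_
  rw [om1_eq, pow_one]

lemma pi1_eq {d : ℕ} (a : Fin 1 → Fin (d + 1) → ℤ) (x : ℕ) :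
    piF (fun _ : Fin 1 => (0 : Fin 1)) (fun _ => 0) a x = pi1 (a 0) x := by
  unfold piF pi1
  congr 1
  apply filter_congr
  intro n _
  constructor
  · intro h
    simpa using h 0
  · intro h j
    simpa using h

lemma om1_lt {d : ℕ} (f : Fin (d + 1) → ℤ) (p : ℕ) (hp : p.Prime) (t : ℤ) (h : ¬ (p : ℤ) ∣ ev f t) : om1 f p < p := by
  have hp0 : (0 : ℤ) < p := by exact_mod_cast hp.pos
  have h1 : (t % p).toNat ∈ range p := by
    rw [mem_range]
    have h2 := Int.emod_nonneg t hp0.ne'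
    have h3 := Int.emod_lt_of_pos t hp0
    omega
  have h4 : ¬ (p : ℤ) ∣ ev f (((t % p).toNat : ℕ) : ℤ) := by
    rw [Int.toNat_of_nonneg (Int.emod_nonneg t hp0.ne')]
    intro hc
    apply h
    rw [ev_mod f p t (t % p)]
    · exact hc
    · exact Int.dvd_self_sub_emod
  unfold om1
  calc ((range p).filter (fun n : ℕ => (p : ℤ) ∣ ev f (n : ℤ))).card < (range p).card := by
        apply card_lt_card
        rw [ssubset_iff_of_subset (filter_subset _ _)]
        exact ⟨_, h1, fun hc => h4 (mem_filter.1 hc).2⟩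
    _ = p := card_range p

lemma sys1 (d s : ℕ) (hs : s + 1 ≤ 2 * d) (t : Fin s → ℤ) (ht : Function.Injective t) :
    Sys d (fun _ : Fin s => (0 : Fin 1)) t (fun _ : Fin 1 => (0 : Fin 1)) (fun _ => 0) := by
  refine ⟨fun i i' hi _ h => hi (ht h), fun j j' hj => absurd (Subsingleton.elim j j') hj, fun l => ?_⟩
  have h1 : (univ.filter (fun _ : Fin s => (0 : Fin 1) = l)).card ≤ s := (card_filter_le _ _).trans (by simp)
  have h2 : (univ.filter (fun _ : Fin 1 => (0 : Fin 1) = l)).card ≤ 1 := (card_filter_le _ _).trans (by simp)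
  omega

theorem given_ge (d s : ℕ) (hs : s + 1 ≤ 2 * d) (t : Fin s → ℤ) (ht : Function.Injective t) : ∃ c : ℝ, 0 < c ∧
    ∃ H0 : ℕ, ∀ H : ℕ, H0 ≤ H → c * ((2 * H + 1 : ℝ) ^ (d + 1) / Real.log H ^ s) ≤ (Gv d H t).card := by
  obtain ⟨c, hc, h⟩ := Prs_ge 1 d s (by omega)
  obtain ⟨H0, h0⟩ := h (univ.sup (fun i => (t i).natAbs))
  refine ⟨c, hc, H0, fun H hH => ?_⟩
  have hsys := sys1 d s hs t ht
  have h1 := h0 H hH (fun _ => 0) t (by
    intro i
    have h1 : (t i).natAbs ≤ univ.sup (fun i => (t i).natAbs) := le_sup (f := fun i => (t i).natAbs) (mem_univ i)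
    have h2 : ((t i).natAbs : ℤ) = |t i| := Int.natCast_natAbs _
    omega) hsys.inj1 hsys.fib1
  rw [card_Bx] at h1
  have h2 : (Prs (d := d) H (fun _ : Fin s => (0 : Fin 1)) t).card = (Gv d H t).card :=
    card_one (fun f => ∀ i, (ev f (t i)).natAbs.Prime)
  rw [h2] at h1
  push_cast at h1
  rw [mul_one] at h1
  exact h1

theorem given_main (d s : ℕ) (hs1 : 1 ≤ s) (hs : s + 1 ≤ 2 * d) (t : Fin s → ℤ) (ht : Function.Injective t)
    (ε : ℝ) (hε : 0 < ε) (A : ℕ) (δ : ℝ) (hδ : 0 < δ) : ∃ w0 : ℕ, ∀ w : ℕ, w0 ≤ w → ∃ H0 : ℕ, ∀ H : ℕ, H0 ≤ H →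
    ∀ x : ℕ, Real.log H ^ (1 + ε) ≤ x → (x : ℝ) ≤ Real.log H ^ A →
    (((Gv d H t).filter (fun f => δ * (C1 w f * x / Real.log H) < |(pi1 f x : ℝ) - C1 w f * x / Real.log H|)).card : ℝ) ≤
      δ * (Gv d H t).card := by
  classical
  have hsys := sys1 d s hs t ht
  obtain ⟨w0, h0⟩ := main3 1 d 1 s (by omega) le_rfl (fun _ => 0) t (fun _ => 0) (fun _ => 0) hsys ε hε A (δ / 2) (by positivity)
  obtain ⟨c, hc, H1, h1⟩ := given_ge d s hs t ht
  refine ⟨w0, fun w hw => ?_⟩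
  obtain ⟨H2, h2⟩ := h0 w hw
  -- small values
  have hlim := (isLittleO_log_rpow_rpow_atTop (s : ℝ) (show (0 : ℝ) < 1 by norm_num)).bound
    (show (0 : ℝ) < δ / 2 * c / (2 * w + 1) by positivity)
  obtain ⟨H3, h3⟩ := Filter.eventually_atTop.1 (((tendsto_natCast_atTop_atTop (R := ℝ)).eventually hlim).and
    ((log_tend.eventually_ge_atTop 1).and (Filter.eventually_ge_atTop 3)))
  refine ⟨max (max H1 H2) H3, fun H hH x hx hxA => ?_⟩
  have b1 := le_trans (le_trans (le_max_left _ _) (le_max_left _ _)) hH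
  have b2 := le_trans (le_trans (le_max_right _ _) (le_max_left _ _)) hH
  obtain ⟨a1, a2, a3⟩ := h3 H (le_trans (le_max_right _ _) hH)
  have hH3 : (3 : ℝ) ≤ H := by exact_mod_cast a3
  set L := Real.log H with hL
  have hL0 : 0 < L := by linarith
  rw [Real.rpow_natCast, Real.rpow_one, Real.norm_of_nonneg (by positivity), Real.norm_of_nonneg (by positivity)] at a1
  have hg := h1 H b1
  have hm := h2 H b2 x (by simpa using hx) hxA
  set i0 : Fin s := ⟨0, hs1⟩ with hi0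
  have hsmall : (((QQ d H).filter (fun f => ev f (t i0) ∈ Icc (-(w : ℤ)) w)).card : ℝ) ≤ δ / 2 * (Gv d H t).card := by
    have g1 := few (m := 1) (d := d) H 0 (t i0) (Icc (-(w : ℤ)) w)
    have g2 := card_one (d := d) (H := H) (fun f => ev f (t i0) ∈ Icc (-(w : ℤ)) w)
    rw [g2, card_Bx, Int.card_Icc] at g1
    refine g1.trans ?_
    have g3 : ((((w : ℤ) + 1 - -(w : ℤ)).toNat : ℕ) : ℝ) = 2 * w + 1 := by
      have h6 : ((w : ℤ) + 1 - -(w : ℤ)).toNat = 2 * w + 1 := by omega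
      rw [h6]; push_cast; ring
    rw [g3]
    have g4 := mul_le_mul_of_nonneg_left hg (by positivity : 0 ≤ δ / 2)
    refine le_trans ?_ g4
    push_cast
    rw [mul_one]
    have g5 : (2 * (w : ℝ) + 1) / (2 * H + 1) ≤ δ / 2 * c / L ^ s := by
      rw [div_le_div_iff₀ (by positivity) (by positivity)]
      have h7 : 0 < 2 * (w : ℝ) + 1 := by positivity
      have h8 := mul_le_mul_of_nonneg_left a1 h7.le
      have h9 : (2 * (w : ℝ) + 1) * (δ / 2 * c / (2 * w + 1) * H) = δ / 2 * c * H := by field_simp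
      rw [h9] at h8
      have h10 : δ / 2 * c * (H : ℝ) ≤ δ / 2 * c * (2 * H + 1) := mul_le_mul_of_nonneg_left (by linarith) (by positivity)
      linarith
    have h11 : (0 : ℝ) ≤ (2 * H + 1) ^ (d + 1) := by positivity
    calc (2 * (H : ℝ) + 1) ^ (d + 1) * ((2 * (w : ℝ) + 1) / (2 * H + 1)) ≤ (2 * (H : ℝ) + 1) ^ (d + 1) * (δ / 2 * c / L ^ s) :=
          mul_le_mul_of_nonneg_left g5 h11
      _ = _ := by ring
  -- the main part
  have hmain : (((Gv d H t).filter (fun f => (∀ p ≤ w, p.Prime → om1 f p < p) ∧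
      δ / 2 * (C1 w f * x / L) < |(pi1 f x : ℝ) - C1 w f * x / L|)).card : ℝ) ≤ δ / 2 * (Gv d H t).card := by
    have g1 : (Prs (d := d) H (fun _ : Fin s => (0 : Fin 1)) t).card = (Gv d H t).card :=
      card_one (fun f => ∀ i, (ev f (t i)).natAbs.Prime)
    rw [g1] at hm
    have g2 : (Prs (d := d) H (fun _ : Fin s => (0 : Fin 1)) t).filter (fun a =>
        (∀ p ≤ w, p.Prime → om (fun _ : Fin 1 => (0 : Fin 1)) (fun _ => 0) a p < p) ∧
        δ / 2 * (Cw w (fun _ : Fin 1 => (0 : Fin 1)) (fun _ => 0) a * x / L ^ 1) <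
        |(piF (fun _ : Fin 1 => (0 : Fin 1)) (fun _ => 0) a x : ℝ) -
          Cw w (fun _ : Fin 1 => (0 : Fin 1)) (fun _ => 0) a * x / L ^ 1|) =
        (Bx 1 d H).filter (fun a => (∀ i, (ev (a 0) (t i)).natAbs.Prime) ∧ (∀ p ≤ w, p.Prime → om1 (a 0) p < p) ∧
          δ / 2 * (C1 w (a 0) * x / L) < |(pi1 (a 0) x : ℝ) - C1 w (a 0) * x / L|) := by
      unfold Prs
      rw [filter_filter]
      simp only [om1_eq, C1_eq, pi1_eq, pow_one]
    rw [g2, card_one (fun f => (∀ i, (ev f (t i)).natAbs.Prime) ∧ (∀ p ≤ w, p.Prime → om1 f p < p) ∧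
          δ / 2 * (C1 w f * x / L) < |(pi1 f x : ℝ) - C1 w f * x / L|)] at hm
    refine le_trans (le_of_eq ?_) hm
    unfold Gv
    rw [filter_filter]
  have hsub : (Gv d H t).filter (fun f => δ * (C1 w f * x / L) < |(pi1 f x : ℝ) - C1 w f * x / L|) ⊆
      (QQ d H).filter (fun f => ev f (t i0) ∈ Icc (-(w : ℤ)) w) ∪
      (Gv d H t).filter (fun f => (∀ p ≤ w, p.Prime → om1 f p < p) ∧
        δ / 2 * (C1 w f * x / L) < |(pi1 f x : ℝ) - C1 w f * x / L|) := by
    intro f hf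
    rw [mem_filter] at hf
    obtain ⟨hfG, hgt⟩ := hf
    have hfG' := hfG
    unfold Gv at hfG'
    rw [mem_filter] at hfG'
    rw [mem_union]
    by_cases hsm : ev f (t i0) ∈ Icc (-(w : ℤ)) w
    · exact Or.inl (mem_filter.2 ⟨hfG'.1, hsm⟩)
    · refine Or.inr (mem_filter.2 ⟨hfG, fun p hpw hp => ?_, ?_⟩)
      · apply om1_lt f p hp (t i0)
        intro hd
        have h5 := hfG'.2 i0
        have h6 : p ∣ (ev f (t i0)).natAbs := Int.natCast_dvd.1 hd
        rcases (Nat.dvd_prime h5).1 h6 with h7 | h7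
        · exact hp.one_lt.ne' h7
        · apply hsm
          rw [mem_Icc, ← abs_le]
          have h8 : ((ev f (t i0)).natAbs : ℤ) = |ev f (t i0)| := Int.natCast_natAbs _
          omega
      · refine lt_of_le_of_lt ?_ hgt
        apply mul_le_mul_of_nonneg_right (by linarith)
        have h5 : 0 ≤ C1 w f := by
          have := (Cw_bd w (fun _ : Fin 1 => (0 : Fin 1)) (fun _ => 0) (fun _ => f)).1
          rwa [C1_eq] at this
        positivity
  have hfin : (((Gv d H t).filter (fun f => δ * (C1 w f * x / L) < |(pi1 f x : ℝ) - C1 w f * x / L|)).card : ℝ) ≤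
      ((QQ d H).filter (fun f => ev f (t i0) ∈ Icc (-(w : ℤ)) w)).card +
      ((Gv d H t).filter (fun f => (∀ p ≤ w, p.Prime → om1 f p < p) ∧
        δ / 2 * (C1 w f * x / L) < |(pi1 f x : ℝ) - C1 w f * x / L|)).card := by
    exact_mod_cast (card_le_card hsub).trans (card_union_le _ _)
  linarith

end Pool.Agent.TP975.RP
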