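import Mathlib
import Pool.Agent.TP975.RP.Fin2

/-!
Averages of the truncated constants over the shifts.
-/

set_option autoImplicit false

namespace Pool.Agent.TP975.RP

open Finset
open Pool.Agent.H373R2.T7

variable {m d k : ℕ}

/-- all tuples of shifts -/
noncomputable def Al (k U : ℕ) : Finset (Fin k → ℕ) := Fintype.piFinset fun _ => Icc 1 U

/-- the tuples of shifts which are distinct for the same polynomial -/
noncomputable def Tu (io : Fin k → Fin m) (U : ℕ) : Finset (Fin k → ℕ) :=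
  (Al k U).filter (fun u => ∀ j j', j ≠ j' → io j = io j' → u j ≠ u j')

lemma card_Al (k U : ℕ) : (Al k U).card = U ^ k := by
  unfold Al
  rw [Fintype.card_piFinset_const, Nat.card_Icc, Nat.add_sub_cancel]

lemma mem_Al {U : ℕ} {u : Fin k → ℕ} : u ∈ Al k U ↔ ∀ j, 1 ≤ u j ∧ u j ≤ U := by
  unfold Al
  rw [Fintype.mem_piFinset]
  simp only [mem_Icc]

/-- fixing two coordinates -/
lemma fix_two (U : ℕ) (j j' : Fin k) (hjj : j ≠ j') (n n' : ℕ) :
    ((Al k U).filter (fun u => u j = n ∧ u j' = n')).card * U ^ 2 ≤ U ^ k := by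
  have h1 : ((Icc 1 U) ×ˢ (Icc 1 U)).card = U ^ 2 := by
    rw [card_product, Nat.card_Icc, Nat.add_sub_cancel, sq]
  rw [← h1, ← card_Al k U, ← card_product]
  apply card_le_card_of_injOn (fun p => Function.update (Function.update p.1 j p.2.1) j' p.2.2)
  · intro p hp
    rw [mem_coe, mem_product, mem_filter, mem_product, mem_Al, mem_Icc, mem_Icc] at hp
    rw [mem_coe, mem_Al]
    intro l
    simp only
    by_cases h2 : l = j'
    · subst h2
      rw [Function.update_self]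
      exact hp.2.2
    · rw [Function.update_of_ne h2]
      by_cases h3 : l = j
      · subst h3
        rw [Function.update_self]
        exact hp.2.1
      · rw [Function.update_of_ne h3]
        exact hp.1.1 l
  · intro p hp q hq heq
    rw [mem_coe, mem_product, mem_filter] at hp hq
    simp only at heq
    have e1 : p.2.2 = q.2.2 := by
      have := congrFun heq j'
      rwa [Function.update_self, Function.update_self] at this
    have e2 : p.2.1 = q.2.1 := by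
      have := congrFun heq j
      rwa [Function.update_of_ne hjj, Function.update_of_ne hjj, Function.update_self, Function.update_self] at this
    have e3 : p.1 = q.1 := by
      funext l
      by_cases h2 : l = j'
      · subst h2; rw [hp.1.2.2, hq.1.2.2]
      · by_cases h3 : l = j
        · subst h3; rw [hp.1.2.1, hq.1.2.1]
        · have := congrFun heq l
          rwa [Function.update_of_ne h2, Function.update_of_ne h2, Function.update_of_ne h3, Function.update_of_ne h3] at this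
    exact Prod.ext e3 (Prod.ext e2 e1)

/-- sum over tuples of a function of two coordinates -/
lemma sum_two (U : ℕ) (hU : 1 ≤ U) (j j' : Fin k) (hjj : j ≠ j') (φ : ℕ → ℕ → ℝ) (hφ : ∀ n n', 0 ≤ φ n n') :
    ∑ u ∈ Al k U, φ (u j) (u j') ≤ (U : ℝ) ^ k / (U : ℝ) ^ 2 * ∑ n ∈ Icc 1 U, ∑ n' ∈ Icc 1 U, φ n n' := by
  have hU0 : (0 : ℝ) < U := by exact_mod_cast hU
  have h1 : ∑ u ∈ Al k U, φ (u j) (u j') = ∑ q ∈ Icc 1 U ×ˢ Icc 1 U, ∑ u ∈ (Al k U).filter (fun u => (u j, u j') = q), φ (u j) (u j') := by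
    rw [sum_fiberwise_of_maps_to]
    intro u hu
    rw [mem_Al] at hu
    rw [mem_product, mem_Icc, mem_Icc]
    exact ⟨hu j, hu j'⟩
  rw [h1, ← sum_product', mul_sum]
  refine sum_le_sum fun q _ => ?_
  have h2 : ∑ u ∈ (Al k U).filter (fun u => (u j, u j') = q), φ (u j) (u j') =
      (((Al k U).filter (fun u => u j = q.1 ∧ u j' = q.2)).card : ℝ) * φ q.1 q.2 := by
    have e1 : (Al k U).filter (fun u => (u j, u j') = q) = (Al k U).filter (fun u => u j = q.1 ∧ u j' = q.2) := by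
      apply filter_congr
      intro u _
      rw [Prod.ext_iff]
    rw [e1, ← nsmul_eq_mul, ← sum_const]
    refine sum_congr rfl fun u hu => ?_
    rw [mem_filter] at hu
    rw [hu.2.1, hu.2.2]
  rw [h2]
  apply mul_le_mul_of_nonneg_right _ (hφ _ _)
  rw [le_div_iff₀ (by positivity)]
  exact_mod_cast fix_two U j j' hjj q.1 q.2

/-- the number of tuples which are not distinct -/
lemma card_compl_Tu (U : ℕ) (hU : 1 ≤ U) (io : Fin k → Fin m) :
    (((Al k U).filter (fun u => ¬ ∀ j j', j ≠ j' → io j = io j' → u j ≠ u j')).card : ℝ) ≤ (k : ℝ) ^ 2 * ((U : ℝ) ^ k / U) := by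
  classical
  have hU0 : (0 : ℝ) < U := by exact_mod_cast hU
  have h1 : (((Al k U).filter (fun u => ¬ ∀ j j', j ≠ j' → io j = io j' → u j ≠ u j')).card : ℝ) ≤
      ∑ j : Fin k, ∑ j' : Fin k, (if j ≠ j' then ∑ u ∈ Al k U, (if u j = u j' then (1 : ℝ) else 0) else 0) := by
    have h2 : (Al k U).filter (fun u => ¬ ∀ j j', j ≠ j' → io j = io j' → u j ≠ u j') ⊆
        (univ : Finset (Fin k)).biUnion (fun j => (univ : Finset (Fin k)).biUnion (fun j' =>
          if j ≠ j' then (Al k U).filter (fun u => u j = u j') else ∅)) := by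
      intro u hu
      rw [mem_filter] at hu
      obtain ⟨hu1, hu2⟩ := hu
      push Not at hu2
      obtain ⟨j, j', h3, _, h4⟩ := hu2
      rw [mem_biUnion]
      refine ⟨j, mem_univ _, ?_⟩
      rw [mem_biUnion]
      refine ⟨j', mem_univ _, ?_⟩
      rw [if_pos h3]
      exact mem_filter.2 ⟨hu1, h4⟩
    have h3 := (card_le_card h2).trans (card_biUnion_le.trans (sum_le_sum fun j _ => card_biUnion_le))
    have h4 : ((∑ j : Fin k, ∑ j' : Fin k, (if j ≠ j' then (Al k U).filter (fun u => u j = u j') else ∅).card : ℕ) : ℝ) =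
        ∑ j : Fin k, ∑ j' : Fin k, (if j ≠ j' then ∑ u ∈ Al k U, (if u j = u j' then (1 : ℝ) else 0) else 0) := by
      push_cast
      refine sum_congr rfl fun j _ => sum_congr rfl fun j' _ => ?_
      split_ifs with h5
      · rw [sum_boole]
      · simp
    rw [← h4]
    exact_mod_cast h3
  refine h1.trans ?_
  have h2 : ∀ j j' : Fin k, (if j ≠ j' then ∑ u ∈ Al k U, (if u j = u j' then (1 : ℝ) else 0) else 0) ≤ (U : ℝ) ^ k / U := by
    intro j j'
    split_ifs with h3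
    · refine (sum_two U hU j j' h3 (fun n n' => if n = n' then 1 else 0) (fun n n' => by split_ifs <;> norm_num)).trans ?_
      have h4 : ∑ n ∈ Icc 1 U, ∑ n' ∈ Icc 1 U, (if n = n' then (1 : ℝ) else 0) = U := by
        have h5 : ∀ n ∈ Icc 1 U, ∑ n' ∈ Icc 1 U, (if n = n' then (1 : ℝ) else 0) = 1 := by
          intro n hn
          rw [sum_ite_eq, if_pos hn]
        rw [sum_congr rfl h5]
        simp
      rw [h4]
      apply le_of_eq
      field_simp
    · positivity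
  refine (sum_le_sum fun j _ => sum_le_sum fun j' _ => h2 j j').trans (le_of_eq ?_)
  simp
  ring

/-- the constant of one polynomial -/
noncomputable def C1w (w : ℕ) (a : Fin m → Fin (d + 1) → ℤ) (i : Fin m) : ℝ := Cw w (fun _ : Fin 1 => i) (fun _ => 0) a

lemma C1w_bd (w : ℕ) (a : Fin m → Fin (d + 1) → ℤ) (i : Fin m) : 0 ≤ C1w w a i ∧ C1w w a i ≤ (Vz w)⁻¹ := by
  have := Cw_bd w (fun _ : Fin 1 => i) (fun _ => 0) a
  rw [pow_one] at this
  exact this

lemma win_lam (w n U : ℕ) (a : Fin m → Fin (d + 1) → ℤ) (i : Fin m) :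
    |∑ u ∈ Icc 1 U, lamz w (ev (a i) ((n : ℤ) + u)).natAbs - C1w w a i * U| ≤ 2 * ((Vz w)⁻¹ * 4 ^ w) := by
  have h1 := stepD w (n + U) (fun _ : Fin 1 => i) (fun _ => 0) a
  have h2 := stepD w n (fun _ : Fin 1 => i) (fun _ => 0) a
  have e1 : ∀ t : ℕ, PM w (fun _ : Fin 1 => i) (fun _ => 0) a t = lamz w (ev (a i) (t : ℤ)).natAbs := by
    intro t
    unfold PM
    simp
  simp only [e1, pow_one] at h1 h2
  have e2 : ∑ t ∈ Icc 1 (n + U), lamz w (ev (a i) (t : ℤ)).natAbs = ∑ t ∈ Icc 1 n, lamz w (ev (a i) (t : ℤ)).natAbs +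
      ∑ u ∈ Icc 1 U, lamz w (ev (a i) ((n : ℤ) + u)).natAbs := by
    have h3 : ∀ (g : ℕ → ℝ) (x : ℕ), ∑ t ∈ Icc 1 x, g t = ∑ t ∈ range x, g (t + 1) := by
      intro g x
      rw [range_eq_Ico, sum_Ico_add' g 0 x 1]
      rfl
    rw [h3, h3, h3, sum_range_add]
    congr 1
  rw [e2] at h1
  push_cast at h1
  have hC : Cw w (fun _ : Fin 1 => i) (fun _ => 0) a = C1w w a i := rfl
  rw [hC] at h1 h2
  rw [abs_le] at h1 h2 ⊢
  constructor <;> linarith [h1.1, h1.2, h2.1, h2.2]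

/-- the average of the constants over all the tuples -/
lemma avg_C (w U : ℕ) (hU : 1 ≤ U) (io : Fin k → Fin m) (a : Fin m → Fin (d + 1) → ℤ) :
    |∑ u ∈ Al k U, Cw w io u a - (U : ℝ) ^ k * ∏ j, C1w w a (io j)| ≤
      (U : ℝ) ^ k / U * ((2 * k + 1) * (((Vz w)⁻¹) ^ (k + 1) * 4 ^ w)) := by
  have hU0 : (0 : ℝ) < U := by exact_mod_cast hU
  set V := (Vz w)⁻¹ with hV
  have hV1 : 1 ≤ V := one_le_Vinv w
  -- product structure
  have h1 : ∀ n : ℕ, ∑ u ∈ Al k U, PM w io u a n = ∏ j, ∑ u ∈ Icc 1 U, lamz w (ev (a (io j)) ((n : ℤ) + u)).natAbs := by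
    intro n
    unfold PM Al
    rw [prod_univ_sum]
  have h2 : ∀ n : ℕ, |∑ u ∈ Al k U, PM w io u a n - (U : ℝ) ^ k * ∏ j, C1w w a (io j)| ≤
      (U : ℝ) ^ k * (k * V ^ k * (2 * (V * 4 ^ w) / U)) := by
    intro n
    rw [h1]
    have h3 := prod_diff (univ : Finset (Fin k)) (fun j => (∑ u ∈ Icc 1 U, lamz w (ev (a (io j)) ((n : ℤ) + u)).natAbs) / U)
      (fun j => C1w w a (io j)) V (2 * (V * 4 ^ w) / U) hV1 (by positivity) (by
        intro j _
        rw [abs_of_nonneg (div_nonneg (sum_nonneg fun _ _ => lamz_nonneg _ _) hU0.le), div_le_iff₀ hU0]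
        calc ∑ u ∈ Icc 1 U, lamz w (ev (a (io j)) ((n : ℤ) + u)).natAbs ≤ ∑ u ∈ Icc 1 U, V := sum_le_sum fun _ _ => lamz_le _ _
          _ = V * U := by rw [sum_const, Nat.card_Icc, Nat.add_sub_cancel, nsmul_eq_mul]; ring) (by
        intro j _
        rw [abs_of_nonneg (C1w_bd w a (io j)).1]
        exact (C1w_bd w a (io j)).2) (by
        intro j _
        have h4 := win_lam w n U a (io j)
        have e : (∑ u ∈ Icc 1 U, lamz w (ev (a (io j)) ((n : ℤ) + u)).natAbs) / U - C1w w a (io j) =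
            (∑ u ∈ Icc 1 U, lamz w (ev (a (io j)) ((n : ℤ) + u)).natAbs - C1w w a (io j) * U) / U := by
          field_simp
        rw [e, abs_div, abs_of_pos hU0]
        exact div_le_div_of_nonneg_right h4 hU0.le)
    rw [card_univ, Fintype.card_fin] at h3
    have e2 : ∏ j, ∑ u ∈ Icc 1 U, lamz w (ev (a (io j)) ((n : ℤ) + u)).natAbs =
        (U : ℝ) ^ k * ∏ j, ((∑ u ∈ Icc 1 U, lamz w (ev (a (io j)) ((n : ℤ) + u)).natAbs) / U) := by
      have : (U : ℝ) ^ k = ∏ j : Fin k, (U : ℝ) := by simp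
      rw [this, ← prod_mul_distrib]
      refine prod_congr rfl fun j _ => ?_
      field_simp
    rw [e2, ← mul_sub, abs_mul, abs_of_nonneg (by positivity : (0 : ℝ) ≤ (U : ℝ) ^ k)]
    exact mul_le_mul_of_nonneg_left h3 (by positivity)
  have h3 : |∑ u ∈ Al k U, (Cw w io u a * U) - ∑ n ∈ Icc 1 U, ∑ u ∈ Al k U, PM w io u a n| ≤ (U : ℝ) ^ k * (V ^ k * 4 ^ w) := by
    rw [sum_comm, ← sum_sub_distrib]
    refine (abs_sum_le_sum_abs _ _).trans ?_
    calc ∑ u ∈ Al k U, |Cw w io u a * U - ∑ n ∈ Icc 1 U, PM w io u a n| ≤ ∑ u ∈ Al k U, V ^ k * 4 ^ w := by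
          refine sum_le_sum fun u _ => ?_
          rw [abs_sub_comm]
          exact stepD w U io u a
      _ = _ := by rw [sum_const, card_Al, nsmul_eq_mul]; push_cast; ring
  have h4 : |∑ n ∈ Icc 1 U, ∑ u ∈ Al k U, PM w io u a n - U * ((U : ℝ) ^ k * ∏ j, C1w w a (io j))| ≤
      U * ((U : ℝ) ^ k * (k * V ^ k * (2 * (V * 4 ^ w) / U))) := by
    have e : (U : ℝ) * ((U : ℝ) ^ k * ∏ j, C1w w a (io j)) = ∑ n ∈ Icc 1 U, ((U : ℝ) ^ k * ∏ j, C1w w a (io j)) := by
      rw [sum_const, Nat.card_Icc, Nat.add_sub_cancel, nsmul_eq_mul]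
    rw [e, ← sum_sub_distrib]
    refine (abs_sum_le_sum_abs _ _).trans ?_
    refine (sum_le_sum fun n _ => h2 n).trans (le_of_eq ?_)
    rw [sum_const, Nat.card_Icc, Nat.add_sub_cancel, nsmul_eq_mul]
  have h5 : |(U : ℝ) * (∑ u ∈ Al k U, Cw w io u a - (U : ℝ) ^ k * ∏ j, C1w w a (io j))| ≤
      (U : ℝ) ^ k * (V ^ k * 4 ^ w) + U * ((U : ℝ) ^ k * (k * V ^ k * (2 * (V * 4 ^ w) / U))) := by
    have e : (U : ℝ) * (∑ u ∈ Al k U, Cw w io u a - (U : ℝ) ^ k * ∏ j, C1w w a (io j)) =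
      (∑ u ∈ Al k U, (Cw w io u a * U) - ∑ n ∈ Icc 1 U, ∑ u ∈ Al k U, PM w io u a n) +
      (∑ n ∈ Icc 1 U, ∑ u ∈ Al k U, PM w io u a n - U * ((U : ℝ) ^ k * ∏ j, C1w w a (io j))) := by
      rw [← sum_mul]; ring
    rw [e]
    exact (abs_add_le _ _).trans (add_le_add h3 h4)
  rw [abs_mul, abs_of_pos hU0] at h5
  have h6 : (U : ℝ) * |∑ u ∈ Al k U, Cw w io u a - (U : ℝ) ^ k * ∏ j, C1w w a (io j)| ≤
      U * ((U : ℝ) ^ k / U * ((2 * k + 1) * (V ^ (k + 1) * 4 ^ w))) := by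
    refine h5.trans ?_
    have e1 : (U : ℝ) * ((U : ℝ) ^ k * (k * V ^ k * (2 * (V * 4 ^ w) / U))) = (U : ℝ) ^ k * (2 * k * (V ^ (k + 1) * 4 ^ w)) := by
      rw [pow_succ V k]
      field_simp
    have e2 : (U : ℝ) * ((U : ℝ) ^ k / U * ((2 * k + 1) * (V ^ (k + 1) * 4 ^ w))) = (U : ℝ) ^ k * ((2 * k + 1) * (V ^ (k + 1) * 4 ^ w)) := by
      field_simp
    rw [e1, e2]
    have h7 : V ^ k ≤ V ^ (k + 1) := pow_le_pow_right₀ hV1 (by omega)
    have h8 : (U : ℝ) ^ k * (V ^ k * 4 ^ w) ≤ (U : ℝ) ^ k * (V ^ (k + 1) * 4 ^ w) := by gcongr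
    linarith
  exact le_of_mul_le_mul_left h6 hU0

/-- the average of the constants over the distinct tuples -/
lemma avg_T (w U : ℕ) (hU : 1 ≤ U) (io : Fin k → Fin m) (a : Fin m → Fin (d + 1) → ℤ) :
    |∑ u ∈ Tu io U, Cw w io u a - (U : ℝ) ^ k * ∏ j, C1w w a (io j)| ≤
      (U : ℝ) ^ k / U * ((k ^ 2 + 2 * k + 1) * (((Vz w)⁻¹) ^ (k + 1) * 4 ^ w)) := by
  have hU0 : (0 : ℝ) < U := by exact_mod_cast hU
  have hV1 : 1 ≤ (Vz w)⁻¹ := one_le_Vinv w
  have h1 := avg_C w U hU io a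
  have h2 : ∑ u ∈ Al k U, Cw w io u a = ∑ u ∈ Tu io U, Cw w io u a +
      ∑ u ∈ (Al k U).filter (fun u => ¬ ∀ j j', j ≠ j' → io j = io j' → u j ≠ u j'), Cw w io u a := by
    unfold Tu
    rw [sum_filter_add_sum_filter_not]
  have h3 : 0 ≤ ∑ u ∈ (Al k U).filter (fun u => ¬ ∀ j j', j ≠ j' → io j = io j' → u j ≠ u j'), Cw w io u a :=
    sum_nonneg fun u _ => (Cw_bd w io u a).1
  have h4 : ∑ u ∈ (Al k U).filter (fun u => ¬ ∀ j j', j ≠ j' → io j = io j' → u j ≠ u j'), Cw w io u a ≤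
      (U : ℝ) ^ k / U * (k ^ 2 * (((Vz w)⁻¹) ^ (k + 1) * 4 ^ w)) := by
    calc _ ≤ ∑ u ∈ (Al k U).filter (fun u => ¬ ∀ j j', j ≠ j' → io j = io j' → u j ≠ u j'), ((Vz w)⁻¹) ^ k :=
          sum_le_sum fun u _ => (Cw_bd w io u a).2
      _ ≤ ((k : ℝ) ^ 2 * ((U : ℝ) ^ k / U)) * ((Vz w)⁻¹) ^ k := by
          rw [sum_const, nsmul_eq_mul]
          exact mul_le_mul_of_nonneg_right (card_compl_Tu U hU io) (by positivity)
      _ ≤ ((k : ℝ) ^ 2 * ((U : ℝ) ^ k / U)) * (((Vz w)⁻¹) ^ (k + 1) * 4 ^ w) := by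
          apply mul_le_mul_of_nonneg_left _ (by positivity)
          have h5 : ((Vz w)⁻¹) ^ k ≤ ((Vz w)⁻¹) ^ (k + 1) := pow_le_pow_right₀ hV1 (by omega)
          have h6 : (1 : ℝ) ≤ 4 ^ w := one_le_pow₀ (by norm_num)
          have h7 : 0 ≤ ((Vz w)⁻¹) ^ (k + 1) := by positivity
          nlinarith
      _ = _ := by ring
  rw [h2] at h1
  rw [abs_le] at h1 ⊢
  constructor <;> nlinarith [h1.1, h1.2]

end Pool.Agent.TP975.RP
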