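import Mathlib
import Pool.Agent.TP975.RP.Po1

/-!
The second moment bound summed over the tuples of shifts.
-/

set_option autoImplicit false

namespace Pool.Agent.TP975.RP

open Finset
open Pool.Agent.H373R2.T7

variable {m d k : ℕ}

lemma Fx_sum (K : ℝ) (hK : 0 ≤ K) (w z U : ℕ) (hw : 1 ≤ w) (hKw : K ≤ w) (hU : 1 ≤ U) (io : Fin k → Fin m) :
    ∑ u ∈ Tu io U, Fx K w z io u ≤ (k : ℝ) ^ 2 * ((U : ℝ) ^ k * (8 * (K / w))) := by
  classical
  have hU0 : (0 : ℝ) < U := by exact_mod_cast hU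
  unfold Fx
  rw [sum_comm]
  have h1 : ∀ q ∈ Qp io, ∑ u ∈ Tu io U, (Yf K w z ((u q.1 : ℤ) - u q.2) - 1) ≤ (U : ℝ) ^ k * (8 * (K / w)) := by
    intro q hq
    unfold Qp at hq
    rw [mem_filter] at hq
    set g : ℕ → ℕ → ℝ := fun n n' => if (n : ℤ) - n' + 0 = 0 then 0 else Yf K w z ((n : ℤ) - n' + 0) - 1 with hg
    have hg0 : ∀ n n', 0 ≤ g n n' := by
      intro n n'
      rw [hg]
      simp only
      split_ifs
      · exact le_rfl
      · have := Yf_one_le K hK w z ((n : ℤ) - n' + 0)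
        linarith
    calc ∑ u ∈ Tu io U, (Yf K w z ((u q.1 : ℤ) - u q.2) - 1) = ∑ u ∈ Tu io U, g (u q.1) (u q.2) := by
          refine sum_congr rfl fun u hu => ?_
          unfold Tu at hu
          rw [mem_filter] at hu
          have h2 := hu.2 q.1 q.2 hq.2.1 hq.2.2
          rw [hg]
          simp only
          rw [if_neg (by omega), add_zero]
      _ ≤ ∑ u ∈ Al k U, g (u q.1) (u q.2) := by
          apply sum_le_sum_of_subset_of_nonneg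
          · unfold Tu; exact filter_subset _ _
          · intro u _ _; exact hg0 _ _
      _ ≤ (U : ℝ) ^ k / (U : ℝ) ^ 2 * ∑ n ∈ Icc 1 U, ∑ n' ∈ Icc 1 U, g n n' := sum_two U hU q.1 q.2 hq.2.1 g hg0
      _ ≤ (U : ℝ) ^ k / (U : ℝ) ^ 2 * ((U : ℝ) ^ 2 * (8 * (K / w))) := by
          apply mul_le_mul_of_nonneg_left _ (by positivity)
          exact sum_pairs_Yf K hK w z U hw hKw 0 (by simp)
      _ = _ := by field_simp
  refine (sum_le_sum h1).trans ?_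
  rw [sum_const, nsmul_eq_mul]
  apply mul_le_mul_of_nonneg_right _ (by positivity)
  have h2 : (Qp io).card ≤ k ^ 2 := by
    refine (card_filter_le _ _).trans ?_
    rw [card_univ, Fintype.card_prod, Fintype.card_fin, sq]
  exact_mod_cast h2

theorem core2 (m d k A : ℕ) (hd : 1 ≤ d) (hk : 1 ≤ k) (ε : ℝ) (hε : 0 < ε) : ∃ C : ℝ, 1 ≤ C ∧ ∃ H0 : ℕ, ∀ H : ℕ, H0 ≤ H →
    ∀ w : ℕ, C ≤ w → (16 : ℝ) ^ w ≤ Real.log H → ∀ x : ℕ, Real.log H ^ ((k : ℝ) + ε) ≤ x →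
    (x : ℝ) ≤ Real.log H ^ A → ∀ U : ℕ, 1 ≤ U → U ≤ x →
    ∀ (io : Fin k → Fin m), (∀ i, (univ.filter (fun j => io j = i)).card ≤ d) →
    ∑ a ∈ Bx m d H, (∑ u ∈ Tu io U, ∑ n ∈ Icc 1 x, PL io u a n - (∑ u ∈ Tu io U, Cw w io u a) * x) ^ 2 ≤
      (Bx m d H).card * ((x : ℝ) ^ 2 * ((U : ℝ) ^ (2 * k) * (((Vz w)⁻¹) ^ (2 * k) * (C * (1 / w))))) := by
  obtain ⟨C, hC, H0, h0⟩ := core m d k A hd ε hε
  set K := Kc m k with hK
  have hK0 : 0 ≤ K := Kc_nonneg m k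
  set C2 : ℝ := C * (1 + 8 * (k : ℝ) ^ 2 * K) with hC2
  obtain ⟨H1, h1⟩ := Filter.eventually_atTop.1 (log_tend.eventually_ge_atTop 1)
  refine ⟨max (max C C2) K, le_max_of_le_left (le_max_of_le_left hC), max H0 H1,
    fun H hH w hCw hw16 x hx hxA U hU hUx io hfib => ?_⟩
  have b0 := le_trans (le_max_left _ _) hH
  have b1 := le_trans (le_max_right _ _) hH
  have hL1 := h1 H b1
  set L := Real.log H with hL
  have hL0 : 0 < L := by linarith
  have hCw1 : C ≤ w := ((le_max_left _ _).trans (le_max_left _ _)).trans hCw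
  have hKw : K ≤ w := (le_max_right _ _).trans hCw
  have hw1r : (1 : ℝ) ≤ w := hC.trans hCw1
  have hw1 : 1 ≤ w := by exact_mod_cast hw1r
  have hw0 : (0 : ℝ) < w := by linarith
  have hU0 : (0 : ℝ) < U := by exact_mod_cast hU
  have hLx : L ≤ x := by
    refine le_trans ?_ hx
    calc L = L ^ (1 : ℝ) := (Real.rpow_one L).symm
      _ ≤ L ^ ((k : ℝ) + ε) := by
        apply Real.rpow_le_rpow_of_exponent_le hL1
        have : (1 : ℝ) ≤ k := by exact_mod_cast hk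
        linarith
  set V := ((Vz w)⁻¹) ^ (2 * k) with hV
  have hV1 : 1 ≤ V := one_le_pow₀ (one_le_Vinv w)
  set Bc : ℝ := ((Bx m d H).card : ℝ) with hBc
  have hBc0 : 0 ≤ Bc := Nat.cast_nonneg _
  have hT : ((Tu io U).card : ℝ) ≤ (U : ℝ) ^ k := by
    have : (Tu io U).card ≤ U ^ k := by
      rw [← card_Al k U]
      unfold Tu
      exact card_filter_le _ _
    exact_mod_cast this
  -- Cauchy-Schwarz
  have hcs : ∀ a ∈ Bx m d H, (∑ u ∈ Tu io U, ∑ n ∈ Icc 1 x, PL io u a n - (∑ u ∈ Tu io U, Cw w io u a) * x) ^ 2 ≤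
      (U : ℝ) ^ k * ∑ u ∈ Tu io U, (∑ n ∈ Icc 1 x, PL io u a n - Cw w io u a * x) ^ 2 := by
    intro a _
    have e1 : ∑ u ∈ Tu io U, ∑ n ∈ Icc 1 x, PL io u a n - (∑ u ∈ Tu io U, Cw w io u a) * x =
        ∑ u ∈ Tu io U, (∑ n ∈ Icc 1 x, PL io u a n - Cw w io u a * x) := by
      rw [sum_sub_distrib, sum_mul]
    rw [e1]
    refine (sq_sum_le_card_mul_sum_sq).trans ?_
    exact mul_le_mul_of_nonneg_right hT (sum_nonneg fun _ _ => sq_nonneg _)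
  refine (sum_le_sum hcs).trans ?_
  rw [← mul_sum, sum_comm]
  have hone : ∀ u ∈ Tu io U, ∑ a ∈ Bx m d H, (∑ n ∈ Icc 1 x, PL io u a n - Cw w io u a * x) ^ 2 ≤
      Bc * ((x : ℝ) ^ 2 * (V * (C * (1 / w + Fx K w x io u)))) := by
    intro u hu
    unfold Tu at hu
    rw [mem_filter, mem_Al] at hu
    exact h0 H b0 w hCw1 hw16 x hLx hx hxA io u (fun j => (hu.1 j).2.trans hUx) hu.2 hfib
  have hsum : ∑ u ∈ Tu io U, ∑ a ∈ Bx m d H, (∑ n ∈ Icc 1 x, PL io u a n - Cw w io u a * x) ^ 2 ≤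
      Bc * ((x : ℝ) ^ 2 * (V * (C2 * (1 / w) * (U : ℝ) ^ k))) := by
    refine (sum_le_sum hone).trans ?_
    have e2 : ∑ u ∈ Tu io U, Bc * ((x : ℝ) ^ 2 * (V * (C * (1 / w + Fx K w x io u)))) =
        Bc * ((x : ℝ) ^ 2 * (V * (C * ((Tu io U).card * (1 / w) + ∑ u ∈ Tu io U, Fx K w x io u)))) := by
      simp only [← mul_sum, sum_add_distrib, sum_const, nsmul_eq_mul]
    rw [e2]
    have h3 := Fx_sum K hK0 w x U hw1 hKw hU io
    have h4 : ((Tu io U).card : ℝ) * (1 / w) ≤ (U : ℝ) ^ k * (1 / w) := mul_le_mul_of_nonneg_right hT (by positivity)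
    apply mul_le_mul_of_nonneg_left _ hBc0
    apply mul_le_mul_of_nonneg_left _ (by positivity)
    apply mul_le_mul_of_nonneg_left _ (by linarith)
    have h5 : ((Tu io U).card : ℝ) * (1 / w) + ∑ u ∈ Tu io U, Fx K w x io u ≤
        (1 + 8 * (k : ℝ) ^ 2 * K) * (1 / w) * (U : ℝ) ^ k := by
      have e3 : (k : ℝ) ^ 2 * ((U : ℝ) ^ k * (8 * (K / w))) = 8 * (k : ℝ) ^ 2 * K * (1 / w) * (U : ℝ) ^ k := by ring
      rw [e3] at h3
      linarith
    calc C * (((Tu io U).card : ℝ) * (1 / w) + ∑ u ∈ Tu io U, Fx K w x io u) ≤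
        C * ((1 + 8 * (k : ℝ) ^ 2 * K) * (1 / w) * (U : ℝ) ^ k) := mul_le_mul_of_nonneg_left h5 (by linarith)
      _ = C2 * (1 / w) * (U : ℝ) ^ k := by rw [hC2]; ring
  have hUk : (U : ℝ) ^ (2 * k) = (U : ℝ) ^ k * (U : ℝ) ^ k := by rw [← pow_add]; congr 1; ring
  calc (U : ℝ) ^ k * ∑ u ∈ Tu io U, ∑ a ∈ Bx m d H, (∑ n ∈ Icc 1 x, PL io u a n - Cw w io u a * x) ^ 2
      ≤ (U : ℝ) ^ k * (Bc * ((x : ℝ) ^ 2 * (V * (C2 * (1 / w) * (U : ℝ) ^ k)))) :=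
        mul_le_mul_of_nonneg_left hsum (by positivity)
    _ = Bc * ((x : ℝ) ^ 2 * ((U : ℝ) ^ (2 * k) * (V * (C2 * (1 / w))))) := by rw [hUk]; ring
    _ ≤ _ := by
        have h6 : C2 ≤ max (max C C2) K := (le_max_right _ _).trans (le_max_left _ _)
        gcongr

end Pool.Agent.TP975.RP
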