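import Mathlib
import Pool.Agent.TP975.RP.Po2

/-!
Factorial moments and tuples of distinct shifts.
-/

set_option autoImplicit false

namespace Pool.Agent.TP975.RP

open Finset
open Pool.Agent.H373R2.T7

variable {m d k : ℕ}

lemma count_inj (io : Fin k → Fin m) (S : Fin m → Finset ℕ) :
    ((Fintype.piFinset (fun j => S (io j))).filter (fun u => ∀ j j', j ≠ j' → io j = io j' → u j ≠ u j')).card =
      ∏ i, (S i).card.descFactorial (univ.filter (fun j => io j = i)).card := by
  classical
  set F := (Fintype.piFinset (fun j => S (io j))).filter (fun u => ∀ j j', j ≠ j' → io j = io j' → u j ≠ u j') with hF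
  have hmem : ∀ u : Fin k → ℕ, u ∈ F ↔ (∀ j, u j ∈ S (io j)) ∧ ∀ j j', j ≠ j' → io j = io j' → u j ≠ u j' := by
    intro u
    rw [hF, mem_filter, Fintype.mem_piFinset]
  let e : (↥F) ≃ (∀ i, ({j : Fin k // io j = i} ↪ ↥(S i))) :=
    { toFun := fun u i => ⟨fun j => ⟨u.1 j.1, by
          have := ((hmem u.1).1 u.2).1 j.1
          rw [j.2] at this
          exact this⟩, by
          intro j j' heq
          by_contra hne
          have h1 : u.1 j.1 = u.1 j'.1 := congrArg Subtype.val heq
          exact ((hmem u.1).1 u.2).2 j.1 j'.1 (fun h => hne (Subtype.ext h)) (j.2.trans j'.2.symm) h1⟩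
      invFun := fun g => ⟨fun j => ((g (io j) ⟨j, rfl⟩ : ↥(S (io j))) : ℕ), by
          rw [hmem]
          refine ⟨fun j => (g (io j) ⟨j, rfl⟩).2, ?_⟩
          intro j j' hne hio heq
          have key : ∀ (i : Fin m) (h1 : io j = i) (h2 : io j' = i), ((g i ⟨j, h1⟩ : ↥(S i)) : ℕ) = ((g i ⟨j', h2⟩ : ↥(S i)) : ℕ) → False := by
            intro i h1 h2 h3
            have h4 := (g i).injective (Subtype.ext h3)
            exact hne (congrArg Subtype.val h4)
          have h5 : ∀ (i : Fin m) (h1 : io j = i), ((g (io j) ⟨j, rfl⟩ : ↥(S (io j))) : ℕ) = ((g i ⟨j, h1⟩ : ↥(S i)) : ℕ) := by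
            intro i h1; subst h1; rfl
          apply key (io j') hio rfl
          rw [← h5 (io j') hio]
          exact heq⟩
      left_inv := by
        intro u
        rfl
      right_inv := by
        intro g
        funext i
        ext j
        obtain ⟨j, hj⟩ := j
        subst hj
        rfl }
  rw [← Fintype.card_coe F, Fintype.card_congr e, Fintype.card_pi]
  refine prod_congr rfl fun i _ => ?_
  rw [Fintype.card_embedding_eq, Fintype.card_coe, Fintype.card_subtype]

/-- the number of prime values in a window -/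
def win (a : Fin m → Fin (d + 1) → ℤ) (i : Fin m) (n U : ℕ) : ℕ :=
  ((Icc 1 U).filter (fun u : ℕ => (ev (a i) ((n : ℤ) + u)).natAbs.Prime)).card

lemma sum_piF (io : Fin k → Fin m) (a : Fin m → Fin (d + 1) → ℤ) (x U : ℕ) :
    ∑ u ∈ Tu io U, piF io u a x = ∑ n ∈ Icc 1 x, ∏ i, (win a i n U).descFactorial (univ.filter (fun j => io j = i)).card := by
  classical
  have e0 : ∀ u ∈ Tu io U, piF io u a x = ∑ n ∈ Icc 1 x, (if ∀ j, (ev (a (io j)) ((n : ℤ) + u j)).natAbs.Prime then 1 else 0) := by
    intro u _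
    unfold piF
    rw [card_filter]
  rw [sum_congr rfl e0, sum_comm]
  refine sum_congr rfl fun n _ => ?_
  have h1 := count_inj io (fun i => (Icc 1 U).filter (fun u : ℕ => (ev (a i) ((n : ℤ) + u)).natAbs.Prime))
  have h2 : ∑ u ∈ Tu io U, (if ∀ j, (ev (a (io j)) ((n : ℤ) + u j)).natAbs.Prime then 1 else 0) =
      ((Fintype.piFinset (fun j => (Icc 1 U).filter (fun u : ℕ => (ev (a (io j)) ((n : ℤ) + u)).natAbs.Prime))).filter
        (fun u => ∀ j j', j ≠ j' → io j = io j' → u j ≠ u j')).card := by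
    rw [← card_filter]
    congr 1
    ext u
    unfold Tu
    rw [mem_filter, mem_filter, mem_Al, mem_filter, Fintype.mem_piFinset]
    simp only [mem_filter, mem_Icc]
    constructor
    · rintro ⟨⟨h3, h4⟩, h5⟩
      exact ⟨fun j => ⟨h3 j, h5 j⟩, h4⟩
    · rintro ⟨h3, h4⟩
      exact ⟨⟨fun j => (h3 j).1, h4⟩, fun j => (h3 j).2⟩
  rw [h2]
  exact h1

end Pool.Agent.TP975.RP
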