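import Mathlib
import Pool.Agent.TP975.RP.Gn8
import Pool.Agent.TP975.RP.Po3

/-!
The mean of the number of tuples of prime values.
-/

set_option autoImplicit false

namespace Pool.Agent.TP975.RP

open Finset
open Pool.Agent.H373R2.T7

variable {m d k : ℕ}

/-- the constant of the excess -/
noncomputable def Ke (m k : ℕ) : ℝ := (1 + 3 ^ k : ℝ) ^ (m * k ^ 2) - 1

lemma Ke_nonneg (m k : ℕ) : 0 ≤ Ke m k := by
  unfold Ke
  have : 1 ≤ (1 + 3 ^ k : ℝ) ^ (m * k ^ 2) := one_le_pow₀ (by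
    have : (0 : ℝ) ≤ 3 ^ k := by positivity
    linarith)
  linarith

/-- one family of points at two levels -/
theorem pat1 (m d k E : ℕ) (hd : 1 ≤ d) : ∃ C : ℝ, 1 ≤ C ∧ ∃ H0 : ℕ, ∀ H : ℕ, H0 ≤ H → ∀ w z : ℕ, C ≤ w → w < z →
    (z : ℝ) ≤ Real.log H ^ E → ∀ (io : Fin k → Fin m) (u : Fin k → ℤ) (s : ℕ), (s = w ∨ s = z) →
    |∑ a ∈ Bx m d H, QM s io u a - ∑ a ∈ Bx m d H, Gf w io u a| ≤
      (Bx m d H).card * (((Vz w)⁻¹) ^ k * (C * (1 / w + ∑ q ∈ Qp io, (Yf (Ke m k) w z (u q.1 - u q.2) - 1))) +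
        1 / Real.log H ^ 1) := by
  obtain ⟨C1, hC1, H1, h1⟩ := Xavg m d k E hd
  obtain ⟨H2, h2⟩ := mf m d k E 1
  set M : ℝ := m * (k : ℝ) ^ 2 with hM
  have hM0 : 0 ≤ M := by positivity
  refine ⟨max (C1 + M) (k : ℝ), le_max_of_le_left (by linarith), max H1 H2,
    fun H hH w z hCw hwz hzE io u s hs => ?_⟩
  have b1 := le_trans (le_max_left _ _) hH
  have b2 := le_trans (le_max_right _ _) hH
  have hc1 : C1 + M ≤ w := (le_max_left _ _).trans hCw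
  have hc2 : (k : ℝ) ≤ w := (le_max_right _ _).trans hCw
  have hkw : k ≤ w := by exact_mod_cast hc2
  have hw1r : (1 : ℝ) ≤ w := by linarith
  have hw1 : 1 ≤ w := by exact_mod_cast hw1r
  have hcard : Fintype.card (Fin k) = k := Fintype.card_fin k
  have g1 := h1 H b1 w z (by linarith) hwz hzE (Fin k) hcard.le io u
  have g2 := h2 H b2 z (by omega) hzE (Fin k) hcard.le io u (fun _ => s)
    (fun l => by rcases hs with h | h <;> omega)
  have e1 : ∀ a : Fin m → Fin (d + 1) → ℤ, ∏ l, lamz s (ev (a (io l)) (u l)).natAbs = QM s io u a := fun a => rfl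
  simp only [e1] at g2
  have e2 : |∑ a ∈ Bx m d H, ∏ i, dens (univ.filter (fun l => io l = i)) (fun l => rr 0 (a i) (u l)) (fun _ => s) z -
      ∑ a ∈ Bx m d H, Gf w io u a| ≤ (Bx m d H).card * (((Vz w)⁻¹) ^ k *
        (C1 * (1 / w + ∑ q ∈ Qp io, (Yf (Ke m k) w z (u q.1 - u q.2) - 1)) + M * (1 / w))) := by
    rw [← sum_sub_distrib]
    refine (abs_sum_le_sum_abs _ _).trans ?_
    refine (sum_le_sum fun a _ => near k hcard.le io u (fun _ => s) w z hw1 hkw hwz (fun _ => hs) a).trans ?_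
    rw [← mul_sum, sum_add_distrib, sum_const, nsmul_eq_mul, hcard]
    have hV : 0 ≤ ((Vz w)⁻¹) ^ k := pow_nonneg (by have := one_le_Vinv w; linarith) _
    have e3 : (m : ℝ) * (k : ℝ) ^ 2 / w = M * (1 / w) := by rw [hM]; ring
    rw [e3]
    have g3 := mul_le_mul_of_nonneg_left (add_le_add_left g1 (((Bx m d H).card : ℝ) * (M * (1 / w)))) hV
    refine g3.trans (le_of_eq ?_)
    unfold Ke
    ring
  have hV1 : 1 ≤ ((Vz w)⁻¹) ^ k := one_le_pow₀ (one_le_Vinv w)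
  have hSx : 0 ≤ ∑ q ∈ Qp io, (Yf (Ke m k) w z (u q.1 - u q.2) - 1) := by
    refine sum_nonneg fun q _ => ?_
    have := Yf_one_le (Ke m k) (Ke_nonneg m k) w z (u q.1 - u q.2)
    linarith
  set S := ∑ q ∈ Qp io, (Yf (Ke m k) w z (u q.1 - u q.2) - 1) with hS
  set G := ∑ a ∈ Bx m d H, Gf w io u a with hG
  set D := ∑ a ∈ Bx m d H, ∏ i, dens (univ.filter (fun l => io l = i)) (fun l => rr 0 (a i) (u l)) (fun _ => s) z with hD
  have hB0 : (0 : ℝ) ≤ (Bx m d H).card := Nat.cast_nonneg _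
  have h5 : C1 * (1 / w + S) + M * (1 / w) ≤ max (C1 + M) (k : ℝ) * (1 / w + S) := by
    have h6 : C1 * (1 / w + S) + M * (1 / w) ≤ (C1 + M) * (1 / w + S) := by
      have : 0 ≤ M * S := mul_nonneg hM0 hSx
      linarith
    refine h6.trans (mul_le_mul_of_nonneg_right (le_max_left _ _) ?_)
    have : 0 ≤ 1 / (w : ℝ) := by positivity
    linarith
  have h7 := mul_le_mul_of_nonneg_left (mul_le_mul_of_nonneg_left h5 (by linarith : 0 ≤ ((Vz w)⁻¹) ^ k)) hB0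
  calc |∑ a ∈ Bx m d H, QM s io u a - G|
      ≤ |∑ a ∈ Bx m d H, QM s io u a - D| + |D - G| := abs_sub_le _ _ _
    _ ≤ (Bx m d H).card / Real.log H ^ 1 + (Bx m d H).card * (((Vz w)⁻¹) ^ k * (C1 * (1 / w + S) + M * (1 / w))) :=
        add_le_add g2 e2
    _ ≤ (Bx m d H).card / Real.log H ^ 1 + (Bx m d H).card * (((Vz w)⁻¹) ^ k * (max (C1 + M) (k : ℝ) * (1 / w + S))) := by
        linarith
    _ = _ := by ring

/-- the mean over all the tuples of distinct arguments -/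
theorem mx1 (m d r A : ℕ) (hd : 1 ≤ d) : ∃ C : ℝ, 1 ≤ C ∧ ∃ H0 : ℕ, ∀ H : ℕ, H0 ≤ H → ∀ w : ℕ, C ≤ w →
    (w : ℝ) ≤ Real.log H → ∀ io : Fin r → Fin m, (∀ i, (univ.filter (fun j => io j = i)).card ≤ 2 * d + 1) →
    ∀ U : ℕ, 1 ≤ U → (U : ℝ) ≤ Real.log H ^ A →
    |∑ u ∈ Tu io U, ∑ a ∈ Bx m d H, (QL io (fun j => (u j : ℤ)) a - QM w io (fun j => (u j : ℤ)) a)| ≤
      (Bx m d H).card * ((U : ℝ) ^ r * (((Vz w)⁻¹) ^ r * (C * (1 / w)))) := by
  classical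
  obtain ⟨B, hB⟩ := meanW m d r A 1
  obtain ⟨H1, h1⟩ := hB (B + 2)
  obtain ⟨C1, hC1, H2, h2⟩ := pat1 m d r (B + 2) hd
  obtain ⟨H3, h3⟩ := Filter.eventually_atTop.1 (ev_log 3)
  set K := Ke m r with hK
  have hK0 : 0 ≤ K := Ke_nonneg m r
  have hr0 : (0 : ℝ) ≤ r := Nat.cast_nonneg _
  set C : ℝ := 2 * C1 * (1 + 8 * (r : ℝ) ^ 2 * K) + 2 + r with hC
  have hCC1 : C1 ≤ C := by
    have : 0 ≤ 2 * C1 * (8 * (r : ℝ) ^ 2 * K) := by positivity
    rw [hC]; nlinarith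
  refine ⟨max C K, le_max_of_le_left (hC1.trans hCC1), max H1 (max H2 H3), fun H hH w hCw hwL io hfib U hU hUA => ?_⟩
  have b1 := le_trans (le_max_left _ _) hH
  have b2 := le_trans (le_max_left _ _) (le_trans (le_max_right _ _) hH)
  have b3 := le_trans (le_max_right _ _) (le_trans (le_max_right _ _) hH)
  have hL3 := h3 H b3
  set L := Real.log H with hL
  have hL0 : 0 < L := by linarith
  have hL1 : 1 ≤ L := by linarith
  have hCw1 : C ≤ w := (le_max_left _ _).trans hCw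
  have hKw : K ≤ w := (le_max_right _ _).trans hCw
  have hw1r : (1 : ℝ) ≤ w := hC1.trans (hCC1.trans hCw1)
  have hw1 : 1 ≤ w := by exact_mod_cast hw1r
  have hw0 : (0 : ℝ) < w := by linarith
  set z : ℕ := ⌈L ^ (B + 1)⌉₊ + 1 with hz
  have hz0 : L ^ (B + 1) + 1 ≤ z := by
    have : L ^ (B + 1) ≤ (⌈L ^ (B + 1)⌉₊ : ℝ) := Nat.le_ceil _
    rw [hz]; push_cast; linarith
  have hz1 : L ^ (B + 1) ≤ z := by linarith
  have hz2 : (z : ℝ) ≤ L ^ (B + 2) := by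
    have h5 : (⌈L ^ (B + 1)⌉₊ : ℝ) < L ^ (B + 1) + 1 := Nat.ceil_lt_add_one (by positivity)
    have h6 : (1 : ℝ) ≤ L ^ (B + 1) := one_le_pow₀ hL1
    have h7 : L ^ (B + 2) = L ^ (B + 1) * L := by rw [pow_succ]
    have h8 := mul_le_mul_of_nonneg_left hL3 (by linarith : 0 ≤ L ^ (B + 1))
    rw [h7, hz]
    push_cast
    linarith
  have hzB : L ^ B ≤ z := (pow_le_pow_right₀ hL1 (by omega)).trans hz1
  have hwz : w < z := by
    have : (w : ℝ) < z := by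
      calc (w : ℝ) ≤ L := hwL
        _ = L ^ 1 := (pow_one L).symm
        _ ≤ L ^ (B + 1) := pow_le_pow_right₀ hL1 (by omega)
        _ < z := by linarith
    exact_mod_cast this
  set V := ((Vz w)⁻¹) ^ r with hV
  have hV1 : 1 ≤ V := one_le_pow₀ (one_le_Vinv w)
  set Bc : ℝ := ((Bx m d H).card : ℝ) with hBc
  have hBc0 : 0 ≤ Bc := Nat.cast_nonneg _
  have hLw : 1 / L ≤ 1 / w := one_div_le_one_div_of_le hw0 hwL
  have hone : ∀ u ∈ Tu io U, |∑ a ∈ Bx m d H, (QL io (fun j => (u j : ℤ)) a - QM w io (fun j => (u j : ℤ)) a)| ≤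
      Bc * (V * ((2 * C1 + 2 + r) * (1 / w)) + V * (2 * C1 * Fx K w z io u)) := by
    intro u hu
    unfold Tu at hu
    rw [mem_filter, mem_Al] at hu
    have m1 := h1 H b1 z hzB hz2 io (fun j => (u j : ℤ)) (fun j => by
      have h5 : ((u j : ℕ) : ℝ) ≤ U := by exact_mod_cast (hu.1 j).2
      push_cast
      rw [abs_of_nonneg (Nat.cast_nonneg _)]
      exact h5.trans hUA) (fun j j' hjj hio => by
      have := hu.2 j j' hjj hio
      exact_mod_cast this) hfib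
    have p1 := h2 H b2 w z (hCC1.trans hCw1) hwz hz2 io (fun j => (u j : ℤ)) z (Or.inr rfl)
    have p2 := h2 H b2 w z (hCC1.trans hCw1) hwz hz2 io (fun j => (u j : ℤ)) w (Or.inl rfl)
    have n1 : |∑ a ∈ Bx m d H, (QL io (fun j => (u j : ℤ)) a - QM z io (fun j => (u j : ℤ)) a)| ≤ Bc * (r / L ^ 1) := m1
    have eF : ∑ q ∈ Qp io, (Yf (Ke m r) w z ((fun j => (u j : ℤ)) q.1 - (fun j => (u j : ℤ)) q.2) - 1) = Fx K w z io u := rfl
    rw [eF] at p1 p2
    rw [sum_sub_distrib] at n1 ⊢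
    rw [pow_one] at n1 p1 p2
    set SL := ∑ a ∈ Bx m d H, QL io (fun j => (u j : ℤ)) a with hSL
    set Sz := ∑ a ∈ Bx m d H, QM z io (fun j => (u j : ℤ)) a with hSz
    set Sw := ∑ a ∈ Bx m d H, QM w io (fun j => (u j : ℤ)) a with hSw
    set G := ∑ a ∈ Bx m d H, Gf w io (fun j => (u j : ℤ)) a with hG
    have q0 : |SL - Sw| ≤ Bc * (r / L) + 2 * (Bc * (V * (C1 * (1 / w + Fx K w z io u)) + 1 / L)) := by
      rw [abs_le] at n1 p1 p2 ⊢
      constructor <;> linarith [n1.1, n1.2, p1.1, p1.2, p2.1, p2.2]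
    refine q0.trans ?_
    have q1 : (r + 2 : ℝ) * (1 / L) ≤ V * ((r + 2) * (1 / w)) := by
      have : (r + 2 : ℝ) * (1 / L) ≤ (r + 2) * (1 / w) := mul_le_mul_of_nonneg_left hLw (by linarith)
      have h9 : 0 ≤ (r + 2 : ℝ) * (1 / w) := by positivity
      nlinarith
    have q2 := mul_le_mul_of_nonneg_left q1 hBc0
    have e4 : Bc * ((r : ℝ) / L) + 2 * (Bc * (V * (C1 * (1 / w + Fx K w z io u)) + 1 / L)) =
        Bc * ((r + 2) * (1 / L)) + Bc * (V * (2 * C1 * (1 / w)) + V * (2 * C1 * Fx K w z io u)) := by ring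
    have e5 : Bc * (V * ((2 * C1 + 2 + r) * (1 / w)) + V * (2 * C1 * Fx K w z io u)) =
        Bc * (V * ((r + 2) * (1 / w))) + Bc * (V * (2 * C1 * (1 / w)) + V * (2 * C1 * Fx K w z io u)) := by ring
    rw [e4, e5]
    linarith
  have hT : ((Tu io U).card : ℝ) ≤ (U : ℝ) ^ r := by
    have : (Tu io U).card ≤ U ^ r := by
      rw [← card_Al r U]
      unfold Tu
      exact card_filter_le _ _
    exact_mod_cast this
  refine (abs_sum_le_sum_abs _ _).trans ((sum_le_sum hone).trans ?_)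
  rw [← mul_sum, sum_add_distrib, sum_const, nsmul_eq_mul, ← mul_sum, ← mul_sum]
  have h5 := Fx_sum K hK0 w z U hw1 hKw hU io
  have hUr : (0 : ℝ) ≤ (U : ℝ) ^ r := by positivity
  have h6 : ((Tu io U).card : ℝ) * (V * ((2 * C1 + 2 + r) * (1 / w))) ≤ (U : ℝ) ^ r * (V * ((2 * C1 + 2 + r) * (1 / w))) :=
    mul_le_mul_of_nonneg_right hT (by positivity)
  have h7 : V * (2 * C1 * ∑ u ∈ Tu io U, Fx K w z io u) ≤ V * (2 * C1 * ((r : ℝ) ^ 2 * ((U : ℝ) ^ r * (8 * (K / w))))) := by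
    apply mul_le_mul_of_nonneg_left _ (by linarith)
    exact mul_le_mul_of_nonneg_left h5 (by linarith)
  have h8 : (U : ℝ) ^ r * (V * ((2 * C1 + 2 + r) * (1 / w))) + V * (2 * C1 * ((r : ℝ) ^ 2 * ((U : ℝ) ^ r * (8 * (K / w))))) =
      (U : ℝ) ^ r * (V * (C * (1 / w))) := by rw [hC]; ring
  have h9 : (U : ℝ) ^ r * (V * (C * (1 / w))) ≤ (U : ℝ) ^ r * (V * (max C K * (1 / w))) := by
    apply mul_le_mul_of_nonneg_left _ hUr
    apply mul_le_mul_of_nonneg_left _ (by linarith)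
    exact mul_le_mul_of_nonneg_right (le_max_left _ _) (by positivity)
  apply mul_le_mul_of_nonneg_left _ hBc0
  linarith

end Pool.Agent.TP975.RP
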