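import Mathlib
import Pool.Agent.TP975.RP.Mx1
import Pool.Agent.TP975.RP.Cd9

/-!
The factorial moments of the number of prime values of a random polynomial in a short initial interval.
-/

set_option autoImplicit false

namespace Pool.Agent.TP975.RP

open Finset
open Pool.Agent.H373R2.T7

variable {d : ℕ}

/-- the only index -/
def z1 (r : ℕ) : Fin r → Fin 1 := fun _ => 0

lemma desc_eq (r U : ℕ) (f : Fin (d + 1) → ℤ) : (pi1 f U).descFactorial r =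
    ((Tu (z1 r) U).filter (fun u => ∀ j, (ev f (u j : ℤ)).natAbs.Prime)).card := by
  classical
  have h1 := count_inj (z1 r) (fun _ => (Icc 1 U).filter (fun u : ℕ => (ev f (u : ℤ)).natAbs.Prime))
  have h2 : (univ.filter (fun j => z1 r j = 0)).card = r := by
    simp [z1]
  rw [Fin.prod_univ_one, h2] at h1
  unfold pi1
  rw [← h1]
  congr 1
  ext u
  unfold Tu
  rw [mem_filter, mem_filter, mem_filter, mem_Al, Fintype.mem_piFinset]
  simp only [mem_filter, mem_Icc]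
  constructor
  · rintro ⟨h3, h4⟩
    exact ⟨⟨fun j => (h3 j).1, h4⟩, fun j => (h3 j).2⟩
  · rintro ⟨⟨h3, h4⟩, h5⟩
    exact ⟨fun j => ⟨h3 j, h5 j⟩, h4⟩

/-- the sum of the model over all the tuples -/
lemma SW_eq (w r U : ℕ) (a : Fin 1 → Fin (d + 1) → ℤ) : ∑ u ∈ Al r U, QM w (z1 r) (fun j => (u j : ℤ)) a =
    (∑ n ∈ Icc 1 U, lamz w (ev (a 0) (n : ℤ)).natAbs) ^ r := by
  unfold QM Al z1
  rw [← prod_univ_sum (fun _ : Fin r => Icc 1 U) (fun _ n => lamz w (ev (a 0) (n : ℤ)).natAbs), prod_const, card_univ,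
    Fintype.card_fin]

/-- the sum of the model over the tuples of distinct arguments -/
lemma SW_near (w r U : ℕ) (hU : 1 ≤ U) (a : Fin 1 → Fin (d + 1) → ℤ) :
    |∑ u ∈ Tu (z1 r) U, QM w (z1 r) (fun j => (u j : ℤ)) a - (U * C1 w (a 0)) ^ r| ≤
      (U : ℝ) ^ r / U * ((r ^ 2 + 2 * r) * (((Vz w)⁻¹) ^ (r + 1) * 4 ^ w)) := by
  classical
  have hU0 : (0 : ℝ) < U := by exact_mod_cast hU
  set V := (Vz w)⁻¹ with hV
  have hV1 : 1 ≤ V := one_le_Vinv w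
  have hr0 : (0 : ℝ) ≤ r := Nat.cast_nonneg _
  have h4w : (1 : ℝ) ≤ 4 ^ w := one_le_pow₀ (by norm_num)
  have hVr : V ^ r ≤ V ^ (r + 1) := pow_le_pow_right₀ hV1 (by omega)
  have h1 : |(∑ n ∈ Icc 1 U, lamz w (ev (a 0) (n : ℤ)).natAbs) - C1 w (a 0) * U| ≤ 2 * (V * 4 ^ w) := by
    have h2 := win_lam w 0 U a 0
    have e1 : C1w w a 0 = C1 w (a 0) := C1_eq a w
    rw [e1] at h2
    simpa using h2
  have h2 : |∑ u ∈ Al r U, QM w (z1 r) (fun j => (u j : ℤ)) a - (U * C1 w (a 0)) ^ r| ≤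
      (U : ℝ) ^ r * (r * V ^ r * (2 * (V * 4 ^ w) / U)) := by
    rw [SW_eq]
    have h3 := prod_diff (range r) (fun _ => (∑ n ∈ Icc 1 U, lamz w (ev (a 0) (n : ℤ)).natAbs) / U)
      (fun _ => C1 w (a 0)) V (2 * (V * 4 ^ w) / U) hV1 (by positivity) (by
        intro j _
        rw [abs_of_nonneg (div_nonneg (sum_nonneg fun _ _ => lamz_nonneg _ _) hU0.le), div_le_iff₀ hU0]
        calc ∑ n ∈ Icc 1 U, lamz w (ev (a 0) (n : ℤ)).natAbs ≤ ∑ n ∈ Icc 1 U, V := sum_le_sum fun _ _ => lamz_le _ _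
          _ = V * U := by rw [sum_const, Nat.card_Icc, Nat.add_sub_cancel, nsmul_eq_mul]; ring) (by
        intro j _
        have h4 := C1w_bd w a 0
        have e1 : C1w w a 0 = C1 w (a 0) := C1_eq a w
        rw [e1] at h4
        rw [abs_of_nonneg h4.1]
        exact h4.2) (by
        intro j _
        have e : (∑ n ∈ Icc 1 U, lamz w (ev (a 0) (n : ℤ)).natAbs) / U - C1 w (a 0) =
            (∑ n ∈ Icc 1 U, lamz w (ev (a 0) (n : ℤ)).natAbs - C1 w (a 0) * U) / U := by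
          field_simp
        rw [e, abs_div, abs_of_pos hU0]
        exact div_le_div_of_nonneg_right h1 hU0.le)
    rw [prod_const, prod_const, card_range, div_pow] at h3
    have e2 : (∑ n ∈ Icc 1 U, lamz w (ev (a 0) (n : ℤ)).natAbs) ^ r - (U * C1 w (a 0)) ^ r =
        (U : ℝ) ^ r * ((∑ n ∈ Icc 1 U, lamz w (ev (a 0) (n : ℤ)).natAbs) ^ r / U ^ r - C1 w (a 0) ^ r) := by
      rw [mul_pow]
      field_simp
    rw [e2, abs_mul, abs_of_nonneg (by positivity : (0 : ℝ) ≤ (U : ℝ) ^ r)]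
    exact mul_le_mul_of_nonneg_left h3 (by positivity)
  have h3 : ∑ u ∈ Al r U, QM w (z1 r) (fun j => (u j : ℤ)) a = ∑ u ∈ Tu (z1 r) U, QM w (z1 r) (fun j => (u j : ℤ)) a +
      ∑ u ∈ (Al r U).filter (fun u => ¬ ∀ j j', j ≠ j' → z1 r j = z1 r j' → u j ≠ u j'), QM w (z1 r) (fun j => (u j : ℤ)) a := by
    unfold Tu
    rw [sum_filter_add_sum_filter_not]
  have h4 : 0 ≤ ∑ u ∈ (Al r U).filter (fun u => ¬ ∀ j j', j ≠ j' → z1 r j = z1 r j' → u j ≠ u j'),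
      QM w (z1 r) (fun j => (u j : ℤ)) a := sum_nonneg fun u _ => (QM_bd w _ _ a).1
  have h5 : ∑ u ∈ (Al r U).filter (fun u => ¬ ∀ j j', j ≠ j' → z1 r j = z1 r j' → u j ≠ u j'),
      QM w (z1 r) (fun j => (u j : ℤ)) a ≤ (U : ℝ) ^ r / U * (r ^ 2 * (V ^ (r + 1) * 4 ^ w)) := by
    calc _ ≤ ∑ u ∈ (Al r U).filter (fun u => ¬ ∀ j j', j ≠ j' → z1 r j = z1 r j' → u j ≠ u j'), V ^ r :=
          sum_le_sum fun u _ => (QM_bd w _ _ a).2
      _ ≤ ((r : ℝ) ^ 2 * ((U : ℝ) ^ r / U)) * V ^ r := by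
          rw [sum_const, nsmul_eq_mul]
          exact mul_le_mul_of_nonneg_right (card_compl_Tu U hU (z1 r)) (by positivity)
      _ ≤ ((r : ℝ) ^ 2 * ((U : ℝ) ^ r / U)) * (V ^ (r + 1) * 4 ^ w) := by
          apply mul_le_mul_of_nonneg_left _ (by positivity)
          have h7 : 0 ≤ V ^ (r + 1) := by positivity
          nlinarith
      _ = _ := by ring
  have h6 : (U : ℝ) ^ r * (r * V ^ r * (2 * (V * 4 ^ w) / U)) = (U : ℝ) ^ r / U * (2 * r * (V ^ (r + 1) * 4 ^ w)) := by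
    rw [pow_succ V r]
    field_simp
  rw [h3, h6] at h2
  have h7 : (U : ℝ) ^ r / U * ((r ^ 2 + 2 * r) * (V ^ (r + 1) * 4 ^ w)) =
      (U : ℝ) ^ r / U * (r ^ 2 * (V ^ (r + 1) * 4 ^ w)) + (U : ℝ) ^ r / U * (2 * r * (V ^ (r + 1) * 4 ^ w)) := by ring
  rw [h7]
  rw [abs_le] at h2 ⊢
  have h8 : 0 ≤ (U : ℝ) ^ r / U * (r ^ 2 * (V ^ (r + 1) * 4 ^ w)) := by positivity
  constructor <;> linarith [h2.1, h2.2]

end Pool.Agent.TP975.RP
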