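import Mathlib
import Pool.Agent.TP975.RP.Po3

/-!
The joint factorial moments of the numbers of prime values of random polynomials in short windows.
-/

set_option autoImplicit false

namespace Pool.Agent.TP975.RP

open Finset
open Pool.Agent.H373R2.T7

variable {m d k : ℕ}

lemma pow_near (lam : ℝ) (hlam : 0 < lam) (k : ℕ) (δ : ℝ) (hδ : 0 < δ) : ∃ T : ℝ, 1 ≤ T ∧ ∀ L : ℝ, T ≤ L →
    |((⌊lam * L⌋₊ : ℝ) / L) ^ k - lam ^ k| ≤ δ * lam ^ k := by
  set B : ℝ := max 1 lam with hB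
  have hB1 : 1 ≤ B := le_max_left _ _
  have hpos : 0 < δ * lam ^ k := by positivity
  refine ⟨max 1 ((k * B ^ k) / (δ * lam ^ k)), le_max_left _ _, fun L hL => ?_⟩
  have hL1 : 1 ≤ L := (le_max_left _ _).trans hL
  have hL2 : (k * B ^ k) / (δ * lam ^ k) ≤ L := (le_max_right _ _).trans hL
  have hL0 : 0 < L := by linarith
  have h1 : (⌊lam * L⌋₊ : ℝ) ≤ lam * L := Nat.floor_le (by positivity)
  have h2 : lam * L < (⌊lam * L⌋₊ : ℝ) + 1 := Nat.lt_floor_add_one _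
  have h3 := prod_diff (range k) (fun _ => (⌊lam * L⌋₊ : ℝ) / L) (fun _ => lam) B (1 / L) hB1 (by positivity)
    (fun _ _ => by
      rw [abs_of_nonneg (by positivity), div_le_iff₀ hL0]
      exact h1.trans (mul_le_mul_of_nonneg_right (le_max_right _ _) hL0.le))
    (fun _ _ => by rw [abs_of_pos hlam]; exact le_max_right _ _)
    (fun _ _ => by
      have e : (⌊lam * L⌋₊ : ℝ) / L - lam = ((⌊lam * L⌋₊ : ℝ) - lam * L) / L := by field_simp
      rw [e, abs_div, abs_of_pos hL0]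
      apply div_le_div_of_nonneg_right _ hL0.le
      rw [abs_le]
      constructor <;> linarith)
  rw [prod_const, prod_const, card_range] at h3
  refine h3.trans ?_
  rw [mul_one_div, div_le_iff₀ hL0]
  rw [div_le_iff₀ hpos] at hL2
  linarith

theorem poisson (m d k : ℕ) (hd : 1 ≤ d) (hk : 1 ≤ k) (io : Fin k → Fin m)
    (hfib : ∀ i, (univ.filter (fun j => io j = i)).card ≤ d) (lam : ℝ) (hlam : 0 < lam)
    (ε : ℝ) (hε : 0 < ε) (A : ℕ) (δ : ℝ) (hδ : 0 < δ) : ∃ w0 : ℕ, ∀ w : ℕ, w0 ≤ w → ∃ H0 : ℕ, ∀ H : ℕ, H0 ≤ H →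
    ∀ x : ℕ, Real.log H ^ ((k : ℝ) + ε) ≤ x → (x : ℝ) ≤ Real.log H ^ A →
    (((Bx m d H).filter (fun a => (∀ i, ∀ p ≤ w, p.Prime → om (fun _ : Fin 1 => i) (fun _ => 0) a p < p) ∧
      δ * (∏ j, (lam * C1w w a (io j))) <
        |((∑ n ∈ Icc 1 x, ∏ i, (win a i n ⌊lam * Real.log H⌋₊).descFactorial (univ.filter (fun j => io j = i)).card : ℕ) : ℝ) / x -
          ∏ j, (lam * C1w w a (io j))|)).card : ℝ) ≤ δ * (Bx m d H).card := by
  classical
  set δ1 : ℝ := min δ 1 with hδ1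
  have hδ10 : 0 < δ1 := lt_min hδ one_pos
  have hδ11 : δ1 ≤ 1 := min_le_right _ _
  have hδ1δ : δ1 ≤ δ := min_le_left _ _
  set η : ℝ := δ1 / 2 ^ (k + 3) with hη
  have hη0 : 0 < η := by positivity
  have hηe : 2 ^ (k + 1) * η = δ1 / 4 := by
    rw [hη, show k + 3 = (k + 1) + 2 by ring, pow_add 2 (k + 1) 2]
    field_simp
    norm_num
  have hη1 : 2 ^ (k + 1) * η ≤ 1 := by rw [hηe]; linarith
  have h2k : (4 : ℝ) ≤ 2 ^ (k + 1) := by
    calc (4 : ℝ) = 2 ^ 2 := by norm_num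
      _ ≤ 2 ^ (k + 1) := pow_le_pow_right₀ (by norm_num) (by omega)
  have hη4 : η ≤ 1 / 4 := by nlinarith
  obtain ⟨C, hC1, H1, h1⟩ := core2 m d k (A + 1) hd hk ε hε
  obtain ⟨c, hc0, hlow⟩ := Cw_lower 1 d
  rw [one_mul] at hlow
  obtain ⟨w1, hw1⟩ := V_lt (2 * k + 2 * (2 * d * k)) (256 * C / (δ1 ^ 2 * c ^ (2 * k)) * (2 / δ1))
  refine ⟨max w1 ⌈C⌉₊, fun w hw => ?_⟩
  have hw1' := hw1 w (le_trans (le_max_left _ _) hw)
  have hwC : C ≤ w := by
    have h2 : ⌈C⌉₊ ≤ w := le_trans (le_max_right _ _) hw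
    exact (Nat.le_ceil C).trans (by exact_mod_cast h2)
  have hwr : (1 : ℝ) ≤ w := hC1.trans hwC
  have hw0 : (0 : ℝ) < w := by linarith
  set V := (Vz w)⁻¹ with hV
  have hV1 : 1 ≤ V := one_le_Vinv w
  set κ : ℝ := c * (Vz w) ^ (2 * d) with hκ
  have hκ0 : 0 < κ := mul_pos hc0 (pow_pos (Vz_pos w) _)
  set Mw : ℝ := (k ^ 2 + 2 * k + 1) * (V ^ (k + 1) * 4 ^ w) with hMw
  have hMw0 : 0 ≤ Mw := by positivity
  obtain ⟨H2, h2⟩ := badfrac m (A + 1) η (δ1 / 2) hη0 hη4 (by positivity)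
  obtain ⟨H3, h3⟩ := Filter.eventually_atTop.1 (log_tend.eventually_ge_atTop ((16 : ℝ) ^ w + 3))
  obtain ⟨T4, hT41, h4⟩ := pow_near lam hlam k (δ1 / 8) (by positivity)
  obtain ⟨H4, h4'⟩ := Filter.eventually_atTop.1 (log_tend.eventually_ge_atTop (max T4
    ((Mw / (δ1 / 8 * κ ^ k) + 2) / lam)))
  have hbig : ∀ᶠ H : ℕ in Filter.atTop, ((d : ℝ) + 1) * Real.log H ^ ((A + 1) * d) ≤ (H : ℝ) ^ η := by
    have g1 := (isLittleO_log_rpow_rpow_atTop (((A + 1) * d : ℕ) : ℝ) hη0).bound (show (0 : ℝ) < 1 / (d + 1) by positivity)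
    filter_upwards [(tendsto_natCast_atTop_atTop (R := ℝ)).eventually g1, log_tend.eventually_ge_atTop 1] with H g2 g3
    rw [Real.rpow_natCast, Real.norm_of_nonneg (by positivity), Real.norm_of_nonneg (by positivity), one_div,
      inv_mul_eq_div, le_div_iff₀ (by positivity)] at g2
    linarith
  obtain ⟨H5, h5⟩ := Filter.eventually_atTop.1 hbig
  have hlamε : ∀ᶠ H : ℕ in Filter.atTop, lam ≤ Real.log H ^ ε :=
    ((tendsto_rpow_atTop hε).comp log_tend).eventually_ge_atTop lam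
  obtain ⟨H6, h6⟩ := Filter.eventually_atTop.1 hlamε
  refine ⟨max (max (max H1 H2) (max H3 H4)) (max H5 (max H6 3)), fun H hH x hx hxA => ?_⟩
  have c0 := le_trans (le_max_left _ _) hH
  have b1 := le_trans (le_max_left _ _) (le_trans (le_max_left _ _) c0)
  have b2 := le_trans (le_max_right _ _) (le_trans (le_max_left _ _) c0)
  have b3 := le_trans (le_max_left _ _) (le_trans (le_max_right _ _) c0)
  have b4 := le_trans (le_max_right _ _) (le_trans (le_max_right _ _) c0)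
  have b5 := le_trans (le_max_left _ _) (le_trans (le_max_right _ _) hH)
  have b6 := le_trans (le_max_left _ _) (le_trans (le_max_right _ _) (le_trans (le_max_right _ _) hH))
  have b7 : 3 ≤ H := le_trans (le_max_right _ _) (le_trans (le_max_right _ _) (le_trans (le_max_right _ _) hH))
  have hL16' := h3 H b3
  have hLT := h4' H b4
  have hbig' := h5 H b5
  have hlamL := h6 H b6
  have hH3 : (3 : ℝ) ≤ H := by exact_mod_cast b7
  have hH0 : (0 : ℝ) < H := by linarith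
  set L := Real.log H with hL
  have h16 : (0 : ℝ) < 16 ^ w := by positivity
  have hL16 : (16 : ℝ) ^ w ≤ L := by linarith
  have hL3 : 3 ≤ L := by linarith
  have hL1 : 1 ≤ L := by linarith
  have hL0 : 0 < L := by linarith
  have hnear := h4 L ((le_max_left _ _).trans hLT)
  have hLU : Mw / (δ1 / 8 * κ ^ k) + 2 ≤ lam * L := by
    have h7 : (Mw / (δ1 / 8 * κ ^ k) + 2) / lam ≤ L := (le_max_right _ _).trans hLT
    rw [div_le_iff₀ hlam] at h7
    linarith
  set U := ⌊lam * L⌋₊ with hU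
  have hUle : (U : ℝ) ≤ lam * L := Nat.floor_le (by positivity)
  have hUge : lam * L < (U : ℝ) + 1 := Nat.lt_floor_add_one _
  have hMκ : Mw / (δ1 / 8 * κ ^ k) + 1 ≤ U := by linarith
  have hMκ0 : 0 ≤ Mw / (δ1 / 8 * κ ^ k) := by positivity
  have hU1r : (1 : ℝ) ≤ U := by linarith
  have hU1 : 1 ≤ U := by exact_mod_cast hU1r
  have hU0 : (0 : ℝ) < U := by linarith
  have hLx1 : L * L ^ ε ≤ x := by
    refine le_trans ?_ hx
    calc L * L ^ ε = L ^ (1 : ℝ) * L ^ ε := by rw [Real.rpow_one]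
      _ = L ^ (1 + ε) := (Real.rpow_add hL0 _ _).symm
      _ ≤ L ^ ((k : ℝ) + ε) := by
        apply Real.rpow_le_rpow_of_exponent_le hL1
        have : (1 : ℝ) ≤ k := by exact_mod_cast hk
        linarith
  have hUx : U ≤ x := by
    have : (U : ℝ) ≤ x := by
      refine hUle.trans (le_trans ?_ hLx1)
      rw [mul_comm]
      exact mul_le_mul_of_nonneg_left hlamL hL0.le
    exact_mod_cast this
  have hx0 : (0 : ℝ) < x := by
    have : (0 : ℝ) < L * L ^ ε := by positivity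
    linarith
  have hxA1 : (x : ℝ) ≤ L ^ (A + 1) := hxA.trans (pow_le_pow_right₀ hL1 (by omega))
  have h2xA1 : ((2 * x : ℕ) : ℝ) ≤ L ^ (A + 1) := by
    push_cast
    rw [pow_succ]
    nlinarith [pow_pos hL0 A]
  have hcore := h1 H b1 w hwC hL16 x hx hxA1 U hU1 hUx io hfib
  set y := ⌊(H : ℝ) ^ (1 - η)⌋₊ with hy
  set Y := ⌊(H : ℝ) ^ (1 + η)⌋₊ with hY
  set Bc : ℝ := ((Bx m d H).card : ℝ) with hBc
  have hBc0 : 0 ≤ Bc := Nat.cast_nonneg _
  -- the two exceptional sets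
  set S1 := (Bx m d H).filter (fun a => BadA (fun i : Fin m => i) (fun _ => 0) (2 * x) y Y a) with hS1
  set S2 := (Bx m d H).filter (fun a => δ1 / 16 * κ ^ k * (U : ℝ) ^ k * x <
    |∑ u ∈ Tu io U, ∑ n ∈ Icc 1 x, PL io u a n - (∑ u ∈ Tu io U, Cw w io u a) * x|) with hS2
  have hsub : (Bx m d H).filter (fun a => (∀ i, ∀ p ≤ w, p.Prime → om (fun _ : Fin 1 => i) (fun _ => 0) a p < p) ∧
      δ * (∏ j, (lam * C1w w a (io j))) <
        |((∑ n ∈ Icc 1 x, ∏ i, (win a i n U).descFactorial (univ.filter (fun j => io j = i)).card : ℕ) : ℝ) / x -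
          ∏ j, (lam * C1w w a (io j))|) ⊆ S1 ∪ S2 := by
    intro a ha
    rw [mem_filter] at ha
    obtain ⟨haB, hom, hgt⟩ := ha
    rw [mem_union]
    by_contra hcon
    push Not at hcon
    obtain ⟨hn1, hn2⟩ := hcon
    have g1 : ¬ BadA (fun i : Fin m => i) (fun _ => 0) (2 * x) y Y a := fun hc => hn1 (mem_filter.2 ⟨haB, hc⟩)
    set S := ∑ u ∈ Tu io U, Cw w io u a with hS
    set Nn := ∑ u ∈ Tu io U, ∑ n ∈ Icc 1 x, PL io u a n with hNn
    set P : ℝ := ((∑ n ∈ Icc 1 x, ∏ i, (win a i n U).descFactorial (univ.filter (fun j => io j = i)).card : ℕ) : ℝ) with hP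
    set Q : ℝ := ∏ j, C1w w a (io j) with hQ
    have g2 : |Nn - S * x| ≤ δ1 / 16 * κ ^ k * (U : ℝ) ^ k * x := by
      by_contra hc
      exact hn2 (mem_filter.2 ⟨haB, not_le.1 hc⟩)
    -- lower bound for `Q`
    have g3 : κ ^ k ≤ Q := by
      have e : κ ^ k = ∏ j : Fin k, κ := by simp
      rw [e, hQ]
      apply prod_le_prod (fun _ _ => hκ0.le)
      intro j _
      exact hlow m w (fun _ : Fin 1 => io j) (fun _ => 0) a (hom (io j))
    have hκk : 0 < κ ^ k := pow_pos hκ0 k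
    have hQ0 : 0 < Q := lt_of_lt_of_le hκk g3
    have hUk : 0 < (U : ℝ) ^ k := pow_pos hU0 k
    -- the average
    have g4 := avg_T w U hU1 io a
    rw [← hS, ← hQ, ← hMw] at g4
    have g5 : |S - (U : ℝ) ^ k * Q| ≤ δ1 / 8 * ((U : ℝ) ^ k * Q) := by
      refine g4.trans ?_
      have h7 : Mw ≤ δ1 / 8 * κ ^ k * U := by
        have h8 : Mw / (δ1 / 8 * κ ^ k) ≤ U := by linarith
        rw [div_le_iff₀ (by positivity)] at h8
        linarith
      calc (U : ℝ) ^ k / U * Mw ≤ (U : ℝ) ^ k / U * (δ1 / 8 * κ ^ k * U) := mul_le_mul_of_nonneg_left h7 (by positivity)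
        _ = δ1 / 8 * ((U : ℝ) ^ k * κ ^ k) := by field_simp
        _ ≤ δ1 / 8 * ((U : ℝ) ^ k * Q) := by gcongr
    have hUQ : 0 < (U : ℝ) ^ k * Q := mul_pos hUk hQ0
    have g6 : (U : ℝ) ^ k * Q ≤ 2 * S := by
      have := (abs_le.1 g5).1
      nlinarith
    have hS0 : 0 < S := by linarith
    have g7 : |Nn - S * x| ≤ (δ1 / 2) / 4 * (S * x) := by
      refine g2.trans ?_
      calc δ1 / 16 * κ ^ k * (U : ℝ) ^ k * x = δ1 / 16 * ((U : ℝ) ^ k * κ ^ k) * x := by ring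
        _ ≤ δ1 / 16 * ((U : ℝ) ^ k * Q) * x := by gcongr
        _ ≤ δ1 / 16 * (2 * S) * x := by gcongr
        _ = _ := by ring
    have hη1' : η ≤ 1 := by linarith
    have g8 : (1 - η) * L ≤ Real.log (y + 1) := by
      have : (H : ℝ) ^ (1 - η) ≤ y + 1 := (Nat.lt_floor_add_one _).le
      calc (1 - η) * L = Real.log ((H : ℝ) ^ (1 - η)) := (Real.log_rpow hH0 _).symm
        _ ≤ _ := Real.log_le_log (by positivity) this
    have hYle : (Y : ℝ) ≤ (H : ℝ) ^ (1 + η) := Nat.floor_le (by positivity)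
    have hY1r : (1 : ℝ) ≤ (H : ℝ) ^ (1 + η) := Real.one_le_rpow (by linarith) (by linarith)
    have hY1 : 1 ≤ Y := Nat.le_floor (by exact_mod_cast hY1r)
    have g9 : Real.log Y ≤ (1 + η) * L := by
      have h3 := Real.log_le_log (by exact_mod_cast hY1) hYle
      rwa [Real.log_rpow hH0] at h3
    have hTu : ∀ u ∈ Tu io U, ∀ j, 1 ≤ u j ∧ u j ≤ U := by
      intro u hu
      unfold Tu at hu
      rw [mem_filter, mem_Al] at hu
      exact hu.1
    have g10 : ∀ u ∈ Tu io U, ∀ n ∈ Icc 1 x, ∀ j, |ev (a (io j)) ((n : ℤ) + u j)| ≤ Y := by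
      intro u hu n hn j
      rw [mem_Bx] at haB
      have h6 := haB (io j)
      rw [mem_QQ] at h6
      rw [mem_Icc] at hn
      have h7 := ev_bd (a (io j)) ((n : ℤ) + u j) H (L ^ (A + 1)) (fun c => by exact_mod_cast h6 c) (by
        have e1 : (n : ℝ) ≤ L ^ A := le_trans (by exact_mod_cast hn.2) hxA
        have e2 : (u j : ℝ) ≤ L ^ A := le_trans (by exact_mod_cast (hTu u hu j).2.trans hUx) hxA
        have e3 : (0 : ℝ) ≤ u j := Nat.cast_nonneg _
        push_cast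
        rw [abs_of_nonneg (by positivity), pow_succ]
        nlinarith) (one_le_pow₀ hL1)
      rw [← pow_mul] at h7
      have h8 : |((ev (a (io j)) ((n : ℤ) + u j) : ℤ) : ℝ)| ≤ (H : ℝ) ^ (1 + η) := by
        refine h7.trans ?_
        calc ((d : ℝ) + 1) * (H * L ^ ((A + 1) * d)) = H * (((d : ℝ) + 1) * L ^ ((A + 1) * d)) := by ring
          _ ≤ H * (H : ℝ) ^ η := mul_le_mul_of_nonneg_left hbig' hH0.le
          _ = (H : ℝ) ^ (1 + η) := by rw [Real.rpow_add hH0, Real.rpow_one]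
      have h9 : ((ev (a (io j)) ((n : ℤ) + u j)).natAbs : ℝ) ≤ (H : ℝ) ^ (1 + η) := by
        rw [Nat.cast_natAbs]; push_cast; push_cast at h8; exact h8
      have h10 : (ev (a (io j)) ((n : ℤ) + u j)).natAbs ≤ Y := Nat.le_floor h9
      have h11 : ((ev (a (io j)) ((n : ℤ) + u j)).natAbs : ℤ) = |ev (a (io j)) ((n : ℤ) + u j)| := Int.natCast_natAbs _
      omega
    have g11 : ∀ u ∈ Tu io U, ¬ BadA io u x y Y a := by
      intro u hu hc
      obtain ⟨n, hn, j, hj⟩ := hc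
      apply g1
      rw [mem_Icc] at hn
      have h7 := hTu u hu j
      refine ⟨n + u j, mem_Icc.2 ⟨by omega, by omega⟩, io j, ?_⟩
      push_cast
      rw [add_zero]
      exact hj
    have g12 : P = ∑ u ∈ Tu io U, (piF io u a x : ℝ) := by
      rw [hP, ← sum_piF]
      push_cast
      rfl
    have t1 : ((1 - η) * L) ^ k * P ≤ Nn := by
      rw [g12, mul_sum]
      refine sum_le_sum fun u hu => ?_
      exact (transfer io u a x y Y L η hL0.le hη0.le hη1' g8 hY1 g9 (g10 u hu) (g11 u hu)).1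
    have t2 : Nn ≤ ((1 + η) * L) ^ k * P := by
      rw [g12, mul_sum]
      refine sum_le_sum fun u hu => ?_
      exact (transfer io u a x y Y L η hL0.le hη0.le hη1' g8 hY1 g9 (g10 u hu) (g11 u hu)).2
    have g13 := transfer2 k L η (δ1 / 2) Nn (S * x) P hL0 hη0.le hη1
      (by rw [hηe]; linarith) (Nat.cast_nonneg _) t1 t2 (by positivity) g7
    -- normalisation
    have hLk : 0 < L ^ k := pow_pos hL0 k
    set G : ℝ := ∏ j, (lam * C1w w a (io j)) with hG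
    have hGe : G = lam ^ k * Q := by
      rw [hG, prod_mul_distrib, prod_const, card_univ, Fintype.card_fin]
    have hlk : 0 < lam ^ k := pow_pos hlam k
    have hG0 : 0 < G := by rw [hGe]; positivity
    have g14 : |P / x - S / L ^ k| ≤ δ1 / 2 * (S / L ^ k) := by
      have e1 : P / x - S / L ^ k = (P - S * x / L ^ k) / x := by field_simp
      rw [e1, abs_div, abs_of_pos hx0, div_le_iff₀ hx0]
      refine g13.trans (le_of_eq ?_)
      ring
    have g15 : |S / L ^ k - G| ≤ δ1 / 4 * G := by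
      have e1 : S / L ^ k - G = (S - (U : ℝ) ^ k * Q) / L ^ k + (((U : ℝ) / L) ^ k - lam ^ k) * Q := by
        rw [hGe, div_pow]
        field_simp
        ring
      rw [e1]
      refine (abs_add_le _ _).trans ?_
      rw [abs_div, abs_of_pos hLk, abs_mul, abs_of_pos hQ0]
      have e2 : |S - (U : ℝ) ^ k * Q| / L ^ k ≤ δ1 / 8 * (lam ^ k * Q) := by
        rw [div_le_iff₀ hLk]
        refine g5.trans ?_
        have h7 : (U : ℝ) ^ k ≤ lam ^ k * L ^ k := by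
          rw [← mul_pow]
          exact pow_le_pow_left₀ hU0.le hUle k
        calc δ1 / 8 * ((U : ℝ) ^ k * Q) ≤ δ1 / 8 * ((lam ^ k * L ^ k) * Q) := by gcongr
          _ = _ := by ring
      have e3 : |((U : ℝ) / L) ^ k - lam ^ k| * Q ≤ δ1 / 8 * (lam ^ k * Q) := by
        calc |((U : ℝ) / L) ^ k - lam ^ k| * Q ≤ (δ1 / 8 * lam ^ k) * Q := mul_le_mul_of_nonneg_right hnear hQ0.le
          _ = _ := by ring
      rw [hGe]
      linarith
    have g16 : |P / x - G| ≤ δ1 * G := by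
      rw [abs_le] at g14 g15 ⊢
      have h7 : S / L ^ k ≤ (1 + δ1 / 4) * G := by linarith [g15.2]
      have h8 : δ1 / 2 * (S / L ^ k) ≤ δ1 / 2 * ((1 + δ1 / 4) * G) := mul_le_mul_of_nonneg_left h7 (by linarith)
      have h9 : δ1 / 2 * ((1 + δ1 / 4) * G) ≤ δ1 / 2 * (5 / 4 * G) := by
        apply mul_le_mul_of_nonneg_left _ (by linarith)
        apply mul_le_mul_of_nonneg_right _ hG0.le
        linarith
      have h10 : 0 < δ1 * G := by positivity
      constructor <;> linarith [g14.1, g14.2, g15.1, g15.2]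
    have g17 : δ1 * G ≤ δ * G := mul_le_mul_of_nonneg_right hδ1δ hG0.le
    linarith
  have hS1c : (S1.card : ℝ) ≤ Bc * (δ1 / 2) := by
    have g1 := BadA_card (d := d) H (fun i : Fin m => i) (fun _ => 0) (2 * x) y Y
    have g2 := h2 H b2 (2 * x) h2xA1
    refine le_trans ?_ (mul_le_mul_of_nonneg_left g2 hBc0)
    convert g1
  have hS2c : (S2.card : ℝ) ≤ Bc * (δ1 / 2) := by
    have g1 : (S2.card : ℝ) * (δ1 / 16 * κ ^ k * (U : ℝ) ^ k * x) ^ 2 ≤
        Bc * ((x : ℝ) ^ 2 * ((U : ℝ) ^ (2 * k) * (V ^ (2 * k) * (C * (1 / w))))) := by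
      refine le_trans ?_ hcore
      calc (S2.card : ℝ) * (δ1 / 16 * κ ^ k * (U : ℝ) ^ k * x) ^ 2 = ∑ a ∈ S2, (δ1 / 16 * κ ^ k * (U : ℝ) ^ k * x) ^ 2 := by
            rw [sum_const, nsmul_eq_mul]
        _ ≤ ∑ a ∈ S2, (∑ u ∈ Tu io U, ∑ n ∈ Icc 1 x, PL io u a n - (∑ u ∈ Tu io U, Cw w io u a) * x) ^ 2 := by
            refine sum_le_sum fun a ha => ?_
            rw [hS2, mem_filter] at ha
            rw [← sq_abs (∑ u ∈ Tu io U, ∑ n ∈ Icc 1 x, PL io u a n - (∑ u ∈ Tu io U, Cw w io u a) * x)]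
            exact pow_le_pow_left₀ (by positivity) ha.2.le 2
        _ ≤ _ := sum_le_sum_of_subset_of_nonneg (filter_subset _ _) (fun _ _ _ => sq_nonneg _)
    have hVV : V * Vz w = 1 := by rw [hV]; exact inv_mul_cancel₀ (Vz_pos w).ne'
    have hκV : κ * V ^ (2 * d) = c := by
      rw [hκ, mul_assoc, ← mul_pow, mul_comm (Vz w) V, hVV, one_pow, mul_one]
    have hκVk : κ ^ (2 * k) * V ^ (2 * (2 * d * k)) = c ^ (2 * k) := by
      rw [← hκV, mul_pow, ← pow_mul]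
      congr 2
      ring
    have h6 : 0 < (x : ℝ) ^ 2 * (U : ℝ) ^ (2 * k) := by positivity
    have h7 : (S2.card : ℝ) * ((δ1 / 16) ^ 2 * κ ^ (2 * k)) ≤ Bc * (V ^ (2 * k) * (C * (1 / w))) := by
      apply le_of_mul_le_mul_right _ h6
      calc (S2.card : ℝ) * ((δ1 / 16) ^ 2 * κ ^ (2 * k)) * ((x : ℝ) ^ 2 * (U : ℝ) ^ (2 * k))
          = (S2.card : ℝ) * (δ1 / 16 * κ ^ k * (U : ℝ) ^ k * x) ^ 2 := by
            have e1 : κ ^ (2 * k) = (κ ^ k) ^ 2 := by rw [← pow_mul, mul_comm]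
            have e2 : (U : ℝ) ^ (2 * k) = ((U : ℝ) ^ k) ^ 2 := by rw [← pow_mul, mul_comm]
            rw [e1, e2]; ring
        _ ≤ _ := g1
        _ = _ := by ring
    have g2 : (S2.card : ℝ) * (c ^ (2 * k) * (δ1 / 16) ^ 2) ≤ Bc * (V ^ (2 * k + 2 * (2 * d * k)) * (C * (1 / w))) := by
      have h8 : 0 ≤ V ^ (2 * (2 * d * k)) := by positivity
      have h9 := mul_le_mul_of_nonneg_right h7 h8
      calc (S2.card : ℝ) * (c ^ (2 * k) * (δ1 / 16) ^ 2) = (S2.card : ℝ) * ((δ1 / 16) ^ 2 * κ ^ (2 * k)) * V ^ (2 * (2 * d * k)) := by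
            rw [← hκVk]; ring
        _ ≤ _ := h9
        _ = _ := by rw [pow_add]; ring
    have g3 : V ^ (2 * k + 2 * (2 * d * k)) * (C * (1 / w)) ≤ (δ1 / 2) * (c ^ (2 * k) * (δ1 / 16) ^ 2) := by
      have h6 : 256 * C / (δ1 ^ 2 * c ^ (2 * k)) * (2 / δ1) * V ^ (2 * k + 2 * (2 * d * k)) ≤ w := hw1'
      have e1 : V ^ (2 * k + 2 * (2 * d * k)) * (C * (1 / w)) =
          (256 * C / (δ1 ^ 2 * c ^ (2 * k)) * (2 / δ1) * V ^ (2 * k + 2 * (2 * d * k))) *
          (((δ1 / 2) * (c ^ (2 * k) * (δ1 / 16) ^ 2)) * (1 / w)) := by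
        field_simp
        ring
      rw [e1]
      have h7 : 0 ≤ ((δ1 / 2) * (c ^ (2 * k) * (δ1 / 16) ^ 2)) * (1 / (w : ℝ)) := by positivity
      calc _ ≤ w * (((δ1 / 2) * (c ^ (2 * k) * (δ1 / 16) ^ 2)) * (1 / w)) := mul_le_mul_of_nonneg_right h6 h7
        _ = _ := by field_simp
    have h10 : 0 < c ^ (2 * k) * (δ1 / 16) ^ 2 := by positivity
    apply le_of_mul_le_mul_right _ h10
    calc (S2.card : ℝ) * (c ^ (2 * k) * (δ1 / 16) ^ 2) ≤ Bc * (V ^ (2 * k + 2 * (2 * d * k)) * (C * (1 / w))) := g2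
      _ ≤ Bc * ((δ1 / 2) * (c ^ (2 * k) * (δ1 / 16) ^ 2)) := mul_le_mul_of_nonneg_left g3 hBc0
      _ = _ := by ring
  have hfin : (((Bx m d H).filter (fun a => (∀ i, ∀ p ≤ w, p.Prime → om (fun _ : Fin 1 => i) (fun _ => 0) a p < p) ∧
      δ * (∏ j, (lam * C1w w a (io j))) <
        |((∑ n ∈ Icc 1 x, ∏ i, (win a i n U).descFactorial (univ.filter (fun j => io j = i)).card : ℕ) : ℝ) / x -
          ∏ j, (lam * C1w w a (io j))|)).card : ℝ) ≤ S1.card + S2.card := by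
    exact_mod_cast (card_le_card hsub).trans (card_union_le _ _)
  calc _ ≤ (S1.card : ℝ) + S2.card := hfin
    _ ≤ Bc * (δ1 / 2) + Bc * (δ1 / 2) := add_le_add hS1c hS2c
    _ = δ1 * Bc := by ring
    _ ≤ δ * Bc := mul_le_mul_of_nonneg_right hδ1δ hBc0

end Pool.Agent.TP975.RP
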