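import Mathlib
import Pool.Agent.TP975.RP.Mx2
import Pool.Agent.TP975.RP.Po4

/-!
The factorial moments of the number of prime values: the theorem.
-/

set_option autoImplicit false

namespace Pool.Agent.TP975.RP

open Finset
open Pool.Agent.H373R2.T7

variable {d : ℕ}

lemma sum_one {d H : ℕ} (F : (Fin (d + 1) → ℤ) → ℝ) : ∑ a ∈ Bx 1 d H, F (a 0) = ∑ f ∈ QQ d H, F f := by
  refine sum_nbij' (fun a => a 0) (fun f => fun _ => f) ?_ ?_ ?_ ?_ ?_
  · intro a ha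
    rw [mem_Bx] at ha
    exact ha 0
  · intro f hf
    rw [mem_Bx]
    exact fun _ => hf
  · intro a _
    funext i
    rw [Fin.fin_one_eq_zero i]
  · intro f _
    rfl
  · intro a _
    rfl

/-- one tuple -/
lemma tr1 (r : ℕ) (u : Fin r → ℤ) (a : Fin 1 → Fin (d + 1) → ℤ) (y Y : ℕ) (L η : ℝ)
    (hL : 0 ≤ L) (hη1 : η ≤ 1) (hy : (1 - η) * L ≤ Real.log (y + 1)) (hY : Real.log Y ≤ (1 + η) * L)
    (hv : ∀ j, |ev (a 0) (u j)| ≤ Y) (hb : ∀ j, ev (a 0) (u j) ∉ badS y Y) :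
    ((1 - η) * L) ^ r * (if ∀ j, (ev (a 0) (u j)).natAbs.Prime then 1 else 0) ≤ QL (z1 r) u a ∧
    QL (z1 r) u a ≤ ((1 + η) * L) ^ r * (if ∀ j, (ev (a 0) (u j)).natAbs.Prime then 1 else 0) := by
  have h1 := transferG (z1 r) {0} (fun _ => u) a y Y L η hL hη1 hy hY (fun n _ j => hv j)
    (by rintro ⟨n, _, j, hj⟩; exact hb j hj)
  rw [sum_singleton] at h1
  have e1 : (piG (z1 r) {0} (fun _ => u) a : ℝ) = if ∀ j, (ev (a 0) (u j)).natAbs.Prime then 1 else 0 := by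
    unfold piG
    split_ifs with h
    · rw [filter_true_of_mem]
      · simp
      · intro n _ j; exact h j
    · rw [filter_false_of_mem]
      · simp
      · intro n _ hc
        exact h hc
  rw [e1] at h1
  exact h1

theorem mom (d r : ℕ) (hd : 1 ≤ d) (hr : r ≤ 2 * d + 1) (lam : ℝ) (hlam : 0 < lam) (δ : ℝ) (hδ : 0 < δ) :
    ∃ w0 : ℕ, ∀ w : ℕ, w0 ≤ w → ∃ H0 : ℕ, ∀ H : ℕ, H0 ≤ H →
    |∑ f ∈ QQ d H, ((pi1 f ⌊lam * Real.log H⌋₊).descFactorial r : ℝ) - ∑ f ∈ QQ d H, (lam * C1 w f) ^ r| ≤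
      δ * (QQ d H).card := by
  classical
  obtain ⟨C, hC1, H1, h1⟩ := mx1 1 d r 2 hd
  obtain ⟨w1, hw1⟩ := V_lt r (8 * C * lam ^ r / δ)
  refine ⟨max w1 (max ⌈C⌉₊ 1), fun w hw => ?_⟩
  have hw1' := hw1 w (le_trans (le_max_left _ _) hw)
  have hwC : C ≤ w := by
    have h2 : ⌈C⌉₊ ≤ w := le_trans (le_trans (le_max_left _ _) (le_max_right _ _)) hw
    exact (Nat.le_ceil C).trans (by exact_mod_cast h2)
  have hwr : (1 : ℝ) ≤ w := hC1.trans hwC
  have hw0 : (0 : ℝ) < w := by linarith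
  set V := (Vz w)⁻¹ with hV
  have hV1 : 1 ≤ V := one_le_Vinv w
  have hVr : 1 ≤ V ^ r := one_le_pow₀ hV1
  have hlr : 0 < lam ^ r := pow_pos hlam r
  set G0 : ℝ := lam ^ r * V ^ r with hG0
  have hG00 : 0 < G0 := by positivity
  set Mw : ℝ := (r ^ 2 + 2 * r) * (V ^ (r + 1) * 4 ^ w) with hMw
  have hMw0 : 0 ≤ Mw := by positivity
  have h2r : (0 : ℝ) < 2 ^ (r + 1) := by positivity
  set η : ℝ := min (1 / 4) (min (1 / 2 ^ (r + 1)) (δ / (8 * 2 ^ (r + 1) * (G0 + δ)))) with hη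
  have hη0 : 0 < η := by
    rw [hη]
    refine lt_min (by norm_num) (lt_min (by positivity) (by positivity))
  have hη4 : η ≤ 1 / 4 := min_le_left _ _
  have hηr : 2 ^ (r + 1) * η ≤ 1 := by
    have : η ≤ 1 / 2 ^ (r + 1) := (min_le_right _ _).trans (min_le_left _ _)
    rw [le_div_iff₀ h2r] at this
    linarith
  have hηG : 2 ^ (r + 1) * η * (G0 + δ) ≤ δ / 8 := by
    have : η ≤ δ / (8 * 2 ^ (r + 1) * (G0 + δ)) := (min_le_right _ _).trans (min_le_right _ _)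
    rw [le_div_iff₀ (by positivity)] at this
    linarith
  obtain ⟨H2, h2⟩ := badfrac 1 (3 * (r + 1)) η (δ / 8) hη0 hη4 (by positivity)
  obtain ⟨T4, hT41, h4⟩ := pow_near lam hlam r (δ / (8 * V ^ r * lam ^ r)) (by positivity)
  obtain ⟨H3, h3⟩ := Filter.eventually_atTop.1 (log_tend.eventually_ge_atTop (max (max (w : ℝ) (3 + lam)) (max T4
    ((8 * lam ^ r * Mw / δ + 2) / lam))))
  have hbig : ∀ᶠ H : ℕ in Filter.atTop, ((d : ℝ) + 1) * Real.log H ^ (2 * d) ≤ (H : ℝ) ^ η := by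
    have g1 := (isLittleO_log_rpow_rpow_atTop ((2 * d : ℕ) : ℝ) hη0).bound (show (0 : ℝ) < 1 / (d + 1) by positivity)
    filter_upwards [(tendsto_natCast_atTop_atTop (R := ℝ)).eventually g1, log_tend.eventually_ge_atTop 1] with H g2 g3
    rw [Real.rpow_natCast, Real.norm_of_nonneg (by positivity), Real.norm_of_nonneg (by positivity), one_div,
      inv_mul_eq_div, le_div_iff₀ (by positivity)] at g2
    linarith
  obtain ⟨H5, h5⟩ := Filter.eventually_atTop.1 hbig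
  refine ⟨max (max H1 H2) (max H3 (max H5 3)), fun H hH => ?_⟩
  have b1 := le_trans (le_max_left _ _) (le_trans (le_max_left _ _) hH)
  have b2 := le_trans (le_max_right _ _) (le_trans (le_max_left _ _) hH)
  have b3 := le_trans (le_max_left _ _) (le_trans (le_max_right _ _) hH)
  have b5 := le_trans (le_max_left _ _) (le_trans (le_max_right _ _) (le_trans (le_max_right _ _) hH))
  have b6 : 3 ≤ H := le_trans (le_max_right _ _) (le_trans (le_max_right _ _) (le_trans (le_max_right _ _) hH))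
  have hLm := h3 H b3
  have hbig' := h5 H b5
  have hH3 : (3 : ℝ) ≤ H := by exact_mod_cast b6
  have hH0 : (0 : ℝ) < H := by linarith
  set L := Real.log H with hL
  have hLw : (w : ℝ) ≤ L := ((le_max_left _ _).trans (le_max_left _ _)).trans hLm
  have hL3l : 3 + lam ≤ L := ((le_max_right _ _).trans (le_max_left _ _)).trans hLm
  have hL3 : 3 ≤ L := by linarith
  have hlL : lam ≤ L := by linarith
  have hL1 : 1 ≤ L := by linarith
  have hL0 : 0 < L := by linarith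
  have hnear := h4 L (((le_max_left _ _).trans (le_max_right _ _)).trans hLm)
  have hLU : 8 * lam ^ r * Mw / δ + 2 ≤ lam * L := by
    have h7 : (8 * lam ^ r * Mw / δ + 2) / lam ≤ L := ((le_max_right _ _).trans (le_max_right _ _)).trans hLm
    rw [div_le_iff₀ hlam] at h7
    linarith
  set U := ⌊lam * L⌋₊ with hU
  have hUle : (U : ℝ) ≤ lam * L := Nat.floor_le (by positivity)
  have hUge : lam * L < (U : ℝ) + 1 := Nat.lt_floor_add_one _
  have hM8 : 0 ≤ 8 * lam ^ r * Mw / δ := by positivity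
  have hU1r : (1 : ℝ) ≤ U := by linarith
  have hU1 : 1 ≤ U := by exact_mod_cast hU1r
  have hU0 : (0 : ℝ) < U := by linarith
  have hUM : 8 * lam ^ r * Mw ≤ δ * U := by
    have h8 : 8 * lam ^ r * Mw / δ ≤ U := by linarith
    rw [div_le_iff₀ hδ] at h8
    linarith
  have hUL2 : (U : ℝ) ≤ L ^ 2 := by
    refine hUle.trans ?_
    rw [sq]
    exact mul_le_mul_of_nonneg_right hlL hL0.le
  have hLr : 0 < L ^ r := by positivity
  have hUr : 0 < (U : ℝ) ^ r := by positivity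
  have hUrL : (U : ℝ) ^ r ≤ lam ^ r * L ^ r := by
    rw [← mul_pow]
    exact pow_le_pow_left₀ hU0.le hUle r
  have hmx := h1 H b1 w hwC hLw (z1 r) (fun i => (card_filter_le _ _).trans (by
    rw [card_univ, Fintype.card_fin]; exact hr)) U hU1 hUL2
  set y := ⌊(H : ℝ) ^ (1 - η)⌋₊ with hy
  set Y := ⌊(H : ℝ) ^ (1 + η)⌋₊ with hY
  set Bc : ℝ := ((Bx 1 d H).card : ℝ) with hBc
  have hBc0 : 0 ≤ Bc := Nat.cast_nonneg _
  have g8 : (1 - η) * L ≤ Real.log (y + 1) := by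
    have : (H : ℝ) ^ (1 - η) ≤ y + 1 := (Nat.lt_floor_add_one _).le
    calc (1 - η) * L = Real.log ((H : ℝ) ^ (1 - η)) := (Real.log_rpow hH0 _).symm
      _ ≤ _ := Real.log_le_log (by positivity) this
  have hYle : (Y : ℝ) ≤ (H : ℝ) ^ (1 + η) := Nat.floor_le (by positivity)
  have hY1r : (1 : ℝ) ≤ (H : ℝ) ^ (1 + η) := Real.one_le_rpow (by linarith) (by linarith)
  have hY1 : 1 ≤ Y := Nat.le_floor (by exact_mod_cast hY1r)
  have g9 : Real.log Y ≤ (1 + η) * L := by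
    have h3 := Real.log_le_log (by exact_mod_cast hY1) hYle
    rwa [Real.log_rpow hH0] at h3
  -- the objects
  set D : (Fin 1 → Fin (d + 1) → ℤ) → ℝ := fun a => ((pi1 (a 0) U).descFactorial r : ℝ) with hD
  set SL : (Fin 1 → Fin (d + 1) → ℤ) → ℝ := fun a => ∑ u ∈ Tu (z1 r) U, QL (z1 r) (fun j => (u j : ℤ)) a with hSL
  set SW : (Fin 1 → Fin (d + 1) → ℤ) → ℝ := fun a => ∑ u ∈ Tu (z1 r) U, QM w (z1 r) (fun j => (u j : ℤ)) a with hSW
  have hTu : ∀ u ∈ Tu (z1 r) U, ∀ j, 1 ≤ u j ∧ u j ≤ U := by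
    intro u hu
    unfold Tu at hu
    rw [mem_filter, mem_Al] at hu
    exact hu.1
  have hTc : ((Tu (z1 r) U).card : ℝ) ≤ (U : ℝ) ^ r := by
    have : (Tu (z1 r) U).card ≤ U ^ r := by
      rw [← card_Al r U]
      unfold Tu
      exact card_filter_le _ _
    exact_mod_cast this
  have hpt : ∀ u ∈ Tu (z1 r) U, ∀ j, |(((u j : ℕ) : ℤ) : ℝ)| ≤ L ^ 2 := by
    intro u hu j
    have h6 : ((u j : ℕ) : ℝ) ≤ U := by exact_mod_cast (hTu u hu j).2
    push_cast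
    rw [abs_of_nonneg (Nat.cast_nonneg _)]
    exact h6.trans hUL2
  have hHη : (H : ℝ) ^ η ≤ H := by
    calc (H : ℝ) ^ η ≤ (H : ℝ) ^ (1 : ℝ) := Real.rpow_le_rpow_of_exponent_le (by linarith) (by linarith)
      _ = H := Real.rpow_one _
  have hSLnn : ∀ a, 0 ≤ SL a := fun a => sum_nonneg fun u _ => QL_nonneg _ _ a
  have hSLb : ∀ a ∈ Bx 1 d H, SL a ≤ (U : ℝ) ^ r * (2 * L) ^ r := by
    intro a ha
    calc SL a ≤ ∑ u ∈ Tu (z1 r) U, (2 * L) ^ r := by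
          refine sum_le_sum fun u hu => ?_
          exact QL_bd 2 H (by omega) hL1 (hbig'.trans hHη) ha (z1 r) (fun j => (u j : ℤ)) (hpt u hu)
      _ ≤ _ := by
          rw [sum_const, nsmul_eq_mul]
          exact mul_le_mul_of_nonneg_right hTc (by positivity)
  have hDe : ∀ a : Fin 1 → Fin (d + 1) → ℤ, D a = ∑ u ∈ Tu (z1 r) U, (if ∀ j, (ev (a 0) (u j : ℤ)).natAbs.Prime then (1 : ℝ) else 0) := by
    intro a
    rw [hD]
    simp only
    rw [desc_eq, card_filter]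
    push_cast
    rfl
  have hDb : ∀ a, 0 ≤ D a ∧ D a ≤ (U : ℝ) ^ r := by
    intro a
    refine ⟨Nat.cast_nonneg _, ?_⟩
    rw [hDe]
    calc _ ≤ ∑ u ∈ Tu (z1 r) U, (1 : ℝ) := sum_le_sum fun u _ => by split_ifs <;> norm_num
      _ ≤ _ := by rw [sum_const, nsmul_eq_mul, mul_one]; exact hTc
  set S1 := (Bx 1 d H).filter (fun a => BadA (z1 1) (fun _ => 0) U y Y a) with hS1
  -- good vectors
  have good : ∀ a ∈ Bx 1 d H, a ∉ S1 → |L ^ r * D a - SL a| ≤ 2 ^ (r + 1) * η * SL a := by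
    intro a ha hn
    have hnb : ∀ n ∈ Icc 1 U, ev (a 0) (n : ℤ) ∉ badS y Y := by
      intro n hn1 hc
      apply hn
      rw [hS1, mem_filter]
      refine ⟨ha, n, hn1, 0, ?_⟩
      simpa [z1] using hc
    have htr : ∀ u ∈ Tu (z1 r) U, _ := fun u hu =>
      tr1 r (fun j => (u j : ℤ)) a y Y L η hL0.le (by linarith) g8 g9
        (fun j => val_bd 2 H Y η (by omega) hη0 hL1 hbig' hY ha 0 (u j : ℤ) (hpt u hu j))
        (fun j => hnb (u j) (mem_Icc.2 (hTu u hu j)))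
    have t1 : ((1 - η) * L) ^ r * D a ≤ SL a := by
      rw [hDe, mul_sum]
      exact sum_le_sum fun u hu => (htr u hu).1
    have t2 : SL a ≤ ((1 + η) * L) ^ r * D a := by
      rw [hDe, mul_sum]
      exact sum_le_sum fun u hu => (htr u hu).2
    have t3 := transferG2 r L η (SL a) (D a) (SL a) 0 0 hL0 hη0.le hηr (hDb a).1 t1 t2 (hSLnn a) le_rfl le_rfl
      (by norm_num) (by simp)
    simpa using t3
  have bad : ∀ a ∈ Bx 1 d H, |L ^ r * D a - SL a| ≤ 2 ^ (r + 1) * (U : ℝ) ^ r * L ^ r := by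
    intro a ha
    have t1 : L ^ r * D a ≤ L ^ r * (U : ℝ) ^ r := mul_le_mul_of_nonneg_left (hDb a).2 hLr.le
    have t2 := hSLb a ha
    have t3 : 0 ≤ L ^ r * D a := mul_nonneg hLr.le (hDb a).1
    have t4 := hSLnn a
    rw [mul_pow] at t2
    have t5 : (1 : ℝ) ≤ 2 ^ r := one_le_pow₀ (by norm_num)
    set Z : ℝ := (U : ℝ) ^ r * L ^ r with hZ
    have t6 : 0 < Z := by positivity
    have t7 : Z ≤ 2 ^ r * Z := le_mul_of_one_le_left t6.le t5
    have e3 : L ^ r * (U : ℝ) ^ r = Z := mul_comm _ _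
    have e4 : (U : ℝ) ^ r * (2 ^ r * L ^ r) = 2 ^ r * Z := by rw [hZ]; ring
    have e5 : 2 ^ (r + 1) * (U : ℝ) ^ r * L ^ r = 2 ^ r * Z + 2 ^ r * Z := by rw [hZ, pow_succ]; ring
    rw [e3] at t1
    rw [e4] at t2
    rw [e5, abs_le]
    constructor <;> linarith
  -- the sum of the first differences
  have hsum1 : ∑ a ∈ Bx 1 d H, |L ^ r * D a - SL a| ≤ 2 ^ (r + 1) * η * ∑ a ∈ Bx 1 d H, SL a +
      S1.card * (2 ^ (r + 1) * (U : ℝ) ^ r * L ^ r) := by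
    have e1 : ∀ a ∈ Bx 1 d H, |L ^ r * D a - SL a| ≤ 2 ^ (r + 1) * η * SL a +
        (if a ∈ S1 then 2 ^ (r + 1) * (U : ℝ) ^ r * L ^ r else 0) := by
      intro a ha
      have t1 : 0 ≤ 2 ^ (r + 1) * η * SL a := mul_nonneg (by positivity) (hSLnn a)
      split_ifs with h
      · have := bad a ha
        linarith
      · have := good a ha h
        linarith
    refine (sum_le_sum e1).trans (le_of_eq ?_)
    have e2 : (Bx 1 d H).filter (fun a => a ∈ S1) = S1 := by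
      ext a
      rw [mem_filter]
      constructor
      · exact fun h => h.2
      · intro h
        refine ⟨?_, h⟩
        rw [hS1, mem_filter] at h
        exact h.1
    rw [sum_add_distrib, ← mul_sum, ← sum_filter, e2, sum_const, nsmul_eq_mul]
  have hS1c : (S1.card : ℝ) * (2 ^ (r + 1) * (U : ℝ) ^ r) ≤ Bc * (δ / 8) := by
    have g1 := BadA_card (d := d) H (z1 1) (fun _ => 0) U y Y
    have g2 := h2 H b2 (U ^ (r + 1) * 2 ^ (r + 1)) (by
      push_cast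
      rw [← mul_pow]
      calc ((U : ℝ) * 2) ^ (r + 1) ≤ (L ^ 3) ^ (r + 1) := by
            apply pow_le_pow_left₀ (by positivity)
            calc (U : ℝ) * 2 ≤ L ^ 2 * L := mul_le_mul hUL2 (by linarith) (by norm_num) (by positivity)
              _ = L ^ 3 := by ring
        _ = L ^ (3 * (r + 1)) := by rw [← pow_mul])
    set β := (((badS y Y).card : ℝ) / (2 * H + 1)) with hβ
    have g3 : (S1.card : ℝ) ≤ Bc * (U * (1 : ℕ) * β) := by
      convert g1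
    calc (S1.card : ℝ) * (2 ^ (r + 1) * (U : ℝ) ^ r) ≤ Bc * (U * (1 : ℕ) * β) * (2 ^ (r + 1) * (U : ℝ) ^ r) :=
          mul_le_mul_of_nonneg_right g3 (by positivity)
      _ = Bc * (((U ^ (r + 1) * 2 ^ (r + 1) : ℕ) : ℝ) * (1 : ℕ) * β) := by push_cast; ring
      _ ≤ Bc * (δ / 8) := mul_le_mul_of_nonneg_left g2 hBc0
  -- the mean
  have hmx' : |∑ a ∈ Bx 1 d H, SL a - ∑ a ∈ Bx 1 d H, SW a| ≤ Bc * ((U : ℝ) ^ r * (V ^ r * (C * (1 / w)))) := by
    have e1 : ∑ a ∈ Bx 1 d H, SL a - ∑ a ∈ Bx 1 d H, SW a = ∑ u ∈ Tu (z1 r) U, ∑ a ∈ Bx 1 d H,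
        (QL (z1 r) (fun j => (u j : ℤ)) a - QM w (z1 r) (fun j => (u j : ℤ)) a) := by
      rw [← sum_sub_distrib, sum_comm]
      refine sum_congr rfl fun a _ => ?_
      rw [hSL, hSW, sum_sub_distrib]
    rw [e1]
    exact hmx
  have hVCw : lam ^ r * (V ^ r * (C * (1 / w))) ≤ δ / 8 := by
    have h6 : 8 * C * lam ^ r / δ * V ^ r ≤ w := hw1'
    have e1 : lam ^ r * (V ^ r * (C * (1 / w))) = (8 * C * lam ^ r / δ * V ^ r) * (δ / 8 * (1 / w)) := by
      field_simp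
    rw [e1]
    calc _ ≤ w * (δ / 8 * (1 / w)) := mul_le_mul_of_nonneg_right h6 (by positivity)
      _ = δ / 8 := by field_simp
  have hmx2 : |∑ a ∈ Bx 1 d H, SL a - ∑ a ∈ Bx 1 d H, SW a| ≤ Bc * (δ / 8) * L ^ r := by
    refine hmx'.trans ?_
    have h9 : 0 ≤ V ^ r * (C * (1 / (w : ℝ))) := by
      have : 0 ≤ C := by linarith
      positivity
    calc Bc * ((U : ℝ) ^ r * (V ^ r * (C * (1 / w)))) ≤ Bc * ((lam ^ r * L ^ r) * (V ^ r * (C * (1 / w)))) := by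
          apply mul_le_mul_of_nonneg_left _ hBc0
          exact mul_le_mul_of_nonneg_right hUrL h9
      _ = Bc * (lam ^ r * (V ^ r * (C * (1 / w)))) * L ^ r := by ring
      _ ≤ _ := by
          apply mul_le_mul_of_nonneg_right _ hLr.le
          exact mul_le_mul_of_nonneg_left hVCw hBc0
  have hSWb : ∀ a, SW a ≤ (U : ℝ) ^ r * V ^ r := by
    intro a
    calc SW a ≤ ∑ u ∈ Tu (z1 r) U, V ^ r := sum_le_sum fun u _ => (QM_bd w _ _ a).2
      _ ≤ _ := by rw [sum_const, nsmul_eq_mul]; exact mul_le_mul_of_nonneg_right hTc (by positivity)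
  have hSLs : ∑ a ∈ Bx 1 d H, SL a ≤ Bc * (G0 + δ) * L ^ r := by
    have t1 : ∑ a ∈ Bx 1 d H, SW a ≤ Bc * (G0 * L ^ r) := by
      calc ∑ a ∈ Bx 1 d H, SW a ≤ ∑ a ∈ Bx 1 d H, (U : ℝ) ^ r * V ^ r := sum_le_sum fun a _ => hSWb a
        _ = Bc * ((U : ℝ) ^ r * V ^ r) := by rw [sum_const, nsmul_eq_mul]
        _ ≤ Bc * (G0 * L ^ r) := by
            apply mul_le_mul_of_nonneg_left _ hBc0
            rw [hG0]
            calc (U : ℝ) ^ r * V ^ r ≤ (lam ^ r * L ^ r) * V ^ r := mul_le_mul_of_nonneg_right hUrL (by positivity)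
              _ = _ := by ring
    have t2 := (abs_le.1 hmx2).2
    have t3 : 0 ≤ Bc * δ * L ^ r := by positivity
    nlinarith
  have hA1 : ∑ a ∈ Bx 1 d H, |L ^ r * D a - SL a| ≤ Bc * (δ / 4) * L ^ r := by
    refine hsum1.trans ?_
    have t1 : 2 ^ (r + 1) * η * ∑ a ∈ Bx 1 d H, SL a ≤ 2 ^ (r + 1) * η * (Bc * (G0 + δ) * L ^ r) :=
      mul_le_mul_of_nonneg_left hSLs (by positivity)
    have t2 : 2 ^ (r + 1) * η * (Bc * (G0 + δ) * L ^ r) = (2 ^ (r + 1) * η * (G0 + δ)) * (Bc * L ^ r) := by ring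
    have t3 : (2 ^ (r + 1) * η * (G0 + δ)) * (Bc * L ^ r) ≤ (δ / 8) * (Bc * L ^ r) :=
      mul_le_mul_of_nonneg_right hηG (by positivity)
    have t4 : (S1.card : ℝ) * (2 ^ (r + 1) * (U : ℝ) ^ r * L ^ r) ≤ Bc * (δ / 8) * L ^ r := by
      calc (S1.card : ℝ) * (2 ^ (r + 1) * (U : ℝ) ^ r * L ^ r) = (S1.card : ℝ) * (2 ^ (r + 1) * (U : ℝ) ^ r) * L ^ r := by ring
        _ ≤ _ := mul_le_mul_of_nonneg_right hS1c hLr.le
    linarith
  -- the model
  have hmod : ∀ a : Fin 1 → Fin (d + 1) → ℤ, |SW a - L ^ r * (lam * C1 w (a 0)) ^ r| ≤ δ / 4 * L ^ r := by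
    intro a
    have t1 := SW_near w r U hU1 a
    rw [← hMw] at t1
    have t2 : (U : ℝ) ^ r / U * Mw ≤ δ / 8 * L ^ r := by
      rw [div_mul_eq_mul_div, div_le_iff₀ hU0]
      calc (U : ℝ) ^ r * Mw ≤ (lam ^ r * L ^ r) * Mw := mul_le_mul_of_nonneg_right hUrL hMw0
        _ = (8 * lam ^ r * Mw) * (L ^ r / 8) := by ring
        _ ≤ (δ * U) * (L ^ r / 8) := mul_le_mul_of_nonneg_right hUM (by positivity)
        _ = _ := by ring
    have e1 : C1w w a 0 = C1 w (a 0) := C1_eq a w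
    have hc := C1w_bd w a 0
    rw [e1] at hc
    have t3 : |(U * C1 w (a 0)) ^ r - L ^ r * (lam * C1 w (a 0)) ^ r| ≤ δ / 8 * L ^ r := by
      have e2 : (U * C1 w (a 0)) ^ r - L ^ r * (lam * C1 w (a 0)) ^ r = L ^ r * ((((U : ℝ) / L) ^ r - lam ^ r) * C1 w (a 0) ^ r) := by
        rw [mul_pow, mul_pow, div_pow]
        field_simp
      rw [e2, abs_mul, abs_of_pos hLr, abs_mul, abs_of_nonneg (pow_nonneg hc.1 r)]
      have t4 : C1 w (a 0) ^ r ≤ V ^ r := pow_le_pow_left₀ hc.1 hc.2 r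
      have t5 : |((U : ℝ) / L) ^ r - lam ^ r| * C1 w (a 0) ^ r ≤ (δ / (8 * V ^ r * lam ^ r) * lam ^ r) * V ^ r :=
        mul_le_mul hnear t4 (pow_nonneg hc.1 r) (by positivity)
      have e3 : (δ / (8 * V ^ r * lam ^ r) * lam ^ r) * V ^ r = δ / 8 := by field_simp
      rw [e3] at t5
      rw [mul_comm]
      exact mul_le_mul_of_nonneg_right t5 hLr.le
    have t6 : SW a - L ^ r * (lam * C1 w (a 0)) ^ r = (SW a - (U * C1 w (a 0)) ^ r) +
        ((U * C1 w (a 0)) ^ r - L ^ r * (lam * C1 w (a 0)) ^ r) := by ring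
    rw [t6]
    refine (abs_add_le _ _).trans ?_
    have t7 : |SW a - (U * C1 w (a 0)) ^ r| ≤ (U : ℝ) ^ r / U * Mw := t1
    linarith
  have hmods : |∑ a ∈ Bx 1 d H, SW a - ∑ a ∈ Bx 1 d H, L ^ r * (lam * C1 w (a 0)) ^ r| ≤ Bc * (δ / 4 * L ^ r) := by
    rw [← sum_sub_distrib]
    refine (abs_sum_le_sum_abs _ _).trans ((sum_le_sum fun a _ => hmod a).trans (le_of_eq ?_))
    rw [sum_const, nsmul_eq_mul]
  -- conclusion
  have hcard : Bc = (QQ d H).card := by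
    rw [hBc, card_Bx, card_QQ, mul_one]
  rw [← sum_one (fun f => ((pi1 f U).descFactorial r : ℝ)), ← sum_one (fun f => (lam * C1 w f) ^ r), ← hcard]
  have hfin : |L ^ r * (∑ a ∈ Bx 1 d H, D a - ∑ a ∈ Bx 1 d H, (lam * C1 w (a 0)) ^ r)| ≤ L ^ r * (δ * Bc) := by
    have e1 : L ^ r * (∑ a ∈ Bx 1 d H, D a - ∑ a ∈ Bx 1 d H, (lam * C1 w (a 0)) ^ r) =
        (∑ a ∈ Bx 1 d H, (L ^ r * D a - SL a)) + (∑ a ∈ Bx 1 d H, SL a - ∑ a ∈ Bx 1 d H, SW a) +
        (∑ a ∈ Bx 1 d H, SW a - ∑ a ∈ Bx 1 d H, L ^ r * (lam * C1 w (a 0)) ^ r) := by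
      rw [sum_sub_distrib, ← mul_sum, ← mul_sum]
      ring
    rw [e1]
    have t1 : |∑ a ∈ Bx 1 d H, (L ^ r * D a - SL a)| ≤ Bc * (δ / 4) * L ^ r := (abs_sum_le_sum_abs _ _).trans hA1
    refine (abs_add_le _ _).trans ?_
    have t2 := abs_add_le (∑ a ∈ Bx 1 d H, (L ^ r * D a - SL a)) (∑ a ∈ Bx 1 d H, SL a - ∑ a ∈ Bx 1 d H, SW a)
    have t3 : 0 ≤ Bc * δ * L ^ r := by positivity
    linarith
  rw [abs_mul, abs_of_pos hLr] at hfin
  exact le_of_mul_le_mul_left hfin hLr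

end Pool.Agent.TP975.RP
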