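import Mathlib
import Pool.Agent.TP975.RP.Defs

/-!
Averages of products of periodic functions.
-/

set_option autoImplicit false

namespace Pool.Agent.TP975.RP

open Finset

theorem crt_sum_aux (F : ℕ → ℕ → ℝ) (S : Finset ℕ) (hS : ∀ p ∈ S, p.Prime) :
    ∀ q : ℕ, 1 ≤ q → (∀ p ∈ S, ¬ p ∣ q) → ∀ c : ℕ,
    ∑ n ∈ (range (q * ∏ p ∈ S, p)).filter (fun n => n ≡ c [MOD q]), ∏ p ∈ S, F p (n % p) =
      ∏ p ∈ S, ∑ a ∈ range p, F p a := by
  classical
  induction S using Finset.induction_on with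
  | empty =>
    intro q hq _ c
    simp only [prod_empty, mul_one]
    rw [sum_const, nsmul_eq_mul, mul_one]
    have : ((range q).filter (fun n => n ≡ c [MOD q])).card = 1 := by
      rw [card_eq_one]
      refine ⟨c % q, ?_⟩
      ext n
      rw [mem_filter, mem_range, mem_singleton]
      constructor
      · rintro ⟨h1, h2⟩
        unfold Nat.ModEq at h2
        rw [Nat.mod_eq_of_lt h1] at h2
        exact h2
      · rintro rfl
        exact ⟨Nat.mod_lt _ (by omega), Nat.mod_modEq _ _⟩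
    rw [this]
    norm_num
  | insert p S hp ih =>
    intro q hq hdq c
    have hpp := hS p (mem_insert_self _ _)
    have hS' : ∀ p' ∈ S, p'.Prime := fun p' h => hS p' (mem_insert_of_mem h)
    have hpq : q.Coprime p := by
      rw [Nat.coprime_comm]
      exact (Nat.Prime.coprime_iff_not_dvd hpp).2 (hdq p (mem_insert_self _ _))
    rw [prod_insert hp, prod_insert hp]
    rw [← mul_assoc]
    have h1 : ∑ n ∈ (range (q * p * ∏ p' ∈ S, p')).filter (fun n => n ≡ c [MOD q]), ∏ p' ∈ insert p S, F p' (n % p') =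
        ∑ a ∈ range p, F p a * ∑ n ∈ (range (q * p * ∏ p' ∈ S, p')).filter
          (fun n => n ≡ (Nat.chineseRemainder hpq c a : ℕ) [MOD (q * p)]), ∏ p' ∈ S, F p' (n % p') := by
      rw [← sum_fiberwise_of_maps_to (g := fun n => n % p) (t := range p) (fun n _ => mem_range.2 (Nat.mod_lt _ hpp.pos))]
      apply sum_congr rfl
      intro a ha
      rw [mem_range] at ha
      rw [mul_sum]
      have e1 : ((range (q * p * ∏ p' ∈ S, p')).filter (fun n => n ≡ c [MOD q])).filter (fun n => n % p = a) =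
          (range (q * p * ∏ p' ∈ S, p')).filter (fun n => n ≡ (Nat.chineseRemainder hpq c a : ℕ) [MOD (q * p)]) := by
        ext n
        simp only [mem_filter]
        have hcr : n ≡ (Nat.chineseRemainder hpq c a : ℕ) [MOD (q * p)] ↔ n ≡ c [MOD q] ∧ n ≡ a [MOD p] := by
          constructor
          · intro h
            have k1 := (Nat.chineseRemainder hpq c a).2.1
            have k2 := (Nat.chineseRemainder hpq c a).2.2
            exact ⟨(h.of_mul_right p).trans k1, (h.of_mul_left q).trans k2⟩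
          · rintro ⟨h1, h2⟩
            exact Nat.chineseRemainder_modEq_unique hpq h1 h2
        have hmod : n ≡ a [MOD p] ↔ n % p = a := by
          unfold Nat.ModEq
          rw [Nat.mod_eq_of_lt ha]
        rw [hcr, hmod]
        tauto
      rw [← e1]
      refine sum_congr rfl fun n hn => ?_
      rw [mem_filter] at hn
      rw [prod_insert hp, hn.2]
    rw [h1, sum_mul]
    refine sum_congr rfl fun a _ => ?_
    congr 1
    apply ih hS' (q * p) (Nat.mul_pos hq hpp.pos)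
    intro p' hp' hd
    have hp'p := hS' p' hp'
    rcases (Nat.Prime.dvd_mul hp'p).1 hd with h | h
    · exact hdq p' (mem_insert_of_mem hp') h
    · rw [Nat.prime_dvd_prime_iff_eq hp'p hpp] at h
      exact hp (h ▸ hp')

theorem crt_sum (F : ℕ → ℕ → ℝ) (S : Finset ℕ) (hS : ∀ p ∈ S, p.Prime) :
    ∑ n ∈ range (∏ p ∈ S, p), ∏ p ∈ S, F p (n % p) = ∏ p ∈ S, ∑ a ∈ range p, F p a := by
  have h := crt_sum_aux F S hS 1 le_rfl (fun p hp hd => (hS p hp).one_lt.ne' (Nat.dvd_one.1 hd)) 0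
  rw [one_mul] at h
  rw [← h]
  congr 1
  rw [filter_true_of_mem]
  intro n _
  exact Nat.modEq_one

/-- periodic functions on the integers -/
def Pdc (p : ℕ) (G : ℤ → ℝ) : Prop := ∀ s t : ℤ, (p : ℤ) ∣ s - t → G s = G t

lemma shift_one (p : ℕ) (G : ℤ → ℝ) (hG : Pdc p G) (c : ℤ) : ∑ a ∈ range p, G (c + 1 + a) = ∑ a ∈ range p, G (c + a) := by
  have h1 := sum_range_succ (fun a : ℕ => G (c + a)) p
  have h2 := sum_range_succ' (fun a : ℕ => G (c + a)) p
  have h3 : G (c + (p : ℕ)) = G (c + ((0 : ℕ) : ℤ)) := hG _ _ (by simp)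
  have h4 : ∑ a ∈ range p, G (c + 1 + a) = ∑ a ∈ range p, G (c + ((a + 1 : ℕ) : ℤ)) := by
    refine sum_congr rfl fun a _ => ?_
    congr 1
    push_cast
    ring
  rw [h4]
  linarith

lemma shift_inv (p : ℕ) (G : ℤ → ℝ) (hG : Pdc p G) (c : ℤ) : ∑ a ∈ range p, G (c + a) = ∑ a ∈ range p, G (a : ℤ) := by
  induction c using Int.induction_on with
  | zero => simp
  | succ n ih => rw [shift_one p G hG, ih]
  | pred n ih =>
    rw [← ih, ← shift_one p G hG (-(n : ℤ) - 1)]
    refine sum_congr rfl fun a _ => ?_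
    congr 1
    ring

lemma crt_int (G : ℕ → ℤ → ℝ) (S : Finset ℕ) (hS : ∀ p ∈ S, p.Prime) (hG : ∀ p ∈ S, Pdc p (G p)) (c : ℤ) :
    ∑ n ∈ range (∏ p ∈ S, p), ∏ p ∈ S, G p (c + n) = ∏ p ∈ S, ∑ a ∈ range p, G p (a : ℤ) := by
  have h1 := crt_sum (fun p a => G p (c + a)) S hS
  have h2 : ∏ p ∈ S, ∑ a ∈ range p, G p (c + a) = ∏ p ∈ S, ∑ a ∈ range p, G p (a : ℤ) :=
    prod_congr rfl fun p hp => shift_inv p (G p) (hG p hp) c
  rw [← h2, ← h1]
  refine sum_congr rfl fun n _ => prod_congr rfl fun p hp => ?_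
  apply hG p hp
  have h3 : (p : ℤ) ∣ (n : ℤ) - ((n % p : ℕ) : ℤ) := by
    rw [Int.natCast_mod]
    exact Int.dvd_self_sub_emod
  have e : c + (n : ℤ) - (c + ((n % p : ℕ) : ℤ)) = (n : ℤ) - ((n % p : ℕ) : ℤ) := by ring
  rw [e]
  exact h3

/-- the sum over a window -/
lemma win_le (G : ℕ → ℤ → ℝ) (S : Finset ℕ) (hS : ∀ p ∈ S, p.Prime) (hG : ∀ p ∈ S, Pdc p (G p))
    (hG0 : ∀ p ∈ S, ∀ t, 0 ≤ G p t) (H : ℕ) :
    ∑ t ∈ Icc (-(H : ℤ)) H, ∏ p ∈ S, G p t ≤ (2 * H + 1 + ((∏ p ∈ S, p : ℕ) : ℝ)) * ∏ p ∈ S, ((∑ a ∈ range p, G p (a : ℤ)) / p) := by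
  set P : ℕ := ∏ p ∈ S, p with hP
  have hP1 : 1 ≤ P := Finset.prod_pos (s := S) (f := fun p => p) (fun p hp => (hS p hp).pos)
  set N : ℕ := 2 * H + 1 with hN
  set J : ℕ := N / P + 1 with hJ
  set Φ : ℤ → ℝ := fun t => ∏ p ∈ S, G p t with hΦ
  have hΦ0 : ∀ t, 0 ≤ Φ t := fun t => prod_nonneg fun p hp => hG0 p hp t
  have h1 : ∑ t ∈ Icc (-(H : ℤ)) H, Φ t = ∑ n ∈ range N, Φ (-(H : ℤ) + n) := by
    refine sum_nbij' (fun t => (t + H).toNat) (fun n => -(H : ℤ) + n) ?_ ?_ ?_ ?_ ?_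
    · intro t ht
      rw [mem_Icc] at ht
      rw [mem_range]
      omega
    · intro n hn
      rw [mem_range] at hn
      rw [mem_Icc]
      omega
    · intro t ht
      rw [mem_Icc] at ht
      omega
    · intro n _
      omega
    · intro t ht
      rw [mem_Icc] at ht
      congr 1
      omega
  have hNJ : N ≤ J * P := by
    have := Nat.div_add_mod N P
    have h2 := Nat.mod_lt N hP1
    rw [hJ, Nat.add_mul, one_mul, mul_comm]
    omega
  have hJN : J * P ≤ N + P := by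
    rw [hJ, Nat.add_mul, one_mul]
    exact Nat.add_le_add_right (Nat.div_mul_le_self N P) P
  have h2 : ∑ n ∈ range N, Φ (-(H : ℤ) + n) ≤ ∑ n ∈ range (J * P), Φ (-(H : ℤ) + n) :=
    sum_le_sum_of_subset_of_nonneg (range_subset_range.2 hNJ) (fun n _ _ => hΦ0 _)
  have h3 : ∀ j : ℕ, ∑ n ∈ range (j * P), Φ (-(H : ℤ) + n) = j * ∏ p ∈ S, ∑ a ∈ range p, G p (a : ℤ) := by
    intro j
    induction j with
    | zero => simp
    | succ j ih =>
      rw [Nat.add_mul, one_mul, sum_range_add, ih]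
      have h4 := crt_int G S hS hG (-(H : ℤ) + (j * P : ℕ))
      have h5 : ∑ x ∈ range P, Φ (-(H : ℤ) + ((j * P + x : ℕ) : ℤ)) = ∏ p ∈ S, ∑ a ∈ range p, G p (a : ℤ) := by
        rw [← h4]
        refine sum_congr rfl fun n _ => ?_
        rw [hΦ]
        simp only
        refine prod_congr rfl fun p _ => ?_
        congr 1
        push_cast
        ring
      rw [h5]
      push_cast
      ring
  rw [show ∑ t ∈ Icc (-(H : ℤ)) H, ∏ p ∈ S, G p t = ∑ t ∈ Icc (-(H : ℤ)) H, Φ t from rfl, h1]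
  refine h2.trans ?_
  rw [h3]
  have h6 : ∏ p ∈ S, ∑ a ∈ range p, G p (a : ℤ) = P * ∏ p ∈ S, ((∑ a ∈ range p, G p (a : ℤ)) / p) := by
    rw [hP]
    push_cast
    rw [← prod_mul_distrib]
    refine prod_congr rfl fun p hp => ?_
    have : (p : ℝ) ≠ 0 := by exact_mod_cast (hS p hp).ne_zero
    field_simp
  rw [h6, ← mul_assoc]
  apply mul_le_mul_of_nonneg_right
  · have : ((J * P : ℕ) : ℝ) ≤ ((N + P : ℕ) : ℝ) := by exact_mod_cast hJN
    push_cast at this
    rw [hN] at this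
    push_cast at this
    exact this
  · exact prod_nonneg fun p hp => div_nonneg (sum_nonneg fun a _ => hG0 p hp _) (Nat.cast_nonneg _)

end Pool.Agent.TP975.RP
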