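import Mathlib
import Pool.Agent.TP975.RP.Mx4
import Pool.Agent.TP975.RP.Mx3

/-!
The moments of the truncated constants.
-/

set_option autoImplicit false

namespace Pool.Agent.TP975.RP

open Finset
open Pool.Agent.H373R2.T7

variable {d : ℕ}

lemma exp_le_quad (y : ℝ) (hy : y ≤ 1) : Real.exp y ≤ 1 + y + y ^ 2 := by
  rcases le_or_gt (-1) y with h | h
  · have h1 := Real.abs_exp_sub_one_sub_id_le (abs_le.2 ⟨h, hy⟩)
    have h2 := (abs_le.1 h1).2
    linarith
  · have h1 : Real.exp y ≤ 1 := Real.exp_le_one_iff.2 (by linarith)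
    nlinarith

/-- the quadratic majorant of the power of a local factor -/
noncomputable def Qf (M p : ℕ) (om : ℝ) : ℝ := 1 + M * ((1 - om) / (p - 1)) + (M : ℝ) ^ 2 * ((1 - om) / (p - 1)) ^ 2

lemma Qf_nonneg (M p : ℕ) (om : ℝ) : 0 ≤ Qf M p om := by
  unfold Qf
  set y := (M : ℝ) * ((1 - om) / (p - 1)) with hy
  have : 1 + y + (M : ℝ) ^ 2 * ((1 - om) / (p - 1)) ^ 2 = 1 + y + y ^ 2 := by rw [hy]; ring
  rw [this]
  nlinarith [sq_nonneg (y + 1 / 2)]

lemma fac_le (M p om : ℕ) (hp : p.Prime) (hM : M < p) (hom : om ≤ p) :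
    ((1 - (om : ℝ) / p) * (1 - 1 / (p : ℝ))⁻¹) ^ M ≤ Qf M p om := by
  have hp2 : (2 : ℝ) ≤ p := by exact_mod_cast hp.two_le
  have hp1 : (0 : ℝ) < (p : ℝ) - 1 := by linarith
  have hp0 : (0 : ℝ) < p := by linarith
  have hMp : (M : ℝ) ≤ p - 1 := by
    have : (M : ℝ) + 1 ≤ p := by exact_mod_cast hM
    linarith
  have homp : (om : ℝ) ≤ p := by exact_mod_cast hom
  have hM0 : (0 : ℝ) ≤ M := Nat.cast_nonneg _
  set ξ := (1 - (om : ℝ)) / (p - 1) with hξ
  have e1 : (1 - (om : ℝ) / p) * (1 - 1 / (p : ℝ))⁻¹ = 1 + ξ := by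
    rw [hξ]
    have h2 : (1 - 1 / (p : ℝ)) = (p - 1) / p := by field_simp
    rw [h2, inv_div]
    field_simp
    ring
  rw [e1]
  have h1 : 0 ≤ 1 + ξ := by
    have : 1 + ξ = (p - om) / (p - 1) := by rw [hξ]; field_simp; ring
    rw [this]
    exact div_nonneg (by linarith) hp1.le
  have h2 : ξ ≤ 1 / (p - 1) := by
    rw [hξ]
    apply div_le_div_of_nonneg_right _ hp1.le
    have : (0 : ℝ) ≤ om := Nat.cast_nonneg _
    linarith
  have h3 : (M : ℝ) * ξ ≤ 1 := by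
    calc (M : ℝ) * ξ ≤ M * (1 / (p - 1)) := mul_le_mul_of_nonneg_left h2 hM0
      _ ≤ (p - 1) * (1 / (p - 1)) := mul_le_mul_of_nonneg_right hMp (by positivity)
      _ = 1 := by field_simp
  calc (1 + ξ) ^ M ≤ (Real.exp ξ) ^ M := by
        apply pow_le_pow_left₀ h1
        have := Real.add_one_le_exp ξ
        linarith
    _ = Real.exp (M * ξ) := by rw [← Real.exp_nat_mul]
    _ ≤ 1 + (M * ξ) + (M * ξ) ^ 2 := exp_le_quad _ h3
    _ = Qf M p om := by unfold Qf; rw [← hξ]; ring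

/-- the number of pairs with the same value -/
def Np (p : ℕ) (r : ℤ → ℤ) : ℕ := ((range p ×ˢ range p).filter (fun q => (p : ℤ) ∣ r (q.1 : ℤ) - r (q.2 : ℤ))).card

/-- the number of solutions of a congruence -/
lemma one_sol (p : ℕ) (hp : 0 < p) (c : ℤ) : ((range p).filter (fun t : ℕ => (p : ℤ) ∣ (t : ℤ) + c)).card = 1 := by
  have hp0 : (0 : ℤ) < p := by exact_mod_cast hp
  rw [card_eq_one]
  refine ⟨((-c) % p).toNat, ?_⟩
  have h1 := Int.emod_nonneg (-c) hp0.ne'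
  have h2 := Int.emod_lt_of_pos (-c) hp0
  ext t
  rw [mem_filter, mem_range, mem_singleton]
  constructor
  · rintro ⟨h3, h4⟩
    have h5 : (t : ℤ) % p = (-c) % p := by
      apply Int.ModEq.symm
      apply (Int.modEq_iff_dvd).2
      have : (t : ℤ) - -c = (t : ℤ) + c := by ring
      rw [this]
      exact h4
    rw [Int.emod_eq_of_lt (by omega) (by omega)] at h5
    omega
  · intro h3
    refine ⟨by omega, ?_⟩
    have h4 : ((t : ℕ) : ℤ) = (-c) % p := by omega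
    rw [h4]
    have h5 := Int.emod_add_mul_ediv (-c) p
    have h6 : (-c) % p + c = -(p * ((-c) / p)) := by linarith
    rw [h6]
    exact (Dvd.intro _ rfl).neg_right

lemma sum_om (p : ℕ) (hp : 0 < p) (r : ℤ → ℤ) :
    ∑ t ∈ range p, (((range p).filter (fun n : ℕ => (p : ℤ) ∣ (t : ℤ) + r n)).card : ℝ) = p := by
  have h1 : ∑ t ∈ range p, (((range p).filter (fun n : ℕ => (p : ℤ) ∣ (t : ℤ) + r n)).card : ℝ) =
      ∑ n ∈ range p, (((range p).filter (fun t : ℕ => (p : ℤ) ∣ (t : ℤ) + r n)).card : ℝ) := by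
    simp only [card_filter]
    push_cast
    rw [sum_comm]
  rw [h1, sum_congr rfl (fun n _ => by rw [one_sol p hp (r n)])]
  simp

lemma sum_om_sq (p : ℕ) (hp : 0 < p) (r : ℤ → ℤ) :
    ∑ t ∈ range p, (((range p).filter (fun n : ℕ => (p : ℤ) ∣ (t : ℤ) + r n)).card : ℝ) ^ 2 = Np p r := by
  classical
  have h1 : ∀ t ∈ range p, (((range p).filter (fun n : ℕ => (p : ℤ) ∣ (t : ℤ) + r n)).card : ℝ) ^ 2 =
      ∑ q ∈ range p ×ˢ range p, (if (p : ℤ) ∣ (t : ℤ) + r q.1 ∧ (p : ℤ) ∣ (t : ℤ) + r q.2 then (1 : ℝ) else 0) := by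
    intro t _
    rw [sq, card_filter]
    push_cast
    rw [sum_mul_sum, ← sum_product']
    refine sum_congr rfl fun q _ => ?_
    split_ifs with h1 h2 h3 h4 h5 <;> first | rfl | (exfalso; tauto) | simp
  rw [sum_congr rfl h1, sum_comm]
  have h2 : ∀ q ∈ range p ×ˢ range p, ∑ t ∈ range p, (if (p : ℤ) ∣ (t : ℤ) + r q.1 ∧ (p : ℤ) ∣ (t : ℤ) + r q.2 then (1 : ℝ) else 0) =
      if (p : ℤ) ∣ r (q.1 : ℤ) - r (q.2 : ℤ) then 1 else 0 := by
    intro q _
    split_ifs with h3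
    · have h4 : ∀ t ∈ range p, (if (p : ℤ) ∣ (t : ℤ) + r q.1 ∧ (p : ℤ) ∣ (t : ℤ) + r q.2 then (1 : ℝ) else 0) =
          if (p : ℤ) ∣ (t : ℤ) + r q.1 then 1 else 0 := by
        intro t _
        apply if_congr _ rfl rfl
        constructor
        · exact fun h => h.1
        · intro h
          refine ⟨h, ?_⟩
          have e : (t : ℤ) + r q.2 = ((t : ℤ) + r q.1) - (r q.1 - r q.2) := by ring
          rw [e]
          exact dvd_sub h h3
      rw [sum_congr rfl h4, sum_boole, one_sol p hp]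
      norm_num
    · apply sum_eq_zero
      intro t _
      rw [if_neg]
      rintro ⟨h4, h5⟩
      apply h3
      have e : r (q.1 : ℤ) - r (q.2 : ℤ) = ((t : ℤ) + r q.1) - ((t : ℤ) + r q.2) := by ring
      rw [e]
      exact dvd_sub h4 h5
  rw [sum_congr rfl h2, sum_boole]
  rfl

/-- the average over the constant coefficient -/
lemma avg0 (M p : ℕ) (hp : p.Prime) (r : ℤ → ℤ) :
    (∑ t ∈ range p, Qf M p ((range p).filter (fun n : ℕ => (p : ℤ) ∣ ((t : ℕ) : ℤ) + r n)).card) / p =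
      1 + (M : ℝ) ^ 2 / (p - 1) ^ 2 * ((Np p r : ℝ) / p - 1) := by
  have hp2 : (2 : ℝ) ≤ p := by exact_mod_cast hp.two_le
  have hp1 : (0 : ℝ) < (p : ℝ) - 1 := by linarith
  have hp0 : (0 : ℝ) < p := by linarith
  have h1 := sum_om p hp.pos r
  have h2 := sum_om_sq p hp.pos r
  set o : ℕ → ℝ := fun t => (((range p).filter (fun n : ℕ => (p : ℤ) ∣ (t : ℤ) + r n)).card : ℝ) with ho
  have h3 : ∑ t ∈ range p, Qf M p (o t) = p + (M : ℝ) ^ 2 / (p - 1) ^ 2 * ((Np p r : ℝ) - p) := by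
    have h4 : ∀ t ∈ range p, Qf M p (o t) = 1 + (M : ℝ) / (p - 1) * (1 - o t) + (M : ℝ) ^ 2 / (p - 1) ^ 2 * (1 - 2 * o t + o t ^ 2) := by
      intro t _
      unfold Qf
      field_simp
      ring
    rw [sum_congr rfl h4, sum_add_distrib, sum_add_distrib, ← mul_sum, ← mul_sum, sum_sub_distrib, sum_add_distrib,
      sum_sub_distrib, ← mul_sum]
    have h5 : ∑ t ∈ range p, o t = p := h1
    have h6 : ∑ t ∈ range p, o t ^ 2 = Np p r := h2
    rw [h5, h6]
    simp only [sum_const, card_range, nsmul_eq_mul, mul_one]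
    ring
  have h4 : (∑ t ∈ range p, Qf M p (((range p).filter (fun n : ℕ => (p : ℤ) ∣ ((t : ℕ) : ℤ) + r n)).card : ℝ)) =
    ∑ t ∈ range p, Qf M p (o t) := rfl
  rw [h4, h3]
  field_simp

/-- the average over the linear coefficient -/
lemma avg1' (M p : ℕ) (hp : p.Prime) (s : ℤ → ℤ) :
    (∑ b ∈ range p, (1 + (M : ℝ) ^ 2 / (p - 1) ^ 2 * ((Np p (fun t => ((b : ℕ) : ℤ) * t + s t) : ℝ) / p - 1))) / p ≤
      1 + (M : ℝ) ^ 2 * (2 / (p : ℝ) ^ 2) := by
  classical
  have hp2 : (2 : ℝ) ≤ p := by exact_mod_cast hp.two_le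
  have hp1 : (0 : ℝ) < (p : ℝ) - 1 := by linarith
  have hp0 : (0 : ℝ) < p := by linarith
  have h1 : ∑ b ∈ range p, (Np p (fun t => ((b : ℕ) : ℤ) * t + s t) : ℝ) ≤ 2 * (p : ℝ) ^ 2 - p := by
    have h2 : ∀ b ∈ range p, (Np p (fun t => ((b : ℕ) : ℤ) * t + s t) : ℝ) =
        ∑ q ∈ range p ×ˢ range p, (if (p : ℤ) ∣ ((b : ℕ) : ℤ) * ((q.1 : ℤ) - q.2) + (s q.1 - s q.2) then (1 : ℝ) else 0) := by
      intro b _
      rw [sum_boole]
      unfold Np
      congr 2
      apply filter_congr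
      intro q _
      have e : ((b : ℕ) : ℤ) * (q.1 : ℤ) + s q.1 - (((b : ℕ) : ℤ) * (q.2 : ℤ) + s q.2) =
          ((b : ℕ) : ℤ) * ((q.1 : ℤ) - q.2) + (s q.1 - s q.2) := by ring
      rw [e]
    rw [sum_congr rfl h2, sum_comm]
    have h3 : ∀ q ∈ range p ×ˢ range p, ∑ b ∈ range p, (if (p : ℤ) ∣ ((b : ℕ) : ℤ) * ((q.1 : ℤ) - q.2) + (s q.1 - s q.2) then (1 : ℝ) else 0) ≤
        1 + (if q.1 = q.2 then (p : ℝ) - 1 else 0) := by
      intro q hq
      rw [mem_product, mem_range, mem_range] at hq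
      rw [sum_boole]
      split_ifs with h4
      · have : ((range p).filter (fun b : ℕ => (p : ℤ) ∣ ((b : ℕ) : ℤ) * ((q.1 : ℤ) - q.2) + (s q.1 - s q.2))).card ≤ p :=
          (card_filter_le _ _).trans (by simp)
        have h5 : (((range p).filter (fun b : ℕ => (p : ℤ) ∣ ((b : ℕ) : ℤ) * ((q.1 : ℤ) - q.2) + (s q.1 - s q.2))).card : ℝ) ≤ p := by
          exact_mod_cast this
        linarith
      · have h5 : ¬ (p : ℤ) ∣ (q.1 : ℤ) - q.2 := by
          intro hc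
          obtain ⟨k, hk⟩ := hc
          have h6 : |(q.1 : ℤ) - q.2| < p := by rw [abs_lt]; omega
          rw [hk, abs_mul, Nat.abs_cast] at h6
          have h7 : |k| < 1 := by
            by_contra hcc
            rw [not_lt] at hcc
            have : (p : ℤ) * 1 ≤ p * |k| := mul_le_mul_of_nonneg_left hcc (by omega)
            omega
          rw [Int.abs_lt_one_iff] at h7
          rw [h7] at hk
          omega
        have h6 : ((range p).filter (fun b : ℕ => (p : ℤ) ∣ ((b : ℕ) : ℤ) * ((q.1 : ℤ) - q.2) + (s q.1 - s q.2))).card ≤ 1 := by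
          rw [card_le_one]
          intro b hb b' hb'
          rw [mem_filter, mem_range] at hb hb'
          have h7 : (p : ℤ) ∣ (((b : ℕ) : ℤ) - b') * ((q.1 : ℤ) - q.2) := by
            have := dvd_sub hb.2 hb'.2
            have e : ((b : ℕ) : ℤ) * ((q.1 : ℤ) - q.2) + (s q.1 - s q.2) - (((b' : ℕ) : ℤ) * ((q.1 : ℤ) - q.2) + (s q.1 - s q.2)) =
              (((b : ℕ) : ℤ) - b') * ((q.1 : ℤ) - q.2) := by ring
            rwa [e] at this
          have hpi : Prime (p : ℤ) := Nat.prime_iff_prime_int.1 hp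
          rcases hpi.dvd_or_dvd h7 with h8 | h8
          · obtain ⟨k, hk⟩ := h8
            have h9 : |(b : ℤ) - b'| < p := by rw [abs_lt]; omega
            rw [hk, abs_mul, Nat.abs_cast] at h9
            have h10 : |k| < 1 := by
              by_contra hcc
              rw [not_lt] at hcc
              have : (p : ℤ) * 1 ≤ p * |k| := mul_le_mul_of_nonneg_left hcc (by omega)
              omega
            rw [Int.abs_lt_one_iff] at h10
            rw [h10] at hk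
            omega
          · exact absurd h8 h5
        have h7 : (((range p).filter (fun b : ℕ => (p : ℤ) ∣ ((b : ℕ) : ℤ) * ((q.1 : ℤ) - q.2) + (s q.1 - s q.2))).card : ℝ) ≤ 1 := by
          exact_mod_cast h6
        linarith
    refine (sum_le_sum h3).trans (le_of_eq ?_)
    rw [sum_add_distrib, sum_const, card_product, card_range, ← sum_filter, sum_const]
    have h4 : ((range p ×ˢ range p).filter (fun q => q.1 = q.2)).card = p := by
      have h5 : (range p ×ˢ range p).filter (fun q => q.1 = q.2) = (range p).image (fun n => (n, n)) := by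
        ext q
        rw [mem_filter, mem_product, mem_image]
        constructor
        · rintro ⟨⟨h6, _⟩, h7⟩
          exact ⟨q.1, h6, Prod.ext rfl h7⟩
        · rintro ⟨n, hn, rfl⟩
          exact ⟨⟨hn, hn⟩, rfl⟩
      rw [h5, card_image_of_injective _ (fun a b h => (Prod.ext_iff.1 h).1), card_range]
    rw [h4, nsmul_eq_mul, nsmul_eq_mul]
    push_cast
    ring
  have h2 : ∑ b ∈ range p, (1 + (M : ℝ) ^ 2 / (p - 1) ^ 2 * ((Np p (fun t => ((b : ℕ) : ℤ) * t + s t) : ℝ) / p - 1)) =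
      p + (M : ℝ) ^ 2 / (p - 1) ^ 2 * ((∑ b ∈ range p, (Np p (fun t => ((b : ℕ) : ℤ) * t + s t) : ℝ)) / p - p) := by
    rw [sum_add_distrib, ← mul_sum, sum_sub_distrib, sum_div]
    simp
  rw [h2, div_le_iff₀ hp0]
  have h3 : (∑ b ∈ range p, (Np p (fun t => ((b : ℕ) : ℤ) * t + s t) : ℝ)) / p - p ≤ p - 1 := by
    rw [sub_le_iff_le_add, div_le_iff₀ hp0]
    calc _ ≤ 2 * (p : ℝ) ^ 2 - p := h1
      _ = _ := by ring
  have h4 : (M : ℝ) ^ 2 / (p - 1) ^ 2 * ((∑ b ∈ range p, (Np p (fun t => ((b : ℕ) : ℤ) * t + s t) : ℝ)) / p - p) ≤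
      (M : ℝ) ^ 2 / (p - 1) ^ 2 * (p - 1) := mul_le_mul_of_nonneg_left h3 (by positivity)
  have h5 : (M : ℝ) ^ 2 / (p - 1) ^ 2 * (p - 1) = (M : ℝ) ^ 2 * (1 / (p - 1)) := by field_simp
  have h6 : 1 / ((p : ℝ) - 1) ≤ 2 / p := by
    rw [div_le_div_iff₀ hp1 hp0]
    linarith
  have h7 : (M : ℝ) ^ 2 * (1 / (p - 1)) ≤ (M : ℝ) ^ 2 * (2 / p) := mul_le_mul_of_nonneg_left h6 (by positivity)
  have h8 : (1 + (M : ℝ) ^ 2 * (2 / (p : ℝ) ^ 2)) * p = p + (M : ℝ) ^ 2 * (2 / p) := by field_simp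
  rw [h8]
  linarith

end Pool.Agent.TP975.RP
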