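import Mathlib
import Pool.Agent.TP975.RP.Mx5

/-!
The moments of the truncated constants: the bound.
-/

set_option autoImplicit false

namespace Pool.Agent.TP975.RP

open Finset
open Pool.Agent.H373R2.T7

variable {d : ℕ}

lemma Ib_sum (H : ℕ) (Φ : ℤ → ℝ) : ∑ b ∈ Ib 1 H, Φ (b 0) = ∑ t ∈ Icc (-(H : ℤ)) H, Φ t := by
  unfold Ib
  refine sum_nbij' (fun b => b 0) (fun t => fun _ => t) ?_ ?_ ?_ ?_ ?_
  · intro b hb
    rw [Fintype.mem_piFinset] at hb
    exact hb 0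
  · intro t ht
    rw [Fintype.mem_piFinset]
    exact fun _ => ht
  · intro b _
    funext i
    rw [Fin.fin_one_eq_zero i]
  · intro t _
    rfl
  · intro b _
    rfl

/-- the average over the constant coefficient -/
noncomputable def Rf (M p : ℕ) (r : ℤ → ℤ) : ℝ := 1 + (M : ℝ) ^ 2 / (p - 1) ^ 2 * ((Np p r : ℝ) / p - 1)

lemma Rf_nonneg (M p : ℕ) (hp : p.Prime) (r : ℤ → ℤ) : 0 ≤ Rf M p r := by
  unfold Rf
  rw [← avg0 M p hp r]
  exact div_nonneg (sum_nonneg fun t _ => Qf_nonneg _ _ _) (Nat.cast_nonneg _)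

lemma card_per (p : ℕ) (r : ℤ → ℤ) (s t : ℤ) (h : (p : ℤ) ∣ s - t) :
    ((range p).filter (fun n : ℕ => (p : ℤ) ∣ s + r n)).card = ((range p).filter (fun n : ℕ => (p : ℤ) ∣ t + r n)).card := by
  congr 1
  apply filter_congr
  intro n _
  have e : s + r n = (s - t) + (t + r n) := by ring
  rw [e]
  exact dvd_add_right h

lemma Np_per (p : ℕ) (σ : ℤ → ℤ) (s t : ℤ) (h : (p : ℤ) ∣ s - t) :
    Np p (fun x => s * x + σ x) = Np p (fun x => t * x + σ x) := by
  unfold Np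
  congr 1
  apply filter_congr
  intro q _
  have e : s * (q.1 : ℤ) + σ q.1 - (s * (q.2 : ℤ) + σ q.2) = (s - t) * ((q.1 : ℤ) - q.2) +
      (t * (q.1 : ℤ) + σ q.1 - (t * (q.2 : ℤ) + σ q.2)) := by ring
  rw [e]
  exact dvd_add_right (Dvd.dvd.mul_right h _)

theorem momC (d M : ℕ) (hd : 1 ≤ d) (hM : 1 ≤ M) (w : ℕ) : ∃ H0 : ℕ, ∀ H : ℕ, H0 ≤ H →
    ∑ a ∈ Bx 1 d H, (C1 w (a 0)) ^ M ≤ (Bx 1 d H).card * (4 * (((Vz M)⁻¹) ^ M * Real.exp (2 * M))) := by
  classical
  refine ⟨4 ^ w, fun H hH => ?_⟩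
  have hVM : 1 ≤ (Vz M)⁻¹ := one_le_Vinv M
  have hVMp : 1 ≤ ((Vz M)⁻¹) ^ M := one_le_pow₀ hVM
  have hexp : 1 ≤ Real.exp (2 * (M : ℝ)) := Real.one_le_exp (by positivity)
  have hcb : ∀ (v : ℕ) (a : Fin 1 → Fin (d + 1) → ℤ), 0 ≤ C1 v (a 0) ∧ C1 v (a 0) ≤ (Vz v)⁻¹ := by
    intro v a
    have := C1w_bd v a 0
    rwa [show C1w v a 0 = C1 v (a 0) from C1_eq a v] at this
  set Bc : ℝ := ((Bx 1 d H).card : ℝ) with hBc
  have hBc0 : 0 ≤ Bc := Nat.cast_nonneg _
  rcases le_or_gt w M with hwM | hwM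
  · calc ∑ a ∈ Bx 1 d H, (C1 w (a 0)) ^ M ≤ ∑ a ∈ Bx 1 d H, ((Vz M)⁻¹) ^ M := by
          refine sum_le_sum fun a _ => ?_
          exact pow_le_pow_left₀ (hcb w a).1 ((hcb w a).2.trans (Vz_anti hwM)) M
      _ = Bc * ((Vz M)⁻¹) ^ M := by rw [sum_const, nsmul_eq_mul]
      _ ≤ _ := by
          apply mul_le_mul_of_nonneg_left _ hBc0
          nlinarith
  · set S := pw M w with hS
    have hSp : ∀ p ∈ S, p.Prime := fun p hp => (mem_pw.1 hp).2.2
    have hSM : ∀ p ∈ S, M < p := fun p hp => (mem_pw.1 hp).1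
    set N : ℝ := 2 * H + 1 with hN
    have hN0 : 0 < N := by positivity
    set P : ℝ := ((∏ p ∈ S, p : ℕ) : ℝ) with hP
    have hPN : P ≤ N := by
      have h1 : P ≤ 4 ^ w := by
        refine le_trans ?_ (prime_prod_le w)
        rw [hP]
        exact_mod_cast prod_le_prod_of_subset_of_one_le' (by
          intro p hp
          rw [mem_pz]
          exact ⟨(mem_pw.1 hp).2.1, (mem_pw.1 hp).2.2⟩) (fun p hp _ => (mem_pz.1 hp).2.one_le)
      have h2 : (4 : ℝ) ^ w ≤ H := by exact_mod_cast hH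
      have h3 : (0 : ℝ) ≤ H := Nat.cast_nonneg _
      linarith
    have hNP : N + P ≤ 2 * N := by linarith
    -- the bound for a single vector
    have hone : ∀ a : Fin 1 → Fin (d + 1) → ℤ, (C1 w (a 0)) ^ M ≤ ((Vz M)⁻¹) ^ M * ∏ p ∈ S, Qf M p (om1 (a 0) p) := by
      intro a
      have h1 : C1 w (a 0) = C1 M (a 0) * ∏ p ∈ S, ((1 - (om1 (a 0) p : ℝ) / p) * (1 - 1 / (p : ℝ))⁻¹) :=
        prod_pz_split M w hwM.le _
      have homp : ∀ p, om1 (a 0) p ≤ p := fun p => (card_filter_le _ _).trans (by simp)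
      rw [h1, mul_pow, ← prod_pow]
      have h2 : ∀ p ∈ S, 0 ≤ ((1 - (om1 (a 0) p : ℝ) / p) * (1 - 1 / (p : ℝ))⁻¹) := by
        intro p hp
        obtain ⟨i1, i2, i3⟩ := inv_bd (hSp p hp).two_le
        apply mul_nonneg
        · have hp0 : (0 : ℝ) < p := by exact_mod_cast (hSp p hp).pos
          rw [sub_nonneg, div_le_one hp0]
          exact_mod_cast homp p
        · exact inv_nonneg.2 i3.le
      apply mul_le_mul
      · exact pow_le_pow_left₀ (hcb M a).1 (hcb M a).2 M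
      · apply prod_le_prod
        · intro p hp
          exact pow_nonneg (h2 p hp) M
        · intro p hp
          exact fac_le M p (om1 (a 0) p) (hSp p hp) (hSM p hp) (homp p)
      · exact prod_nonneg fun p hp => pow_nonneg (h2 p hp) M
      · positivity
    -- the average over the constant coefficient
    have h0 : N * ∑ a ∈ Bx 1 d H, ∏ p ∈ S, Qf M p (om1 (a 0) p) ≤ 2 * N * ∑ a ∈ Bx 1 d H, ∏ p ∈ S, Rf M p (rr 0 (a 0)) := by
      have h1 := resample_c (m := 1) (d := d) (H := H) 0 (fun a => ∏ p ∈ S, Qf M p (om1 (a 0) p))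
      rw [pow_one] at h1
      rw [hN, ← h1, mul_sum]
      refine sum_le_sum fun a _ => ?_
      have h2 : ∑ b ∈ Ib 1 H, ∏ p ∈ S, Qf M p (om1 (setc 0 a b 0) p) =
          ∑ t ∈ Icc (-(H : ℤ)) H, ∏ p ∈ S, Qf M p ((range p).filter (fun n : ℕ => (p : ℤ) ∣ t + rr 0 (a 0) n)).card := by
        rw [← Ib_sum H (fun t => ∏ p ∈ S, Qf M p ((range p).filter (fun n : ℕ => (p : ℤ) ∣ t + rr 0 (a 0) n)).card)]
        refine sum_congr rfl fun b _ => prod_congr rfl fun p _ => ?_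
        congr 2
        unfold om1
        congr 1
        apply filter_congr
        intro n _
        rw [ev_setc]
        simp
      rw [h2]
      have h3 := win_le (fun p t => Qf M p ((range p).filter (fun n : ℕ => (p : ℤ) ∣ t + rr 0 (a 0) n)).card) S hSp
        (fun p _ s t hst => by simp only [card_per p (rr 0 (a 0)) s t hst]) (fun p _ t => Qf_nonneg _ _ _) H
      rw [← hN] at h3 ⊢
      refine h3.trans ?_
      have h4 : ∏ p ∈ S, ((∑ t ∈ range p, Qf M p ((range p).filter (fun n : ℕ => (p : ℤ) ∣ ((t : ℕ) : ℤ) + rr 0 (a 0) n)).card) / p) =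
          ∏ p ∈ S, Rf M p (rr 0 (a 0)) := prod_congr rfl fun p hp => avg0 M p (hSp p hp) _
      rw [h4]
      apply mul_le_mul_of_nonneg_right hNP
      exact prod_nonneg fun p hp => Rf_nonneg M p (hSp p hp) _
    -- the average over the linear coefficient
    set c1 : Fin (d + 1) := ⟨1, by omega⟩ with hc1
    have hc10 : c1 ≠ 0 := by
      rw [hc1]
      intro h
      have := congrArg Fin.val h
      simp at this
    have h1 : N * ∑ a ∈ Bx 1 d H, ∏ p ∈ S, Rf M p (rr 0 (a 0)) ≤ 2 * N * ∑ a ∈ Bx 1 d H, Real.exp (2 * M) := by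
      have h1 := resample_c (m := 1) (d := d) (H := H) c1 (fun a => ∏ p ∈ S, Rf M p (rr 0 (a 0)))
      rw [pow_one] at h1
      rw [hN, ← h1, mul_sum]
      refine sum_le_sum fun a _ => ?_
      have h2 : ∑ b ∈ Ib 1 H, ∏ p ∈ S, Rf M p (rr 0 (setc c1 a b 0)) =
          ∑ t ∈ Icc (-(H : ℤ)) H, ∏ p ∈ S, Rf M p (fun x => t * x + ss c1 (a 0) x) := by
        rw [← Ib_sum H (fun t => ∏ p ∈ S, Rf M p (fun x => t * x + ss c1 (a 0) x))]
        refine sum_congr rfl fun b _ => prod_congr rfl fun p _ => ?_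
        congr 1
        funext x
        rw [rr_setc1 c1 hc10]
        simp [hc1]
      rw [h2]
      have h3 := win_le (fun p t => Rf M p (fun x => t * x + ss c1 (a 0) x)) S hSp
        (fun p _ s t hst => by simp only [Rf, Np_per p (ss c1 (a 0)) s t hst]) (fun p hp t => Rf_nonneg M p (hSp p hp) _) H
      rw [← hN] at h3 ⊢
      refine h3.trans ?_
      apply mul_le_mul hNP _ (prod_nonneg fun p hp => div_nonneg (sum_nonneg fun t _ => Rf_nonneg M p (hSp p hp) _)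
        (Nat.cast_nonneg _)) (by linarith)
      calc ∏ p ∈ S, ((∑ t ∈ range p, Rf M p (fun x => ((t : ℕ) : ℤ) * x + ss c1 (a 0) x)) / p)
          ≤ ∏ p ∈ S, Real.exp ((M : ℝ) ^ 2 * (2 / (p : ℝ) ^ 2)) := by
            apply prod_le_prod
            · intro p hp
              exact div_nonneg (sum_nonneg fun t _ => Rf_nonneg M p (hSp p hp) _) (Nat.cast_nonneg _)
            · intro p hp
              have h5 := avg1' M p (hSp p hp) (ss c1 (a 0))
              have h6 := Real.add_one_le_exp ((M : ℝ) ^ 2 * (2 / (p : ℝ) ^ 2))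
              have h7 : (∑ t ∈ range p, Rf M p (fun x => ((t : ℕ) : ℤ) * x + ss c1 (a 0) x)) / p ≤
                1 + (M : ℝ) ^ 2 * (2 / (p : ℝ) ^ 2) := h5
              linarith
        _ = Real.exp (∑ p ∈ S, (M : ℝ) ^ 2 * (2 / (p : ℝ) ^ 2)) := (Real.exp_sum _ _).symm
        _ ≤ Real.exp (2 * M) := by
            apply Real.exp_le_exp.2
            have h5 := sum_pw_inv_sq M w hM
            have h6 : ∑ p ∈ S, (M : ℝ) ^ 2 * (2 / (p : ℝ) ^ 2) = 2 * (M : ℝ) ^ 2 * ∑ p ∈ S, 1 / (p : ℝ) ^ 2 := by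
              rw [mul_sum]
              refine sum_congr rfl fun p _ => ?_
              ring
            rw [h6]
            have hM0 : (0 : ℝ) < M := by exact_mod_cast hM
            calc 2 * (M : ℝ) ^ 2 * ∑ p ∈ S, 1 / (p : ℝ) ^ 2 ≤ 2 * (M : ℝ) ^ 2 * (1 / M) :=
                  mul_le_mul_of_nonneg_left h5 (by positivity)
              _ = 2 * M := by field_simp
    have h2 : ∑ a ∈ Bx 1 d H, ∏ p ∈ S, Qf M p (om1 (a 0) p) ≤ 4 * (Bc * Real.exp (2 * M)) := by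
      rw [sum_const, nsmul_eq_mul] at h1
      have h3 : N * ∑ a ∈ Bx 1 d H, ∏ p ∈ S, Qf M p (om1 (a 0) p) ≤ N * (4 * (Bc * Real.exp (2 * M))) := by
        refine h0.trans ?_
        have h4 := mul_le_mul_of_nonneg_left h1 (show (0 : ℝ) ≤ 2 by norm_num)
        calc 2 * N * ∑ a ∈ Bx 1 d H, ∏ p ∈ S, Rf M p (rr 0 (a 0)) = 2 * (N * ∑ a ∈ Bx 1 d H, ∏ p ∈ S, Rf M p (rr 0 (a 0))) := by ring
          _ ≤ _ := h4
          _ = _ := by ring
      exact le_of_mul_le_mul_left h3 hN0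
    calc ∑ a ∈ Bx 1 d H, (C1 w (a 0)) ^ M ≤ ∑ a ∈ Bx 1 d H, ((Vz M)⁻¹) ^ M * ∏ p ∈ S, Qf M p (om1 (a 0) p) :=
          sum_le_sum fun a _ => hone a
      _ = ((Vz M)⁻¹) ^ M * ∑ a ∈ Bx 1 d H, ∏ p ∈ S, Qf M p (om1 (a 0) p) := by rw [mul_sum]
      _ ≤ ((Vz M)⁻¹) ^ M * (4 * (Bc * Real.exp (2 * M))) := mul_le_mul_of_nonneg_left h2 (by linarith)
      _ = _ := by ring

end Pool.Agent.TP975.RP
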