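import Mathlib

/-!
Inequalities of Bonferroni for counting functions and for the exponential function.
-/

set_option autoImplicit false

namespace Pool.Agent.TP975.RP

open Finset

/-- the remainder of the exponential series with alternating signs -/
noncomputable def rexp (n : ℕ) (x : ℝ) : ℝ := (-1) ^ n * (Real.exp (-x) - ∑ i ∈ range n, (-x) ^ i / (i.factorial : ℝ))

lemma rexp_zero (x : ℝ) : rexp 0 x = Real.exp (-x) := by simp [rexp]

lemma rexp_succ (n : ℕ) (x : ℝ) : rexp (n + 1) x = x ^ n / (n.factorial : ℝ) - rexp n x := by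
  unfold rexp
  rw [sum_range_succ, pow_succ]
  have h1 : (-x) ^ n = (-1) ^ n * x ^ n := by rw [← mul_pow]; congr 1; ring
  have h2 : ((-1 : ℝ) ^ n) * (-1) ^ n = 1 := by rw [← mul_pow]; norm_num
  rw [h1]
  have h3 : (-1 : ℝ) ^ n * -1 * (Real.exp (-x) - (∑ i ∈ range n, (-x) ^ i / (i.factorial : ℝ) + (-1) ^ n * x ^ n / (n.factorial : ℝ))) =
      ((-1 : ℝ) ^ n * (-1) ^ n) * (x ^ n / (n.factorial : ℝ)) - (-1) ^ n * (Real.exp (-x) - ∑ i ∈ range n, (-x) ^ i / (i.factorial : ℝ)) := by ring
  rw [h3, h2, one_mul]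

lemma rexp_at_zero (n : ℕ) : rexp (n + 1) 0 = 0 := by
  unfold rexp
  rw [sum_range_succ']
  simp

lemma rexp_deriv (n : ℕ) (x : ℝ) : HasDerivAt (rexp (n + 1)) (rexp n x) x := by
  have h1 : HasDerivAt (fun x : ℝ => Real.exp (-x)) (-Real.exp (-x)) x := by
    have := (hasDerivAt_neg x).exp
    simpa using this
  have h2 : HasDerivAt (fun x : ℝ => ∑ i ∈ range (n + 1), (-x) ^ i / (i.factorial : ℝ))
      (-∑ i ∈ range n, (-x) ^ i / (i.factorial : ℝ)) x := by
    have h3 : HasDerivAt (fun x : ℝ => ∑ i ∈ range (n + 1), (-x) ^ i / (i.factorial : ℝ))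
        (∑ i ∈ range (n + 1), ((i : ℝ) * (-x) ^ (i - 1) * (-1)) / (i.factorial : ℝ)) x := by
      apply HasDerivAt.fun_sum
      intro i _
      apply HasDerivAt.div_const
      exact (hasDerivAt_neg x).pow i
    rw [sum_range_succ'] at h3
    convert h3 using 1
    simp only [Nat.cast_zero, zero_mul, zero_div, add_zero, Nat.add_sub_cancel]
    rw [← sum_neg_distrib]
    refine sum_congr rfl fun i _ => ?_
    rw [Nat.factorial_succ]
    push_cast
    have : (i.factorial : ℝ) ≠ 0 := by exact_mod_cast i.factorial_ne_zero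
    have h4 : (i : ℝ) + 1 ≠ 0 := by positivity
    field_simp
  have h3 := (h1.sub h2).const_mul ((-1 : ℝ) ^ (n + 1))
  have e1 : rexp n x = (-1 : ℝ) ^ (n + 1) * (-Real.exp (-x) - -∑ i ∈ range n, (-x) ^ i / (i.factorial : ℝ)) := by
    unfold rexp
    rw [pow_succ]
    ring
  rw [e1]
  exact h3

lemma rexp_nonneg (n : ℕ) : ∀ x : ℝ, 0 ≤ x → 0 ≤ rexp n x := by
  induction n with
  | zero =>
    intro x _
    rw [rexp_zero]
    exact (Real.exp_pos _).le
  | succ n ih =>
    intro x hx
    have hmono : MonotoneOn (rexp (n + 1)) (Set.Ici 0) := by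
      apply monotoneOn_of_deriv_nonneg (convex_Ici 0)
      · exact fun y _ => (rexp_deriv n y).continuousAt.continuousWithinAt
      · exact fun y _ => (rexp_deriv n y).differentiableAt.differentiableWithinAt
      · intro y hy
        rw [interior_Ici] at hy
        rw [(rexp_deriv n y).deriv]
        exact ih y (le_of_lt hy)
    have h1 := hmono (Set.mem_Ici.2 le_rfl) (Set.mem_Ici.2 hx) hx
    rw [rexp_at_zero] at h1
    exact h1

lemma rexp_le (n : ℕ) (x : ℝ) (hx : 0 ≤ x) : rexp n x ≤ x ^ n / (n.factorial : ℝ) := by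
  have h1 := rexp_nonneg (n + 1) x hx
  rw [rexp_succ] at h1
  linarith

/-- the exponential function -/
lemma exp_bonf (n : ℕ) (x : ℝ) (hx : 0 ≤ x) :
    |Real.exp (-x) - ∑ i ∈ range n, (-1) ^ i * x ^ i / (i.factorial : ℝ)| ≤ x ^ n / (n.factorial : ℝ) := by
  have h1 := rexp_nonneg n x hx
  have h2 := rexp_le n x hx
  have e : ∑ i ∈ range n, (-1) ^ i * x ^ i / (i.factorial : ℝ) = ∑ i ∈ range n, (-x) ^ i / (i.factorial : ℝ) := by
    refine sum_congr rfl fun i _ => ?_
    rw [← mul_pow]
    congr 2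
    ring
  rw [e]
  have h3 : |rexp n x| = |Real.exp (-x) - ∑ i ∈ range n, (-x) ^ i / (i.factorial : ℝ)| := by
    unfold rexp
    rw [abs_mul, abs_pow, abs_neg, abs_one, one_pow, one_mul]
  rw [← h3, abs_of_nonneg h1]
  exact h2

/-- the Poisson probabilities -/
lemma poi_bonf (j n : ℕ) (x : ℝ) (hx : 0 ≤ x) :
    |Real.exp (-x) * x ^ j / (j.factorial : ℝ) - ∑ i ∈ range n, (-1) ^ i * x ^ (j + i) / ((j.factorial : ℝ) * i.factorial)| ≤
      x ^ (j + n) / ((j.factorial : ℝ) * n.factorial) := by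
  have h1 := exp_bonf n x hx
  have hj : (0 : ℝ) < j.factorial := by exact_mod_cast j.factorial_pos
  have hxj : 0 ≤ x ^ j / (j.factorial : ℝ) := by positivity
  have e1 : Real.exp (-x) * x ^ j / (j.factorial : ℝ) - ∑ i ∈ range n, (-1) ^ i * x ^ (j + i) / ((j.factorial : ℝ) * i.factorial) =
      x ^ j / (j.factorial : ℝ) * (Real.exp (-x) - ∑ i ∈ range n, (-1) ^ i * x ^ i / (i.factorial : ℝ)) := by
    rw [mul_sub, mul_sum]
    congr 1
    · ring
    · refine sum_congr rfl fun i _ => ?_
      have : (i.factorial : ℝ) ≠ 0 := by exact_mod_cast i.factorial_ne_zero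
      rw [pow_add]
      field_simp
  rw [e1, abs_mul, abs_of_nonneg hxj]
  calc _ ≤ x ^ j / (j.factorial : ℝ) * (x ^ n / (n.factorial : ℝ)) := mul_le_mul_of_nonneg_left h1 hxj
    _ = _ := by rw [pow_add]; ring

/-- the tail of the Poisson distribution -/
lemma poi_tail (S : Finset ℕ) (M : ℕ) (hS : ∀ j ∈ S, M ≤ j) (x : ℝ) (hx : 0 ≤ x) :
    ∑ j ∈ S, Real.exp (-x) * x ^ j / (j.factorial : ℝ) ≤ x ^ M / (M.factorial : ℝ) := by
  classical
  have h1 : ∀ j ∈ S, Real.exp (-x) * x ^ j / (j.factorial : ℝ) ≤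
      Real.exp (-x) * (x ^ M / (M.factorial : ℝ)) * (x ^ (j - M) / ((j - M).factorial : ℝ)) := by
    intro j hj
    have hMj := hS j hj
    obtain ⟨i, rfl⟩ := Nat.exists_eq_add_of_le hMj
    rw [Nat.add_sub_cancel_left]
    have h2 : (M.factorial : ℝ) * i.factorial ≤ ((M + i).factorial : ℝ) := by
      exact_mod_cast Nat.le_of_dvd (Nat.factorial_pos _) (Nat.factorial_mul_factorial_dvd_factorial_add M i)
    have h3 : (0 : ℝ) < (M.factorial : ℝ) * i.factorial := by
      have := M.factorial_pos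
      have := i.factorial_pos
      positivity
    have e : Real.exp (-x) * (x ^ M / (M.factorial : ℝ)) * (x ^ i / (i.factorial : ℝ)) =
        Real.exp (-x) * x ^ (M + i) / ((M.factorial : ℝ) * i.factorial) := by
      rw [pow_add]
      field_simp
    rw [e]
    apply div_le_div_of_nonneg_left _ h3 h2
    positivity
  refine (sum_le_sum h1).trans ?_
  rw [← mul_sum]
  have h2 : ∑ j ∈ S, x ^ (j - M) / ((j - M).factorial : ℝ) ≤ Real.exp x := by
    have h3 : ∑ j ∈ S, x ^ (j - M) / ((j - M).factorial : ℝ) = ∑ i ∈ S.image (fun j => j - M), x ^ i / (i.factorial : ℝ) := by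
      rw [sum_image]
      intro a ha b hb hab
      have := hS a ha
      have := hS b hb
      simp only at hab
      omega
    rw [h3]
    have h4 : S.image (fun j => j - M) ⊆ range ((S.image (fun j => j - M)).sup id + 1) := by
      intro i hi
      rw [mem_range]
      have : i ≤ (S.image (fun j => j - M)).sup id := le_sup (f := id) hi
      omega
    refine (sum_le_sum_of_subset_of_nonneg h4 (fun i _ _ => by positivity)).trans ?_
    exact Real.sum_le_exp_of_nonneg hx _
  have h3 : 0 ≤ Real.exp (-x) * (x ^ M / (M.factorial : ℝ)) := by positivity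
  calc Real.exp (-x) * (x ^ M / (M.factorial : ℝ)) * ∑ j ∈ S, x ^ (j - M) / ((j - M).factorial : ℝ)
      ≤ Real.exp (-x) * (x ^ M / (M.factorial : ℝ)) * Real.exp x := mul_le_mul_of_nonneg_left h2 h3
    _ = (Real.exp (-x) * Real.exp x) * (x ^ M / (M.factorial : ℝ)) := by ring
    _ = x ^ M / (M.factorial : ℝ) := by rw [← Real.exp_add]; simp

/-- the inequalities of Bonferroni -/
lemma cnt_bonf (N j n : ℕ) (hn : 1 ≤ n) :
    |(if N = j then (1 : ℝ) else 0) - ∑ i ∈ range n, (-1) ^ i * (N.descFactorial (j + i) : ℝ) / ((j.factorial : ℝ) * i.factorial)| ≤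
      (N.descFactorial (j + n) : ℝ) / ((j.factorial : ℝ) * n.factorial) := by
  have hterm : ∀ i : ℕ, j ≤ N → (N.descFactorial (j + i) : ℝ) / ((j.factorial : ℝ) * i.factorial) = (N.choose j : ℝ) * ((N - j).choose i : ℝ) := by
    intro i hj
    have h1 : N.descFactorial (j + i) = j.factorial * i.factorial * (N.choose j * (N - j).choose i) := by
      have h2 := Nat.choose_mul (n := N) (k := j + i) (s := j) (Nat.le_add_right j i)
      rw [Nat.add_sub_cancel_left] at h2
      rw [← h2, Nat.descFactorial_eq_factorial_mul_choose]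
      have h3 := Nat.choose_mul_factorial_mul_factorial (Nat.le_add_right j i)
      rw [Nat.add_sub_cancel_left] at h3
      rw [← h3]
      ring
    rw [h1]
    push_cast
    have hj0 : (j.factorial : ℝ) ≠ 0 := by exact_mod_cast j.factorial_ne_zero
    have hi0 : (i.factorial : ℝ) ≠ 0 := by exact_mod_cast i.factorial_ne_zero
    field_simp
  rcases lt_or_ge N j with hNj | hNj
  · have h0 : ∀ i, N.descFactorial (j + i) = 0 := fun i => Nat.descFactorial_eq_zero_iff_lt.2 (by omega)
    rw [if_neg (by omega)]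
    simp [h0]
  · have e1 : ∑ i ∈ range n, (-1) ^ i * (N.descFactorial (j + i) : ℝ) / ((j.factorial : ℝ) * i.factorial) =
        (N.choose j : ℝ) * ∑ i ∈ range n, (-1) ^ i * ((N - j).choose i : ℝ) := by
      rw [mul_sum]
      refine sum_congr rfl fun i _ => ?_
      rw [mul_div_assoc, hterm i hNj]
      ring
    rw [e1, hterm n hNj]
    obtain ⟨t, rfl⟩ := Nat.exists_eq_add_of_le hNj
    rw [Nat.add_sub_cancel_left]
    rcases Nat.eq_zero_or_pos t with h | h
    · subst h
      rw [add_zero, if_pos rfl, Nat.choose_self]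
      obtain ⟨n', rfl⟩ := Nat.exists_eq_add_of_le hn
      rw [add_comm 1 n', sum_range_succ']
      simp
    · rw [if_neg (by omega)]
      obtain ⟨s, rfl⟩ := Nat.exists_eq_add_of_le h
      obtain ⟨n', rfl⟩ := Nat.exists_eq_add_of_le hn
      have h1 := @Int.alternating_sum_range_choose_eq_choose s n'
      have h2 : ∑ i ∈ range (1 + n'), (-1 : ℝ) ^ i * ((1 + s).choose i : ℝ) = (-1) ^ n' * (s.choose n' : ℝ) := by
        rw [add_comm 1 n', add_comm 1 s]
        exact_mod_cast h1
      rw [show Nat.succ 0 + s = 1 + s from by omega, show Nat.succ 0 + n' = 1 + n' from by omega] at *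
      rw [h2, zero_sub, abs_neg, abs_mul, abs_mul, abs_pow, abs_neg, abs_one, one_pow, one_mul, Nat.abs_cast, Nat.abs_cast]
      apply mul_le_mul_of_nonneg_left _ (Nat.cast_nonneg _)
      rw [add_comm 1 s, add_comm 1 n', Nat.choose_succ_succ]
      push_cast
      have : (0 : ℝ) ≤ s.choose (n' + 1) := Nat.cast_nonneg _
      linarith

end Pool.Agent.TP975.RP
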