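import Mathlib
import Pool.Agent.TP975.RP.Mx6
import Pool.Agent.TP975.RP.Mx7

/-!
The mixed Poisson law for the number of prime values of random polynomials of large degree.
-/

set_option autoImplicit false

namespace Pool.Agent.TP975.RP

open Finset
open Pool.Agent.H373R2.T7

variable {d : ℕ}

theorem momAll (d : ℕ) (hd : 1 ≤ d) (lam : ℝ) (hlam : 0 < lam) (δ : ℝ) (hδ : 0 < δ) :
    ∃ w0 : ℕ, ∀ w : ℕ, w0 ≤ w → ∃ H0 : ℕ, ∀ H : ℕ, H0 ≤ H → ∀ r : ℕ, r ≤ 2 * d + 1 →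
    |∑ f ∈ QQ d H, ((pi1 f ⌊lam * Real.log H⌋₊).descFactorial r : ℝ) - ∑ f ∈ QQ d H, (lam * C1 w f) ^ r| ≤
      δ * (QQ d H).card := by
  have h1 : ∀ r : ℕ, ∃ w0 : ℕ, r ≤ 2 * d + 1 → ∀ w : ℕ, w0 ≤ w → ∃ H0 : ℕ, ∀ H : ℕ, H0 ≤ H →
    |∑ f ∈ QQ d H, ((pi1 f ⌊lam * Real.log H⌋₊).descFactorial r : ℝ) - ∑ f ∈ QQ d H, (lam * C1 w f) ^ r| ≤
      δ * (QQ d H).card := by
    intro r
    by_cases hr : r ≤ 2 * d + 1
    · obtain ⟨w0, hw0⟩ := mom d r hd hr lam hlam δ hδ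
      exact ⟨w0, fun _ => hw0⟩
    · exact ⟨0, fun h => absurd h hr⟩
  choose w0 hw0 using h1
  refine ⟨(range (2 * d + 2)).sup w0, fun w hw => ?_⟩
  have h2 : ∀ r : ℕ, ∃ H0 : ℕ, r ≤ 2 * d + 1 → ∀ H : ℕ, H0 ≤ H →
    |∑ f ∈ QQ d H, ((pi1 f ⌊lam * Real.log H⌋₊).descFactorial r : ℝ) - ∑ f ∈ QQ d H, (lam * C1 w f) ^ r| ≤
      δ * (QQ d H).card := by
    intro r
    by_cases hr : r ≤ 2 * d + 1
    · obtain ⟨H0, h0⟩ := hw0 r hr w ((le_sup (f := w0) (mem_range.2 (by omega))).trans hw)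
      exact ⟨H0, fun _ => h0⟩
    · exact ⟨0, fun h => absurd h hr⟩
  choose H0 h0 using h2
  refine ⟨(range (2 * d + 2)).sup H0, fun H hH r hr => ?_⟩
  exact h0 r hr H ((le_sup (f := H0) (mem_range.2 (by omega))).trans hH)

lemma lim_small (lam : ℝ) (hlam : 0 < lam) (ε : ℝ) (hε : 0 < ε) : ∃ M0 : ℕ, ∀ M : ℕ, M0 ≤ M →
    2 * (lam ^ M * (4 * (((Vz M)⁻¹) ^ M * Real.exp (2 * M)))) * (2 ^ (M + 1) / (M.factorial : ℝ)) ≤ ε := by
  obtain ⟨M1, h1⟩ := V_lt 1 (4 * lam * Real.exp 3)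
  obtain ⟨M2, h2⟩ := exists_pow_lt_of_lt_one (show 0 < ε / 16 by positivity) (show (1 / 2 : ℝ) < 1 by norm_num)
  refine ⟨max M1 (max M2 1), fun M hM => ?_⟩
  have a1 := h1 M (le_trans (le_max_left _ _) hM)
  have a2 : M2 ≤ M := le_trans (le_trans (le_max_left _ _) (le_max_right _ _)) hM
  have a3 : 1 ≤ M := le_trans (le_trans (le_max_right _ _) (le_max_right _ _)) hM
  rw [pow_one] at a1
  have hM0 : (0 : ℝ) < M := by exact_mod_cast a3
  set V := (Vz M)⁻¹ with hV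
  have hV1 : 1 ≤ V := one_le_Vinv M
  have hf : (0 : ℝ) < M.factorial := by exact_mod_cast M.factorial_pos
  set b : ℝ := 2 * lam * Real.exp 2 * V with hb
  have hb0 : 0 < b := by positivity
  have e1 : 2 * (lam ^ M * (4 * (V ^ M * Real.exp (2 * M)))) * (2 ^ (M + 1) / (M.factorial : ℝ)) = 16 * (b ^ M / (M.factorial : ℝ)) := by
    have e2 : Real.exp (2 * (M : ℝ)) = Real.exp 2 ^ M := by rw [← Real.exp_nat_mul]; congr 1; ring
    rw [e2, hb, mul_pow, mul_pow, mul_pow, pow_succ]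
    ring
  rw [e1]
  have h3 : (M : ℝ) ^ M / (M.factorial : ℝ) ≤ Real.exp M := Real.pow_div_factorial_le_exp (M : ℝ) (Nat.cast_nonneg _) M
  have h4 : b ^ M / (M.factorial : ℝ) ≤ (Real.exp 1 * b / M) ^ M := by
    have e3 : b ^ M / (M.factorial : ℝ) = (b / M) ^ M * ((M : ℝ) ^ M / (M.factorial : ℝ)) := by
      rw [div_pow]
      field_simp
    rw [e3]
    calc (b / M) ^ M * ((M : ℝ) ^ M / (M.factorial : ℝ)) ≤ (b / M) ^ M * Real.exp M :=
          mul_le_mul_of_nonneg_left h3 (by positivity)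
      _ = (Real.exp 1 * b / M) ^ M := by
          have e2 : Real.exp (M : ℝ) = Real.exp 1 ^ M := by rw [← Real.exp_nat_mul]; congr 1; ring
          rw [e2, ← mul_pow]
          congr 1
          ring
  have h5 : Real.exp 1 * b / M ≤ 1 / 2 := by
    rw [div_le_iff₀ hM0]
    have e2 : Real.exp 3 = Real.exp 1 * Real.exp 2 := by rw [← Real.exp_add]; norm_num
    rw [e2] at a1
    rw [hb]
    linarith
  have h6 : (Real.exp 1 * b / M) ^ M ≤ (1 / 2) ^ M := pow_le_pow_left₀ (by positivity) h5 M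
  have h7 : (1 / 2 : ℝ) ^ M ≤ (1 / 2) ^ M2 := pow_le_pow_of_le_one (by norm_num) (by norm_num) a2
  linarith

/-- the bound for the distance in total variation -/
noncomputable def lawErr (lam : ℝ) (d : ℕ) : ℝ :=
  16 * (2 * Real.exp 2 * lam * ∏ p ∈ (Icc 1 (2 * d + 1)).filter Nat.Prime, (1 - 1 / (p : ℝ))⁻¹) ^ (2 * d + 1) /
    ((2 * d + 1).factorial : ℝ)

lemma lawErr_eq (lam : ℝ) (d : ℕ) : lawErr lam d =
    2 * (lam ^ (2 * d + 1) * (4 * (((Vz (2 * d + 1))⁻¹) ^ (2 * d + 1) * Real.exp (2 * (2 * d + 1 : ℕ))))) *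
      (2 ^ (2 * d + 1 + 1) / ((2 * d + 1).factorial : ℝ)) := by
  unfold lawErr
  have e3 : (∏ p ∈ (Icc 1 (2 * d + 1)).filter Nat.Prime, (1 - 1 / (p : ℝ))⁻¹) = (Vz (2 * d + 1))⁻¹ := by
    unfold Vz pz
    rw [prod_inv_distrib]
  rw [e3]
  set M := 2 * d + 1 with hM
  have e2 : Real.exp (2 * (M : ℝ)) = Real.exp 2 ^ M := by rw [← Real.exp_nat_mul]; congr 1; ring
  rw [e2, mul_pow, mul_pow, mul_pow, pow_succ]
  ring

lemma lawErr_tendsto (lam : ℝ) (hlam : 0 < lam) : Filter.Tendsto (lawErr lam) Filter.atTop (nhds 0) := by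
  rw [Metric.tendsto_atTop]
  intro ε hε
  obtain ⟨M0, hM0⟩ := lim_small lam hlam (ε / 2) (by positivity)
  refine ⟨M0, fun d hd => ?_⟩
  have h1 := hM0 (2 * d + 1) (by omega)
  rw [← lawErr_eq] at h1
  have h2 : 0 ≤ lawErr lam d := by
    unfold lawErr
    have : 0 ≤ ∏ p ∈ (Icc 1 (2 * d + 1)).filter Nat.Prime, (1 - 1 / (p : ℝ))⁻¹ := by
      refine prod_nonneg fun p hp => inv_nonneg.2 ?_
      obtain ⟨i1, i2, i3⟩ := inv_bd (mem_filter.1 hp).2.two_le
      exact i3.le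
    positivity
  rw [Real.dist_eq, sub_zero, abs_of_nonneg h2]
  linarith

theorem law (d : ℕ) (hd1 : 1 ≤ d) (lam : ℝ) (hlam : 0 < lam) (ε : ℝ) (hε : 0 < ε) : ∃ w0 : ℕ, ∀ w : ℕ, w0 ≤ w →
    ∃ H0 : ℕ, ∀ H : ℕ, H0 ≤ H → ∀ S : Finset ℕ,
    |(((QQ d H).filter (fun f => pi1 f ⌊lam * Real.log H⌋₊ ∈ S)).card : ℝ) -
      ∑ f ∈ QQ d H, ∑ j ∈ S, Real.exp (-(lam * C1 w f)) * (lam * C1 w f) ^ j / (j.factorial : ℝ)| ≤
      (lawErr lam d + ε) * (QQ d H).card := by
  classical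
  rw [lawErr_eq]
  set M : ℕ := 2 * d + 1 with hMd
  have hMf : (0 : ℝ) < M.factorial := by exact_mod_cast M.factorial_pos
  have hMf1 : (1 : ℝ) ≤ M.factorial := by exact_mod_cast M.factorial_pos
  set δ : ℝ := ε / (9 + 2 ^ (M + 1)) with hδd
  have hδ : 0 < δ := by positivity
  obtain ⟨w0, hw0⟩ := momAll d hd1 lam hlam δ hδ
  refine ⟨w0, fun w hw => ?_⟩
  obtain ⟨H1, h1⟩ := hw0 w hw
  obtain ⟨H2, h2⟩ := momC d M hd1 (by omega) w
  refine ⟨max H1 H2, fun H hH S => ?_⟩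
  have hmom := h1 H (le_trans (le_max_left _ _) hH)
  have hC := h2 H (le_trans (le_max_right _ _) hH)
  rw [sum_one (fun f => (C1 w f) ^ M)] at hC
  have hcard : ((Bx 1 d H).card : ℝ) = (QQ d H).card := by rw [card_Bx, card_QQ, mul_one]
  rw [hcard] at hC
  set Qc : ℝ := ((QQ d H).card : ℝ) with hQc
  have hQc0 : 0 ≤ Qc := Nat.cast_nonneg _
  set N : (Fin (d + 1) → ℤ) → ℕ := fun f => pi1 f ⌊lam * Real.log H⌋₊ with hN
  set x : (Fin (d + 1) → ℤ) → ℝ := fun f => lam * C1 w f with hx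
  have hx0 : ∀ f, 0 ≤ x f := by
    intro f
    have := (C1w_bd w (fun _ : Fin 1 => f) 0).1
    rw [show C1w w (fun _ : Fin 1 => f) 0 = C1 w f from C1_eq (fun _ : Fin 1 => f) w] at this
    exact mul_nonneg hlam.le this
  set D : ℕ → ℝ := fun r => ∑ f ∈ QQ d H, ((N f).descFactorial r : ℝ) with hD
  set X : ℕ → ℝ := fun r => ∑ f ∈ QQ d H, (x f) ^ r with hX
  have hDX : ∀ r ≤ M, |D r - X r| ≤ δ * Qc := fun r hr => hmom r hr
  set μ : ℝ := lam ^ M * (4 * (((Vz M)⁻¹) ^ M * Real.exp (2 * M))) with hμ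
  have hXM : X M ≤ μ * Qc := by
    have e1 : X M = lam ^ M * ∑ f ∈ QQ d H, (C1 w f) ^ M := by
      rw [hX, mul_sum]
      refine sum_congr rfl fun f _ => ?_
      rw [hx, mul_pow]
    rw [e1, hμ]
    calc lam ^ M * ∑ f ∈ QQ d H, (C1 w f) ^ M ≤ lam ^ M * (Qc * (4 * (((Vz M)⁻¹) ^ M * Real.exp (2 * M)))) :=
          mul_le_mul_of_nonneg_left hC (by positivity)
      _ = _ := by ring
  have hX0 : 0 ≤ X M := sum_nonneg fun f _ => pow_nonneg (hx0 f) M
  have hD0 : 0 ≤ D M := sum_nonneg fun f _ => Nat.cast_nonneg _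
  have hDM : D M ≤ (μ + δ) * Qc := by
    have := (abs_le.1 (hDX M le_rfl)).2
    linarith
  -- the two parts
  set S1 := S.filter (fun j => j < M) with hS1
  set S2 := S.filter (fun j => ¬ j < M) with hS2
  have e0 : (((QQ d H).filter (fun f => pi1 f ⌊lam * Real.log H⌋₊ ∈ S)).card : ℝ) -
      ∑ f ∈ QQ d H, ∑ j ∈ S, Real.exp (-(lam * C1 w f)) * (lam * C1 w f) ^ j / (j.factorial : ℝ) =
      ∑ j ∈ S1, ∑ f ∈ QQ d H, ((if N f = j then (1 : ℝ) else 0) - Real.exp (-x f) * (x f) ^ j / (j.factorial : ℝ)) +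
      (∑ f ∈ QQ d H, ∑ j ∈ S2, (if N f = j then (1 : ℝ) else 0) -
        ∑ f ∈ QQ d H, ∑ j ∈ S2, Real.exp (-x f) * (x f) ^ j / (j.factorial : ℝ)) := by
    have e1 : (((QQ d H).filter (fun f => pi1 f ⌊lam * Real.log H⌋₊ ∈ S)).card : ℝ) =
        ∑ f ∈ QQ d H, ∑ j ∈ S, (if N f = j then (1 : ℝ) else 0) := by
      rw [card_filter]
      push_cast
      refine sum_congr rfl fun f _ => ?_
      rw [sum_ite_eq]
    have e2 : ∀ g : ℕ → ℝ, ∑ j ∈ S, g j = ∑ j ∈ S1, g j + ∑ j ∈ S2, g j := fun g =>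
      (sum_filter_add_sum_filter_not S (fun j => j < M) g).symm
    rw [e1, sum_comm (s := S1)]
    simp only [sum_sub_distrib, e2, sum_add_distrib]
    ring
  rw [e0]
  -- the small values
  have hsmall : ∀ j ∈ S1, |∑ f ∈ QQ d H, ((if N f = j then (1 : ℝ) else 0) - Real.exp (-x f) * (x f) ^ j / (j.factorial : ℝ))| ≤
      δ * Qc * (1 / (j.factorial : ℝ)) * Real.exp 1 + (D M + X M) * (1 / ((j.factorial : ℝ) * (M - j).factorial)) := by
    intro j hj
    rw [hS1, mem_filter] at hj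
    obtain ⟨n, hn⟩ := Nat.exists_eq_add_of_le hj.2.le
    have hn1 : 1 ≤ n := by omega
    have hMj : M - j = n := by omega
    rw [hMj]
    have hj0 : (0 : ℝ) < j.factorial := by exact_mod_cast j.factorial_pos
    have hn0 : (0 : ℝ) < n.factorial := by exact_mod_cast n.factorial_pos
    have t1 : |∑ f ∈ QQ d H, ((if N f = j then (1 : ℝ) else 0) -
        ∑ i ∈ range n, (-1) ^ i * ((N f).descFactorial (j + i) : ℝ) / ((j.factorial : ℝ) * i.factorial))| ≤
        D M * (1 / ((j.factorial : ℝ) * n.factorial)) := by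
      refine (abs_sum_le_sum_abs _ _).trans ((sum_le_sum fun f _ => cnt_bonf (N f) j n hn1).trans (le_of_eq ?_))
      rw [← hn, hD, sum_mul]
      refine sum_congr rfl fun f _ => ?_
      ring
    have t2 : |∑ f ∈ QQ d H, (Real.exp (-x f) * (x f) ^ j / (j.factorial : ℝ) -
        ∑ i ∈ range n, (-1) ^ i * (x f) ^ (j + i) / ((j.factorial : ℝ) * i.factorial))| ≤
        X M * (1 / ((j.factorial : ℝ) * n.factorial)) := by
      refine (abs_sum_le_sum_abs _ _).trans ((sum_le_sum fun f _ => poi_bonf j n (x f) (hx0 f)).trans (le_of_eq ?_))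
      rw [← hn, hX, sum_mul]
      refine sum_congr rfl fun f _ => ?_
      ring
    have t3 : |∑ f ∈ QQ d H, ((∑ i ∈ range n, (-1) ^ i * ((N f).descFactorial (j + i) : ℝ) / ((j.factorial : ℝ) * i.factorial)) -
        ∑ i ∈ range n, (-1) ^ i * (x f) ^ (j + i) / ((j.factorial : ℝ) * i.factorial))| ≤
        δ * Qc * (1 / (j.factorial : ℝ)) * Real.exp 1 := by
      have e1 : ∑ f ∈ QQ d H, ((∑ i ∈ range n, (-1) ^ i * ((N f).descFactorial (j + i) : ℝ) / ((j.factorial : ℝ) * i.factorial)) -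
        ∑ i ∈ range n, (-1) ^ i * (x f) ^ (j + i) / ((j.factorial : ℝ) * i.factorial)) =
          ∑ i ∈ range n, (-1) ^ i / ((j.factorial : ℝ) * i.factorial) * (D (j + i) - X (j + i)) := by
        have e2 : ∀ f ∈ QQ d H, ((∑ i ∈ range n, (-1) ^ i * ((N f).descFactorial (j + i) : ℝ) / ((j.factorial : ℝ) * i.factorial)) -
            ∑ i ∈ range n, (-1) ^ i * (x f) ^ (j + i) / ((j.factorial : ℝ) * i.factorial)) =
            ∑ i ∈ range n, (-1) ^ i / ((j.factorial : ℝ) * i.factorial) * (((N f).descFactorial (j + i) : ℝ) - (x f) ^ (j + i)) := by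
          intro f _
          rw [← sum_sub_distrib]
          refine sum_congr rfl fun i _ => ?_
          ring
        rw [sum_congr rfl e2, sum_comm]
        refine sum_congr rfl fun i _ => ?_
        rw [← mul_sum, hD, hX, sum_sub_distrib]
      rw [e1]
      refine (abs_sum_le_sum_abs _ _).trans ?_
      have e3 : ∀ i ∈ range n, |(-1) ^ i / ((j.factorial : ℝ) * i.factorial) * (D (j + i) - X (j + i))| ≤
          (δ * Qc * (1 / (j.factorial : ℝ))) * (1 ^ i / (i.factorial : ℝ)) := by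
        intro i hi
        rw [mem_range] at hi
        have hi0 : (0 : ℝ) < i.factorial := by exact_mod_cast i.factorial_pos
        rw [abs_mul, abs_div, abs_pow, abs_neg, abs_one, one_pow, abs_of_pos (mul_pos hj0 hi0)]
        calc 1 / ((j.factorial : ℝ) * i.factorial) * |D (j + i) - X (j + i)| ≤ 1 / ((j.factorial : ℝ) * i.factorial) * (δ * Qc) :=
              mul_le_mul_of_nonneg_left (hDX _ (by omega)) (by positivity)
          _ = _ := by field_simp
      refine (sum_le_sum e3).trans ?_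
      rw [← mul_sum]
      have t9 := Real.sum_le_exp_of_nonneg (zero_le_one (α := ℝ)) n
      have t10 : 0 ≤ δ * Qc * (1 / (j.factorial : ℝ)) := mul_nonneg (mul_nonneg hδ.le hQc0) (one_div_nonneg.2 hj0.le)
      exact mul_le_mul_of_nonneg_left t9 t10
    set a1 := ∑ f ∈ QQ d H, ((if N f = j then (1 : ℝ) else 0) -
        ∑ i ∈ range n, (-1) ^ i * ((N f).descFactorial (j + i) : ℝ) / ((j.factorial : ℝ) * i.factorial)) with ha1
    set a2 := ∑ f ∈ QQ d H, (Real.exp (-x f) * (x f) ^ j / (j.factorial : ℝ) -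
        ∑ i ∈ range n, (-1) ^ i * (x f) ^ (j + i) / ((j.factorial : ℝ) * i.factorial)) with ha2
    set a3 := ∑ f ∈ QQ d H, ((∑ i ∈ range n, (-1) ^ i * ((N f).descFactorial (j + i) : ℝ) / ((j.factorial : ℝ) * i.factorial)) -
        ∑ i ∈ range n, (-1) ^ i * (x f) ^ (j + i) / ((j.factorial : ℝ) * i.factorial)) with ha3
    have e4 : ∑ f ∈ QQ d H, ((if N f = j then (1 : ℝ) else 0) - Real.exp (-x f) * (x f) ^ j / (j.factorial : ℝ)) = a1 + a3 - a2 := by
      rw [ha1, ha2, ha3, ← sum_add_distrib, ← sum_sub_distrib]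
      refine sum_congr rfl fun f _ => ?_
      ring
    rw [e4]
    rw [abs_le] at t1 t2 t3 ⊢
    constructor <;> linarith [t1.1, t1.2, t2.1, t2.2, t3.1, t3.2]
  have hS1M : S1 ⊆ range M := by
    intro j hj
    rw [hS1, mem_filter] at hj
    exact mem_range.2 hj.2
  have hsum1 : |∑ j ∈ S1, ∑ f ∈ QQ d H, ((if N f = j then (1 : ℝ) else 0) - Real.exp (-x f) * (x f) ^ j / (j.factorial : ℝ))| ≤
      δ * Qc * 9 + (D M + X M) * (2 ^ M / (M.factorial : ℝ)) := by
    refine (abs_sum_le_sum_abs _ _).trans ((sum_le_sum hsmall).trans ?_)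
    rw [sum_add_distrib]
    apply add_le_add
    · rw [← sum_mul, ← mul_sum]
      have t1 : ∑ j ∈ S1, 1 / (j.factorial : ℝ) ≤ Real.exp 1 := by
        have t2 : ∑ j ∈ S1, 1 / (j.factorial : ℝ) ≤ ∑ j ∈ range M, (1 : ℝ) ^ j / (j.factorial : ℝ) := by
          simp only [one_pow]
          exact sum_le_sum_of_subset_of_nonneg hS1M (fun j _ _ => by positivity)
        exact t2.trans (Real.sum_le_exp_of_nonneg (zero_le_one (α := ℝ)) M)
      have t3 : Real.exp 1 ≤ 3 := by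
        have := Real.exp_one_lt_d9
        linarith
      have t4 : 0 ≤ Real.exp 1 := (Real.exp_pos 1).le
      have t5 : (∑ j ∈ S1, 1 / (j.factorial : ℝ)) * Real.exp 1 ≤ 9 := by
        calc (∑ j ∈ S1, 1 / (j.factorial : ℝ)) * Real.exp 1 ≤ 3 * 3 :=
              mul_le_mul (t1.trans t3) t3 t4 (by norm_num)
          _ = 9 := by norm_num
      rw [mul_assoc]
      exact mul_le_mul_of_nonneg_left t5 (by positivity)
    · rw [← mul_sum]
      apply mul_le_mul_of_nonneg_left _ (by linarith)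
      have t1 : ∑ j ∈ S1, 1 / ((j.factorial : ℝ) * (M - j).factorial) ≤ ∑ j ∈ range (M + 1), 1 / ((j.factorial : ℝ) * (M - j).factorial) :=
        sum_le_sum_of_subset_of_nonneg (hS1M.trans (range_subset_range.2 (by omega))) (fun j _ _ => by positivity)
      refine t1.trans (le_of_eq ?_)
      have t2 : ∀ j ∈ range (M + 1), 1 / ((j.factorial : ℝ) * (M - j).factorial) = (M.choose j : ℝ) / (M.factorial : ℝ) := by
        intro j hj
        rw [mem_range] at hj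
        have h3 := Nat.choose_mul_factorial_mul_factorial (show j ≤ M by omega)
        have h4 : (M.choose j : ℝ) * (j.factorial : ℝ) * ((M - j).factorial : ℝ) = M.factorial := by exact_mod_cast h3
        have hj0 : (0 : ℝ) < j.factorial := by exact_mod_cast j.factorial_pos
        have hj1 : (0 : ℝ) < (M - j).factorial := by exact_mod_cast (M - j).factorial_pos
        rw [div_eq_div_iff (by positivity) hMf.ne']
        rw [one_mul, ← h4]
        ring
      rw [sum_congr rfl t2, ← sum_div]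
      congr 1
      have h5 := Nat.sum_range_choose M
      exact_mod_cast h5
  -- the large values
  have hlarge1 : ∑ f ∈ QQ d H, ∑ j ∈ S2, (if N f = j then (1 : ℝ) else 0) ≤ D M * (1 / (M.factorial : ℝ)) := by
    rw [hD, sum_mul]
    refine sum_le_sum fun f _ => ?_
    rw [sum_ite_eq]
    split_ifs with h
    · rw [hS2, mem_filter] at h
      have h3 : M ≤ N f := by omega
      rw [mul_one_div, le_div_iff₀ hMf, one_mul]
      have h4 : M.factorial ≤ (N f).descFactorial M := by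
        rw [Nat.descFactorial_eq_factorial_mul_choose]
        exact Nat.le_mul_of_pos_right _ (Nat.choose_pos h3)
      exact_mod_cast h4
    · positivity
  have hlarge2 : ∑ f ∈ QQ d H, ∑ j ∈ S2, Real.exp (-x f) * (x f) ^ j / (j.factorial : ℝ) ≤ X M * (1 / (M.factorial : ℝ)) := by
    rw [hX, sum_mul]
    refine sum_le_sum fun f _ => ?_
    refine (poi_tail S2 M (fun j hj => ?_) (x f) (hx0 f)).trans (le_of_eq (by ring))
    rw [hS2, mem_filter] at hj
    omega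
  have hl1 : 0 ≤ ∑ f ∈ QQ d H, ∑ j ∈ S2, (if N f = j then (1 : ℝ) else 0) :=
    sum_nonneg fun f _ => sum_nonneg fun j _ => by split_ifs <;> norm_num
  have hl2 : 0 ≤ ∑ f ∈ QQ d H, ∑ j ∈ S2, Real.exp (-x f) * (x f) ^ j / (j.factorial : ℝ) :=
    sum_nonneg fun f _ => sum_nonneg fun j _ => by have := hx0 f; positivity
  -- conclusion
  have hpow : (1 : ℝ) / M.factorial ≤ 2 ^ M / (M.factorial : ℝ) :=
    div_le_div_of_nonneg_right (one_le_pow₀ (by norm_num)) hMf.le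
  have hfin1 : (D M + X M) * (2 ^ M / (M.factorial : ℝ)) + (D M + X M) * (1 / (M.factorial : ℝ)) ≤
      (2 * μ + δ) * Qc * (2 ^ (M + 1) / (M.factorial : ℝ)) := by
    have t1 : D M + X M ≤ (2 * μ + δ) * Qc := by linarith
    have t2 : 0 ≤ D M + X M := by linarith
    have t3 : (D M + X M) * (1 / (M.factorial : ℝ)) ≤ (D M + X M) * (2 ^ M / (M.factorial : ℝ)) :=
      mul_le_mul_of_nonneg_left hpow t2
    have t4 : (D M + X M) * (2 ^ M / (M.factorial : ℝ)) + (D M + X M) * (2 ^ M / (M.factorial : ℝ)) =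
        (D M + X M) * (2 ^ (M + 1) / (M.factorial : ℝ)) := by rw [pow_succ]; ring
    have t5 : (D M + X M) * (2 ^ (M + 1) / (M.factorial : ℝ)) ≤ (2 * μ + δ) * Qc * (2 ^ (M + 1) / (M.factorial : ℝ)) :=
      mul_le_mul_of_nonneg_right t1 (by positivity)
    linarith
  have hfin2 : (2 * μ + δ) * Qc * (2 ^ (M + 1) / (M.factorial : ℝ)) ≤ (2 * μ * (2 ^ (M + 1) / (M.factorial : ℝ))) * Qc + δ * Qc * 2 ^ (M + 1) := by
    have t1 : (2 * μ + δ) * Qc * (2 ^ (M + 1) / (M.factorial : ℝ)) = (2 * μ * (2 ^ (M + 1) / (M.factorial : ℝ))) * Qc +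
        δ * Qc * (2 ^ (M + 1) / (M.factorial : ℝ)) := by ring
    rw [t1]
    apply add_le_add le_rfl
    apply mul_le_mul_of_nonneg_left _ (mul_nonneg hδ.le hQc0)
    exact div_le_self (by positivity) hMf1
  have hfin3 : δ * Qc * 9 + δ * Qc * 2 ^ (M + 1) = ε * Qc := by
    rw [hδd]
    field_simp
  refine (abs_add_le _ _).trans ?_
  have hlast : |∑ f ∈ QQ d H, ∑ j ∈ S2, (if N f = j then (1 : ℝ) else 0) -
        ∑ f ∈ QQ d H, ∑ j ∈ S2, Real.exp (-x f) * (x f) ^ j / (j.factorial : ℝ)| ≤ (D M + X M) * (1 / (M.factorial : ℝ)) := by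
    have t1 : 0 ≤ D M * (1 / (M.factorial : ℝ)) := by positivity
    have t2 : 0 ≤ X M * (1 / (M.factorial : ℝ)) := by positivity
    rw [abs_le]
    constructor <;> linarith
  linarith

end Pool.Agent.TP975.RP
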