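import Mathlib
import Pool.Agent.TP975.RP.Gn5
import Pool.Agent.TP975.RP.Po3

/-!
Windows at arbitrary points: the mean square of the number of prime tuples in one window.
-/

set_option autoImplicit false

namespace Pool.Agent.TP975.RP

open Finset
open Pool.Agent.H373R2.T7

variable {m d k : ℕ}

/-- the mean value of a product of values of the von Mangoldt function, for all index types with at most `r` elements -/
theorem meanT (m d r A : ℕ) : ∃ B : ℕ, ∀ E : ℕ, ∃ H0 : ℕ, ∀ H : ℕ, H0 ≤ H → ∀ z : ℕ, Real.log H ^ B ≤ z →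
    (z : ℝ) ≤ Real.log H ^ E → ∀ (ι : Type) [Fintype ι] [DecidableEq ι], Fintype.card ι ≤ r →
    ∀ (tau : ι → Fin m) (t : ι → ℤ), (∀ i, |(t i : ℝ)| ≤ Real.log H ^ A) →
    (∀ i i', i ≠ i' → tau i = tau i' → t i ≠ t i') →
    (∀ l, (univ.filter (fun i => tau i = l)).card ≤ 2 * d + 1) →
    ∑ a ∈ Bx m d H, ∏ i, ArithmeticFunction.vonMangoldt (ev (a (tau i)) (t i)).natAbs ≤
      (Bx m d H).card * ((1 + r) * ((Vz z)⁻¹) ^ r) := by
  choose Bs hBs using fun s => meanW_le m d s A
  refine ⟨∑ s ∈ range (r + 1), Bs s, fun E => ?_⟩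
  choose Hs hHs using fun s => hBs s E
  obtain ⟨H3, h3⟩ := Filter.eventually_atTop.1 (ev_log 1)
  refine ⟨max (∑ s ∈ range (r + 1), Hs s) H3, fun H hH z hzB hzE ι _ _ hr tau t ht hinj hfib => ?_⟩
  have hL := h3 H (le_trans (le_max_right _ _) hH)
  set s := Fintype.card ι with hs
  have hsr : s ∈ range (r + 1) := mem_range.2 (by omega)
  have h1 : Hs s ≤ H := (single_le_sum (f := fun s => Hs s) (fun _ _ => Nat.zero_le _) hsr).trans
    (le_trans (le_max_left _ _) hH)
  have h2 : Bs s ≤ ∑ s ∈ range (r + 1), Bs s := single_le_sum (f := fun s => Bs s) (fun _ _ => Nat.zero_le _) hsr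
  set e := (Fintype.equivFin ι).symm with he
  have h4 := hHs s H h1 z ((pow_le_pow_right₀ hL h2).trans hzB) hzE (fun i => tau (e i)) (fun i => t (e i))
    (fun i => ht _) (fun i i' hne h => hinj _ _ (fun hc => hne (e.injective hc)) h) (fun l => by
      refine le_trans (le_of_eq ?_) (hfib l)
      apply card_bij (fun i _ => e i)
      · intro i hi
        rw [mem_filter] at hi ⊢
        exact ⟨mem_univ _, hi.2⟩
      · intro i _ i' _ h
        exact e.injective h
      · intro i hi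
        rw [mem_filter] at hi
        exact ⟨e.symm i, mem_filter.2 ⟨mem_univ _, by rw [Equiv.apply_symm_apply]; exact hi.2⟩, Equiv.apply_symm_apply _ _⟩)
  have h5 : ∀ a : Fin m → Fin (d + 1) → ℤ, Wt (fun i => tau (e i)) (fun i => t (e i)) a =
      ∏ i, ArithmeticFunction.vonMangoldt (ev (a (tau i)) (t i)).natAbs := by
    intro a
    unfold Wt
    exact Equiv.prod_comp e (fun i => ArithmeticFunction.vonMangoldt (ev (a (tau i)) (t i)).natAbs)
  rw [sum_congr rfl (fun a _ => h5 a)] at h4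
  refine h4.trans ?_
  apply mul_le_mul_of_nonneg_left _ (Nat.cast_nonneg _)
  have hV := one_le_Vinv z
  have h6 : (s : ℝ) ≤ r := by exact_mod_cast hr
  apply mul_le_mul (by linarith) (pow_le_pow_right₀ hV hr) (by positivity) (by positivity)

/-- the points of a window -/
def tw (t : ℤ) (u : Fin k → ℕ) : Fin k → ℤ := fun j => t + u j

/-- the number of the coincidences, weighted -/
noncomputable def cw (L : ℝ) (io : Fin k → Fin m) (u : Fin k → ℕ) (j' : Fin k) (s : ℕ) : ℝ :=
  haveI := Classical.propDecidable (∃ j, io j = io j' ∧ u j = s)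
  if ∃ j, io j = io j' ∧ u j = s then 2 * L else 1

lemma cw_sum (L : ℝ) (hL : 0 ≤ L) (io : Fin k → Fin m) (u : Fin k → ℕ) (j' : Fin k) (U : ℕ) :
    ∑ s ∈ Icc 1 U, cw L io u j' s ≤ U + 2 * L * k := by
  classical
  have h1 : ∀ s ∈ Icc 1 U, cw L io u j' s ≤ 1 + 2 * L * (if ∃ j, u j = s then 1 else 0) := by
    intro s _
    unfold cw
    split_ifs with h h'
    · linarith
    · obtain ⟨j, _, hj⟩ := h
      exact absurd ⟨j, hj⟩ h'
    · linarith
    · linarith
  refine (sum_le_sum h1).trans ?_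
  rw [sum_add_distrib, sum_const, nsmul_eq_mul, Nat.card_Icc, Nat.add_sub_cancel, mul_one, ← mul_sum, sum_boole]
  have h2 : ((Icc 1 U).filter (fun s => ∃ j, u j = s)).card ≤ k := by
    calc ((Icc 1 U).filter (fun s => ∃ j, u j = s)).card ≤ ((univ : Finset (Fin k)).image u).card := by
          apply card_le_card
          intro s hs
          rw [mem_filter] at hs
          obtain ⟨_, j, hj⟩ := hs
          exact mem_image.2 ⟨j, mem_univ _, hj⟩
      _ ≤ (univ : Finset (Fin k)).card := card_image_le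
      _ = k := by rw [card_univ, Fintype.card_fin]
  have h3 : (((Icc 1 U).filter (fun s => ∃ j, u j = s)).card : ℝ) ≤ k := by exact_mod_cast h2
  have h4 := mul_le_mul_of_nonneg_left h3 (by linarith : 0 ≤ 2 * L)
  linarith

set_option maxHeartbeats 1000000 in
/-- the mean value of the product for two tuples in the same window -/
theorem diag1 (m d k A : ℕ) : ∃ B : ℕ, ∀ E : ℕ, ∃ H0 : ℕ, ∀ H : ℕ, H0 ≤ H → ∀ z : ℕ, Real.log H ^ B ≤ z →
    (z : ℝ) ≤ Real.log H ^ E → ∀ (io : Fin k → Fin m), (∀ i, (univ.filter (fun j => io j = i)).card ≤ d) →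
    ∀ (t : ℤ) (u v : Fin k → ℕ), (∀ j, |((tw t u j : ℤ) : ℝ)| ≤ Real.log H ^ A) →
    (∀ j, |((tw t v j : ℤ) : ℝ)| ≤ Real.log H ^ A) → Nd io (tw t u) → Nd io (tw t v) →
    ∑ a ∈ Bx m d H, QL io (tw t u) a * QL io (tw t v) a ≤
      (∏ j', cw (Real.log H) io u j' (v j')) * ((Bx m d H).card * ((1 + 2 * k) * ((Vz z)⁻¹) ^ (2 * k))) := by
  classical
  obtain ⟨B, hB⟩ := meanT m d (2 * k) A
  refine ⟨B, fun E => ?_⟩
  obtain ⟨H0, h0⟩ := hB E
  obtain ⟨H1, h1⟩ := Filter.eventually_atTop.1 (ev_log 2)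
  obtain ⟨H2, h2⟩ := Filter.eventually_atTop.1 (ev_pow (A * d) ((d : ℝ) + 1))
  refine ⟨max (max H0 H1) (max H2 1), fun H hH z hzB hzE io hfib t u v hu hv hdu hdv => ?_⟩
  have b0 := le_trans (le_trans (le_max_left _ _) (le_max_left _ _)) hH
  have b1 := le_trans (le_trans (le_max_right _ _) (le_max_left _ _)) hH
  have b2 := le_trans (le_trans (le_max_left _ _) (le_max_right _ _)) hH
  have b3 : 1 ≤ H := le_trans (le_trans (le_max_right _ _) (le_max_right _ _)) hH
  have hL2 := h1 H b1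
  have hbig := h2 H b2
  have hmean := h0 H b0 z hzB hzE
  set L := Real.log H with hL
  have hL0 : 0 < L := by linarith
  -- the coordinates without coincidence
  set P : Fin k → Prop := fun j' => ∃ j, io j = io j' ∧ u j = v j' with hP
  have hcard : Fintype.card (Fin k ⊕ {j' : Fin k // ¬ P j'}) ≤ 2 * k := by
    rw [Fintype.card_sum, Fintype.card_fin]
    have := Fintype.card_subtype_le (fun j' : Fin k => ¬ P j')
    rw [Fintype.card_fin] at this
    omega
  have hm := hmean (Fin k ⊕ {j' : Fin k // ¬ P j'}) hcard (Sum.elim io (fun j' => io j'.1))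
    (Sum.elim (tw t u) (fun j' => tw t v j'.1)) (by
      rintro (j | j)
      · exact hu j
      · exact hv j.1) (by
      rintro (j | j) (j' | j') hne heq
      · exact hdu j j' (fun h => hne (by rw [h])) heq
      · intro h
        apply j'.2
        refine ⟨j, heq, ?_⟩
        have h' : t + (u j : ℤ) = t + (v j'.1 : ℤ) := h
        have : (u j : ℤ) = v j'.1 := by linarith
        exact_mod_cast this
      · intro h
        apply j.2
        refine ⟨j', heq.symm, ?_⟩
        have h' : t + (v j.1 : ℤ) = t + (u j' : ℤ) := h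
        have : (u j' : ℤ) = v j.1 := by linarith
        exact_mod_cast this
      · exact hdv j.1 j'.1 (fun h => hne (by rw [Subtype.ext h])) heq) (by
      intro l
      have h3 : (univ : Finset (Fin k ⊕ {j' : Fin k // ¬ P j'})).filter
          (fun i => (Sum.elim io (fun j' => io j'.1) : Fin k ⊕ {j' : Fin k // ¬ P j'} → Fin m) i = l) ⊆
          ((univ.filter (fun j => io j = l)).image Sum.inl) ∪
          (((univ : Finset {j' : Fin k // ¬ P j'}).filter (fun j => io j.1 = l)).image Sum.inr) := by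
        intro q hq
        rw [mem_filter] at hq
        rw [mem_union, mem_image, mem_image]
        rcases q with j | j
        · exact Or.inl ⟨j, mem_filter.2 ⟨mem_univ _, hq.2⟩, rfl⟩
        · exact Or.inr ⟨j, mem_filter.2 ⟨mem_univ _, hq.2⟩, rfl⟩
      have h4 : ((univ : Finset {j' : Fin k // ¬ P j'}).filter (fun j => io j.1 = l)).card ≤
          (univ.filter (fun j => io j = l)).card := by
        apply card_le_card_of_injOn (fun j => j.1)
        · intro j hj
          have hj' := mem_filter.1 (mem_coe.1 hj)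
          exact mem_coe.2 (mem_filter.2 ⟨mem_univ _, hj'.2⟩)
        · intro j _ j' _ h
          exact Subtype.ext h
      have h5 := (card_le_card h3).trans (card_union_le _ _)
      have h6 : ((univ.filter (fun j => io j = l)).image (Sum.inl : Fin k → Fin k ⊕ {j' : Fin k // ¬ P j'})).card ≤
        (univ.filter (fun j => io j = l)).card := card_image_le
      have h7 : (((univ : Finset {j' : Fin k // ¬ P j'}).filter (fun j => io j.1 = l)).image
          (Sum.inr : {j' : Fin k // ¬ P j'} → Fin k ⊕ {j' : Fin k // ¬ P j'})).card ≤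
        ((univ : Finset {j' : Fin k // ¬ P j'}).filter (fun j => io j.1 = l)).card := card_image_le
      have h8 := hfib l
      omega)
  set X : ℝ := (Bx m d H).card * ((1 + 2 * k) * ((Vz z)⁻¹) ^ (2 * k)) with hX
  have hc : ∏ j', cw L io u j' (v j') = ∏ j' ∈ univ.filter P, (2 * L) := by
    rw [prod_filter]
    refine prod_congr rfl fun j' _ => ?_
    unfold cw
    by_cases h : P j'
    · rw [if_pos h, if_pos h]
    · rw [if_neg h, if_neg h]
  have hc0 : 0 ≤ ∏ j', cw L io u j' (v j') := by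
    rw [hc]; exact prod_nonneg fun _ _ => by linarith
  have hterm : ∀ a ∈ Bx m d H, QL io (tw t u) a * QL io (tw t v) a ≤ (∏ j', cw L io u j' (v j')) *
      ∏ i : Fin k ⊕ {j' : Fin k // ¬ P j'}, ArithmeticFunction.vonMangoldt
        (ev (a ((Sum.elim io (fun j' => io j'.1) : Fin k ⊕ {j' : Fin k // ¬ P j'} → Fin m) i))
          ((Sum.elim (tw t u) (fun j' => tw t v j'.1) : Fin k ⊕ {j' : Fin k // ¬ P j'} → ℤ) i)).natAbs := by
    intro a ha
    rw [Fintype.prod_sum_type]
    simp only [Sum.elim_inl, Sum.elim_inr]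
    have e1 : QL io (tw t v) a = (∏ j' ∈ univ.filter P, ArithmeticFunction.vonMangoldt (ev (a (io j')) (tw t v j')).natAbs) *
        ∏ j' : {j' : Fin k // ¬ P j'}, ArithmeticFunction.vonMangoldt (ev (a (io j'.1)) (tw t v j'.1)).natAbs := by
      unfold QL
      rw [← prod_filter_mul_prod_filter_not univ P]
      congr 1
      exact prod_subtype (univ.filter (fun j' => ¬ P j')) (fun x => by simp)
        (fun j' => ArithmeticFunction.vonMangoldt (ev (a (io j')) (tw t v j')).natAbs)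
    rw [e1, hc]
    have h3 : ∏ j' ∈ univ.filter P, ArithmeticFunction.vonMangoldt (ev (a (io j')) (tw t v j')).natAbs ≤
        ∏ j' ∈ univ.filter P, (2 * L) := by
      apply prod_le_prod
      · intro j' _; exact ArithmeticFunction.vonMangoldt_nonneg
      · intro j' _
        exact Lam_bd A H b3 (by linarith) hbig ha (io j') (tw t v j') (hv j')
    have h4 : 0 ≤ QL io (tw t u) a := QL_nonneg _ _ _
    have h5 : 0 ≤ ∏ j' : {j' : Fin k // ¬ P j'}, ArithmeticFunction.vonMangoldt (ev (a (io j'.1)) (tw t v j'.1)).natAbs :=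
      prod_nonneg fun _ _ => ArithmeticFunction.vonMangoldt_nonneg
    have h6 : QL io (tw t u) a = ∏ j, ArithmeticFunction.vonMangoldt (ev (a (io j)) (tw t u j)).natAbs := rfl
    rw [← h6]
    calc QL io (tw t u) a * ((∏ j' ∈ univ.filter P, ArithmeticFunction.vonMangoldt (ev (a (io j')) (tw t v j')).natAbs) *
          ∏ j' : {j' : Fin k // ¬ P j'}, ArithmeticFunction.vonMangoldt (ev (a (io j'.1)) (tw t v j'.1)).natAbs) ≤
        QL io (tw t u) a * ((∏ j' ∈ univ.filter P, (2 * L)) *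
          ∏ j' : {j' : Fin k // ¬ P j'}, ArithmeticFunction.vonMangoldt (ev (a (io j'.1)) (tw t v j'.1)).natAbs) := by
          apply mul_le_mul_of_nonneg_left _ h4
          exact mul_le_mul_of_nonneg_right h3 h5
      _ = _ := by ring
  refine (sum_le_sum hterm).trans ?_
  rw [← mul_sum]
  apply mul_le_mul_of_nonneg_left _ hc0
  push_cast at hm
  exact hm

/-- the weighted number of the prime tuples in a window -/
noncomputable def Wl (io : Fin k → Fin m) (U : ℕ) (t : ℤ) (a : Fin m → Fin (d + 1) → ℤ) : ℝ :=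
  ∑ u ∈ Tu io U, QL io (tw t u) a

/-- the model -/
noncomputable def Wm (w : ℕ) (io : Fin k → Fin m) (U : ℕ) (t : ℤ) (a : Fin m → Fin (d + 1) → ℤ) : ℝ :=
  ∑ u ∈ Tu io U, QM w io (tw t u) a

lemma Wl_nonneg (io : Fin k → Fin m) (U : ℕ) (t : ℤ) (a : Fin m → Fin (d + 1) → ℤ) : 0 ≤ Wl io U t a :=
  sum_nonneg fun _ _ => QL_nonneg _ _ _

lemma card_Tu (io : Fin k → Fin m) (U : ℕ) : ((Tu io U).card : ℝ) ≤ (U : ℝ) ^ k := by
  have : (Tu io U).card ≤ U ^ k := by
    rw [← card_Al k U]
    unfold Tu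
    exact card_filter_le _ _
  exact_mod_cast this

lemma Wm_bd (w : ℕ) (io : Fin k → Fin m) (U : ℕ) (t : ℤ) (a : Fin m → Fin (d + 1) → ℤ) :
    0 ≤ Wm w io U t a ∧ Wm w io U t a ≤ (U : ℝ) ^ k * ((Vz w)⁻¹) ^ k := by
  refine ⟨sum_nonneg fun _ _ => (QM_bd _ _ _ _).1, ?_⟩
  calc Wm w io U t a ≤ ∑ u ∈ Tu io U, ((Vz w)⁻¹) ^ k := sum_le_sum fun _ _ => (QM_bd _ _ _ _).2
    _ = (Tu io U).card * ((Vz w)⁻¹) ^ k := by rw [sum_const, nsmul_eq_mul]
    _ ≤ _ := mul_le_mul_of_nonneg_right (card_Tu io U) (pow_nonneg (by have := one_le_Vinv w; linarith) _)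

lemma Tu_Nd (io : Fin k → Fin m) (U : ℕ) (t : ℤ) {u : Fin k → ℕ} (hu : u ∈ Tu io U) : Nd io (tw t u) := by
  unfold Tu at hu
  rw [mem_filter] at hu
  intro j j' hne hio h
  apply hu.2 j j' hne hio
  have h' : t + (u j : ℤ) = t + (u j' : ℤ) := h
  have : (u j : ℤ) = u j' := by linarith
  exact_mod_cast this

/-- the mean square of the number of the prime tuples in one window -/
theorem diag2 (m d k A : ℕ) : ∃ B : ℕ, ∀ E : ℕ, ∃ H0 : ℕ, ∀ H : ℕ, H0 ≤ H → ∀ z : ℕ, Real.log H ^ B ≤ z →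
    (z : ℝ) ≤ Real.log H ^ E → ∀ (io : Fin k → Fin m), (∀ i, (univ.filter (fun j => io j = i)).card ≤ d) →
    ∀ (t : ℤ) (U : ℕ), (∀ s : ℕ, s ≤ U → |((t + s : ℤ) : ℝ)| ≤ Real.log H ^ A) →
    ∑ a ∈ Bx m d H, (Wl io U t a) ^ 2 ≤
      (Bx m d H).card * ((1 + 2 * k) * ((Vz z)⁻¹) ^ (2 * k)) * ((U : ℝ) ^ k * (U + 2 * Real.log H * k) ^ k) := by
  classical
  obtain ⟨B, hB⟩ := diag1 m d k A
  refine ⟨B, fun E => ?_⟩
  obtain ⟨H0, h0⟩ := hB E
  obtain ⟨H1, h1⟩ := Filter.eventually_atTop.1 (ev_log 2)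
  refine ⟨max H0 H1, fun H hH z hzB hzE io hfib t U hb => ?_⟩
  have hd := h0 H (le_trans (le_max_left _ _) hH) z hzB hzE io hfib t
  have hL2 := h1 H (le_trans (le_max_right _ _) hH)
  set L := Real.log H with hL
  set X : ℝ := (Bx m d H).card * ((1 + 2 * k) * ((Vz z)⁻¹) ^ (2 * k)) with hX
  have hV := one_le_Vinv z
  have hX0 : 0 ≤ X := by positivity
  have hbu : ∀ u ∈ Tu io U, ∀ j, |((tw t u j : ℤ) : ℝ)| ≤ L ^ A := by
    intro u hu j
    unfold Tu at hu
    rw [mem_filter, mem_Al] at hu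
    exact hb (u j) (hu.1 j).2
  have hcw0 : ∀ (u : Fin k → ℕ) (j' : Fin k) (s : ℕ), 0 ≤ cw L io u j' s := by
    intro u j' s
    unfold cw
    split_ifs <;> linarith
  have e1 : ∑ a ∈ Bx m d H, (Wl io U t a) ^ 2 = ∑ u ∈ Tu io U, ∑ v ∈ Tu io U,
      ∑ a ∈ Bx m d H, QL io (tw t u) a * QL io (tw t v) a := by
    have h3 : ∀ a ∈ Bx m d H, (Wl io U t a) ^ 2 = ∑ u ∈ Tu io U, ∑ v ∈ Tu io U, QL io (tw t u) a * QL io (tw t v) a := by
      intro a _
      unfold Wl
      rw [sq, sum_mul_sum]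
    rw [sum_congr rfl h3, sum_comm]
    refine sum_congr rfl fun u _ => ?_
    rw [sum_comm]
  rw [e1]
  have h4 : ∀ u ∈ Tu io U, ∑ v ∈ Tu io U, ∑ a ∈ Bx m d H, QL io (tw t u) a * QL io (tw t v) a ≤
      (U + 2 * L * k) ^ k * X := by
    intro u hu
    calc ∑ v ∈ Tu io U, ∑ a ∈ Bx m d H, QL io (tw t u) a * QL io (tw t v) a
        ≤ ∑ v ∈ Tu io U, (∏ j', cw L io u j' (v j')) * X := by
          refine sum_le_sum fun v hv => ?_
          exact hd u v (hbu u hu) (hbu v hv) (Tu_Nd io U t hu) (Tu_Nd io U t hv)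
      _ ≤ ∑ v ∈ Al k U, (∏ j', cw L io u j' (v j')) * X := by
          apply sum_le_sum_of_subset_of_nonneg
          · unfold Tu; exact filter_subset _ _
          · intro v _ _
            exact mul_nonneg (prod_nonneg fun j' _ => hcw0 _ _ _) hX0
      _ = (∏ j' : Fin k, ∑ s ∈ Icc 1 U, cw L io u j' s) * X := by
          rw [← sum_mul]
          congr 1
          unfold Al
          rw [prod_univ_sum]
      _ ≤ (∏ j' : Fin k, (U + 2 * L * k)) * X := by
          apply mul_le_mul_of_nonneg_right _ hX0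
          apply prod_le_prod
          · intro j' _; exact sum_nonneg fun s _ => hcw0 _ _ _
          · intro j' _; exact cw_sum L (by linarith) io u j' U
      _ = _ := by rw [prod_const, card_univ, Fintype.card_fin]
  refine (sum_le_sum h4).trans ?_
  rw [sum_const, nsmul_eq_mul]
  have h5 : 0 ≤ (U + 2 * L * k) ^ k * X := by
    have : 0 ≤ (U : ℝ) + 2 * L * k := by positivity
    positivity
  refine (mul_le_mul_of_nonneg_right (card_Tu io U) h5).trans (le_of_eq ?_)
  ring

end Pool.Agent.TP975.RP
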