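import Mathlib
import Pool.Agent.TP975.RP.Pw1

/-!
Windows at arbitrary points: the second moment.
-/

set_option autoImplicit false

namespace Pool.Agent.TP975.RP

open Finset
open Pool.Agent.H373R2.T7

variable {m d k : ℕ}

lemma far_Sp (io : Fin k → Fin m) (U : ℕ) (t t' : ℤ) (h : (U : ℤ) ≤ |t - t'|) {u v : Fin k → ℕ}
    (hu : u ∈ Tu io U) (hv : v ∈ Tu io U) : Sp io (tw t u) (tw t' v) := by
  unfold Tu at hu hv
  rw [mem_filter, mem_Al] at hu hv
  intro j j' _ heq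
  have h' : t + (u j : ℤ) = t' + (v j' : ℤ) := heq
  obtain ⟨a1, a2⟩ := hu.1 j
  obtain ⟨b1, b2⟩ := hv.1 j'
  have h1 : t - t' = (v j' : ℤ) - u j := by linarith
  rw [h1] at h
  rcases abs_cases ((v j' : ℤ) - u j) with ⟨h2, _⟩ | ⟨h2, _⟩ <;> rw [h2] at h <;> omega

/-- the number of the close pairs -/
lemma close_card (T : Finset ℤ) (U : ℕ) :
    ((T ×ˢ T).filter (fun q => ¬ (U : ℤ) ≤ |q.1 - q.2|)).card ≤ 2 * U * T.card := by
  classical
  have h1 : (T ×ˢ T).filter (fun q => ¬ (U : ℤ) ≤ |q.1 - q.2|) ⊆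
      T.biUnion (fun t => (Ioo (t - U) (t + U)).image (fun s => (t, s))) := by
    intro q hq
    rw [mem_filter, mem_product] at hq
    rw [mem_biUnion]
    refine ⟨q.1, hq.1.1, ?_⟩
    rw [mem_image]
    refine ⟨q.2, ?_, rfl⟩
    rw [mem_Ioo]
    have h2 := not_le.1 hq.2
    rw [abs_lt] at h2
    constructor <;> linarith [h2.1, h2.2]
  refine (card_le_card h1).trans (card_biUnion_le.trans ?_)
  calc ∑ t ∈ T, ((Ioo (t - U) (t + U)).image (fun s => (t, s))).card ≤ ∑ t ∈ T, 2 * U := by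
        refine sum_le_sum fun t _ => card_image_le.trans ?_
        rw [Int.card_Ioo]
        omega
    _ = _ := by rw [sum_const, smul_eq_mul]; ring

theorem msW (m d k A N : ℕ) (hd : 1 ≤ d) (ε : ℝ) (hε : 0 < ε) : ∃ C : ℝ, 1 ≤ C ∧ ∃ H0 : ℕ, ∀ H : ℕ, H0 ≤ H →
    ∀ w : ℕ, C * Real.log (Real.log H) ≤ w → (w : ℝ) ≤ Real.log (Real.log H) ^ N → ∀ (io : Fin k → Fin m),
    (∀ i, (univ.filter (fun j => io j = i)).card ≤ d) → ∀ (T : Finset ℤ) (U : ℕ), 1 ≤ U →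
    Real.log H ≤ U * Real.log (Real.log H) ^ N → (U : ℝ) ≤ Real.log H * Real.log (Real.log H) ^ N →
    (∀ t ∈ T, ∀ s : ℕ, s ≤ U → |((t + s : ℤ) : ℝ)| ≤ Real.log H ^ A) → Real.log H ^ (1 + ε) ≤ T.card →
    ∑ a ∈ Bx m d H, (∑ t ∈ T, (Wl io U t a - Wm w io U t a)) ^ 2 ≤
      (Bx m d H).card * ((T.card : ℝ) ^ 2 * ((U : ℝ) ^ (2 * k) *
        (((Vz w)⁻¹) ^ (2 * k) * (C * (Real.log (Real.log H) / w))))) := by
  classical
  obtain ⟨C1, hC1, H1, h1⟩ := pairG m d k A hd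
  obtain ⟨B, hB⟩ := diag2 m d k A
  obtain ⟨H2, h2⟩ := hB (B + 2)
  obtain ⟨H3, h3⟩ := Vz_eps (B + 2) (2 * k) (ε / 4) (by positivity)
  obtain ⟨H5, h5⟩ := Filter.eventually_atTop.1 (ev_log 3)
  obtain ⟨H6, h6⟩ := ll_ev (max 1 (2 * (2 + 2 * (k : ℝ)) * (1 + 2 * k) ^ k))
  obtain ⟨H7, h7⟩ := pow_small (N + N + N * k + N + 1) (min (ε / 2) 1) (by positivity)
  refine ⟨2 * C1, by linarith, max (max (max H1 H2) (max H3 H5)) (max (max H6 H7) 3),
    fun H hH w hCw hwN io hfib T U hU1 hLU hUL hb hX => ?_⟩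
  have b0 := le_trans (le_max_left _ _) hH
  have b0' := le_trans (le_max_right _ _) hH
  have b1 := le_trans (le_max_left _ _) (le_trans (le_max_left _ _) b0)
  have b2 := le_trans (le_max_right _ _) (le_trans (le_max_left _ _) b0)
  have b3 := le_trans (le_max_left _ _) (le_trans (le_max_right _ _) b0)
  have b5 := le_trans (le_max_right _ _) (le_trans (le_max_right _ _) b0)
  have b6 := le_trans (le_max_left _ _) (le_trans (le_max_left _ _) b0')
  have b7 := le_trans (le_max_right _ _) (le_trans (le_max_left _ _) b0')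
  have hL3 := h5 H b5
  have hLLm := h6 H b6
  have hpw := h7 H b7
  have hW := h2 H b2
  have hVe := h3 H b3
  have hpr := h1 H b1 w
  set L := Real.log H with hL
  set LL := Real.log L with hLL
  have hL0 : 0 < L := by linarith
  have hL1 : 1 ≤ L := by linarith
  have hLL1 : 1 ≤ LL := (le_max_left _ _).trans hLLm
  have hLLk : 2 * (2 + 2 * (k : ℝ)) * (1 + 2 * k) ^ k ≤ LL := (le_max_right _ _).trans hLLm
  have hLL0 : 0 < LL := by linarith
  have hk0 : (0 : ℝ) ≤ k := Nat.cast_nonneg _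
  have hw1r : (1 : ℝ) ≤ w := by
    calc (1 : ℝ) ≤ 2 * C1 * LL := by nlinarith
      _ ≤ w := hCw
  have hw1 : 1 ≤ w := by exact_mod_cast hw1r
  have hw0 : (0 : ℝ) < w := by linarith
  have hpw2 : LL ^ (N + N + N * k + N + 1) ≤ L ^ (ε / 2) :=
    hpw.trans (Real.rpow_le_rpow_of_exponent_le hL1 (min_le_left _ _))
  have hwL : (w : ℝ) ≤ L := by
    calc (w : ℝ) ≤ LL ^ (N + N + N * k + N + 1) := hwN.trans (pow_le_pow_right₀ hLL1 (by omega))
      _ ≤ L ^ (min (ε / 2) 1) := hpw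
      _ ≤ L ^ (1 : ℝ) := Real.rpow_le_rpow_of_exponent_le hL1 (min_le_right _ _)
      _ = L := Real.rpow_one L
  set z : ℕ := ⌈L ^ (B + 1)⌉₊ with hz
  have hz1 : L ^ (B + 1) ≤ z := Nat.le_ceil _
  have hz2 : (z : ℝ) ≤ L ^ (B + 2) := by
    have h5 : (z : ℝ) < L ^ (B + 1) + 1 := Nat.ceil_lt_add_one (by positivity)
    have h6 : (1 : ℝ) ≤ L ^ (B + 1) := one_le_pow₀ hL1
    have h7 : L ^ (B + 2) = L ^ (B + 1) * L := by rw [pow_succ]
    rw [h7]
    exact ceil_aux z _ L h5 h6 hL3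
  have hzB : L ^ B ≤ z := (pow_le_pow_right₀ hL1 (by omega)).trans hz1
  have hwz : w ≤ z := by
    have : (w : ℝ) ≤ z := by
      calc (w : ℝ) ≤ L := hwL
        _ = L ^ 1 := (pow_one L).symm
        _ ≤ L ^ (B + 1) := pow_le_pow_right₀ hL1 (by omega)
        _ ≤ z := hz1
    exact_mod_cast this
  have hVze := hVe z hz2
  set V := ((Vz w)⁻¹) ^ (2 * k) with hV
  have hV1 : 1 ≤ V := one_le_pow₀ (one_le_Vinv w)
  set Vv := ((Vz z)⁻¹) ^ (2 * k) with hVv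
  have hVv1 : 1 ≤ Vv := one_le_pow₀ (one_le_Vinv z)
  have hVVv : V ≤ Vv := pow_le_pow_left₀ (by have := one_le_Vinv w; linarith) (Vz_anti hwz) _
  set Bc : ℝ := ((Bx m d H).card : ℝ) with hBc
  have hBc0 : 0 ≤ Bc := Nat.cast_nonneg _
  set X : ℝ := (T.card : ℝ) with hXd
  have hX0 : 0 < X := lt_of_lt_of_le (Real.rpow_pos_of_pos hL0 _) hX
  have hU0 : (0 : ℝ) < U := by exact_mod_cast hU1
  set r : ℝ := LL / w with hr
  have hr0 : 0 < r := by rw [hr]; positivity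
  set D : ℤ → (Fin m → Fin (d + 1) → ℤ) → ℝ := fun t a => Wl io U t a - Wm w io U t a with hD
  have hbu : ∀ t ∈ T, ∀ u ∈ Tu io U, ∀ j, |((tw t u j : ℤ) : ℝ)| ≤ L ^ A := by
    intro t ht u hu j
    unfold Tu at hu
    rw [mem_filter, mem_Al] at hu
    exact hb t ht (u j) (hu.1 j).2
  -- far pairs
  have hfar : ∀ t ∈ T, ∀ t' ∈ T, (U : ℤ) ≤ |t - t'| →
      |∑ a ∈ Bx m d H, D t a * D t' a| ≤ (U : ℝ) ^ (2 * k) * (Bc * (V * (C1 * r))) := by
    intro t ht t' ht' hfr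
    have e1 : ∑ a ∈ Bx m d H, D t a * D t' a = ∑ u ∈ Tu io U, ∑ v ∈ Tu io U, ∑ a ∈ Bx m d H,
        (QL io (tw t u) a - QM w io (tw t u) a) * (QL io (tw t' v) a - QM w io (tw t' v) a) := by
      have h3 : ∀ a ∈ Bx m d H, D t a * D t' a = ∑ u ∈ Tu io U, ∑ v ∈ Tu io U,
          (QL io (tw t u) a - QM w io (tw t u) a) * (QL io (tw t' v) a - QM w io (tw t' v) a) := by
        intro a _
        rw [hD]
        simp only
        unfold Wl Wm
        rw [← sum_sub_distrib, ← sum_sub_distrib, sum_mul_sum]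
      rw [sum_congr rfl h3, sum_comm]
      refine sum_congr rfl fun u _ => ?_
      rw [sum_comm]
    rw [e1]
    have h4 : ∀ u ∈ Tu io U, |∑ v ∈ Tu io U, ∑ a ∈ Bx m d H,
        (QL io (tw t u) a - QM w io (tw t u) a) * (QL io (tw t' v) a - QM w io (tw t' v) a)| ≤
        (U : ℝ) ^ k * (Bc * (V * (C1 * r))) := by
      intro u hu
      refine (abs_sum_le_sum_abs _ _).trans ?_
      calc ∑ v ∈ Tu io U, |∑ a ∈ Bx m d H,
          (QL io (tw t u) a - QM w io (tw t u) a) * (QL io (tw t' v) a - QM w io (tw t' v) a)|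
          ≤ ∑ v ∈ Tu io U, Bc * (V * (C1 * r)) := by
            refine sum_le_sum fun v hv => ?_
            exact hpr (le_trans (by nlinarith) hCw) hwL io hfib (tw t u) (tw t' v) (hbu t ht u hu) (hbu t' ht' v hv)
              (Tu_Nd io U t hu) (Tu_Nd io U t' hv) (far_Sp io U t t' hfr hu hv)
        _ = (Tu io U).card * (Bc * (V * (C1 * r))) := by rw [sum_const, nsmul_eq_mul]
        _ ≤ _ := mul_le_mul_of_nonneg_right (card_Tu io U) (by positivity)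
    refine (abs_sum_le_sum_abs _ _).trans ((sum_le_sum h4).trans ?_)
    rw [sum_const, nsmul_eq_mul]
    refine (mul_le_mul_of_nonneg_right (card_Tu io U) (by positivity)).trans (le_of_eq ?_)
    rw [← mul_assoc, ← pow_add]
    congr 2
    ring
  -- one window
  set M0 : ℝ := Bc * ((1 + 2 * k) * Vv) * ((U : ℝ) ^ k * (U + 2 * L * k) ^ k) + Bc * ((U : ℝ) ^ (2 * k) * V) with hM0
  have hM00 : 0 ≤ M0 := by positivity
  have hone : ∀ t ∈ T, ∑ a ∈ Bx m d H, (D t a) ^ 2 ≤ M0 := by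
    intro t ht
    have p1 := hW z hzB hz2 io hfib t U (hb t ht)
    have p2 : ∀ a ∈ Bx m d H, (D t a) ^ 2 ≤ (Wl io U t a) ^ 2 + (U : ℝ) ^ (2 * k) * V := by
      intro a _
      have p3 := Wl_nonneg io U t a
      obtain ⟨p4, p5⟩ := Wm_bd w io U t a
      have p6 : (Wm w io U t a) ^ 2 ≤ (U : ℝ) ^ (2 * k) * V := by
        calc (Wm w io U t a) ^ 2 ≤ ((U : ℝ) ^ k * ((Vz w)⁻¹) ^ k) ^ 2 := pow_le_pow_left₀ p4 p5 2
          _ = _ := by rw [hV, mul_pow, ← pow_mul, ← pow_mul, mul_comm k 2]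
      rw [hD]
      simp only
      nlinarith [mul_nonneg p3 p4]
    refine (sum_le_sum p2).trans ?_
    rw [sum_add_distrib, sum_const, nsmul_eq_mul, hM0]
    linarith
  have hclose : ∀ t ∈ T, ∀ t' ∈ T, |∑ a ∈ Bx m d H, D t a * D t' a| ≤ M0 := by
    intro t ht t' ht'
    have p1 := hone t ht
    have p2 := hone t' ht'
    have p3 : |∑ a ∈ Bx m d H, D t a * D t' a| ≤ ∑ a ∈ Bx m d H, (1 / 2 * (D t a) ^ 2 + 1 / 2 * (D t' a) ^ 2) := by
      refine (abs_sum_le_sum_abs _ _).trans (sum_le_sum fun a _ => ?_)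
      rw [abs_le]
      constructor <;> nlinarith [sq_nonneg (D t a - D t' a), sq_nonneg (D t a + D t' a)]
    refine p3.trans ?_
    rw [sum_add_distrib, ← mul_sum, ← mul_sum]
    linarith
  -- the size of the close part
  have hM0le : 2 * U * M0 ≤ (U : ℝ) ^ (2 * k) * (Bc * (X * r)) := by
    have q1 : (U : ℝ) + 2 * L * k ≤ U * ((1 + 2 * k) * LL ^ N) := by
      have q2 : 1 ≤ LL ^ N := one_le_pow₀ hLL1
      have q3 : 2 * L * k ≤ 2 * (U * LL ^ N) * k := by gcongr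
      have q4 : (U : ℝ) * 1 ≤ U * LL ^ N := mul_le_mul_of_nonneg_left q2 hU0.le
      calc (U : ℝ) + 2 * L * k ≤ U * LL ^ N + 2 * (U * LL ^ N) * k := by linarith
        _ = _ := by ring
    have q5 : (U + 2 * L * k) ^ k ≤ (U : ℝ) ^ k * ((1 + 2 * k) ^ k * LL ^ (N * k)) := by
      refine (pow_le_pow_left₀ (by positivity) q1 k).trans (le_of_eq ?_)
      rw [mul_pow, mul_pow, ← pow_mul]
    have hUk : (U : ℝ) ^ (2 * k) = (U : ℝ) ^ k * (U : ℝ) ^ k := by rw [← pow_add]; congr 1; ring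
    have q6 : 1 ≤ (1 + 2 * (k : ℝ)) ^ k * LL ^ (N * k) := by
      have : (1 : ℝ) ≤ (1 + 2 * (k : ℝ)) ^ k := one_le_pow₀ (by linarith)
      have : (1 : ℝ) ≤ LL ^ (N * k) := one_le_pow₀ hLL1
      nlinarith
    have q7 : M0 ≤ Bc * (U : ℝ) ^ (2 * k) * Vv * ((2 + 2 * k) * ((1 + 2 * k) ^ k * LL ^ (N * k))) := by
      have r1 : Bc * ((1 + 2 * k) * Vv) * ((U : ℝ) ^ k * (U + 2 * L * k) ^ k) ≤
          Bc * ((1 + 2 * k) * Vv) * ((U : ℝ) ^ k * ((U : ℝ) ^ k * ((1 + 2 * k) ^ k * LL ^ (N * k)))) := by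
        apply mul_le_mul_of_nonneg_left _ (by positivity)
        exact mul_le_mul_of_nonneg_left q5 (by positivity)
      have r2 : Bc * ((U : ℝ) ^ (2 * k) * V) ≤ Bc * (U : ℝ) ^ (2 * k) * Vv * ((1 + 2 * k) ^ k * LL ^ (N * k)) := by
        calc Bc * ((U : ℝ) ^ (2 * k) * V) ≤ Bc * ((U : ℝ) ^ (2 * k) * Vv) := by gcongr
          _ = Bc * (U : ℝ) ^ (2 * k) * Vv * 1 := by ring
          _ ≤ _ := mul_le_mul_of_nonneg_left q6 (by positivity)
      rw [hM0]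
      refine (add_le_add r1 r2).trans (le_of_eq ?_)
      rw [hUk]
      ring
    have q8 : L * LL ^ (N + N * k + 1) * Vv ≤ X * r := by
      have r1 : L * LL ^ (N + N * k + 1) * Vv * w ≤ X := by
        calc L * LL ^ (N + N * k + 1) * Vv * w ≤ L * LL ^ (N + N * k + 1) * L ^ (ε / 4) * LL ^ N := by gcongr
          _ = L * LL ^ (N + N + N * k + 1) * L ^ (ε / 4) := by
              have : N + N + N * k + 1 = (N + N * k + 1) + N := by ring
              rw [this, pow_add LL (N + N * k + 1) N]; ring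
          _ ≤ L * L ^ (ε / 2) * L ^ (ε / 4) := by
              apply mul_le_mul_of_nonneg_right _ (Real.rpow_nonneg hL0.le _)
              apply mul_le_mul_of_nonneg_left _ hL0.le
              exact (pow_le_pow_right₀ hLL1 (by omega)).trans hpw2
          _ = L ^ (1 + (ε / 2 + ε / 4)) := by
              rw [Real.rpow_add hL0, Real.rpow_one, Real.rpow_add hL0]; ring
          _ ≤ L ^ (1 + ε) := Real.rpow_le_rpow_of_exponent_le hL1 (by linarith)
          _ ≤ X := hX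
      have r2 : L * LL ^ (N + N * k + 1) * Vv ≤ X * (1 / w) := by
        rw [mul_one_div, le_div_iff₀ hw0]; exact r1
      refine r2.trans (mul_le_mul_of_nonneg_left ?_ hX0.le)
      rw [hr]
      exact div_le_div_of_nonneg_right hLL1 hw0.le
    calc 2 * U * M0 ≤ 2 * (L * LL ^ N) * (Bc * (U : ℝ) ^ (2 * k) * Vv * ((2 + 2 * k) * ((1 + 2 * k) ^ k * LL ^ (N * k)))) := by
          apply mul_le_mul _ q7 hM00 (by positivity)
          linarith
      _ = (U : ℝ) ^ (2 * k) * (Bc * (L * ((2 * (2 + 2 * k) * (1 + 2 * k) ^ k) * (LL ^ N * LL ^ (N * k))) * Vv)) := by ring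
      _ ≤ (U : ℝ) ^ (2 * k) * (Bc * (L * (LL * (LL ^ N * LL ^ (N * k))) * Vv)) := by gcongr
      _ = (U : ℝ) ^ (2 * k) * (Bc * (L * LL ^ (N + N * k + 1) * Vv)) := by
          rw [pow_add, pow_add, pow_one]; ring
      _ ≤ _ := by gcongr
  -- assembly
  have e2 : ∑ a ∈ Bx m d H, (∑ t ∈ T, D t a) ^ 2 = ∑ q ∈ T ×ˢ T, ∑ a ∈ Bx m d H, D q.1 a * D q.2 a := by
    have h3 : ∀ a ∈ Bx m d H, (∑ t ∈ T, D t a) ^ 2 = ∑ q ∈ T ×ˢ T, D q.1 a * D q.2 a := by
      intro a _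
      rw [sq, sum_mul_sum, sum_product]
    rw [sum_congr rfl h3, sum_comm]
  have hpair : ∀ q ∈ T ×ˢ T, ∑ a ∈ Bx m d H, D q.1 a * D q.2 a ≤
      (U : ℝ) ^ (2 * k) * (Bc * (V * (C1 * r))) + M0 * (if ¬ (U : ℤ) ≤ |q.1 - q.2| then 1 else 0) := by
    intro q hq
    rw [mem_product] at hq
    by_cases hf : (U : ℤ) ≤ |q.1 - q.2|
    · rw [if_neg (not_not.2 hf), mul_zero, add_zero]
      exact (le_abs_self _).trans (hfar q.1 hq.1 q.2 hq.2 hf)
    · rw [if_pos hf, mul_one]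
      have p1 := (le_abs_self _).trans (hclose q.1 hq.1 q.2 hq.2)
      have p2 : 0 ≤ (U : ℝ) ^ (2 * k) * (Bc * (V * (C1 * r))) := by positivity
      linarith
  show ∑ a ∈ Bx m d H, (∑ t ∈ T, D t a) ^ 2 ≤ _
  rw [e2]
  refine (sum_le_sum hpair).trans ?_
  rw [sum_add_distrib, sum_const, nsmul_eq_mul, ← mul_sum, sum_boole, card_product]
  have hcc : (((T ×ˢ T).filter (fun q => ¬ (U : ℤ) ≤ |q.1 - q.2|)).card : ℝ) ≤ 2 * U * X := by
    rw [hXd]
    exact_mod_cast close_card T U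
  have f1 : ((T.card * T.card : ℕ) : ℝ) = X ^ 2 := by push_cast; rw [hXd]; ring
  rw [f1]
  have f2 : M0 * (((T ×ˢ T).filter (fun q => ¬ (U : ℤ) ≤ |q.1 - q.2|)).card : ℝ) ≤
      X ^ 2 * ((U : ℝ) ^ (2 * k) * (Bc * (V * (C1 * r)))) := by
    calc M0 * (((T ×ˢ T).filter (fun q => ¬ (U : ℤ) ≤ |q.1 - q.2|)).card : ℝ) ≤ M0 * (2 * U * X) :=
          mul_le_mul_of_nonneg_left hcc hM00
      _ = X * (2 * U * M0) := by ring
      _ ≤ X * ((U : ℝ) ^ (2 * k) * (Bc * (X * r))) := mul_le_mul_of_nonneg_left hM0le hX0.le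
      _ = X ^ 2 * ((U : ℝ) ^ (2 * k) * (Bc * ((1 * 1) * r))) := by ring
      _ ≤ X ^ 2 * ((U : ℝ) ^ (2 * k) * (Bc * ((V * C1) * r))) := by gcongr
      _ = _ := by ring
  refine (add_le_add le_rfl f2).trans (le_of_eq ?_)
  ring

end Pool.Agent.TP975.RP
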