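import Mathlib
import Pool.Agent.TP975.RP.Pw2

/-!
Windows at arbitrary points: the number of the prime tuples.
-/

set_option autoImplicit false

namespace Pool.Agent.TP975.RP

open Finset
open Pool.Agent.H373R2.T7

variable {m d k : ℕ}

/-- the points, coded -/
noncomputable def GP {k : ℕ} (n : ℕ) : Fin k → ℤ :=
  ((Encodable.decode (α := ℤ × (Fin k → ℕ)) n).map (fun p => tw p.1 p.2)).getD 0

lemma GP_encode {k : ℕ} (p : ℤ × (Fin k → ℕ)) : GP (Encodable.encode p) = tw p.1 p.2 := by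
  unfold GP
  rw [Encodable.encodek, Option.map_some, Option.getD_some]

/-- the codes of the points and the tuples of shifts -/
noncomputable def TP (io : Fin k → Fin m) (T : Finset ℤ) (U : ℕ) : Finset ℕ :=
  (T ×ˢ Tu io U).map ⟨Encodable.encode, Encodable.encode_injective⟩

lemma TP_sum (io : Fin k → Fin m) (T : Finset ℤ) (U : ℕ) (F : (Fin k → ℤ) → ℝ) :
    ∑ n ∈ TP io T U, F (GP n) = ∑ t ∈ T, ∑ u ∈ Tu io U, F (tw t u) := by
  unfold TP
  rw [sum_map, sum_product]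
  refine sum_congr rfl fun t _ => sum_congr rfl fun u _ => ?_
  rw [Function.Embedding.coeFn_mk, GP_encode]

lemma TP_card (io : Fin k → Fin m) (T : Finset ℤ) (U : ℕ) : ((TP io T U).card : ℝ) ≤ T.card * (U : ℝ) ^ k := by
  unfold TP
  rw [card_map, card_product]
  push_cast
  exact mul_le_mul_of_nonneg_left (card_Tu io U) (Nat.cast_nonneg _)

lemma TP_mem (io : Fin k → Fin m) (T : Finset ℤ) (U : ℕ) {n : ℕ} (hn : n ∈ TP io T U) (j : Fin k) :
    ∃ t ∈ T, ∃ s : ℕ, s ≤ U ∧ GP n j = t + s := by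
  unfold TP at hn
  rw [mem_map] at hn
  obtain ⟨p, hp, rfl⟩ := hn
  rw [mem_product] at hp
  refine ⟨p.1, hp.1, p.2 j, ?_, ?_⟩
  · have := hp.2
    unfold Tu at this
    rw [mem_filter, mem_Al] at this
    exact (this.1 j).2
  · rw [Function.Embedding.coeFn_mk, GP_encode]
    rfl

/-- the number of the prime tuples in the window behind `t` -/
def Wn (io : Fin k → Fin m) (U : ℕ) (t : ℤ) (a : Fin m → Fin (d + 1) → ℤ) : ℕ :=
  ∏ i, (((Icc 1 U).filter (fun u : ℕ => (ev (a i) (t + u)).natAbs.Prime)).card).descFactorial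
    (univ.filter (fun j => io j = i)).card

lemma Wn_eq (io : Fin k → Fin m) (U : ℕ) (t : ℤ) (a : Fin m → Fin (d + 1) → ℤ) :
    ∑ u ∈ Tu io U, (if ∀ j, (ev (a (io j)) (tw t u j)).natAbs.Prime then 1 else 0) = Wn io U t a := by
  classical
  have h1 := count_inj io (fun i => (Icc 1 U).filter (fun u : ℕ => (ev (a i) (t + u)).natAbs.Prime))
  have h2 : ∑ u ∈ Tu io U, (if ∀ j, (ev (a (io j)) (tw t u j)).natAbs.Prime then 1 else 0) =
      ((Fintype.piFinset (fun j => (Icc 1 U).filter (fun u : ℕ => (ev (a (io j)) (t + u)).natAbs.Prime))).filter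
        (fun u => ∀ j j', j ≠ j' → io j = io j' → u j ≠ u j')).card := by
    rw [← card_filter]
    congr 1
    ext u
    unfold Tu tw
    rw [mem_filter, mem_filter, mem_Al, mem_filter, Fintype.mem_piFinset]
    simp only [mem_filter, mem_Icc]
    constructor
    · rintro ⟨⟨h3, h4⟩, h5⟩
      exact ⟨fun j => ⟨h3 j, h5 j⟩, h4⟩
    · rintro ⟨h3, h4⟩
      exact ⟨⟨fun j => (h3 j).1, h4⟩, fun j => (h3 j).2⟩
  rw [h2]
  exact h1

lemma piG_TP (io : Fin k → Fin m) (T : Finset ℤ) (U : ℕ) (a : Fin m → Fin (d + 1) → ℤ) :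
    ((piG io (TP io T U) GP a : ℕ) : ℝ) = ∑ t ∈ T, (Wn io U t a : ℝ) := by
  classical
  unfold piG
  rw [card_filter]
  push_cast
  have h := TP_sum io T U (fun v => if ∀ j, (ev (a (io j)) (v j)).natAbs.Prime then (1 : ℝ) else 0)
  refine Eq.trans ?_ (h.trans ?_)
  · rfl
  · refine sum_congr rfl fun t _ => ?_
    rw [← Wn_eq io U t a]
    push_cast
    rfl

open Classical in
theorem cntW (m d k A N B : ℕ) (hd : 1 ≤ d) (ε : ℝ) (hε : 0 < ε) : ∃ E1 : ℕ, ∀ E2 : ℕ, ∃ H0 : ℕ, ∀ H : ℕ, H0 ≤ H →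
    ∀ w : ℕ, Real.log (Real.log H) ^ E1 ≤ w → (w : ℝ) ≤ Real.log (Real.log H) ^ E2 → ∀ (io : Fin k → Fin m),
    (∀ i, (univ.filter (fun j => io j = i)).card ≤ d) → ∀ (T : Finset ℤ) (U : ℕ), 1 ≤ U →
    Real.log H ≤ U * Real.log (Real.log H) ^ N → (U : ℝ) ≤ Real.log H * Real.log (Real.log H) ^ N →
    (∀ t ∈ T, |(t : ℝ)| ≤ Real.log H ^ A) → Real.log H ^ (1 + ε) ≤ T.card →
    (((Bx m d H).filter (fun a => (∑ t ∈ T, Wm w io U t a + T.card * (U : ℝ) ^ k) / Real.log (Real.log H) ^ B <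
      |Real.log H ^ k * ∑ t ∈ T, (Wn io U t a : ℝ) - ∑ t ∈ T, Wm w io U t a|)).card : ℝ) ≤
      (Bx m d H).card / Real.log (Real.log H) ^ B := by
  refine ⟨2 * (3 * B + 4), fun E2 => ?_⟩
  set Nx := max N E2 with hNx
  obtain ⟨C, hC1, H1, h1⟩ := msW m d k (A + 3) Nx hd ε hε
  obtain ⟨H2, h2⟩ := V_sq (2 * k) (3 * B + 4) (2 * C) (by linarith)
  obtain ⟨H3, h3⟩ := ll_ev (max (2 ^ (k + 2)) (max C 2))
  obtain ⟨H4, h4⟩ := Filter.eventually_atTop.1 (ev_log 3)
  obtain ⟨H5, h5⟩ := Heta ((A + 3) * d) (B + 1) ((d : ℝ) + 1)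
  obtain ⟨H6, h6⟩ := Heta (A + 2 + 2 * k + 2) (B + 1) (2 * (19 * (k + 1)))
  obtain ⟨H7, h7⟩ := pow_small (B + 1) 1 (by norm_num)
  obtain ⟨H8, h8⟩ := pow_small N 1 (by norm_num)
  refine ⟨max (max (max H1 H2) (max H3 H4)) (max (max H5 H6) (max H7 (max H8 3))),
    fun H hH w hw1 hw2 io hfib T U hU1 hLU hUL hT hX => ?_⟩
  have b0 := le_trans (le_max_left _ _) hH
  have b0' := le_trans (le_max_right _ _) hH
  have b1 := le_trans (le_max_left _ _) (le_trans (le_max_left _ _) b0)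
  have b2 := le_trans (le_max_right _ _) (le_trans (le_max_left _ _) b0)
  have b3 := le_trans (le_max_left _ _) (le_trans (le_max_right _ _) b0)
  have b4 := le_trans (le_max_right _ _) (le_trans (le_max_right _ _) b0)
  have b5 := le_trans (le_max_left _ _) (le_trans (le_max_left _ _) b0')
  have b6 := le_trans (le_max_right _ _) (le_trans (le_max_left _ _) b0')
  have b7 := le_trans (le_max_left _ _) (le_trans (le_max_right _ _) b0')
  have b8 := le_trans (le_max_left _ _) (le_trans (le_max_right _ _) (le_trans (le_max_right _ _) b0'))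
  have b9 : 3 ≤ H := le_trans (le_max_right _ _) (le_trans (le_max_right _ _) (le_trans (le_max_right _ _) b0'))
  have hVV := h2 H b2 w hw1 (by omega)
  have hLLm := h3 H b3
  have hL3 := h4 H b4
  have hη5 := h5 H b5
  have hη6 := h6 H b6
  have hp7 := h7 H b7
  have hp8 := h8 H b8
  have hH3 : (3 : ℝ) ≤ H := by exact_mod_cast b9
  have hH0 : (0 : ℝ) < H := by linarith
  set L := Real.log H with hL
  set LL := Real.log L with hLL
  have hL0 : 0 < L := by linarith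
  have hL1 : 1 ≤ L := by linarith
  have hLLk : (2 : ℝ) ^ (k + 2) ≤ LL := (le_max_left _ _).trans hLLm
  have hLLC : C ≤ LL := ((le_max_left _ _).trans (le_max_right _ _)).trans hLLm
  have hLL2 : 2 ≤ LL := ((le_max_right _ _).trans (le_max_right _ _)).trans hLLm
  have hLL0 : 0 < LL := by linarith
  have hLL1 : 1 ≤ LL := by linarith
  have h2k : (4 : ℝ) ≤ 2 ^ (k + 2) := by
    calc (4 : ℝ) = 2 ^ 2 := by norm_num
      _ ≤ 2 ^ (k + 2) := pow_le_pow_right₀ (by norm_num) (by omega)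
  have hCw : C * LL ≤ w := by
    calc C * LL ≤ LL * LL := mul_le_mul_of_nonneg_right hLLC hLL0.le
      _ = LL ^ 2 := by ring
      _ ≤ LL ^ (2 * (3 * B + 4)) := pow_le_pow_right₀ hLL1 (by omega)
      _ ≤ w := hw1
  have hw0 : (0 : ℝ) < w := by nlinarith
  have hNN : LL ^ N ≤ LL ^ Nx := pow_le_pow_right₀ hLL1 (le_max_left _ _)
  have hEN : LL ^ E2 ≤ LL ^ Nx := pow_le_pow_right₀ hLL1 (le_max_right _ _)
  have hU0 : (0 : ℝ) < U := by exact_mod_cast hU1
  have hNL : LL ^ N ≤ L := by rw [Real.rpow_one] at hp8; exact hp8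
  have hUL2 : (U : ℝ) ≤ L ^ 2 := by
    calc (U : ℝ) ≤ L * LL ^ N := hUL
      _ ≤ L * L := mul_le_mul_of_nonneg_left hNL hL0.le
      _ = L ^ 2 := by ring
  have hbd : ∀ t ∈ T, ∀ s : ℕ, s ≤ U → |((t + s : ℤ) : ℝ)| ≤ L ^ (A + 3) := by
    intro t ht s hs
    have q1 := hT t ht
    have q2 : (s : ℝ) ≤ U := by exact_mod_cast hs
    push_cast
    refine (abs_add_le _ _).trans ?_
    rw [Nat.abs_cast]
    have q3 : L ^ A ≤ L ^ (A + 2) := pow_le_pow_right₀ hL1 (by omega)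
    have q4 : L ^ 2 ≤ L ^ (A + 2) := pow_le_pow_right₀ hL1 (by omega)
    calc |(t : ℝ)| + s ≤ L ^ (A + 2) + L ^ (A + 2) := by linarith
      _ = 2 * L ^ (A + 2) := by ring
      _ ≤ L * L ^ (A + 2) := mul_le_mul_of_nonneg_right (by linarith) (by positivity)
      _ = L ^ (A + 3) := by ring
  have hms := h1 H b1 w hCw (hw2.trans hEN) io hfib T U hU1
    (hLU.trans (mul_le_mul_of_nonneg_left hNN hU0.le)) (hUL.trans (mul_le_mul_of_nonneg_left hNN hL0.le)) hbd hX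
  set X0 : ℝ := (T.card : ℝ) with hX0d
  have hX00 : 0 < X0 := lt_of_lt_of_le (Real.rpow_pos_of_pos hL0 _) hX
  set X : ℝ := X0 * (U : ℝ) ^ k with hXd
  have hX0 : 0 < X := by positivity
  have hTc : X0 ≤ L ^ (A + 2) := by
    have q1 : T ⊆ Icc (-(⌊L ^ A⌋₊ : ℤ)) ⌊L ^ A⌋₊ := by
      intro t ht
      have q2 := hT t ht
      have q3 : (t.natAbs : ℝ) ≤ L ^ A := by rw [Nat.cast_natAbs, Int.cast_abs]; exact q2
      have q4 : t.natAbs ≤ ⌊L ^ A⌋₊ := Nat.le_floor q3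
      rw [mem_Icc]
      omega
    have q5 := card_le_card q1
    rw [Int.card_Icc] at q5
    have q6 : T.card ≤ 2 * ⌊L ^ A⌋₊ + 1 := by omega
    have q7 : (⌊L ^ A⌋₊ : ℝ) ≤ L ^ A := Nat.floor_le (by positivity)
    have q8 : X0 ≤ 2 * L ^ A + 1 := by
      have : X0 ≤ 2 * ⌊L ^ A⌋₊ + 1 := by rw [hX0d]; exact_mod_cast q6
      linarith
    have q9 : 1 ≤ L ^ A := one_le_pow₀ hL1
    calc X0 ≤ 2 * L ^ A + 1 := q8
      _ ≤ 3 * L ^ A := by linarith
      _ ≤ (L * L) * L ^ A := mul_le_mul_of_nonneg_right (by nlinarith) (by positivity)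
      _ = L ^ (A + 2) := by ring
  have hXA : X ≤ L ^ (A + 2 + 2 * k) := by
    calc X ≤ L ^ (A + 2) * (L ^ 2) ^ k := by
          rw [hXd]
          exact mul_le_mul hTc (pow_le_pow_left₀ hU0.le hUL2 k) (by positivity) (by positivity)
      _ = _ := by rw [← pow_mul, ← pow_add]
  set V := ((Vz w)⁻¹) ^ (2 * k) with hV
  set Bc : ℝ := ((Bx m d H).card : ℝ) with hBc
  have hBc0 : 0 ≤ Bc := Nat.cast_nonneg _
  set η : ℝ := 1 / LL ^ (B + 1) with hη
  have hη0 : 0 < η := by positivity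
  have hLLB : LL ≤ LL ^ (B + 1) := by
    calc LL = LL ^ 1 := (pow_one _).symm
      _ ≤ LL ^ (B + 1) := pow_le_pow_right₀ hLL1 (by omega)
  have hη4 : η ≤ 1 / 4 := by
    rw [hη]
    apply one_div_le_one_div_of_le (by norm_num)
    linarith
  have hηk : 2 ^ (k + 1) * η ≤ 1 / 2 * (1 / LL ^ B) := by
    rw [hη, pow_succ LL B]
    have e : (2 : ℝ) ^ (k + 1) * (1 / (LL ^ B * LL)) = (2 ^ (k + 1) / LL) * (1 / LL ^ B) := by field_simp
    rw [e]
    apply mul_le_mul_of_nonneg_right _ (by positivity)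
    rw [div_le_iff₀ hLL0]
    rw [pow_succ] at hLLk
    linarith
  have hLLBinv : 1 / LL ^ B ≤ 1 := by
    rw [div_le_one (by positivity)]
    exact one_le_pow₀ hLL1
  have hη1 : 2 ^ (k + 1) * η ≤ 1 := by linarith
  have hθ : η ≤ 1 / 2 * (1 / LL ^ B) := by
    have h9 : (1 : ℝ) ≤ 2 ^ (k + 1) := one_le_pow₀ (by norm_num)
    have h10 : 1 * η ≤ 2 ^ (k + 1) * η := mul_le_mul_of_nonneg_right h9 hη0.le
    linarith
  set y := ⌊(H : ℝ) ^ (1 - η)⌋₊ with hy
  set Y := ⌊(H : ℝ) ^ (1 + η)⌋₊ with hY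
  have g5 : (1 - η) * L ≤ Real.log (y + 1) := by
    have : (H : ℝ) ^ (1 - η) ≤ y + 1 := (Nat.lt_floor_add_one _).le
    calc (1 - η) * L = Real.log ((H : ℝ) ^ (1 - η)) := (Real.log_rpow hH0 _).symm
      _ ≤ _ := Real.log_le_log (by positivity) this
  have hYle : (Y : ℝ) ≤ (H : ℝ) ^ (1 + η) := Nat.floor_le (by positivity)
  have hY1r : (1 : ℝ) ≤ (H : ℝ) ^ (1 + η) := Real.one_le_rpow (by linarith) (by linarith)
  have hY1 : 1 ≤ Y := Nat.le_floor (by exact_mod_cast hY1r)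
  have g6 : Real.log Y ≤ (1 + η) * L := by
    have h3 := Real.log_le_log (by exact_mod_cast hY1) hYle
    rwa [Real.log_rpow hH0] at h3
  set Mf : (Fin m → Fin (d + 1) → ℤ) → ℝ := fun a => ∑ t ∈ T, Wm w io U t a with hMf
  have hMf0 : ∀ a, 0 ≤ Mf a := fun a => sum_nonneg fun t _ => (Wm_bd w io U t a).1
  set S1 := (Bx m d H).filter (fun a => BadG io (TP io T U) GP y Y a) with hS1
  set S2 := (Bx m d H).filter (fun a => η * X < |∑ t ∈ T, (Wl io U t a - Wm w io U t a)|) with hS2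
  have hsub : (Bx m d H).filter (fun a => (∑ t ∈ T, Wm w io U t a + X) / LL ^ B <
      |L ^ k * ∑ t ∈ T, (Wn io U t a : ℝ) - ∑ t ∈ T, Wm w io U t a|) ⊆ S1 ∪ S2 := by
    intro a ha
    rw [mem_filter] at ha
    obtain ⟨haB, hgt⟩ := ha
    rw [mem_union]
    by_contra hcon
    push Not at hcon
    obtain ⟨hn1, hn2⟩ := hcon
    have g1 : ¬ BadG io (TP io T U) GP y Y a := fun hc => hn1 (mem_filter.2 ⟨haB, hc⟩)
    have g2 : |∑ t ∈ T, (Wl io U t a - Wm w io U t a)| ≤ η * X := by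
      by_contra hc
      exact hn2 (mem_filter.2 ⟨haB, not_le.1 hc⟩)
    have g7 : ∀ n ∈ TP io T U, ∀ j, |ev (a (io j)) (GP n j)| ≤ Y := by
      intro n hn j
      obtain ⟨t, ht, s, hs, he⟩ := TP_mem io T U hn j
      rw [he]
      exact val_bd (A + 3) H Y η (by omega) hη0 hL1 (hη5 η le_rfl) hY haB (io j) (t + s) (hbd t ht s hs)
    obtain ⟨t1, t2⟩ := transferG io (TP io T U) GP a y Y L η hL0.le (by linarith) g5 g6 g7 g1
    rw [piG_TP] at t1 t2
    have e3 : ∑ n ∈ TP io T U, QL io (GP n) a = ∑ t ∈ T, Wl io U t a := TP_sum io T U (fun v => QL io v a)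
    rw [e3] at t1 t2
    rw [sum_sub_distrib] at g2
    have g8 := transferG2 k L η (∑ t ∈ T, Wl io U t a) (∑ t ∈ T, (Wn io U t a : ℝ)) (Mf a) X η hL0 hη0.le hη1
      (sum_nonneg fun _ _ => Nat.cast_nonneg _) t1 t2 (hMf0 a) hX0.le hη0.le (by linarith) g2
    have g9 : (2 ^ (k + 1) * η + η) * (Mf a + X) ≤ (Mf a + X) / LL ^ B := by
      rw [div_eq_mul_one_div, mul_comm]
      apply mul_le_mul_of_nonneg_left _ (by have := hMf0 a; linarith)
      linarith
    have g10 : Mf a = ∑ t ∈ T, Wm w io U t a := rfl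
    rw [g10] at g8 g9
    linarith
  have hS1c : (S1.card : ℝ) ≤ Bc * (1 / 2 * (1 / LL ^ B)) := by
    have g1 := BadG_card (d := d) H io (TP io T U) GP y Y
    have g2 := beta_le H η hη0 hη4 b9 hL1
    have g3 : ((TP io T U).card : ℝ) * k * (((badS y Y).card : ℝ) / (2 * H + 1)) ≤ 1 / 2 * (1 / LL ^ B) := by
      have hHη : 0 < (H : ℝ) ^ η := by positivity
      have g4 : ((TP io T U).card : ℝ) * k * (((badS y Y).card : ℝ) / (2 * H + 1)) ≤
          L ^ (A + 2 + 2 * k) * (k + 1) * (19 * L / (H : ℝ) ^ η) := by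
        apply mul_le_mul _ g2 (by positivity) (by positivity)
        have hk0 : (0 : ℝ) ≤ k := Nat.cast_nonneg _
        calc ((TP io T U).card : ℝ) * k ≤ L ^ (A + 2 + 2 * k) * k :=
              mul_le_mul_of_nonneg_right ((TP_card io T U).trans hXA) hk0
          _ ≤ L ^ (A + 2 + 2 * k) * (k + 1) := mul_le_mul_of_nonneg_left (by linarith) (by positivity)
      refine g4.trans ?_
      have g5 := hη6 η le_rfl
      have g6 : L ^ (A + 2 + 2 * k) * (k + 1) * (19 * L / (H : ℝ) ^ η) = (19 * (k + 1) * L ^ (A + 2 + 2 * k + 1)) / (H : ℝ) ^ η := by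
        rw [pow_succ]; ring
      rw [g6, div_le_iff₀ hHη]
      have g7 : 19 * ((k : ℝ) + 1) * L ^ (A + 2 + 2 * k + 1) = (1 / 2 * (1 / L)) * (2 * (19 * (k + 1)) * L ^ (A + 2 + 2 * k + 2)) := by
        rw [pow_succ L (A + 2 + 2 * k + 1)]
        field_simp
      rw [g7]
      have g8 : 1 / 2 * (1 / L) ≤ 1 / 2 * (1 / LL ^ B) := by
        apply mul_le_mul_of_nonneg_left _ (by norm_num)
        apply one_div_le_one_div_of_le (by positivity)
        rw [Real.rpow_one] at hp7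
        exact (pow_le_pow_right₀ hLL1 (by omega)).trans hp7
      exact mul_le_mul g8 g5 (by positivity) (by positivity)
    refine le_trans ?_ (mul_le_mul_of_nonneg_left g3 hBc0)
    convert g1
  have hS2c : (S2.card : ℝ) ≤ Bc * (1 / 2 * (1 / LL ^ B)) := by
    have g1 : (S2.card : ℝ) * (η * X) ^ 2 ≤ Bc * (X ^ 2 * (V * (C * (LL / w)))) := by
      have g0 : Bc * (X0 ^ 2 * ((U : ℝ) ^ (2 * k) * (V * (C * (LL / w))))) = Bc * (X ^ 2 * (V * (C * (LL / w)))) := by
        rw [hXd, mul_pow, ← pow_mul, mul_comm k 2]; ring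
      rw [← g0]
      refine le_trans ?_ hms
      calc (S2.card : ℝ) * (η * X) ^ 2 = ∑ a ∈ S2, (η * X) ^ 2 := by rw [sum_const, nsmul_eq_mul]
        _ ≤ ∑ a ∈ S2, (∑ t ∈ T, (Wl io U t a - Wm w io U t a)) ^ 2 := by
            refine sum_le_sum fun a ha => ?_
            rw [hS2, mem_filter] at ha
            rw [← sq_abs (∑ t ∈ T, (Wl io U t a - Wm w io U t a))]
            exact pow_le_pow_left₀ (by positivity) ha.2.le 2
        _ ≤ _ := sum_le_sum_of_subset_of_nonneg (filter_subset _ _) (fun _ _ _ => sq_nonneg _)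
    have g2 : (S2.card : ℝ) * η ^ 2 ≤ Bc * (V * (C * (LL / w))) := by
      have h6 : 0 < X ^ 2 := by positivity
      apply le_of_mul_le_mul_right _ h6
      calc (S2.card : ℝ) * η ^ 2 * X ^ 2 = (S2.card : ℝ) * (η * X) ^ 2 := by ring
        _ ≤ _ := g1
        _ = _ := by ring
    have g3 : V * (C * (LL / w)) ≤ η ^ 2 * (1 / 2 * (1 / LL ^ B)) := by
      have e1 : η ^ 2 * (1 / 2 * (1 / LL ^ B)) = 1 / (2 * LL ^ (3 * B + 2)) := by
        rw [hη]
        have : LL ^ (3 * B + 2) = LL ^ (B + 1) * LL ^ (B + 1) * LL ^ B := by rw [← pow_add, ← pow_add]; congr 1; ring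
        rw [this]
        field_simp
      rw [e1, le_div_iff₀ (by positivity)]
      have e2 : V * (C * (LL / w)) * (2 * LL ^ (3 * B + 2)) = (2 * C * V * LL ^ (3 * B + 3)) / w := by
        rw [pow_succ LL (3 * B + 2)]
        field_simp
      rw [e2, div_le_one hw0]
      refine le_trans ?_ hVV
      have hV0 : 0 ≤ V := pow_nonneg (by have := one_le_Vinv w; linarith) _
      apply mul_le_mul_of_nonneg_left _ (mul_nonneg (by linarith) hV0)
      exact pow_le_pow_right₀ hLL1 (by omega)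
    have hη2 : 0 < η ^ 2 := by positivity
    apply le_of_mul_le_mul_right _ hη2
    calc (S2.card : ℝ) * η ^ 2 ≤ Bc * (V * (C * (LL / w))) := g2
      _ ≤ Bc * (η ^ 2 * (1 / 2 * (1 / LL ^ B))) := mul_le_mul_of_nonneg_left g3 hBc0
      _ = _ := by ring
  have hfin := (card_le_card hsub).trans (card_union_le _ _)
  have hfin' : (((Bx m d H).filter (fun a => (∑ t ∈ T, Wm w io U t a + X) / LL ^ B <
      |L ^ k * ∑ t ∈ T, (Wn io U t a : ℝ) - ∑ t ∈ T, Wm w io U t a|)).card : ℝ) ≤ S1.card + S2.card := by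
    exact_mod_cast hfin
  calc _ ≤ (S1.card : ℝ) + S2.card := hfin'
    _ ≤ Bc * (1 / 2 * (1 / LL ^ B)) + Bc * (1 / 2 * (1 / LL ^ B)) := add_le_add hS1c hS2c
    _ = Bc / LL ^ B := by ring

end Pool.Agent.TP975.RP
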