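import Mathlib
import Pool.Agent.TP975.RP.Pw3
import Pool.Agent.TP975.RP.Mx4
import Pool.Agent.TP975.RP.Gn8

/-!
Windows at arbitrary points: the main term and the theorem.
-/

set_option autoImplicit false

namespace Pool.Agent.TP975.RP

open Finset
open Pool.Agent.H373R2.T7

variable {m d k : ℕ}

/-- the number of residue classes in which a polynomial vanishes -/
def omW {d : ℕ} (f : Fin (d + 1) → ℤ) (p : ℕ) : ℕ := ((range p).filter (fun n : ℕ => (p : ℤ) ∣ ev f (n : ℤ))).card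

/-- the truncated constant of a polynomial -/
noncomputable def cW {d : ℕ} (w : ℕ) (f : Fin (d + 1) → ℤ) : ℝ :=
  ∏ p ∈ (Icc 1 w).filter Nat.Prime, (1 - (omW f p : ℝ) / p) * (1 - 1 / (p : ℝ))⁻¹

lemma omC_t (i : Fin m) (t : ℤ) (a : Fin m → Fin (d + 1) → ℤ) (p : ℕ) :
    omC (fun _ : Fin 1 => i) (fun _ => Polynomial.X + Polynomial.C t) a p = omW (a i) p := by
  have hper : Pdc p (fun t => if (p : ℤ) ∣ ev (a i) t then (1 : ℝ) else 0) := by
    intro s t hst
    have := ev_mod (a i) p s t hst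
    simp only [this]
  have h1 := shift_inv p (fun t => if (p : ℤ) ∣ ev (a i) t then (1 : ℝ) else 0) hper t
  rw [← sum_filter, ← sum_filter, sum_const, sum_const, nsmul_eq_mul, nsmul_eq_mul, mul_one, mul_one] at h1
  have h2 : ((range p).filter (fun n : ℕ => (p : ℤ) ∣ ev (a i) (t + (n : ℤ)))).card =
      ((range p).filter (fun n : ℕ => (p : ℤ) ∣ ev (a i) (n : ℤ))).card := by exact_mod_cast h1
  unfold omC omW
  rw [← h2]
  congr 1
  apply filter_congr
  intro n _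
  simp only [Polynomial.eval_add, Polynomial.eval_X, Polynomial.eval_C]
  rw [add_comm (n : ℤ) t]
  exact ⟨fun ⟨_, h⟩ => h, fun h => ⟨0, h⟩⟩

lemma CwC_t (i : Fin m) (t : ℤ) (w : ℕ) (a : Fin m → Fin (d + 1) → ℤ) :
    CwC w (fun _ : Fin 1 => i) (fun _ => Polynomial.X + Polynomial.C t) a = cW w (a i) := by
  unfold CwC cW
  refine prod_congr rfl fun p _ => ?_
  rw [omC_t, pow_one]

lemma cW_bd (i : Fin m) (w : ℕ) (a : Fin m → Fin (d + 1) → ℤ) : 0 ≤ cW w (a i) ∧ cW w (a i) ≤ (Vz w)⁻¹ := by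
  have h := CwC_bd w (fun _ : Fin 1 => i) (fun _ => Polynomial.X + Polynomial.C (0 : ℤ)) a
  rw [CwC_t, pow_one] at h
  exact h

/-- one window of one polynomial -/
theorem winE (d N E M : ℕ) : ∃ H0 : ℕ, ∀ H : ℕ, H0 ≤ H → ∀ w : ℕ, 1 ≤ w → (w : ℝ) ≤ Real.log (Real.log H) ^ E →
    ∀ U : ℕ, 1 ≤ U → Real.log H ≤ U * Real.log (Real.log H) ^ N → ∀ (m : ℕ) (i : Fin m) (a : Fin m → Fin (d + 1) → ℤ)
    (t : ℤ), (∀ p ≤ w, p.Prime → omW (a i) p < p) →
    |∑ s ∈ Icc 1 U, lamz w (ev (a i) (t + s)).natAbs - cW w (a i) * U| ≤ U / Real.log (Real.log H) ^ M := by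
  obtain ⟨N0, h0⟩ := MG_eval 1 d 1 (E + 1) (M + 2)
  obtain ⟨H1, h1⟩ := V_small E 1
  obtain ⟨H2, h2⟩ := pow_small (2 * N) 1 (by norm_num)
  obtain ⟨H3, h3⟩ := ll_ev (2 * 2 ^ (E + M + 2))
  obtain ⟨H4, h4⟩ := Filter.eventually_atTop.1 (ev_log (max 3 ((N0 : ℝ) ^ 2)))
  refine ⟨max (max H1 H2) (max H3 H4), fun H hH w hw1 hwE U hU1 hLU m i a t hom => ?_⟩
  have a1 := h1 H (le_trans (le_trans (le_max_left _ _) (le_max_left _ _)) hH) w hwE
  have a2 := h2 H (le_trans (le_trans (le_max_right _ _) (le_max_left _ _)) hH)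
  have a3 := h3 H (le_trans (le_trans (le_max_left _ _) (le_max_right _ _)) hH)
  have a4 := h4 H (le_trans (le_trans (le_max_right _ _) (le_max_right _ _)) hH)
  set L := Real.log H with hL
  set LL := Real.log L with hLL
  have hL3 : 3 ≤ L := (le_max_left _ _).trans a4
  have hLN0 : (N0 : ℝ) ^ 2 ≤ L := (le_max_right _ _).trans a4
  have hL0 : 0 < L := by linarith
  rw [Real.rpow_one] at a2
  have p2 : (1 : ℝ) ≤ 2 ^ (E + M + 2) := one_le_pow₀ (by norm_num)
  have hLL2 : 2 ≤ LL := by linarith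
  have hLL0 : 0 < LL := by linarith
  have hU0 : (0 : ℝ) < U := by exact_mod_cast hU1
  -- U is at least the square root of L
  have hU2 : L ≤ (U : ℝ) ^ 2 := by
    have q1 : L ^ 2 ≤ ((U : ℝ) * LL ^ N) ^ 2 := pow_le_pow_left₀ hL0.le hLU 2
    have q2 : ((U : ℝ) * LL ^ N) ^ 2 = (U : ℝ) ^ 2 * LL ^ (2 * N) := by rw [mul_pow, ← pow_mul, mul_comm N 2]
    rw [q2] at q1
    have q3 : (U : ℝ) ^ 2 * LL ^ (2 * N) ≤ (U : ℝ) ^ 2 * L := mul_le_mul_of_nonneg_left a2 (by positivity)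
    have q4 : L * L ≤ (U : ℝ) ^ 2 * L := by nlinarith
    exact le_of_mul_le_mul_right q4 hL0
  have hlU : LL ≤ 2 * Real.log U := by
    have := Real.log_le_log hL0 hU2
    rw [Real.log_pow] at this
    push_cast at this
    linarith
  have hNU : N0 ≤ U := by
    have : (N0 : ℝ) ^ 2 ≤ (U : ℝ) ^ 2 := hLN0.trans hU2
    have h5 : (N0 : ℝ) ≤ U := le_of_sq_le_sq this hU0.le
    exact_mod_cast h5
  have hlU1 : 2 ^ (E + M + 2) ≤ Real.log U := by linarith
  have hlU0 : 0 < Real.log U := by linarith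
  have hwU : (w : ℝ) ≤ Real.log U ^ (E + 1) := by
    calc (w : ℝ) ≤ LL ^ E := hwE
      _ ≤ (2 * Real.log U) ^ E := pow_le_pow_left₀ hLL0.le hlU E
      _ = 2 ^ E * Real.log U ^ E := mul_pow _ _ _
      _ ≤ Real.log U * Real.log U ^ E := by
          apply mul_le_mul_of_nonneg_right _ (by positivity)
          refine le_trans ?_ hlU1
          exact pow_le_pow_right₀ (by norm_num) (by omega)
      _ = _ := by ring
  have key := h0 U hNU w hw1 hwU m (fun _ : Fin 1 => i) (fun _ => Polynomial.X + Polynomial.C t) a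
    (fun _ => by rw [Polynomial.natDegree_X_add_C]) (fun p hp hpp => by rw [omC_t]; exact hom p hp hpp)
  rw [CwC_t, pow_one] at key
  rw [pow_one] at a1
  have e1 : MG w (fun _ : Fin 1 => i) (Icc 1 U) (Gp (fun _ : Fin 1 => Polynomial.X + Polynomial.C t)) a =
      ∑ s ∈ Icc 1 U, lamz w (ev (a i) (t + s)).natAbs := by
    unfold MG
    refine sum_congr rfl fun s _ => ?_
    unfold QM Gp
    simp only [Polynomial.eval_add, Polynomial.eval_X, Polynomial.eval_C, Fin.prod_univ_one]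
    rw [add_comm (s : ℤ) t]
  rw [e1] at key
  refine key.trans ?_
  have q1 : LL ^ (M + 2) ≤ 2 ^ (M + 2) * Real.log U ^ (M + 2) := by
    rw [← mul_pow]
    exact pow_le_pow_left₀ hLL0.le hlU _
  have q2 : (2 : ℝ) ^ (M + 2) ≤ LL := by
    have : (2 : ℝ) ^ (M + 2) ≤ 2 ^ (E + M + 2) := pow_le_pow_right₀ (by norm_num) (by omega)
    linarith
  rw [mul_div_assoc', div_le_div_iff₀ (by positivity) (by positivity)]
  have hV0 : 0 ≤ (Vz w)⁻¹ := by have := one_le_Vinv w; linarith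
  calc (Vz w)⁻¹ * U * LL ^ M ≤ LL * U * LL ^ M := by gcongr
    _ = (U * LL ^ (M + 2)) / LL := by
        rw [pow_add LL M 2]; field_simp
    _ ≤ (U * (2 ^ (M + 2) * Real.log U ^ (M + 2))) / LL := by gcongr
    _ = (2 ^ (M + 2) / LL) * (U * Real.log U ^ (M + 2)) := by ring
    _ ≤ 1 * (U * Real.log U ^ (M + 2)) := by
        apply mul_le_mul_of_nonneg_right _ (by positivity)
        rw [div_le_one hLL0]
        exact q2
    _ = _ := one_mul _

/-- the model in one window -/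
theorem WmE (d k N E M : ℕ) : ∃ H0 : ℕ, ∀ H : ℕ, H0 ≤ H → ∀ w : ℕ, 1 ≤ w → (w : ℝ) ≤ Real.log (Real.log H) ^ E →
    ∀ U : ℕ, 1 ≤ U → Real.log H ≤ U * Real.log (Real.log H) ^ N → ∀ (m : ℕ) (io : Fin k → Fin m)
    (a : Fin m → Fin (d + 1) → ℤ) (t : ℤ), (∀ i, ∀ p ≤ w, p.Prime → omW (a i) p < p) →
    |Wm w io U t a - (U : ℝ) ^ k * ∏ j, cW w (a (io j))| ≤ (U : ℝ) ^ k / Real.log (Real.log H) ^ M := by
  obtain ⟨H1, h1⟩ := winE d N E (M + 2)
  obtain ⟨H2, h2⟩ := V_small E k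
  obtain ⟨H3, h3⟩ := V_small E 1
  obtain ⟨H4, h4⟩ := pow_small (N + M + 2) 1 (by norm_num)
  obtain ⟨H5, h5⟩ := ll_ev ((k : ℝ) + k ^ 2 + 1)
  obtain ⟨H6, h6⟩ := Filter.eventually_atTop.1 (ev_log 3)
  refine ⟨max (max (max H1 H2) (max H3 H4)) (max H5 H6), fun H hH w hw1 hwE U hU1 hLU m io a t hom => ?_⟩
  have b0 := le_trans (le_max_left _ _) hH
  have a1 := h1 H (le_trans (le_max_left _ _) (le_trans (le_max_left _ _) b0)) w hw1 hwE U hU1 hLU m
  have a2 := h2 H (le_trans (le_max_right _ _) (le_trans (le_max_left _ _) b0)) w hwE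
  have a3 := h3 H (le_trans (le_max_left _ _) (le_trans (le_max_right _ _) b0)) w hwE
  have a4 := h4 H (le_trans (le_max_right _ _) (le_trans (le_max_right _ _) b0))
  have a5 := h5 H (le_trans (le_trans (le_max_left _ _) (le_max_right _ _)) hH)
  have a6 := h6 H (le_trans (le_trans (le_max_right _ _) (le_max_right _ _)) hH)
  set L := Real.log H with hL
  set LL := Real.log L with hLL
  rw [Real.rpow_one] at a4
  rw [pow_one] at a3
  have hL0 : 0 < L := by linarith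
  have hk0 : (0 : ℝ) ≤ k := Nat.cast_nonneg _
  have hLL1 : 1 ≤ LL := by nlinarith
  have hLL0 : 0 < LL := by linarith
  have hU0 : (0 : ℝ) < U := by exact_mod_cast hU1
  set V := (Vz w)⁻¹ with hV
  have hV1 : 1 ≤ V := one_le_Vinv w
  have hVk : 0 ≤ V ^ k := by positivity
  -- all tuples
  have e1 : ∑ u ∈ Al k U, QM w io (tw t u) a = ∏ j, ∑ s ∈ Icc 1 U, lamz w (ev (a (io j)) (t + s)).natAbs := by
    unfold QM Al tw
    rw [prod_univ_sum]
  have f1 : |∑ u ∈ Al k U, QM w io (tw t u) a - (U : ℝ) ^ k * ∏ j, cW w (a (io j))| ≤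
      (U : ℝ) ^ k * (k * V ^ k * (1 / LL ^ (M + 2))) := by
    rw [e1]
    have g1 := prod_diff (univ : Finset (Fin k)) (fun j => (∑ s ∈ Icc 1 U, lamz w (ev (a (io j)) (t + s)).natAbs) / U)
      (fun j => cW w (a (io j))) V (1 / LL ^ (M + 2)) hV1 (by positivity) (by
        intro j _
        rw [abs_of_nonneg (div_nonneg (sum_nonneg fun _ _ => lamz_nonneg _ _) hU0.le), div_le_iff₀ hU0]
        calc ∑ s ∈ Icc 1 U, lamz w (ev (a (io j)) (t + s)).natAbs ≤ ∑ s ∈ Icc 1 U, V := sum_le_sum fun _ _ => lamz_le _ _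
          _ = V * U := by rw [sum_const, Nat.card_Icc, Nat.add_sub_cancel, nsmul_eq_mul]; ring) (by
        intro j _
        rw [abs_of_nonneg (cW_bd (io j) w a).1]
        exact (cW_bd (io j) w a).2) (by
        intro j _
        have g4 := a1 (io j) a t (hom (io j))
        have e : (∑ s ∈ Icc 1 U, lamz w (ev (a (io j)) (t + s)).natAbs) / U - cW w (a (io j)) =
            (∑ s ∈ Icc 1 U, lamz w (ev (a (io j)) (t + s)).natAbs - cW w (a (io j)) * U) / U := by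
          field_simp
        rw [e, abs_div, abs_of_pos hU0, div_le_iff₀ hU0]
        refine g4.trans (le_of_eq ?_)
        ring)
    rw [card_univ, Fintype.card_fin] at g1
    have e2 : ∏ j, ∑ s ∈ Icc 1 U, lamz w (ev (a (io j)) (t + s)).natAbs =
        (U : ℝ) ^ k * ∏ j, ((∑ s ∈ Icc 1 U, lamz w (ev (a (io j)) (t + s)).natAbs) / U) := by
      have : (U : ℝ) ^ k = ∏ j : Fin k, (U : ℝ) := by simp
      rw [this, ← prod_mul_distrib]
      refine prod_congr rfl fun j _ => ?_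
      field_simp
    rw [e2, ← mul_sub, abs_mul, abs_of_nonneg (by positivity : (0 : ℝ) ≤ (U : ℝ) ^ k)]
    exact mul_le_mul_of_nonneg_left g1 (by positivity)
  -- the others
  have e3 : ∑ u ∈ Al k U, QM w io (tw t u) a = Wm w io U t a +
      ∑ u ∈ (Al k U).filter (fun u => ¬ ∀ j j', j ≠ j' → io j = io j' → u j ≠ u j'), QM w io (tw t u) a := by
    unfold Wm Tu
    rw [sum_filter_add_sum_filter_not]
  have f2 : |∑ u ∈ (Al k U).filter (fun u => ¬ ∀ j j', j ≠ j' → io j = io j' → u j ≠ u j'), QM w io (tw t u) a| ≤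
      (k : ℝ) ^ 2 * ((U : ℝ) ^ k / U) * V ^ k := by
    rw [abs_of_nonneg (sum_nonneg fun u _ => (QM_bd w io (tw t u) a).1)]
    calc _ ≤ ∑ u ∈ (Al k U).filter (fun u => ¬ ∀ j j', j ≠ j' → io j = io j' → u j ≠ u j'), V ^ k :=
          sum_le_sum fun u _ => (QM_bd w io (tw t u) a).2
      _ = (((Al k U).filter (fun u => ¬ ∀ j j', j ≠ j' → io j = io j' → u j ≠ u j')).card : ℝ) * V ^ k := by
          rw [sum_const, nsmul_eq_mul]
      _ ≤ _ := mul_le_mul_of_nonneg_right (card_compl_Tu U hU1 io) hVk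
  have e4 : Wm w io U t a - (U : ℝ) ^ k * ∏ j, cW w (a (io j)) =
      (∑ u ∈ Al k U, QM w io (tw t u) a - (U : ℝ) ^ k * ∏ j, cW w (a (io j))) -
      ∑ u ∈ (Al k U).filter (fun u => ¬ ∀ j j', j ≠ j' → io j = io j' → u j ≠ u j'), QM w io (tw t u) a := by
    rw [e3]; ring
  rw [e4]
  refine (abs_sub _ _).trans ((add_le_add f1 f2).trans ?_)
  have hinvU : 1 / (U : ℝ) ≤ 1 / LL ^ (M + 2) := by
    apply one_div_le_one_div_of_le (by positivity)
    have q1 : LL ^ (M + 2) * LL ^ N ≤ U * LL ^ N := by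
      calc LL ^ (M + 2) * LL ^ N = LL ^ (N + M + 2) := by rw [← pow_add]; congr 1; ring
        _ ≤ L := a4
        _ ≤ _ := hLU
    exact le_of_mul_le_mul_right q1 (by positivity)
  have hUk : 0 < (U : ℝ) ^ k := by positivity
  calc (U : ℝ) ^ k * (k * V ^ k * (1 / LL ^ (M + 2))) + (k : ℝ) ^ 2 * ((U : ℝ) ^ k / U) * V ^ k
      = (U : ℝ) ^ k * (V ^ k * (k * (1 / LL ^ (M + 2)) + (k : ℝ) ^ 2 * (1 / U))) := by ring
    _ ≤ (U : ℝ) ^ k * (LL * (k * (1 / LL ^ (M + 2)) + (k : ℝ) ^ 2 * (1 / LL ^ (M + 2)))) := by gcongr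
    _ = (U : ℝ) ^ k * (LL * ((k + (k : ℝ) ^ 2) * (1 / LL ^ (M + 2)))) := by ring
    _ ≤ (U : ℝ) ^ k * (LL * (LL * (1 / LL ^ (M + 2)))) := by
        have : (k : ℝ) + (k : ℝ) ^ 2 ≤ LL := by linarith
        gcongr
    _ = _ := by rw [pow_add LL M 2]; field_simp

/-- the number of the prime values behind `t` -/
def winT {d : ℕ} (f : Fin (d + 1) → ℤ) (t : ℤ) (U : ℕ) : ℕ :=
  ((Icc 1 U).filter (fun u : ℕ => (ev f (t + u)).natAbs.Prime)).card

lemma fib_cardW (r : Fin m → ℕ) (i : Fin m) :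
    (univ.filter (fun j : Fin (∑ i, r i) => (finSigmaFinEquiv.symm j).1 = i)).card = r i := by
  classical
  have h : (univ : Finset (Fin (r i))).card = (univ.filter (fun j : Fin (∑ i, r i) => (finSigmaFinEquiv.symm j).1 = i)).card := by
    apply card_bij (fun s _ => finSigmaFinEquiv (⟨i, s⟩ : (i : Fin m) × Fin (r i)))
    · intro s _
      rw [mem_filter]
      refine ⟨mem_univ _, ?_⟩
      rw [Equiv.symm_apply_apply]
    · intro s _ s' _ heq
      have := finSigmaFinEquiv.injective heq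
      simpa using this
    · intro j hj
      rw [mem_filter] at hj
      obtain ⟨_, hj⟩ := hj
      generalize hs : finSigmaFinEquiv.symm j = s at hj
      obtain ⟨i', s⟩ := s
      simp only at hj
      subst hj
      exact ⟨s, mem_univ _, by rw [← hs, Equiv.apply_symm_apply]⟩
  rw [← h, card_univ, Fintype.card_fin]

open Classical in
theorem winds (m d : ℕ) (hd : 1 ≤ d) (r : Fin m → ℕ) (hr : ∀ i, r i ≤ d) (A B : ℕ) (ε : ℝ) (hε : 0 < ε) :
    ∃ E : ℕ, ∀ E' : ℕ, ∃ H0 : ℕ, ∀ H : ℕ, H0 ≤ H → ∀ w : ℕ, Real.log (Real.log H) ^ E ≤ w →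
    (w : ℝ) ≤ Real.log (Real.log H) ^ E' → ∀ (T : Finset ℤ) (U : ℕ), Real.log H / Real.log (Real.log H) ^ B ≤ U →
    (U : ℝ) ≤ Real.log H * Real.log (Real.log H) ^ B → (∀ t ∈ T, |(t : ℝ)| ≤ Real.log H ^ A) →
    Real.log H ^ (1 + ε) ≤ T.card →
    (((Bx m d H).filter (fun f => (∀ i, ∀ p ≤ w, p.Prime → omW (f i) p < p) ∧
      1 / Real.log (Real.log H) ^ B < |(∑ t ∈ T, ((∏ i, (winT (f i) t U).descFactorial (r i) : ℕ) : ℝ)) / T.card -
        ∏ i, (U * cW w (f i) / Real.log H) ^ r i|)).card : ℝ) ≤ (Bx m d H).card / Real.log (Real.log H) ^ B := by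
  set k := ∑ i, r i with hk
  obtain ⟨B', hB'⟩ : ∃ B', B' = B + B * k + 2 := ⟨_, rfl⟩
  obtain ⟨E1, h1⟩ := cntW m d k A B B' hd ε hε
  refine ⟨E1, fun E' => ?_⟩
  obtain ⟨H1, h2⟩ := h1 E'
  obtain ⟨H3, h3⟩ := WmE d k B E' B'
  obtain ⟨H4, h4⟩ := V_small E' k
  obtain ⟨H5, h5⟩ := ll_ev 4
  obtain ⟨H6, h6⟩ := Filter.eventually_atTop.1 (ev_log 3)
  refine ⟨max (max (max H1 H3) (max H4 H5)) H6, fun H hH w hw1 hw2 T U hU1 hU2 hT hX => ?_⟩
  have b0 := le_trans (le_max_left _ _) hH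
  have a1 := h2 H (le_trans (le_max_left _ _) (le_trans (le_max_left _ _) b0)) w hw1 hw2
  have a3 := h3 H (le_trans (le_max_right _ _) (le_trans (le_max_left _ _) b0)) w
  have a4 := h4 H (le_trans (le_max_left _ _) (le_trans (le_max_right _ _) b0)) w hw2
  have a5 := h5 H (le_trans (le_max_right _ _) (le_trans (le_max_right _ _) b0))
  have a6 := h6 H (le_trans (le_max_right _ _) hH)
  set L := Real.log H with hL
  set LL := Real.log L with hLL
  have hL0 : 0 < L := by linarith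
  have hLL0 : 0 < LL := by linarith
  have hLL1 : 1 ≤ LL := by linarith
  have hw1r : (1 : ℝ) ≤ w := (one_le_pow₀ hLL1).trans hw1
  have hw1' : 1 ≤ w := by exact_mod_cast hw1r
  have hLU : L ≤ U * LL ^ B := by
    rw [div_le_iff₀ (by positivity)] at hU1
    exact hU1
  have hU0 : (0 : ℝ) < U := lt_of_lt_of_le (by positivity) hU1
  have hUp : 1 ≤ U := by exact_mod_cast hU0
  set io : Fin k → Fin m := fun j => (finSigmaFinEquiv.symm j).1 with hio
  have hfib : ∀ i, (univ.filter (fun j => io j = i)).card = r i := fun i => fib_cardW r i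
  have key := a1 io (fun i => by rw [hfib]; exact hr i) T U hUp hLU hU2 hT hX
  set X0 : ℝ := (T.card : ℝ) with hX0
  have hX00 : 0 < X0 := lt_of_lt_of_le (Real.rpow_pos_of_pos hL0 _) hX
  set Bc : ℝ := ((Bx m d H).card : ℝ) with hBc
  have hBc0 : 0 ≤ Bc := Nat.cast_nonneg _
  have hWn : ∀ (t : ℤ) (f : Fin m → Fin (d + 1) → ℤ), Wn io U t f = ∏ i, (winT (f i) t U).descFactorial (r i) := by
    intro t f
    unfold Wn winT
    refine prod_congr rfl fun i _ => ?_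
    rw [hfib]
  have hprod : ∀ f : Fin m → Fin (d + 1) → ℤ, ∏ i, (U * cW w (f i) / L) ^ r i = (U : ℝ) ^ k / L ^ k * ∏ j, cW w (f (io j)) := by
    intro f
    have e1 : ∏ j : Fin k, (U * cW w (f (io j)) / L) = ∏ i, (U * cW w (f i) / L) ^ r i := by
      rw [← prod_fiberwise (s := univ) (g := io)]
      refine prod_congr rfl fun i _ => ?_
      have e2 : ∀ j ∈ univ.filter (fun j => io j = i), (U : ℝ) * cW w (f (io j)) / L = U * cW w (f i) / L := by
        intro j hj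
        rw [mem_filter] at hj
        rw [hj.2]
      rw [prod_congr rfl e2, prod_const, hfib]
    rw [← e1]
    have e3 : ∀ j : Fin k, (U : ℝ) * cW w (f (io j)) / L = (U / L) * cW w (f (io j)) := fun j => by ring
    simp only [e3]
    rw [prod_mul_distrib, prod_const, card_univ, Fintype.card_fin, div_pow]
  have hsub : (Bx m d H).filter (fun f => (∀ i, ∀ p ≤ w, p.Prime → omW (f i) p < p) ∧
      1 / LL ^ B < |(∑ t ∈ T, ((∏ i, (winT (f i) t U).descFactorial (r i) : ℕ) : ℝ)) / X0 -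
        ∏ i, (U * cW w (f i) / L) ^ r i|) ⊆
      (Bx m d H).filter (fun a => (∑ t ∈ T, Wm w io U t a + X0 * (U : ℝ) ^ k) / LL ^ B' <
      |L ^ k * ∑ t ∈ T, (Wn io U t a : ℝ) - ∑ t ∈ T, Wm w io U t a|) := by
    intro f hf
    rw [mem_filter] at hf ⊢
    obtain ⟨hfB, hom, hgt⟩ := hf
    refine ⟨hfB, ?_⟩
    by_contra hcon
    rw [not_lt] at hcon
    apply absurd hgt
    rw [not_lt]
    have e1 : ∑ t ∈ T, ((∏ i, (winT (f i) t U).descFactorial (r i) : ℕ) : ℝ) = ∑ t ∈ T, (Wn io U t f : ℝ) := by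
      refine sum_congr rfl fun t _ => ?_
      rw [hWn]
    rw [e1, hprod]
    set P := ∑ t ∈ T, (Wn io U t f : ℝ) with hP
    set Mf := ∑ t ∈ T, Wm w io U t f with hMf
    set Q := ∏ j, cW w (f (io j)) with hQ
    set X := X0 * (U : ℝ) ^ k with hXd
    have hXpos : 0 < X := mul_pos hX00 (pow_pos hU0 k)
    have g1 : |Mf - X * Q| ≤ X / LL ^ B' := by
      have e2 : X * Q = ∑ t ∈ T, ((U : ℝ) ^ k * Q) := by
        rw [sum_const, nsmul_eq_mul, hXd, hX0]; ring
      rw [e2, hMf, ← sum_sub_distrib]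
      refine (abs_sum_le_sum_abs _ _).trans ?_
      calc ∑ t ∈ T, |Wm w io U t f - (U : ℝ) ^ k * Q| ≤ ∑ t ∈ T, (U : ℝ) ^ k / LL ^ B' := by
            refine sum_le_sum fun t _ => ?_
            exact a3 hw1' hw2 U hUp hLU m io f t hom
        _ = _ := by rw [sum_const, nsmul_eq_mul, hXd, hX0]; ring
    have g2 : Mf ≤ X * LL := by
      calc Mf ≤ ∑ t ∈ T, (U : ℝ) ^ k * ((Vz w)⁻¹) ^ k := sum_le_sum fun t _ => (Wm_bd w io U t f).2
        _ = X * ((Vz w)⁻¹) ^ k := by rw [sum_const, nsmul_eq_mul, hXd, hX0]; ring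
        _ ≤ _ := mul_le_mul_of_nonneg_left a4 hXpos.le
    have g3 : |L ^ k * P - X * Q| ≤ X * (LL + 2) / LL ^ B' := by
      calc |L ^ k * P - X * Q| ≤ |L ^ k * P - Mf| + |Mf - X * Q| := abs_sub_le _ _ _
        _ ≤ (Mf + X) / LL ^ B' + X / LL ^ B' := add_le_add hcon g1
        _ ≤ (X * LL + X) / LL ^ B' + X / LL ^ B' := by gcongr
        _ = _ := by ring
    have hLk : 0 < L ^ k := by positivity
    have e3 : P / X0 - (U : ℝ) ^ k / L ^ k * Q = (L ^ k * P - X * Q) / (X0 * L ^ k) := by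
      rw [hXd]; field_simp
    rw [e3, abs_div, abs_of_pos (mul_pos hX00 hLk), div_le_iff₀ (mul_pos hX00 hLk)]
    refine g3.trans ?_
    have hUL : (U : ℝ) ^ k ≤ L ^ k * LL ^ (B * k) := by
      rw [pow_mul, ← mul_pow]
      exact pow_le_pow_left₀ hU0.le hU2 k
    have hLB : LL ^ B' = LL ^ B * LL ^ (B * k) * LL ^ 2 := by rw [hB', pow_add, pow_add]
    rw [hXd, div_le_iff₀ (by positivity), hLB]
    have h8 : LL + 2 ≤ LL ^ 2 := by nlinarith
    calc X0 * (U : ℝ) ^ k * (LL + 2) ≤ X0 * (L ^ k * LL ^ (B * k)) * LL ^ 2 :=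
          mul_le_mul (mul_le_mul_of_nonneg_left hUL hX00.le) h8 (by linarith)
            (mul_nonneg hX00.le (mul_nonneg hLk.le (pow_nonneg hLL0.le _)))
      _ = 1 / LL ^ B * (X0 * L ^ k) * (LL ^ B * LL ^ (B * k) * LL ^ 2) := by field_simp
  have hfin : (((Bx m d H).filter (fun f => (∀ i, ∀ p ≤ w, p.Prime → omW (f i) p < p) ∧
      1 / LL ^ B < |(∑ t ∈ T, ((∏ i, (winT (f i) t U).descFactorial (r i) : ℕ) : ℝ)) / X0 -
        ∏ i, (U * cW w (f i) / L) ^ r i|)).card : ℝ) ≤ Bc / LL ^ B' := by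
    refine le_trans ?_ key
    exact_mod_cast card_le_card hsub
  refine hfin.trans ?_
  apply div_le_div_of_nonneg_left hBc0 (by positivity)
  exact pow_le_pow_right₀ hLL1 (by rw [hB']; omega)

end Pool.Agent.TP975.RP
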