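import Mathlib
import Pool.Agent.TP975.RP.Gn5
import Pool.Agent.TP975.RP.Gn8
import Pool.Agent.TP975.RP.Cd9

/-!
Arbitrary sets of tuples of arguments.
-/

set_option autoImplicit false

namespace Pool.Agent.TP975.RP

open Finset
open Pool.Agent.H373R2.T7

/-- the points of a set of tuples -/
noncomputable def GA {k : ℕ} (n : ℕ) : Fin k → ℤ := (Encodable.decode (α := Fin k → ℤ) n).getD 0

lemma GA_encode {k : ℕ} (t : Fin k → ℤ) : GA (Encodable.encode t) = t := by
  unfold GA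
  rw [Encodable.encodek, Option.getD_some]

/-- the set of the codes -/
noncomputable def TA {k : ℕ} (T : Finset (Fin k → ℤ)) : Finset ℕ := T.map ⟨Encodable.encode, Encodable.encode_injective⟩

lemma TA_card {k : ℕ} (T : Finset (Fin k → ℤ)) : (TA T).card = T.card := card_map _

lemma TA_filter {k : ℕ} (T : Finset (Fin k → ℤ)) (P : (Fin k → ℤ) → Prop) [DecidablePred (fun n : ℕ => P (GA n))]
    [DecidablePred P] : ((TA T).filter (fun n => P (GA n))).card = (T.filter P).card := by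
  unfold TA
  rw [filter_map, card_map]
  congr 1
  apply filter_congr
  intro t _
  rw [Function.comp_apply, Function.Embedding.coeFn_mk, GA_encode]

lemma TA_pairs {k : ℕ} (T : Finset (Fin k → ℤ)) (P : (Fin k → ℤ) → (Fin k → ℤ) → Prop)
    [DecidablePred (fun q : ℕ × ℕ => P (GA q.1) (GA q.2))]
    [DecidablePred (fun q : (Fin k → ℤ) × (Fin k → ℤ) => P q.1 q.2)] :
    (((TA T) ×ˢ (TA T)).filter (fun q => P (GA q.1) (GA q.2))).card = ((T ×ˢ T).filter (fun q => P q.1 q.2)).card := by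
  symm
  apply card_bij (fun q _ => (Encodable.encode q.1, Encodable.encode q.2))
  · intro q hq
    rw [mem_filter, mem_product] at hq
    rw [mem_filter, mem_product]
    simp only [GA_encode]
    exact ⟨⟨mem_map.2 ⟨q.1, hq.1.1, rfl⟩, mem_map.2 ⟨q.2, hq.1.2, rfl⟩⟩, hq.2⟩
  · intro q _ q' _ h
    rw [Prod.mk.injEq] at h
    exact Prod.ext (Encodable.encode_injective h.1) (Encodable.encode_injective h.2)
  · intro q hq
    rw [mem_filter, mem_product] at hq
    obtain ⟨⟨h1, h2⟩, h3⟩ := hq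
    unfold TA at h1 h2
    rw [mem_map] at h1 h2
    obtain ⟨t1, ht1, e1⟩ := h1
    obtain ⟨t2, ht2, e2⟩ := h2
    simp only [Function.Embedding.coeFn_mk] at e1 e2
    refine ⟨(t1, t2), ?_, Prod.ext e1 e2⟩
    rw [mem_filter, mem_product]
    rw [← e1, ← e2, GA_encode, GA_encode] at h3
    exact ⟨⟨ht1, ht2⟩, h3⟩

lemma MG_arb {d k : ℕ} (w : ℕ) (T : Finset (Fin k → ℤ)) (a : Fin 1 → Fin (d + 1) → ℤ) :
    MG w (fun _ : Fin k => (0 : Fin 1)) (TA T) GA a = ((Vz w)⁻¹) ^ k *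
      ((T.filter (fun t => ∀ j, ∀ p ∈ pz w, ¬ (p : ℤ) ∣ ev (a 0) (t j))).card : ℝ) := by
  classical
  unfold MG TA
  rw [sum_map]
  simp only [Function.Embedding.coeFn_mk, GA_encode]
  rw [card_filter]
  push_cast
  rw [mul_sum]
  refine sum_congr rfl fun t _ => ?_
  unfold QM lamz
  rw [prod_ite_zero]
  simp only [mem_univ, forall_true_left, Int.natCast_dvd]
  split_ifs with h
  · rw [prod_const, card_univ, Fintype.card_fin, mul_one]
  · rw [mul_zero]

theorem arb (d k : ℕ) (hk : 1 ≤ k) (hkd : k ≤ d) (c0 A B : ℕ) (ε : ℝ) (hε : 0 < ε) : ∃ E : ℕ, ∀ E' : ℕ, ∃ H0 : ℕ,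
    ∀ H : ℕ, H0 ≤ H → ∀ w : ℕ, Real.log (Real.log H) ^ E ≤ w → (w : ℝ) ≤ Real.log (Real.log H) ^ E' →
    ∀ T : Finset (Fin k → ℤ), (∀ t ∈ T, Function.Injective t) → (∀ t ∈ T, ∀ j, |(t j : ℝ)| ≤ Real.log H ^ A) →
    ((T ×ˢ T).filter (fun q => ∃ j j', q.1 j = q.2 j')).card ≤ c0 * T.card →
    Real.log H ^ ((k : ℝ) + ε) ≤ T.card →
    (((QQ d H).filter (fun f => (T.card : ℝ) / Real.log H ^ k / Real.log (Real.log H) ^ B <
      |((T.filter (fun t => ∀ j, (ev f (t j)).natAbs.Prime)).card : ℝ) -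
        (∏ p ∈ (Icc 1 w).filter Nat.Prime, (1 - 1 / (p : ℝ))⁻¹) ^ k *
        ((T.filter (fun t => ∀ j, ∀ p ≤ w, p.Prime → ¬ (p : ℤ) ∣ ev f (t j))).card : ℝ) / Real.log H ^ k|)).card : ℝ) ≤
      (QQ d H).card / Real.log (Real.log H) ^ B := by
  classical
  obtain ⟨E1, h1⟩ := cntG 1 d k (k * (A + 2)) c0 (B + 2) (hk.trans hkd) ε hε
  refine ⟨E1, fun E2 => ?_⟩
  obtain ⟨H1, h1⟩ := h1 E2
  obtain ⟨H2, h2⟩ := V_small E2 k
  obtain ⟨H3, h3⟩ := ll_ev 2
  obtain ⟨H4, h4⟩ := Filter.eventually_atTop.1 (ev_log 3)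
  refine ⟨max (max H1 H2) (max H3 H4), fun H hH w hw1 hw2 T hinj hbd hco hT => ?_⟩
  have b1 := le_trans (le_max_left _ _) (le_trans (le_max_left _ _) hH)
  have b2 := le_trans (le_max_right _ _) (le_trans (le_max_left _ _) hH)
  have b3 := le_trans (le_max_left _ _) (le_trans (le_max_right _ _) hH)
  have b4 := le_trans (le_max_right _ _) (le_trans (le_max_right _ _) hH)
  have hV := h2 H b2 w hw2
  have hLL2 := h3 H b3
  have hL3 := h4 H b4
  have hcnt := h1 H b1 w hw1 hw2 (fun _ : Fin k => (0 : Fin 1))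
    (fun i => (card_filter_le _ _).trans (by rw [card_univ, Fintype.card_fin]; exact hkd)) (TA T) GA
  set L := Real.log H with hL
  set LL := Real.log L with hLL
  have hL0 : 0 < L := by linarith
  have hL1 : 1 ≤ L := by linarith
  have hLL0 : 0 < LL := by linarith
  have hLL1 : 1 ≤ LL := by linarith
  have hTpos : (0 : ℝ) < T.card := lt_of_lt_of_le (Real.rpow_pos_of_pos hL0 _) hT
  have hTne : T.Nonempty := by
    rw [← card_pos]; exact_mod_cast hTpos
  have hmemTA : ∀ n ∈ TA T, ∃ t ∈ T, GA n = t := by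
    intro n hn
    unfold TA at hn
    rw [mem_map] at hn
    obtain ⟨t, ht, e⟩ := hn
    refine ⟨t, ht, ?_⟩
    rw [← e, Function.Embedding.coeFn_mk, GA_encode]
  -- c0 is positive
  have hc0 : 1 ≤ c0 := by
    by_contra hc
    have hc' : c0 = 0 := by omega
    rw [hc', zero_mul] at hco
    obtain ⟨t, ht⟩ := hTne
    have hmem : (t, t) ∈ (T ×ˢ T).filter (fun q => ∃ j j', q.1 j = q.2 j') := by
      rw [mem_filter, mem_product]
      exact ⟨⟨ht, ht⟩, ⟨⟨0, by omega⟩, ⟨0, by omega⟩, rfl⟩⟩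
    have := card_pos.2 ⟨_, hmem⟩
    omega
  have hP : Pts (k * (A + 2)) c0 H (fun _ : Fin k => (0 : Fin 1)) (TA T) GA := by
    refine ⟨?_, ?_, ?_⟩
    · intro n hn j
      obtain ⟨t, ht, e⟩ := hmemTA n hn
      rw [e]
      refine (hbd t ht j).trans (pow_le_pow_right₀ hL1 ?_)
      calc A ≤ 1 * (A + 2) := by omega
        _ ≤ k * (A + 2) := Nat.mul_le_mul_right _ hk
    · rw [filter_false_of_mem, card_empty]
      · omega
      · intro n hn
        obtain ⟨t, ht, e⟩ := hmemTA n hn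
        rw [e, not_not]
        intro j j' hjj _ heq
        exact hjj (hinj t ht heq)
    · rw [TA_card]
      refine le_trans (le_of_eq ?_) hco
      rw [← TA_pairs T (fun u v => ∃ j j', u j = v j')]
      congr 1
      apply filter_congr
      intro q _
      unfold Sp
      push Not
      simp
  rw [TA_card] at hcnt
  have hTup : (T.card : ℝ) ≤ L ^ (k * (A + 2)) := by
    have q1 : T ⊆ Fintype.piFinset (fun _ : Fin k => Icc (-(⌊L ^ A⌋₊ : ℤ)) ⌊L ^ A⌋₊) := by
      intro t ht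
      rw [Fintype.mem_piFinset]
      intro j
      rw [mem_Icc, ← abs_le]
      have h5 := hbd t ht j
      have h6 : (((t j).natAbs : ℕ) : ℝ) ≤ L ^ A := by
        rw [Nat.cast_natAbs]; exact_mod_cast h5
      have h7 := Nat.le_floor h6
      rw [← Int.natCast_natAbs]
      exact_mod_cast h7
    have q2 := card_le_card q1
    rw [Fintype.card_piFinset_const, Int.card_Icc] at q2
    have q3 : ((⌊L ^ A⌋₊ : ℤ) + 1 - -(⌊L ^ A⌋₊ : ℤ)).toNat = 2 * ⌊L ^ A⌋₊ + 1 := by omega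
    rw [q3] at q2
    have q4 : ((2 * ⌊L ^ A⌋₊ + 1 : ℕ) : ℝ) ≤ L ^ (A + 2) := by
      push_cast
      have q5 : (⌊L ^ A⌋₊ : ℝ) ≤ L ^ A := Nat.floor_le (by positivity)
      have q6 : 1 ≤ L ^ A := one_le_pow₀ hL1
      have q7 : L ^ (A + 2) = L ^ A * L ^ 2 := pow_add _ _ _
      have q8 : 9 ≤ L ^ 2 := by nlinarith
      rw [q7]
      nlinarith
    calc (T.card : ℝ) ≤ ((2 * ⌊L ^ A⌋₊ + 1 : ℕ) : ℝ) ^ k := by exact_mod_cast q2
      _ ≤ (L ^ (A + 2)) ^ k := pow_le_pow_left₀ (Nat.cast_nonneg _) q4 k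
      _ = L ^ (k * (A + 2)) := by rw [← pow_mul, mul_comm]
  have hcnt2 := hcnt hP hT hTup
  have hLk : 0 < L ^ k := by positivity
  have hcardQ : ((Bx 1 d H).card : ℝ) = (QQ d H).card := by
    rw [card_Bx, card_QQ, mul_one]
  have hkey : ((QQ d H).filter (fun f => (T.card : ℝ) / L ^ k / LL ^ B <
      |((T.filter (fun t => ∀ j, (ev f (t j)).natAbs.Prime)).card : ℝ) -
        (∏ p ∈ (Icc 1 w).filter Nat.Prime, (1 - 1 / (p : ℝ))⁻¹) ^ k *
        ((T.filter (fun t => ∀ j, ∀ p ≤ w, p.Prime → ¬ (p : ℤ) ∣ ev f (t j))).card : ℝ) / L ^ k|)).card ≤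
      ((Bx 1 d H).filter (fun a => (MG w (fun _ : Fin k => (0 : Fin 1)) (TA T) GA a + T.card) / LL ^ (B + 2) <
      |L ^ k * piG (fun _ : Fin k => (0 : Fin 1)) (TA T) GA a - MG w (fun _ : Fin k => (0 : Fin 1)) (TA T) GA a|)).card := by
    rw [← card_one]
    apply card_le_card
    intro a ha
    rw [mem_filter] at ha ⊢
    refine ⟨ha.1, ?_⟩
    have hgt := ha.2
    have e1 : (piG (fun _ : Fin k => (0 : Fin 1)) (TA T) GA a : ℝ) =
        ((T.filter (fun t => ∀ j, (ev (a 0) (t j)).natAbs.Prime)).card : ℝ) := by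
      unfold piG
      norm_cast
      exact TA_filter T (fun t => ∀ j, (ev (a 0) (t j)).natAbs.Prime)
    have e2 : ((T.filter (fun t => ∀ j, ∀ p ≤ w, p.Prime → ¬ (p : ℤ) ∣ ev (a 0) (t j))).card : ℝ) =
        ((T.filter (fun t => ∀ j, ∀ p ∈ pz w, ¬ (p : ℤ) ∣ ev (a 0) (t j))).card : ℝ) := by
      congr 2
      apply filter_congr
      intro t _
      simp only [mem_pz, and_imp]
    have e3 : (∏ p ∈ (Icc 1 w).filter Nat.Prime, (1 - 1 / (p : ℝ))⁻¹) = (Vz w)⁻¹ := by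
      unfold Vz pz
      rw [prod_inv_distrib]
    rw [MG_arb, e1]
    rw [e2, e3] at hgt
    set P := ((T.filter (fun t => ∀ j, (ev (a 0) (t j)).natAbs.Prime)).card : ℝ) with hP'
    set R := ((T.filter (fun t => ∀ j, ∀ p ∈ pz w, ¬ (p : ℤ) ∣ ev (a 0) (t j))).card : ℝ) with hR
    set V := ((Vz w)⁻¹) ^ k with hVd
    have hV0 : 0 ≤ V := pow_nonneg (by have := one_le_Vinv w; linarith) _
    have hR1 : R ≤ T.card := by rw [hR]; exact_mod_cast card_filter_le _ _
    have hR0 : 0 ≤ R := Nat.cast_nonneg _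
    have hVR : V * R + T.card ≤ T.card * LL ^ 2 := by
      have q1 : V * R ≤ LL * T.card := mul_le_mul hV hR1 hR0 hLL0.le
      have q2 : LL + 1 ≤ LL ^ 2 := by nlinarith
      have q3 := mul_le_mul_of_nonneg_left q2 hTpos.le
      linarith
    have hlow : (V * R + T.card) / LL ^ (B + 2) ≤ T.card / LL ^ B := by
      rw [div_le_div_iff₀ (by positivity) (by positivity), pow_add]
      calc (V * R + T.card) * LL ^ B ≤ (T.card * LL ^ 2) * LL ^ B := mul_le_mul_of_nonneg_right hVR (by positivity)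
        _ = T.card * (LL ^ B * LL ^ 2) := by ring
    have hgt2 : T.card / LL ^ B < |L ^ k * P - V * R| := by
      have r1 := mul_lt_mul_of_pos_left hgt hLk
      have r2 : L ^ k * ((T.card : ℝ) / L ^ k / LL ^ B) = T.card / LL ^ B := by field_simp
      have r3 : L ^ k * |P - V * R / L ^ k| = |L ^ k * P - V * R| := by
        rw [← abs_of_pos hLk, ← abs_mul, abs_of_pos hLk, mul_sub]
        congr 2
        field_simp
      rw [r2, r3] at r1
      exact r1
    exact lt_of_le_of_lt hlow hgt2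
  have hkey' : (((QQ d H).filter (fun f => (T.card : ℝ) / L ^ k / LL ^ B <
      |((T.filter (fun t => ∀ j, (ev f (t j)).natAbs.Prime)).card : ℝ) -
        (∏ p ∈ (Icc 1 w).filter Nat.Prime, (1 - 1 / (p : ℝ))⁻¹) ^ k *
        ((T.filter (fun t => ∀ j, ∀ p ≤ w, p.Prime → ¬ (p : ℤ) ∣ ev f (t j))).card : ℝ) / L ^ k|)).card : ℝ) ≤
      (QQ d H).card / LL ^ (B + 2) := by
    rw [← hcardQ]
    refine le_trans ?_ hcnt2
    exact_mod_cast hkey
  refine le_trans (le_of_eq ?_) (hkey'.trans ?_)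
  · congr 2
  · apply div_le_div_of_nonneg_left (Nat.cast_nonneg _) (by positivity)
    exact pow_le_pow_right₀ hLL1 (by omega)

end Pool.Agent.TP975.RP
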