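import Mathlib
import Pool.Agent.TP975.RP.Mx4
import Pool.Agent.TP975.RP.Mod

/-!
Exponential moments of sifted sums: one prime.
-/

set_option autoImplicit false

namespace Pool.Agent.TP975.RP

open Finset
open Pool.Agent.H373R2.T7

lemma crt2 (P p : ℕ) (hP : 0 < P) (hp : 0 < p) (hc : P.Coprime p) (F : ℕ → ℕ → ℝ) :
    ∑ n ∈ range (P * p), F (n % P) (n % p) = ∑ a ∈ range P, ∑ b ∈ range p, F a b := by
  rw [← sum_product']
  refine sum_bij' (fun n _ => (n % P, n % p)) (fun q _ => (Nat.chineseRemainder hc q.1 q.2 : ℕ)) ?_ ?_ ?_ ?_ ?_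
  · intro n _
    exact mem_product.2 ⟨mem_range.2 (Nat.mod_lt _ hP), mem_range.2 (Nat.mod_lt _ hp)⟩
  · intro q _
    exact mem_range.2 (Nat.chineseRemainder_lt_mul hc q.1 q.2 hP.ne' hp.ne')
  · intro n hn
    have h1 := Nat.chineseRemainder_modEq_unique hc (z := n) (Nat.mod_modEq n P).symm (Nat.mod_modEq n p).symm
    exact (Nat.ModEq.eq_of_lt_of_lt h1 (mem_range.1 hn)
      (Nat.chineseRemainder_lt_mul hc (n % P) (n % p) hP.ne' hp.ne')).symm
  · intro q hq
    rw [mem_product, mem_range, mem_range] at hq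
    have h1 : (Nat.chineseRemainder hc q.1 q.2 : ℕ) % P = q.1 :=
      Eq.trans (Nat.chineseRemainder hc q.1 q.2).2.1 (Nat.mod_eq_of_lt hq.1)
    have h2 : (Nat.chineseRemainder hc q.1 q.2 : ℕ) % p = q.2 :=
      Eq.trans (Nat.chineseRemainder hc q.1 q.2).2.2 (Nat.mod_eq_of_lt hq.2)
    exact Prod.ext h1 h2
  · intro n _
    rfl

lemma per_count (p : ℕ) (hp : 0 < p) (c : ℤ) :
    ((range p).filter (fun b : ℕ => (p : ℤ) ∣ (b : ℤ) + c)).card = 1 := by
  have hp0 : (0 : ℤ) < p := by exact_mod_cast hp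
  rw [card_eq_one]
  refine ⟨((-c) % (p : ℤ)).toNat, ?_⟩
  have h1 := Int.emod_lt_of_pos (-c) hp0
  have h2 := Int.emod_nonneg (-c) hp0.ne'
  ext b
  rw [mem_filter, mem_range, mem_singleton]
  constructor
  · rintro ⟨h3, h4⟩
    have h5 : (b : ℤ) % p = (-c) % p := by
      apply Int.ModEq.eq
      rw [Int.modEq_iff_dvd]
      have e : -c - (b : ℤ) = -((b : ℤ) + c) := by ring
      rw [e]
      exact (dvd_neg).2 h4
    rw [Int.emod_eq_of_lt (by omega) (by omega)] at h5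
    omega
  · intro h3
    have h4 : (b : ℤ) = (-c) % p := by omega
    refine ⟨by omega, ?_⟩
    rw [h4]
    have h5 := Int.emod_add_mul_ediv (-c) (p : ℤ)
    refine ⟨-((-c) / (p : ℤ)), ?_⟩
    linarith

/-- the exponential moment for one prime -/
lemma one_prime (I : Finset ℕ) (r : ℕ → ℤ) (W : ℕ → ℝ) (D K N θ : ℝ) (p : ℕ) (hp : p.Prime) (hW0 : ∀ i ∈ I, 0 ≤ W i)
    (hWD : ∀ i ∈ I, W i ≤ D) (hD : 0 ≤ D) (hK : ∀ b : ℕ, (((I.filter (fun i => (p : ℤ) ∣ (b : ℤ) + r i)).card : ℕ) : ℝ) ≤ K)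
    (hN : (I.card : ℝ) ≤ N) (hθ : |θ| * (2 * D * K) ≤ 1) :
    ∑ b ∈ range p, Real.exp (θ * ∑ i ∈ I, W i * ((1 - 1 / (p : ℝ))⁻¹ * (if (p : ℤ) ∣ (b : ℤ) + r i then 0 else 1) - 1)) ≤
      p * Real.exp (θ ^ 2 * (4 * D ^ 2 * K * N / p)) := by
  classical
  have hp2 : (2 : ℝ) ≤ p := by exact_mod_cast hp.two_le
  have hp0 : (0 : ℝ) < p := by linarith
  have hK0 : 0 ≤ K := (Nat.cast_nonneg _).trans (hK 0)
  set q : ℝ := (1 - 1 / (p : ℝ))⁻¹ with hq
  have hq1 : 1 - 1 / (p : ℝ) = (p - 1) / p := by field_simp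
  have hqv : q = p / (p - 1) := by rw [hq, hq1, inv_div]
  have hq0 : 0 ≤ q := by rw [hqv]; apply div_nonneg <;> linarith
  have hq2 : q ≤ 2 := by
    rw [hqv, div_le_iff₀ (by linarith)]
    linarith
  set T : ℝ := ∑ i ∈ I, W i with hT
  set M : ℕ → ℝ := fun b => ∑ i ∈ I.filter (fun i => (p : ℤ) ∣ (b : ℤ) + r i), W i with hM
  set X : ℕ → ℝ := fun b => ∑ i ∈ I, W i * (q * (if (p : ℤ) ∣ (b : ℤ) + r i then 0 else 1) - 1) with hX
  have hM0 : ∀ b, 0 ≤ M b := fun b => sum_nonneg fun i hi => hW0 i (mem_filter.1 hi).1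
  have hMK : ∀ b, M b ≤ D * K := by
    intro b
    calc M b ≤ ∑ i ∈ I.filter (fun i => (p : ℤ) ∣ (b : ℤ) + r i), D := sum_le_sum fun i hi => hWD i (mem_filter.1 hi).1
      _ = (((I.filter (fun i => (p : ℤ) ∣ (b : ℤ) + r i)).card : ℕ) : ℝ) * D := by rw [sum_const, nsmul_eq_mul]
      _ ≤ K * D := mul_le_mul_of_nonneg_right (hK b) hD
      _ = _ := by ring
  have hMs : ∑ b ∈ range p, M b = T := by
    calc ∑ b ∈ range p, M b = ∑ b ∈ range p, ∑ i ∈ I, (if (p : ℤ) ∣ (b : ℤ) + r i then W i else 0) := by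
          refine sum_congr rfl fun b _ => ?_
          rw [hM]; simp only
          rw [sum_filter]
      _ = ∑ i ∈ I, ∑ b ∈ range p, (if (p : ℤ) ∣ (b : ℤ) + r i then W i else 0) := sum_comm
      _ = ∑ i ∈ I, W i := by
          refine sum_congr rfl fun i _ => ?_
          rw [← sum_filter, sum_const, per_count p hp.pos, one_smul]
  have hXe : ∀ b, X b = q * (T / p - M b) := by
    intro b
    have h1 : X b = q * (T - M b) - T := by
      have e1 : ∑ i ∈ I, W i * (if (p : ℤ) ∣ (b : ℤ) + r i then (0 : ℝ) else 1) = T - M b := by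
        have e2 : M b = ∑ i ∈ I, (if (p : ℤ) ∣ (b : ℤ) + r i then W i else 0) := by
          rw [hM]; simp only
          rw [sum_filter]
        rw [e2, hT, ← sum_sub_distrib]
        refine sum_congr rfl fun i _ => ?_
        split_ifs <;> ring
      rw [← e1, hT, mul_sum, ← sum_sub_distrib]
      refine sum_congr rfl fun i _ => ?_
      ring
    rw [h1, hqv]
    have hpm : (p : ℝ) - 1 ≠ 0 := by linarith
    field_simp
    ring
  have hTp : T / p ≤ D * K := by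
    rw [div_le_iff₀ hp0, ← hMs]
    calc ∑ b ∈ range p, M b ≤ ∑ b ∈ range p, D * K := sum_le_sum fun b _ => hMK b
      _ = _ := by rw [sum_const, card_range, nsmul_eq_mul]; ring
  have hT0 : 0 ≤ T := sum_nonneg hW0
  have hTp0 : 0 ≤ T / p := div_nonneg hT0 hp0.le
  have hTN : T ≤ D * N := by
    calc T ≤ ∑ i ∈ I, D := sum_le_sum hWD
      _ = I.card * D := by rw [sum_const, nsmul_eq_mul]
      _ ≤ N * D := mul_le_mul_of_nonneg_right hN hD
      _ = _ := by ring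
  have hXabs : ∀ b, |X b| ≤ 2 * D * K := by
    intro b
    rw [hXe, abs_mul, abs_of_nonneg hq0]
    have h1 : |T / p - M b| ≤ D * K := by
      rw [abs_le]
      constructor <;> linarith [hMK b, hM0 b]
    calc q * |T / p - M b| ≤ 2 * (D * K) := mul_le_mul hq2 h1 (abs_nonneg _) (by norm_num)
      _ = _ := by ring
  have hX0 : ∑ b ∈ range p, X b = 0 := by
    rw [sum_congr rfl (fun b _ => hXe b), ← mul_sum, sum_sub_distrib, hMs, sum_const, card_range, nsmul_eq_mul]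
    have : (p : ℝ) * (T / p) - T = 0 := by field_simp; ring
    rw [this, mul_zero]
  have hX2 : ∑ b ∈ range p, (X b) ^ 2 ≤ 4 * D ^ 2 * K * N := by
    have h1 : ∑ b ∈ range p, (T / p - M b) ^ 2 ≤ ∑ b ∈ range p, (M b) ^ 2 := by
      have e : ∑ b ∈ range p, (T / p - M b) ^ 2 = ∑ b ∈ range p, (M b) ^ 2 - T ^ 2 / p := by
        have e1 : ∀ b ∈ range p, (T / p - M b) ^ 2 = (M b) ^ 2 - 2 * (T / p) * M b + (T / p) ^ 2 := by
          intro b _; ring
        rw [sum_congr rfl e1, sum_add_distrib, sum_sub_distrib, ← mul_sum, hMs, sum_const, card_range, nsmul_eq_mul]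
        field_simp
        ring
      rw [e]
      have : 0 ≤ T ^ 2 / p := by positivity
      linarith
    have h2 : ∑ b ∈ range p, (M b) ^ 2 ≤ D * K * T := by
      rw [← hMs, mul_sum]
      refine sum_le_sum fun b _ => ?_
      rw [sq]
      exact mul_le_mul_of_nonneg_right (hMK b) (hM0 b)
    have h3 : D * K * T ≤ D * K * (D * N) := mul_le_mul_of_nonneg_left hTN (by positivity)
    have h4 : ∑ b ∈ range p, (X b) ^ 2 = q ^ 2 * ∑ b ∈ range p, (T / p - M b) ^ 2 := by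
      rw [mul_sum]
      refine sum_congr rfl fun b _ => ?_
      rw [hXe]; ring
    rw [h4]
    have h5 : q ^ 2 ≤ 4 := by nlinarith
    have h6 : 0 ≤ ∑ b ∈ range p, (T / p - M b) ^ 2 := sum_nonneg fun b _ => sq_nonneg _
    calc q ^ 2 * ∑ b ∈ range p, (T / p - M b) ^ 2 ≤ 4 * ∑ b ∈ range p, (T / p - M b) ^ 2 :=
          mul_le_mul_of_nonneg_right h5 h6
      _ ≤ 4 * (D * K * (D * N)) := by linarith
      _ = _ := by ring
  have hexp : ∀ b ∈ range p, Real.exp (θ * X b) ≤ 1 + θ * X b + θ ^ 2 * (X b) ^ 2 := by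
    intro b _
    have h1 : |θ * X b| ≤ 1 := by
      rw [abs_mul]
      exact (mul_le_mul_of_nonneg_left (hXabs b) (abs_nonneg _)).trans hθ
    have h2 := Real.abs_exp_sub_one_sub_id_le h1
    rw [abs_le] at h2
    nlinarith [h2.2]
  calc ∑ b ∈ range p, Real.exp (θ * X b) ≤ ∑ b ∈ range p, (1 + θ * X b + θ ^ 2 * (X b) ^ 2) := sum_le_sum hexp
    _ = p + θ ^ 2 * ∑ b ∈ range p, (X b) ^ 2 := by
        rw [sum_add_distrib, sum_add_distrib, ← mul_sum, ← mul_sum, hX0, sum_const, card_range, nsmul_eq_mul]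
        ring
    _ ≤ p + θ ^ 2 * (4 * D ^ 2 * K * N) := by
        have := mul_le_mul_of_nonneg_left hX2 (sq_nonneg θ)
        linarith
    _ = p * (θ ^ 2 * (4 * D ^ 2 * K * N / p) + 1) := by field_simp; ring
    _ ≤ p * Real.exp (θ ^ 2 * (4 * D ^ 2 * K * N / p)) := mul_le_mul_of_nonneg_left (Real.add_one_le_exp _) hp0.le

end Pool.Agent.TP975.RP
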