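import Mathlib
import Pool.Agent.TP975.RP.Si1

/-!
Exponential moments of sifted sums: all primes.
-/

set_option autoImplicit false

namespace Pool.Agent.TP975.RP

open Finset
open Pool.Agent.H373R2.T7

/-- the product of the primes up to `y` -/
def Pz (y : ℕ) : ℕ := ∏ p ∈ pz y, p

/-- the sifted sum -/
noncomputable def Ts (y : ℕ) (I : Finset ℕ) (r : ℕ → ℤ) (b : ℤ) : ℝ := ∑ i ∈ I, lamz y (b + r i).natAbs

lemma Pz_pos (y : ℕ) : 0 < Pz y := Finset.prod_pos fun p hp => (mem_pz.1 hp).2.pos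

lemma pz_mono {w y : ℕ} (h : w ≤ y) : pz w ⊆ pz y := by
  intro p hp
  rw [mem_pz] at hp ⊢
  exact ⟨hp.1.trans h, hp.2⟩

lemma Pz_dvd {w y : ℕ} (h : w ≤ y) : Pz w ∣ Pz y := prod_dvd_prod_of_subset _ _ _ (pz_mono h)

lemma lamz_per (y : ℕ) (s t : ℤ) (h : (Pz y : ℤ) ∣ s - t) : lamz y s.natAbs = lamz y t.natAbs := by
  have h1 : ∀ p ∈ pz y, (¬ p ∣ s.natAbs ↔ ¬ p ∣ t.natAbs) := by
    intro p hp
    have h2 : (p : ℤ) ∣ s - t := (Int.natCast_dvd_natCast.2 (dvd_prod_of_mem (fun p => p) hp)).trans h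
    rw [← Int.natCast_dvd, ← Int.natCast_dvd]
    apply not_congr
    have e : s = (s - t) + t := by ring
    rw [e]
    exact dvd_add_right h2
  unfold lamz
  by_cases hc : ∀ p ∈ pz y, ¬ p ∣ t.natAbs
  · rw [if_pos hc, if_pos (fun p hp => (h1 p hp).2 (hc p hp))]
  · rw [if_neg hc, if_neg (fun hc' => hc fun p hp => (h1 p hp).1 (hc' p hp))]

lemma Ts_per (y : ℕ) (I : Finset ℕ) (r : ℕ → ℤ) (s t : ℤ) (h : (Pz y : ℤ) ∣ s - t) : Ts y I r s = Ts y I r t := by
  unfold Ts
  refine sum_congr rfl fun i _ => lamz_per y _ _ ?_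
  have e : s + r i - (t + r i) = s - t := by ring
  rw [e]
  exact h

lemma Ts_nonneg (y : ℕ) (I : Finset ℕ) (r : ℕ → ℤ) (b : ℤ) : 0 ≤ Ts y I r b := sum_nonneg fun _ _ => lamz_nonneg _ _

lemma pz_succ_prime (y : ℕ) (h : (y + 1).Prime) : pz (y + 1) = insert (y + 1) (pz y) := by
  ext p
  rw [mem_insert, mem_pz, mem_pz]
  constructor
  · rintro ⟨h1, h2⟩
    rcases Nat.lt_or_ge p (y + 1) with h3 | h3
    · exact Or.inr ⟨by omega, h2⟩
    · exact Or.inl (by omega)
  · rintro (rfl | ⟨h1, h2⟩)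
    · exact ⟨le_rfl, h⟩
    · exact ⟨by omega, h2⟩

lemma pz_succ_not (y : ℕ) (h : ¬ (y + 1).Prime) : pz (y + 1) = pz y := by
  ext p
  rw [mem_pz, mem_pz]
  constructor
  · rintro ⟨h1, h2⟩
    refine ⟨?_, h2⟩
    rcases Nat.lt_or_ge p (y + 1) with h3 | h3
    · omega
    · have : p = y + 1 := by omega
      exact absurd (this ▸ h2) h
  · rintro ⟨h1, h2⟩
    exact ⟨by omega, h2⟩

lemma not_mem_pz (y : ℕ) : y + 1 ∉ pz y := fun h => by
  rw [mem_pz] at h
  omega

lemma Pz_succ_prime (y : ℕ) (h : (y + 1).Prime) : Pz (y + 1) = Pz y * (y + 1) := by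
  unfold Pz
  rw [pz_succ_prime y h, prod_insert (not_mem_pz y), mul_comm]

lemma Pz_succ_not (y : ℕ) (h : ¬ (y + 1).Prime) : Pz (y + 1) = Pz y := by
  unfold Pz
  rw [pz_succ_not y h]

lemma Pz_coprime (y : ℕ) (h : (y + 1).Prime) : (Pz y).Coprime (y + 1) := by
  unfold Pz
  apply Nat.Coprime.prod_left
  intro p hp
  rw [mem_pz] at hp
  rw [Nat.coprime_primes hp.2 h]
  omega

lemma lamz_succ_prime (y : ℕ) (h : (y + 1).Prime) (v : ℤ) :
    lamz (y + 1) v.natAbs = lamz y v.natAbs *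
      ((1 - 1 / ((y + 1 : ℕ) : ℝ))⁻¹ * (if ((y + 1 : ℕ) : ℤ) ∣ v then 0 else 1)) := by
  have hV : Vz (y + 1) = (1 - 1 / ((y + 1 : ℕ) : ℝ)) * Vz y := by
    unfold Vz
    rw [pz_succ_prime y h, prod_insert (not_mem_pz y)]
  unfold lamz
  rw [hV, mul_inv]
  by_cases h1 : ((y + 1 : ℕ) : ℤ) ∣ v
  · rw [if_neg, if_pos h1, mul_zero, mul_zero]
    push Not
    exact ⟨y + 1, mem_pz.2 ⟨le_rfl, h⟩, Int.natCast_dvd.1 h1⟩
  · rw [if_neg h1, mul_one]
    by_cases h2 : ∀ p ∈ pz y, ¬ p ∣ v.natAbs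
    · rw [if_pos h2, if_pos, mul_comm]
      intro p hp
      rw [pz_succ_prime y h, mem_insert] at hp
      rcases hp with rfl | hp
      · exact fun h3 => h1 (Int.natCast_dvd.2 h3)
      · exact h2 p hp
    · rw [if_neg h2, if_neg, zero_mul]
      intro h3
      exact h2 fun p hp => h3 p (by rw [pz_succ_prime y h]; exact mem_insert_of_mem hp)

lemma lamz_succ_not (y : ℕ) (h : ¬ (y + 1).Prime) (n : ℕ) : lamz (y + 1) n = lamz y n := by
  unfold lamz Vz
  rw [pz_succ_not y h]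

lemma pw_succ_prime (w y : ℕ) (hw : w ≤ y) (h : (y + 1).Prime) : pw w (y + 1) = insert (y + 1) (pw w y) := by
  ext p
  rw [mem_insert, mem_pw, mem_pw]
  constructor
  · rintro ⟨h1, h2, h3⟩
    rcases Nat.lt_or_ge p (y + 1) with h4 | h4
    · exact Or.inr ⟨h1, by omega, h3⟩
    · exact Or.inl (by omega)
  · rintro (rfl | ⟨h1, h2, h3⟩)
    · exact ⟨by omega, le_rfl, h⟩
    · exact ⟨h1, by omega, h3⟩

lemma pw_succ_not (w y : ℕ) (h : ¬ (y + 1).Prime) : pw w (y + 1) = pw w y := by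
  unfold pw
  rw [pz_succ_not y h]

/-- the exponential moment over a period -/
theorem expo (I : Finset ℕ) (r : ℕ → ℤ) (K : ℕ → ℝ) (D N θ : ℝ) (hN : (I.card : ℝ) ≤ N) (w : ℕ) :
    ∀ z : ℕ, w ≤ z → (Vz z)⁻¹ ≤ D →
    (∀ p, p.Prime → w < p → p ≤ z → ∀ b : ℕ, (((I.filter (fun i => (p : ℤ) ∣ (b : ℤ) + r i)).card : ℕ) : ℝ) ≤ K p) →
    (∀ p, p.Prime → w < p → p ≤ z → |θ| * (2 * D * K p) ≤ 1) →
    ∑ b ∈ range (Pz z), Real.exp (θ * (Ts z I r b - Ts w I r b)) ≤
      Pz z * Real.exp (θ ^ 2 * ∑ p ∈ pw w z, 4 * D ^ 2 * K p * N / p) := by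
  intro z hz
  induction z, hz using Nat.le_induction with
  | base =>
    intro _ _ _
    have h1 : pw w w = ∅ := by
      rw [eq_empty_iff_forall_notMem]
      intro p hp
      rw [mem_pw] at hp
      omega
    rw [h1, sum_empty, mul_zero, Real.exp_zero, mul_one]
    apply le_of_eq
    have h2 : ∀ b ∈ range (Pz w), Real.exp (θ * (Ts w I r (b : ℤ) - Ts w I r (b : ℤ))) = 1 := by
      intro b _
      rw [sub_self, mul_zero, Real.exp_zero]
    rw [sum_congr rfl h2, sum_const, card_range, nsmul_eq_mul, mul_one]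
  | succ y hy ih =>
    intro hD hK hθ
    have hD' : (Vz y)⁻¹ ≤ D := (Vz_anti (Nat.le_succ y)).trans hD
    have hD0 : 0 ≤ D := by have := one_le_Vinv y; linarith
    have ih' := ih hD' (fun p hp h1 h2 => hK p hp h1 (by omega)) (fun p hp h1 h2 => hθ p hp h1 (by omega))
    by_cases hp : (y + 1).Prime
    · set p := y + 1 with hpd
      have hwp : w < p := by omega
      have hPp : Pz p = Pz y * p := Pz_succ_prime y hp
      have hcop : (Pz y).Coprime p := Pz_coprime y hp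
      rw [pw_succ_prime w y hy hp, sum_insert (by rw [mem_pw]; omega)]
      set X : ℕ → ℕ → ℝ := fun a b => ∑ i ∈ I, lamz y ((a : ℤ) + r i).natAbs *
        ((1 - 1 / (p : ℝ))⁻¹ * (if (p : ℤ) ∣ (b : ℤ) + r i then 0 else 1) - 1) with hX
      have hTs : ∀ b : ℤ, Ts p I r b = ∑ i ∈ I, lamz y (b + r i).natAbs *
          ((1 - 1 / (p : ℝ))⁻¹ * (if (p : ℤ) ∣ b + r i then 0 else 1)) := by
        intro b
        unfold Ts
        refine sum_congr rfl fun i _ => ?_
        exact lamz_succ_prime y hp _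
      have hdiv : ∀ (q n : ℕ), (q : ℤ) ∣ (n : ℤ) - ((n % q : ℕ) : ℤ) := by
        intro q n
        rw [Int.natCast_mod]
        exact Int.dvd_self_sub_emod
      have hterm : ∀ n ∈ range (Pz y * p), Real.exp (θ * (Ts p I r n - Ts w I r n)) =
          (fun a b : ℕ => Real.exp (θ * (Ts y I r a - Ts w I r a)) * Real.exp (θ * X a b)) (n % Pz y) (n % p) := by
        intro n _
        simp only
        rw [← Real.exp_add, ← mul_add]
        congr 2
        have e1 : Ts w I r n = Ts w I r ((n % Pz y : ℕ) : ℤ) :=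
          Ts_per w I r _ _ ((Int.natCast_dvd_natCast.2 (Pz_dvd hy)).trans (hdiv _ _))
        have e2 : Ts p I r n = Ts y I r ((n % Pz y : ℕ) : ℤ) + X (n % Pz y) (n % p) := by
          rw [hTs, hX]
          simp only
          unfold Ts
          rw [← sum_add_distrib]
          refine sum_congr rfl fun i _ => ?_
          have e3 : lamz y ((n : ℤ) + r i).natAbs = lamz y (((n % Pz y : ℕ) : ℤ) + r i).natAbs := by
            apply lamz_per
            have e : (n : ℤ) + r i - (((n % Pz y : ℕ) : ℤ) + r i) = (n : ℤ) - ((n % Pz y : ℕ) : ℤ) := by ring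
            rw [e]
            exact hdiv _ _
          have e4 : (p : ℤ) ∣ (n : ℤ) + r i ↔ (p : ℤ) ∣ ((n % p : ℕ) : ℤ) + r i := by
            have e : (n : ℤ) + r i = ((n : ℤ) - ((n % p : ℕ) : ℤ)) + (((n % p : ℕ) : ℤ) + r i) := by ring
            rw [e]
            exact dvd_add_right (hdiv _ _)
          rw [e3]
          simp only [e4]
          ring
        rw [e1, e2]
        ring
      rw [hPp, sum_congr rfl hterm, crt2 (Pz y) p (Pz_pos y) hp.pos hcop
        (fun a b : ℕ => Real.exp (θ * (Ts y I r a - Ts w I r a)) * Real.exp (θ * X a b))]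
      have hinner : ∀ a ∈ range (Pz y), ∑ b ∈ range p,
          Real.exp (θ * (Ts y I r a - Ts w I r a)) * Real.exp (θ * X a b) ≤
          Real.exp (θ * (Ts y I r a - Ts w I r a)) * (p * Real.exp (θ ^ 2 * (4 * D ^ 2 * K p * N / p))) := by
        intro a _
        rw [← mul_sum]
        apply mul_le_mul_of_nonneg_left _ (Real.exp_pos _).le
        exact one_prime I r (fun i => lamz y ((a : ℤ) + r i).natAbs) D (K p) N θ p hp (fun _ _ => lamz_nonneg _ _)
          (fun _ _ => (lamz_le _ _).trans hD') hD0 (hK p hp hwp le_rfl) hN (hθ p hp hwp le_rfl)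
      refine (sum_le_sum hinner).trans ?_
      rw [← sum_mul]
      have hpe : 0 ≤ (p : ℝ) * Real.exp (θ ^ 2 * (4 * D ^ 2 * K p * N / p)) := by positivity
      refine (mul_le_mul_of_nonneg_right ih' hpe).trans (le_of_eq ?_)
      have e5 : ∀ u v : ℝ, Real.exp (θ ^ 2 * (u + v)) = Real.exp (θ ^ 2 * u) * Real.exp (θ ^ 2 * v) := by
        intro u v
        rw [mul_add, Real.exp_add]
      rw [e5, Nat.cast_mul]
      rw [← hpd]
      ring
    · rw [pw_succ_not w y hp, Pz_succ_not y hp]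
      refine le_trans (le_of_eq ?_) ih'
      refine sum_congr rfl fun b _ => ?_
      have : Ts (y + 1) I r b = Ts y I r b := by
        unfold Ts
        exact sum_congr rfl fun i _ => lamz_succ_not y hp _
      rw [this]

end Pool.Agent.TP975.RP
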