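import Mathlib
import Pool.Agent.TP975.RP.Si2
import Pool.Agent.TP975.RP.MF2

/-!
Moments of sifted sums: from the period to the interval.
-/

set_option autoImplicit false

namespace Pool.Agent.TP975.RP

open Finset
open Pool.Agent.H373R2.T7

lemma win_per (P : ℕ) (hP : 1 ≤ P) (Φ : ℤ → ℝ) (hΦ0 : ∀ t, 0 ≤ Φ t) (hper : Pdc P Φ) (H : ℕ) :
    ∑ t ∈ Icc (-(H : ℤ)) H, Φ t ≤ ((2 * H + 1 : ℝ) / P + 1) * ∑ n ∈ range P, Φ (n : ℤ) := by
  set N : ℕ := 2 * H + 1 with hN
  set J : ℕ := N / P + 1 with hJ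
  have h1 : ∑ t ∈ Icc (-(H : ℤ)) H, Φ t = ∑ n ∈ range N, Φ (-(H : ℤ) + n) := by
    refine sum_nbij' (fun t => (t + H).toNat) (fun n => -(H : ℤ) + n) ?_ ?_ ?_ ?_ ?_
    · intro t ht
      rw [mem_Icc] at ht
      rw [mem_range]
      omega
    · intro n hn
      rw [mem_range] at hn
      rw [mem_Icc]
      omega
    · intro t ht
      rw [mem_Icc] at ht
      omega
    · intro n _
      omega
    · intro t ht
      rw [mem_Icc] at ht
      congr 1
      omega
  have hNJ : N ≤ J * P := by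
    have := Nat.div_add_mod N P
    have h2 := Nat.mod_lt N hP
    rw [hJ, Nat.add_mul, one_mul, mul_comm]
    omega
  have h2 : ∑ n ∈ range N, Φ (-(H : ℤ) + n) ≤ ∑ n ∈ range (J * P), Φ (-(H : ℤ) + n) :=
    sum_le_sum_of_subset_of_nonneg (range_subset_range.2 hNJ) (fun n _ _ => hΦ0 _)
  have h3 : ∀ j : ℕ, ∑ n ∈ range (j * P), Φ (-(H : ℤ) + n) = j * ∑ n ∈ range P, Φ (n : ℤ) := by
    intro j
    induction j with
    | zero => simp
    | succ j ih =>
      rw [Nat.add_mul, one_mul, sum_range_add, ih]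
      have h4 := shift_inv P Φ hper (-(H : ℤ) + (j * P : ℕ))
      have h5 : ∑ x ∈ range P, Φ (-(H : ℤ) + ((j * P + x : ℕ) : ℤ)) = ∑ n ∈ range P, Φ (n : ℤ) := by
        rw [← h4]
        refine sum_congr rfl fun n _ => ?_
        congr 1
        push_cast
        ring
      rw [h5]
      push_cast
      ring
  rw [h1]
  refine h2.trans ?_
  rw [h3]
  apply mul_le_mul_of_nonneg_right _ (sum_nonneg fun n _ => hΦ0 _)
  rw [hJ]
  push_cast
  have h6 : ((N / P : ℕ) : ℝ) ≤ (N : ℝ) / P := Nat.cast_div_le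
  rw [hN] at h6
  push_cast at h6
  linarith

lemma model_dens {ι : Type} (S : Finset ι) (r : ι → ℤ) (zl : ι → ℕ) (z : ℕ) (hz : ∀ l ∈ S, zl l ≤ z) :
    ∑ b ∈ range (Pz z), ∏ l ∈ S, lamz (zl l) ((b : ℤ) + r l).natAbs = Pz z * dens S r zl z := by
  classical
  set G : ℕ → ℤ → ℝ := fun p t => if ∃ l ∈ S, p ≤ zl l ∧ (p : ℤ) ∣ t + r l then 0 else 1 with hG
  have hper : ∀ p ∈ pz z, Pdc p (G p) := by
    intro p _ s t hst
    have h1 : (∃ l ∈ S, p ≤ zl l ∧ (p : ℤ) ∣ s + r l) ↔ (∃ l ∈ S, p ≤ zl l ∧ (p : ℤ) ∣ t + r l) := by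
      refine exists_congr fun l => and_congr_right fun _ => and_congr_right fun _ => ?_
      have e : s + r l = (s - t) + (t + r l) := by ring
      rw [e]
      exact dvd_add_right hst
    rw [hG]
    simp only [h1]
  have hsum : ∀ p ∈ pz z, ∑ a ∈ range p, G p (a : ℤ) = (p : ℝ) - nu S r zl p := by
    intro p hp
    have hp0 := (mem_pz.1 hp).2.pos
    rw [← shift_inv p (G p) (hper p hp) (-1)]
    have h1 : ∀ a ∈ range p, G p (-1 + (a : ℤ)) = 1 - (if Qs S r zl 0 p a then (1 : ℝ) else 0) := by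
      intro a _
      have h2 : (∃ l ∈ S, p ≤ zl l ∧ (p : ℤ) ∣ -1 + (a : ℤ) + r l) ↔ Qs S r zl 0 p a := by
        unfold Qs
        refine exists_congr fun l => and_congr_right fun _ => and_congr_right fun _ => ?_
        have e : (a : ℤ) - ((0 : ℕ) : ℤ) - 1 + r l = -1 + (a : ℤ) + r l := by push_cast; ring
        rw [e]
      rw [hG]
      simp only [h2]
      split_ifs <;> ring
    rw [sum_congr rfl h1, sum_sub_distrib, sum_const, card_range, nsmul_eq_mul, mul_one, ← nuB_Qs S r zl 0 p hp0]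
    congr 1
    rw [← sum_filter, sum_const, nsmul_eq_mul, mul_one]
    unfold nuB
    norm_cast
  have hprod : ∀ b : ℕ, ∏ l ∈ S, lamz (zl l) ((b : ℤ) + r l).natAbs = (∏ l ∈ S, (Vz (zl l))⁻¹) * ∏ p ∈ pz z, G p (0 + (b : ℤ)) := by
    intro b
    rw [prod_lamz S (fun l => ((b : ℤ) + r l).natAbs) zl]
    split_ifs with hc
    · have hone : ∏ p ∈ pz z, G p (0 + (b : ℤ)) = 1 := by
        apply prod_eq_one
        intro p hp
        rw [hG]
        simp only
        rw [if_neg]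
        rintro ⟨l, hl, hpl, hd⟩
        rw [zero_add] at hd
        exact hc l hl p (mem_pz.2 ⟨hpl, (mem_pz.1 hp).2⟩) (Int.natCast_dvd.1 hd)
      rw [hone, mul_one]
    · push Not at hc
      obtain ⟨l, hl, p, hp, hd⟩ := hc
      rw [mem_pz] at hp
      symm
      rw [mul_eq_zero]
      right
      apply prod_eq_zero (mem_pz.2 ⟨hp.1.trans (hz l hl), hp.2⟩)
      rw [hG]
      simp only
      rw [if_pos]
      exact ⟨l, hl, hp.1, by rw [zero_add]; exact Int.natCast_dvd.2 hd⟩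
  rw [sum_congr rfl (fun b _ => hprod b), ← mul_sum]
  have h2 := crt_int G (pz z) (fun p hp => (mem_pz.1 hp).2) hper 0
  have h3 : ∑ n ∈ range (Pz z), ∏ p ∈ pz z, G p (0 + (n : ℤ)) = ∏ p ∈ pz z, ((p : ℝ) - nu S r zl p) := by
    unfold Pz
    rw [h2]
    exact prod_congr rfl hsum
  rw [h3]
  unfold dens Pz
  push_cast
  have h4 : ∏ p ∈ pz z, ((p : ℝ) - nu S r zl p) = (∏ p ∈ pz z, (p : ℝ)) * ∏ p ∈ pz z, (1 - (nu S r zl p : ℝ) / p) := by
    rw [← prod_mul_distrib]
    refine prod_congr rfl fun p hp => ?_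
    have : (p : ℝ) ≠ 0 := by exact_mod_cast (mem_pz.1 hp).2.ne_zero
    field_simp
  rw [h4]
  ring

/-- the expansion of a power of the difference -/
lemma pow_expand (K z w : ℕ) (I : Finset ℕ) (r : ℕ → ℤ) (b : ℤ) :
    (Ts z I r b - Ts w I r b) ^ K = ∑ u ∈ Fintype.piFinset (fun _ : Fin K => I), ∑ t ∈ (univ : Finset (Fin K)).powerset,
      (-1) ^ (univ \ t).card * ∏ l : Fin K, lamz (if l ∈ t then z else w) (b + r (u l)).natAbs := by
  classical
  have h1 : (Ts z I r b - Ts w I r b) ^ K = ∏ l : Fin K, ∑ i ∈ I, (lamz z (b + r i).natAbs - lamz w (b + r i).natAbs) := by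
    rw [prod_const, card_univ, Fintype.card_fin]
    unfold Ts
    rw [sum_sub_distrib]
  rw [h1, prod_univ_sum]
  refine sum_congr rfl fun u _ => ?_
  have h2 : ∏ l : Fin K, (lamz z (b + r (u l)).natAbs - lamz w (b + r (u l)).natAbs) =
      ∏ l : Fin K, (lamz z (b + r (u l)).natAbs + -lamz w (b + r (u l)).natAbs) :=
    prod_congr rfl fun l _ => sub_eq_add_neg _ _
  rw [h2, prod_add]
  refine sum_congr rfl fun t _ => ?_
  rw [prod_neg, ← prod_sdiff (subset_univ t)]
  have h3 : ∏ l ∈ t, lamz (if l ∈ t then z else w) (b + r (u l)).natAbs = ∏ l ∈ t, lamz z (b + r (u l)).natAbs :=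
    prod_congr rfl fun l hl => by rw [if_pos hl]
  have h4 : ∏ l ∈ univ \ t, lamz (if l ∈ t then z else w) (b + r (u l)).natAbs = ∏ l ∈ univ \ t, lamz w (b + r (u l)).natAbs :=
    prod_congr rfl fun l hl => by rw [if_neg (mem_sdiff.1 hl).2]
  rw [h3, h4]
  ring

/-- the transfer of moments -/
theorem mom_tr (K E U : ℕ) : ∃ H0 : ℕ, ∀ H : ℕ, H0 ≤ H → ∀ z : ℕ, 1 ≤ z → (z : ℝ) ≤ Real.log H ^ E → ∀ w ≤ z,
    ∀ (I : Finset ℕ) (r : ℕ → ℤ),
    |∑ b ∈ Icc (-(H : ℤ)) H, (Ts z I r b - Ts w I r b) ^ K -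
      (2 * H + 1 : ℝ) / Pz z * ∑ b ∈ range (Pz z), (Ts z I r (b : ℤ) - Ts w I r (b : ℤ)) ^ K| ≤
      (2 * (Vz z)⁻¹ * I.card) ^ K * ((2 * H + 1 : ℝ) / Real.log H ^ U) := by
  classical
  obtain ⟨N0, hN0⟩ := count_dens K E U
  refine ⟨N0, fun H hH z hz hzE w hwz I r => ?_⟩
  have hP0 : (0 : ℝ) < Pz z := by exact_mod_cast Pz_pos z
  have hV1 := one_le_Vinv z
  have e1 : ∑ b ∈ Icc (-(H : ℤ)) H, (Ts z I r b - Ts w I r b) ^ K =
      ∑ u ∈ Fintype.piFinset (fun _ : Fin K => I), ∑ t ∈ (univ : Finset (Fin K)).powerset,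
      (-1) ^ (univ \ t).card * ∑ b ∈ Icc (-(H : ℤ)) H, ∏ l : Fin K, lamz (if l ∈ t then z else w) (b + r (u l)).natAbs := by
    rw [sum_congr rfl (fun b _ => pow_expand K z w I r b), sum_comm]
    refine sum_congr rfl fun u _ => ?_
    rw [sum_comm]
    refine sum_congr rfl fun t _ => ?_
    rw [mul_sum]
  have e2 : ∑ b ∈ range (Pz z), (Ts z I r (b : ℤ) - Ts w I r (b : ℤ)) ^ K =
      ∑ u ∈ Fintype.piFinset (fun _ : Fin K => I), ∑ t ∈ (univ : Finset (Fin K)).powerset,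
      (-1) ^ (univ \ t).card * (Pz z * dens univ (fun l => r (u l)) (fun l => if l ∈ t then z else w) z) := by
    rw [sum_congr rfl (fun (b : ℕ) _ => pow_expand K z w I r (b : ℤ)), sum_comm]
    refine sum_congr rfl fun u _ => ?_
    rw [sum_comm]
    refine sum_congr rfl fun t _ => ?_
    rw [← mul_sum]
    congr 1
    apply model_dens
    intro l _
    split_ifs <;> omega
  rw [e1, e2, mul_sum, ← sum_sub_distrib]
  have hbd : ∀ u ∈ Fintype.piFinset (fun _ : Fin K => I),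
      |∑ t ∈ (univ : Finset (Fin K)).powerset, (-1) ^ (univ \ t).card * ∑ b ∈ Icc (-(H : ℤ)) H, ∏ l : Fin K,
        lamz (if l ∈ t then z else w) (b + r (u l)).natAbs - (2 * H + 1 : ℝ) / Pz z *
        ∑ t ∈ (univ : Finset (Fin K)).powerset, (-1) ^ (univ \ t).card *
          (Pz z * dens univ (fun l => r (u l)) (fun l => if l ∈ t then z else w) z)| ≤
      2 ^ K * (((Vz z)⁻¹) ^ K * ((2 * H + 1 : ℝ) / Real.log H ^ U)) := by
    intro u _
    rw [mul_sum, ← sum_sub_distrib]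
    refine (abs_sum_le_sum_abs _ _).trans ?_
    have h1 : ∀ t ∈ (univ : Finset (Fin K)).powerset,
        |(-1) ^ (univ \ t).card * ∑ b ∈ Icc (-(H : ℤ)) H, ∏ l : Fin K,
        lamz (if l ∈ t then z else w) (b + r (u l)).natAbs - (2 * H + 1 : ℝ) / Pz z *
        ((-1) ^ (univ \ t).card * (Pz z * dens univ (fun l => r (u l)) (fun l => if l ∈ t then z else w) z))| ≤
        ((Vz z)⁻¹) ^ K * ((2 * H + 1 : ℝ) / Real.log H ^ U) := by
      intro t _
      have e3 : (-1 : ℝ) ^ (univ \ t).card * ∑ b ∈ Icc (-(H : ℤ)) H, ∏ l : Fin K,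
        lamz (if l ∈ t then z else w) (b + r (u l)).natAbs - (2 * H + 1 : ℝ) / Pz z *
        ((-1) ^ (univ \ t).card * (Pz z * dens univ (fun l => r (u l)) (fun l => if l ∈ t then z else w) z)) =
        (-1 : ℝ) ^ (univ \ t).card * (∑ b ∈ Icc (-(H : ℤ)) H, ∏ l : Fin K,
        lamz (if l ∈ t then z else w) (b + r (u l)).natAbs - (2 * H + 1 : ℝ) *
          dens univ (fun l => r (u l)) (fun l => if l ∈ t then z else w) z) := by
        field_simp
      rw [e3, abs_mul, abs_pow, abs_neg, abs_one, one_pow, one_mul]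
      have h2 := hN0 H hH z hz hzE (Fin K) univ (by rw [card_univ, Fintype.card_fin]) (fun l => r (u l))
        (fun l => if l ∈ t then z else w) (fun l _ => by split_ifs <;> omega)
      refine h2.trans ?_
      have hL : 0 ≤ (2 * H + 1 : ℝ) / Real.log H ^ U := by
        have : 0 ≤ Real.log (H : ℝ) := Real.log_natCast_nonneg H
        positivity
      apply mul_le_mul_of_nonneg_right _ hL
      calc ∏ l : Fin K, (Vz (if l ∈ t then z else w))⁻¹ ≤ ∏ l : Fin K, (Vz z)⁻¹ := by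
            apply prod_le_prod
            · intro l _
              exact (inv_pos.2 (Vz_pos _)).le
            · intro l _
              apply Vz_anti
              split_ifs <;> omega
        _ = _ := by rw [prod_const, card_univ, Fintype.card_fin]
    refine (sum_le_sum h1).trans (le_of_eq ?_)
    rw [sum_const, card_powerset, card_univ, Fintype.card_fin, nsmul_eq_mul]
    push_cast
    ring
  refine (abs_sum_le_sum_abs _ _).trans ((sum_le_sum hbd).trans (le_of_eq ?_))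
  rw [sum_const, Fintype.card_piFinset_const, nsmul_eq_mul, mul_pow, mul_pow]
  push_cast
  ring

end Pool.Agent.TP975.RP
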