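import Mathlib
import Pool.Agent.TP975.RP.Si3
import Pool.Agent.TP975.RP.Avg

/-!
Sifted sums over the values of a polynomial at an interval.
-/

set_option autoImplicit false

namespace Pool.Agent.TP975.RP

open Finset
open Pool.Agent.H373R2.T7

lemma class_card (p : ℕ) (hp : 0 < p) (N M : ℕ) (ρ : ZMod p) :
    ((Icc 1 N).filter (fun n : ℕ => (((M + n : ℕ) : ℤ) : ZMod p) = ρ)).card ≤ N / p + 1 := by
  have h1 : ((Icc 1 N).filter (fun n : ℕ => (((M + n : ℕ) : ℤ) : ZMod p) = ρ)).card ≤ (range (N / p + 1)).card := by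
    apply card_le_card_of_injOn (fun n : ℕ => n / p)
    · intro n hn
      rw [mem_coe, mem_filter, mem_Icc] at hn
      rw [mem_coe, mem_range]
      exact Nat.lt_succ_of_le (Nat.div_le_div_right hn.1.2)
    · intro n hn n' hn' heq
      rw [mem_coe, mem_filter, mem_Icc] at hn hn'
      simp only at heq
      have h2 : (((M + n : ℕ) : ℤ) : ZMod p) = (((M + n' : ℕ) : ℤ) : ZMod p) := hn.2.trans hn'.2.symm
      rw [Int.cast_natCast, Int.cast_natCast, ZMod.natCast_eq_natCast_iff] at h2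
      have h3 : n ≡ n' [MOD p] := Nat.ModEq.add_left_cancel' M h2
      unfold Nat.ModEq at h3
      have h4 := Nat.div_add_mod n p
      have h5 := Nat.div_add_mod n' p
      rw [heq, h3] at h4
      omega
  rwa [card_range] at h1

lemma roots_int (d : ℕ) (p : ℕ) (hp : p.Prime) (a : Fin (d + 1) → ℤ) (hc : ∃ c, c ≠ 0 ∧ ¬ (p : ℤ) ∣ a c) (b : ℤ)
    (M N : ℕ) :
    (((Icc 1 N).filter (fun n : ℕ => (p : ℤ) ∣ b + rr 0 a ((M + n : ℕ) : ℤ))).card : ℝ) ≤ d * ((N : ℝ) / p + 1) := by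
  classical
  haveI := Fact.mk hp
  obtain ⟨c0, hc0, hnd⟩ := hc
  set P : Polynomial (ZMod p) := Polynomial.C ((b : ℤ) : ZMod p) + ∑ c ∈ univ.erase (0 : Fin (d + 1)),
    Polynomial.C ((a c : ℤ) : ZMod p) * Polynomial.X ^ (c : ℕ) with hP
  have heval : ∀ t : ℤ, P.eval (t : ZMod p) = ((b + rr 0 a t : ℤ) : ZMod p) := by
    intro t
    rw [hP, Polynomial.eval_add, Polynomial.eval_C, Polynomial.eval_finset_sum]
    unfold rr
    push_cast
    congr 1
    refine sum_congr rfl fun c _ => ?_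
    rw [Polynomial.eval_mul, Polynomial.eval_C, Polynomial.eval_pow, Polynomial.eval_X]
  have hP0 : P ≠ 0 := by
    intro h0
    have h1 : P.coeff (c0 : ℕ) = ((a c0 : ℤ) : ZMod p) := by
      rw [hP, Polynomial.coeff_add, Polynomial.finset_sum_coeff]
      have hz : (c0 : ℕ) ≠ 0 := fun h => hc0 (Fin.ext (by simpa using h))
      rw [Polynomial.coeff_C, if_neg hz, zero_add, sum_eq_single c0]
      · rw [Polynomial.coeff_C_mul, Polynomial.coeff_X_pow, if_pos rfl, mul_one]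
      · intro c _ hcc
        rw [Polynomial.coeff_C_mul, Polynomial.coeff_X_pow, if_neg, mul_zero]
        intro h
        exact hcc (Fin.ext h.symm)
      · intro h
        exact absurd (mem_erase.2 ⟨hc0, mem_univ _⟩) h
    rw [h0, Polynomial.coeff_zero] at h1
    exact hnd ((ZMod.intCast_zmod_eq_zero_iff_dvd _ _).1 h1.symm)
  have hdeg : P.natDegree ≤ d := by
    rw [hP]
    refine (Polynomial.natDegree_add_le _ _).trans (max_le ?_ ?_)
    · rw [Polynomial.natDegree_C]; omega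
    · apply Polynomial.natDegree_sum_le_of_forall_le
      intro c _
      refine (Polynomial.natDegree_C_mul_X_pow_le _ _).trans ?_
      have := c.2
      omega
  have h1 : (Icc 1 N).filter (fun n : ℕ => (p : ℤ) ∣ b + rr 0 a ((M + n : ℕ) : ℤ)) ⊆
      P.roots.toFinset.biUnion (fun ρ => (Icc 1 N).filter (fun n : ℕ => (((M + n : ℕ) : ℤ) : ZMod p) = ρ)) := by
    intro n hn
    rw [mem_filter] at hn
    rw [mem_biUnion]
    refine ⟨(((M + n : ℕ) : ℤ) : ZMod p), ?_, mem_filter.2 ⟨hn.1, rfl⟩⟩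
    rw [Multiset.mem_toFinset, Polynomial.mem_roots hP0]
    show P.eval _ = 0
    rw [heval, ZMod.intCast_zmod_eq_zero_iff_dvd]
    exact hn.2
  have h2 : ((Icc 1 N).filter (fun n : ℕ => (p : ℤ) ∣ b + rr 0 a ((M + n : ℕ) : ℤ))).card ≤ d * (N / p + 1) := by
    refine (card_le_card h1).trans (card_biUnion_le.trans ?_)
    refine (sum_le_sum fun ρ _ => class_card p hp.pos N M ρ).trans ?_
    rw [sum_const, smul_eq_mul]
    exact Nat.mul_le_mul_right _ ((Multiset.toFinset_card_le _).trans ((Polynomial.card_roots' P).trans hdeg))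
  have h3 : (((N / p : ℕ)) : ℝ) ≤ (N : ℝ) / p := Nat.cast_div_le
  calc (((Icc 1 N).filter (fun n : ℕ => (p : ℤ) ∣ b + rr 0 a ((M + n : ℕ) : ℤ))).card : ℝ) ≤ ((d * (N / p + 1) : ℕ) : ℝ) := by
        exact_mod_cast h2
    _ = d * (((N / p : ℕ) : ℝ) + 1) := by push_cast; ring
    _ ≤ d * ((N : ℝ) / p + 1) := by
        apply mul_le_mul_of_nonneg_left _ (Nat.cast_nonneg _)
        linarith

/-- the primes for which the polynomial is not constant -/
def Ncp {d : ℕ} (w z : ℕ) (a : Fin (d + 1) → ℤ) : Prop := ∀ p, p.Prime → w < p → p ≤ z → ∃ c, c ≠ 0 ∧ ¬ (p : ℤ) ∣ a c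

/-- the exponential moment, in a form which is easy to use -/
theorem expo2 (d : ℕ) (a : Fin (d + 1) → ℤ) (M N : ℕ) (hN : 1 ≤ N) (w z : ℕ) (hw : 1 ≤ w) (hwz : w ≤ z)
    (hg : Ncp w z a) (D u m s : ℝ) (hD : (Vz z)⁻¹ ≤ D) (hD2 : 1 + Real.log z ≤ D) (hu : 0 ≤ u)
    (hm0 : 0 < m) (hmw : m ≤ w) (hmN : m ≤ N) (h1 : 8 * d * D ^ 3 * u ^ 2 ≤ m) (h2 : 4 * d * D * u ≤ m) (hs : |s| ≤ 1) :
    ∑ b ∈ range (Pz z), Real.exp (s * (u / N) * (Ts z (Icc 1 N) (fun n => rr 0 a ((M + n : ℕ) : ℤ)) b -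
      Ts w (Icc 1 N) (fun n => rr 0 a ((M + n : ℕ) : ℤ)) b)) ≤ Pz z * Real.exp 1 := by
  have hD1 : 1 ≤ D := (one_le_Vinv z).trans hD
  have hN0 : (0 : ℝ) < N := by exact_mod_cast hN
  have hw0 : (0 : ℝ) < w := by exact_mod_cast hw
  have hd0 : (0 : ℝ) ≤ d := Nat.cast_nonneg _
  have hcard : (((Icc 1 N).card : ℕ) : ℝ) ≤ (N : ℝ) := by rw [Nat.card_Icc, Nat.add_sub_cancel]
  have hs2 : s ^ 2 ≤ 1 := by
    rw [← sq_abs]
    exact pow_le_one₀ (abs_nonneg _) hs
  have key := expo (Icc 1 N) (fun n => rr 0 a ((M + n : ℕ) : ℤ)) (fun p => d * ((N : ℝ) / p + 1)) D N (s * (u / N)) hcard w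
    z hwz hD (fun p hp hp1 hp2 b => roots_int d p hp a (hg p hp hp1 hp2) b M N) ?_
  · refine key.trans ?_
    apply mul_le_mul_of_nonneg_left _ (Nat.cast_nonneg _)
    apply Real.exp_le_exp.2
    have e1 : ∑ p ∈ pw w z, 4 * D ^ 2 * (d * ((N : ℝ) / p + 1)) * N / p =
        4 * D ^ 2 * d * N * (N * ∑ p ∈ pw w z, 1 / (p : ℝ) ^ 2 + ∑ p ∈ pw w z, 1 / (p : ℝ)) := by
      rw [mul_sum, ← sum_add_distrib, mul_sum]
      refine sum_congr rfl fun p hp => ?_
      have : (p : ℝ) ≠ 0 := by exact_mod_cast (mem_pw.1 hp).2.2.ne_zero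
      field_simp
    have e2 : ∑ p ∈ pw w z, 1 / (p : ℝ) ^ 2 ≤ 1 / (w : ℝ) := sum_pw_inv_sq w z hw
    have e3 : ∑ p ∈ pw w z, 1 / (p : ℝ) ≤ D := by
      refine le_trans ?_ ((sum_pz_le z).trans hD2)
      exact sum_le_sum_of_subset_of_nonneg (filter_subset _ _) (fun _ _ _ => by positivity)
    have e4 : (N : ℝ) * ∑ p ∈ pw w z, 1 / (p : ℝ) ^ 2 + ∑ p ∈ pw w z, 1 / (p : ℝ) ≤ N * (2 * D / m) := by
      have q1 : (N : ℝ) * ∑ p ∈ pw w z, 1 / (p : ℝ) ^ 2 ≤ N * (D / m) := by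
        apply mul_le_mul_of_nonneg_left _ hN0.le
        refine e2.trans ?_
        rw [div_le_div_iff₀ hw0 hm0]
        nlinarith
      have q2 : D ≤ N * (D / m) := by
        rw [mul_div_assoc', le_div_iff₀ hm0]
        nlinarith
      have q3 : (N : ℝ) * (2 * D / m) = N * (D / m) + N * (D / m) := by ring
      linarith
    rw [e1]
    have e5 : (s * (u / N)) ^ 2 * (4 * D ^ 2 * d * N * (N * ∑ p ∈ pw w z, 1 / (p : ℝ) ^ 2 + ∑ p ∈ pw w z, 1 / (p : ℝ))) ≤
        (s * (u / N)) ^ 2 * (4 * D ^ 2 * d * N * (N * (2 * D / m))) := by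
      apply mul_le_mul_of_nonneg_left _ (sq_nonneg _)
      exact mul_le_mul_of_nonneg_left e4 (by positivity)
    refine e5.trans ?_
    have e6 : (s * (u / N)) ^ 2 * (4 * D ^ 2 * d * N * (N * (2 * D / m))) = s ^ 2 * (8 * d * D ^ 3 * u ^ 2 / m) := by
      field_simp
      ring
    rw [e6]
    have e7 : 8 * d * D ^ 3 * u ^ 2 / m ≤ 1 := (div_le_one hm0).2 h1
    have e8 : 0 ≤ 8 * d * D ^ 3 * u ^ 2 / m := by positivity
    nlinarith [sq_nonneg s]
  · intro p hp hp1 hp2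
    have hp0 : (0 : ℝ) < p := by exact_mod_cast hp.pos
    have hwp : (w : ℝ) ≤ p := by exact_mod_cast hp1.le
    have q1 : (N : ℝ) / p + 1 ≤ N * (2 / m) := by
      have q2 : (N : ℝ) / p ≤ N / m := div_le_div_of_nonneg_left hN0.le hm0 (hmw.trans hwp)
      have q3 : 1 ≤ N / m := (one_le_div hm0).2 hmN
      have q4 : (N : ℝ) * (2 / m) = N / m + N / m := by ring
      linarith
    rw [abs_mul, abs_of_nonneg (by positivity : 0 ≤ u / N)]
    have q5 : |s| * (u / N) * (2 * D * (d * ((N : ℝ) / p + 1))) ≤ 1 * (u / N) * (2 * D * (d * (N * (2 / m)))) := by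
      apply mul_le_mul
      · exact mul_le_mul_of_nonneg_right hs (by positivity)
      · apply mul_le_mul_of_nonneg_left _ (by positivity)
        exact mul_le_mul_of_nonneg_left q1 hd0
      · positivity
      · positivity
    refine q5.trans ?_
    have q6 : 1 * (u / N) * (2 * D * (d * (N * (2 / m)))) = 4 * d * D * u / m := by
      field_simp
      ring
    rw [q6]
    exact (div_le_one hm0).2 h2

end Pool.Agent.TP975.RP
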