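import Mathlib
import Pool.Agent.TP975.RP.Si4
import Pool.Agent.TP975.RP.Gn2

/-!
Sifted sums over the values of a polynomial at an interval: large deviations.
-/

set_option autoImplicit false

namespace Pool.Agent.TP975.RP

open Finset
open Pool.Agent.H373R2.T7

lemma V_LL3 (E : ℕ) : ∃ H0 : ℕ, ∀ H : ℕ, H0 ≤ H → ∀ z : ℕ, (z : ℝ) ≤ Real.log H ^ E →
    (Vz z)⁻¹ ≤ Real.log (Real.log H) ^ 3 ∧ 1 + Real.log z ≤ Real.log (Real.log H) ^ 3 := by
  obtain ⟨C, hC1, hC⟩ := Vz_log2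
  obtain ⟨H1, h1⟩ := ll_ev (max (C * ((E : ℝ) + 1) ^ 2) (max 2 ((E : ℝ) + 1)))
  obtain ⟨H2, h2⟩ := Filter.eventually_atTop.1 (ev_log 3)
  refine ⟨max H1 H2, fun H hH z hz => ?_⟩
  have a1 := h1 H (le_trans (le_max_left _ _) hH)
  have a2 := h2 H (le_trans (le_max_right _ _) hH)
  set L := Real.log H with hL
  set LL := Real.log L with hLL
  have b1 : C * ((E : ℝ) + 1) ^ 2 ≤ LL := (le_max_left _ _).trans a1
  have b2 : 2 ≤ LL := ((le_max_left _ _).trans (le_max_right _ _)).trans a1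
  have b3 : (E : ℝ) + 1 ≤ LL := ((le_max_right _ _).trans (le_max_right _ _)).trans a1
  have hL1 : 1 ≤ L := by linarith
  have hLL0 : 0 < LL := by linarith
  have h3 := hC (max z 3) (le_max_right _ _)
  have h4 := Vz_anti (le_max_left z 3)
  have h5 : ((max z 3 : ℕ) : ℝ) ≤ L ^ (E + 1) := by
    push_cast
    apply max_le
    · exact hz.trans (pow_le_pow_right₀ hL1 (by omega))
    · calc (3 : ℝ) ≤ L ^ 1 := by rw [pow_one]; exact a2
        _ ≤ _ := pow_le_pow_right₀ hL1 (by omega)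
  have h6 : (3 : ℝ) ≤ ((max z 3 : ℕ) : ℝ) := by exact_mod_cast le_max_right _ _
  have h7 : Real.log ((max z 3 : ℕ) : ℝ) ≤ (E + 1) * LL := by
    have h8 := Real.log_le_log (by linarith) h5
    rw [Real.log_pow] at h8
    push_cast at h8
    push_cast
    exact h8
  have h8 : 0 ≤ Real.log ((max z 3 : ℕ) : ℝ) := Real.log_nonneg (by linarith)
  constructor
  · calc (Vz z)⁻¹ ≤ C * ((E + 1) * LL) ^ 2 := by
          refine h4.trans (h3.trans ?_)
          apply mul_le_mul_of_nonneg_left _ (by linarith)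
          exact pow_le_pow_left₀ h8 h7 2
      _ = (C * ((E : ℝ) + 1) ^ 2) * LL ^ 2 := by ring
      _ ≤ LL * LL ^ 2 := mul_le_mul_of_nonneg_right b1 (by positivity)
      _ = LL ^ 3 := by ring
  · have h9 : Real.log (z : ℝ) ≤ (E + 1) * LL := by
      refine le_trans ?_ h7
      rcases Nat.eq_zero_or_pos z with h0 | h0
      · rw [h0, Nat.cast_zero, Real.log_zero]
        exact Real.log_nonneg (by exact_mod_cast le_trans (by norm_num) (le_max_right 0 3))
      · exact Real.log_le_log (by exact_mod_cast h0) (by exact_mod_cast le_max_left z 3)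
    have h10 : (E + 1 : ℝ) * LL ≤ LL * LL := mul_le_mul_of_nonneg_right b3 hLL0.le
    nlinarith

section main

variable (d : ℕ) (a : Fin (d + 1) → ℤ) (M N : ℕ)

/-- the difference of two sifted sums -/
noncomputable def Dl {d : ℕ} (a : Fin (d + 1) → ℤ) (M N w z : ℕ) (b : ℤ) : ℝ :=
  Ts z (Icc 1 N) (fun n => rr 0 a ((M + n : ℕ) : ℤ)) b - Ts w (Icc 1 N) (fun n => rr 0 a ((M + n : ℕ) : ℤ)) b

/-- moments over the period -/
lemma mom_model {d : ℕ} (a : Fin (d + 1) → ℤ) (M N : ℕ) (hN : 1 ≤ N) (w z : ℕ) (hw : 1 ≤ w) (hwz : w ≤ z)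
    (hg : Ncp w z a) (D u m : ℝ) (hD : (Vz z)⁻¹ ≤ D) (hD2 : 1 + Real.log z ≤ D) (hu : 0 < u)
    (hm0 : 0 < m) (hmw : m ≤ w) (hmN : m ≤ N) (h1 : 8 * d * D ^ 3 * u ^ 2 ≤ m) (h2 : 4 * d * D * u ≤ m)
    (K : ℕ) (hK : Even K) :
    ∑ b ∈ range (Pz z), (Dl a M N w z (b : ℤ)) ^ K ≤ Pz z * (2 * Real.exp 1 * K.factorial * (N / u) ^ K) := by
  have hN0 : (0 : ℝ) < N := by exact_mod_cast hN
  have p1 := expo2 d a M N hN w z hw hwz hg D u m 1 hD hD2 hu.le hm0 hmw hmN h1 h2 (by norm_num)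
  have p2 := expo2 d a M N hN w z hw hwz hg D u m (-1) hD hD2 hu.le hm0 hmw hmN h1 h2 (by norm_num)
  have hf : (0 : ℝ) < K.factorial := by exact_mod_cast K.factorial_pos
  have hpt : ∀ b ∈ range (Pz z), (Dl a M N w z (b : ℤ)) ^ K ≤ K.factorial * (N / u) ^ K *
      (Real.exp (1 * (u / N) * Dl a M N w z (b : ℤ)) + Real.exp (-1 * (u / N) * Dl a M N w z (b : ℤ))) := by
    intro b _
    set x := Dl a M N w z (b : ℤ) with hx
    have q1 := Real.pow_div_factorial_le_exp (|(u / N) * x|) (abs_nonneg _) K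
    rw [div_le_iff₀ hf, ← abs_pow, abs_of_nonneg (hK.pow_nonneg _), mul_pow] at q1
    have q2 : Real.exp |(u / N) * x| ≤ Real.exp (1 * (u / N) * x) + Real.exp (-1 * (u / N) * x) := by
      rcases abs_cases ((u / N) * x) with ⟨h, _⟩ | ⟨h, _⟩
      · rw [h]
        have : Real.exp ((u / N) * x) = Real.exp (1 * (u / N) * x) := by congr 1; ring
        rw [this]
        linarith [Real.exp_pos (-1 * (u / N) * x)]
      · rw [h]
        have : Real.exp (-((u / N) * x)) = Real.exp (-1 * (u / N) * x) := by congr 1; ring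
        rw [this]
        linarith [Real.exp_pos (1 * (u / N) * x)]
    have q3 : (N / u : ℝ) ^ K * (u / N) ^ K = 1 := by
      rw [← mul_pow, div_mul_div_comm, mul_comm (N : ℝ) u, div_self (by positivity), one_pow]
    have q4 : x ^ K = (N / u : ℝ) ^ K * ((u / N) ^ K * x ^ K) := by rw [← mul_assoc, q3, one_mul]
    rw [q4]
    calc (N / u : ℝ) ^ K * ((u / N) ^ K * x ^ K) ≤ (N / u : ℝ) ^ K * (Real.exp |(u / N) * x| * K.factorial) :=
          mul_le_mul_of_nonneg_left q1 (by positivity)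
      _ ≤ (N / u : ℝ) ^ K * ((Real.exp (1 * (u / N) * x) + Real.exp (-1 * (u / N) * x)) * K.factorial) := by
          apply mul_le_mul_of_nonneg_left _ (by positivity)
          exact mul_le_mul_of_nonneg_right q2 hf.le
      _ = _ := by ring
  refine (sum_le_sum hpt).trans ?_
  rw [← mul_sum, sum_add_distrib]
  have p3 : ∑ b ∈ range (Pz z), Real.exp (1 * (u / N) * Dl a M N w z (b : ℤ)) +
      ∑ b ∈ range (Pz z), Real.exp (-1 * (u / N) * Dl a M N w z (b : ℤ)) ≤ Pz z * (2 * Real.exp 1) := by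
    unfold Dl
    linarith
  calc _ ≤ K.factorial * (N / u : ℝ) ^ K * (Pz z * (2 * Real.exp 1)) := mul_le_mul_of_nonneg_left p3 (by positivity)
    _ = _ := by ring

lemma Pz_le (w : ℕ) : Pz w ≤ 4 ^ w := by
  have h2 := primorial_le_four_pow w
  refine le_trans (le_of_eq ?_) h2
  unfold Pz primorial pz
  apply prod_congr _ (fun _ _ => rfl)
  ext p
  rw [mem_filter, mem_filter, mem_Icc, mem_range]
  constructor
  · rintro ⟨⟨_, h3⟩, h4⟩
    exact ⟨by omega, h4⟩
  · rintro ⟨h3, h4⟩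
    exact ⟨⟨h4.one_le, by omega⟩, h4⟩

/-- large deviations, small moduli -/
lemma tail_small {d : ℕ} (a : Fin (d + 1) → ℤ) (M N : ℕ) (hN : 1 ≤ N) (w z : ℕ) (hw : 1 ≤ w) (hwz : w ≤ z)
    (hg : Ncp w z a) (D u m η : ℝ) (hD : (Vz z)⁻¹ ≤ D) (hD2 : 1 + Real.log z ≤ D) (hu : 0 < u)
    (hm0 : 0 < m) (hmw : m ≤ w) (hmN : m ≤ N) (h1 : 8 * d * D ^ 3 * u ^ 2 ≤ m) (h2 : 4 * d * D * u ≤ m)
    (H : ℕ) (hH : 4 ^ z ≤ H) [DecidablePred (fun b : ℤ => η * N < |Dl a M N w z b|)] :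
    ((((Icc (-(H : ℤ)) H).filter (fun b : ℤ => η * N < |Dl a M N w z b|)).card : ℕ) : ℝ) ≤
      (2 * H + 1) * (4 * Real.exp 1 * Real.exp (-(u * η))) := by
  have hN0 : (0 : ℝ) < N := by exact_mod_cast hN
  have p1 := expo2 d a M N hN w z hw hwz hg D u m 1 hD hD2 hu.le hm0 hmw hmN h1 h2 (by norm_num)
  have p2 := expo2 d a M N hN w z hw hwz hg D u m (-1) hD hD2 hu.le hm0 hmw hmN h1 h2 (by norm_num)
  have hP1 : 1 ≤ Pz z := Pz_pos z
  have hP0 : (0 : ℝ) < Pz z := by exact_mod_cast hP1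
  have hPH : (Pz z : ℝ) ≤ 2 * H + 1 := by
    have : Pz z ≤ H := (Pz_le z).trans hH
    have h3 : (Pz z : ℝ) ≤ H := by exact_mod_cast this
    have : (0 : ℝ) ≤ H := Nat.cast_nonneg _
    linarith
  have hper : ∀ s : ℝ, Pdc (Pz z) (fun b => Real.exp (s * (u / N) * Dl a M N w z b)) := by
    intro s x y hxy
    simp only
    have e1 : Dl a M N w z x = Dl a M N w z y := by
      unfold Dl
      rw [Ts_per z _ _ x y hxy, Ts_per w _ _ x y ((Int.natCast_dvd_natCast.2 (Pz_dvd hwz)).trans hxy)]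
    rw [e1]
  have hw1 : ∀ s : ℝ, ∑ b ∈ range (Pz z), Real.exp (s * (u / N) * Dl a M N w z (b : ℤ)) ≤ Pz z * Real.exp 1 →
      ∑ b ∈ Icc (-(H : ℤ)) H, Real.exp (s * (u / N) * Dl a M N w z b) ≤ (2 * H + 1) * (2 * Real.exp 1) := by
    intro s hs
    refine (win_per (Pz z) hP1 (fun b => Real.exp (s * (u / N) * Dl a M N w z b)) (fun _ => (Real.exp_pos _).le)
      (hper s) H).trans ?_
    calc ((2 * H + 1 : ℝ) / Pz z + 1) * ∑ n ∈ range (Pz z), Real.exp (s * (u / N) * Dl a M N w z (n : ℤ)) ≤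
        ((2 * H + 1 : ℝ) / Pz z + 1) * (Pz z * Real.exp 1) := mul_le_mul_of_nonneg_left hs (by positivity)
      _ = (2 * H + 1 + Pz z) * Real.exp 1 := by field_simp
      _ ≤ (2 * (2 * H + 1)) * Real.exp 1 := by
          apply mul_le_mul_of_nonneg_right _ (Real.exp_pos _).le
          linarith
      _ = _ := by ring
  have q1 := hw1 1 p1
  have q2 := hw1 (-1) p2
  have hpt : ∀ b ∈ (Icc (-(H : ℤ)) H).filter (fun b : ℤ => η * N < |Dl a M N w z b|), Real.exp (u * η) ≤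
      Real.exp (1 * (u / N) * Dl a M N w z b) + Real.exp (-1 * (u / N) * Dl a M N w z b) := by
    intro b hb
    rw [mem_filter] at hb
    set x := Dl a M N w z b with hx
    have h3 : u * η ≤ (u / N) * |x| := by
      rw [div_mul_eq_mul_div, le_div_iff₀ hN0, mul_assoc]
      exact mul_le_mul_of_nonneg_left hb.2.le hu.le
    rcases abs_cases x with ⟨h, _⟩ | ⟨h, _⟩
    · rw [h] at h3
      have : Real.exp (u * η) ≤ Real.exp (1 * (u / N) * x) := Real.exp_le_exp.2 (by linarith)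
      linarith [Real.exp_pos (-1 * (u / N) * x)]
    · rw [h] at h3
      have : Real.exp (u * η) ≤ Real.exp (-1 * (u / N) * x) := Real.exp_le_exp.2 (by linarith)
      linarith [Real.exp_pos (1 * (u / N) * x)]
  have q3 : ((((Icc (-(H : ℤ)) H).filter (fun b : ℤ => η * N < |Dl a M N w z b|)).card : ℕ) : ℝ) * Real.exp (u * η) ≤
      (2 * H + 1) * (4 * Real.exp 1) := by
    calc ((((Icc (-(H : ℤ)) H).filter (fun b : ℤ => η * N < |Dl a M N w z b|)).card : ℕ) : ℝ) * Real.exp (u * η) =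
        ∑ b ∈ (Icc (-(H : ℤ)) H).filter (fun b : ℤ => η * N < |Dl a M N w z b|), Real.exp (u * η) := by
          rw [sum_const, nsmul_eq_mul]
      _ ≤ ∑ b ∈ (Icc (-(H : ℤ)) H).filter (fun b : ℤ => η * N < |Dl a M N w z b|),
          (Real.exp (1 * (u / N) * Dl a M N w z b) + Real.exp (-1 * (u / N) * Dl a M N w z b)) := sum_le_sum hpt
      _ ≤ ∑ b ∈ Icc (-(H : ℤ)) H,
          (Real.exp (1 * (u / N) * Dl a M N w z b) + Real.exp (-1 * (u / N) * Dl a M N w z b)) :=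
          sum_le_sum_of_subset_of_nonneg (filter_subset _ _) (fun _ _ _ => by positivity)
      _ ≤ _ := by
          rw [sum_add_distrib]
          linarith
  rw [Real.exp_neg, ← mul_assoc, ← div_eq_mul_inv, le_div_iff₀ (Real.exp_pos _)]
  exact q3

end main

end Pool.Agent.TP975.RP
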