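import Mathlib
import Pool.Agent.TP975.RP.Si6
import Pool.Agent.TP975.RP.Si8
import Pool.Agent.TP975.RP.Gn8
import Pool.Agent.TP975.RP.Mx6

/-!
Prime values in one interval: the exceptional polynomials.
-/

set_option autoImplicit false

namespace Pool.Agent.TP975.RP

open Finset
open Pool.Agent.H373R2.T7

open Classical in
lemma fiber_tr (d H : ℕ) (Bad : (Fin (d + 1) → ℤ) → Prop) (κ : ℝ)
    (h : ∀ a : Fin (d + 1) → ℤ, ((((Icc (-(H : ℤ)) H).filter (fun b : ℤ => Bad (Function.update a 0 b))).card : ℕ) : ℝ) ≤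
      κ * (2 * H + 1)) :
    ((((Bx 1 d H).filter (fun a => Bad (a 0))).card : ℕ) : ℝ) ≤ (Bx 1 d H).card * κ := by
  have h1 := resample_c (m := 1) (d := d) (H := H) 0 (fun a => if Bad (a 0) then (1 : ℝ) else 0)
  have hH0 : (0 : ℝ) < 2 * H + 1 := by positivity
  rw [pow_one] at h1
  have h2 : ∑ a ∈ Bx 1 d H, (if Bad (a 0) then (1 : ℝ) else 0) = ((((Bx 1 d H).filter (fun a => Bad (a 0))).card : ℕ) : ℝ) := by
    rw [← sum_filter, sum_const, nsmul_eq_mul, mul_one]
  rw [h2] at h1
  have h3 : ∀ a ∈ Bx 1 d H, ∑ b ∈ Ib 1 H, (if Bad (setc 0 a b 0) then (1 : ℝ) else 0) ≤ κ * (2 * H + 1) := by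
    intro a _
    refine le_trans (le_of_eq ?_) (h (a 0))
    have h4 := Ib_sum H (fun b => if Bad (Function.update (a 0) 0 b) then (1 : ℝ) else 0)
    rw [← sum_filter, ← sum_filter, sum_const, sum_const, nsmul_eq_mul, mul_one, nsmul_eq_mul, mul_one] at h4
    rw [← sum_filter, sum_const, nsmul_eq_mul, mul_one]
    exact h4
  have h5 := sum_le_sum h3
  rw [h1, sum_const, nsmul_eq_mul] at h5
  apply le_of_mul_le_mul_left _ hH0
  linarith

lemma rr_upd {d : ℕ} (a : Fin (d + 1) → ℤ) (b t : ℤ) : rr 0 (Function.update a 0 b) t = rr 0 a t := by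
  unfold rr
  refine sum_congr rfl fun c hc => ?_
  rw [Function.update_of_ne (ne_of_mem_erase hc)]

lemma Ncp_upd {d : ℕ} (w z : ℕ) (a : Fin (d + 1) → ℤ) (b : ℤ) : Ncp w z (Function.update a 0 b) ↔ Ncp w z a := by
  unfold Ncp
  refine forall_congr' fun p => forall_congr' fun _ => forall_congr' fun _ => forall_congr' fun _ => ?_
  refine exists_congr fun c => ?_
  by_cases hc : c = 0
  · simp [hc]
  · rw [Function.update_of_ne hc]

lemma Dl_upd {d : ℕ} (w z M N : ℕ) (a : Fin (d + 1) → ℤ) (b x : ℤ) : Dl (Function.update a 0 b) M N w z x = Dl a M N w z x := by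
  unfold Dl
  simp only [rr_upd]

open Classical in
/-- the transfer to the box -/
lemma box_tr (d H w z M N : ℕ) (η κ : ℝ) (hκ : 0 ≤ κ)
    (h : ∀ a : Fin (d + 1) → ℤ, Ncp w z a →
      ((((Icc (-(H : ℤ)) H).filter (fun b : ℤ => η * N < |Dl a M N w z b|)).card : ℕ) : ℝ) ≤ (2 * H + 1) * κ) :
    ((((Bx 1 d H).filter (fun a => Ncp w z (a 0) ∧ η * N < |Dl (a 0) M N w z (a 0 0)|)).card : ℕ) : ℝ) ≤
      (Bx 1 d H).card * κ := by
  have key := fiber_tr d H (fun a => Ncp w z a ∧ η * N < |Dl a M N w z (a 0)|) κ (by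
    intro a
    simp only [Ncp_upd, Dl_upd, Function.update_self]
    by_cases hn : Ncp w z a
    · simp only [hn, true_and]
      rw [mul_comm κ]
      exact h a hn
    · simp only [hn, false_and, filter_false, card_empty, Nat.cast_zero]
      positivity)
  convert key

open Classical in
/-- few polynomials are constant modulo a prime -/
lemma ncp_card (d H w z : ℕ) (hd : 2 ≤ d) (hw : 1 ≤ w) (hz : z ≤ H) :
    ((((Bx 1 d H).filter (fun a => ¬ Ncp w z (a 0))).card : ℕ) : ℝ) ≤ (Bx 1 d H).card * (4 / w) := by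
  have hH0 : (0 : ℝ) < 2 * H + 1 := by positivity
  -- one prime
  have hone : ∀ p ∈ pw w z, ((((Bx 1 d H).filter (fun a => ∀ c : Fin (d + 1), c ≠ 0 → (p : ℤ) ∣ a 0 c)).card : ℕ) : ℝ) ≤
      (Bx 1 d H).card * (4 * (1 / (p : ℝ) ^ 2)) := by
    intro p hp
    rw [mem_pw] at hp
    have hp0 : (0 : ℝ) < p := by exact_mod_cast hp.2.2.pos
    have hpH : (p : ℝ) ≤ 2 * H + 1 := by
      have : (p : ℝ) ≤ H := by exact_mod_cast hp.2.1.trans hz
      have : (0 : ℝ) ≤ H := Nat.cast_nonneg _
      linarith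
    set S : Finset ℤ := (Icc (-(H : ℤ)) H).filter (fun b : ℤ => (p : ℤ) ∣ b) with hS
    have hScard : (S.card : ℝ) ≤ (2 * H + 1) * (2 / p) := by
      have q1 := win_per p hp.2.2.pos (fun b => if (p : ℤ) ∣ b then (1 : ℝ) else 0) (fun t => by split_ifs <;> norm_num)
        (by
          intro s t hst
          have : (p : ℤ) ∣ s ↔ (p : ℤ) ∣ t := by
            have e : s = (s - t) + t := by ring
            rw [e]
            exact dvd_add_right hst
          simp only [this]) H
      rw [← sum_filter, sum_const, nsmul_eq_mul, mul_one, ← sum_filter, sum_const, nsmul_eq_mul, mul_one] at q1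
      have q2 : (((range p).filter (fun b : ℕ => (p : ℤ) ∣ (b : ℤ))).card) = 1 := by
        have := per_count p hp.2.2.pos 0
        simpa using this
      rw [q2] at q1
      refine q1.trans ?_
      have q3 : (1 : ℝ) ≤ (2 * H + 1) / p := (one_le_div hp0).2 hpH
      have q4 : (2 * H + 1 : ℝ) * (2 / p) = (2 * H + 1) / p + (2 * H + 1) / p := by ring
      rw [q4]
      push_cast
      linarith
    have h1d : 1 < d + 1 := by omega
    have h2d : 2 < d + 1 := by omega
    set T : Finset (Fin (d + 1)) := {⟨1, h1d⟩, ⟨2, h2d⟩} with hT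
    have hTc : T.card = 2 := by
      rw [hT, card_pair]
      intro h
      have := congrArg Fin.val h
      simp at this
    have hsub : ((Bx 1 d H).filter (fun a => ∀ c : Fin (d + 1), c ≠ 0 → (p : ℤ) ∣ a 0 c)).card ≤
        (Fintype.piFinset (fun c : Fin (d + 1) => if c ∈ T then S else Icc (-(H : ℤ)) H)).card := by
      apply card_le_card_of_injOn (fun a => a 0)
      · intro a ha
        rw [mem_coe, mem_filter, mem_Bx] at ha
        rw [mem_coe, Fintype.mem_piFinset]
        intro c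
        have hc1 := ha.1 0
        unfold QQ at hc1
        rw [Fintype.mem_piFinset] at hc1
        split_ifs with hc
        · rw [hS, mem_filter]
          refine ⟨hc1 c, ha.2 c ?_⟩
          rw [hT, mem_insert, mem_singleton] at hc
          rcases hc with rfl | rfl
          · intro h0
            have := congrArg Fin.val h0
            simp at this
          · intro h0
            have := congrArg Fin.val h0
            simp at this
        · exact hc1 c
      · intro a _ a' _ haa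
        funext i
        rw [Fin.fin_one_eq_zero i]
        exact haa
    have hprod : ((Fintype.piFinset (fun c : Fin (d + 1) => if c ∈ T then S else Icc (-(H : ℤ)) H)).card : ℝ) ≤
        (2 * H + 1) ^ (d + 1) * (2 / p) ^ 2 := by
      rw [Fintype.card_piFinset]
      push_cast
      have q1 : ∀ c ∈ (univ : Finset (Fin (d + 1))), (((if c ∈ T then S else Icc (-(H : ℤ)) H).card : ℕ) : ℝ) ≤
          (2 * H + 1) * (if c ∈ T then 2 / (p : ℝ) else 1) := by
        intro c _
        split_ifs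
        · exact hScard
        · rw [Int.card_Icc, mul_one]
          have : ((H : ℤ) + 1 - -(H : ℤ)).toNat = 2 * H + 1 := by omega
          rw [this]
          push_cast
          exact le_rfl
      refine (prod_le_prod (fun _ _ => Nat.cast_nonneg _) q1).trans (le_of_eq ?_)
      rw [prod_mul_distrib, prod_const, card_univ, Fintype.card_fin, prod_ite_mem, univ_inter, prod_const, hTc]
    rw [card_Bx, mul_one]
    calc _ ≤ ((Fintype.piFinset (fun c : Fin (d + 1) => if c ∈ T then S else Icc (-(H : ℤ)) H)).card : ℝ) := by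
          exact_mod_cast hsub
      _ ≤ _ := hprod
      _ = _ := by
          push_cast
          rw [div_pow]
          ring
  have hsub : (Bx 1 d H).filter (fun a => ¬ Ncp w z (a 0)) ⊆ (pw w z).biUnion (fun p =>
      (Bx 1 d H).filter (fun a => ∀ c : Fin (d + 1), c ≠ 0 → (p : ℤ) ∣ a 0 c)) := by
    intro a ha
    rw [mem_filter] at ha
    obtain ⟨ha1, ha2⟩ := ha
    unfold Ncp at ha2
    push Not at ha2
    obtain ⟨p, hp, hp1, hp2, hp3⟩ := ha2
    rw [mem_biUnion]
    exact ⟨p, mem_pw.2 ⟨hp1, hp2, hp⟩, mem_filter.2 ⟨ha1, hp3⟩⟩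
  have hB0 : (0 : ℝ) ≤ (Bx 1 d H).card := Nat.cast_nonneg _
  calc ((((Bx 1 d H).filter (fun a => ¬ Ncp w z (a 0))).card : ℕ) : ℝ) ≤ ∑ p ∈ pw w z,
        ((((Bx 1 d H).filter (fun a => ∀ c : Fin (d + 1), c ≠ 0 → (p : ℤ) ∣ a 0 c)).card : ℕ) : ℝ) := by
        exact_mod_cast (card_le_card hsub).trans card_biUnion_le
    _ ≤ ∑ p ∈ pw w z, (Bx 1 d H).card * (4 * (1 / (p : ℝ) ^ 2)) := sum_le_sum hone
    _ = (Bx 1 d H).card * (4 * ∑ p ∈ pw w z, 1 / (p : ℝ) ^ 2) := by rw [mul_sum, mul_sum]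
    _ ≤ (Bx 1 d H).card * (4 * (1 / w)) := by
        apply mul_le_mul_of_nonneg_left _ hB0
        apply mul_le_mul_of_nonneg_left (sum_pw_inv_sq w z hw) (by norm_num)
    _ = _ := by ring

/-- the points of an interval -/
def Gi (M : ℕ) (n : ℕ) (_j : Fin 1) : ℤ := ((M + n : ℕ) : ℤ)

lemma MG_Ts {d : ℕ} (y M N : ℕ) (a : Fin 1 → Fin (d + 1) → ℤ) :
    MG y (fun _ => 0) (Icc 1 N) (Gi M) a = Ts y (Icc 1 N) (fun n => rr 0 (a 0) ((M + n : ℕ) : ℤ)) (a 0 0) := by
  unfold MG Ts QM Gi
  refine sum_congr rfl fun n _ => ?_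
  rw [Fintype.prod_unique]
  congr 2
  rw [ev_rr 0]
  simp

lemma QL_Er {d : ℕ} (z M N : ℕ) (a : Fin 1 → Fin (d + 1) → ℤ) :
    ∑ n ∈ Icc 1 N, QL (fun _ => 0) (Gi M n) a = Er z M N (a 0) + MG z (fun _ => 0) (Icc 1 N) (Gi M) a := by
  unfold Er MG QL QM Gi hh
  rw [← sum_add_distrib]
  refine sum_congr rfl fun n _ => ?_
  rw [Fintype.prod_unique, Fintype.prod_unique]
  ring

end Pool.Agent.TP975.RP
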