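import Mathlib
import Pool.Agent.TP975.RP.Si9

/-!
Prime values in one interval: the deviation.
-/

set_option autoImplicit false

namespace Pool.Agent.TP975.RP

open Finset
open Pool.Agent.H373R2.T7

lemma Ncp_mono {d : ℕ} {w w' z z' : ℕ} {a : Fin (d + 1) → ℤ} (h : Ncp w z a) (hw : w ≤ w') (hz : z' ≤ z) : Ncp w' z' a :=
  fun p hp h1 h2 => h p hp (lt_of_le_of_lt hw h1) (h2.trans hz)

open Classical in
theorem blk (d A U B : ℕ) (hd : 2 ≤ d) : ∃ F c : ℕ, ∃ H0 : ℕ, ∀ H : ℕ, H0 ≤ H → ∃ z : ℕ, (z : ℝ) ≤ Real.log H ^ c ∧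
    z ≤ H ∧ ∀ w : ℕ, Real.log (Real.log H) ^ (2 * B + 14) ≤ w → w ≤ ⌊√(Real.log H)⌋₊ → w ≤ z ∧
    ∀ M N : ℕ, 3 * Real.log H ≤ N → ((M + N : ℕ) : ℝ) ≤ Real.log H ^ A →
    ((((Bx 1 d H).filter (fun a => Ncp w z (a 0) ∧ 3 / Real.log (Real.log H) ^ B * N <
      |∑ n ∈ Icc 1 N, QL (fun _ => 0) (Gi M n) a - MG w (fun _ => 0) (Icc 1 N) (Gi M) a|)).card : ℕ) : ℝ) ≤
      (Bx 1 d H).card * (Real.log (Real.log H) ^ F * (Real.log H / N) ^ d + 2 / Real.log H ^ U) := by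
  obtain ⟨C, hC1, B1, hB1⟩ := momD d A (by omega)
  set E : ℕ := B1 + 2 with hE
  obtain ⟨H1, h1⟩ := hB1 E
  obtain ⟨H2, h2⟩ := V_LL3 E
  obtain ⟨H3, h3⟩ := stg1 d E U B
  obtain ⟨H4, h4⟩ := stg2 d U B
  obtain ⟨H5, h5⟩ := ll_ev (max 2 C)
  obtain ⟨H6, h6⟩ := Filter.eventually_atTop.1 (ev_log 4)
  obtain ⟨H7, h7⟩ := Filter.eventually_atTop.1 (ev_pow E 1)
  refine ⟨2 * d * B + 3 * d + 1, E, max (max (max H1 H2) (max H3 H4)) (max (max H5 H6) H7), fun H hH => ?_⟩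
  have b0 := le_trans (le_max_left _ _) hH
  have b0' := le_trans (le_max_right _ _) hH
  have a5 := h5 H (le_trans (le_trans (le_max_left _ _) (le_max_left _ _)) b0')
  have a6 := h6 H (le_trans (le_trans (le_max_right _ _) (le_max_left _ _)) b0')
  have a7 := h7 H (le_trans (le_max_right _ _) b0')
  have a1 := h1 H (le_trans (le_trans (le_max_left _ _) (le_max_left _ _)) b0)
  have a2 := h2 H (le_trans (le_trans (le_max_right _ _) (le_max_left _ _)) b0)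
  have a3 := h3 H (le_trans (le_trans (le_max_left _ _) (le_max_right _ _)) b0)
  have a4 := h4 H (le_trans (le_trans (le_max_right _ _) (le_max_right _ _)) b0)
  set L := Real.log H with hL
  set LL := Real.log L with hLL
  have hLL2 : 2 ≤ LL := (le_max_left _ _).trans a5
  have hLLC : C ≤ LL := (le_max_right _ _).trans a5
  have hLL0 : 0 < LL := by linarith
  have hLL1 : 1 ≤ LL := by linarith
  have hL0 : 0 < L := by linarith
  have hL1 : 1 ≤ L := by linarith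
  set z : ℕ := ⌈L ^ (B1 + 1)⌉₊ with hz
  have hzl : L ^ (B1 + 1) ≤ z := Nat.le_ceil _
  have hzu : (z : ℝ) ≤ L ^ E := by
    have q1 : (z : ℝ) < L ^ (B1 + 1) + 1 := Nat.ceil_lt_add_one (by positivity)
    have q2 : 1 ≤ L ^ (B1 + 1) := one_le_pow₀ hL1
    have q3 : L ^ E = L ^ (B1 + 1) * L := by rw [hE, pow_succ]
    rw [q3]
    nlinarith
  have hzB : L ^ B1 ≤ z := (pow_le_pow_right₀ hL1 (by omega)).trans hzl
  have hLz : L ≤ z := by
    refine le_trans ?_ hzl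
    calc L = L ^ 1 := (pow_one L).symm
      _ ≤ L ^ (B1 + 1) := pow_le_pow_right₀ hL1 (by omega)
  have hzH : z ≤ H := by
    have : (z : ℝ) ≤ H := by linarith
    exact_mod_cast this
  have hsqL : √L ≤ L := by
    rw [Real.sqrt_le_left hL0.le]
    nlinarith
  have hw'z : ⌊√L⌋₊ ≤ z := by
    have : ((⌊√L⌋₊ : ℕ) : ℝ) ≤ z := (Nat.floor_le (Real.sqrt_nonneg _)).trans (hsqL.trans hLz)
    exact_mod_cast this
  refine ⟨z, hzu, hzH, fun w hw1 hw2 => ⟨hw2.trans hw'z, fun M N hN hMN => ?_⟩⟩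
  have hV := (a2 z hzu).1
  have hNr : (0 : ℝ) < N := by linarith
  have hBc0 : (0 : ℝ) ≤ (Bx 1 d H).card := Nat.cast_nonneg _
  have hmom := a1 z hzB hzu M N hN hMN
  set S1 := (Bx 1 d H).filter (fun a => 1 / LL ^ B * N < |Er z M N (a 0)|) with hS1
  set S2 := (Bx 1 d H).filter (fun a => Ncp ⌊√L⌋₊ z (a 0) ∧ 1 / LL ^ B * N < |Dl (a 0) M N ⌊√L⌋₊ z (a 0 0)|) with hS2
  set S3 := (Bx 1 d H).filter (fun a => Ncp w ⌊√L⌋₊ (a 0) ∧ 1 / LL ^ B * N < |Dl (a 0) M N w ⌊√L⌋₊ (a 0 0)|) with hS3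
  have hsub : (Bx 1 d H).filter (fun a => Ncp w z (a 0) ∧ 3 / LL ^ B * N <
      |∑ n ∈ Icc 1 N, QL (fun _ => 0) (Gi M n) a - MG w (fun _ => 0) (Icc 1 N) (Gi M) a|) ⊆ (S1 ∪ S2) ∪ S3 := by
    intro a ha
    rw [mem_filter] at ha
    obtain ⟨haB, hnc, hgt⟩ := ha
    rw [mem_union, mem_union]
    by_contra hcon
    push Not at hcon
    obtain ⟨⟨c1, c2⟩, c3⟩ := hcon
    have e1 : |Er z M N (a 0)| ≤ 1 / LL ^ B * N := by
      by_contra hc
      exact c1 (mem_filter.2 ⟨haB, not_le.1 hc⟩)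
    have e2 : |Dl (a 0) M N ⌊√L⌋₊ z (a 0 0)| ≤ 1 / LL ^ B * N := by
      by_contra hc
      exact c2 (mem_filter.2 ⟨haB, Ncp_mono hnc hw2 le_rfl, not_le.1 hc⟩)
    have e3 : |Dl (a 0) M N w ⌊√L⌋₊ (a 0 0)| ≤ 1 / LL ^ B * N := by
      by_contra hc
      exact c3 (mem_filter.2 ⟨haB, Ncp_mono hnc le_rfl hw'z, not_le.1 hc⟩)
    have e4 : ∑ n ∈ Icc 1 N, QL (fun _ => 0) (Gi M n) a - MG w (fun _ => 0) (Icc 1 N) (Gi M) a =
        Er z M N (a 0) + Dl (a 0) M N ⌊√L⌋₊ z (a 0 0) + Dl (a 0) M N w ⌊√L⌋₊ (a 0 0) := by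
      rw [QL_Er z, MG_Ts, MG_Ts]
      unfold Dl
      ring
    rw [e4] at hgt
    have e5 := abs_add_three (Er z M N (a 0)) (Dl (a 0) M N ⌊√L⌋₊ z (a 0 0)) (Dl (a 0) M N w ⌊√L⌋₊ (a 0 0))
    have e6 : 3 / LL ^ B * (N : ℝ) = 1 / LL ^ B * N + 1 / LL ^ B * N + 1 / LL ^ B * N := by ring
    linarith
  have hc1 : (S1.card : ℝ) ≤ (Bx 1 d H).card * (LL ^ (2 * d * B + 3 * d + 1) * (L / N) ^ d) := by
    have q1 : (S1.card : ℝ) * (1 / LL ^ B * N) ^ (2 * d) ≤ (Bx 1 d H).card * (C * ((Vz z)⁻¹ * L * N) ^ d) := by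
      refine le_trans ?_ hmom
      have hev : Even (2 * d) := even_two_mul d
      calc (S1.card : ℝ) * (1 / LL ^ B * N) ^ (2 * d) = ∑ a ∈ S1, (1 / LL ^ B * N) ^ (2 * d) := by
            rw [sum_const, nsmul_eq_mul]
        _ ≤ ∑ a ∈ S1, (Er z M N (a 0)) ^ (2 * d) := by
            refine sum_le_sum fun a ha => ?_
            rw [hS1, mem_filter] at ha
            rw [← hev.pow_abs (Er z M N (a 0))]
            exact pow_le_pow_left₀ (by positivity) ha.2.le _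
        _ ≤ _ := sum_le_sum_of_subset_of_nonneg (filter_subset _ _) (fun _ _ _ => hev.pow_nonneg _)
    have hp : 0 < (1 / LL ^ B * (N : ℝ)) ^ (2 * d) := by positivity
    apply le_of_mul_le_mul_right _ hp
    refine q1.trans ?_
    have q2 : C * ((Vz z)⁻¹ * L * N) ^ d ≤ LL * (LL ^ 3 * L * N) ^ d := by
      have hV1 := one_le_Vinv z
      apply mul_le_mul hLLC _ (by positivity) hLL0.le
      apply pow_le_pow_left₀ (by positivity)
      have : 0 ≤ L * N := by positivity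
      nlinarith
    have q3 : (LL ^ (2 * d * B + 3 * d + 1) * (L / N) ^ d) * (1 / LL ^ B * N) ^ (2 * d) = LL * (LL ^ 3 * L * N) ^ d := by
      have e1 : LL ^ (2 * d * B + 3 * d + 1) = (LL ^ B) ^ (2 * d) * ((LL ^ 3) ^ d * LL) := by
        rw [← pow_mul, ← pow_mul, ← pow_succ, ← pow_add]; congr 1; ring
      rw [e1, mul_pow (1 / LL ^ B), div_pow, div_pow, one_pow, mul_pow, mul_pow, pow_mul (N : ℝ) 2 d, ← pow_mul]
      have hNd : (N : ℝ) ^ d ≠ 0 := by positivity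
      have e2 : ((N : ℝ) ^ 2) ^ d = (N : ℝ) ^ d * (N : ℝ) ^ d := by rw [← mul_pow, sq]
      rw [e2]
      have hLp : (LL ^ B) ^ (2 * d) ≠ 0 := by positivity
      field_simp
    have q4 : ((Bx 1 d H).card : ℝ) * (LL ^ (2 * d * B + 3 * d + 1) * (L / N) ^ d) * (1 / LL ^ B * N) ^ (2 * d) =
        (Bx 1 d H).card * (LL * (LL ^ 3 * L * N) ^ d) := by rw [← q3]; ring
    rw [q4]
    exact mul_le_mul_of_nonneg_left q2 hBc0
  have hLN : L ≤ N := by linarith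
  have hc2 : (S2.card : ℝ) ≤ (Bx 1 d H).card * (1 / L ^ U) := by
    apply box_tr d H ⌊√L⌋₊ z M N (1 / LL ^ B) (1 / L ^ U) (by positivity)
    intro a hg
    have := a3 z hw'z hzu a hg M N hLN
    refine this.trans (le_of_eq ?_)
    ring
  have hc3 : (S3.card : ℝ) ≤ (Bx 1 d H).card * (1 / L ^ U) := by
    apply box_tr d H w ⌊√L⌋₊ M N (1 / LL ^ B) (1 / L ^ U) (by positivity)
    intro a hg
    have := a4 w hw1 hw2 a hg M N hLN
    refine this.trans (le_of_eq ?_)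
    ring
  have hfin := (card_le_card hsub).trans (card_union_le _ _)
  have hfin2 := card_union_le S1 S2
  have hfin3 : ((((Bx 1 d H).filter (fun a => Ncp w z (a 0) ∧ 3 / LL ^ B * N <
      |∑ n ∈ Icc 1 N, QL (fun _ => 0) (Gi M n) a - MG w (fun _ => 0) (Icc 1 N) (Gi M) a|)).card : ℕ) : ℝ) ≤
      (S1.card : ℝ) + S2.card + S3.card := by
    have : ((Bx 1 d H).filter (fun a => Ncp w z (a 0) ∧ 3 / LL ^ B * N <
      |∑ n ∈ Icc 1 N, QL (fun _ => 0) (Gi M n) a - MG w (fun _ => 0) (Icc 1 N) (Gi M) a|)).card ≤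
      S1.card + S2.card + S3.card := by omega
    exact_mod_cast this
  refine hfin3.trans ?_
  calc (S1.card : ℝ) + S2.card + S3.card ≤ (Bx 1 d H).card * (LL ^ (2 * d * B + 3 * d + 1) * (L / N) ^ d) +
        (Bx 1 d H).card * (1 / L ^ U) + (Bx 1 d H).card * (1 / L ^ U) := by linarith
    _ = _ := by ring

end Pool.Agent.TP975.RP
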