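import Mathlib
import Pool.Agent.TP975.RP.Sj1
import Pool.Agent.TP975.RP.Cd9

/-!
Prime values in one interval: from the weighted count to the count of primes.
-/

set_option autoImplicit false

namespace Pool.Agent.TP975.RP

open Finset
open Pool.Agent.H373R2.T7

/-- the number of prime values in an interval -/
def piI {d : ℕ} (f : Fin (d + 1) → ℤ) (M N : ℕ) : ℕ :=
  ((Icc 1 N).filter (fun n : ℕ => (ev f ((M + n : ℕ) : ℤ)).natAbs.Prime)).card

/-- the exceptional polynomials -/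
def Bg {d : ℕ} (X y Y : ℕ) (a : Fin 1 → Fin (d + 1) → ℤ) : Prop :=
  BadG (fun _ : Fin 1 => (0 : Fin 1)) (Icc 1 X) (fun n _ => (n : ℤ)) y Y a

lemma piG_piI {d : ℕ} (M N : ℕ) (a : Fin 1 → Fin (d + 1) → ℤ) :
    piG (fun _ : Fin 1 => (0 : Fin 1)) (Icc 1 N) (Gi M) a = piI (a 0) M N := by
  unfold piG piI Gi
  congr 1
  apply filter_congr
  intro n _
  exact ⟨fun h => h 0, fun h _ => h⟩

lemma omC_shift {d : ℕ} (M : ℕ) (a : Fin 1 → Fin (d + 1) → ℤ) (p : ℕ) :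
    omC (fun _ : Fin 1 => (0 : Fin 1)) (fun _ => Polynomial.X + Polynomial.C (M : ℤ)) a p = om1 (a 0) p := by
  have hper : Pdc p (fun t => if (p : ℤ) ∣ ev (a 0) t then (1 : ℝ) else 0) := by
    intro s t hst
    have := ev_mod (a 0) p s t hst
    simp only [this]
  have h1 := shift_inv p (fun t => if (p : ℤ) ∣ ev (a 0) t then (1 : ℝ) else 0) hper (M : ℤ)
  rw [← sum_filter, ← sum_filter, sum_const, sum_const, nsmul_eq_mul, nsmul_eq_mul, mul_one, mul_one] at h1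
  have h2 : ((range p).filter (fun n : ℕ => (p : ℤ) ∣ ev (a 0) ((M : ℤ) + (n : ℤ)))).card =
      ((range p).filter (fun n : ℕ => (p : ℤ) ∣ ev (a 0) (n : ℤ))).card := by exact_mod_cast h1
  unfold omC om1
  rw [← h2]
  congr 1
  apply filter_congr
  intro n _
  simp only [Polynomial.eval_add, Polynomial.eval_X, Polynomial.eval_C]
  rw [add_comm (n : ℤ) (M : ℤ)]
  exact ⟨fun ⟨_, h⟩ => h, fun h => ⟨0, h⟩⟩

lemma CwC_shift {d : ℕ} (M w : ℕ) (a : Fin 1 → Fin (d + 1) → ℤ) :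
    CwC w (fun _ : Fin 1 => (0 : Fin 1)) (fun _ => Polynomial.X + Polynomial.C (M : ℤ)) a = C1 w (a 0) := by
  unfold CwC C1
  refine prod_congr rfl fun p _ => ?_
  rw [omC_shift, pow_one]

lemma Gp_Gi (M : ℕ) : Gp (fun _ : Fin 1 => Polynomial.X + Polynomial.C (M : ℤ)) = Gi M := by
  funext n j
  unfold Gp Gi
  rw [Polynomial.eval_add, Polynomial.eval_X, Polynomial.eval_C]
  push_cast
  ring

theorem good_block (d A B E : ℕ) : ∃ H0 : ℕ, ∀ H : ℕ, H0 ≤ H → ∀ w : ℕ, 1 ≤ w →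
    (w : ℝ) ≤ Real.log (Real.log H) ^ E → ∀ a ∈ Bx 1 d H, (∀ p ≤ w, p.Prime → om1 (a 0) p < p) → ∀ M N X : ℕ,
    Real.log H ≤ N → ((M + N : ℕ) : ℝ) ≤ Real.log H ^ A → M + N ≤ X →
    ¬ Bg X ⌊(H : ℝ) ^ (1 - 1 / Real.log (Real.log H) ^ (B + 4))⌋₊ ⌊(H : ℝ) ^ (1 + 1 / Real.log (Real.log H) ^ (B + 4))⌋₊ a →
    |∑ n ∈ Icc 1 N, QL (fun _ => 0) (Gi M n) a - MG w (fun _ => 0) (Icc 1 N) (Gi M) a| ≤
      3 / Real.log (Real.log H) ^ (B + 4) * N →
    |Real.log H * piI (a 0) M N - C1 w (a 0) * N| ≤ C1 w (a 0) * N / Real.log (Real.log H) ^ B := by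
  obtain ⟨N0, h3⟩ := MG_eval 1 d 1 E (B + 5)
  obtain ⟨H4, h4⟩ := V_small E 1
  obtain ⟨H5, h5⟩ := V_small E (2 * (1 * (d * 1)))
  obtain ⟨c, hc, hlow⟩ := CwC_lower 1 d 1
  obtain ⟨H6, h6⟩ := ll_ev (max 7 (1 / c))
  obtain ⟨H7, h7⟩ := Filter.eventually_atTop.1 (ev_log (max 3 (N0 : ℝ)))
  obtain ⟨H8, h8⟩ := Heta (A * d) (B + 4) ((d : ℝ) + 1)
  refine ⟨max (max (max H4 H5) (max H6 H7)) (max H8 1), fun H hH w hw hw2 a ha hom M N X hN hMN hX hbad hdev => ?_⟩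
  have b0 := le_trans (le_max_left _ _) hH
  have b0' := le_trans (le_max_right _ _) hH
  have hV4 := h4 H (le_trans (le_trans (le_max_left _ _) (le_max_left _ _)) b0) w hw2
  have hV5 := h5 H (le_trans (le_trans (le_max_right _ _) (le_max_left _ _)) b0) w hw2
  have hLLm := h6 H (le_trans (le_trans (le_max_left _ _) (le_max_right _ _)) b0)
  have hLm := h7 H (le_trans (le_trans (le_max_right _ _) (le_max_right _ _)) b0)
  have hη5 := h8 H (le_trans (le_max_left _ _) b0')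
  have hH1 : 1 ≤ H := le_trans (le_max_right _ _) b0'
  have hH1r : (1 : ℝ) ≤ H := by exact_mod_cast hH1
  have hH0 : (0 : ℝ) < H := by linarith
  set L := Real.log H with hL
  set LL := Real.log L with hLL
  have hL3 : 3 ≤ L := (le_max_left _ _).trans hLm
  have hLN : (N0 : ℝ) ≤ L := (le_max_right _ _).trans hLm
  have hLL7 : 7 ≤ LL := (le_max_left _ _).trans hLLm
  have hLLc : 1 / c ≤ LL := (le_max_right _ _).trans hLLm
  have hL0 : 0 < L := by linarith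
  have hL1 : 1 ≤ L := by linarith
  have hLL0 : 0 < LL := by linarith
  have hLL1 : 1 ≤ LL := by linarith
  have hx0 : (0 : ℝ) < N := by linarith
  have hNx : N0 ≤ N := by exact_mod_cast hLN.trans hN
  have hlogx : LL ≤ Real.log N := Real.log_le_log hL0 hN
  set η : ℝ := 1 / LL ^ (B + 4) with hη
  have hη0 : 0 < η := by positivity
  have hLLB : LL ≤ LL ^ (B + 4) := by
    calc LL = LL ^ 1 := (pow_one _).symm
      _ ≤ LL ^ (B + 4) := pow_le_pow_right₀ hLL1 (by omega)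
  have hη7 : η ≤ 1 / 7 := by
    rw [hη]
    apply one_div_le_one_div_of_le (by norm_num)
    linarith
  set y := ⌊(H : ℝ) ^ (1 - η)⌋₊ with hy
  set Y := ⌊(H : ℝ) ^ (1 + η)⌋₊ with hY
  have g5 : (1 - η) * L ≤ Real.log (y + 1) := by
    have : (H : ℝ) ^ (1 - η) ≤ y + 1 := (Nat.lt_floor_add_one _).le
    calc (1 - η) * L = Real.log ((H : ℝ) ^ (1 - η)) := (Real.log_rpow hH0 _).symm
      _ ≤ _ := Real.log_le_log (by positivity) this
  have hYle : (Y : ℝ) ≤ (H : ℝ) ^ (1 + η) := Nat.floor_le (by positivity)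
  have hY1r : (1 : ℝ) ≤ (H : ℝ) ^ (1 + η) := Real.one_le_rpow (by linarith) (by linarith)
  have hY1 : 1 ≤ Y := Nat.le_floor (by exact_mod_cast hY1r)
  have g6 : Real.log Y ≤ (1 + η) * L := by
    have h3 := Real.log_le_log (by exact_mod_cast hY1) hYle
    rwa [Real.log_rpow hH0] at h3
  have hcast : ∀ n : ℕ, (((M + n : ℕ) : ℤ) : ℝ) = ((M + n : ℕ) : ℝ) := fun n => by push_cast; ring
  have g7 : ∀ n ∈ Icc 1 N, ∀ j : Fin 1, |ev (a ((fun _ => 0 : Fin 1 → Fin 1) j)) (Gi M n j)| ≤ Y := by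
    intro n hn j
    rw [mem_Icc] at hn
    apply val_bd A H Y η hH1 hη0 hL1 (hη5 η le_rfl) hY ha
    unfold Gi
    rw [hcast, abs_of_nonneg (Nat.cast_nonneg _)]
    refine le_trans ?_ hMN
    exact_mod_cast Nat.add_le_add_left hn.2 M
  have g1 : ¬ BadG (fun _ : Fin 1 => (0 : Fin 1)) (Icc 1 N) (Gi M) y Y a := by
    rintro ⟨n, hn, j, hj⟩
    rw [mem_Icc] at hn
    exact hbad ⟨M + n, mem_Icc.2 ⟨by omega, by omega⟩, j, hj⟩
  obtain ⟨t1, t2⟩ := transferG (fun _ : Fin 1 => (0 : Fin 1)) (Icc 1 N) (Gi M) a y Y L η hL0.le (by linarith) g5 g6 g7 g1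
  have hMG0 := MG_nonneg w (fun _ : Fin 1 => (0 : Fin 1)) (Icc 1 N) (Gi M) a
  have hθ : 3 / LL ^ (B + 4) = 3 * η := by rw [hη]; ring
  rw [hθ] at hdev
  have g8 := transferG2 1 L η (∑ n ∈ Icc 1 N, QL (fun _ => 0) (Gi M n) a)
    (piG (fun _ : Fin 1 => (0 : Fin 1)) (Icc 1 N) (Gi M) a) (MG w (fun _ => 0) (Icc 1 N) (Gi M) a) N (3 * η) hL0 hη0.le
    (by norm_num; linarith) (Nat.cast_nonneg _) t1 t2 hMG0 hx0.le (by positivity) (by linarith) hdev
  rw [piG_piI, pow_one] at g8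
  set Mv := MG w (fun _ : Fin 1 => (0 : Fin 1)) (Icc 1 N) (Gi M) a with hMv
  set P : ℝ := L * (piI (a 0) M N : ℝ) with hP
  set Cc := C1 w (a 0) with hCc
  have hdeg : ∀ j : Fin 1, ((fun _ : Fin 1 => (Polynomial.X + Polynomial.C (M : ℤ) : Polynomial ℤ)) j).natDegree ≤ 1 := by
    intro j
    simp only [Polynomial.natDegree_X_add_C]
    exact le_rfl
  have hom' : ∀ p ≤ w, p.Prime → omC (fun _ : Fin 1 => (0 : Fin 1)) (fun _ => Polynomial.X + Polynomial.C (M : ℤ)) a p < p := by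
    intro p hp hpp
    rw [omC_shift]
    exact hom p hp hpp
  have hev := h3 N hNx w hw (hw2.trans (pow_le_pow_left₀ hLL0.le hlogx E)) 1 (fun _ => 0)
    (fun _ => Polynomial.X + Polynomial.C (M : ℤ)) a hdeg hom'
  rw [CwC_shift, Gp_Gi, ← hMv, ← hCc] at hev
  have hlow1 : 1 ≤ Cc * LL ^ 2 := by
    have p1 := hlow 1 w (fun _ => 0) (fun _ => Polynomial.X + Polynomial.C (M : ℤ)) a hdeg hom'
    rw [CwC_shift, ← hCc] at p1
    have p2 : 1 ≤ (Vz w) ^ (2 * (1 * (d * 1))) * LL := by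
      have p3 : (Vz w) ^ (2 * (1 * (d * 1))) * ((Vz w)⁻¹) ^ (2 * (1 * (d * 1))) = 1 := by
        rw [← mul_pow, mul_inv_cancel₀ (Vz_pos w).ne', one_pow]
      rw [← p3]
      exact mul_le_mul_of_nonneg_left hV5 (pow_nonneg (Vz_pos w).le _)
    have p4 : 1 ≤ c * LL := by
      rw [div_le_iff₀ hc] at hLLc
      linarith
    calc (1 : ℝ) = 1 * 1 := by norm_num
      _ ≤ (c * LL) * ((Vz w) ^ (2 * (1 * (d * 1))) * LL) := mul_le_mul p4 p2 (by norm_num) (by positivity)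
      _ = (c * (Vz w) ^ (2 * (1 * (d * 1)))) * LL ^ 2 := by ring
      _ ≤ Cc * LL ^ 2 := mul_le_mul_of_nonneg_right p1 (by positivity)
  have hCc0 : 0 ≤ Cc := by
    have := (CwC_bd w (fun _ : Fin 1 => (0 : Fin 1)) (fun _ => Polynomial.X + Polynomial.C (M : ℤ)) a).1
    rwa [CwC_shift] at this
  have hev2 : |Mv - Cc * N| ≤ N / LL ^ (B + 4) := by
    refine hev.trans ?_
    have q1 : (N : ℝ) / Real.log N ^ (B + 5) ≤ N / LL ^ (B + 5) :=
      div_le_div_of_nonneg_left hx0.le (by positivity) (pow_le_pow_left₀ hLL0.le hlogx _)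
    calc ((Vz w)⁻¹) ^ 1 * (N / Real.log N ^ (B + 5)) ≤ LL * (N / LL ^ (B + 5)) :=
          mul_le_mul hV4 q1 (by have : 0 ≤ Real.log (N : ℝ) := by linarith
                                positivity) hLL0.le
      _ = N / LL ^ (B + 4) := by
          rw [pow_succ LL (B + 4)]
          field_simp
  have hLLp : 0 < LL ^ (B + 3) := by positivity
  have hLLp4 : LL ^ (B + 4) = LL ^ (B + 3) * LL := pow_succ _ _
  have hNle : (N : ℝ) / LL ^ (B + 4) ≤ N / LL ^ (B + 3) := by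
    apply div_le_div_of_nonneg_left hx0.le hLLp
    rw [hLLp4]
    nlinarith
  have hN1 : (N : ℝ) / LL ^ (B + 3) ≤ N := div_le_self hx0.le (one_le_pow₀ hLL1)
  have hM2 : Mv ≤ Cc * N + N := by
    have q1 := (abs_le.1 hev2).2
    linarith
  have g9 : (2 ^ (1 + 1) * η + 3 * η) * (Mv + N) ≤ (Cc * N + 2 * N) / LL ^ (B + 3) := by
    have e1 : (2 : ℝ) ^ (1 + 1) * η + 3 * η = 7 * η := by ring
    have e2 : 7 * η ≤ 1 / LL ^ (B + 3) := by
      rw [hη, hLLp4, mul_one_div, div_le_div_iff₀ (by positivity) hLLp]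
      nlinarith
    rw [e1]
    calc 7 * η * (Mv + N) ≤ 1 / LL ^ (B + 3) * (Cc * N + 2 * N) := by
          apply mul_le_mul e2 (by linarith) (by linarith) (by positivity)
      _ = _ := by ring
  have q3 : |P - Cc * N| ≤ (Cc * N + 3 * N) / LL ^ (B + 3) := by
    have q4 : |P - Cc * N| ≤ |P - Mv| + |Mv - Cc * N| := abs_sub_le _ _ _
    have q6 : (Cc * N + 3 * N) / LL ^ (B + 3) = (Cc * N + 2 * N) / LL ^ (B + 3) + N / LL ^ (B + 3) := by
      rw [← add_div]; congr 1; ring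
    rw [q6]
    exact q4.trans (add_le_add (g8.trans g9) (hev2.trans hNle))
  refine q3.trans ?_
  have hCx : 0 ≤ Cc * N := by positivity
  have hxC : (N : ℝ) ≤ Cc * N * LL ^ 2 := by
    calc (N : ℝ) = 1 * N := (one_mul _).symm
      _ ≤ (Cc * LL ^ 2) * N := mul_le_mul_of_nonneg_right hlow1 hx0.le
      _ = _ := by ring
  have q8 : Cc * N + 3 * N ≤ Cc * N * LL ^ 3 := by
    have r1 : 1 ≤ LL ^ 2 := one_le_pow₀ hLL1
    have r2 : Cc * N + 3 * N ≤ Cc * N * LL ^ 2 + 3 * (Cc * N * LL ^ 2) := by nlinarith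
    have r3 : Cc * N * LL ^ 2 * 4 ≤ Cc * N * LL ^ 2 * LL := mul_le_mul_of_nonneg_left (by linarith) (by positivity)
    have r4 : Cc * N * LL ^ 2 * LL = Cc * N * LL ^ 3 := by ring
    linarith
  rw [div_le_div_iff₀ hLLp (by positivity)]
  calc (Cc * N + 3 * N) * LL ^ B ≤ Cc * N * LL ^ 3 * LL ^ B := mul_le_mul_of_nonneg_right q8 (by positivity)
    _ = Cc * N * LL ^ (B + 3) := by rw [pow_add]; ring

end Pool.Agent.TP975.RP
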