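import Mathlib
import Pool.Agent.TP975.RP.Sj2
import Pool.Agent.TP975.RP.Gn9

/-!
Prime values in all short intervals: covering.
-/

set_option autoImplicit false

namespace Pool.Agent.TP975.RP

open Finset
open Pool.Agent.H373R2.T7

lemma piI_mono {d : ℕ} (f : Fin (d + 1) → ℤ) {M N M' N' : ℕ} (h1 : M' ≤ M) (h2 : M + N ≤ M' + N') :
    piI f M N ≤ piI f M' N' := by
  unfold piI
  apply card_le_card_of_injOn (fun n => n + (M - M'))
  · intro n hn
    rw [mem_coe, mem_filter, mem_Icc] at hn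
    rw [mem_coe, mem_filter, mem_Icc]
    have e : M' + (n + (M - M')) = M + n := by omega
    refine ⟨show 1 ≤ n + (M - M') ∧ n + (M - M') ≤ N' by omega, ?_⟩
    show (ev f ((M' + (n + (M - M')) : ℕ) : ℤ)).natAbs.Prime
    rw [e]
    exact hn.2
  · intro n _ n' _ h
    simp only at h
    omega

/-- intervals are close to unions of blocks -/
lemma cover (M N D : ℕ) (hD : 1 ≤ D) (h8 : 8 * D ≤ N) : ∃ i q i' q' : ℕ,
    M ≤ i * D ∧ i * D + q * D ≤ M + N ∧ N ≤ q * D + 2 * D ∧ 1 ≤ q ∧ q * D ≤ N ∧ i ≤ (M + N) / D + 1 ∧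
    i' * D ≤ M ∧ M + N ≤ i' * D + q' * D ∧ q' * D ≤ N + 2 * D ∧ 1 ≤ q' ∧ i' ≤ (M + N) / D + 1 ∧
    i' * D + q' * D ≤ M + N + D := by
  have e1 := Nat.div_add_mod M D
  have e2 := Nat.mod_lt M hD
  have e3 := Nat.div_add_mod (M + N) D
  have e4 := Nat.mod_lt (M + N) hD
  have e5 : M / D ≤ (M + N) / D := Nat.div_le_div_right (by omega)
  set x := M / D with hx
  set y := (M + N) / D with hy
  have hlt : x + 1 < y := by
    by_contra hc
    push Not at hc
    have : D * y ≤ D * (x + 1) := Nat.mul_le_mul_left D hc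
    have e6 : D * (x + 1) = D * x + D := by ring
    omega
  refine ⟨x + 1, y - (x + 1), x, y + 1 - x, ?_, ?_, ?_, ?_, ?_, ?_, ?_, ?_, ?_, ?_, ?_, ?_⟩
  · have e6 : (x + 1) * D = D * x + D := by ring
    omega
  · rw [← Nat.add_mul, show x + 1 + (y - (x + 1)) = y by omega, mul_comm]
    omega
  · have e6 : (y - (x + 1)) * D + (x + 1) * D = y * D := by
      rw [← Nat.add_mul]; congr 1; omega
    have e7 : (x + 1) * D = D * x + D := by ring
    have e8 : y * D = D * y := by ring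
    omega
  · omega
  · have e6 : (y - (x + 1)) * D + (x + 1) * D = y * D := by
      rw [← Nat.add_mul]; congr 1; omega
    have e7 : (x + 1) * D = D * x + D := by ring
    have e8 : y * D = D * y := by ring
    omega
  · omega
  · have : x * D = D * x := by ring
    omega
  · rw [← Nat.add_mul, show x + (y + 1 - x) = y + 1 by omega]
    have e7 : (y + 1) * D = D * y + D := by ring
    omega
  · have e6 : (y + 1 - x) * D + x * D = (y + 1) * D := by
      rw [← Nat.add_mul]; congr 1; omega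
    have e7 : (y + 1) * D = D * y + D := by ring
    have e8 : x * D = D * x := by ring
    omega
  · omega
  · omega
  · rw [← Nat.add_mul, show x + (y + 1 - x) = y + 1 by omega]
    have e7 : (y + 1) * D = D * y + D := by ring
    omega

/-- from blocks to all intervals -/
lemma sandwich {d : ℕ} (f : Fin (d + 1) → ℤ) (M N D : ℕ) (L C θ : ℝ) (hL : 0 < L) (hC : 0 ≤ C) (hθ0 : 0 < θ)
    (hθ : θ ≤ 1) (M1 N1 M2 N2 : ℕ) (h1 : M ≤ M1) (h2 : M1 + N1 ≤ M + N) (h3 : N ≤ N1 + 2 * D) (h3' : N1 ≤ N)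
    (h4 : M2 ≤ M) (h5 : M + N ≤ M2 + N2) (h6 : N2 ≤ N + 2 * D) (hD : 8 * (D : ℝ) ≤ θ * N)
    (hg1 : |L * piI f M1 N1 - C * N1| ≤ C * N1 * (θ / 4)) (hg2 : |L * piI f M2 N2 - C * N2| ≤ C * N2 * (θ / 4)) :
    |L * piI f M N - C * N| ≤ C * N * θ := by
  have p1 : (piI f M1 N1 : ℝ) ≤ piI f M N := by exact_mod_cast piI_mono f h1 h2
  have p2 : (piI f M N : ℝ) ≤ piI f M2 N2 := by exact_mod_cast piI_mono f h4 h5
  have q1 : (N : ℝ) ≤ N1 + 2 * D := by exact_mod_cast h3
  have q2 : (N2 : ℝ) ≤ N + 2 * D := by exact_mod_cast h6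
  have q3 : (N1 : ℝ) ≤ N := by exact_mod_cast h3'
  have hN0 : (0 : ℝ) ≤ N := Nat.cast_nonneg _
  have r1 := (abs_le.1 hg1).1
  have r2 := (abs_le.1 hg2).2
  have s1 : L * (piI f M1 N1 : ℝ) ≤ L * piI f M N := mul_le_mul_of_nonneg_left p1 hL.le
  have s2 : L * (piI f M N : ℝ) ≤ L * piI f M2 N2 := mul_le_mul_of_nonneg_left p2 hL.le
  have hCN : 0 ≤ C * N := by positivity
  have hθN : 0 ≤ θ * (C * N) := by positivity
  rw [abs_le]
  constructor
  · have t1 : C * N1 * (1 - θ / 4) ≥ C * (N * (1 - θ / 4)) * (1 - θ / 4) := by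
      apply mul_le_mul_of_nonneg_right _ (by linarith)
      apply mul_le_mul_of_nonneg_left _ hC
      linarith
    have t2 : C * (N * (1 - θ / 4)) * (1 - θ / 4) ≥ C * N * (1 - θ) := by
      have e : C * (N * (1 - θ / 4)) * (1 - θ / 4) = C * N * (1 - θ / 2 + θ ^ 2 / 16) := by ring
      rw [e]
      apply mul_le_mul_of_nonneg_left _ hCN
      nlinarith
    nlinarith
  · have t1 : C * N2 * (1 + θ / 4) ≤ C * (N * (1 + θ / 4)) * (1 + θ / 4) := by
      apply mul_le_mul_of_nonneg_right _ (by linarith)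
      apply mul_le_mul_of_nonneg_left _ hC
      linarith
    have t2 : C * (N * (1 + θ / 4)) * (1 + θ / 4) ≤ C * N * (1 + θ) := by
      have e : C * (N * (1 + θ / 4)) * (1 + θ / 4) = C * N * (1 + θ / 2 + θ ^ 2 / 16) := by ring
      rw [e]
      apply mul_le_mul_of_nonneg_left _ hCN
      nlinarith
    nlinarith

end Pool.Agent.TP975.RP
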