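import Mathlib
import Pool.Agent.TP975.RP.Sj3

/-!
Prime values in all short intervals: scales.
-/

set_option autoImplicit false

namespace Pool.Agent.TP975.RP

open Finset
open Pool.Agent.H373R2.T7

/-- the number of blocks of a scale -/
noncomputable def xk (d : ℕ) (L ε T : ℝ) (k : ℕ) : ℝ := (16 * T) ^ (d + 1) * ((2 : ℝ) ^ k) ^ d / L ^ ((d : ℝ) + ε)

lemma scale (d A : ℕ) (L ε T : ℝ) (M N : ℕ) (hd : 1 ≤ d) (hL : 1 ≤ L) (hT : 1 ≤ T)
    (hTL : 48 * T ≤ L ^ (ε / d)) (hN : 1 ≤ N) (hA : ((M + N : ℕ) : ℝ) ≤ L ^ A)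
    (hc : ((M + N : ℕ) : ℝ) * L ^ ((d : ℝ) + ε) ≤ (N : ℝ) ^ (d + 1)) : ∃ k : ℕ, 3 * L ≤ 2 ^ k ∧ 8 * T * 2 ^ k ≤ N ∧
    (N : ℝ) < 16 * T * 2 ^ k ∧ (2 : ℝ) ^ k ≤ L ^ A ∧ 1 ≤ xk d L ε T k ∧ ((M + N : ℕ) : ℝ) ≤ xk d L ε T k * 2 ^ k := by
  have hL0 : 0 < L := by linarith
  have hT0 : 0 < T := by linarith
  have hd0 : (0 : ℝ) < d := by exact_mod_cast hd
  have hNr : (1 : ℝ) ≤ N := by exact_mod_cast hN
  have hN0 : (0 : ℝ) < N := by linarith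
  have hNM : (N : ℝ) ≤ ((M + N : ℕ) : ℝ) := by exact_mod_cast Nat.le_add_left N M
  have hLp : 0 < L ^ ((d : ℝ) + ε) := Real.rpow_pos_of_pos hL0 _
  have h1 : L ^ ((d : ℝ) + ε) ≤ (N : ℝ) ^ d := by
    have h2 : (N : ℝ) * L ^ ((d : ℝ) + ε) ≤ N * (N : ℝ) ^ d := by
      calc (N : ℝ) * L ^ ((d : ℝ) + ε) ≤ ((M + N : ℕ) : ℝ) * L ^ ((d : ℝ) + ε) := mul_le_mul_of_nonneg_right hNM hLp.le
        _ ≤ (N : ℝ) ^ (d + 1) := hc
        _ = N * (N : ℝ) ^ d := by rw [pow_succ]; ring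
    exact le_of_mul_le_mul_left h2 hN0
  have h2 : (L * L ^ (ε / d)) ^ d ≤ (N : ℝ) ^ d := by
    refine le_trans (le_of_eq ?_) h1
    rw [mul_pow, ← Real.rpow_natCast (L ^ (ε / d)), ← Real.rpow_mul hL0.le, div_mul_cancel₀ _ hd0.ne',
      ← Real.rpow_natCast L, ← Real.rpow_add hL0]
  have h3 : L * L ^ (ε / d) ≤ N := le_of_pow_le_pow_left₀ (by omega) hN0.le h2
  have h4 : L * (48 * T) ≤ N := (mul_le_mul_of_nonneg_left hTL hL0.le).trans h3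
  have h5 : 1 ≤ (N : ℝ) / (8 * T) := by
    rw [one_le_div (by positivity)]
    nlinarith
  obtain ⟨k, k1, k2⟩ := exists_nat_pow_near h5 (by norm_num : (1 : ℝ) < 2)
  have h2k : (0 : ℝ) < 2 ^ k := by positivity
  have k3 : 8 * T * 2 ^ k ≤ N := by
    rw [le_div_iff₀ (by positivity)] at k1
    linarith
  have k4 : (N : ℝ) < 16 * T * 2 ^ k := by
    rw [div_lt_iff₀ (by positivity), pow_succ] at k2
    linarith
  have k5 : 3 * L ≤ 2 ^ k := by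
    have h6 : L * (48 * T) < 16 * T * 2 ^ k := lt_of_le_of_lt h4 k4
    have h7 : 16 * T * (3 * L) < 16 * T * 2 ^ k := by linarith
    exact (lt_of_mul_lt_mul_left h7 (by positivity)).le
  have k6 : (2 : ℝ) ^ k ≤ N := by nlinarith
  have k7 : ((M + N : ℕ) : ℝ) ≤ xk d L ε T k * 2 ^ k := by
    unfold xk
    rw [div_mul_eq_mul_div, le_div_iff₀ hLp]
    refine hc.trans ?_
    calc (N : ℝ) ^ (d + 1) ≤ (16 * T * 2 ^ k) ^ (d + 1) := pow_le_pow_left₀ hN0.le k4.le _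
      _ = (16 * T) ^ (d + 1) * ((2 : ℝ) ^ k) ^ d * 2 ^ k := by rw [mul_pow, pow_succ ((2 : ℝ) ^ k) d]; ring
  refine ⟨k, k5, k3, k4, k6.trans (hNM.trans hA), ?_, k7⟩
  have h8 : 1 * 2 ^ k ≤ xk d L ε T k * 2 ^ k := by
    rw [one_mul]
    exact k6.trans (hNM.trans k7)
  exact le_of_mul_le_mul_right h8 h2k

/-- the numerical bound for the union -/
lemma ub (d A F B : ℕ) (L ε LL : ℝ) (hL1 : 1 ≤ L) (hε : 0 < ε) (hLL : 16 ≤ LL) (k : ℕ) (hk : (2 : ℝ) ^ k ≤ L ^ A)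
    (h1 : 1 ≤ xk d L ε (LL ^ (B + 1)) k)
    (hbig : LL ^ (F + (B + 2) * (d + 1) + 2 * B + 6) ≤ L ^ (min ε 1)) :
    ((⌊2 * xk d L ε (LL ^ (B + 1)) k⌋₊ + 1 : ℕ) : ℝ) * ((⌊18 * LL ^ (B + 1)⌋₊ : ℝ) *
      (LL ^ F * (L / 2 ^ k) ^ d + 2 / L ^ (A * d + 1))) ≤ 1 / (4 * LL ^ (B + 2)) := by
  have hL0 : 0 < L := by linarith
  have hLL0 : 0 < LL := by linarith
  have hLL1 : 1 ≤ LL := by linarith
  set T := LL ^ (B + 1) with hT
  have hT1 : 1 ≤ T := one_le_pow₀ hLL1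
  set x := xk d L ε T k with hx
  have h2k : (0 : ℝ) < 2 ^ k := by positivity
  set R := (16 * T) ^ (d + 1) with hR
  have hR0 : 0 < R := by positivity
  have hLp : 0 < L ^ ((d : ℝ) + ε) := Real.rpow_pos_of_pos hL0 _
  have hLε : 0 < L ^ ε := Real.rpow_pos_of_pos hL0 _
  have hLm : 0 < L ^ (min ε 1) := Real.rpow_pos_of_pos hL0 _
  have hLde : L ^ ((d : ℝ) + ε) = L ^ d * L ^ ε := by rw [Real.rpow_add hL0, Real.rpow_natCast]
  have e1 : ((⌊2 * x⌋₊ + 1 : ℕ) : ℝ) ≤ 3 * x := by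
    push_cast
    have := Nat.floor_le (show 0 ≤ 2 * x by linarith)
    linarith
  have e2 : (⌊18 * T⌋₊ : ℝ) ≤ 18 * T := Nat.floor_le (by positivity)
  have e3 : x * (L / 2 ^ k) ^ d = R / L ^ ε := by
    rw [hx]
    unfold xk
    rw [← hR, hLde, div_pow]
    field_simp
  have e4 : x * (2 / L ^ (A * d + 1)) ≤ 2 * R / L := by
    have p1 : x ≤ R * L ^ (A * d) := by
      rw [hx]
      unfold xk
      rw [← hR, div_le_iff₀ hLp]
      have p2 : ((2 : ℝ) ^ k) ^ d ≤ L ^ (A * d) := by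
        rw [pow_mul]
        exact pow_le_pow_left₀ h2k.le hk d
      have p3 : 1 ≤ L ^ ((d : ℝ) + ε) := Real.one_le_rpow hL1 (by positivity)
      calc R * ((2 : ℝ) ^ k) ^ d ≤ R * L ^ (A * d) := mul_le_mul_of_nonneg_left p2 hR0.le
        _ ≤ R * L ^ (A * d) * L ^ ((d : ℝ) + ε) := le_mul_of_one_le_right (by positivity) p3
    calc x * (2 / L ^ (A * d + 1)) ≤ R * L ^ (A * d) * (2 / L ^ (A * d + 1)) := mul_le_mul_of_nonneg_right p1 (by positivity)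
      _ = 2 * R / L := by rw [pow_succ]; field_simp
  have e5 : LL ^ F / L ^ ε ≤ LL ^ F / L ^ (min ε 1) := by
    apply div_le_div_of_nonneg_left (by positivity) hLm
    exact Real.rpow_le_rpow_of_exponent_le hL1 (min_le_left _ _)
  have e6 : 2 / L ≤ 2 * (LL ^ F / L ^ (min ε 1)) := by
    have p1 : 1 / L ≤ LL ^ F / L ^ (min ε 1) := by
      apply div_le_div₀ (by positivity) (one_le_pow₀ hLL1) hLm
      calc L ^ (min ε 1) ≤ L ^ (1 : ℝ) := Real.rpow_le_rpow_of_exponent_le hL1 (min_le_right _ _)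
        _ = L := Real.rpow_one L
    have p2 : 2 / L = 2 * (1 / L) := by ring
    linarith
  have hsum : x * (LL ^ F * (L / 2 ^ k) ^ d + 2 / L ^ (A * d + 1)) ≤ R * (3 * (LL ^ F / L ^ (min ε 1))) := by
    calc x * (LL ^ F * (L / 2 ^ k) ^ d + 2 / L ^ (A * d + 1)) =
          LL ^ F * (x * (L / 2 ^ k) ^ d) + x * (2 / L ^ (A * d + 1)) := by ring
      _ ≤ LL ^ F * (R / L ^ ε) + 2 * R / L := by
          rw [e3]
          linarith
      _ = R * (LL ^ F / L ^ ε + 2 / L) := by ring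
      _ ≤ R * (3 * (LL ^ F / L ^ (min ε 1))) := by
          apply mul_le_mul_of_nonneg_left _ hR0.le
          linarith
  have h0 : 0 ≤ LL ^ F * (L / 2 ^ k) ^ d + 2 / L ^ (A * d + 1) := by positivity
  have hfin : ((⌊2 * x⌋₊ + 1 : ℕ) : ℝ) * ((⌊18 * T⌋₊ : ℝ) * (LL ^ F * (L / 2 ^ k) ^ d + 2 / L ^ (A * d + 1))) ≤
      162 * T * R * (LL ^ F / L ^ (min ε 1)) := by
    calc ((⌊2 * x⌋₊ + 1 : ℕ) : ℝ) * ((⌊18 * T⌋₊ : ℝ) * (LL ^ F * (L / 2 ^ k) ^ d + 2 / L ^ (A * d + 1))) ≤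
          (3 * x) * ((18 * T) * (LL ^ F * (L / 2 ^ k) ^ d + 2 / L ^ (A * d + 1))) := by
          apply mul_le_mul e1 (mul_le_mul_of_nonneg_right e2 h0) (by positivity) (by linarith)
      _ = 54 * T * (x * (LL ^ F * (L / 2 ^ k) ^ d + 2 / L ^ (A * d + 1))) := by ring
      _ ≤ 54 * T * (R * (3 * (LL ^ F / L ^ (min ε 1)))) := mul_le_mul_of_nonneg_left hsum (by positivity)
      _ = _ := by ring
  refine hfin.trans ?_
  have hRle : R ≤ LL ^ ((B + 2) * (d + 1)) := by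
    rw [hR, pow_mul]
    apply pow_le_pow_left₀ (by positivity)
    rw [pow_succ LL (B + 1), mul_comm (LL ^ (B + 1)) LL, ← hT]
    exact mul_le_mul_of_nonneg_right hLL (by positivity)
  have h648 : (648 : ℝ) ≤ LL ^ 3 := by
    calc (648 : ℝ) ≤ 16 ^ 3 := by norm_num
      _ ≤ LL ^ 3 := pow_le_pow_left₀ (by norm_num) hLL 3
  rw [mul_div_assoc', div_le_div_iff₀ hLm (by positivity), one_mul]
  calc 162 * T * R * LL ^ F * (4 * LL ^ (B + 2)) = 648 * (T * R * LL ^ F * LL ^ (B + 2)) := by ring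
    _ ≤ LL ^ 3 * (LL ^ (B + 1) * LL ^ ((B + 2) * (d + 1)) * LL ^ F * LL ^ (B + 2)) := by
        apply mul_le_mul h648 _ (by positivity) (by positivity)
        apply mul_le_mul_of_nonneg_right _ (by positivity)
        apply mul_le_mul_of_nonneg_right _ (by positivity)
        exact mul_le_mul_of_nonneg_left hRle (by positivity)
    _ = LL ^ (F + (B + 2) * (d + 1) + 2 * B + 6) := by
        rw [← pow_add, ← pow_add, ← pow_add, ← pow_add]; congr 1; ring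
    _ ≤ _ := hbig

end Pool.Agent.TP975.RP
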