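import Mathlib
import Pool.Agent.TP975.RP.Sj4

/-!
Prime values in all short intervals: the theorem.
-/

set_option autoImplicit false

namespace Pool.Agent.TP975.RP

open Finset
open Pool.Agent.H373R2.T7

open Classical in
/-- the exceptional polynomials of a block -/
noncomputable def Bk (d H w z X B : ℕ) (M N : ℕ) : Finset (Fin 1 → Fin (d + 1) → ℤ) :=
  (Bx 1 d H).filter (fun a => M + N ≤ X ∧ Ncp w z (a 0) ∧ 3 / Real.log (Real.log H) ^ B * N <
      |∑ n ∈ Icc 1 N, QL (fun _ => 0) (Gi M n) a - MG w (fun _ => 0) (Icc 1 N) (Gi M) a|)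

open Classical in
theorem all_int (d A B : ℕ) (hd : 2 ≤ d) (ε : ℝ) (hε : 0 < ε) : ∃ E1 : ℕ, ∀ E2 : ℕ, ∃ H0 : ℕ, ∀ H : ℕ, H0 ≤ H →
    ∀ w : ℕ, Real.log (Real.log H) ^ E1 ≤ w → (w : ℝ) ≤ Real.log (Real.log H) ^ E2 →
    ((((Bx 1 d H).filter (fun a => (∀ p ≤ w, p.Prime → om1 (a 0) p < p) ∧ ∃ M N : ℕ,
      ((M + N : ℕ) : ℝ) ≤ Real.log H ^ A ∧ ((M + N : ℕ) : ℝ) * Real.log H ^ ((d : ℝ) + ε) ≤ (N : ℝ) ^ (d + 1) ∧
      C1 w (a 0) * N * (1 / Real.log (Real.log H) ^ B) < |Real.log H * piI (a 0) M N - C1 w (a 0) * N|)).card : ℕ) : ℝ) ≤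
      (Bx 1 d H).card / Real.log (Real.log H) ^ B := by
  obtain ⟨F, c, H1, h1⟩ := blk d (A + 1) (A * d + 1) (B + 5) hd
  refine ⟨2 * (B + 5) + 14, fun E2 => ?_⟩
  obtain ⟨H2, h2⟩ := good_block d (A + 1) (B + 1) E2
  obtain ⟨H3, h3⟩ := pow_small (F + (B + 2) * (d + 1) + 2 * B + 6) (min ε 1) (by positivity)
  obtain ⟨H4, h4⟩ := pow_small (B + 2) (ε / d) (by positivity)
  obtain ⟨H5, h5⟩ := ll_ev (max 48 (2 * A))
  obtain ⟨H6, h6⟩ := pow_small (B + 1) 1 (by norm_num)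
  obtain ⟨H7, h7⟩ := pow_small E2 (1 / 4) (by norm_num)
  obtain ⟨H8, h8⟩ := Heta (A + 3) (B + 5) 76
  obtain ⟨H9, h9⟩ := Filter.eventually_atTop.1 (ev_log 16)
  refine ⟨max (max (max H1 H2) (max H3 H4)) (max (max H5 H6) (max (max H7 H8) (max H9 3))), fun H hH w hw1 hw2 => ?_⟩
  have b0 := le_trans (le_max_left _ _) hH
  have b0' := le_trans (le_max_right _ _) hH
  have c0 := le_trans (le_max_left _ _) b0'
  have c0' := le_trans (le_max_right _ _) b0'
  have a1 := h1 H (le_trans (le_trans (le_max_left _ _) (le_max_left _ _)) b0)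
  have a2 := h2 H (le_trans (le_trans (le_max_right _ _) (le_max_left _ _)) b0)
  have a3 := h3 H (le_trans (le_trans (le_max_left _ _) (le_max_right _ _)) b0)
  have a4 := h4 H (le_trans (le_trans (le_max_right _ _) (le_max_right _ _)) b0)
  have a5 := h5 H (le_trans (le_max_left _ _) c0)
  have a6 := h6 H (le_trans (le_max_right _ _) c0)
  have a7 := h7 H (le_trans (le_trans (le_max_left _ _) (le_max_left _ _)) c0')
  have a8 := h8 H (le_trans (le_trans (le_max_right _ _) (le_max_left _ _)) c0')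
  have a9 := h9 H (le_trans (le_trans (le_max_left _ _) (le_max_right _ _)) c0')
  have hH3 : 3 ≤ H := le_trans (le_trans (le_max_right _ _) (le_max_right _ _)) c0'
  set L := Real.log H with hL
  set LL := Real.log L with hLL
  have hLL48 : 48 ≤ LL := (le_max_left _ _).trans a5
  have hLLA : 2 * (A : ℝ) ≤ LL := (le_max_right _ _).trans a5
  have hLL0 : 0 < LL := by linarith
  have hLL1 : 1 ≤ LL := by linarith
  have hL0 : 0 < L := by linarith
  have hL1 : 1 ≤ L := by linarith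
  have hd0 : (0 : ℝ) < d := by
    have : 0 < d := by omega
    exact_mod_cast this
  obtain ⟨z, hzc, hzH, hblk⟩ := a1
  -- the range of `w`
  have hwsq : w ≤ ⌊√L⌋₊ := by
    apply Nat.le_floor
    refine hw2.trans (a7.trans ?_)
    rw [Real.sqrt_eq_rpow]
    exact Real.rpow_le_rpow_of_exponent_le hL1 (by norm_num)
  obtain ⟨hwz, hblk⟩ := hblk w hw1 hwsq
  have hwr1 : (1 : ℝ) ≤ w := (one_le_pow₀ hLL1).trans hw1
  have hw1' : 1 ≤ w := by exact_mod_cast hwr1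
  have hw0 : (0 : ℝ) < w := by linarith
  set Bc : ℝ := ((Bx 1 d H).card : ℝ) with hBc
  have hBc0 : 0 ≤ Bc := Nat.cast_nonneg _
  set T := LL ^ (B + 1) with hT
  have hT1 : 1 ≤ T := one_le_pow₀ hLL1
  set X : ℕ := ⌊L ^ (A + 1)⌋₊ with hX
  set η : ℝ := 1 / LL ^ (B + 5) with hη
  have hη0 : 0 < η := by positivity
  have hLLB : 0 < LL ^ B := by positivity
  have hη4 : η ≤ 1 / 4 := by
    rw [hη]
    apply one_div_le_one_div_of_le (by norm_num)
    calc (4 : ℝ) ≤ LL ^ 1 := by rw [pow_one]; linarith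
      _ ≤ LL ^ (B + 5) := pow_le_pow_right₀ hLL1 (by omega)
  set y := ⌊(H : ℝ) ^ (1 - η)⌋₊ with hy
  set Y := ⌊(H : ℝ) ^ (1 + η)⌋₊ with hY
  set xx : ℕ → ℝ := fun k => xk d L ε T k with hxx
  set Ks : Finset ℕ := (range (⌊LL ^ 2⌋₊ + 1)).filter (fun k => 3 * L ≤ (2 : ℝ) ^ k ∧ 1 ≤ xx k ∧ (2 : ℝ) ^ k ≤ L ^ A) with hKs
  set S1 := (Bx 1 d H).filter (fun a => ¬ Ncp w z (a 0)) with hS1
  set S2 := (Bx 1 d H).filter (fun a => Bg X y Y a) with hS2
  set S3 := Ks.biUnion (fun k => (range (⌊2 * xx k⌋₊ + 1)).biUnion (fun i => (Icc 1 ⌊18 * T⌋₊).biUnion (fun q =>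
    Bk d H w z X (B + 5) (i * 2 ^ k) (q * 2 ^ k)))) with hS3
  have hsub : (Bx 1 d H).filter (fun a => (∀ p ≤ w, p.Prime → om1 (a 0) p < p) ∧ ∃ M N : ℕ,
      ((M + N : ℕ) : ℝ) ≤ L ^ A ∧ ((M + N : ℕ) : ℝ) * L ^ ((d : ℝ) + ε) ≤ (N : ℝ) ^ (d + 1) ∧
      C1 w (a 0) * N * (1 / LL ^ B) < |L * piI (a 0) M N - C1 w (a 0) * N|) ⊆ (S1 ∪ S2) ∪ S3 := by
    intro a ha
    rw [mem_filter] at ha
    obtain ⟨haB, hom, M, N, hMN, hcond, hgt⟩ := ha
    rw [mem_union, mem_union]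
    by_contra hcon
    push Not at hcon
    obtain ⟨⟨n1, n2⟩, n3⟩ := hcon
    have g1 : Ncp w z (a 0) := by
      by_contra hc
      exact n1 (mem_filter.2 ⟨haB, hc⟩)
    have g2 : ¬ Bg X y Y a := fun hc => n2 (mem_filter.2 ⟨haB, hc⟩)
    have hN : 1 ≤ N := by
      rcases Nat.eq_zero_or_pos N with h0 | h0
      · exfalso
        rw [h0] at hgt
        have : piI (a 0) M 0 = 0 := by
          unfold piI
          simp
        rw [this] at hgt
        simp at hgt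
      · exact h0
    have hTL : 48 * T ≤ L ^ (ε / d) := by
      refine le_trans ?_ a4
      rw [pow_succ LL (B + 1), mul_comm (LL ^ (B + 1)) LL, ← hT]
      exact mul_le_mul_of_nonneg_right hLL48 (by positivity)
    obtain ⟨k, k1, k2, k3, k4, k5, k6⟩ := scale d A L ε T M N (by omega) hL1 hT1 hTL hN hMN hcond
    have h2k : (0 : ℝ) < 2 ^ k := by positivity
    have hD1 : 1 ≤ 2 ^ k := Nat.one_le_two_pow
    have h8D : 8 * 2 ^ k ≤ N := by
      have : ((8 * 2 ^ k : ℕ) : ℝ) ≤ N := by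
        push_cast
        nlinarith
      exact_mod_cast this
    have hkK : k ∈ Ks := by
      rw [hKs, mem_filter, mem_range]
      refine ⟨?_, k1, k5, k4⟩
      apply Nat.lt_succ_of_le
      apply Nat.le_floor
      have q1 := Real.log_le_log h2k k4
      rw [Real.log_pow, Real.log_pow, ← hLL] at q1
      have q2 := Real.log_two_gt_d9
      have hk0 : (0 : ℝ) ≤ k := Nat.cast_nonneg _
      have q3 : (k : ℝ) * (1 / 2) ≤ k * Real.log 2 := mul_le_mul_of_nonneg_left (by linarith) hk0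
      have q4 : (A : ℝ) * LL ≤ LL / 2 * LL := mul_le_mul_of_nonneg_right (by linarith) hLL0.le
      nlinarith
    obtain ⟨i, q, i', q', e1, e2, e3, e4, e5, e6, e7, e8, e9, e10, e11, e12⟩ := cover M N (2 ^ k) hD1 h8D
    have hdivb : (((M + N) / 2 ^ k : ℕ) : ℝ) ≤ xx k := by
      refine le_trans Nat.cast_div_le ?_
      rw [div_le_iff₀ (by positivity)]
      push_cast
      exact_mod_cast k6
    have hidx : ∀ j : ℕ, j ≤ (M + N) / 2 ^ k + 1 → j ∈ range (⌊2 * xx k⌋₊ + 1) := by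
      intro j hj
      rw [mem_range]
      apply Nat.lt_succ_of_le
      apply Nat.le_floor
      have q1 : (j : ℝ) ≤ (((M + N) / 2 ^ k : ℕ) : ℝ) + 1 := by exact_mod_cast hj
      linarith
    have hqdx : ∀ j : ℕ, 1 ≤ j → j * 2 ^ k ≤ N + 2 * 2 ^ k → j ∈ Icc 1 ⌊18 * T⌋₊ := by
      intro j hj1 hj
      rw [mem_Icc]
      refine ⟨hj1, Nat.le_floor ?_⟩
      have q1 : (j : ℝ) * 2 ^ k ≤ N + 2 * 2 ^ k := by exact_mod_cast hj
      have q2 : (j : ℝ) * 2 ^ k ≤ (18 * T) * 2 ^ k := by nlinarith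
      exact le_of_mul_le_mul_right q2 h2k
    have hnotin : ∀ i₀ q₀ : ℕ, i₀ ≤ (M + N) / 2 ^ k + 1 → 1 ≤ q₀ → q₀ * 2 ^ k ≤ N + 2 * 2 ^ k →
        a ∉ Bk d H w z X (B + 5) (i₀ * 2 ^ k) (q₀ * 2 ^ k) := by
      intro i₀ q₀ u1 u2 u3 hmem
      apply n3
      rw [hS3, mem_biUnion]
      refine ⟨k, hkK, ?_⟩
      rw [mem_biUnion]
      refine ⟨i₀, hidx i₀ u1, ?_⟩
      rw [mem_biUnion]
      exact ⟨q₀, hqdx q₀ u2 u3, hmem⟩
    have hXb : ∀ Z : ℕ, Z ≤ M + N + 2 ^ k → (Z : ℝ) ≤ L ^ (A + 1) ∧ Z ≤ X := by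
      intro Z hZ
      have q1 : (Z : ℝ) ≤ L ^ (A + 1) := by
        have q2 : (Z : ℝ) ≤ ((M + N : ℕ) : ℝ) + 2 ^ k := by exact_mod_cast hZ
        have q3 : L ^ (A + 1) = L ^ A * L := pow_succ _ _
        have q4 : 0 < L ^ A := by positivity
        nlinarith
      exact ⟨q1, Nat.le_floor q1⟩
    have hgood : ∀ M' N' : ℕ, 2 ^ k ≤ N' → M' + N' ≤ M + N + 2 ^ k → a ∉ Bk d H w z X (B + 5) M' N' →
        |L * piI (a 0) M' N' - C1 w (a 0) * N'| ≤ C1 w (a 0) * N' * ((1 / LL ^ B) / 4) := by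
      intro M' N' v1 v2 v3
      obtain ⟨v4, v5⟩ := hXb _ v2
      have v1r : (2 : ℝ) ^ k ≤ N' := by exact_mod_cast v1
      have v6 : |∑ n ∈ Icc 1 N', QL (fun _ => 0) (Gi M' n) a - MG w (fun _ => 0) (Icc 1 N') (Gi M') a| ≤
          3 / LL ^ (B + 5) * N' := by
        by_contra hc
        apply v3
        unfold Bk
        rw [mem_filter]
        exact ⟨haB, v5, g1, not_le.1 hc⟩
      have v7 := a2 w hw1' hw2 a haB hom M' N' X (by linarith) v4 v5 g2 v6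
      refine v7.trans ?_
      have hC0 : 0 ≤ C1 w (a 0) * N' := by
        have := (CwC_bd w (fun _ : Fin 1 => (0 : Fin 1)) (fun _ => Polynomial.X + Polynomial.C ((0 : ℕ) : ℤ)) a).1
        rw [CwC_shift] at this
        positivity
      rw [div_eq_mul_one_div]
      apply mul_le_mul_of_nonneg_left _ hC0
      have hTs : T = LL ^ B * LL := pow_succ _ _
      rw [div_div, hTs]
      apply one_div_le_one_div_of_le (by positivity)
      exact mul_le_mul_of_nonneg_left (by linarith) hLLB.le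
    have hin := hgood (i * 2 ^ k) (q * 2 ^ k) (by nlinarith) (by omega) (hnotin i q e6 e4 (by omega))
    have hout := hgood (i' * 2 ^ k) (q' * 2 ^ k) (by nlinarith) e12 (hnotin i' q' e11 e10 e9)
    have hC0 : 0 ≤ C1 w (a 0) := by
      have := (CwC_bd w (fun _ : Fin 1 => (0 : Fin 1)) (fun _ => Polynomial.X + Polynomial.C ((0 : ℕ) : ℤ)) a).1
      rwa [CwC_shift] at this
    have hθ1 : 1 / LL ^ B ≤ 1 := by
      rw [div_le_one hLLB]
      exact one_le_pow₀ hLL1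
    have hDθ : 8 * ((2 ^ k : ℕ) : ℝ) ≤ 1 / LL ^ B * N := by
      rw [one_div_mul_eq_div, le_div_iff₀ hLLB]
      push_cast
      have : LL ^ B ≤ T := pow_le_pow_right₀ hLL1 (by omega)
      calc 8 * (2 : ℝ) ^ k * LL ^ B ≤ 8 * 2 ^ k * T := mul_le_mul_of_nonneg_left this (by positivity)
        _ = 8 * T * 2 ^ k := by ring
        _ ≤ N := k2
    have hsw := sandwich (a 0) M N (2 ^ k) L (C1 w (a 0)) (1 / LL ^ B) hL0 hC0 (by positivity) hθ1 (i * 2 ^ k) (q * 2 ^ k)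
      (i' * 2 ^ k) (q' * 2 ^ k) e1 e2 e3 e5 e7 e8 e9 hDθ hin hout
    exact absurd hsw (not_le.2 hgt)
  -- the three exceptional sets
  have hc1 : (S1.card : ℝ) ≤ Bc * (1 / (4 * LL ^ B)) := by
    refine (ncp_card d H w z hd hw1' hzH).trans ?_
    apply mul_le_mul_of_nonneg_left _ hBc0
    rw [div_le_div_iff₀ hw0 (by positivity), one_mul]
    refine le_trans ?_ hw1
    have e : LL ^ (2 * (B + 5) + 14) = LL ^ B * LL ^ (B + 24) := by rw [← pow_add]; congr 1; ring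
    rw [e]
    have : (16 : ℝ) ≤ LL ^ (B + 24) := by
      calc (16 : ℝ) ≤ LL ^ 1 := by rw [pow_one]; linarith
        _ ≤ _ := pow_le_pow_right₀ hLL1 (by omega)
    nlinarith
  have hc2 : (S2.card : ℝ) ≤ Bc * (1 / (4 * LL ^ B)) := by
    have g1 := BadG_card (d := d) H (fun _ : Fin 1 => (0 : Fin 1)) (Icc 1 X) (fun n _ => (n : ℤ)) y Y
    have g2 := beta_le H η hη0 hη4 hH3 hL1
    have hXL : (X : ℝ) ≤ L ^ (A + 1) := Nat.floor_le (by positivity)
    have g3 : ((Icc 1 X).card : ℝ) * ((1 : ℕ) : ℝ) * (((badS y Y).card : ℝ) / (2 * H + 1)) ≤ 1 / (4 * LL ^ B) := by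
      have hHη : 0 < (H : ℝ) ^ η := by positivity
      rw [Nat.card_Icc, Nat.add_sub_cancel, Nat.cast_one, mul_one]
      have g4 : (X : ℝ) * (((badS y Y).card : ℝ) / (2 * H + 1)) ≤ L ^ (A + 1) * (19 * L / (H : ℝ) ^ η) :=
        mul_le_mul hXL g2 (by positivity) (by positivity)
      refine g4.trans ?_
      have g5 := a8 η le_rfl
      rw [mul_div_assoc', div_le_div_iff₀ hHη (by positivity), one_mul]
      rw [Real.rpow_one] at a6
      have g6 : LL ^ B ≤ L := (pow_le_pow_right₀ hLL1 (by omega)).trans a6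
      calc L ^ (A + 1) * (19 * L) * (4 * LL ^ B) = 76 * L ^ (A + 2) * LL ^ B := by ring
        _ ≤ 76 * L ^ (A + 2) * L := mul_le_mul_of_nonneg_left g6 (by positivity)
        _ = 76 * L ^ (A + 3) := by ring
        _ ≤ (H : ℝ) ^ η := g5
    exact le_trans g1 (mul_le_mul_of_nonneg_left g3 hBc0)
  have hc3 : (S3.card : ℝ) ≤ Bc * (1 / (2 * LL ^ B)) := by
    have q1 : (S3.card : ℝ) ≤ ∑ k ∈ Ks, ∑ i ∈ range (⌊2 * xx k⌋₊ + 1), ∑ q ∈ Icc 1 ⌊18 * T⌋₊,
        ((Bk d H w z X (B + 5) (i * 2 ^ k) (q * 2 ^ k)).card : ℝ) := by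
      have : S3.card ≤ ∑ k ∈ Ks, ∑ i ∈ range (⌊2 * xx k⌋₊ + 1), ∑ q ∈ Icc 1 ⌊18 * T⌋₊,
        (Bk d H w z X (B + 5) (i * 2 ^ k) (q * 2 ^ k)).card := by
        refine card_biUnion_le.trans (sum_le_sum fun k _ => card_biUnion_le.trans (sum_le_sum fun i _ => card_biUnion_le))
      exact_mod_cast this
    refine q1.trans ?_
    have q2 : ∀ k ∈ Ks, ∑ i ∈ range (⌊2 * xx k⌋₊ + 1), ∑ q ∈ Icc 1 ⌊18 * T⌋₊,
        ((Bk d H w z X (B + 5) (i * 2 ^ k) (q * 2 ^ k)).card : ℝ) ≤ Bc * (1 / (4 * LL ^ (B + 2))) := by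
      intro k hk
      rw [hKs, mem_filter] at hk
      obtain ⟨_, k1, k2, k3⟩ := hk
      have h2k : (0 : ℝ) < 2 ^ k := by positivity
      have q3 : ∀ i ∈ range (⌊2 * xx k⌋₊ + 1), ∀ q ∈ Icc 1 ⌊18 * T⌋₊,
          ((Bk d H w z X (B + 5) (i * 2 ^ k) (q * 2 ^ k)).card : ℝ) ≤
          Bc * (LL ^ F * (L / 2 ^ k) ^ d + 2 / L ^ (A * d + 1)) := by
        intro i _ q hq
        rw [mem_Icc] at hq
        by_cases hX' : i * 2 ^ k + q * 2 ^ k ≤ X
        · have hq1 : (1 : ℝ) ≤ q := by exact_mod_cast hq.1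
          have r1 : (2 : ℝ) ^ k ≤ ((q * 2 ^ k : ℕ) : ℝ) := by
            push_cast
            nlinarith
          have r2 : (((i * 2 ^ k + q * 2 ^ k : ℕ)) : ℝ) ≤ L ^ (A + 1) := by
            have : (((i * 2 ^ k + q * 2 ^ k : ℕ)) : ℝ) ≤ X := by exact_mod_cast hX'
            exact this.trans (Nat.floor_le (by positivity))
          have r3 := hblk (i * 2 ^ k) (q * 2 ^ k) (k1.trans r1) r2
          have r4 : ((Bk d H w z X (B + 5) (i * 2 ^ k) (q * 2 ^ k)).card : ℝ) ≤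
              (((Bx 1 d H).filter (fun a => Ncp w z (a 0) ∧ 3 / LL ^ (B + 5) * ((q * 2 ^ k : ℕ) : ℝ) <
              |∑ n ∈ Icc 1 (q * 2 ^ k), QL (fun _ => 0) (Gi (i * 2 ^ k) n) a -
                MG w (fun _ => 0) (Icc 1 (q * 2 ^ k)) (Gi (i * 2 ^ k)) a|)).card : ℝ) := by
            have : (Bk d H w z X (B + 5) (i * 2 ^ k) (q * 2 ^ k)).card ≤
              ((Bx 1 d H).filter (fun a => Ncp w z (a 0) ∧ 3 / LL ^ (B + 5) * ((q * 2 ^ k : ℕ) : ℝ) <
              |∑ n ∈ Icc 1 (q * 2 ^ k), QL (fun _ => 0) (Gi (i * 2 ^ k) n) a -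
                MG w (fun _ => 0) (Icc 1 (q * 2 ^ k)) (Gi (i * 2 ^ k)) a|)).card := by
              apply card_le_card
              intro a ha
              unfold Bk at ha
              rw [mem_filter] at ha ⊢
              exact ⟨ha.1, ha.2.2⟩
            exact_mod_cast this
          refine r4.trans (r3.trans ?_)
          apply mul_le_mul_of_nonneg_left _ hBc0
          have r5 : (L / ((q * 2 ^ k : ℕ) : ℝ)) ^ d ≤ (L / 2 ^ k) ^ d := by
            apply pow_le_pow_left₀ (by positivity)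
            exact div_le_div_of_nonneg_left hL0.le h2k r1
          have r6 := mul_le_mul_of_nonneg_left r5 (show 0 ≤ LL ^ F by positivity)
          linarith
        · have : Bk d H w z X (B + 5) (i * 2 ^ k) (q * 2 ^ k) = ∅ := by
            unfold Bk
            rw [filter_eq_empty_iff]
            intro a _ h
            exact hX' h.1
          rw [this, card_empty, Nat.cast_zero]
          positivity
      have q4 := ub d A F B L ε LL hL1 hε (by linarith) k k3 k2 a3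
      calc ∑ i ∈ range (⌊2 * xx k⌋₊ + 1), ∑ q ∈ Icc 1 ⌊18 * T⌋₊,
            ((Bk d H w z X (B + 5) (i * 2 ^ k) (q * 2 ^ k)).card : ℝ) ≤
            ∑ i ∈ range (⌊2 * xx k⌋₊ + 1), ∑ q ∈ Icc 1 ⌊18 * T⌋₊,
            (Bc * (LL ^ F * (L / 2 ^ k) ^ d + 2 / L ^ (A * d + 1))) :=
            sum_le_sum fun i hi => sum_le_sum fun q hq => q3 i hi q hq
        _ = Bc * (((⌊2 * xx k⌋₊ + 1 : ℕ) : ℝ) * ((⌊18 * T⌋₊ : ℝ) *
            (LL ^ F * (L / 2 ^ k) ^ d + 2 / L ^ (A * d + 1)))) := by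
            rw [sum_const, sum_const, card_range, Nat.card_Icc, Nat.add_sub_cancel, nsmul_eq_mul, nsmul_eq_mul]
            ring
        _ ≤ _ := mul_le_mul_of_nonneg_left q4 hBc0
    refine (sum_le_sum q2).trans ?_
    rw [sum_const, nsmul_eq_mul]
    have q5 : (Ks.card : ℝ) ≤ 2 * LL ^ 2 := by
      have r1 : Ks.card ≤ ⌊LL ^ 2⌋₊ + 1 := (card_filter_le _ _).trans (by rw [card_range])
      have r2 : (Ks.card : ℝ) ≤ (⌊LL ^ 2⌋₊ : ℝ) + 1 := by exact_mod_cast r1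
      have r3 : (⌊LL ^ 2⌋₊ : ℝ) ≤ LL ^ 2 := Nat.floor_le (by positivity)
      have r4 : 1 ≤ LL ^ 2 := one_le_pow₀ hLL1
      linarith
    calc (Ks.card : ℝ) * (Bc * (1 / (4 * LL ^ (B + 2)))) ≤ (2 * LL ^ 2) * (Bc * (1 / (4 * LL ^ (B + 2)))) :=
          mul_le_mul_of_nonneg_right q5 (by positivity)
      _ = Bc * (1 / (2 * LL ^ B)) := by
          rw [pow_add LL B 2]
          field_simp
          ring
  have hfin : ((((Bx 1 d H).filter (fun a => (∀ p ≤ w, p.Prime → om1 (a 0) p < p) ∧ ∃ M N : ℕ,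
      ((M + N : ℕ) : ℝ) ≤ L ^ A ∧ ((M + N : ℕ) : ℝ) * L ^ ((d : ℝ) + ε) ≤ (N : ℝ) ^ (d + 1) ∧
      C1 w (a 0) * N * (1 / LL ^ B) < |L * piI (a 0) M N - C1 w (a 0) * N|)).card : ℕ) : ℝ) ≤
      (S1.card : ℝ) + S2.card + S3.card := by
    have r1 := (card_le_card hsub).trans (card_union_le _ _)
    have r2 := card_union_le S1 S2
    have r3 := r1.trans (Nat.add_le_add_right r2 _)
    exact_mod_cast r3
  refine hfin.trans ?_
  calc (S1.card : ℝ) + S2.card + S3.card ≤ Bc * (1 / (4 * LL ^ B)) + Bc * (1 / (4 * LL ^ B)) + Bc * (1 / (2 * LL ^ B)) := by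
        linarith
    _ = Bc / LL ^ B := by
        field_simp
        ring

end Pool.Agent.TP975.RP
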