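import Mathlib
import Pool.Agent.TP975.RP.Sj5

/-!
Prime values in all short intervals: the theorem for one polynomial.
-/

set_option autoImplicit false

namespace Pool.Agent.TP975.RP

open Finset

open Classical in
theorem all_int1 (d A B : ℕ) (hd : 2 ≤ d) (ε : ℝ) (hε : 0 < ε) : ∃ E1 : ℕ, ∀ E2 : ℕ, ∃ H0 : ℕ, ∀ H : ℕ, H0 ≤ H →
    ∀ w : ℕ, Real.log (Real.log H) ^ E1 ≤ w → (w : ℝ) ≤ Real.log (Real.log H) ^ E2 →
    ((((QQ d H).filter (fun f => (∀ p ≤ w, p.Prime → om1 f p < p) ∧ ∃ M N : ℕ,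
      ((M + N : ℕ) : ℝ) ≤ Real.log H ^ A ∧ ((M + N : ℕ) : ℝ) * Real.log H ^ ((d : ℝ) + ε) ≤ (N : ℝ) ^ (d + 1) ∧
      C1 w f * N / Real.log H / Real.log (Real.log H) ^ B < |(piI f M N : ℝ) - C1 w f * N / Real.log H|)).card : ℕ) : ℝ) ≤
      (QQ d H).card / Real.log (Real.log H) ^ B := by
  obtain ⟨E1, h1⟩ := all_int d A B hd ε hε
  refine ⟨E1, fun E2 => ?_⟩
  obtain ⟨H1, h1⟩ := h1 E2
  obtain ⟨H2, h2⟩ := Filter.eventually_atTop.1 (ev_log 1)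
  refine ⟨max H1 H2, fun H hH w hw1 hw2 => ?_⟩
  have a1 := h1 H (le_trans (le_max_left _ _) hH) w hw1 hw2
  have a2 := h2 H (le_trans (le_max_right _ _) hH)
  have hL0 : 0 < Real.log H := by linarith
  have hcB : ((Bx 1 d H).card : ℝ) = (QQ d H).card := by
    rw [card_Bx, card_QQ, mul_one]
  rw [← card_one (H := H) (fun f => (∀ p ≤ w, p.Prime → om1 f p < p) ∧ ∃ M N : ℕ,
      ((M + N : ℕ) : ℝ) ≤ Real.log H ^ A ∧ ((M + N : ℕ) : ℝ) * Real.log H ^ ((d : ℝ) + ε) ≤ (N : ℝ) ^ (d + 1) ∧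
      C1 w f * N / Real.log H / Real.log (Real.log H) ^ B < |(piI f M N : ℝ) - C1 w f * N / Real.log H|), ← hcB]
  refine le_trans ?_ a1
  have hsub : (Bx 1 d H).filter (fun a => (∀ p ≤ w, p.Prime → om1 (a 0) p < p) ∧ ∃ M N : ℕ,
      ((M + N : ℕ) : ℝ) ≤ Real.log H ^ A ∧ ((M + N : ℕ) : ℝ) * Real.log H ^ ((d : ℝ) + ε) ≤ (N : ℝ) ^ (d + 1) ∧
      C1 w (a 0) * N / Real.log H / Real.log (Real.log H) ^ B < |(piI (a 0) M N : ℝ) - C1 w (a 0) * N / Real.log H|) ⊆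
      (Bx 1 d H).filter (fun a => (∀ p ≤ w, p.Prime → om1 (a 0) p < p) ∧ ∃ M N : ℕ,
      ((M + N : ℕ) : ℝ) ≤ Real.log H ^ A ∧ ((M + N : ℕ) : ℝ) * Real.log H ^ ((d : ℝ) + ε) ≤ (N : ℝ) ^ (d + 1) ∧
      C1 w (a 0) * N * (1 / Real.log (Real.log H) ^ B) < |Real.log H * piI (a 0) M N - C1 w (a 0) * N|) := by
    intro a ha
    rw [mem_filter] at ha ⊢
    obtain ⟨ha1, ha2, M, N, h3, h4, h5⟩ := ha
    refine ⟨ha1, ha2, M, N, h3, h4, ?_⟩
    have r1 := mul_lt_mul_of_pos_left h5 hL0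
    have r2 : Real.log H * (C1 w (a 0) * N / Real.log H / Real.log (Real.log H) ^ B) =
        C1 w (a 0) * N * (1 / Real.log (Real.log H) ^ B) := by field_simp
    have r3 : Real.log H * |(piI (a 0) M N : ℝ) - C1 w (a 0) * N / Real.log H| =
        |Real.log H * piI (a 0) M N - C1 w (a 0) * N| := by
      rw [← abs_of_pos hL0, ← abs_mul, abs_of_pos hL0, mul_sub]
      congr 2
      field_simp
    rw [r2, r3] at r1
    exact r1
  exact_mod_cast card_le_card hsub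

end Pool.Agent.TP975.RP
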