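import Mathlib
import Pool.Agent.TP975.RP.Si9

/-!
Weighted sifted sums: exponential moments over a period and the transfer of moments.
-/

set_option autoImplicit false

namespace Pool.Agent.TP975.RP

open Finset
open Pool.Agent.H373R2.T7

/-- the weighted sifted sum -/
noncomputable def Tw (ν : ℕ → ℝ) (y : ℕ) (I : Finset ℕ) (r : ℕ → ℤ) (b : ℤ) : ℝ := ∑ i ∈ I, ν i * lamz y (b + r i).natAbs

lemma Tw_per (ν : ℕ → ℝ) (y : ℕ) (I : Finset ℕ) (r : ℕ → ℤ) (s t : ℤ) (h : (Pz y : ℤ) ∣ s - t) :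
    Tw ν y I r s = Tw ν y I r t := by
  unfold Tw
  refine sum_congr rfl fun i _ => ?_
  congr 1
  apply lamz_per y _ _
  have e : s + r i - (t + r i) = s - t := by ring
  rw [e]
  exact h

/-- the exponential moment over a period -/
theorem expoW (ν : ℕ → ℝ) (hν : ∀ i, 0 ≤ ν i ∧ ν i ≤ 1) (I : Finset ℕ) (r : ℕ → ℤ) (K : ℕ → ℝ) (D N θ : ℝ) (hN : (I.card : ℝ) ≤ N) (w : ℕ) :
    ∀ z : ℕ, w ≤ z → (Vz z)⁻¹ ≤ D →
    (∀ p, p.Prime → w < p → p ≤ z → ∀ b : ℕ, (((I.filter (fun i => (p : ℤ) ∣ (b : ℤ) + r i)).card : ℕ) : ℝ) ≤ K p) →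
    (∀ p, p.Prime → w < p → p ≤ z → |θ| * (2 * D * K p) ≤ 1) →
    ∑ b ∈ range (Pz z), Real.exp (θ * (Tw ν z I r b - Tw ν w I r b)) ≤
      Pz z * Real.exp (θ ^ 2 * ∑ p ∈ pw w z, 4 * D ^ 2 * K p * N / p) := by
  intro z hz
  induction z, hz using Nat.le_induction with
  | base =>
    intro _ _ _
    have h1 : pw w w = ∅ := by
      rw [eq_empty_iff_forall_notMem]
      intro p hp
      rw [mem_pw] at hp
      omega
    rw [h1, sum_empty, mul_zero, Real.exp_zero, mul_one]
    apply le_of_eq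
    have h2 : ∀ b ∈ range (Pz w), Real.exp (θ * (Tw ν w I r (b : ℤ) - Tw ν w I r (b : ℤ))) = 1 := by
      intro b _
      rw [sub_self, mul_zero, Real.exp_zero]
    rw [sum_congr rfl h2, sum_const, card_range, nsmul_eq_mul, mul_one]
  | succ y hy ih =>
    intro hD hK hθ
    have hD' : (Vz y)⁻¹ ≤ D := (Vz_anti (Nat.le_succ y)).trans hD
    have hD0 : 0 ≤ D := by have := one_le_Vinv y; linarith
    have ih' := ih hD' (fun p hp h1 h2 => hK p hp h1 (by omega)) (fun p hp h1 h2 => hθ p hp h1 (by omega))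
    by_cases hp : (y + 1).Prime
    · set p := y + 1 with hpd
      have hwp : w < p := by omega
      have hPp : Pz p = Pz y * p := Pz_succ_prime y hp
      have hcop : (Pz y).Coprime p := Pz_coprime y hp
      rw [pw_succ_prime w y hy hp, sum_insert (by rw [mem_pw]; omega)]
      set X : ℕ → ℕ → ℝ := fun a b => ∑ i ∈ I, ν i * lamz y ((a : ℤ) + r i).natAbs *
        ((1 - 1 / (p : ℝ))⁻¹ * (if (p : ℤ) ∣ (b : ℤ) + r i then 0 else 1) - 1) with hX
      have hTs : ∀ b : ℤ, Tw ν p I r b = ∑ i ∈ I, ν i * lamz y (b + r i).natAbs *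
          ((1 - 1 / (p : ℝ))⁻¹ * (if (p : ℤ) ∣ b + r i then 0 else 1)) := by
        intro b
        unfold Tw
        refine sum_congr rfl fun i _ => ?_
        rw [lamz_succ_prime y hp _]
        ring
      have hdiv : ∀ (q n : ℕ), (q : ℤ) ∣ (n : ℤ) - ((n % q : ℕ) : ℤ) := by
        intro q n
        rw [Int.natCast_mod]
        exact Int.dvd_self_sub_emod
      have hterm : ∀ n ∈ range (Pz y * p), Real.exp (θ * (Tw ν p I r n - Tw ν w I r n)) =
          (fun a b : ℕ => Real.exp (θ * (Tw ν y I r a - Tw ν w I r a)) * Real.exp (θ * X a b)) (n % Pz y) (n % p) := by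
        intro n _
        simp only
        rw [← Real.exp_add, ← mul_add]
        congr 2
        have e1 : Tw ν w I r n = Tw ν w I r ((n % Pz y : ℕ) : ℤ) :=
          Tw_per ν w I r _ _ ((Int.natCast_dvd_natCast.2 (Pz_dvd hy)).trans (hdiv _ _))
        have e2 : Tw ν p I r n = Tw ν y I r ((n % Pz y : ℕ) : ℤ) + X (n % Pz y) (n % p) := by
          rw [hTs, hX]
          simp only
          unfold Tw
          rw [← sum_add_distrib]
          refine sum_congr rfl fun i _ => ?_
          have e3 : lamz y ((n : ℤ) + r i).natAbs = lamz y (((n % Pz y : ℕ) : ℤ) + r i).natAbs := by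
            apply lamz_per
            have e : (n : ℤ) + r i - (((n % Pz y : ℕ) : ℤ) + r i) = (n : ℤ) - ((n % Pz y : ℕ) : ℤ) := by ring
            rw [e]
            exact hdiv _ _
          have e4 : (p : ℤ) ∣ (n : ℤ) + r i ↔ (p : ℤ) ∣ ((n % p : ℕ) : ℤ) + r i := by
            have e : (n : ℤ) + r i = ((n : ℤ) - ((n % p : ℕ) : ℤ)) + (((n % p : ℕ) : ℤ) + r i) := by ring
            rw [e]
            exact dvd_add_right (hdiv _ _)
          rw [e3]
          simp only [e4]
          ring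
        rw [e1, e2]
        ring
      rw [hPp, sum_congr rfl hterm, crt2 (Pz y) p (Pz_pos y) hp.pos hcop
        (fun a b : ℕ => Real.exp (θ * (Tw ν y I r a - Tw ν w I r a)) * Real.exp (θ * X a b))]
      have hinner : ∀ a ∈ range (Pz y), ∑ b ∈ range p,
          Real.exp (θ * (Tw ν y I r a - Tw ν w I r a)) * Real.exp (θ * X a b) ≤
          Real.exp (θ * (Tw ν y I r a - Tw ν w I r a)) * (p * Real.exp (θ ^ 2 * (4 * D ^ 2 * K p * N / p))) := by
        intro a _
        rw [← mul_sum]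
        apply mul_le_mul_of_nonneg_left _ (Real.exp_pos _).le
        exact one_prime I r (fun i => ν i * lamz y ((a : ℤ) + r i).natAbs) D (K p) N θ p hp
          (fun i _ => mul_nonneg (hν i).1 (lamz_nonneg _ _))
          (fun i _ => (mul_le_of_le_one_left (lamz_nonneg _ _) (hν i).2).trans ((lamz_le _ _).trans hD')) hD0
          (hK p hp hwp le_rfl) hN (hθ p hp hwp le_rfl)
      refine (sum_le_sum hinner).trans ?_
      rw [← sum_mul]
      have hpe : 0 ≤ (p : ℝ) * Real.exp (θ ^ 2 * (4 * D ^ 2 * K p * N / p)) := by positivity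
      refine (mul_le_mul_of_nonneg_right ih' hpe).trans (le_of_eq ?_)
      have e5 : ∀ u v : ℝ, Real.exp (θ ^ 2 * (u + v)) = Real.exp (θ ^ 2 * u) * Real.exp (θ ^ 2 * v) := by
        intro u v
        rw [mul_add, Real.exp_add]
      rw [e5, Nat.cast_mul]
      rw [← hpd]
      ring
    · rw [pw_succ_not w y hp, Pz_succ_not y hp]
      refine le_trans (le_of_eq ?_) ih'
      refine sum_congr rfl fun b _ => ?_
      have : Tw ν (y + 1) I r b = Tw ν y I r b := by
        unfold Tw
        exact sum_congr rfl fun i _ => by rw [lamz_succ_not y hp _]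
      rw [this]


end Pool.Agent.TP975.RP
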