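import Mathlib
import Pool.Agent.TP975.RP.Wb1

/-!
Weighted sifted sums: the transfer of moments.
-/

set_option autoImplicit false

namespace Pool.Agent.TP975.RP

open Finset
open Pool.Agent.H373R2.T7

/-- the expansion of a power of the difference -/
lemma pow_expandW (ν : ℕ → ℝ) (K z w : ℕ) (I : Finset ℕ) (r : ℕ → ℤ) (b : ℤ) :
    (Tw ν z I r b - Tw ν w I r b) ^ K = ∑ u ∈ Fintype.piFinset (fun _ : Fin K => I), (∏ l, ν (u l)) *
      ∑ t ∈ (univ : Finset (Fin K)).powerset,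
      (-1) ^ (univ \ t).card * ∏ l : Fin K, lamz (if l ∈ t then z else w) (b + r (u l)).natAbs := by
  classical
  have h1 : (Tw ν z I r b - Tw ν w I r b) ^ K = ∏ l : Fin K, ∑ i ∈ I, ν i * (lamz z (b + r i).natAbs - lamz w (b + r i).natAbs) := by
    rw [prod_const, card_univ, Fintype.card_fin]
    unfold Tw
    rw [← sum_sub_distrib]
    congr 1
    refine sum_congr rfl fun i _ => ?_
    ring
  rw [h1, prod_univ_sum]
  refine sum_congr rfl fun u _ => ?_
  rw [prod_mul_distrib]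
  congr 1
  have h2 : ∏ l : Fin K, (lamz z (b + r (u l)).natAbs - lamz w (b + r (u l)).natAbs) =
      ∏ l : Fin K, (lamz z (b + r (u l)).natAbs + -lamz w (b + r (u l)).natAbs) :=
    prod_congr rfl fun l _ => sub_eq_add_neg _ _
  rw [h2, prod_add]
  refine sum_congr rfl fun t _ => ?_
  rw [prod_neg, ← prod_sdiff (subset_univ t)]
  have h3 : ∏ l ∈ t, lamz (if l ∈ t then z else w) (b + r (u l)).natAbs = ∏ l ∈ t, lamz z (b + r (u l)).natAbs :=
    prod_congr rfl fun l hl => by rw [if_pos hl]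
  have h4 : ∏ l ∈ univ \ t, lamz (if l ∈ t then z else w) (b + r (u l)).natAbs = ∏ l ∈ univ \ t, lamz w (b + r (u l)).natAbs :=
    prod_congr rfl fun l hl => by rw [if_neg (mem_sdiff.1 hl).2]
  rw [h3, h4]
  ring

/-- the transfer of moments -/
theorem mom_trW (K E U : ℕ) : ∃ H0 : ℕ, ∀ H : ℕ, H0 ≤ H → ∀ z : ℕ, 1 ≤ z → (z : ℝ) ≤ Real.log H ^ E → ∀ w ≤ z,
    ∀ ν : ℕ → ℝ, (∀ i, 0 ≤ ν i ∧ ν i ≤ 1) → ∀ (I : Finset ℕ) (r : ℕ → ℤ),
    |∑ b ∈ Icc (-(H : ℤ)) H, (Tw ν z I r b - Tw ν w I r b) ^ K -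
      (2 * H + 1 : ℝ) / Pz z * ∑ b ∈ range (Pz z), (Tw ν z I r (b : ℤ) - Tw ν w I r (b : ℤ)) ^ K| ≤
      (2 * (Vz z)⁻¹ * I.card) ^ K * ((2 * H + 1 : ℝ) / Real.log H ^ U) := by
  classical
  obtain ⟨N0, hN0⟩ := count_dens K E U
  refine ⟨N0, fun H hH z hz hzE w hwz ν hν I r => ?_⟩
  have hP0 : (0 : ℝ) < Pz z := by exact_mod_cast Pz_pos z
  have hV1 := one_le_Vinv z
  have e1 : ∑ b ∈ Icc (-(H : ℤ)) H, (Tw ν z I r b - Tw ν w I r b) ^ K =
      ∑ u ∈ Fintype.piFinset (fun _ : Fin K => I), (∏ l, ν (u l)) * ∑ t ∈ (univ : Finset (Fin K)).powerset,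
      (-1) ^ (univ \ t).card * ∑ b ∈ Icc (-(H : ℤ)) H, ∏ l : Fin K, lamz (if l ∈ t then z else w) (b + r (u l)).natAbs := by
    rw [sum_congr rfl (fun b _ => pow_expandW ν K z w I r b), sum_comm]
    refine sum_congr rfl fun u _ => ?_
    rw [← mul_sum, sum_comm]
    congr 1
    refine sum_congr rfl fun t _ => ?_
    rw [mul_sum]
  have e2 : ∑ b ∈ range (Pz z), (Tw ν z I r (b : ℤ) - Tw ν w I r (b : ℤ)) ^ K =
      ∑ u ∈ Fintype.piFinset (fun _ : Fin K => I), (∏ l, ν (u l)) * ∑ t ∈ (univ : Finset (Fin K)).powerset,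
      (-1) ^ (univ \ t).card * (Pz z * dens univ (fun l => r (u l)) (fun l => if l ∈ t then z else w) z) := by
    rw [sum_congr rfl (fun (b : ℕ) _ => pow_expandW ν K z w I r (b : ℤ)), sum_comm]
    refine sum_congr rfl fun u _ => ?_
    rw [← mul_sum, sum_comm]
    congr 1
    refine sum_congr rfl fun t _ => ?_
    rw [← mul_sum]
    congr 1
    apply model_dens
    intro l _
    split_ifs <;> omega
  rw [e1, e2, mul_sum, ← sum_sub_distrib]
  have hbd : ∀ u ∈ Fintype.piFinset (fun _ : Fin K => I),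
      |(∏ l, ν (u l)) * ∑ t ∈ (univ : Finset (Fin K)).powerset, (-1) ^ (univ \ t).card * ∑ b ∈ Icc (-(H : ℤ)) H, ∏ l : Fin K,
        lamz (if l ∈ t then z else w) (b + r (u l)).natAbs - (2 * H + 1 : ℝ) / Pz z *
        ((∏ l, ν (u l)) * ∑ t ∈ (univ : Finset (Fin K)).powerset, (-1) ^ (univ \ t).card *
          (Pz z * dens univ (fun l => r (u l)) (fun l => if l ∈ t then z else w) z))| ≤
      2 ^ K * (((Vz z)⁻¹) ^ K * ((2 * H + 1 : ℝ) / Real.log H ^ U)) := by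
    intro u _
    have e0 : (∏ l, ν (u l)) * ∑ t ∈ (univ : Finset (Fin K)).powerset, (-1) ^ (univ \ t).card * ∑ b ∈ Icc (-(H : ℤ)) H, ∏ l : Fin K,
        lamz (if l ∈ t then z else w) (b + r (u l)).natAbs - (2 * H + 1 : ℝ) / Pz z *
        ((∏ l, ν (u l)) * ∑ t ∈ (univ : Finset (Fin K)).powerset, (-1) ^ (univ \ t).card *
          (Pz z * dens univ (fun l => r (u l)) (fun l => if l ∈ t then z else w) z)) =
        (∏ l, ν (u l)) * (∑ t ∈ (univ : Finset (Fin K)).powerset, (-1) ^ (univ \ t).card * ∑ b ∈ Icc (-(H : ℤ)) H, ∏ l : Fin K,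
        lamz (if l ∈ t then z else w) (b + r (u l)).natAbs - (2 * H + 1 : ℝ) / Pz z *
        ∑ t ∈ (univ : Finset (Fin K)).powerset, (-1) ^ (univ \ t).card *
          (Pz z * dens univ (fun l => r (u l)) (fun l => if l ∈ t then z else w) z)) := by ring
    have hpr0 : 0 ≤ ∏ l, ν (u l) := prod_nonneg fun l _ => (hν _).1
    have hpr1 : ∏ l, ν (u l) ≤ 1 := prod_le_one (fun l _ => (hν _).1) (fun l _ => (hν _).2)
    rw [e0, abs_mul, abs_of_nonneg hpr0]
    refine (mul_le_of_le_one_left (abs_nonneg _) hpr1).trans ?_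
    rw [mul_sum, ← sum_sub_distrib]
    refine (abs_sum_le_sum_abs _ _).trans ?_
    have h1 : ∀ t ∈ (univ : Finset (Fin K)).powerset,
        |(-1) ^ (univ \ t).card * ∑ b ∈ Icc (-(H : ℤ)) H, ∏ l : Fin K,
        lamz (if l ∈ t then z else w) (b + r (u l)).natAbs - (2 * H + 1 : ℝ) / Pz z *
        ((-1) ^ (univ \ t).card * (Pz z * dens univ (fun l => r (u l)) (fun l => if l ∈ t then z else w) z))| ≤
        ((Vz z)⁻¹) ^ K * ((2 * H + 1 : ℝ) / Real.log H ^ U) := by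
      intro t _
      have e3 : (-1 : ℝ) ^ (univ \ t).card * ∑ b ∈ Icc (-(H : ℤ)) H, ∏ l : Fin K,
        lamz (if l ∈ t then z else w) (b + r (u l)).natAbs - (2 * H + 1 : ℝ) / Pz z *
        ((-1) ^ (univ \ t).card * (Pz z * dens univ (fun l => r (u l)) (fun l => if l ∈ t then z else w) z)) =
        (-1 : ℝ) ^ (univ \ t).card * (∑ b ∈ Icc (-(H : ℤ)) H, ∏ l : Fin K,
        lamz (if l ∈ t then z else w) (b + r (u l)).natAbs - (2 * H + 1 : ℝ) *
          dens univ (fun l => r (u l)) (fun l => if l ∈ t then z else w) z) := by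
        field_simp
      rw [e3, abs_mul, abs_pow, abs_neg, abs_one, one_pow, one_mul]
      have h2 := hN0 H hH z hz hzE (Fin K) univ (by rw [card_univ, Fintype.card_fin]) (fun l => r (u l))
        (fun l => if l ∈ t then z else w) (fun l _ => by split_ifs <;> omega)
      refine h2.trans ?_
      have hL : 0 ≤ (2 * H + 1 : ℝ) / Real.log H ^ U := by
        have : 0 ≤ Real.log (H : ℝ) := Real.log_natCast_nonneg H
        positivity
      apply mul_le_mul_of_nonneg_right _ hL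
      calc ∏ l : Fin K, (Vz (if l ∈ t then z else w))⁻¹ ≤ ∏ l : Fin K, (Vz z)⁻¹ := by
            apply prod_le_prod
            · intro l _
              exact (inv_pos.2 (Vz_pos _)).le
            · intro l _
              apply Vz_anti
              split_ifs <;> omega
        _ = _ := by rw [prod_const, card_univ, Fintype.card_fin]
    refine (sum_le_sum h1).trans (le_of_eq ?_)
    rw [sum_const, card_powerset, card_univ, Fintype.card_fin, nsmul_eq_mul]
    push_cast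
    ring
  refine (abs_sum_le_sum_abs _ _).trans ((sum_le_sum hbd).trans (le_of_eq ?_))
  rw [sum_const, Fintype.card_piFinset_const, nsmul_eq_mul, mul_pow, mul_pow]
  push_cast
  ring

/-- the classes of the points -/
def Clb (d N w z : ℕ) (r : ℕ → ℤ) : Prop := ∀ p, p.Prime → w < p → p ≤ z → ∀ b : ℕ,
  ((((Icc 1 N).filter (fun n : ℕ => (p : ℤ) ∣ b + r n)).card : ℕ) : ℝ) ≤ d * ((N : ℝ) / p + 1)

lemma Clb_mono {d N w w' z z' : ℕ} {r : ℕ → ℤ} (h : Clb d N w z r) (hw : w ≤ w') (hz : z' ≤ z) : Clb d N w' z' r :=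
  fun p hp h1 h2 => h p hp (lt_of_le_of_lt hw h1) (h2.trans hz)

/-- the exponential moment, in a form which is easy to use -/
theorem expo2W (d : ℕ) (ν : ℕ → ℝ) (hν : ∀ i, 0 ≤ ν i ∧ ν i ≤ 1) (r : ℕ → ℤ) (N : ℕ) (hN : 1 ≤ N) (w z : ℕ) (hw : 1 ≤ w)
    (hwz : w ≤ z) (hg : Clb d N w z r) (D u m s : ℝ) (hD : (Vz z)⁻¹ ≤ D) (hD2 : 1 + Real.log z ≤ D) (hu : 0 ≤ u)
    (hm0 : 0 < m) (hmw : m ≤ w) (hmN : m ≤ N) (h1 : 8 * d * D ^ 3 * u ^ 2 ≤ m) (h2 : 4 * d * D * u ≤ m) (hs : |s| ≤ 1) :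
    ∑ b ∈ range (Pz z), Real.exp (s * (u / N) * (Tw ν z (Icc 1 N) r b - Tw ν w (Icc 1 N) r b)) ≤ Pz z * Real.exp 1 := by
  have hD1 : 1 ≤ D := (one_le_Vinv z).trans hD
  have hN0 : (0 : ℝ) < N := by exact_mod_cast hN
  have hw0 : (0 : ℝ) < w := by exact_mod_cast hw
  have hd0 : (0 : ℝ) ≤ d := Nat.cast_nonneg _
  have hcard : (((Icc 1 N).card : ℕ) : ℝ) ≤ (N : ℝ) := by rw [Nat.card_Icc, Nat.add_sub_cancel]
  have hs2 : s ^ 2 ≤ 1 := by
    rw [← sq_abs]
    exact pow_le_one₀ (abs_nonneg _) hs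
  have key := expoW ν hν (Icc 1 N) r (fun p => d * ((N : ℝ) / p + 1)) D N (s * (u / N)) hcard w
    z hwz hD (fun p hp hp1 hp2 b => hg p hp hp1 hp2 b) ?_
  · refine key.trans ?_
    apply mul_le_mul_of_nonneg_left _ (Nat.cast_nonneg _)
    apply Real.exp_le_exp.2
    have e1 : ∑ p ∈ pw w z, 4 * D ^ 2 * (d * ((N : ℝ) / p + 1)) * N / p =
        4 * D ^ 2 * d * N * (N * ∑ p ∈ pw w z, 1 / (p : ℝ) ^ 2 + ∑ p ∈ pw w z, 1 / (p : ℝ)) := by
      rw [mul_sum, ← sum_add_distrib, mul_sum]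
      refine sum_congr rfl fun p hp => ?_
      have : (p : ℝ) ≠ 0 := by exact_mod_cast (mem_pw.1 hp).2.2.ne_zero
      field_simp
    have e2 : ∑ p ∈ pw w z, 1 / (p : ℝ) ^ 2 ≤ 1 / (w : ℝ) := sum_pw_inv_sq w z hw
    have e3 : ∑ p ∈ pw w z, 1 / (p : ℝ) ≤ D := by
      refine le_trans ?_ ((sum_pz_le z).trans hD2)
      exact sum_le_sum_of_subset_of_nonneg (filter_subset _ _) (fun _ _ _ => by positivity)
    have e4 : (N : ℝ) * ∑ p ∈ pw w z, 1 / (p : ℝ) ^ 2 + ∑ p ∈ pw w z, 1 / (p : ℝ) ≤ N * (2 * D / m) := by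
      have q1 : (N : ℝ) * ∑ p ∈ pw w z, 1 / (p : ℝ) ^ 2 ≤ N * (D / m) := by
        apply mul_le_mul_of_nonneg_left _ hN0.le
        refine e2.trans ?_
        rw [div_le_div_iff₀ hw0 hm0]
        nlinarith
      have q2 : D ≤ N * (D / m) := by
        rw [mul_div_assoc', le_div_iff₀ hm0]
        nlinarith
      have q3 : (N : ℝ) * (2 * D / m) = N * (D / m) + N * (D / m) := by ring
      linarith
    rw [e1]
    have e5 : (s * (u / N)) ^ 2 * (4 * D ^ 2 * d * N * (N * ∑ p ∈ pw w z, 1 / (p : ℝ) ^ 2 + ∑ p ∈ pw w z, 1 / (p : ℝ))) ≤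
        (s * (u / N)) ^ 2 * (4 * D ^ 2 * d * N * (N * (2 * D / m))) := by
      apply mul_le_mul_of_nonneg_left _ (sq_nonneg _)
      exact mul_le_mul_of_nonneg_left e4 (by positivity)
    refine e5.trans ?_
    have e6 : (s * (u / N)) ^ 2 * (4 * D ^ 2 * d * N * (N * (2 * D / m))) = s ^ 2 * (8 * d * D ^ 3 * u ^ 2 / m) := by
      field_simp
      ring
    rw [e6]
    have e7 : 8 * d * D ^ 3 * u ^ 2 / m ≤ 1 := (div_le_one hm0).2 h1
    have e8 : 0 ≤ 8 * d * D ^ 3 * u ^ 2 / m := by positivity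
    nlinarith [sq_nonneg s]
  · intro p hp hp1 hp2
    have hp0 : (0 : ℝ) < p := by exact_mod_cast hp.pos
    have hwp : (w : ℝ) ≤ p := by exact_mod_cast hp1.le
    have q1 : (N : ℝ) / p + 1 ≤ N * (2 / m) := by
      have q2 : (N : ℝ) / p ≤ N / m := div_le_div_of_nonneg_left hN0.le hm0 (hmw.trans hwp)
      have q3 : 1 ≤ N / m := (one_le_div hm0).2 hmN
      have q4 : (N : ℝ) * (2 / m) = N / m + N / m := by ring
      linarith
    rw [abs_mul, abs_of_nonneg (by positivity : 0 ≤ u / N)]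
    have q5 : |s| * (u / N) * (2 * D * (d * ((N : ℝ) / p + 1))) ≤ 1 * (u / N) * (2 * D * (d * (N * (2 / m)))) := by
      apply mul_le_mul
      · exact mul_le_mul_of_nonneg_right hs (by positivity)
      · apply mul_le_mul_of_nonneg_left _ (by positivity)
        exact mul_le_mul_of_nonneg_left q1 hd0
      · positivity
      · positivity
    refine q5.trans ?_
    have q6 : 1 * (u / N) * (2 * D * (d * (N * (2 / m)))) = 4 * d * D * u / m := by
      field_simp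
      ring
    rw [q6]
    exact (div_le_one hm0).2 h2

end Pool.Agent.TP975.RP
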