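import Mathlib
import Pool.Agent.TP975.RP.Wb2

/-!
Weighted sifted sums: almost all constant coefficients.
-/

set_option autoImplicit false

namespace Pool.Agent.TP975.RP

open Finset
open Pool.Agent.H373R2.T7

/-- the difference of two weighted sifted sums -/
noncomputable def Dw (ν : ℕ → ℝ) (r : ℕ → ℤ) (N w z : ℕ) (b : ℤ) : ℝ := Tw ν z (Icc 1 N) r b - Tw ν w (Icc 1 N) r b

/-- moments over the period -/
lemma mom_modelW (d : ℕ) (ν : ℕ → ℝ) (hν : ∀ i, 0 ≤ ν i ∧ ν i ≤ 1) (r : ℕ → ℤ) (N : ℕ) (hN : 1 ≤ N) (w z : ℕ) (hw : 1 ≤ w) (hwz : w ≤ z)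
    (hg : Clb d N w z r) (D u m : ℝ) (hD : (Vz z)⁻¹ ≤ D) (hD2 : 1 + Real.log z ≤ D) (hu : 0 < u)
    (hm0 : 0 < m) (hmw : m ≤ w) (hmN : m ≤ N) (h1 : 8 * d * D ^ 3 * u ^ 2 ≤ m) (h2 : 4 * d * D * u ≤ m)
    (K : ℕ) (hK : Even K) :
    ∑ b ∈ range (Pz z), (Dw ν r N w z (b : ℤ)) ^ K ≤ Pz z * (2 * Real.exp 1 * K.factorial * (N / u) ^ K) := by
  have hN0 : (0 : ℝ) < N := by exact_mod_cast hN
  have p1 := expo2W d ν hν r N hN w z hw hwz hg D u m 1 hD hD2 hu.le hm0 hmw hmN h1 h2 (by norm_num)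
  have p2 := expo2W d ν hν r N hN w z hw hwz hg D u m (-1) hD hD2 hu.le hm0 hmw hmN h1 h2 (by norm_num)
  have hf : (0 : ℝ) < K.factorial := by exact_mod_cast K.factorial_pos
  have hpt : ∀ b ∈ range (Pz z), (Dw ν r N w z (b : ℤ)) ^ K ≤ K.factorial * (N / u) ^ K *
      (Real.exp (1 * (u / N) * Dw ν r N w z (b : ℤ)) + Real.exp (-1 * (u / N) * Dw ν r N w z (b : ℤ))) := by
    intro b _
    set x := Dw ν r N w z (b : ℤ) with hx
    have q1 := Real.pow_div_factorial_le_exp (|(u / N) * x|) (abs_nonneg _) K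
    rw [div_le_iff₀ hf, ← abs_pow, abs_of_nonneg (hK.pow_nonneg _), mul_pow] at q1
    have q2 : Real.exp |(u / N) * x| ≤ Real.exp (1 * (u / N) * x) + Real.exp (-1 * (u / N) * x) := by
      rcases abs_cases ((u / N) * x) with ⟨h, _⟩ | ⟨h, _⟩
      · rw [h]
        have : Real.exp ((u / N) * x) = Real.exp (1 * (u / N) * x) := by congr 1; ring
        rw [this]
        linarith [Real.exp_pos (-1 * (u / N) * x)]
      · rw [h]
        have : Real.exp (-((u / N) * x)) = Real.exp (-1 * (u / N) * x) := by congr 1; ring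
        rw [this]
        linarith [Real.exp_pos (1 * (u / N) * x)]
    have q3 : (N / u : ℝ) ^ K * (u / N) ^ K = 1 := by
      rw [← mul_pow, div_mul_div_comm, mul_comm (N : ℝ) u, div_self (by positivity), one_pow]
    have q4 : x ^ K = (N / u : ℝ) ^ K * ((u / N) ^ K * x ^ K) := by rw [← mul_assoc, q3, one_mul]
    rw [q4]
    calc (N / u : ℝ) ^ K * ((u / N) ^ K * x ^ K) ≤ (N / u : ℝ) ^ K * (Real.exp |(u / N) * x| * K.factorial) :=
          mul_le_mul_of_nonneg_left q1 (by positivity)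
      _ ≤ (N / u : ℝ) ^ K * ((Real.exp (1 * (u / N) * x) + Real.exp (-1 * (u / N) * x)) * K.factorial) := by
          apply mul_le_mul_of_nonneg_left _ (by positivity)
          exact mul_le_mul_of_nonneg_right q2 hf.le
      _ = _ := by ring
  refine (sum_le_sum hpt).trans ?_
  rw [← mul_sum, sum_add_distrib]
  have p3 : ∑ b ∈ range (Pz z), Real.exp (1 * (u / N) * Dw ν r N w z (b : ℤ)) +
      ∑ b ∈ range (Pz z), Real.exp (-1 * (u / N) * Dw ν r N w z (b : ℤ)) ≤ Pz z * (2 * Real.exp 1) := by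
    unfold Dw
    linarith
  calc _ ≤ K.factorial * (N / u : ℝ) ^ K * (Pz z * (2 * Real.exp 1)) := mul_le_mul_of_nonneg_left p3 (by positivity)
    _ = _ := by ring

/-- large deviations, small moduli -/
lemma tail_smallW (d : ℕ) (ν : ℕ → ℝ) (hν : ∀ i, 0 ≤ ν i ∧ ν i ≤ 1) (r : ℕ → ℤ) (N : ℕ) (hN : 1 ≤ N) (w z : ℕ) (hw : 1 ≤ w) (hwz : w ≤ z)
    (hg : Clb d N w z r) (D u m η : ℝ) (hD : (Vz z)⁻¹ ≤ D) (hD2 : 1 + Real.log z ≤ D) (hu : 0 < u)
    (hm0 : 0 < m) (hmw : m ≤ w) (hmN : m ≤ N) (h1 : 8 * d * D ^ 3 * u ^ 2 ≤ m) (h2 : 4 * d * D * u ≤ m)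
    (H : ℕ) (hH : 4 ^ z ≤ H) [DecidablePred (fun b : ℤ => η * N < |Dw ν r N w z b|)] :
    ((((Icc (-(H : ℤ)) H).filter (fun b : ℤ => η * N < |Dw ν r N w z b|)).card : ℕ) : ℝ) ≤
      (2 * H + 1) * (4 * Real.exp 1 * Real.exp (-(u * η))) := by
  have hN0 : (0 : ℝ) < N := by exact_mod_cast hN
  have p1 := expo2W d ν hν r N hN w z hw hwz hg D u m 1 hD hD2 hu.le hm0 hmw hmN h1 h2 (by norm_num)
  have p2 := expo2W d ν hν r N hN w z hw hwz hg D u m (-1) hD hD2 hu.le hm0 hmw hmN h1 h2 (by norm_num)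
  have hP1 : 1 ≤ Pz z := Pz_pos z
  have hP0 : (0 : ℝ) < Pz z := by exact_mod_cast hP1
  have hPH : (Pz z : ℝ) ≤ 2 * H + 1 := by
    have : Pz z ≤ H := (Pz_le z).trans hH
    have h3 : (Pz z : ℝ) ≤ H := by exact_mod_cast this
    have : (0 : ℝ) ≤ H := Nat.cast_nonneg _
    linarith
  have hper : ∀ s : ℝ, Pdc (Pz z) (fun b => Real.exp (s * (u / N) * Dw ν r N w z b)) := by
    intro s x y hxy
    simp only
    have e1 : Dw ν r N w z x = Dw ν r N w z y := by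
      unfold Dw
      rw [Tw_per ν z _ _ x y hxy, Tw_per ν w _ _ x y ((Int.natCast_dvd_natCast.2 (Pz_dvd hwz)).trans hxy)]
    rw [e1]
  have hw1 : ∀ s : ℝ, ∑ b ∈ range (Pz z), Real.exp (s * (u / N) * Dw ν r N w z (b : ℤ)) ≤ Pz z * Real.exp 1 →
      ∑ b ∈ Icc (-(H : ℤ)) H, Real.exp (s * (u / N) * Dw ν r N w z b) ≤ (2 * H + 1) * (2 * Real.exp 1) := by
    intro s hs
    refine (win_per (Pz z) hP1 (fun b => Real.exp (s * (u / N) * Dw ν r N w z b)) (fun _ => (Real.exp_pos _).le)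
      (hper s) H).trans ?_
    calc ((2 * H + 1 : ℝ) / Pz z + 1) * ∑ n ∈ range (Pz z), Real.exp (s * (u / N) * Dw ν r N w z (n : ℤ)) ≤
        ((2 * H + 1 : ℝ) / Pz z + 1) * (Pz z * Real.exp 1) := mul_le_mul_of_nonneg_left hs (by positivity)
      _ = (2 * H + 1 + Pz z) * Real.exp 1 := by field_simp
      _ ≤ (2 * (2 * H + 1)) * Real.exp 1 := by
          apply mul_le_mul_of_nonneg_right _ (Real.exp_pos _).le
          linarith
      _ = _ := by ring
  have q1 := hw1 1 p1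
  have q2 := hw1 (-1) p2
  have hpt : ∀ b ∈ (Icc (-(H : ℤ)) H).filter (fun b : ℤ => η * N < |Dw ν r N w z b|), Real.exp (u * η) ≤
      Real.exp (1 * (u / N) * Dw ν r N w z b) + Real.exp (-1 * (u / N) * Dw ν r N w z b) := by
    intro b hb
    rw [mem_filter] at hb
    set x := Dw ν r N w z b with hx
    have h3 : u * η ≤ (u / N) * |x| := by
      rw [div_mul_eq_mul_div, le_div_iff₀ hN0, mul_assoc]
      exact mul_le_mul_of_nonneg_left hb.2.le hu.le
    rcases abs_cases x with ⟨h, _⟩ | ⟨h, _⟩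
    · rw [h] at h3
      have : Real.exp (u * η) ≤ Real.exp (1 * (u / N) * x) := Real.exp_le_exp.2 (by linarith)
      linarith [Real.exp_pos (-1 * (u / N) * x)]
    · rw [h] at h3
      have : Real.exp (u * η) ≤ Real.exp (-1 * (u / N) * x) := Real.exp_le_exp.2 (by linarith)
      linarith [Real.exp_pos (1 * (u / N) * x)]
  have q3 : ((((Icc (-(H : ℤ)) H).filter (fun b : ℤ => η * N < |Dw ν r N w z b|)).card : ℕ) : ℝ) * Real.exp (u * η) ≤
      (2 * H + 1) * (4 * Real.exp 1) := by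
    calc ((((Icc (-(H : ℤ)) H).filter (fun b : ℤ => η * N < |Dw ν r N w z b|)).card : ℕ) : ℝ) * Real.exp (u * η) =
        ∑ b ∈ (Icc (-(H : ℤ)) H).filter (fun b : ℤ => η * N < |Dw ν r N w z b|), Real.exp (u * η) := by
          rw [sum_const, nsmul_eq_mul]
      _ ≤ ∑ b ∈ (Icc (-(H : ℤ)) H).filter (fun b : ℤ => η * N < |Dw ν r N w z b|),
          (Real.exp (1 * (u / N) * Dw ν r N w z b) + Real.exp (-1 * (u / N) * Dw ν r N w z b)) := sum_le_sum hpt
      _ ≤ ∑ b ∈ Icc (-(H : ℤ)) H,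
          (Real.exp (1 * (u / N) * Dw ν r N w z b) + Real.exp (-1 * (u / N) * Dw ν r N w z b)) :=
          sum_le_sum_of_subset_of_nonneg (filter_subset _ _) (fun _ _ _ => by positivity)
      _ ≤ _ := by
          rw [sum_add_distrib]
          linarith
  rw [Real.exp_neg, ← mul_assoc, ← div_eq_mul_inv, le_div_iff₀ (Real.exp_pos _)]
  exact q3


open Classical in
theorem stg1W (d E U B : ℕ) : ∃ H0 : ℕ, ∀ H : ℕ, H0 ≤ H → ∀ z : ℕ, ⌊√(Real.log H)⌋₊ ≤ z →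
    (z : ℝ) ≤ Real.log H ^ E → ∀ ν : ℕ → ℝ, (∀ i, 0 ≤ ν i ∧ ν i ≤ 1) → ∀ (r : ℕ → ℤ) (N : ℕ), Clb d N ⌊√(Real.log H)⌋₊ z r → Real.log H ≤ N →
    ((((Icc (-(H : ℤ)) H).filter (fun b : ℤ => 1 / Real.log (Real.log H) ^ B * N <
      |Dw ν r N ⌊√(Real.log H)⌋₊ z b|)).card : ℕ) : ℝ) ≤ (2 * H + 1) / Real.log H ^ U := by
  set K : ℕ := 10 * (U + 1) with hKd
  have hKe : Even K := ⟨5 * (U + 1), by rw [hKd]; ring⟩
  obtain ⟨H1, h1⟩ := mom_trW K E K
  obtain ⟨H2, h2⟩ := V_LL3 E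
  obtain ⟨H3, h3⟩ := pow_small 10 (1 / 10) (by norm_num)
  obtain ⟨H4, h4⟩ := pow_small (B * K + 1) 1 (by norm_num)
  obtain ⟨H5, h5⟩ := ll_ev (max (16 * (d + 1 : ℝ)) (2 * Real.exp 1 * K.factorial + 1))
  obtain ⟨H6, h6⟩ := Filter.eventually_atTop.1 (ev_log 4)
  refine ⟨max (max (max H1 H2) (max H3 H4)) (max H5 H6), fun H hH z hwz hzE ν hν r N hg hN => ?_⟩
  have b0 := le_trans (le_max_left _ _) hH
  have b0' := le_trans (le_max_right _ _) hH
  have a1 := h1 H (le_trans (le_trans (le_max_left _ _) (le_max_left _ _)) b0)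
  have a2 := h2 H (le_trans (le_trans (le_max_right _ _) (le_max_left _ _)) b0) z hzE
  have a3 := h3 H (le_trans (le_trans (le_max_left _ _) (le_max_right _ _)) b0)
  have a4 := h4 H (le_trans (le_trans (le_max_right _ _) (le_max_right _ _)) b0)
  have a5 := h5 H (le_trans (le_max_left _ _) b0')
  have a6 := h6 H (le_trans (le_max_right _ _) b0')
  set L := Real.log H with hL
  set LL := Real.log L with hLL
  set w := ⌊√L⌋₊ with hw
  have hLL16 : 16 * (d + 1 : ℝ) ≤ LL := (le_max_left _ _).trans a5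
  have hLLf : 2 * Real.exp 1 * K.factorial + 1 ≤ LL := (le_max_right _ _).trans a5
  have hd0 : (0 : ℝ) ≤ d := Nat.cast_nonneg _
  have hLL16' : 16 ≤ LL := by nlinarith
  have hLL0 : 0 < LL := by linarith
  have hLL1 : 1 ≤ LL := by linarith
  have hL0 : 0 < L := by linarith
  have hL1 : 1 ≤ L := by linarith
  have hsq0 : 0 ≤ √L := Real.sqrt_nonneg _
  have hsq2 : 2 ≤ √L := by
    rw [show (2 : ℝ) = √4 by rw [show (4 : ℝ) = 2 ^ 2 by norm_num, Real.sqrt_sq (by norm_num)]]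
    exact Real.sqrt_le_sqrt a6
  have hwl : √L / 2 ≤ w := by
    have := Nat.lt_floor_add_one (√L)
    rw [← hw] at this
    linarith
  have hw1' : (1 : ℝ) ≤ w := by linarith
  have hw1 : 1 ≤ w := by exact_mod_cast hw1'
  have hz1 : 1 ≤ z := hw1.trans hwz
  have hsqL : √L ≤ L := by
    rw [Real.sqrt_le_left hL0.le]
    nlinarith
  have hNr : (1 : ℝ) ≤ N := hL1.trans hN
  have hN1 : 1 ≤ N := by exact_mod_cast hNr
  have hN0 : (0 : ℝ) < N := by linarith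
  set D := LL ^ 3 with hD
  set u : ℝ := L ^ (1 / 5 : ℝ) with hu
  have hu1 : 1 ≤ u := Real.one_le_rpow hL1 (by norm_num)
  have hu0 : 0 < u := by linarith
  have hu5 : u ^ 5 = L := by
    rw [hu, ← Real.rpow_natCast, ← Real.rpow_mul hL0.le]
    norm_num
  have hs10 : L ^ (1 / 10 : ℝ) * u ^ 2 = √L := by
    rw [hu, ← Real.rpow_natCast, ← Real.rpow_mul hL0.le, ← Real.rpow_add hL0, Real.sqrt_eq_rpow]
    norm_num
  have hLL10 : LL ^ 10 ≤ L ^ (1 / 10 : ℝ) := a3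
  have hm0 : 0 < √L / 2 := by linarith
  have c1 : 8 * d * D ^ 3 * u ^ 2 ≤ √L / 2 := by
    have q1 : 16 * d * D ^ 3 ≤ LL ^ 10 := by
      have e : LL ^ 10 = LL * D ^ 3 := by rw [hD]; ring
      rw [e]
      exact mul_le_mul_of_nonneg_right (by linarith) (by positivity)
    have q2 : 16 * d * D ^ 3 * u ^ 2 ≤ L ^ (1 / 10 : ℝ) * u ^ 2 :=
      mul_le_mul_of_nonneg_right (q1.trans hLL10) (by positivity)
    rw [hs10] at q2
    linarith
  have hDpos : 1 ≤ D := one_le_pow₀ hLL1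
  have c2 : 4 * d * D * u ≤ √L / 2 := by
    refine le_trans ?_ c1
    have q1 : D ≤ D ^ 3 := by
      calc D = D ^ 1 := (pow_one D).symm
        _ ≤ D ^ 3 := pow_le_pow_right₀ hDpos (by norm_num)
    have q2 : u ≤ u ^ 2 := by nlinarith
    have q3 : D * u ≤ D ^ 3 * u ^ 2 := mul_le_mul q1 q2 hu0.le (by positivity)
    have q4 : (0 : ℝ) ≤ D ^ 3 * u ^ 2 := by positivity
    have q5 : 4 * d * D * u = 4 * d * (D * u) := by ring
    have q6 : 8 * d * D ^ 3 * u ^ 2 = 4 * d * (D ^ 3 * u ^ 2) + 4 * d * (D ^ 3 * u ^ 2) := by ring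
    rw [q5, q6]
    have q7 : 4 * (d : ℝ) * (D * u) ≤ 4 * d * (D ^ 3 * u ^ 2) := mul_le_mul_of_nonneg_left q3 (by positivity)
    have q8 : 0 ≤ 4 * (d : ℝ) * (D ^ 3 * u ^ 2) := by positivity
    linarith
  have hmod := mom_modelW d ν hν r N hN1 w z hw1 hwz hg D u (√L / 2) a2.1 a2.2 hu0 hm0 hwl (by linarith) c1 c2 K hKe
  have htr := a1 z hz1 hzE w hwz ν hν (Icc 1 N) r
  have hcard : (((Icc 1 N).card : ℕ) : ℝ) = N := by rw [Nat.card_Icc, Nat.add_sub_cancel]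
  rw [hcard] at htr
  have hP0 : (0 : ℝ) < Pz z := by exact_mod_cast Pz_pos z
  have hH0 : (0 : ℝ) < 2 * H + 1 := by positivity
  set R : ℝ := 2 * Real.exp 1 * K.factorial + 1 with hR
  have hsum : ∑ b ∈ Icc (-(H : ℤ)) H, (Dw ν r N w z b) ^ K ≤ (2 * H + 1) * ((N / u) ^ K * R) := by
    have q1 := (abs_le.1 htr).2
    have q2 : (2 * H + 1 : ℝ) / Pz z * ∑ b ∈ range (Pz z), (Dw ν r N w z (b : ℤ)) ^ K ≤
        (2 * H + 1) * (2 * Real.exp 1 * K.factorial * (N / u) ^ K) := by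
      refine (mul_le_mul_of_nonneg_left hmod (by positivity)).trans (le_of_eq ?_)
      field_simp
    have q3 : (2 * (Vz z)⁻¹ * N) ^ K * ((2 * H + 1 : ℝ) / L ^ K) ≤ (2 * H + 1) * (N / u) ^ K := by
      have q4 : (2 * (Vz z)⁻¹ * N) ^ K * ((2 * H + 1 : ℝ) / L ^ K) = (2 * H + 1) * (2 * (Vz z)⁻¹ * N / L) ^ K := by
        rw [div_pow]; ring
      rw [q4]
      apply mul_le_mul_of_nonneg_left _ hH0.le
      have hV1 := one_le_Vinv z
      apply pow_le_pow_left₀ (by positivity)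
      rw [div_le_div_iff₀ hL0 hu0]
      have q5 : 2 * (Vz z)⁻¹ * u ≤ L := by
        have q6 : 2 * (Vz z)⁻¹ ≤ LL ^ 10 := by
          calc 2 * (Vz z)⁻¹ ≤ LL * LL ^ 3 := mul_le_mul (by linarith) a2.1 (by positivity) hLL0.le
            _ = LL ^ 4 := by ring
            _ ≤ LL ^ 10 := pow_le_pow_right₀ hLL1 (by norm_num)
        have q7 : u ≤ u ^ 2 := by nlinarith
        calc 2 * (Vz z)⁻¹ * u ≤ L ^ (1 / 10 : ℝ) * u ^ 2 := mul_le_mul (q6.trans hLL10) q7 hu0.le (by positivity)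
          _ = √L := hs10
          _ ≤ L := hsqL
      calc 2 * (Vz z)⁻¹ * N * u = (2 * (Vz z)⁻¹ * u) * N := by ring
        _ ≤ L * N := mul_le_mul_of_nonneg_right q5 hN0.le
        _ = N * L := by ring
    have q8 : ∑ b ∈ Icc (-(H : ℤ)) H, (Dw ν r N w z b) ^ K = ∑ b ∈ Icc (-(H : ℤ)) H,
        (Tw ν z (Icc 1 N) r b - Tw ν w (Icc 1 N) r b) ^ K := rfl
    have q9 : ∑ b ∈ range (Pz z), (Dw ν r N w z (b : ℤ)) ^ K = ∑ b ∈ range (Pz z),
        (Tw ν z (Icc 1 N) r (b : ℤ) -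
          Tw ν w (Icc 1 N) r (b : ℤ)) ^ K := rfl
    rw [q9] at q2
    rw [q8]
    have q10 : (2 * H + 1 : ℝ) * ((N / u) ^ K * R) = (2 * H + 1) * (2 * Real.exp 1 * K.factorial * (N / u) ^ K) +
        (2 * H + 1) * (N / u) ^ K := by rw [hR]; ring
    rw [q10]
    linarith
  set S := (Icc (-(H : ℤ)) H).filter (fun b : ℤ => 1 / LL ^ B * N < |Dw ν r N w z b|) with hS
  have hcnt : (S.card : ℝ) * (1 / LL ^ B * N) ^ K ≤ (2 * H + 1) * ((N / u) ^ K * R) := by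
    refine le_trans ?_ hsum
    calc (S.card : ℝ) * (1 / LL ^ B * N) ^ K = ∑ b ∈ S, (1 / LL ^ B * N) ^ K := by rw [sum_const, nsmul_eq_mul]
      _ ≤ ∑ b ∈ S, (Dw ν r N w z b) ^ K := by
          refine sum_le_sum fun b hb => ?_
          rw [hS, mem_filter] at hb
          rw [← hKe.pow_abs (Dw ν r N w z b)]
          exact pow_le_pow_left₀ (by positivity) hb.2.le K
      _ ≤ _ := sum_le_sum_of_subset_of_nonneg (filter_subset _ _) (fun _ _ _ => hKe.pow_nonneg _)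
  have hLLB : 0 < LL ^ B := by positivity
  have hcnt2 : (S.card : ℝ) * u ^ K ≤ (2 * H + 1) * (LL ^ (B * K) * R) := by
    have e1 : (N : ℝ) ^ K > 0 := by positivity
    apply le_of_mul_le_mul_right _ e1
    have e2 : (S.card : ℝ) * u ^ K * N ^ K = ((S.card : ℝ) * (1 / LL ^ B * N) ^ K) * (LL ^ (B * K) * u ^ K) := by
      rw [mul_pow, div_pow, one_pow, ← pow_mul]
      field_simp
    have e3 : (2 * H + 1 : ℝ) * (LL ^ (B * K) * R) * N ^ K = ((2 * H + 1) * ((N / u) ^ K * R)) * (LL ^ (B * K) * u ^ K) := by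
      rw [div_pow]
      field_simp
    rw [e2, e3]
    exact mul_le_mul_of_nonneg_right hcnt (by positivity)
  have huK : u ^ K = L ^ (2 * (U + 1)) := by
    rw [hKd, show 10 * (U + 1) = 5 * (2 * (U + 1)) by ring, pow_mul, hu5]
  rw [huK] at hcnt2
  have hfin : LL ^ (B * K) * R ≤ L := by
    rw [Real.rpow_one] at a4
    refine le_trans ?_ a4
    rw [pow_succ]
    exact mul_le_mul_of_nonneg_left hLLf (by positivity)
  rw [le_div_iff₀ (by positivity)]
  have hLp : 0 < L ^ (U + 2) := by positivity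
  apply le_of_mul_le_mul_right _ hLp
  calc (S.card : ℝ) * L ^ U * L ^ (U + 2) = (S.card : ℝ) * L ^ (2 * (U + 1)) := by
        rw [mul_assoc, ← pow_add]; congr 2; ring
    _ ≤ (2 * H + 1) * (LL ^ (B * K) * R) := hcnt2
    _ ≤ (2 * H + 1) * L := mul_le_mul_of_nonneg_left hfin hH0.le
    _ ≤ (2 * H + 1) * L ^ (U + 2) := by
        apply mul_le_mul_of_nonneg_left _ hH0.le
        calc L = L ^ 1 := (pow_one L).symm
          _ ≤ L ^ (U + 2) := pow_le_pow_right₀ hL1 (by omega)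

open Classical in
theorem stg2W (d U B : ℕ) : ∃ H0 : ℕ, ∀ H : ℕ, H0 ≤ H → ∀ w : ℕ, Real.log (Real.log H) ^ (2 * B + 14) ≤ w →
    w ≤ ⌊√(Real.log H)⌋₊ → ∀ ν : ℕ → ℝ, (∀ i, 0 ≤ ν i ∧ ν i ≤ 1) → ∀ (r : ℕ → ℤ) (N : ℕ), Clb d N w ⌊√(Real.log H)⌋₊ r → Real.log H ≤ N →
    ((((Icc (-(H : ℤ)) H).filter (fun b : ℤ => 1 / Real.log (Real.log H) ^ B * N <
      |Dw ν r N w ⌊√(Real.log H)⌋₊ b|)).card : ℕ) : ℝ) ≤ (2 * H + 1) / Real.log H ^ U := by
  obtain ⟨H2, h2⟩ := V_LL3 1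
  obtain ⟨H5, h5⟩ := ll_ev (max (16 * (d + 1 : ℝ)) ((U : ℝ) + 3))
  obtain ⟨H6, h6⟩ := Filter.eventually_atTop.1 (ev_log 4)
  refine ⟨max (max H2 H5) (max H6 1), fun H hH w hw1 hwz ν hν r N hg hN => ?_⟩
  have b0 := le_trans (le_max_left _ _) hH
  have b0' := le_trans (le_max_right _ _) hH
  have a5 := h5 H (le_trans (le_max_right _ _) b0)
  have a6 := h6 H (le_trans (le_max_left _ _) b0')
  have a2' := h2 H (le_trans (le_max_left _ _) b0)
  have hHone : 1 ≤ H := le_trans (le_max_right _ _) b0'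
  set L := Real.log H with hL
  set LL := Real.log L with hLL
  set z := ⌊√L⌋₊ with hz
  have hLL16 : 16 * (d + 1 : ℝ) ≤ LL := (le_max_left _ _).trans a5
  have hLLU : (U : ℝ) + 3 ≤ LL := (le_max_right _ _).trans a5
  have hd0 : (0 : ℝ) ≤ d := Nat.cast_nonneg _
  have hLL16' : 16 ≤ LL := by nlinarith
  have hLL0 : 0 < LL := by linarith
  have hLL1 : 1 ≤ LL := by linarith
  have hL0 : 0 < L := by linarith
  have hL1 : 1 ≤ L := by linarith
  have hsq0 : 0 ≤ √L := Real.sqrt_nonneg _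
  have hsqL : √L ≤ L := by
    rw [Real.sqrt_le_left hL0.le]
    nlinarith
  have hzL : (z : ℝ) ≤ √L := Nat.floor_le hsq0
  have a2 := a2' z (by rw [pow_one]; exact hzL.trans hsqL)
  have hNr : (1 : ℝ) ≤ N := hL1.trans hN
  have hN1 : 1 ≤ N := by exact_mod_cast hNr
  have hm0 : 0 < LL ^ (2 * B + 14) := by positivity
  have hm1 : 1 ≤ LL ^ (2 * B + 14) := one_le_pow₀ hLL1
  have hw1r : (1 : ℝ) ≤ w := hm1.trans hw1
  have hw1' : 1 ≤ w := by exact_mod_cast hw1r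
  have hwzr : (w : ℝ) ≤ z := by exact_mod_cast hwz
  have hmN : LL ^ (2 * B + 14) ≤ N := by linarith
  have c1 : 8 * d * (LL ^ 3) ^ 3 * (LL ^ (B + 2)) ^ 2 ≤ LL ^ (2 * B + 14) := by
    have e1 : (LL ^ 3) ^ 3 * (LL ^ (B + 2)) ^ 2 = LL ^ (2 * B + 13) := by
      rw [← pow_mul, ← pow_mul, ← pow_add]; congr 1; ring
    have e2 : 8 * d * (LL ^ 3) ^ 3 * (LL ^ (B + 2)) ^ 2 = 8 * d * LL ^ (2 * B + 13) := by
      rw [mul_assoc, e1]
    rw [e2, pow_succ LL (2 * B + 13), mul_comm (LL ^ (2 * B + 13)) LL]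
    exact mul_le_mul_of_nonneg_right (by linarith) (by positivity)
  have c2 : 4 * d * LL ^ 3 * LL ^ (B + 2) ≤ LL ^ (2 * B + 14) := by
    have e2 : 4 * (d : ℝ) * LL ^ 3 * LL ^ (B + 2) = 4 * d * LL ^ (B + 5) := by ring
    rw [e2]
    calc 4 * (d : ℝ) * LL ^ (B + 5) ≤ LL * LL ^ (B + 5) := mul_le_mul_of_nonneg_right (by linarith) (by positivity)
      _ = LL ^ (B + 6) := by ring
      _ ≤ _ := pow_le_pow_right₀ hLL1 (by omega)
  have hHr : (1 : ℝ) ≤ H := by exact_mod_cast hHone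
  have h4z : 4 ^ z ≤ H := by
    have e1 : ((4 : ℝ)) ^ z ≤ H := by
      have e2 : (4 : ℝ) ≤ Real.exp 2 := by
        have := Real.add_one_le_exp (1 : ℝ)
        have e3 : Real.exp 2 = Real.exp 1 * Real.exp 1 := by rw [← Real.exp_add]; norm_num
        rw [e3]
        nlinarith
      calc (4 : ℝ) ^ z ≤ (Real.exp 2) ^ z := pow_le_pow_left₀ (by norm_num) e2 z
        _ = Real.exp (z * 2) := (Real.exp_nat_mul _ _).symm
        _ ≤ Real.exp L := by
            apply Real.exp_le_exp.2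
            have : √L * √L = L := Real.mul_self_sqrt hL0.le
            have hsq2 : 2 ≤ √L := by
              rw [show (2 : ℝ) = √4 by rw [show (4 : ℝ) = 2 ^ 2 by norm_num, Real.sqrt_sq (by norm_num)]]
              exact Real.sqrt_le_sqrt a6
            nlinarith
        _ = H := Real.exp_log (by linarith)
    exact_mod_cast e1
  have key := tail_smallW d ν hν r N hN1 w z hw1' hwz hg (LL ^ 3) (LL ^ (B + 2)) (LL ^ (2 * B + 14)) (1 / LL ^ B)
    a2.1 a2.2 (by positivity) hm0 hw1 hmN c1 c2 H h4z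
  have hexp : 4 * Real.exp 1 * Real.exp (-(LL ^ (B + 2) * (1 / LL ^ B))) ≤ 1 / L ^ U := by
    have e1 : LL ^ (B + 2) * (1 / LL ^ B) = LL ^ 2 := by
      rw [pow_add]
      field_simp
    rw [e1, le_div_iff₀ (by positivity)]
    have e2 : L ^ U = Real.exp (U * LL) := by rw [Real.exp_nat_mul, hLL, Real.exp_log hL0]
    have e3 : (4 : ℝ) ≤ Real.exp 2 := by
      have := Real.add_one_le_exp (1 : ℝ)
      have e3 : Real.exp 2 = Real.exp 1 * Real.exp 1 := by rw [← Real.exp_add]; norm_num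
      rw [e3]
      nlinarith
    calc 4 * Real.exp 1 * Real.exp (-LL ^ 2) * L ^ U ≤ Real.exp 2 * Real.exp 1 * Real.exp (-LL ^ 2) * L ^ U := by
          have : 0 ≤ Real.exp 1 * Real.exp (-LL ^ 2) * L ^ U := by positivity
          nlinarith
      _ = Real.exp (2 + 1 + -LL ^ 2 + U * LL) := by rw [e2, Real.exp_add, Real.exp_add, Real.exp_add]
      _ ≤ Real.exp 0 := by
          apply Real.exp_le_exp.2
          nlinarith
      _ = 1 := Real.exp_zero
  have hH0 : (0 : ℝ) < 2 * H + 1 := by positivity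
  calc _ ≤ (2 * H + 1) * (4 * Real.exp 1 * Real.exp (-(LL ^ (B + 2) * (1 / LL ^ B)))) := by convert key
    _ ≤ (2 * H + 1) * (1 / L ^ U) := mul_le_mul_of_nonneg_left hexp hH0.le
    _ = _ := by ring

end Pool.Agent.TP975.RP
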