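import Mathlib
import Pool.Agent.TP975.RP.Wb3

/-!
High moments of the weighted error term in intervals.
-/

set_option autoImplicit false

namespace Pool.Agent.TP975.RP

open Finset
open Pool.Agent.H373R2.T7

/-- the weighted error term of an interval -/
noncomputable def ErW {d : ℕ} (ν : ℕ → ℝ) (z M N : ℕ) (a : Fin (d + 1) → ℤ) : ℝ :=
  ∑ n ∈ Icc 1 N, ν n * hh z (ev a ((M + n : ℕ) : ℤ))

theorem momDW (d A : ℕ) (hd : 1 ≤ d) : ∃ C : ℝ, 1 ≤ C ∧ ∃ B : ℕ, ∀ E : ℕ, ∃ H0 : ℕ, ∀ H : ℕ, H0 ≤ H → ∀ z : ℕ,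
    Real.log H ^ B ≤ z → (z : ℝ) ≤ Real.log H ^ E → ∀ M N : ℕ, 3 * Real.log H ≤ N →
    ((M + N : ℕ) : ℝ) ≤ Real.log H ^ A → ∀ ν : ℕ → ℝ, (∀ n, |ν n| ≤ 1) →
    ∑ a ∈ Bx 1 d H, (ErW ν z M N (a 0)) ^ (2 * d) ≤ (Bx 1 d H).card * (C * ((Vz z)⁻¹ * Real.log H * N) ^ d) := by
  classical
  obtain ⟨B1, hB1⟩ := ml 1 d A 2 (2 * d * A) (2 * d)
  obtain ⟨B2, hB2⟩ := meanD d A
  set C0 : ℝ := (d + 1) * ((d : ℝ) ^ (2 * d) * (3 ^ d * (2 ^ d * (1 + d)))) with hC0
  have hC00 : 0 ≤ C0 := by positivity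
  refine ⟨1 + C0, by linarith, max B1 B2, fun E => ?_⟩
  obtain ⟨H1, h1⟩ := hB1 E
  obtain ⟨H2, h2⟩ := hB2 E
  obtain ⟨H3, h3⟩ := Vz_inv_small E
  obtain ⟨H4, h4⟩ := Filter.eventually_atTop.1 (ev_log 3)
  obtain ⟨H5, h5⟩ := Filter.eventually_atTop.1 (ev_pow (A * d) ((d : ℝ) + 1))
  refine ⟨max (max (max H1 H2) (max H3 H4)) (max H5 3), fun H hH z hzB hzE M N hN hMN ν hν => ?_⟩
  have b0 := le_trans (le_max_left _ _) hH
  have b0' := le_trans (le_max_right _ _) hH
  have a4 := h4 H (le_trans (le_trans (le_max_right _ _) (le_max_right _ _)) b0)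
  have a5 := h5 H (le_trans (le_max_left _ _) b0')
  have hH3 : 3 ≤ H := le_trans (le_max_right _ _) b0'
  have hH1 : 1 ≤ H := by omega
  set L := Real.log H with hL
  have hL1 : 1 ≤ L := by linarith
  have hL0 : 0 < L := by linarith
  have hzB1 : L ^ B1 ≤ z := (pow_le_pow_right₀ hL1 (le_max_left _ _)).trans hzB
  have hzB2 : L ^ B2 ≤ z := (pow_le_pow_right₀ hL1 (le_max_right _ _)).trans hzB
  have a1 := h1 H (le_trans (le_trans (le_max_left _ _) (le_max_left _ _)) b0) z hzB1 hzE (Fin (2 * d))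
    (by rw [Fintype.card_fin]) (fun _ => 0)
  have a2 := h2 H (le_trans (le_trans (le_max_right _ _) (le_max_left _ _)) b0) z hzB2 hzE
  have hz1r : (1 : ℝ) ≤ z := (one_le_pow₀ hL1).trans hzB
  have hz1 : 1 ≤ z := by exact_mod_cast hz1r
  have a3 := h3 H (le_trans (le_trans (le_max_left _ _) (le_max_right _ _)) b0) z hz1 hzE
  rw [← hL] at a3
  have hV1 := one_le_Vinv z
  set V := (Vz z)⁻¹ with hV
  have hN1r : (1 : ℝ) ≤ N := by linarith
  have hN0 : (0 : ℝ) < N := by linarith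
  have hNA : (N : ℝ) ≤ L ^ A := by
    refine le_trans ?_ hMN
    push_cast
    have : (0 : ℝ) ≤ M := Nat.cast_nonneg _
    linarith
  have hcast : ∀ n : ℕ, (((M + n : ℕ) : ℤ) : ℝ) = ((M + n : ℕ) : ℝ) := fun n => by push_cast; ring
  have htb : ∀ n ∈ Icc 1 N, |(((M + n : ℕ) : ℤ) : ℝ)| ≤ L ^ A := by
    intro n hn
    rw [mem_Icc] at hn
    rw [hcast, abs_of_nonneg (Nat.cast_nonneg _)]
    refine le_trans ?_ hMN
    exact_mod_cast Nat.add_le_add_left hn.2 M
  -- the values
  have hval : ∀ a ∈ Bx 1 d H, ∀ n ∈ Icc 1 N, |((ev (a 0) ((M + n : ℕ) : ℤ) : ℤ) : ℝ)| ≤ (H : ℝ) ^ 2 := by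
    intro a ha n hn
    rw [mem_Bx] at ha
    exact QQ_bd hH1 (ha 0) A hL1 a5 _ (htb n hn)
  have hexp : ∀ a ∈ Bx 1 d H, (ErW ν z M N (a 0)) ^ (2 * d) = ∑ u ∈ Fintype.piFinset (fun _ : Fin (2 * d) => Icc 1 N),
      (∏ l, ν (u l)) * ∏ l, hh z (ev (a 0) ((M + u l : ℕ) : ℤ)) := by
    intro a _
    unfold ErW
    have e1 : (∑ n ∈ Icc 1 N, ν n * hh z (ev (a 0) ((M + n : ℕ) : ℤ))) ^ (2 * d) =
        ∏ _l : Fin (2 * d), ∑ n ∈ Icc 1 N, ν n * hh z (ev (a 0) ((M + n : ℕ) : ℤ)) := by
      rw [prod_const, card_univ, Fintype.card_fin]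
    rw [e1, prod_univ_sum]
    refine sum_congr rfl fun u _ => ?_
    rw [prod_mul_distrib]
  have hnu : ∀ u : Fin (2 * d) → ℕ, |∏ l, ν (u l)| ≤ 1 := by
    intro u
    rw [abs_prod]
    exact prod_le_one (fun _ _ => abs_nonneg _) (fun l _ => hν _)
  rw [sum_congr rfl hexp, sum_comm]
  set P := Fintype.piFinset (fun _ : Fin (2 * d) => Icc 1 N) with hP
  have hPc : (P.card : ℝ) = (N : ℝ) ^ (2 * d) := by
    rw [hP, Fintype.card_piFinset_const, Nat.card_Icc, Nat.add_sub_cancel]
    push_cast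
    rfl
  have hBc0 : (0 : ℝ) ≤ (Bx 1 d H).card := Nat.cast_nonneg _
  rw [← sum_filter_add_sum_filter_not P (fun u => Rep u)]
  -- the maps with an unrepeated value
  have hA : ∑ u ∈ P.filter (fun u => ¬ Rep u), ∑ a ∈ Bx 1 d H, (∏ l, ν (u l)) * ∏ l, hh z (ev (a 0) ((M + u l : ℕ) : ℤ)) ≤ (Bx 1 d H).card := by
    have hone : ∀ u ∈ P.filter (fun u => ¬ Rep u), ∑ a ∈ Bx 1 d H, (∏ l, ν (u l)) * ∏ l, hh z (ev (a 0) ((M + u l : ℕ) : ℤ)) ≤
        (Bx 1 d H).card / L ^ (2 * d * A) := by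
      intro u hu
      rw [mem_filter, hP, Fintype.mem_piFinset] at hu
      obtain ⟨hu1, hu2⟩ := hu
      unfold Rep at hu2
      push Not at hu2
      obtain ⟨l0, hl0⟩ := hu2
      have q1 := a1 (fun l => ((M + u l : ℕ) : ℤ)) (fun l => htb _ (hu1 l)) l0 (by
        intro l hl _ heq
        apply hl0 l hl
        have : M + u l = M + u l0 := by exact_mod_cast heq
        omega) (by
        refine (card_filter_le _ _).trans ?_
        rw [card_erase_of_mem (mem_univ _), card_univ, Fintype.card_fin]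
        omega) (fun _ => hh z) (by
        intro _ v hv
        refine (hh_bd a3 v hH1 hv).trans ?_
        rw [sq]
        exact mul_le_mul_of_nonneg_right a4 hL0.le)
      have q2 : ∀ a ∈ Bx 1 d H, ∏ l, hh z (ev (a 0) ((M + u l : ℕ) : ℤ)) = hh z (ev (a 0) ((M + u l0 : ℕ) : ℤ)) *
          ∏ l ∈ univ.erase l0, hh z (ev (a 0) ((M + u l : ℕ) : ℤ)) := fun a _ =>
        (mul_prod_erase univ (fun l => hh z (ev (a 0) ((M + u l : ℕ) : ℤ))) (mem_univ l0)).symm
      rw [← mul_sum, sum_congr rfl q2]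
      refine (le_abs_self _).trans ?_
      rw [abs_mul]
      exact (mul_le_of_le_one_left (abs_nonneg _) (hnu u)).trans q1
    refine (sum_le_sum hone).trans ?_
    rw [sum_const, nsmul_eq_mul]
    have q3 : ((P.filter (fun u => ¬ Rep u)).card : ℝ) ≤ L ^ (2 * d * A) := by
      calc ((P.filter (fun u => ¬ Rep u)).card : ℝ) ≤ P.card := by exact_mod_cast card_filter_le _ _
        _ = (N : ℝ) ^ (2 * d) := hPc
        _ ≤ (L ^ A) ^ (2 * d) := pow_le_pow_left₀ hN0.le hNA _
        _ = L ^ (2 * d * A) := by rw [← pow_mul]; congr 1; ring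
    have hLp : 0 < L ^ (2 * d * A) := by positivity
    calc ((P.filter (fun u => ¬ Rep u)).card : ℝ) * ((Bx 1 d H).card / L ^ (2 * d * A)) ≤
        L ^ (2 * d * A) * ((Bx 1 d H).card / L ^ (2 * d * A)) := mul_le_mul_of_nonneg_right q3 (by positivity)
      _ = _ := by field_simp
  -- the maps all of whose values are repeated
  have hB : ∑ u ∈ P.filter (fun u => Rep u), ∑ a ∈ Bx 1 d H, (∏ l, ν (u l)) * ∏ l, hh z (ev (a 0) ((M + u l : ℕ) : ℤ)) ≤
      (Bx 1 d H).card * (C0 * (V * L * N) ^ d) := by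
    have hone : ∀ u ∈ P.filter (fun u => Rep u), ∑ a ∈ Bx 1 d H, (∏ l, ν (u l)) * ∏ l, hh z (ev (a 0) ((M + u l : ℕ) : ℤ)) ≤
        (3 * L) ^ (2 * d - (univ.image u).card) * ((Bx 1 d H).card * (2 ^ d * ((1 + d) * V ^ d))) := by
      intro u hu
      rw [mem_filter, hP, Fintype.mem_piFinset] at hu
      obtain ⟨hu1, hu2⟩ := hu
      have q1 := a2 (univ.image u) (rep_card u hu2) M (by
        intro j hj
        obtain ⟨l, _, hl⟩ := mem_image.1 hj
        have := htb _ (hu1 l)
        rw [hcast, abs_of_nonneg (Nat.cast_nonneg _), hl] at this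
        exact this)
      have q2 : ∀ a ∈ Bx 1 d H, (∏ l, ν (u l)) * ∏ l, hh z (ev (a 0) ((M + u l : ℕ) : ℤ)) ≤ (3 * L) ^ (2 * d - (univ.image u).card) *
          ∏ j ∈ univ.image u, (ArithmeticFunction.vonMangoldt (ev (a 0) ((M + j : ℕ) : ℤ)).natAbs + V) := by
        intro a ha
        obtain ⟨x, hx⟩ : ∃ x : ℕ → ℝ, ∀ n, x n = if n ∈ Icc 1 N then |hh z (ev (a 0) ((M + n : ℕ) : ℤ))| else 0 :=
          ⟨_, fun _ => rfl⟩
        have q3 : (∏ l, ν (u l)) * ∏ l, hh z (ev (a 0) ((M + u l : ℕ) : ℤ)) ≤ ∏ l, x (u l) := by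
          refine (le_abs_self _).trans ?_
          rw [abs_mul]
          refine (mul_le_of_le_one_left (abs_nonneg _) (hnu u)).trans ?_
          rw [abs_prod]
          apply le_of_eq
          refine prod_congr rfl fun l _ => ?_
          rw [hx, if_pos (hu1 l)]
        refine q3.trans ?_
        apply prod_map_le (2 * d) u x (fun j => ArithmeticFunction.vonMangoldt (ev (a 0) ((M + j : ℕ) : ℤ)).natAbs + V)
          (3 * L) (by positivity)
        · intro n
          rw [hx]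
          split_ifs
          · exact abs_nonneg _
          · exact le_rfl
        · intro n
          rw [hx]
          split_ifs with hn
          · exact hh_bd a3 _ hH1 (hval a ha n hn)
          · positivity
        · intro n
          rw [hx]
          have q4 : 0 ≤ ArithmeticFunction.vonMangoldt (ev (a 0) ((M + n : ℕ) : ℤ)).natAbs :=
            ArithmeticFunction.vonMangoldt_nonneg
          split_ifs with hn
          · unfold hh
            have q5 := lamz_nonneg z (ev (a 0) ((M + n : ℕ) : ℤ)).natAbs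
            have q6 := lamz_le z (ev (a 0) ((M + n : ℕ) : ℤ)).natAbs
            rw [← hV] at q6
            rw [abs_le]
            constructor <;> linarith
          · linarith
      refine (sum_le_sum q2).trans ?_
      rw [← mul_sum]
      exact mul_le_mul_of_nonneg_left q1 (by positivity)
    refine (sum_le_sum hone).trans ?_
    rw [← sum_mul]
    have hcl : ∑ u ∈ P.filter (fun u => Rep u), (3 * L) ^ (2 * d - (univ.image u).card) ≤
        (d + 1) * ((d : ℝ) ^ (2 * d) * (3 ^ d * (L * N) ^ d)) := by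
      have q1 : P.filter (fun u => Rep u) ⊆ (range (d + 1)).biUnion (fun s => P.filter (fun u => (univ.image u).card = s)) := by
        intro u hu
        rw [mem_filter] at hu
        rw [mem_biUnion]
        exact ⟨(univ.image u).card, mem_range.2 (Nat.lt_succ_of_le (rep_card u hu.2)), mem_filter.2 ⟨hu.1, rfl⟩⟩
      have q2 : ∑ u ∈ P.filter (fun u => Rep u), (3 * L) ^ (2 * d - (univ.image u).card) ≤
          ∑ s ∈ range (d + 1), ∑ u ∈ P.filter (fun u => (univ.image u).card = s), (3 * L) ^ (2 * d - (univ.image u).card) := by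
        refine (sum_le_sum_of_subset_of_nonneg q1 (fun _ _ _ => by positivity)).trans ?_
        apply le_of_eq
        apply sum_biUnion
        intro s _ s' _ hss
        rw [Function.onFun, disjoint_left]
        intro u hu hu'
        rw [mem_filter] at hu hu'
        exact hss (hu.2.symm.trans hu'.2)
      refine q2.trans ?_
      have q3 : ∀ s ∈ range (d + 1), ∑ u ∈ P.filter (fun u => (univ.image u).card = s), (3 * L) ^ (2 * d - (univ.image u).card) ≤
          (d : ℝ) ^ (2 * d) * (3 ^ d * (L * N) ^ d) := by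
        intro s hs
        rw [mem_range] at hs
        have q4 : ∑ u ∈ P.filter (fun u => (univ.image u).card = s), (3 * L) ^ (2 * d - (univ.image u).card) =
            ((P.filter (fun u => (univ.image u).card = s)).card : ℝ) * (3 * L) ^ (2 * d - s) := by
          rw [sum_congr rfl (fun u hu => by rw [(mem_filter.1 hu).2]), sum_const, nsmul_eq_mul]
        rw [q4]
        have q5 : ((P.filter (fun u => (univ.image u).card = s)).card : ℝ) ≤ (N : ℝ) ^ s * (s : ℝ) ^ (2 * d) := by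
          have := card_maps (2 * d) s (Icc 1 N)
          rw [Nat.card_Icc, Nat.add_sub_cancel] at this
          exact_mod_cast this
        have q6 : (s : ℝ) ^ (2 * d) ≤ (d : ℝ) ^ (2 * d) := by
          apply pow_le_pow_left₀ (Nat.cast_nonneg _)
          exact_mod_cast Nat.le_of_lt_succ hs
        have q7 : (3 * L) ^ (2 * d - s) = (3 * L) ^ (d - s) * (3 * L) ^ d := by
          rw [← pow_add]; congr 1; omega
        have q8 : (3 * L) ^ (d - s) ≤ (N : ℝ) ^ (d - s) := pow_le_pow_left₀ (by positivity) hN _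
        calc ((P.filter (fun u => (univ.image u).card = s)).card : ℝ) * (3 * L) ^ (2 * d - s) ≤
            ((N : ℝ) ^ s * (d : ℝ) ^ (2 * d)) * ((N : ℝ) ^ (d - s) * (3 * L) ^ d) := by
              rw [q7]
              apply mul_le_mul (q5.trans (mul_le_mul_of_nonneg_left q6 (by positivity)))
                (mul_le_mul_of_nonneg_right q8 (by positivity)) (by positivity) (by positivity)
          _ = (d : ℝ) ^ (2 * d) * (3 ^ d * (L ^ d * ((N : ℝ) ^ s * (N : ℝ) ^ (d - s)))) := by rw [mul_pow]; ring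
          _ = _ := by
              rw [← pow_add, show s + (d - s) = d by omega, mul_pow]
      refine (sum_le_sum q3).trans (le_of_eq ?_)
      rw [sum_const, card_range, nsmul_eq_mul]
      push_cast
      ring
    calc (∑ u ∈ P.filter (fun u => Rep u), (3 * L) ^ (2 * d - (univ.image u).card)) *
        ((Bx 1 d H).card * (2 ^ d * ((1 + d) * V ^ d))) ≤
        ((d + 1) * ((d : ℝ) ^ (2 * d) * (3 ^ d * (L * N) ^ d))) * ((Bx 1 d H).card * (2 ^ d * ((1 + d) * V ^ d))) :=
          mul_le_mul_of_nonneg_right hcl (by positivity)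
      _ = _ := by rw [hC0, mul_pow, mul_pow, mul_pow]; ring
  have hge : 1 ≤ (V * L * N) ^ d := one_le_pow₀ (by
    have : 1 ≤ V * L := by nlinarith
    nlinarith)
  calc _ ≤ (Bx 1 d H).card * (C0 * (V * L * N) ^ d) + (Bx 1 d H).card := add_le_add hB hA
    _ ≤ (Bx 1 d H).card * (C0 * (V * L * N) ^ d) + (Bx 1 d H).card * (V * L * N) ^ d := by
        have := mul_le_mul_of_nonneg_left hge hBc0
        linarith
    _ = _ := by ring

end Pool.Agent.TP975.RP
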