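import Mathlib
import Pool.Agent.TP975.RP.Wb4
import Pool.Agent.TP975.RP.Sj5

/-!
Weighted sums over an interval: the exceptional polynomials for one interval and one weight.
-/

set_option autoImplicit false

namespace Pool.Agent.TP975.RP

open Finset
open Pool.Agent.H373R2.T7

/-- the points of an interval -/
def rI {d : ℕ} (a : Fin (d + 1) → ℤ) (M : ℕ) (n : ℕ) : ℤ := rr 0 a ((M + n : ℕ) : ℤ)

lemma rI_upd {d : ℕ} (a : Fin (d + 1) → ℤ) (b : ℤ) (M : ℕ) : rI (Function.update a 0 b) M = rI a M := by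
  funext n
  unfold rI
  exact rr_upd _ _ _

lemma rI_Clb {d : ℕ} (a : Fin (d + 1) → ℤ) (M N w z : ℕ) (h : Ncp w z a) : Clb d N w z (rI a M) :=
  fun p hp h1 h2 b => roots_int d p hp a (h p hp h1 h2) b M N

open Classical in
/-- the transfer to the box -/
lemma box_trW (d H w z M N : ℕ) (ν : ℕ → ℝ) (η κ : ℝ) (hκ : 0 ≤ κ)
    (h : ∀ a : Fin (d + 1) → ℤ, Ncp w z a →
      ((((Icc (-(H : ℤ)) H).filter (fun b : ℤ => η * N < |Dw ν (rI a M) N w z b|)).card : ℕ) : ℝ) ≤ (2 * H + 1) * κ) :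
    ((((Bx 1 d H).filter (fun a => Ncp w z (a 0) ∧ η * N < |Dw ν (rI (a 0) M) N w z (a 0 0)|)).card : ℕ) : ℝ) ≤
      (Bx 1 d H).card * κ := by
  have key := fiber_tr d H (fun a => Ncp w z a ∧ η * N < |Dw ν (rI a M) N w z (a 0)|) κ (by
    intro a
    simp only [Ncp_upd, rI_upd, Function.update_self]
    by_cases hn : Ncp w z a
    · simp only [hn, true_and]
      rw [mul_comm κ]
      exact h a hn
    · simp only [hn, false_and, filter_false, card_empty, Nat.cast_zero]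
      positivity)
  convert key

/-- the difference between the von Mangoldt function and the model -/
noncomputable def gw {d : ℕ} (w M : ℕ) (a : Fin (d + 1) → ℤ) (n : ℕ) : ℝ :=
  ArithmeticFunction.vonMangoldt (ev a ((M + n : ℕ) : ℤ)).natAbs - lamz w (ev a ((M + n : ℕ) : ℤ)).natAbs

lemma gw_split {d : ℕ} (ν : ℕ → ℝ) (w w' z M N : ℕ) (a : Fin (d + 1) → ℤ) :
    ∑ n ∈ Icc 1 N, ν n * gw w M a n = ErW ν z M N a +
      (Dw (fun n => max (ν n) 0) (rI a M) N w' z (a 0) - Dw (fun n => max (-ν n) 0) (rI a M) N w' z (a 0)) +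
      (Dw (fun n => max (ν n) 0) (rI a M) N w w' (a 0) - Dw (fun n => max (-ν n) 0) (rI a M) N w w' (a 0)) := by
  unfold Dw Tw ErW gw rI hh
  simp only [← sum_sub_distrib, ← sum_add_distrib]
  refine sum_congr rfl fun n _ => ?_
  have e1 : ev a ((M + n : ℕ) : ℤ) = a 0 + rr 0 a ((M + n : ℕ) : ℤ) := by
    rw [ev_rr 0]
    simp
  have e2 : max (ν n) 0 - max (-ν n) 0 = ν n := by
    rcases le_total 0 (ν n) with h | h
    · rw [max_eq_left h, max_eq_right (by linarith)]; ring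
    · rw [max_eq_right h, max_eq_left (by linarith)]; ring
  rw [e1]
  have e3 : ∀ x : ℝ, ν n * x = max (ν n) 0 * x - max (-ν n) 0 * x := fun x => by rw [← sub_mul, e2]
  rw [e3, e3 (_ - lamz z _)]
  ring

open Classical in
theorem blkW (d A U B : ℕ) (hd : 2 ≤ d) : ∃ F c : ℕ, ∃ H0 : ℕ, ∀ H : ℕ, H0 ≤ H → ∃ z : ℕ, (z : ℝ) ≤ Real.log H ^ c ∧
    z ≤ H ∧ ∀ w : ℕ, Real.log (Real.log H) ^ (2 * B + 14) ≤ w → w ≤ ⌊√(Real.log H)⌋₊ → w ≤ z ∧
    ∀ M N : ℕ, 3 * Real.log H ≤ N → ((M + N : ℕ) : ℝ) ≤ Real.log H ^ A → ∀ ν : ℕ → ℝ, (∀ n, |ν n| ≤ 1) →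
    ((((Bx 1 d H).filter (fun a => Ncp w z (a 0) ∧ 5 / Real.log (Real.log H) ^ B * N <
      |∑ n ∈ Icc 1 N, ν n * gw w M (a 0) n|)).card : ℕ) : ℝ) ≤
      (Bx 1 d H).card * (Real.log (Real.log H) ^ F * (Real.log H / N) ^ d + 4 / Real.log H ^ U) := by
  obtain ⟨C, hC1, B1, hB1⟩ := momDW d A (by omega)
  set E : ℕ := B1 + 2 with hE
  obtain ⟨H1, h1⟩ := hB1 E
  obtain ⟨H2, h2⟩ := V_LL3 E
  obtain ⟨H3, h3⟩ := stg1W d E U B
  obtain ⟨H4, h4⟩ := stg2W d U B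
  obtain ⟨H5, h5⟩ := ll_ev (max 2 C)
  obtain ⟨H6, h6⟩ := Filter.eventually_atTop.1 (ev_log 4)
  obtain ⟨H7, h7⟩ := Filter.eventually_atTop.1 (ev_pow E 1)
  refine ⟨2 * d * B + 3 * d + 1, E, max (max (max H1 H2) (max H3 H4)) (max (max H5 H6) H7), fun H hH => ?_⟩
  have b0 := le_trans (le_max_left _ _) hH
  have b0' := le_trans (le_max_right _ _) hH
  have a5 := h5 H (le_trans (le_trans (le_max_left _ _) (le_max_left _ _)) b0')
  have a6 := h6 H (le_trans (le_trans (le_max_right _ _) (le_max_left _ _)) b0')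
  have a7 := h7 H (le_trans (le_max_right _ _) b0')
  have a1 := h1 H (le_trans (le_trans (le_max_left _ _) (le_max_left _ _)) b0)
  have a2 := h2 H (le_trans (le_trans (le_max_right _ _) (le_max_left _ _)) b0)
  have a3 := h3 H (le_trans (le_trans (le_max_left _ _) (le_max_right _ _)) b0)
  have a4 := h4 H (le_trans (le_trans (le_max_right _ _) (le_max_right _ _)) b0)
  set L := Real.log H with hL
  set LL := Real.log L with hLL
  have hLL2 : 2 ≤ LL := (le_max_left _ _).trans a5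
  have hLLC : C ≤ LL := (le_max_right _ _).trans a5
  have hLL0 : 0 < LL := by linarith
  have hLL1 : 1 ≤ LL := by linarith
  have hL0 : 0 < L := by linarith
  have hL1 : 1 ≤ L := by linarith
  set z : ℕ := ⌈L ^ (B1 + 1)⌉₊ with hz
  have hzl : L ^ (B1 + 1) ≤ z := Nat.le_ceil _
  have hzu : (z : ℝ) ≤ L ^ E := by
    have q1 : (z : ℝ) < L ^ (B1 + 1) + 1 := Nat.ceil_lt_add_one (by positivity)
    have q2 : 1 ≤ L ^ (B1 + 1) := one_le_pow₀ hL1
    have q3 : L ^ E = L ^ (B1 + 1) * L := by rw [hE, pow_succ]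
    rw [q3]
    nlinarith
  have hzB : L ^ B1 ≤ z := (pow_le_pow_right₀ hL1 (by omega)).trans hzl
  have hLz : L ≤ z := by
    refine le_trans ?_ hzl
    calc L = L ^ 1 := (pow_one L).symm
      _ ≤ L ^ (B1 + 1) := pow_le_pow_right₀ hL1 (by omega)
  have hzH : z ≤ H := by
    have : (z : ℝ) ≤ H := by linarith
    exact_mod_cast this
  have hsqL : √L ≤ L := by
    rw [Real.sqrt_le_left hL0.le]
    nlinarith
  have hw'z : ⌊√L⌋₊ ≤ z := by
    have : ((⌊√L⌋₊ : ℕ) : ℝ) ≤ z := (Nat.floor_le (Real.sqrt_nonneg _)).trans (hsqL.trans hLz)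
    exact_mod_cast this
  refine ⟨z, hzu, hzH, fun w hw1 hw2 => ⟨hw2.trans hw'z, fun M N hN hMN ν hν => ?_⟩⟩
  have hV := (a2 z hzu).1
  have hNr : (0 : ℝ) < N := by linarith
  have hBc0 : (0 : ℝ) ≤ (Bx 1 d H).card := Nat.cast_nonneg _
  have hmom := a1 z hzB hzu M N hN hMN ν hν
  set w' := ⌊√L⌋₊ with hw'
  set νp : ℕ → ℝ := fun n => max (ν n) 0 with hνp
  set νm : ℕ → ℝ := fun n => max (-ν n) 0 with hνm
  have hνp1 : ∀ n, 0 ≤ νp n ∧ νp n ≤ 1 := fun n => ⟨le_max_right _ _, max_le ((le_abs_self _).trans (hν n)) (by norm_num)⟩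
  have hνm1 : ∀ n, 0 ≤ νm n ∧ νm n ≤ 1 := fun n => ⟨le_max_right _ _, max_le ((neg_le_abs _).trans (hν n)) (by norm_num)⟩
  set S1 := (Bx 1 d H).filter (fun a => 1 / LL ^ B * N < |ErW ν z M N (a 0)|) with hS1
  set S2 := (Bx 1 d H).filter (fun a => Ncp w' z (a 0) ∧ 1 / LL ^ B * N < |Dw νp (rI (a 0) M) N w' z (a 0 0)|) with hS2
  set S3 := (Bx 1 d H).filter (fun a => Ncp w' z (a 0) ∧ 1 / LL ^ B * N < |Dw νm (rI (a 0) M) N w' z (a 0 0)|) with hS3
  set S4 := (Bx 1 d H).filter (fun a => Ncp w w' (a 0) ∧ 1 / LL ^ B * N < |Dw νp (rI (a 0) M) N w w' (a 0 0)|) with hS4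
  set S5 := (Bx 1 d H).filter (fun a => Ncp w w' (a 0) ∧ 1 / LL ^ B * N < |Dw νm (rI (a 0) M) N w w' (a 0 0)|) with hS5
  have hsub : (Bx 1 d H).filter (fun a => Ncp w z (a 0) ∧ 5 / LL ^ B * N <
      |∑ n ∈ Icc 1 N, ν n * gw w M (a 0) n|) ⊆ (((S1 ∪ S2) ∪ S3) ∪ S4) ∪ S5 := by
    intro a ha
    rw [mem_filter] at ha
    obtain ⟨haB, hnc, hgt⟩ := ha
    simp only [mem_union]
    by_contra hcon
    push Not at hcon
    obtain ⟨⟨⟨⟨c1, c2⟩, c3⟩, c4⟩, c5⟩ := hcon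
    have e1 : |ErW ν z M N (a 0)| ≤ 1 / LL ^ B * N := by
      by_contra hc
      exact c1 (mem_filter.2 ⟨haB, not_le.1 hc⟩)
    have e2 : |Dw νp (rI (a 0) M) N w' z (a 0 0)| ≤ 1 / LL ^ B * N := by
      by_contra hc
      exact c2 (mem_filter.2 ⟨haB, Ncp_mono hnc hw2 le_rfl, not_le.1 hc⟩)
    have e3 : |Dw νm (rI (a 0) M) N w' z (a 0 0)| ≤ 1 / LL ^ B * N := by
      by_contra hc
      exact c3 (mem_filter.2 ⟨haB, Ncp_mono hnc hw2 le_rfl, not_le.1 hc⟩)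
    have e4 : |Dw νp (rI (a 0) M) N w w' (a 0 0)| ≤ 1 / LL ^ B * N := by
      by_contra hc
      exact c4 (mem_filter.2 ⟨haB, Ncp_mono hnc le_rfl hw'z, not_le.1 hc⟩)
    have e5 : |Dw νm (rI (a 0) M) N w w' (a 0 0)| ≤ 1 / LL ^ B * N := by
      by_contra hc
      exact c5 (mem_filter.2 ⟨haB, Ncp_mono hnc le_rfl hw'z, not_le.1 hc⟩)
    rw [gw_split ν w w' z M N (a 0)] at hgt
    have e6 : 5 / LL ^ B * (N : ℝ) = 1 / LL ^ B * N + (1 / LL ^ B * N + 1 / LL ^ B * N) + (1 / LL ^ B * N + 1 / LL ^ B * N) := by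
      ring
    have e7 := abs_add_three (ErW ν z M N (a 0))
      (Dw νp (rI (a 0) M) N w' z (a 0 0) - Dw νm (rI (a 0) M) N w' z (a 0 0))
      (Dw νp (rI (a 0) M) N w w' (a 0 0) - Dw νm (rI (a 0) M) N w w' (a 0 0))
    have e8 := abs_sub (Dw νp (rI (a 0) M) N w' z (a 0 0)) (Dw νm (rI (a 0) M) N w' z (a 0 0))
    have e9 := abs_sub (Dw νp (rI (a 0) M) N w w' (a 0 0)) (Dw νm (rI (a 0) M) N w w' (a 0 0))
    rw [e6] at hgt
    linarith
  have hc1 : (S1.card : ℝ) ≤ (Bx 1 d H).card * (LL ^ (2 * d * B + 3 * d + 1) * (L / N) ^ d) := by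
    have q1 : (S1.card : ℝ) * (1 / LL ^ B * N) ^ (2 * d) ≤ (Bx 1 d H).card * (C * ((Vz z)⁻¹ * L * N) ^ d) := by
      refine le_trans ?_ hmom
      have hev : Even (2 * d) := even_two_mul d
      calc (S1.card : ℝ) * (1 / LL ^ B * N) ^ (2 * d) = ∑ a ∈ S1, (1 / LL ^ B * N) ^ (2 * d) := by
            rw [sum_const, nsmul_eq_mul]
        _ ≤ ∑ a ∈ S1, (ErW ν z M N (a 0)) ^ (2 * d) := by
            refine sum_le_sum fun a ha => ?_
            rw [hS1, mem_filter] at ha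
            rw [← hev.pow_abs (ErW ν z M N (a 0))]
            exact pow_le_pow_left₀ (by positivity) ha.2.le _
        _ ≤ _ := sum_le_sum_of_subset_of_nonneg (filter_subset _ _) (fun _ _ _ => hev.pow_nonneg _)
    have hp : 0 < (1 / LL ^ B * (N : ℝ)) ^ (2 * d) := by positivity
    apply le_of_mul_le_mul_right _ hp
    refine q1.trans ?_
    have q2 : C * ((Vz z)⁻¹ * L * N) ^ d ≤ LL * (LL ^ 3 * L * N) ^ d := by
      have hV1 := one_le_Vinv z
      apply mul_le_mul hLLC _ (by positivity) hLL0.le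
      apply pow_le_pow_left₀ (by positivity)
      have : 0 ≤ L * N := by positivity
      nlinarith
    have q3 : (LL ^ (2 * d * B + 3 * d + 1) * (L / N) ^ d) * (1 / LL ^ B * N) ^ (2 * d) = LL * (LL ^ 3 * L * N) ^ d := by
      have e1 : LL ^ (2 * d * B + 3 * d + 1) = (LL ^ B) ^ (2 * d) * ((LL ^ 3) ^ d * LL) := by
        rw [← pow_mul, ← pow_mul, ← pow_succ, ← pow_add]; congr 1; ring
      rw [e1, mul_pow (1 / LL ^ B), div_pow, div_pow, one_pow, mul_pow, mul_pow, pow_mul (N : ℝ) 2 d, ← pow_mul]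
      have hNd : (N : ℝ) ^ d ≠ 0 := by positivity
      have e2 : ((N : ℝ) ^ 2) ^ d = (N : ℝ) ^ d * (N : ℝ) ^ d := by rw [← mul_pow, sq]
      rw [e2]
      have hLp : (LL ^ B) ^ (2 * d) ≠ 0 := by positivity
      field_simp
    have q4 : ((Bx 1 d H).card : ℝ) * (LL ^ (2 * d * B + 3 * d + 1) * (L / N) ^ d) * (1 / LL ^ B * N) ^ (2 * d) =
        (Bx 1 d H).card * (LL * (LL ^ 3 * L * N) ^ d) := by rw [← q3]; ring
    rw [q4]
    exact mul_le_mul_of_nonneg_left q2 hBc0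
  have hLN : L ≤ N := by linarith
  have hc23 : ∀ μ : ℕ → ℝ, (∀ n, 0 ≤ μ n ∧ μ n ≤ 1) →
      ((((Bx 1 d H).filter (fun a => Ncp w' z (a 0) ∧ 1 / LL ^ B * N < |Dw μ (rI (a 0) M) N w' z (a 0 0)|)).card : ℕ) : ℝ) ≤
        (Bx 1 d H).card * (1 / L ^ U) := by
    intro μ hμ
    apply box_trW d H w' z M N μ (1 / LL ^ B) (1 / L ^ U) (by positivity)
    intro a hg
    have := a3 z hw'z hzu μ hμ (rI a M) N (rI_Clb a M N w' z hg) hLN
    refine this.trans (le_of_eq ?_)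
    ring
  have hc45 : ∀ μ : ℕ → ℝ, (∀ n, 0 ≤ μ n ∧ μ n ≤ 1) →
      ((((Bx 1 d H).filter (fun a => Ncp w w' (a 0) ∧ 1 / LL ^ B * N < |Dw μ (rI (a 0) M) N w w' (a 0 0)|)).card : ℕ) : ℝ) ≤
        (Bx 1 d H).card * (1 / L ^ U) := by
    intro μ hμ
    apply box_trW d H w w' M N μ (1 / LL ^ B) (1 / L ^ U) (by positivity)
    intro a hg
    have := a4 w hw1 hw2 μ hμ (rI a M) N (rI_Clb a M N w w' hg) hLN
    refine this.trans (le_of_eq ?_)
    ring
  have hc2 : (S2.card : ℝ) ≤ (Bx 1 d H).card * (1 / L ^ U) := hc23 νp hνp1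
  have hc3 : (S3.card : ℝ) ≤ (Bx 1 d H).card * (1 / L ^ U) := hc23 νm hνm1
  have hc4 : (S4.card : ℝ) ≤ (Bx 1 d H).card * (1 / L ^ U) := hc45 νp hνp1
  have hc5 : (S5.card : ℝ) ≤ (Bx 1 d H).card * (1 / L ^ U) := hc45 νm hνm1
  have hfin := (card_le_card hsub).trans (card_union_le _ _)
  have hfin2 := card_union_le ((S1 ∪ S2) ∪ S3) S4
  have hfin2' := card_union_le (S1 ∪ S2) S3
  have hfin2'' := card_union_le S1 S2
  have hfin3 : ((((Bx 1 d H).filter (fun a => Ncp w z (a 0) ∧ 5 / LL ^ B * N <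
      |∑ n ∈ Icc 1 N, ν n * gw w M (a 0) n|)).card : ℕ) : ℝ) ≤
      (S1.card : ℝ) + S2.card + S3.card + S4.card + S5.card := by
    have : ((Bx 1 d H).filter (fun a => Ncp w z (a 0) ∧ 5 / LL ^ B * N <
      |∑ n ∈ Icc 1 N, ν n * gw w M (a 0) n|)).card ≤ S1.card + S2.card + S3.card + S4.card + S5.card := by omega
    exact_mod_cast this
  refine hfin3.trans ?_
  calc (S1.card : ℝ) + S2.card + S3.card + S4.card + S5.card ≤
        (Bx 1 d H).card * (LL ^ (2 * d * B + 3 * d + 1) * (L / N) ^ d) +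
        (Bx 1 d H).card * (1 / L ^ U) + (Bx 1 d H).card * (1 / L ^ U) + (Bx 1 d H).card * (1 / L ^ U) +
        (Bx 1 d H).card * (1 / L ^ U) := by linarith
    _ = _ := by ring

end Pool.Agent.TP975.RP
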