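import Mathlib
import Pool.Agent.TP975.RP.Wb5
import Pool.Agent.TP975.LR.Lb2

/-!
Exponential sums over the prime values: the deterministic part.
-/

set_option autoImplicit false

namespace Pool.Agent.TP975.RP

open Finset
open Pool.Agent.H373R2.T7
open Pool.Agent.H807R2.Dav
open Pool.Agent.TP975.LR

/-- the difference between the von Mangoldt function and the model at an argument -/
noncomputable def gv {d : ℕ} (w : ℕ) (a : Fin (d + 1) → ℤ) (m : ℕ) : ℝ :=
  ArithmeticFunction.vonMangoldt (ev a (m : ℤ)).natAbs - lamz w (ev a (m : ℤ)).natAbs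

lemma gw_gv {d : ℕ} (w M : ℕ) (a : Fin (d + 1) → ℤ) (n : ℕ) : gw w M a n = gv w a (M + n) := rfl

/-- a block of length `y` -/
lemma ioc_icc {α : Type} [AddCommMonoid α] (x : ℕ → α) (j y : ℕ) :
    ∑ m ∈ Ioc (j * y) ((j + 1) * y), x m = ∑ u ∈ Icc 1 y, x (j * y + u) := by
  have e0 : (j + 1) * y = j * y + y := by ring
  rw [e0]
  refine sum_nbij' (fun m => m - j * y) (fun u => j * y + u) ?_ ?_ ?_ ?_ ?_
  · intro m hm; rw [mem_Ioc] at hm; rw [mem_Icc]; omega
  · intro u hu; rw [mem_Icc] at hu; rw [mem_Ioc]; omega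
  · intro m hm; rw [mem_Ioc] at hm; show j * y + (m - j * y) = m; omega
  · intro u _; show j * y + u - j * y = u; omega
  · intro m hm
    rw [mem_Ioc] at hm
    congr 1
    omega

/-- a sum over an interval by the sums over the blocks, unbounded terms -/
lemma blocks2 (x : ℕ → ℂ) (y M N : ℕ) (hy : 1 ≤ y) (b W : ℝ) (hb0 : 0 ≤ b)
    (hb : ∀ j, j * y ≤ M + N → ‖∑ m ∈ Ioc (j * y) ((j + 1) * y), x m‖ ≤ b)
    (hW : ∀ j, j * y ≤ M + N → ∑ m ∈ Ioc (j * y) ((j + 1) * y), ‖x m‖ ≤ W) :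
    ‖∑ m ∈ Ioc M (M + N), x m‖ ≤ ((N : ℝ) / y + 1) * b + 2 * W := by
  have hy0 : (0 : ℝ) < y := by exact_mod_cast hy
  set j0 := M / y with hj0
  set j1 := (M + N) / y with hj1
  have a1 : j0 * y ≤ M := Nat.div_mul_le_self _ _
  have a2 : M < j0 * y + y := Nat.lt_div_mul_add (by omega)
  have a3 : j1 * y ≤ M + N := Nat.div_mul_le_self _ _
  have a4 : M + N < j1 * y + y := Nat.lt_div_mul_add (by omega)
  have hj : j0 ≤ j1 := Nat.div_le_div_right (by omega)
  have hmid : ∀ n : ℕ, j0 + n ≤ j1 → ‖∑ m ∈ Ioc (j0 * y) ((j0 + n) * y), x m‖ ≤ n * b := by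
    intro n
    induction n with
    | zero => intro _; simp
    | succ n ih =>
      intro hn
      have h1 := ih (by omega)
      have h2 := sum_Ioc_consecutive x (show j0 * y ≤ (j0 + n) * y from Nat.mul_le_mul_right y (by omega))
        (show (j0 + n) * y ≤ (j0 + n + 1) * y from Nat.mul_le_mul_right y (by omega))
      rw [show j0 + (n + 1) = j0 + n + 1 from by ring, ← h2]
      refine (norm_add_le _ _).trans ?_
      have h3 := hb (j0 + n) ((Nat.mul_le_mul_right y (by omega : j0 + n ≤ j1)).trans a3)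
      push_cast
      linarith
  have h1 := hmid (j1 - j0) (by omega)
  rw [show j0 + (j1 - j0) = j1 from by omega] at h1
  have h6 : ((j1 - j0 : ℕ) : ℝ) ≤ N / y + 1 := by
    have h7 : (j1 - j0) * y ≤ N + y := by
      rw [Nat.sub_mul]; omega
    have h8 : ((j1 - j0 : ℕ) : ℝ) * y ≤ N + y := by exact_mod_cast h7
    have h9 : (N : ℝ) / y + 1 = (N + y) / y := by field_simp
    rw [h9, le_div_iff₀ hy0]
    exact h8
  have hleft : ‖∑ m ∈ Ioc (j0 * y) M, x m‖ ≤ W := by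
    refine (norm_sum_le _ _).trans (le_trans ?_ (hW j0 (by omega)))
    apply sum_le_sum_of_subset_of_nonneg
    · intro m hm
      rw [mem_Ioc] at hm ⊢
      have : (j0 + 1) * y = j0 * y + y := by ring
      omega
    · intro _ _ _; exact norm_nonneg _
  have hright : ‖∑ m ∈ Ioc (j1 * y) (M + N), x m‖ ≤ W := by
    refine (norm_sum_le _ _).trans (le_trans ?_ (hW j1 a3))
    apply sum_le_sum_of_subset_of_nonneg
    · intro m hm
      rw [mem_Ioc] at hm ⊢
      have : (j1 + 1) * y = j1 * y + y := by ring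
      omega
    · intro _ _ _; exact norm_nonneg _
  have e1 := sum_Ioc_consecutive x a1 (Nat.le_add_right M N)
  have e2 := sum_Ioc_consecutive x (Nat.mul_le_mul_right y hj) a3
  have e3 : ∑ m ∈ Ioc M (M + N), x m = ∑ m ∈ Ioc (j0 * y) (j1 * y), x m + ∑ m ∈ Ioc (j1 * y) (M + N), x m -
      ∑ m ∈ Ioc (j0 * y) M, x m := by
    rw [e2, ← e1]; ring
  rw [e3]
  refine (norm_sub_le _ _).trans ?_
  have e4 := norm_add_le (∑ m ∈ Ioc (j0 * y) (j1 * y), x m) (∑ m ∈ Ioc (j1 * y) (M + N), x m)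
  have e5 := mul_le_mul_of_nonneg_right h6 hb0
  linarith

open Polynomial in
/-- one block with a phase -/
lemma block_ph (x : ℕ → ℝ) (s G y : ℕ) (hG : 1 ≤ G) (hy : 1 ≤ y) (g : ℝ[X]) (hg : g.natDegree ≤ s) (β W : ℝ)
    (hW : ∑ u ∈ Icc 1 y, |x u| ≤ W)
    (h : ∀ c ∈ netI s G y, ∀ b, |∑ u ∈ Icc 1 y, netW s G y c b u * x u| ≤ β) :
    ‖∑ u ∈ Icc 1 y, ee (g.eval (u : ℝ)) * ((x u : ℝ) : ℂ)‖ ≤ 7 * s / G * W + 2 * β := by
  obtain ⟨c, hc, hca⟩ := net_approx s G y hG hy (fun i => g.coeff i)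
  have hGr : (0 : ℝ) < G := by exact_mod_cast hG
  have h1 : ∀ u : ℕ, g.eval (u : ℝ) = ∑ i ∈ range (s + 1), g.coeff i * (u : ℝ) ^ i := by
    intro u
    exact eval_eq_sum_range' (by omega) _
  have h2 : ∑ u ∈ Icc 1 y, ee (g.eval (u : ℝ)) * ((x u : ℝ) : ℂ) =
      ∑ u ∈ Icc 1 y, (ee (g.eval (u : ℝ)) - ee (g.coeff 0) * ee (netPh s G y c u)) * ((x u : ℝ) : ℂ) +
      ee (g.coeff 0) * ∑ u ∈ Icc 1 y, ee (netPh s G y c u) * ((x u : ℝ) : ℂ) := by
    rw [mul_sum, ← sum_add_distrib]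
    refine sum_congr rfl fun u _ => ?_
    ring
  rw [h2]
  refine (norm_add_le _ _).trans ?_
  have h3 : ‖∑ u ∈ Icc 1 y, (ee (g.eval (u : ℝ)) - ee (g.coeff 0) * ee (netPh s G y c u)) * ((x u : ℝ) : ℂ)‖ ≤
      7 * s / G * W := by
    refine (norm_sum_le _ _).trans ?_
    calc ∑ u ∈ Icc 1 y, ‖(ee (g.eval (u : ℝ)) - ee (g.coeff 0) * ee (netPh s G y c u)) * ((x u : ℝ) : ℂ)‖ ≤
        ∑ u ∈ Icc 1 y, (7 * s / G : ℝ) * |x u| := by
          refine sum_le_sum fun u hu => ?_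
          rw [norm_mul, Complex.norm_real, Real.norm_eq_abs]
          have h4 := hca u hu
          rw [← h1 u] at h4
          exact mul_le_mul_of_nonneg_right h4 (abs_nonneg _)
      _ = (7 * s / G : ℝ) * ∑ u ∈ Icc 1 y, |x u| := (mul_sum _ _ _).symm
      _ ≤ _ := mul_le_mul_of_nonneg_left hW (by positivity)
  have h4 : ‖ee (g.coeff 0) * ∑ u ∈ Icc 1 y, ee (netPh s G y c u) * ((x u : ℝ) : ℂ)‖ ≤ 2 * β := by
    rw [norm_mul, norm_ee, one_mul]
    refine (Complex.norm_le_abs_re_add_abs_im _).trans ?_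
    have e1 : (∑ u ∈ Icc 1 y, ee (netPh s G y c u) * ((x u : ℝ) : ℂ)).re =
        ∑ u ∈ Icc 1 y, netW s G y c true u * x u := by
      unfold netW
      rw [Complex.re_sum]
      refine sum_congr rfl fun u _ => ?_
      rw [Complex.re_mul_ofReal, if_pos rfl]
    have e2 : (∑ u ∈ Icc 1 y, ee (netPh s G y c u) * ((x u : ℝ) : ℂ)).im =
        ∑ u ∈ Icc 1 y, netW s G y c false u * x u := by
      unfold netW
      rw [Complex.im_sum]
      refine sum_congr rfl fun u _ => ?_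
      rw [Complex.im_mul_ofReal, if_neg (by decide)]
    rw [e1, e2]
    have := h c hc true
    have := h c hc false
    linarith
  linarith

/-- the trivial weight of the net -/
lemma netW_zero (s G y : ℕ) (u : ℕ) : netW s G y (fun _ => 0) true u = 1 := by
  unfold netW netPh
  simp [ee_zero]

lemma zero_mem_netI (s G y : ℕ) (hG : 1 ≤ G) (hy : 1 ≤ y) : (fun _ => 0) ∈ netI s G y := by
  unfold netI
  rw [Fintype.mem_piFinset]
  intro i
  rw [mem_range]
  exact Nat.mul_pos hG (Nat.pow_pos hy)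

open Polynomial in
/-- the sum over an interval -/
lemma good_sum {d : ℕ} (a : Fin (d + 1) → ℤ) (w s G y M N : ℕ) (hG : 1 ≤ G) (hy : 1 ≤ y) (hyN : y ≤ N) (L η β V : ℝ)
    (hV : (Vz w)⁻¹ ≤ V) (hV1 : 1 ≤ V) (hβ0 : 0 ≤ β) (hβ1 : β ≤ 1) (hη : 0 ≤ η)
    (h : ∀ j, j * y ≤ M + N → ∀ c ∈ netI s G y, ∀ b, |∑ u ∈ Icc 1 y, netW s G y c b u * gv w a (j * y + u)| ≤ β * y)
    (hP : ∀ m, 1 ≤ m → m ≤ M + N → |L * (if (ev a (m : ℤ)).natAbs.Prime then 1 else 0) -
      ArithmeticFunction.vonMangoldt (ev a (m : ℤ)).natAbs| ≤ η * ArithmeticFunction.vonMangoldt (ev a (m : ℤ)).natAbs)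
    (g : ℝ[X]) (hg : g.natDegree ≤ s) :
    ‖∑ m ∈ Ioc M (M + N), ee (g.eval (m : ℝ)) * ((L * (if (ev a (m : ℤ)).natAbs.Prime then 1 else 0) -
      lamz w (ev a (m : ℤ)).natAbs : ℝ) : ℂ)‖ ≤
      2 * ((N : ℝ) / y) * (7 * s / G * (3 * V * y) + 2 * (β * y)) + 6 * V * y + η * (16 * V * N) := by
  have hy0 : (0 : ℝ) < y := by exact_mod_cast hy
  have hGr : (0 : ℝ) < G := by exact_mod_cast hG
  have hyNr : (y : ℝ) ≤ N := by exact_mod_cast hyN
  -- absolute sums over blocks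
  have hblk : ∀ j, j * y ≤ M + N → ∑ u ∈ Icc 1 y, gv w a (j * y + u) ≤ β * y := by
    intro j hj
    have h1 := h j hj _ (zero_mem_netI s G y hG hy) true
    simp only [netW_zero, one_mul] at h1
    exact (le_abs_self _).trans h1
  have hlam : ∀ m : ℕ, 0 ≤ lamz w (ev a (m : ℤ)).natAbs ∧ lamz w (ev a (m : ℤ)).natAbs ≤ V := fun m =>
    ⟨lamz_nonneg _ _, (lamz_le _ _).trans hV⟩
  have hvM : ∀ m : ℕ, 0 ≤ ArithmeticFunction.vonMangoldt (ev a (m : ℤ)).natAbs := fun m =>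
    ArithmeticFunction.vonMangoldt_nonneg
  have hW : ∀ j, j * y ≤ M + N → ∑ u ∈ Icc 1 y, |gv w a (j * y + u)| ≤ 3 * V * y := by
    intro j hj
    have h1 := hblk j hj
    have h2 : ∑ u ∈ Icc 1 y, |gv w a (j * y + u)| ≤ ∑ u ∈ Icc 1 y, (gv w a (j * y + u) + 2 * V) := by
      refine sum_le_sum fun u _ => ?_
      have h3 := hlam (j * y + u)
      have h4 := hvM (j * y + u)
      unfold gv
      rw [abs_le]
      constructor <;> linarith
    rw [sum_add_distrib, sum_const, Nat.card_Icc, Nat.add_sub_cancel, nsmul_eq_mul] at h2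
    have h5 : β * y ≤ 1 * y := mul_le_mul_of_nonneg_right hβ1 hy0.le
    have h6 : (1 : ℝ) * y ≤ V * y := mul_le_mul_of_nonneg_right hV1 hy0.le
    linarith
  have hL : ∀ j, j * y ≤ M + N → ∑ u ∈ Icc 1 y, ArithmeticFunction.vonMangoldt (ev a ((j * y + u : ℕ) : ℤ)).natAbs ≤ 4 * V * y := by
    intro j hj
    have h1 := hblk j hj
    have h2 : ∑ u ∈ Icc 1 y, ArithmeticFunction.vonMangoldt (ev a ((j * y + u : ℕ) : ℤ)).natAbs ≤
        ∑ u ∈ Icc 1 y, (gv w a (j * y + u) + V) := by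
      refine sum_le_sum fun u _ => ?_
      have h3 := hlam (j * y + u)
      unfold gv
      linarith
    rw [sum_add_distrib, sum_const, Nat.card_Icc, Nat.add_sub_cancel, nsmul_eq_mul] at h2
    have h5 : β * y ≤ 1 * y := mul_le_mul_of_nonneg_right hβ1 hy0.le
    have h6 : (1 : ℝ) * y ≤ V * y := mul_le_mul_of_nonneg_right hV1 hy0.le
    have h7 : 0 ≤ V * y := by positivity
    linarith
  -- the sum with the von Mangoldt function
  have h1 : ‖∑ m ∈ Ioc M (M + N), ee (g.eval (m : ℝ)) * ((gv w a m : ℝ) : ℂ)‖ ≤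
      ((N : ℝ) / y + 1) * (7 * s / G * (3 * V * y) + 2 * (β * y)) + 2 * (3 * V * y) := by
    apply blocks2 _ y M N hy _ _ (by positivity)
    · intro j hj
      rw [ioc_icc]
      have e1 : ∑ u ∈ Icc 1 y, ee (g.eval ((j * y + u : ℕ) : ℝ)) * ((gv w a (j * y + u) : ℝ) : ℂ) =
          ∑ u ∈ Icc 1 y, ee ((g.comp (X + C ((j * y : ℕ) : ℝ))).eval (u : ℝ)) * ((gv w a (j * y + u) : ℝ) : ℂ) := by
        refine sum_congr rfl fun u _ => ?_
        congr 2
        rw [eval_comp]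
        simp only [eval_add, eval_X, eval_C]
        congr 1
        push_cast
        ring
      rw [e1]
      refine block_ph (fun u => gv w a (j * y + u)) s G y hG hy _ ?_ _ _ (hW j hj) (h j hj)
      refine natDegree_comp_le.trans ?_
      have h4 : (X + C ((j * y : ℕ) : ℝ) : ℝ[X]).natDegree = 1 := natDegree_X_add_C _
      rw [h4]
      omega
    · intro j hj
      rw [ioc_icc]
      refine le_trans (le_of_eq ?_) (hW j hj)
      refine sum_congr rfl fun u _ => ?_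
      rw [norm_mul, norm_ee, one_mul, Complex.norm_real, Real.norm_eq_abs]
  -- the difference
  have h2 : ‖∑ m ∈ Ioc M (M + N), ee (g.eval (m : ℝ)) * ((L * (if (ev a (m : ℤ)).natAbs.Prime then 1 else 0) -
      ArithmeticFunction.vonMangoldt (ev a (m : ℤ)).natAbs : ℝ) : ℂ)‖ ≤ η * (16 * V * N) := by
    have h3 : ∑ m ∈ Ioc M (M + N), ArithmeticFunction.vonMangoldt (ev a (m : ℤ)).natAbs ≤ 16 * V * N := by
      have h4 := blocks2 (fun m => ((ArithmeticFunction.vonMangoldt (ev a (m : ℤ)).natAbs : ℝ) : ℂ)) y M N hy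
        (4 * V * y) (4 * V * y) (by positivity) (by
        intro j hj
        rw [ioc_icc, ← Complex.ofReal_sum, Complex.norm_real, Real.norm_of_nonneg (sum_nonneg fun _ _ => hvM _)]
        exact hL j hj) (by
        intro j hj
        rw [ioc_icc]
        refine le_trans (le_of_eq ?_) (hL j hj)
        refine sum_congr rfl fun u _ => ?_
        rw [Complex.norm_real, Real.norm_of_nonneg (hvM _)])
      rw [← Complex.ofReal_sum, Complex.norm_real, Real.norm_of_nonneg (sum_nonneg fun _ _ => hvM _)] at h4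
      refine h4.trans ?_
      have h5 : ((N : ℝ) / y + 1) * (4 * V * y) = 4 * V * N + 4 * V * y := by field_simp
      rw [h5]
      have h6 : V * (y : ℝ) ≤ V * N := mul_le_mul_of_nonneg_left hyNr (by linarith)
      have h7 : 0 ≤ V * (N : ℝ) := by positivity
      linarith
    refine (norm_sum_le _ _).trans ?_
    calc ∑ m ∈ Ioc M (M + N), ‖ee (g.eval (m : ℝ)) * ((L * (if (ev a (m : ℤ)).natAbs.Prime then 1 else 0) -
        ArithmeticFunction.vonMangoldt (ev a (m : ℤ)).natAbs : ℝ) : ℂ)‖ ≤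
        ∑ m ∈ Ioc M (M + N), η * ArithmeticFunction.vonMangoldt (ev a (m : ℤ)).natAbs := by
          refine sum_le_sum fun m hm => ?_
          rw [mem_Ioc] at hm
          rw [norm_mul, norm_ee, one_mul, Complex.norm_real, Real.norm_eq_abs]
          exact hP m (by omega) hm.2
      _ = η * ∑ m ∈ Ioc M (M + N), ArithmeticFunction.vonMangoldt (ev a (m : ℤ)).natAbs := (mul_sum _ _ _).symm
      _ ≤ _ := mul_le_mul_of_nonneg_left h3 hη
  have e3 : ∑ m ∈ Ioc M (M + N), ee (g.eval (m : ℝ)) * ((L * (if (ev a (m : ℤ)).natAbs.Prime then 1 else 0) -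
      lamz w (ev a (m : ℤ)).natAbs : ℝ) : ℂ) =
      ∑ m ∈ Ioc M (M + N), ee (g.eval (m : ℝ)) * ((gv w a m : ℝ) : ℂ) +
      ∑ m ∈ Ioc M (M + N), ee (g.eval (m : ℝ)) * ((L * (if (ev a (m : ℤ)).natAbs.Prime then 1 else 0) -
        ArithmeticFunction.vonMangoldt (ev a (m : ℤ)).natAbs : ℝ) : ℂ) := by
    rw [← sum_add_distrib]
    refine sum_congr rfl fun m _ => ?_
    rw [← mul_add, ← Complex.ofReal_add]
    congr 2
    unfold gv
    ring
  rw [e3]
  refine (norm_add_le _ _).trans (add_le_add (h1.trans ?_) h2)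
  have h8 : (1 : ℝ) ≤ N / y := by rw [le_div_iff₀ hy0]; linarith
  have h9 : 0 ≤ 7 * s / G * (3 * V * y) + 2 * (β * y) := by positivity
  have h10 : ((N : ℝ) / y + 1) * (7 * s / G * (3 * V * y) + 2 * (β * y)) ≤
      2 * ((N : ℝ) / y) * (7 * s / G * (3 * V * y) + 2 * (β * y)) :=
    mul_le_mul_of_nonneg_right (by linarith) h9
  linarith

end Pool.Agent.TP975.RP
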