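import Mathlib
import Pool.Agent.TP975.RP.Wb6

/-!
Exponential sums over the prime values: numerical lemmas.
-/

set_option autoImplicit false

namespace Pool.Agent.TP975.RP

open Finset
open Pool.Agent.H373R2.T7

/-- the logarithm of a prime value -/
lemma ptw (y Y : ℕ) (L η : ℝ) (hL : 0 ≤ L) (hη0 : 0 ≤ η) (hη : η ≤ 1 / 2) (hy : (1 - η) * L ≤ Real.log (y + 1))
    (hY : Real.log Y ≤ (1 + η) * L) (v : ℤ) (hv : |v| ≤ Y) (hb : v ∉ badS y Y) :
    |L * (if v.natAbs.Prime then 1 else 0) - ArithmeticFunction.vonMangoldt v.natAbs| ≤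
      2 * η * ArithmeticFunction.vonMangoldt v.natAbs := by
  obtain ⟨h1, h2⟩ := not_badS y Y v hb hv
  by_cases hp : v.natAbs.Prime
  · rw [if_pos hp, mul_one, ArithmeticFunction.vonMangoldt_apply_prime hp]
    have h5 : (v.natAbs : ℤ) = |v| := Int.natCast_natAbs _
    set n := v.natAbs with hn
    have h7 : y + 1 ≤ n := by omega
    have h8 : n ≤ Y := by omega
    have h7r : (y : ℝ) + 1 ≤ n := by exact_mod_cast h7
    have h8r : (n : ℝ) ≤ Y := by exact_mod_cast h8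
    have hy0 : (0 : ℝ) < (y : ℝ) + 1 := by positivity
    have h9 := hy.trans (Real.log_le_log hy0 h7r)
    have h10 := (Real.log_le_log (by linarith) h8r).trans hY
    have h11 : η * L ≤ 2 * η * Real.log n := by nlinarith
    rw [abs_le]
    constructor <;> linarith
  · rw [if_neg hp, mul_zero, ArithmeticFunction.vonMangoldt_apply, if_neg (fun h => hp (h2 h))]
    simp

/-- the number of blocks of a scale -/
noncomputable def xw (d s : ℕ) (L ε T : ℝ) (k : ℕ) : ℝ :=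
  (2 * T) ^ (d + 1 - s) * ((2 : ℝ) ^ k) ^ (d - s) / L ^ ((d : ℝ) + ε)

lemma scaleW (d s A : ℕ) (L ε T : ℝ) (M N : ℕ) (hs : s < d) (hε : 0 < ε) (hL : 1 ≤ L) (hT : 1 ≤ T)
    (hTL : 6 * T ≤ L ^ (ε / d)) (hN : 1 ≤ N) (hA : ((M + N : ℕ) : ℝ) ≤ L ^ A)
    (hc : ((M + N : ℕ) : ℝ) * (N : ℝ) ^ s * L ^ ((d : ℝ) + ε) ≤ (N : ℝ) ^ (d + 1)) : ∃ k : ℕ, 3 * L ≤ 2 ^ k ∧ T * 2 ^ k ≤ N ∧
    (N : ℝ) < 2 * T * 2 ^ k ∧ (2 : ℝ) ^ k ≤ L ^ A ∧ 1 ≤ xw d s L ε T k ∧ ((M + N : ℕ) : ℝ) ≤ xw d s L ε T k * 2 ^ k := by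
  have hL0 : 0 < L := by linarith
  have hT0 : 0 < T := by linarith
  have hd0 : (0 : ℝ) < d := by
    have : 0 < d := by omega
    exact_mod_cast this
  have hNr : (1 : ℝ) ≤ N := by exact_mod_cast hN
  have hN0 : (0 : ℝ) < N := by linarith
  have hNM : (N : ℝ) ≤ ((M + N : ℕ) : ℝ) := by exact_mod_cast Nat.le_add_left N M
  have hLd : 0 < L ^ ((d : ℝ) + ε) := by positivity
  have hNs : 0 < (N : ℝ) ^ s := by positivity
  -- `M + N` is at most `N ^ (d + 1 - s) / L ^ (d + ε)`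
  have hc2 : ((M + N : ℕ) : ℝ) * L ^ ((d : ℝ) + ε) ≤ (N : ℝ) ^ (d + 1 - s) := by
    have e : (N : ℝ) ^ (d + 1) = (N : ℝ) ^ (d + 1 - s) * (N : ℝ) ^ s := by
      rw [← pow_add]; congr 1; omega
    rw [e] at hc
    apply le_of_mul_le_mul_right _ hNs
    calc ((M + N : ℕ) : ℝ) * L ^ ((d : ℝ) + ε) * (N : ℝ) ^ s = ((M + N : ℕ) : ℝ) * (N : ℝ) ^ s * L ^ ((d : ℝ) + ε) := by ring
      _ ≤ _ := hc
  have hc3 : L ^ ((d : ℝ) + ε) ≤ (N : ℝ) ^ (d - s) := by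
    have e : (N : ℝ) ^ (d + 1 - s) = (N : ℝ) * (N : ℝ) ^ (d - s) := by
      rw [← pow_succ']; congr 1; omega
    rw [e] at hc2
    apply le_of_mul_le_mul_left _ hN0
    refine le_trans ?_ hc2
    exact mul_le_mul_of_nonneg_right hNM hLd.le
  have hNL : L * L ^ (ε / d) ≤ N := by
    have h1 : (L * L ^ (ε / d)) ^ d ≤ (N : ℝ) ^ d := by
      have h2 : (L * L ^ (ε / d)) ^ d = L ^ ((d : ℝ) + ε) := by
        rw [mul_pow, ← Real.rpow_natCast (L ^ (ε / d)), ← Real.rpow_mul hL0.le, div_mul_cancel₀ _ hd0.ne',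
          ← Real.rpow_natCast L d, ← Real.rpow_add hL0]
      rw [h2]
      exact hc3.trans (pow_le_pow_right₀ hNr (by omega))
    exact le_of_pow_le_pow_left₀ (by omega) hN0.le h1
  have hN6 : 6 * T * L ≤ N := by
    refine le_trans ?_ hNL
    rw [mul_comm L]
    exact mul_le_mul_of_nonneg_right hTL hL0.le
  -- the scale
  have hNT : 1 ≤ (N : ℝ) / T := by rw [le_div_iff₀ hT0]; nlinarith
  obtain ⟨k, hk1, hk2⟩ := exists_nat_pow_near hNT (show (1 : ℝ) < 2 by norm_num)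
  have h2k : (0 : ℝ) < 2 ^ k := by positivity
  have k1 : T * 2 ^ k ≤ N := by
    rw [le_div_iff₀ hT0] at hk1
    linarith
  have k2 : (N : ℝ) < 2 * T * 2 ^ k := by
    rw [div_lt_iff₀ hT0, pow_succ] at hk2
    linarith
  have k3 : 3 * L ≤ 2 ^ k := by
    by_contra hcon
    push Not at hcon
    have : (N : ℝ) < 2 * T * (3 * L) := lt_of_lt_of_le k2 (mul_le_mul_of_nonneg_left hcon.le (by positivity))
    nlinarith
  have k4 : (2 : ℝ) ^ k ≤ N := by nlinarith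
  have k5 : ((M + N : ℕ) : ℝ) ≤ xw d s L ε T k * 2 ^ k := by
    have h1 : (N : ℝ) ^ (d + 1 - s) ≤ (2 * T * 2 ^ k) ^ (d + 1 - s) := pow_le_pow_left₀ hN0.le k2.le _
    have h2 : xw d s L ε T k * 2 ^ k = (2 * T * 2 ^ k) ^ (d + 1 - s) / L ^ ((d : ℝ) + ε) := by
      unfold xw
      have e : ((2 : ℝ) ^ k) ^ (d + 1 - s) = ((2 : ℝ) ^ k) ^ (d - s) * 2 ^ k := by
        rw [← pow_succ]; congr 1; omega
      rw [mul_pow (2 * T), e]
      ring
    rw [h2, le_div_iff₀ hLd]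
    exact hc2.trans h1
  refine ⟨k, k3, k1, k2, k4.trans (hNM.trans hA), ?_, k5⟩
  have h3 : 1 * (2 : ℝ) ^ k ≤ xw d s L ε T k * 2 ^ k := by
    rw [one_mul]
    exact k4.trans (hNM.trans k5)
  exact le_of_mul_le_mul_right h3 h2k

/-- the numerical bound for the union -/
lemma ubW (d s s' A F B : ℕ) (L ε LL : ℝ) (G : ℕ) (hs : s < d) (hL1 : 1 ≤ L) (hε : 0 < ε) (hLL : 16 ≤ LL) (k : ℕ)
    (hk : (2 : ℝ) ^ k ≤ L ^ A) (hG : (G : ℝ) ≤ 2 * LL ^ (B + 4)) (h1 : 1 ≤ xw d s L ε (LL ^ (B + 4)) k)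
    (hbig : LL ^ (F + (B + 5) * (d + 1 + s') + 2 * B + 8) ≤ L ^ (min ε 1)) :
    ((⌊xw d s L ε (LL ^ (B + 4)) k⌋₊ + 1 : ℕ) : ℝ) * (((G : ℝ) ^ s' * ((2 : ℝ) ^ k) ^ s) * (2 *
      (LL ^ F * (L / 2 ^ k) ^ d + 4 / L ^ (A * d + 1)))) ≤ 1 / (4 * LL ^ (B + 2)) := by
  have hL0 : 0 < L := by linarith
  have hLL0 : 0 < LL := by linarith
  have hLL1 : 1 ≤ LL := by linarith
  set T := LL ^ (B + 4) with hT
  have hT1 : 1 ≤ T := one_le_pow₀ hLL1
  have hT0 : 0 < T := by linarith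
  set y : ℝ := 2 ^ k with hy
  have hy0 : 0 < y := by positivity
  have hy1 : 1 ≤ y := one_le_pow₀ (by norm_num)
  set x := xw d s L ε T k with hx
  have hG0 : (0 : ℝ) ≤ G := Nat.cast_nonneg _
  have h2 : ((⌊x⌋₊ + 1 : ℕ) : ℝ) ≤ 2 * x := by
    have : (⌊x⌋₊ : ℝ) ≤ x := Nat.floor_le (by linarith)
    push_cast
    linarith
  have hLd : 0 < L ^ ((d : ℝ) + ε) := by positivity
  have hGs : (G : ℝ) ^ s' ≤ (2 * T) ^ s' := pow_le_pow_left₀ hG0 hG _
  have hTT : (2 * T) ≤ LL ^ (B + 5) := by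
    have e : LL ^ (B + 5) = LL * T := by rw [hT]; ring
    rw [e]
    exact mul_le_mul_of_nonneg_right (by linarith) hT0.le
  have hT2 : (1 : ℝ) ≤ 2 * T := by linarith
  have hTd : (2 * T) ^ (d + 1 - s) * (2 * T) ^ s' ≤ LL ^ ((B + 5) * (d + 1 + s')) := by
    rw [← pow_add]
    calc (2 * T) ^ (d + 1 - s + s') ≤ (2 * T) ^ (d + 1 + s') := pow_le_pow_right₀ hT2 (by omega)
      _ ≤ (LL ^ (B + 5)) ^ (d + 1 + s') := pow_le_pow_left₀ (by positivity) hTT _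
      _ = _ := by rw [← pow_mul]
  set Q := LL ^ ((B + 5) * (d + 1 + s')) with hQ
  have hQ0 : 0 < Q := by positivity
  -- first part
  have p1 : x * ((G : ℝ) ^ s' * y ^ s) * (LL ^ F * (L / y) ^ d) ≤ Q * LL ^ F / L ^ ε := by
    have e1 : x * ((G : ℝ) ^ s' * y ^ s) * (LL ^ F * (L / y) ^ d) =
        ((2 * T) ^ (d + 1 - s) * (G : ℝ) ^ s') * LL ^ F / L ^ ε := by
      rw [hx]
      unfold xw
      rw [← hy, Real.rpow_add hL0, Real.rpow_natCast, div_pow]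
      have e2 : y ^ d = y ^ (d - s) * y ^ s := by rw [← pow_add]; congr 1; omega
      rw [e2]
      have hLe : L ^ ε ≠ 0 := by positivity
      field_simp
    rw [e1]
    apply div_le_div_of_nonneg_right _ (by positivity)
    apply mul_le_mul_of_nonneg_right _ (by positivity)
    exact (mul_le_mul_of_nonneg_left hGs (by positivity)).trans hTd
  -- second part
  have p2 : x * ((G : ℝ) ^ s' * y ^ s) * (4 / L ^ (A * d + 1)) ≤ 4 * Q / L := by
    have e1 : x * ((G : ℝ) ^ s' * y ^ s) ≤ Q * L ^ (A * d) := by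
      have q1 : x ≤ (2 * T) ^ (d + 1 - s) * y ^ (d - s) := by
        rw [hx]
        unfold xw
        rw [div_le_iff₀ hLd]
        have : 1 ≤ L ^ ((d : ℝ) + ε) := Real.one_le_rpow hL1 (by positivity)
        exact le_mul_of_one_le_right (by positivity) this
      calc x * ((G : ℝ) ^ s' * y ^ s) ≤ ((2 * T) ^ (d + 1 - s) * y ^ (d - s)) * ((2 * T) ^ s' * y ^ s) := by
            apply mul_le_mul q1 (mul_le_mul_of_nonneg_right hGs (by positivity)) (by positivity) (by positivity)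
        _ = ((2 * T) ^ (d + 1 - s) * (2 * T) ^ s') * (y ^ (d - s) * y ^ s) := by ring
        _ = ((2 * T) ^ (d + 1 - s) * (2 * T) ^ s') * y ^ d := by
            rw [← pow_add y]; congr 2; omega
        _ ≤ Q * (L ^ A) ^ d := mul_le_mul hTd (pow_le_pow_left₀ hy0.le hk _) (by positivity) hQ0.le
        _ = _ := by rw [← pow_mul]
    calc x * ((G : ℝ) ^ s' * y ^ s) * (4 / L ^ (A * d + 1)) ≤ Q * L ^ (A * d) * (4 / L ^ (A * d + 1)) :=
          mul_le_mul_of_nonneg_right e1 (by positivity)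
      _ = 4 * Q / L := by
          rw [pow_succ]
          field_simp
  set μ := min ε 1 with hμ
  have hμε : L ^ μ ≤ L ^ ε := Real.rpow_le_rpow_of_exponent_le hL1 (min_le_left _ _)
  have hμ1 : L ^ μ ≤ L := by
    calc L ^ μ ≤ L ^ (1 : ℝ) := Real.rpow_le_rpow_of_exponent_le hL1 (min_le_right _ _)
      _ = L := Real.rpow_one L
  have hLμ : 0 < L ^ μ := by positivity
  have hLF : 1 ≤ LL ^ F := one_le_pow₀ hLL1
  have p3 : Q * LL ^ F / L ^ ε ≤ Q * LL ^ F / L ^ μ := div_le_div_of_nonneg_left (by positivity) hLμ hμε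
  have p4 : 4 * Q / L ≤ 4 * (Q * LL ^ F) / L ^ μ := by
    calc 4 * Q / L ≤ 4 * Q / L ^ μ := div_le_div_of_nonneg_left (by positivity) hLμ hμ1
      _ ≤ _ := by
          apply div_le_div_of_nonneg_right _ hLμ.le
          nlinarith
  have hsum0 : 0 ≤ ((G : ℝ) ^ s' * y ^ s) * (2 * (LL ^ F * (L / y) ^ d + 4 / L ^ (A * d + 1))) := by positivity
  calc ((⌊x⌋₊ + 1 : ℕ) : ℝ) * (((G : ℝ) ^ s' * y ^ s) * (2 * (LL ^ F * (L / y) ^ d + 4 / L ^ (A * d + 1)))) ≤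
      (2 * x) * (((G : ℝ) ^ s' * y ^ s) * (2 * (LL ^ F * (L / y) ^ d + 4 / L ^ (A * d + 1)))) :=
        mul_le_mul_of_nonneg_right h2 hsum0
    _ = 4 * (x * ((G : ℝ) ^ s' * y ^ s) * (LL ^ F * (L / y) ^ d) + x * ((G : ℝ) ^ s' * y ^ s) * (4 / L ^ (A * d + 1))) := by
        ring
    _ ≤ 4 * (Q * LL ^ F / L ^ μ + 4 * (Q * LL ^ F) / L ^ μ) := by linarith
    _ = 20 * (Q * LL ^ F) / L ^ μ := by ring
    _ ≤ 1 / (4 * LL ^ (B + 2)) := by
        rw [div_le_div_iff₀ hLμ (by positivity), one_mul]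
        refine le_trans ?_ hbig
        have e : LL ^ (F + (B + 5) * (d + 1 + s') + 2 * B + 8) = Q * LL ^ F * (LL ^ (B + 2) * LL ^ (B + 6)) := by
          rw [hQ, ← pow_add, ← pow_add, ← pow_add]; congr 1; ring
        rw [e]
        have h80 : (80 : ℝ) ≤ LL ^ (B + 6) := by
          calc (80 : ℝ) ≤ 16 ^ 2 := by norm_num
            _ ≤ LL ^ 2 := pow_le_pow_left₀ (by norm_num) hLL 2
            _ ≤ LL ^ (B + 6) := pow_le_pow_right₀ hLL1 (by omega)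
        have hq : 0 ≤ Q * LL ^ F * LL ^ (B + 2) := by positivity
        nlinarith

end Pool.Agent.TP975.RP
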