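import Mathlib
import Pool.Agent.TP975.RP.Wb7
import Pool.Agent.TP975.RP.Sj6

/-!
Exponential sums over the prime values in all short intervals, uniformly in the phase.
-/

set_option autoImplicit false

namespace Pool.Agent.TP975.RP

open Finset
open Pool.Agent.H373R2.T7
open Pool.Agent.H807R2.Dav
open Pool.Agent.TP975.LR

/-- the difference between the primes and the model -/
noncomputable def Dt {d : ℕ} (L : ℝ) (w : ℕ) (f : Fin (d + 1) → ℤ) (m : ℕ) : ℝ :=
  L * (if (ev f (m : ℤ)).natAbs.Prime then 1 else 0) - lamz w (ev f (m : ℤ)).natAbs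

open Classical in
/-- the exceptional polynomials of a block and a weight -/
noncomputable def Ek (d H w z s G : ℕ) (LA β : ℝ) (k j : ℕ) (c : Fin s → ℕ) (b : Bool) : Finset (Fin 1 → Fin (d + 1) → ℤ) :=
  if ((j * 2 ^ k + 2 ^ k : ℕ) : ℝ) ≤ LA then
    (Bx 1 d H).filter (fun a => Ncp w z (a 0) ∧ β * ((2 ^ k : ℕ) : ℝ) <
      |∑ n ∈ Icc 1 (2 ^ k), netW s G (2 ^ k) c b n * gw w (j * 2 ^ k) (a 0) n|) else ∅

open Classical Polynomial in
theorem all_tw (d s A B : ℕ) (hd : 2 ≤ d) (hs : s * (s + 1) < 2 * d) (ε : ℝ) (hε : 0 < ε) :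
    ∃ E1 : ℕ, ∀ E2 : ℕ, ∃ H0 : ℕ, ∀ H : ℕ, H0 ≤ H →
    ∀ w : ℕ, Real.log (Real.log H) ^ E1 ≤ w → (w : ℝ) ≤ Real.log (Real.log H) ^ E2 →
    ((((QQ d H).filter (fun f => ∃ (M N : ℕ) (g : ℝ[X]), g.natDegree ≤ s ∧
      ((M + N : ℕ) : ℝ) ≤ Real.log H ^ A ∧
      ((M + N : ℕ) : ℝ) * (N : ℝ) ^ (s * (s + 1) / 2) * Real.log H ^ ((d : ℝ) + ε) ≤ (N : ℝ) ^ (d + 1) ∧
      N / Real.log (Real.log H) ^ B <
        ‖∑ m ∈ Ioc M (M + N), ee (g.eval (m : ℝ)) * ((Dt (Real.log H) w f m : ℝ) : ℂ)‖)).card : ℕ) : ℝ) ≤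
      (QQ d H).card / Real.log (Real.log H) ^ B := by
  set σ := s * (s + 1) / 2 with hσ
  have hσd : σ < d := by omega
  obtain ⟨F, c, H1, h1⟩ := blkW d (A + 1) (A * d + 1) (B + 5) hd
  refine ⟨2 * (B + 5) + 14, fun E2 => ?_⟩
  obtain ⟨H2, h2⟩ := V_small E2 1
  obtain ⟨H3, h3⟩ := pow_small (F + (B + 5) * (d + 1 + s) + 2 * B + 8) (min ε 1) (by positivity)
  obtain ⟨H4, h4⟩ := pow_small (B + 5) (ε / d) (by
    have : (0 : ℝ) < d := by
      have : 0 < d := by omega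
      exact_mod_cast this
    positivity)
  obtain ⟨H5, h5⟩ := ll_ev (max (50 * (s + 2 : ℝ)) (2 * A))
  obtain ⟨H6, h6⟩ := pow_small (B + 1) 1 (by norm_num)
  obtain ⟨H7, h7⟩ := pow_small E2 (1 / 4) (by norm_num)
  obtain ⟨H8, h8⟩ := Heta (A + 3) (B + 5) 76
  obtain ⟨H9, h9⟩ := Filter.eventually_atTop.1 (ev_log 16)
  obtain ⟨H10, h10⟩ := Heta ((A + 1) * d) (B + 5) ((d : ℝ) + 1)
  refine ⟨max (max (max H1 H2) (max H3 H4)) (max (max H5 H6) (max (max H7 H8) (max H9 (max H10 3)))),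
    fun H hH w hw1 hw2 => ?_⟩
  have b0 := le_trans (le_max_left _ _) hH
  have b0' := le_trans (le_max_right _ _) hH
  have c0 := le_trans (le_max_left _ _) b0'
  have c0' := le_trans (le_max_right _ _) b0'
  have a1 := h1 H (le_trans (le_trans (le_max_left _ _) (le_max_left _ _)) b0)
  have a2 := h2 H (le_trans (le_trans (le_max_right _ _) (le_max_left _ _)) b0) w hw2
  have a3 := h3 H (le_trans (le_trans (le_max_left _ _) (le_max_right _ _)) b0)
  have a4 := h4 H (le_trans (le_trans (le_max_right _ _) (le_max_right _ _)) b0)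
  have a5 := h5 H (le_trans (le_max_left _ _) c0)
  have a6 := h6 H (le_trans (le_max_right _ _) c0)
  have a7 := h7 H (le_trans (le_trans (le_max_left _ _) (le_max_left _ _)) c0')
  have a8 := h8 H (le_trans (le_trans (le_max_right _ _) (le_max_left _ _)) c0')
  have a9 := h9 H (le_trans (le_trans (le_max_left _ _) (le_max_right _ _)) c0')
  have a10 := h10 H (le_trans (le_trans (le_trans (le_max_left _ _) (le_max_right _ _)) (le_max_right _ _)) c0')
  have hH3 : 3 ≤ H := le_trans (le_trans (le_trans (le_max_right _ _) (le_max_right _ _)) (le_max_right _ _)) c0'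
  have hH1 : 1 ≤ H := by omega
  have hH0 : (0 : ℝ) < H := by exact_mod_cast hH1
  set L := Real.log H with hL
  set LL := Real.log L with hLL
  rw [pow_one] at a2
  have hLLs : 50 * (s + 2 : ℝ) ≤ LL := (le_max_left _ _).trans a5
  have hLLA : 2 * (A : ℝ) ≤ LL := (le_max_right _ _).trans a5
  have hs0 : (0 : ℝ) ≤ s := Nat.cast_nonneg _
  have hLL48 : 100 ≤ LL := by linarith
  have hLL0 : 0 < LL := by linarith
  have hLL1 : 1 ≤ LL := by linarith
  have hL0 : 0 < L := by linarith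
  have hL1 : 1 ≤ L := by linarith
  have hd0 : (0 : ℝ) < d := by
    have : 0 < d := by omega
    exact_mod_cast this
  obtain ⟨z, hzc, hzH, hblk⟩ := a1
  -- the range of `w`
  have hwsq : w ≤ ⌊√L⌋₊ := by
    apply Nat.le_floor
    refine hw2.trans (a7.trans ?_)
    rw [Real.sqrt_eq_rpow]
    exact Real.rpow_le_rpow_of_exponent_le hL1 (by norm_num)
  obtain ⟨hwz, hblk⟩ := hblk w hw1 hwsq
  have hwr1 : (1 : ℝ) ≤ w := (one_le_pow₀ hLL1).trans hw1
  have hw1' : 1 ≤ w := by exact_mod_cast hwr1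
  have hw0 : (0 : ℝ) < w := by linarith
  set Bc : ℝ := ((Bx 1 d H).card : ℝ) with hBc
  have hBc0 : 0 ≤ Bc := Nat.cast_nonneg _
  have hcB : Bc = (QQ d H).card := by
    rw [hBc, card_Bx, card_QQ, mul_one]
  set T := LL ^ (B + 4) with hT
  have hT1 : 1 ≤ T := one_le_pow₀ hLL1
  have hT0 : 0 < T := by linarith
  set G : ℕ := ⌈T⌉₊ with hG
  have hTG : T ≤ G := Nat.le_ceil _
  have hG2 : (G : ℝ) ≤ 2 * T := by
    have : (G : ℝ) < T + 1 := Nat.ceil_lt_add_one hT0.le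
    linarith
  have hG1 : 1 ≤ G := by
    have : (1 : ℝ) ≤ G := hT1.trans hTG
    exact_mod_cast this
  set X : ℕ := ⌊L ^ (A + 1)⌋₊ with hX
  set η : ℝ := 1 / LL ^ (B + 5) with hη
  have hη0 : 0 < η := by positivity
  have hLLB : 0 < LL ^ B := by positivity
  have hη4 : η ≤ 1 / 4 := by
    rw [hη]
    apply one_div_le_one_div_of_le (by norm_num)
    calc (4 : ℝ) ≤ LL ^ 1 := by rw [pow_one]; linarith
      _ ≤ LL ^ (B + 5) := pow_le_pow_right₀ hLL1 (by omega)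
  set y := ⌊(H : ℝ) ^ (1 - η)⌋₊ with hy
  set Y := ⌊(H : ℝ) ^ (1 + η)⌋₊ with hY
  have g5 : (1 - η) * L ≤ Real.log (y + 1) := by
    have : (H : ℝ) ^ (1 - η) ≤ y + 1 := (Nat.lt_floor_add_one _).le
    calc (1 - η) * L = Real.log ((H : ℝ) ^ (1 - η)) := (Real.log_rpow hH0 _).symm
      _ ≤ _ := Real.log_le_log (by positivity) this
  have hYle : (Y : ℝ) ≤ (H : ℝ) ^ (1 + η) := Nat.floor_le (by positivity)
  have hY1r : (1 : ℝ) ≤ (H : ℝ) ^ (1 + η) := Real.one_le_rpow (by exact_mod_cast hH1) (by linarith)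
  have hY1 : 1 ≤ Y := Nat.le_floor (by exact_mod_cast hY1r)
  have g6 : Real.log Y ≤ (1 + η) * L := by
    have h3 := Real.log_le_log (by exact_mod_cast hY1) hYle
    rwa [Real.log_rpow hH0] at h3
  set xx : ℕ → ℝ := fun k => xw d σ L ε T k with hxx
  set β : ℝ := 5 / LL ^ (B + 5) with hβ
  have hβ0 : 0 ≤ β := by positivity
  have hβ1 : β ≤ 1 := by
    rw [hβ, div_le_one (by positivity)]
    calc (5 : ℝ) ≤ LL ^ 1 := by rw [pow_one]; linarith
      _ ≤ LL ^ (B + 5) := pow_le_pow_right₀ hLL1 (by omega)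
  set Ks : Finset ℕ := (range (⌊LL ^ 2⌋₊ + 1)).filter (fun k => 3 * L ≤ (2 : ℝ) ^ k ∧ 1 ≤ xx k ∧ (2 : ℝ) ^ k ≤ L ^ A) with hKs
  set S1 := (Bx 1 d H).filter (fun a => ¬ Ncp w z (a 0)) with hS1
  set S2 := (Bx 1 d H).filter (fun a => Bg X y Y a) with hS2
  set S3 := Ks.biUnion (fun k => (range (⌊xx k⌋₊ + 1)).biUnion (fun j => (netI s G (2 ^ k)).biUnion (fun c =>
    (univ : Finset Bool).biUnion (fun b => Ek d H w z s G (L ^ (A + 1)) β k j c b)))) with hS3
  rw [← card_one (H := H) (fun f => ∃ (M N : ℕ) (g : ℝ[X]), g.natDegree ≤ s ∧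
      ((M + N : ℕ) : ℝ) ≤ L ^ A ∧ ((M + N : ℕ) : ℝ) * (N : ℝ) ^ σ * L ^ ((d : ℝ) + ε) ≤ (N : ℝ) ^ (d + 1) ∧
      N / LL ^ B < ‖∑ m ∈ Ioc M (M + N), ee (g.eval (m : ℝ)) * ((Dt L w f m : ℝ) : ℂ)‖), ← hcB]
  have hsub : (Bx 1 d H).filter (fun a => ∃ (M N : ℕ) (g : ℝ[X]), g.natDegree ≤ s ∧
      ((M + N : ℕ) : ℝ) ≤ L ^ A ∧ ((M + N : ℕ) : ℝ) * (N : ℝ) ^ σ * L ^ ((d : ℝ) + ε) ≤ (N : ℝ) ^ (d + 1) ∧
      N / LL ^ B < ‖∑ m ∈ Ioc M (M + N), ee (g.eval (m : ℝ)) * ((Dt L w (a 0) m : ℝ) : ℂ)‖) ⊆ (S1 ∪ S2) ∪ S3 := by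
    intro a ha
    rw [mem_filter] at ha
    obtain ⟨haB, M, N, g, hg, hMN, hcond, hgt⟩ := ha
    rw [mem_union, mem_union]
    by_contra hcon
    push Not at hcon
    obtain ⟨⟨n1, n2⟩, n3⟩ := hcon
    have g1 : Ncp w z (a 0) := by
      by_contra hc
      exact n1 (mem_filter.2 ⟨haB, hc⟩)
    have g2 : ¬ Bg X y Y a := fun hc => n2 (mem_filter.2 ⟨haB, hc⟩)
    have hN : 1 ≤ N := by
      rcases Nat.eq_zero_or_pos N with h0 | h0
      · exfalso
        rw [h0] at hgt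
        simp at hgt
      · exact h0
    have hTL : 6 * T ≤ L ^ (ε / d) := by
      refine le_trans ?_ a4
      rw [pow_succ LL (B + 4), mul_comm (LL ^ (B + 4)) LL, ← hT]
      exact mul_le_mul_of_nonneg_right (by linarith) (by positivity)
    obtain ⟨k, k1, k2, k3, k4, k5, k6⟩ := scaleW d σ A L ε T M N hσd hε hL1 hT1 hTL hN hMN hcond
    have h2k : (0 : ℝ) < 2 ^ k := by positivity
    have h2k1 : 1 ≤ 2 ^ k := Nat.one_le_two_pow
    have hkK : k ∈ Ks := by
      rw [hKs, mem_filter, mem_range]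
      refine ⟨?_, k1, k5, k4⟩
      apply Nat.lt_succ_of_le
      apply Nat.le_floor
      have q1 := Real.log_le_log h2k k4
      rw [Real.log_pow, Real.log_pow, ← hLL] at q1
      have q2 := Real.log_two_gt_d9
      have hk0 : (0 : ℝ) ≤ k := Nat.cast_nonneg _
      have q3 : (k : ℝ) * (1 / 2) ≤ k * Real.log 2 := mul_le_mul_of_nonneg_left (by linarith) hk0
      have q4 : (A : ℝ) * LL ≤ LL / 2 * LL := mul_le_mul_of_nonneg_right (by linarith) hLL0.le
      nlinarith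
    have hyN : 2 ^ k ≤ N := by
      have : ((2 ^ k : ℕ) : ℝ) ≤ N := by push_cast; nlinarith
      exact_mod_cast this
    have hblocks : ∀ j, j * 2 ^ k ≤ M + N → ∀ c ∈ netI s G (2 ^ k), ∀ b,
        |∑ u ∈ Icc 1 (2 ^ k), netW s G (2 ^ k) c b u * gv w (a 0) (j * 2 ^ k + u)| ≤ β * ((2 ^ k : ℕ) : ℝ) := by
      intro j hj c hc b
      by_contra hcc
      rw [not_le] at hcc
      apply n3
      rw [hS3, mem_biUnion]
      refine ⟨k, hkK, ?_⟩
      rw [mem_biUnion]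
      refine ⟨j, ?_, ?_⟩
      · rw [mem_range]
        apply Nat.lt_succ_of_le
        apply Nat.le_floor
        have q1 : (j : ℝ) * 2 ^ k ≤ ((M + N : ℕ) : ℝ) := by exact_mod_cast hj
        exact le_of_mul_le_mul_right (q1.trans k6) h2k
      · rw [mem_biUnion]
        refine ⟨c, hc, ?_⟩
        rw [mem_biUnion]
        refine ⟨b, mem_univ _, ?_⟩
        unfold Ek
        rw [if_pos]
        · rw [mem_filter]
          exact ⟨haB, g1, hcc⟩
        · have q1 : ((j * 2 ^ k + 2 ^ k : ℕ) : ℝ) ≤ ((M + N : ℕ) : ℝ) + 2 ^ k := by exact_mod_cast Nat.add_le_add_right hj _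
          have q2 : L ^ (A + 1) = L ^ A * L := pow_succ _ _
          have q3 : 0 < L ^ A := by positivity
          rw [q2]
          nlinarith
    have hMNX : M + N ≤ X := by
      apply Nat.le_floor
      refine hMN.trans (pow_le_pow_right₀ hL1 (by omega))
    have hP : ∀ m, 1 ≤ m → m ≤ M + N → |L * (if (ev (a 0) (m : ℤ)).natAbs.Prime then 1 else 0) -
        ArithmeticFunction.vonMangoldt (ev (a 0) (m : ℤ)).natAbs| ≤
        2 * η * ArithmeticFunction.vonMangoldt (ev (a 0) (m : ℤ)).natAbs := by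
      intro m hm1 hm2
      apply ptw y Y L η hL0.le hη0.le (by linarith) g5 g6
      · apply val_bd (A + 1) H Y η hH1 hη0 hL1 (a10 η le_rfl) hY haB
        have e : (((m : ℕ) : ℤ) : ℝ) = (m : ℝ) := by push_cast; ring
        rw [e, abs_of_nonneg (Nat.cast_nonneg _)]
        have q1 : (m : ℝ) ≤ X := by exact_mod_cast hm2.trans hMNX
        exact q1.trans (Nat.floor_le (by positivity))
      · intro hmem
        exact g2 ⟨m, mem_Icc.2 ⟨hm1, hm2.trans hMNX⟩, 0, hmem⟩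
    have key := good_sum (a 0) w s G (2 ^ k) M N hG1 h2k1 hyN L (2 * η) β LL a2 hLL1 hβ0 hβ1 (by positivity) hblocks hP g hg
    apply absurd hgt
    rw [not_lt]
    refine key.trans ?_
    have hNr : (0 : ℝ) < N := by exact_mod_cast hN
    have hGr : (0 : ℝ) < G := by exact_mod_cast hG1
    push_cast
    have e1 : 2 * ((N : ℝ) / 2 ^ k) * (7 * s / G * (3 * LL * 2 ^ k) + 2 * (β * 2 ^ k)) = N * (42 * s * LL / G + 4 * β) := by
      field_simp
      ring
    rw [e1]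
    have e2 : 42 * s * LL / G ≤ 42 * s * LL / T := div_le_div_of_nonneg_left (by positivity) hT0 hTG
    have e3 : 6 * LL * 2 ^ k ≤ N * (6 * LL / T) := by
      rw [mul_div_assoc', le_div_iff₀ hT0]
      nlinarith
    have e4 : LL * (1 / T) = 1 / LL ^ B * (1 / LL ^ 3) := by
      rw [hT, show B + 4 = B + (3 + 1) by ring, pow_add, pow_succ LL 3]
      field_simp
    have e5 : 1 / LL ^ 3 ≤ 1 / LL := by
      apply one_div_le_one_div_of_le hLL0
      calc LL = LL ^ 1 := (pow_one _).symm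
        _ ≤ LL ^ 3 := pow_le_pow_right₀ hLL1 (by norm_num)
    have e6 : β ≤ 5 * (1 / LL ^ B * (1 / LL)) := by
      rw [hβ, show B + 5 = B + (1 + 4) by ring, pow_add]
      have : LL ≤ LL ^ (1 + 4) := by
        calc LL = LL ^ 1 := (pow_one _).symm
          _ ≤ LL ^ (1 + 4) := pow_le_pow_right₀ hLL1 (by norm_num)
      rw [one_div_mul_one_div, mul_one_div]
      apply div_le_div_of_nonneg_left (by norm_num) (by positivity)
      exact mul_le_mul_of_nonneg_left this hLLB.le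
    have e7 : η * LL ≤ 1 / LL ^ B * (1 / LL) := by
      rw [hη, show B + 5 = B + (1 + 1 + 3) by ring, pow_add, one_div_mul_one_div, one_div_mul_eq_div, div_le_div_iff₀ (by positivity) (by positivity)]
      have : 1 ≤ LL ^ 3 := one_le_pow₀ hLL1
      have e : LL ^ (1 + 1 + 3) = LL * LL * LL ^ 3 := by ring
      rw [e]
      have hq : 0 ≤ LL * (LL ^ B * LL) := by positivity
      nlinarith
    have e8 : (1 : ℝ) / LL ^ B * (1 / LL) * (42 * s + 6 + 20 + 32) ≤ 1 / LL ^ B := by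
      rw [mul_assoc]
      apply mul_le_of_le_one_right (by positivity)
      rw [one_div_mul_eq_div, div_le_one hLL0]
      linarith
    have e9 : 42 * s * LL / T + 6 * LL / T = (42 * s + 6) * (LL * (1 / T)) := by ring
    have e10 : 0 ≤ 1 / LL ^ B := by positivity
    have e11 : LL * (1 / T) ≤ 1 / LL ^ B * (1 / LL) := by
      rw [e4]
      exact mul_le_mul_of_nonneg_left e5 e10
    have e12 : (42 * s + 6) * (LL * (1 / T)) ≤ (42 * s + 6) * (1 / LL ^ B * (1 / LL)) :=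
      mul_le_mul_of_nonneg_left e11 (by positivity)
    have e13 : 2 * η * (16 * LL * N) = N * (32 * (η * LL)) := by ring
    rw [e13, div_eq_mul_one_div (N : ℝ)]
    have e14 : N * (42 * s * LL / G + 4 * β) + N * (6 * LL / T) + N * (32 * (η * LL)) ≤ N * (1 / LL ^ B) := by
      rw [← mul_add, ← mul_add]
      apply mul_le_mul_of_nonneg_left _ hNr.le
      linarith
    linarith
  -- the three exceptional sets
  have hc1 : (S1.card : ℝ) ≤ Bc * (1 / (4 * LL ^ B)) := by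
    refine (ncp_card d H w z hd hw1' hzH).trans ?_
    apply mul_le_mul_of_nonneg_left _ hBc0
    rw [div_le_div_iff₀ hw0 (by positivity), one_mul]
    refine le_trans ?_ hw1
    have e : LL ^ (2 * (B + 5) + 14) = LL ^ B * LL ^ (B + 24) := by rw [← pow_add]; congr 1; ring
    rw [e]
    have : (16 : ℝ) ≤ LL ^ (B + 24) := by
      calc (16 : ℝ) ≤ LL ^ 1 := by rw [pow_one]; linarith
        _ ≤ _ := pow_le_pow_right₀ hLL1 (by omega)
    nlinarith
  have hc2 : (S2.card : ℝ) ≤ Bc * (1 / (4 * LL ^ B)) := by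
    have g1 := BadG_card (d := d) H (fun _ : Fin 1 => (0 : Fin 1)) (Icc 1 X) (fun n _ => (n : ℤ)) y Y
    have g2 := beta_le H η hη0 hη4 hH3 hL1
    have hXL : (X : ℝ) ≤ L ^ (A + 1) := Nat.floor_le (by positivity)
    have g3 : ((Icc 1 X).card : ℝ) * ((1 : ℕ) : ℝ) * (((badS y Y).card : ℝ) / (2 * H + 1)) ≤ 1 / (4 * LL ^ B) := by
      have hHη : 0 < (H : ℝ) ^ η := by positivity
      rw [Nat.card_Icc, Nat.add_sub_cancel, Nat.cast_one, mul_one]
      have g4 : (X : ℝ) * (((badS y Y).card : ℝ) / (2 * H + 1)) ≤ L ^ (A + 1) * (19 * L / (H : ℝ) ^ η) :=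
        mul_le_mul hXL g2 (by positivity) (by positivity)
      refine g4.trans ?_
      have g5 := a8 η le_rfl
      rw [mul_div_assoc', div_le_div_iff₀ hHη (by positivity), one_mul]
      rw [Real.rpow_one] at a6
      have g6 : LL ^ B ≤ L := (pow_le_pow_right₀ hLL1 (by omega)).trans a6
      calc L ^ (A + 1) * (19 * L) * (4 * LL ^ B) = 76 * L ^ (A + 2) * LL ^ B := by ring
        _ ≤ 76 * L ^ (A + 2) * L := mul_le_mul_of_nonneg_left g6 (by positivity)
        _ = 76 * L ^ (A + 3) := by ring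
        _ ≤ (H : ℝ) ^ η := g5
    exact le_trans g1 (mul_le_mul_of_nonneg_left g3 hBc0)
  have hc3 : (S3.card : ℝ) ≤ Bc * (1 / (2 * LL ^ B)) := by
    have q1 : (S3.card : ℝ) ≤ ∑ k ∈ Ks, ∑ j ∈ range (⌊xx k⌋₊ + 1), ∑ c ∈ netI s G (2 ^ k), ∑ b : Bool,
        ((Ek d H w z s G (L ^ (A + 1)) β k j c b).card : ℝ) := by
      have : S3.card ≤ ∑ k ∈ Ks, ∑ j ∈ range (⌊xx k⌋₊ + 1), ∑ c ∈ netI s G (2 ^ k), ∑ b : Bool,
        (Ek d H w z s G (L ^ (A + 1)) β k j c b).card := by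
        refine card_biUnion_le.trans (sum_le_sum fun k _ => card_biUnion_le.trans (sum_le_sum fun j _ =>
          card_biUnion_le.trans (sum_le_sum fun c _ => card_biUnion_le)))
      exact_mod_cast this
    refine q1.trans ?_
    have q2 : ∀ k ∈ Ks, ∑ j ∈ range (⌊xx k⌋₊ + 1), ∑ c ∈ netI s G (2 ^ k), ∑ b : Bool,
        ((Ek d H w z s G (L ^ (A + 1)) β k j c b).card : ℝ) ≤ Bc * (1 / (4 * LL ^ (B + 2))) := by
      intro k hk
      rw [hKs, mem_filter] at hk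
      obtain ⟨_, k1, k2, k3⟩ := hk
      have h2k : (0 : ℝ) < 2 ^ k := by positivity
      have q3 : ∀ (j : ℕ) (c : Fin s → ℕ) (b : Bool), ((Ek d H w z s G (L ^ (A + 1)) β k j c b).card : ℝ) ≤
          Bc * (LL ^ F * (L / 2 ^ k) ^ d + 4 / L ^ (A * d + 1)) := by
        intro j c b
        unfold Ek
        split_ifs with hX'
        · have r3 := hblk (j * 2 ^ k) (2 ^ k) (by push_cast; exact k1) hX' (netW s G (2 ^ k) c b) (netW_abs s G (2 ^ k) c b)
          push_cast at r3 ⊢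
          exact r3
        · rw [card_empty, Nat.cast_zero]
          positivity
      have q4 := ubW d σ s A F B L ε LL G hσd hL1 hε (by linarith) k k3 hG2 k2 a3
      calc ∑ j ∈ range (⌊xx k⌋₊ + 1), ∑ c ∈ netI s G (2 ^ k), ∑ b : Bool,
            ((Ek d H w z s G (L ^ (A + 1)) β k j c b).card : ℝ) ≤
            ∑ j ∈ range (⌊xx k⌋₊ + 1), ∑ c ∈ netI s G (2 ^ k), ∑ b : Bool,
            (Bc * (LL ^ F * (L / 2 ^ k) ^ d + 4 / L ^ (A * d + 1))) :=
            sum_le_sum fun j _ => sum_le_sum fun c _ => sum_le_sum fun b _ => q3 j c b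
        _ = Bc * (((⌊xx k⌋₊ + 1 : ℕ) : ℝ) * (((G : ℝ) ^ s * ((2 : ℝ) ^ k) ^ σ) * (2 *
            (LL ^ F * (L / 2 ^ k) ^ d + 4 / L ^ (A * d + 1))))) := by
            simp only [sum_const, card_range, card_univ, Fintype.card_bool, nsmul_eq_mul, card_netI s G (2 ^ k) hG1]
            push_cast
            ring
        _ ≤ _ := mul_le_mul_of_nonneg_left q4 hBc0
    refine (sum_le_sum q2).trans ?_
    rw [sum_const, nsmul_eq_mul]
    have q5 : (Ks.card : ℝ) ≤ 2 * LL ^ 2 := by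
      have r1 : Ks.card ≤ ⌊LL ^ 2⌋₊ + 1 := (card_filter_le _ _).trans (by rw [card_range])
      have r2 : (Ks.card : ℝ) ≤ (⌊LL ^ 2⌋₊ : ℝ) + 1 := by exact_mod_cast r1
      have r3 : (⌊LL ^ 2⌋₊ : ℝ) ≤ LL ^ 2 := Nat.floor_le (by positivity)
      have r4 : 1 ≤ LL ^ 2 := one_le_pow₀ hLL1
      linarith
    calc (Ks.card : ℝ) * (Bc * (1 / (4 * LL ^ (B + 2)))) ≤ (2 * LL ^ 2) * (Bc * (1 / (4 * LL ^ (B + 2)))) :=
          mul_le_mul_of_nonneg_right q5 (by positivity)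
      _ = Bc * (1 / (2 * LL ^ B)) := by
          rw [pow_add LL B 2]
          field_simp
          ring
  have hfin : ((((Bx 1 d H).filter (fun a => ∃ (M N : ℕ) (g : ℝ[X]), g.natDegree ≤ s ∧
      ((M + N : ℕ) : ℝ) ≤ L ^ A ∧ ((M + N : ℕ) : ℝ) * (N : ℝ) ^ σ * L ^ ((d : ℝ) + ε) ≤ (N : ℝ) ^ (d + 1) ∧
      N / LL ^ B < ‖∑ m ∈ Ioc M (M + N), ee (g.eval (m : ℝ)) * ((Dt L w (a 0) m : ℝ) : ℂ)‖)).card : ℕ) : ℝ) ≤
      (S1.card : ℝ) + S2.card + S3.card := by
    have r1 := (card_le_card hsub).trans (card_union_le _ _)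
    have r2 := card_union_le S1 S2
    have r3 := r1.trans (Nat.add_le_add_right r2 _)
    exact_mod_cast r3
  refine hfin.trans ?_
  calc (S1.card : ℝ) + S2.card + S3.card ≤ Bc * (1 / (4 * LL ^ B)) + Bc * (1 / (4 * LL ^ B)) + Bc * (1 / (2 * LL ^ B)) := by
        linarith
    _ = Bc / LL ^ B := by
        field_simp
        ring

end Pool.Agent.TP975.RP
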