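import Mathlib
import Pool.Agent.TP975.RP.Wb8

/-!
Moments of the error term at general points.
-/

set_option autoImplicit false

namespace Pool.Agent.TP975.RP

open Finset
open Pool.Agent.H373R2.T7

/-- means of products of the von Mangoldt function plus a constant, at general points -/
theorem meanR (d A : ℕ) : ∃ B : ℕ, ∀ E : ℕ, ∃ H0 : ℕ, ∀ H : ℕ, H0 ≤ H → ∀ z : ℕ, Real.log H ^ B ≤ z →
    (z : ℝ) ≤ Real.log H ^ E → ∀ J : Finset ℕ, J.card ≤ d → ∀ r : ℕ → ℤ, Function.Injective r → (∀ j ∈ J, |(r j : ℝ)| ≤ Real.log H ^ A) →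
    ∑ a ∈ Bx 1 d H, ∏ j ∈ J, (ArithmeticFunction.vonMangoldt (ev (a 0) (r j)).natAbs + (Vz z)⁻¹) ≤
      (Bx 1 d H).card * (2 ^ d * ((1 + d) * ((Vz z)⁻¹) ^ d)) := by
  classical
  choose Bf hBf using fun s : ℕ => meanW_le 1 d s A
  refine ⟨∑ s ∈ range (d + 1), Bf s, fun E => ?_⟩
  choose Hf hHf using fun s : ℕ => hBf s E
  obtain ⟨H1, h1⟩ := Filter.eventually_atTop.1 (ev_log 1)
  refine ⟨max (∑ s ∈ range (d + 1), Hf s) H1, fun H hH z hzB hzE J hJ r hri hM => ?_⟩
  have hL1 := h1 H (le_trans (le_max_right _ _) hH)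
  have hV1 := one_le_Vinv z
  have hone : ∀ t ∈ J.powerset, ∑ a ∈ Bx 1 d H, ∏ j ∈ t, ArithmeticFunction.vonMangoldt (ev (a 0) (r j)).natAbs ≤
      (Bx 1 d H).card * ((1 + d) * ((Vz z)⁻¹) ^ t.card) := by
    intro t ht
    rw [mem_powerset] at ht
    have htd : t.card ≤ d := (card_le_card ht).trans hJ
    have hmem : t.card ∈ range (d + 1) := mem_range.2 (by omega)
    have hH' : Hf t.card ≤ H := (single_le_sum (f := Hf) (fun _ _ => Nat.zero_le _) hmem).trans ((le_max_left _ _).trans hH)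
    have hz' : Real.log H ^ Bf t.card ≤ z :=
      (pow_le_pow_right₀ hL1 (single_le_sum (f := Bf) (fun _ _ => Nat.zero_le _) hmem)).trans hzB
    set e := t.orderIsoOfFin rfl with he
    have h2 := hHf t.card H hH' z hz' hzE (fun _ => 0) (fun i => r (e i : ℕ)) (by
      intro i
      exact hM _ (ht (e i).2)) (by
      intro i i' hii _ heq
      apply hii
      apply e.injective
      apply Subtype.ext
      exact hri heq) (by
      intro l
      refine (card_filter_le _ _).trans ?_
      rw [card_univ, Fintype.card_fin]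
      omega)
    have h3 : ∀ a ∈ Bx 1 d H, ∏ j ∈ t, ArithmeticFunction.vonMangoldt (ev (a 0) (r j)).natAbs =
        Wt (fun _ : Fin t.card => (0 : Fin 1)) (fun i => r (e i : ℕ)) a := by
      intro a _
      unfold Wt
      rw [← prod_coe_sort t]
      symm
      exact Fintype.prod_equiv e.toEquiv _ _ (fun i => rfl)
    rw [sum_congr rfl h3]
    refine h2.trans ?_
    apply mul_le_mul_of_nonneg_left _ (Nat.cast_nonneg _)
    apply mul_le_mul_of_nonneg_right _ (by positivity)
    have : (t.card : ℝ) ≤ d := by exact_mod_cast htd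
    linarith
  have hexp : ∀ a ∈ Bx 1 d H, ∏ j ∈ J, (ArithmeticFunction.vonMangoldt (ev (a 0) (r j)).natAbs + (Vz z)⁻¹) =
      ∑ t ∈ J.powerset, (∏ j ∈ t, ArithmeticFunction.vonMangoldt (ev (a 0) (r j)).natAbs) *
        ((Vz z)⁻¹) ^ (J \ t).card := by
    intro a _
    rw [prod_add]
    refine sum_congr rfl fun t _ => ?_
    rw [prod_const]
  rw [sum_congr rfl hexp, sum_comm]
  have hV0 : (0 : ℝ) ≤ (Vz z)⁻¹ := by linarith
  calc ∑ t ∈ J.powerset, ∑ a ∈ Bx 1 d H, (∏ j ∈ t, ArithmeticFunction.vonMangoldt (ev (a 0) (r j)).natAbs) *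
        ((Vz z)⁻¹) ^ (J \ t).card ≤ ∑ t ∈ J.powerset, (Bx 1 d H).card * ((1 + d) * ((Vz z)⁻¹) ^ d) := by
        refine sum_le_sum fun t ht => ?_
        rw [← sum_mul]
        refine (mul_le_mul_of_nonneg_right (hone t ht) (by positivity)).trans ?_
        rw [mul_assoc, mul_assoc, ← pow_add]
        apply mul_le_mul_of_nonneg_left _ (Nat.cast_nonneg _)
        apply mul_le_mul_of_nonneg_left _ (by positivity)
        apply pow_le_pow_right₀ hV1
        rw [mem_powerset] at ht
        have h5 := card_sdiff_add_card_eq_card ht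
        omega
    _ = ((2 : ℝ) ^ J.card) * ((Bx 1 d H).card * ((1 + d) * ((Vz z)⁻¹) ^ d)) := by
        rw [sum_const, card_powerset, nsmul_eq_mul]
        push_cast
        ring
    _ ≤ (2 : ℝ) ^ d * ((Bx 1 d H).card * ((1 + d) * ((Vz z)⁻¹) ^ d)) := by
        apply mul_le_mul_of_nonneg_right _ (by positivity)
        exact pow_le_pow_right₀ (by norm_num) hJ
    _ = _ := by ring

theorem momR (d A : ℕ) (hd : 1 ≤ d) : ∃ C : ℝ, 1 ≤ C ∧ ∃ B : ℕ, ∀ E : ℕ, ∃ H0 : ℕ, ∀ H : ℕ, H0 ≤ H → ∀ z : ℕ,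
    Real.log H ^ B ≤ z → (z : ℝ) ≤ Real.log H ^ E → ∀ (N : ℕ) (r : ℕ → ℤ), Function.Injective r → 3 * Real.log H ≤ N →
    (N : ℝ) ≤ Real.log H ^ A → (∀ n ∈ Icc 1 N, |(r n : ℝ)| ≤ Real.log H ^ A) →
    ∑ a ∈ Bx 1 d H, (∑ n ∈ Icc 1 N, hh z (ev (a 0) (r n))) ^ (2 * d) ≤ (Bx 1 d H).card * (C * ((Vz z)⁻¹ * Real.log H * N) ^ d) := by
  classical
  obtain ⟨B1, hB1⟩ := ml 1 d A 2 (2 * d * A) (2 * d)
  obtain ⟨B2, hB2⟩ := meanR d A
  set C0 : ℝ := (d + 1) * ((d : ℝ) ^ (2 * d) * (3 ^ d * (2 ^ d * (1 + d)))) with hC0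
  have hC00 : 0 ≤ C0 := by positivity
  refine ⟨1 + C0, by linarith, max B1 B2, fun E => ?_⟩
  obtain ⟨H1, h1⟩ := hB1 E
  obtain ⟨H2, h2⟩ := hB2 E
  obtain ⟨H3, h3⟩ := Vz_inv_small E
  obtain ⟨H4, h4⟩ := Filter.eventually_atTop.1 (ev_log 3)
  obtain ⟨H5, h5⟩ := Filter.eventually_atTop.1 (ev_pow (A * d) ((d : ℝ) + 1))
  refine ⟨max (max (max H1 H2) (max H3 H4)) (max H5 3), fun H hH z hzB hzE N r hri hN hNA htb => ?_⟩
  have b0 := le_trans (le_max_left _ _) hH
  have b0' := le_trans (le_max_right _ _) hH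
  have a4 := h4 H (le_trans (le_trans (le_max_right _ _) (le_max_right _ _)) b0)
  have a5 := h5 H (le_trans (le_max_left _ _) b0')
  have hH3 : 3 ≤ H := le_trans (le_max_right _ _) b0'
  have hH1 : 1 ≤ H := by omega
  set L := Real.log H with hL
  have hL1 : 1 ≤ L := by linarith
  have hL0 : 0 < L := by linarith
  have hzB1 : L ^ B1 ≤ z := (pow_le_pow_right₀ hL1 (le_max_left _ _)).trans hzB
  have hzB2 : L ^ B2 ≤ z := (pow_le_pow_right₀ hL1 (le_max_right _ _)).trans hzB
  have a1 := h1 H (le_trans (le_trans (le_max_left _ _) (le_max_left _ _)) b0) z hzB1 hzE (Fin (2 * d))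
    (by rw [Fintype.card_fin]) (fun _ => 0)
  have a2 := h2 H (le_trans (le_trans (le_max_right _ _) (le_max_left _ _)) b0) z hzB2 hzE
  have hz1r : (1 : ℝ) ≤ z := (one_le_pow₀ hL1).trans hzB
  have hz1 : 1 ≤ z := by exact_mod_cast hz1r
  have a3 := h3 H (le_trans (le_trans (le_max_left _ _) (le_max_right _ _)) b0) z hz1 hzE
  rw [← hL] at a3
  have hV1 := one_le_Vinv z
  set V := (Vz z)⁻¹ with hV
  have hN1r : (1 : ℝ) ≤ N := by linarith
  have hN0 : (0 : ℝ) < N := by linarith
  -- the values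
  have hval : ∀ a ∈ Bx 1 d H, ∀ n ∈ Icc 1 N, |((ev (a 0) (r n) : ℤ) : ℝ)| ≤ (H : ℝ) ^ 2 := by
    intro a ha n hn
    rw [mem_Bx] at ha
    exact QQ_bd hH1 (ha 0) A hL1 a5 _ (htb n hn)
  have hexp : ∀ a ∈ Bx 1 d H, (∑ n ∈ Icc 1 N, hh z (ev (a 0) (r n))) ^ (2 * d) = ∑ u ∈ Fintype.piFinset (fun _ : Fin (2 * d) => Icc 1 N),
      ∏ l, hh z (ev (a 0) (r (u l))) := by
    intro a _
    have e1 : (∑ n ∈ Icc 1 N, hh z (ev (a 0) (r n))) ^ (2 * d) =
        ∏ _l : Fin (2 * d), ∑ n ∈ Icc 1 N, hh z (ev (a 0) (r n)) := by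
      rw [prod_const, card_univ, Fintype.card_fin]
    rw [e1, prod_univ_sum]
  rw [sum_congr rfl hexp, sum_comm]
  set P := Fintype.piFinset (fun _ : Fin (2 * d) => Icc 1 N) with hP
  have hPc : (P.card : ℝ) = (N : ℝ) ^ (2 * d) := by
    rw [hP, Fintype.card_piFinset_const, Nat.card_Icc, Nat.add_sub_cancel]
    push_cast
    rfl
  have hBc0 : (0 : ℝ) ≤ (Bx 1 d H).card := Nat.cast_nonneg _
  rw [← sum_filter_add_sum_filter_not P (fun u => Rep u)]
  -- the maps with an unrepeated value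
  have hA : ∑ u ∈ P.filter (fun u => ¬ Rep u), ∑ a ∈ Bx 1 d H, ∏ l, hh z (ev (a 0) (r (u l))) ≤ (Bx 1 d H).card := by
    have hone : ∀ u ∈ P.filter (fun u => ¬ Rep u), ∑ a ∈ Bx 1 d H, ∏ l, hh z (ev (a 0) (r (u l))) ≤
        (Bx 1 d H).card / L ^ (2 * d * A) := by
      intro u hu
      rw [mem_filter, hP, Fintype.mem_piFinset] at hu
      obtain ⟨hu1, hu2⟩ := hu
      unfold Rep at hu2
      push Not at hu2
      obtain ⟨l0, hl0⟩ := hu2
      have q1 := a1 (fun l => r (u l)) (fun l => htb _ (hu1 l)) l0 (by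
        intro l hl _ heq
        exact hl0 l hl (hri heq)) (by
        refine (card_filter_le _ _).trans ?_
        rw [card_erase_of_mem (mem_univ _), card_univ, Fintype.card_fin]
        omega) (fun _ => hh z) (by
        intro _ v hv
        refine (hh_bd a3 v hH1 hv).trans ?_
        rw [sq]
        exact mul_le_mul_of_nonneg_right a4 hL0.le)
      have q2 : ∀ a ∈ Bx 1 d H, ∏ l, hh z (ev (a 0) (r (u l))) = hh z (ev (a 0) (r (u l0))) *
          ∏ l ∈ univ.erase l0, hh z (ev (a 0) (r (u l))) := fun a _ =>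
        (mul_prod_erase univ (fun l => hh z (ev (a 0) (r (u l)))) (mem_univ l0)).symm
      rw [sum_congr rfl q2]
      exact (le_abs_self _).trans q1
    refine (sum_le_sum hone).trans ?_
    rw [sum_const, nsmul_eq_mul]
    have q3 : ((P.filter (fun u => ¬ Rep u)).card : ℝ) ≤ L ^ (2 * d * A) := by
      calc ((P.filter (fun u => ¬ Rep u)).card : ℝ) ≤ P.card := by exact_mod_cast card_filter_le _ _
        _ = (N : ℝ) ^ (2 * d) := hPc
        _ ≤ (L ^ A) ^ (2 * d) := pow_le_pow_left₀ hN0.le hNA _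
        _ = L ^ (2 * d * A) := by rw [← pow_mul]; congr 1; ring
    have hLp : 0 < L ^ (2 * d * A) := by positivity
    calc ((P.filter (fun u => ¬ Rep u)).card : ℝ) * ((Bx 1 d H).card / L ^ (2 * d * A)) ≤
        L ^ (2 * d * A) * ((Bx 1 d H).card / L ^ (2 * d * A)) := mul_le_mul_of_nonneg_right q3 (by positivity)
      _ = _ := by field_simp
  -- the maps all of whose values are repeated
  have hB : ∑ u ∈ P.filter (fun u => Rep u), ∑ a ∈ Bx 1 d H, ∏ l, hh z (ev (a 0) (r (u l))) ≤
      (Bx 1 d H).card * (C0 * (V * L * N) ^ d) := by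
    have hone : ∀ u ∈ P.filter (fun u => Rep u), ∑ a ∈ Bx 1 d H, ∏ l, hh z (ev (a 0) (r (u l))) ≤
        (3 * L) ^ (2 * d - (univ.image u).card) * ((Bx 1 d H).card * (2 ^ d * ((1 + d) * V ^ d))) := by
      intro u hu
      rw [mem_filter, hP, Fintype.mem_piFinset] at hu
      obtain ⟨hu1, hu2⟩ := hu
      have q1 := a2 (univ.image u) (rep_card u hu2) r hri (by
        intro j hj
        obtain ⟨l, _, hl⟩ := mem_image.1 hj
        have := htb _ (hu1 l)
        rw [hl] at this
        exact this)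
      have q2 : ∀ a ∈ Bx 1 d H, ∏ l, hh z (ev (a 0) (r (u l))) ≤ (3 * L) ^ (2 * d - (univ.image u).card) *
          ∏ j ∈ univ.image u, (ArithmeticFunction.vonMangoldt (ev (a 0) (r j)).natAbs + V) := by
        intro a ha
        obtain ⟨x, hx⟩ : ∃ x : ℕ → ℝ, ∀ n, x n = if n ∈ Icc 1 N then |hh z (ev (a 0) (r n))| else 0 :=
          ⟨_, fun _ => rfl⟩
        have q3 : ∏ l, hh z (ev (a 0) (r (u l))) ≤ ∏ l, x (u l) := by
          refine (le_abs_self _).trans ?_
          rw [abs_prod]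
          apply le_of_eq
          refine prod_congr rfl fun l _ => ?_
          rw [hx, if_pos (hu1 l)]
        refine q3.trans ?_
        apply prod_map_le (2 * d) u x (fun j => ArithmeticFunction.vonMangoldt (ev (a 0) (r j)).natAbs + V)
          (3 * L) (by positivity)
        · intro n
          rw [hx]
          split_ifs
          · exact abs_nonneg _
          · exact le_rfl
        · intro n
          rw [hx]
          split_ifs with hn
          · exact hh_bd a3 _ hH1 (hval a ha n hn)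
          · positivity
        · intro n
          rw [hx]
          have q4 : 0 ≤ ArithmeticFunction.vonMangoldt (ev (a 0) (r n)).natAbs :=
            ArithmeticFunction.vonMangoldt_nonneg
          split_ifs with hn
          · unfold hh
            have q5 := lamz_nonneg z (ev (a 0) (r n)).natAbs
            have q6 := lamz_le z (ev (a 0) (r n)).natAbs
            rw [← hV] at q6
            rw [abs_le]
            constructor <;> linarith
          · linarith
      refine (sum_le_sum q2).trans ?_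
      rw [← mul_sum]
      exact mul_le_mul_of_nonneg_left q1 (by positivity)
    refine (sum_le_sum hone).trans ?_
    rw [← sum_mul]
    have hcl : ∑ u ∈ P.filter (fun u => Rep u), (3 * L) ^ (2 * d - (univ.image u).card) ≤
        (d + 1) * ((d : ℝ) ^ (2 * d) * (3 ^ d * (L * N) ^ d)) := by
      have q1 : P.filter (fun u => Rep u) ⊆ (range (d + 1)).biUnion (fun s => P.filter (fun u => (univ.image u).card = s)) := by
        intro u hu
        rw [mem_filter] at hu
        rw [mem_biUnion]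
        exact ⟨(univ.image u).card, mem_range.2 (Nat.lt_succ_of_le (rep_card u hu.2)), mem_filter.2 ⟨hu.1, rfl⟩⟩
      have q2 : ∑ u ∈ P.filter (fun u => Rep u), (3 * L) ^ (2 * d - (univ.image u).card) ≤
          ∑ s ∈ range (d + 1), ∑ u ∈ P.filter (fun u => (univ.image u).card = s), (3 * L) ^ (2 * d - (univ.image u).card) := by
        refine (sum_le_sum_of_subset_of_nonneg q1 (fun _ _ _ => by positivity)).trans ?_
        apply le_of_eq
        apply sum_biUnion
        intro s _ s' _ hss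
        rw [Function.onFun, disjoint_left]
        intro u hu hu'
        rw [mem_filter] at hu hu'
        exact hss (hu.2.symm.trans hu'.2)
      refine q2.trans ?_
      have q3 : ∀ s ∈ range (d + 1), ∑ u ∈ P.filter (fun u => (univ.image u).card = s), (3 * L) ^ (2 * d - (univ.image u).card) ≤
          (d : ℝ) ^ (2 * d) * (3 ^ d * (L * N) ^ d) := by
        intro s hs
        rw [mem_range] at hs
        have q4 : ∑ u ∈ P.filter (fun u => (univ.image u).card = s), (3 * L) ^ (2 * d - (univ.image u).card) =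
            ((P.filter (fun u => (univ.image u).card = s)).card : ℝ) * (3 * L) ^ (2 * d - s) := by
          rw [sum_congr rfl (fun u hu => by rw [(mem_filter.1 hu).2]), sum_const, nsmul_eq_mul]
        rw [q4]
        have q5 : ((P.filter (fun u => (univ.image u).card = s)).card : ℝ) ≤ (N : ℝ) ^ s * (s : ℝ) ^ (2 * d) := by
          have := card_maps (2 * d) s (Icc 1 N)
          rw [Nat.card_Icc, Nat.add_sub_cancel] at this
          exact_mod_cast this
        have q6 : (s : ℝ) ^ (2 * d) ≤ (d : ℝ) ^ (2 * d) := by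
          apply pow_le_pow_left₀ (Nat.cast_nonneg _)
          exact_mod_cast Nat.le_of_lt_succ hs
        have q7 : (3 * L) ^ (2 * d - s) = (3 * L) ^ (d - s) * (3 * L) ^ d := by
          rw [← pow_add]; congr 1; omega
        have q8 : (3 * L) ^ (d - s) ≤ (N : ℝ) ^ (d - s) := pow_le_pow_left₀ (by positivity) hN _
        calc ((P.filter (fun u => (univ.image u).card = s)).card : ℝ) * (3 * L) ^ (2 * d - s) ≤
            ((N : ℝ) ^ s * (d : ℝ) ^ (2 * d)) * ((N : ℝ) ^ (d - s) * (3 * L) ^ d) := by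
              rw [q7]
              apply mul_le_mul (q5.trans (mul_le_mul_of_nonneg_left q6 (by positivity)))
                (mul_le_mul_of_nonneg_right q8 (by positivity)) (by positivity) (by positivity)
          _ = (d : ℝ) ^ (2 * d) * (3 ^ d * (L ^ d * ((N : ℝ) ^ s * (N : ℝ) ^ (d - s)))) := by rw [mul_pow]; ring
          _ = _ := by
              rw [← pow_add, show s + (d - s) = d by omega, mul_pow]
      refine (sum_le_sum q3).trans (le_of_eq ?_)
      rw [sum_const, card_range, nsmul_eq_mul]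
      push_cast
      ring
    calc (∑ u ∈ P.filter (fun u => Rep u), (3 * L) ^ (2 * d - (univ.image u).card)) *
        ((Bx 1 d H).card * (2 ^ d * ((1 + d) * V ^ d))) ≤
        ((d + 1) * ((d : ℝ) ^ (2 * d) * (3 ^ d * (L * N) ^ d))) * ((Bx 1 d H).card * (2 ^ d * ((1 + d) * V ^ d))) :=
          mul_le_mul_of_nonneg_right hcl (by positivity)
      _ = _ := by rw [hC0, mul_pow, mul_pow, mul_pow]; ring
  have hge : 1 ≤ (V * L * N) ^ d := one_le_pow₀ (by
    have : 1 ≤ V * L := by nlinarith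
    nlinarith)
  calc _ ≤ (Bx 1 d H).card * (C0 * (V * L * N) ^ d) + (Bx 1 d H).card := add_le_add hB hA
    _ ≤ (Bx 1 d H).card * (C0 * (V * L * N) ^ d) + (Bx 1 d H).card * (V * L * N) ^ d := by
        have := mul_le_mul_of_nonneg_left hge hBc0
        linarith
    _ = _ := by ring

end Pool.Agent.TP975.RP
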