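import Mathlib
import Pool.Agent.TP975.RP.Eh1

/-!
Points of a residue class: the class bound and the spreading of the points.
-/

set_option autoImplicit false

namespace Pool.Agent.TP975.RP

open Finset
open Pool.Agent.H373R2.T7

/-- the points of a residue class -/
def pt (q c n : ℕ) : ℤ := (c : ℤ) - q + q * n

lemma pt_inj (q c : ℕ) (hq : 1 ≤ q) : Function.Injective (pt q c) := by
  intro n n' h
  unfold pt at h
  have h1 : (q : ℤ) * n = q * n' := by linarith
  have h2 : (q : ℤ) ≠ 0 := by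
    have : q ≠ 0 := by omega
    exact_mod_cast this
  exact_mod_cast mul_left_cancel₀ h2 h1

lemma class_pt (p : ℕ) (hp : p.Prime) (q c N : ℕ) (hq : ¬ p ∣ q) (ρ : ZMod p) :
    ((Icc 1 N).filter (fun n : ℕ => ((pt q c n : ℤ) : ZMod p) = ρ)).card ≤ N / p + 1 := by
  haveI := Fact.mk hp
  have hq0 : (q : ZMod p) ≠ 0 := by
    intro h
    exact hq ((ZMod.natCast_eq_zero_iff _ _).1 h)
  refine le_trans (card_le_card ?_) (class_card p hp.pos N 0 ((ρ - c + q) * (q : ZMod p)⁻¹))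
  intro n hn
  rw [mem_filter] at hn ⊢
  refine ⟨hn.1, ?_⟩
  rw [← hn.2]
  unfold pt
  push_cast
  field_simp
  ring

lemma roots_pt (d : ℕ) (p : ℕ) (hp : p.Prime) (a : Fin (d + 1) → ℤ) (hc : ∃ c, c ≠ 0 ∧ ¬ (p : ℤ) ∣ a c) (b : ℤ)
    (q c N : ℕ) (hq : ¬ p ∣ q) :
    (((Icc 1 N).filter (fun n : ℕ => (p : ℤ) ∣ b + rr 0 a (pt q c n))).card : ℝ) ≤ d * ((N : ℝ) / p + 1) := by
  classical
  haveI := Fact.mk hp
  obtain ⟨c0, hc0, hnd⟩ := hc
  set P : Polynomial (ZMod p) := Polynomial.C ((b : ℤ) : ZMod p) + ∑ c ∈ univ.erase (0 : Fin (d + 1)),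
    Polynomial.C ((a c : ℤ) : ZMod p) * Polynomial.X ^ (c : ℕ) with hP
  have heval : ∀ t : ℤ, P.eval (t : ZMod p) = ((b + rr 0 a t : ℤ) : ZMod p) := by
    intro t
    rw [hP, Polynomial.eval_add, Polynomial.eval_C, Polynomial.eval_finset_sum]
    unfold rr
    push_cast
    congr 1
    refine sum_congr rfl fun c _ => ?_
    rw [Polynomial.eval_mul, Polynomial.eval_C, Polynomial.eval_pow, Polynomial.eval_X]
  have hP0 : P ≠ 0 := by
    intro h0
    have h1 : P.coeff (c0 : ℕ) = ((a c0 : ℤ) : ZMod p) := by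
      rw [hP, Polynomial.coeff_add, Polynomial.finset_sum_coeff]
      have hz : (c0 : ℕ) ≠ 0 := fun h => hc0 (Fin.ext (by simpa using h))
      rw [Polynomial.coeff_C, if_neg hz, zero_add, sum_eq_single c0]
      · rw [Polynomial.coeff_C_mul, Polynomial.coeff_X_pow, if_pos rfl, mul_one]
      · intro c _ hcc
        rw [Polynomial.coeff_C_mul, Polynomial.coeff_X_pow, if_neg, mul_zero]
        intro h
        exact hcc (Fin.ext h.symm)
      · intro h
        exact absurd (mem_erase.2 ⟨hc0, mem_univ _⟩) h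
    rw [h0, Polynomial.coeff_zero] at h1
    exact hnd ((ZMod.intCast_zmod_eq_zero_iff_dvd _ _).1 h1.symm)
  have hdeg : P.natDegree ≤ d := by
    rw [hP]
    refine (Polynomial.natDegree_add_le _ _).trans (max_le ?_ ?_)
    · rw [Polynomial.natDegree_C]; omega
    · apply Polynomial.natDegree_sum_le_of_forall_le
      intro c _
      refine (Polynomial.natDegree_C_mul_X_pow_le _ _).trans ?_
      have := c.2
      omega
  have h1 : (Icc 1 N).filter (fun n : ℕ => (p : ℤ) ∣ b + rr 0 a (pt q c n)) ⊆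
      P.roots.toFinset.biUnion (fun ρ => (Icc 1 N).filter (fun n : ℕ => ((pt q c n : ℤ) : ZMod p) = ρ)) := by
    intro n hn
    rw [mem_filter] at hn
    rw [mem_biUnion]
    refine ⟨((pt q c n : ℤ) : ZMod p), ?_, mem_filter.2 ⟨hn.1, rfl⟩⟩
    rw [Multiset.mem_toFinset, Polynomial.mem_roots hP0]
    show P.eval _ = 0
    rw [heval, ZMod.intCast_zmod_eq_zero_iff_dvd]
    exact hn.2
  have h2 : ((Icc 1 N).filter (fun n : ℕ => (p : ℤ) ∣ b + rr 0 a (pt q c n))).card ≤ d * (N / p + 1) := by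
    refine (card_le_card h1).trans (card_biUnion_le.trans ?_)
    refine (sum_le_sum fun ρ _ => class_pt p hp q c N hq ρ).trans ?_
    rw [sum_const, smul_eq_mul]
    exact Nat.mul_le_mul_right _ ((Multiset.toFinset_card_le _).trans ((Polynomial.card_roots' P).trans hdeg))
  have h3 : (((N / p : ℕ)) : ℝ) ≤ (N : ℝ) / p := Nat.cast_div_le
  calc (((Icc 1 N).filter (fun n : ℕ => (p : ℤ) ∣ b + rr 0 a (pt q c n))).card : ℝ) ≤ ((d * (N / p + 1) : ℕ) : ℝ) := by
        exact_mod_cast h2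
    _ = d * (((N / p : ℕ) : ℝ) + 1) := by push_cast; ring
    _ ≤ d * ((N : ℝ) / p + 1) := by
        apply mul_le_mul_of_nonneg_left _ (Nat.cast_nonneg _)
        linarith

/-- the primes which divide the modulus -/
def qz (w z q : ℕ) : Finset ℕ := (pz z).filter (fun p => w < p ∧ p ∣ q)

lemma mem_qz {w z q p : ℕ} : p ∈ qz w z q ↔ (p ≤ z ∧ p.Prime) ∧ w < p ∧ p ∣ q := by
  unfold qz
  rw [mem_filter, mem_pz]

/-- the spreading of the points -/
lemma spread_exists (w z q : ℕ) (r : ℕ → ℤ) : ∃ r' : ℕ → ℤ,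
    (∀ n, ∀ p ∈ pz z, p ∉ qz w z q → (p : ℤ) ∣ r' n - r n) ∧ (∀ n, ∀ p ∈ qz w z q, (p : ℤ) ∣ r' n - n) := by
  classical
  set P1 := ∏ p ∈ (pz z) \ (qz w z q), p with hP1
  set Q1 := ∏ p ∈ qz w z q, p with hQ1
  have hcop : Nat.Coprime P1 Q1 := by
    rw [hP1, hQ1]
    apply Nat.Coprime.prod_left
    intro p hp
    apply Nat.Coprime.prod_right
    intro p' hp'
    rw [mem_sdiff] at hp
    apply (Nat.coprime_primes (mem_pz.1 hp.1).2 (mem_qz.1 hp').1.2).2
    intro h
    exact hp.2 (h ▸ hp')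
  obtain ⟨u, v, huv⟩ := Nat.isCoprime_iff_coprime.2 hcop
  have e1 : (P1 : ℤ) ∣ u * P1 := Dvd.intro_left u rfl
  have e2 : (Q1 : ℤ) ∣ 1 - u * P1 := by
    refine ⟨v, ?_⟩
    linarith
  refine ⟨fun n => r n + (u * P1) * (n - r n), ?_, ?_⟩
  · intro n p hp hpq
    have h1 : (p : ℤ) ∣ (P1 : ℤ) := by
      rw [hP1]
      exact Int.natCast_dvd_natCast.2 (dvd_prod_of_mem _ (mem_sdiff.2 ⟨hp, hpq⟩))
    have h2 : r n + (u * P1) * (n - r n) - r n = (u * P1) * (n - r n) := by ring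
    show (p : ℤ) ∣ r n + (u * P1) * (n - r n) - r n
    rw [h2]
    exact Dvd.dvd.mul_right (h1.trans e1) _
  · intro n p hp
    have h1 : (p : ℤ) ∣ (Q1 : ℤ) := by
      rw [hQ1]
      exact Int.natCast_dvd_natCast.2 (dvd_prod_of_mem _ hp)
    have h2 : r n + (u * P1) * (n - r n) - n = (1 - u * P1) * (r n - n) := by ring
    show (p : ℤ) ∣ r n + (u * P1) * (n - r n) - n
    rw [h2]
    exact Dvd.dvd.mul_right (h1.trans e2) _

lemma spread_Clb (d : ℕ) (hd : 1 ≤ d) (w z q c N : ℕ) (a : Fin (d + 1) → ℤ) (h : Ncp w z a) (r' : ℕ → ℤ)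
    (h1 : ∀ n, ∀ p ∈ pz z, p ∉ qz w z q → (p : ℤ) ∣ r' n - rr 0 a (pt q c n)) (h2 : ∀ n, ∀ p ∈ qz w z q, (p : ℤ) ∣ r' n - (n : ℕ)) :
    Clb d N w z r' := by
  intro p hp hwp hpz b
  by_cases hq : p ∈ qz w z q
  · have e1 : (Icc 1 N).filter (fun n : ℕ => (p : ℤ) ∣ b + r' n) ⊆
        (Icc 1 N).filter (fun n : ℕ => (((0 + n : ℕ) : ℤ) : ZMod p) = ((-(b : ℤ) : ℤ) : ZMod p)) := by
      intro n hn
      rw [mem_filter] at hn ⊢
      refine ⟨hn.1, ?_⟩
      rw [ZMod.intCast_eq_intCast_iff_dvd_sub]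
      have e : -(b : ℤ) - ((0 + n : ℕ) : ℤ) = -(b + r' n) + (r' n - n) := by push_cast; ring
      rw [e]
      exact dvd_add ((dvd_neg).2 hn.2) (h2 n p hq)
    have e2 := (card_le_card e1).trans (class_card p hp.pos N 0 _)
    have e3 : (((N / p : ℕ)) : ℝ) ≤ (N : ℝ) / p := Nat.cast_div_le
    have e4 : ((((Icc 1 N).filter (fun n : ℕ => (p : ℤ) ∣ b + r' n)).card : ℕ) : ℝ) ≤ ((N / p : ℕ) : ℝ) + 1 := by exact_mod_cast e2
    have e5 : (1 : ℝ) ≤ d := by exact_mod_cast hd
    have e6 : (0 : ℝ) ≤ (N : ℝ) / p := by positivity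
    nlinarith
  · have hpq : ¬ p ∣ q := fun hd => hq (mem_qz.2 ⟨⟨hpz, hp⟩, hwp, hd⟩)
    have e1 : (Icc 1 N).filter (fun n : ℕ => (p : ℤ) ∣ b + r' n) ⊆
        (Icc 1 N).filter (fun n : ℕ => (p : ℤ) ∣ b + rr 0 a (pt q c n)) := by
      intro n hn
      rw [mem_filter] at hn ⊢
      refine ⟨hn.1, ?_⟩
      have e : (b : ℤ) + rr 0 a (pt q c n) = (b + r' n) - (r' n - rr 0 a (pt q c n)) := by ring
      rw [e]
      exact dvd_sub hn.2 (h1 n p (mem_pz.2 ⟨hpz, hp⟩) hq)
    refine le_trans ?_ (roots_pt d p hp a (h p hp hwp hpz) b q c N hpq)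
    exact_mod_cast card_le_card e1

/-- the number of the primes which divide the modulus -/
lemma qz_card (w z q : ℕ) (hq : 1 ≤ q) : ((qz w z q).card : ℝ) ≤ 2 * Real.log q := by
  have h1 : (qz w z q).card ≤ q.primeFactors.card := by
    apply card_le_card
    intro p hp
    rw [mem_qz] at hp
    exact Nat.mem_primeFactors.2 ⟨hp.1.2, hp.2.2, by omega⟩
  have h2 : 2 ^ q.primeFactors.card ≤ q := by
    calc 2 ^ q.primeFactors.card ≤ ∏ p ∈ q.primeFactors, p := by
          apply Finset.pow_card_le_prod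
          intro p hp
          exact (Nat.prime_of_mem_primeFactors hp).two_le
      _ ≤ q := Nat.le_of_dvd (by omega) (Nat.prod_primeFactors_dvd q)
  have h3 : (q.primeFactors.card : ℝ) * Real.log 2 ≤ Real.log q := by
    rw [← Real.log_pow]
    apply Real.log_le_log (by positivity)
    exact_mod_cast h2
  have h4 := Real.log_two_gt_d9
  have h5 : ((qz w z q).card : ℝ) ≤ q.primeFactors.card := by exact_mod_cast h1
  have h6 : (0 : ℝ) ≤ q.primeFactors.card := Nat.cast_nonneg _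
  nlinarith

/-- the comparison of the sums over the points and over the spread points -/
lemma spread_cmp (w z q N : ℕ) (hw : 1 ≤ w) (hwz : w ≤ z) (hq : 1 ≤ q) (r r' : ℕ → ℤ)
    (h1 : ∀ n, ∀ p ∈ pz z, p ∉ qz w z q → (p : ℤ) ∣ r' n - r n) (h2 : ∀ n, ∀ p ∈ qz w z q, (p : ℤ) ∣ r' n - (n : ℕ)) (b : ℤ)
    (h : ∀ n, ∀ p ∈ qz w z q, ¬ (p : ℤ) ∣ b + r n) :
    |Dw (fun _ => 1) r N w z b| ≤ |Dw (fun _ => 1) r' N w z b| + (Vz z)⁻¹ * (2 * Real.log q * ((N : ℝ) / w + 1)) := by
  classical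
  have hw0 : (0 : ℝ) < w := by exact_mod_cast hw
  have hV0 : 0 ≤ (Vz z)⁻¹ := by have := one_le_Vinv z; linarith
  have hsub : |Dw (fun _ => 1) r N w z b - Dw (fun _ => 1) r' N w z b| ≤
      (Vz z)⁻¹ * (2 * Real.log q * ((N : ℝ) / w + 1)) := by
    unfold Dw Tw
    rw [← sum_sub_distrib, ← sum_sub_distrib, ← sum_sub_distrib]
    have hpt : ∀ n ∈ Icc 1 N, |1 * lamz z (b + r n).natAbs - 1 * lamz w (b + r n).natAbs -
        (1 * lamz z (b + r' n).natAbs - 1 * lamz w (b + r' n).natAbs)| ≤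
        ∑ p ∈ qz w z q, (Vz z)⁻¹ * (if (((0 + n : ℕ) : ℤ) : ZMod p) = ((-b : ℤ) : ZMod p) then 1 else 0) := by
      intro n _
      have e1 : lamz w (b + r n).natAbs = lamz w (b + r' n).natAbs := by
        unfold lamz
        have : (∀ p ∈ pz w, ¬ p ∣ (b + r n).natAbs) ↔ (∀ p ∈ pz w, ¬ p ∣ (b + r' n).natAbs) := by
          refine forall_congr' fun p => forall_congr' fun hp => ?_
          rw [mem_pz] at hp
          rw [← Int.natCast_dvd, ← Int.natCast_dvd]
          have hpz : p ∈ pz z := mem_pz.2 ⟨hp.1.trans hwz, hp.2⟩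
          have hpq : p ∉ qz w z q := fun hm => by
            have := (mem_qz.1 hm).2.1
            omega
          have h3 := h1 n p hpz hpq
          have e : b + r' n = (b + r n) + (r' n - r n) := by ring
          rw [e, dvd_add_left h3]
        simp only [this]
      rw [e1]
      have e2 : 1 * lamz z (b + r n).natAbs - 1 * lamz w (b + r' n).natAbs -
        (1 * lamz z (b + r' n).natAbs - 1 * lamz w (b + r' n).natAbs) = lamz z (b + r n).natAbs - lamz z (b + r' n).natAbs := by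
        ring
      rw [e2]
      by_cases hex : ∃ p ∈ qz w z q, (((0 + n : ℕ) : ℤ) : ZMod p) = ((-b : ℤ) : ZMod p)
      · obtain ⟨p, hp, hpe⟩ := hex
        have h3 : |lamz z (b + r n).natAbs - lamz z (b + r' n).natAbs| ≤ (Vz z)⁻¹ := by
          have := lamz_nonneg z (b + r n).natAbs
          have := lamz_nonneg z (b + r' n).natAbs
          have := lamz_le z (b + r n).natAbs
          have := lamz_le z (b + r' n).natAbs
          rw [abs_le]
          constructor <;> linarith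
        refine h3.trans ?_
        have h4 := single_le_sum (f := fun p : ℕ => (Vz z)⁻¹ * (if (((0 + n : ℕ) : ℤ) : ZMod p) = ((-b : ℤ) : ZMod p) then (1 : ℝ) else 0))
          (fun p _ => by positivity) hp
        simp only [hpe, if_true, mul_one] at h4
        exact h4
      · push Not at hex
        have h3 : (∀ p ∈ pz z, ¬ p ∣ (b + r n).natAbs) ↔ (∀ p ∈ pz z, ¬ p ∣ (b + r' n).natAbs) := by
          refine forall_congr' fun p => forall_congr' fun hp => ?_
          rw [← Int.natCast_dvd, ← Int.natCast_dvd]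
          by_cases hpq : p ∈ qz w z q
          · have q1 : ¬ (p : ℤ) ∣ b + r' n := by
              intro hd
              apply hex p hpq
              rw [ZMod.intCast_eq_intCast_iff_dvd_sub]
              have e : -b - ((0 + n : ℕ) : ℤ) = -(b + r' n) + (r' n - n) := by push_cast; ring
              rw [e]
              exact dvd_add ((dvd_neg).2 hd) (h2 n p hpq)
            exact ⟨fun _ => q1, fun _ => h n p hpq⟩
          · have h3 := h1 n p hp hpq
            have e : b + r' n = (b + r n) + (r' n - r n) := by ring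
            rw [e, dvd_add_left h3]
        unfold lamz
        simp only [h3, sub_self, abs_zero]
        exact sum_nonneg fun p _ => by positivity
    refine (abs_sum_le_sum_abs _ _).trans ((sum_le_sum hpt).trans ?_)
    rw [sum_comm]
    have hcl : ∀ p ∈ qz w z q, ∑ n ∈ Icc 1 N, (Vz z)⁻¹ * (if (((0 + n : ℕ) : ℤ) : ZMod p) = ((-b : ℤ) : ZMod p) then (1 : ℝ) else 0) ≤
        (Vz z)⁻¹ * ((N : ℝ) / w + 1) := by
      intro p hp
      rw [← mul_sum]
      apply mul_le_mul_of_nonneg_left _ hV0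
      rw [← sum_filter, sum_const, nsmul_eq_mul, mul_one]
      have hp' := mem_qz.1 hp
      have e2 := class_card p hp'.1.2.pos N 0 ((-b : ℤ) : ZMod p)
      have e3 : (((N / p : ℕ)) : ℝ) ≤ (N : ℝ) / p := Nat.cast_div_le
      have e4 : ((((Icc 1 N).filter (fun n : ℕ => (((0 + n : ℕ) : ℤ) : ZMod p) = ((-b : ℤ) : ZMod p))).card : ℕ) : ℝ) ≤
        ((N / p : ℕ) : ℝ) + 1 := by exact_mod_cast e2
      have e5 : (N : ℝ) / p ≤ N / w := by
        apply div_le_div_of_nonneg_left (Nat.cast_nonneg _) hw0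
        exact_mod_cast hp'.2.1.le
      linarith
    refine (sum_le_sum hcl).trans ?_
    rw [sum_const, nsmul_eq_mul]
    have hc := qz_card w z q hq
    have hN0 : (0 : ℝ) ≤ (N : ℝ) / w + 1 := by positivity
    calc ((qz w z q).card : ℝ) * ((Vz z)⁻¹ * ((N : ℝ) / w + 1)) = (Vz z)⁻¹ * ((qz w z q).card * ((N : ℝ) / w + 1)) := by ring
      _ ≤ _ := mul_le_mul_of_nonneg_left (mul_le_mul_of_nonneg_right hc hN0) hV0
  have h3 := abs_sub_abs_le_abs_sub (Dw (fun _ => 1) r N w z b) (Dw (fun _ => 1) r' N w z b)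
  linarith

end Pool.Agent.TP975.RP
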