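import Mathlib
import Pool.Agent.TP975.RP.Eh2

/-!
Residue classes: the moments and the exceptional polynomials of a class.
-/

set_option autoImplicit false

namespace Pool.Agent.TP975.RP

open Finset
open Pool.Agent.H373R2.T7

/-- the error term of a residue class -/
noncomputable def ErP {d : ℕ} (z q c N : ℕ) (a : Fin (d + 1) → ℤ) : ℝ := ∑ n ∈ Icc 1 N, hh z (ev a (pt q c n))

/-- the difference of the sifted sums of a residue class -/
noncomputable def DwP {d : ℕ} (w z q c N : ℕ) (a : Fin (d + 1) → ℤ) : ℝ :=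
  Dw (fun _ => 1) (fun n => rr 0 a (pt q c n)) N w z (a 0)

/-- no prime of the modulus divides the value -/
def Cop {d : ℕ} (w z q c : ℕ) (a : Fin (d + 1) → ℤ) : Prop := ∀ p ∈ qz w z q, ¬ (p : ℤ) ∣ ev a (c : ℤ)

lemma Cop_pt {d : ℕ} (w z q c : ℕ) (a : Fin (d + 1) → ℤ) (h : Cop w z q c a) (n : ℕ) :
    ∀ p ∈ qz w z q, ¬ (p : ℤ) ∣ a 0 + rr 0 a (pt q c n) := by
  intro p hp hd
  apply h p hp
  have e1 : a 0 + rr 0 a (pt q c n) = ev a (pt q c n) := by
    rw [ev_rr 0]
    simp
  rw [e1] at hd
  have h1 : (p : ℤ) ∣ pt q c n - c := by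
    have h2 : (p : ℤ) ∣ (q : ℤ) := Int.natCast_dvd_natCast.2 (mem_qz.1 hp).2.2
    unfold pt
    have e : (c : ℤ) - q + q * n - c = q * (n - 1) := by ring
    rw [e]
    exact Dvd.dvd.mul_right h2 _
  have h3 : (p : ℤ) ∣ ev a (pt q c n) - ev a (c : ℤ) := by
    unfold ev
    rw [← sum_sub_distrib]
    apply dvd_sum
    intro i _
    rw [← mul_sub]
    exact Dvd.dvd.mul_left (h1.trans (sub_dvd_pow_sub_pow _ _ _)) _
  have e : ev a (c : ℤ) = ev a (pt q c n) - (ev a (pt q c n) - ev a (c : ℤ)) := by ring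
  rw [e]
  exact dvd_sub hd h3

open Classical in
theorem blkP (d A U B : ℕ) (hd : 2 ≤ d) : ∃ F c0 : ℕ, ∃ H0 : ℕ, ∀ H : ℕ, H0 ≤ H → ∃ z : ℕ, (z : ℝ) ≤ Real.log H ^ c0 ∧
    z ≤ H ∧ (∀ q c N : ℕ, 1 ≤ q → 3 * Real.log H ≤ N → (N : ℝ) ≤ Real.log H ^ A →
      (∀ n ∈ Icc 1 N, |((pt q c n : ℤ) : ℝ)| ≤ Real.log H ^ A) →
      ∑ a ∈ Bx 1 d H, (ErP z q c N (a 0)) ^ (2 * d) ≤
        (Bx 1 d H).card * (Real.log (Real.log H) ^ F * (Real.log H * N) ^ d)) ∧
    ∀ w : ℕ, Real.log (Real.log H) ^ (2 * B + 14) ≤ w → w ≤ ⌊√(Real.log H)⌋₊ → w ≤ z ∧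
    ∀ q c N : ℕ, 1 ≤ q → (q : ℝ) ≤ Real.log H ^ A → Real.log H ≤ N →
    ((((Bx 1 d H).filter (fun a => Ncp w z (a 0) ∧ Cop w z q c (a 0) ∧ 3 / Real.log (Real.log H) ^ B * N <
      |DwP w z q c N (a 0)|)).card : ℕ) : ℝ) ≤ (Bx 1 d H).card * (2 / Real.log H ^ U) := by
  obtain ⟨C, hC1, B1, hB1⟩ := momR d A (by omega)
  set E : ℕ := B1 + 2 with hE
  obtain ⟨H1, h1⟩ := hB1 E
  obtain ⟨H2, h2⟩ := V_LL3 E
  obtain ⟨H3, h3⟩ := stg1W d E U B
  obtain ⟨H4, h4⟩ := stg2W d U B
  obtain ⟨H5, h5⟩ := ll_ev (max (max 2 (4 * A + 1)) C)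
  obtain ⟨H6, h6⟩ := Filter.eventually_atTop.1 (ev_log 4)
  obtain ⟨H7, h7⟩ := Filter.eventually_atTop.1 (ev_pow E 1)
  obtain ⟨H8, h8⟩ := pow_small (B + 5) 1 (by norm_num)
  refine ⟨3 * d + 1, E, max (max (max H1 H2) (max H3 H4)) (max (max H5 H6) (max H7 H8)), fun H hH => ?_⟩
  have b0 := le_trans (le_max_left _ _) hH
  have b0' := le_trans (le_max_right _ _) hH
  have a5 := h5 H (le_trans (le_trans (le_max_left _ _) (le_max_left _ _)) b0')
  have a6 := h6 H (le_trans (le_trans (le_max_right _ _) (le_max_left _ _)) b0')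
  have a7 := h7 H (le_trans (le_trans (le_max_left _ _) (le_max_right _ _)) b0')
  have a8 := h8 H (le_trans (le_trans (le_max_right _ _) (le_max_right _ _)) b0')
  have a1 := h1 H (le_trans (le_trans (le_max_left _ _) (le_max_left _ _)) b0)
  have a2 := h2 H (le_trans (le_trans (le_max_right _ _) (le_max_left _ _)) b0)
  have a3 := h3 H (le_trans (le_trans (le_max_left _ _) (le_max_right _ _)) b0)
  have a4 := h4 H (le_trans (le_trans (le_max_right _ _) (le_max_right _ _)) b0)
  set L := Real.log H with hL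
  set LL := Real.log L with hLL
  have hLL2 : 2 ≤ LL := ((le_max_left _ _).trans (le_max_left _ _)).trans a5
  have hLLA : 4 * (A : ℝ) + 1 ≤ LL := ((le_max_right _ _).trans (le_max_left _ _)).trans a5
  have hLLC : C ≤ LL := (le_max_right _ _).trans a5
  have hLL0 : 0 < LL := by linarith
  have hLL1 : 1 ≤ LL := by linarith
  have hL0 : 0 < L := by linarith
  have hL1 : 1 ≤ L := by linarith
  rw [Real.rpow_one] at a8
  set z : ℕ := ⌈L ^ (B1 + 1)⌉₊ with hz
  have hzl : L ^ (B1 + 1) ≤ z := Nat.le_ceil _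
  have hzu : (z : ℝ) ≤ L ^ E := by
    have q1 : (z : ℝ) < L ^ (B1 + 1) + 1 := Nat.ceil_lt_add_one (by positivity)
    have q2 : 1 ≤ L ^ (B1 + 1) := one_le_pow₀ hL1
    have q3 : L ^ E = L ^ (B1 + 1) * L := by rw [hE, pow_succ]
    rw [q3]
    nlinarith
  have hzB : L ^ B1 ≤ z := (pow_le_pow_right₀ hL1 (by omega)).trans hzl
  have hLz : L ≤ z := by
    refine le_trans ?_ hzl
    calc L = L ^ 1 := (pow_one L).symm
      _ ≤ L ^ (B1 + 1) := pow_le_pow_right₀ hL1 (by omega)
  have hzH : z ≤ H := by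
    have : (z : ℝ) ≤ H := by linarith
    exact_mod_cast this
  have hsqL : √L ≤ L := by
    rw [Real.sqrt_le_left hL0.le]
    nlinarith
  have hw'z : ⌊√L⌋₊ ≤ z := by
    have : ((⌊√L⌋₊ : ℕ) : ℝ) ≤ z := (Nat.floor_le (Real.sqrt_nonneg _)).trans (hsqL.trans hLz)
    exact_mod_cast this
  have hV := (a2 z hzu).1
  have hV1 := one_le_Vinv z
  have hBc0 : (0 : ℝ) ≤ (Bx 1 d H).card := Nat.cast_nonneg _
  refine ⟨z, hzu, hzH, ?_, fun w hw1 hw2 => ⟨hw2.trans hw'z, ?_⟩⟩
  · intro q c N hq hN hNA hpt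
    have hmom := a1 z hzB hzu N (pt q c) (pt_inj q c hq) hN hNA hpt
    unfold ErP
    refine hmom.trans ?_
    apply mul_le_mul_of_nonneg_left _ hBc0
    have hLN : 0 ≤ L * N := by positivity
    calc C * ((Vz z)⁻¹ * L * N) ^ d ≤ LL * (LL ^ 3 * (L * N)) ^ d := by
          apply mul_le_mul hLLC _ (by positivity) hLL0.le
          apply pow_le_pow_left₀ (by positivity)
          rw [mul_assoc]
          exact mul_le_mul_of_nonneg_right hV hLN
      _ = LL ^ (3 * d + 1) * (L * N) ^ d := by rw [mul_pow, ← pow_mul]; ring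
  · intro q c N hq hqA hN
    set w' := ⌊√L⌋₊ with hw'
    have hm1 : 1 ≤ LL ^ (2 * B + 14) := one_le_pow₀ hLL1
    have hw1r : (1 : ℝ) ≤ w := hm1.trans hw1
    have hwone : 1 ≤ w := by exact_mod_cast hw1r
    have hw0 : (0 : ℝ) < w := by linarith
    have hN0 : (0 : ℝ) < N := by linarith
    have key := fiber_tr d H (fun a => Ncp w z a ∧ Cop w z q c a ∧ 3 / LL ^ B * N < |DwP w z q c N a|) (2 / L ^ U) (by
      intro a
      by_cases hn : Ncp w z a
      · obtain ⟨r', hr1, hr2⟩ := spread_exists w z q (fun n => rr 0 a (pt q c n))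
        have hcl := spread_Clb d (by omega) w z q c N a hn r' hr1 hr2
        have e1 := a3 z hw'z hzu (fun _ => 1) (fun _ => by norm_num) r' N (Clb_mono hcl hw2 le_rfl) hN
        have e2 := a4 w hw1 hw2 (fun _ => 1) (fun _ => by norm_num) r' N (Clb_mono hcl le_rfl hw'z) hN
        have hsub : (Icc (-(H : ℤ)) H).filter (fun b : ℤ => Ncp w z (Function.update a 0 b) ∧
            Cop w z q c (Function.update a 0 b) ∧ 3 / LL ^ B * N < |DwP w z q c N (Function.update a 0 b)|) ⊆
            (Icc (-(H : ℤ)) H).filter (fun b : ℤ => 1 / LL ^ B * N < |Dw (fun _ => 1) r' N w' z b|) ∪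
            (Icc (-(H : ℤ)) H).filter (fun b : ℤ => 1 / LL ^ B * N < |Dw (fun _ => 1) r' N w w' b|) := by
          intro b hb
          rw [mem_filter] at hb
          obtain ⟨hbH, _, hcop, hgt⟩ := hb
          by_contra hcon
          rw [mem_union, mem_filter, mem_filter] at hcon
          push Not at hcon
          have f1 := hcon.1 hbH
          have f2 := hcon.2 hbH
          have f3 : ∀ n, ∀ p ∈ qz w z q, ¬ (p : ℤ) ∣ b + (fun n => rr 0 a (pt q c n)) n := by
            intro n p hp
            have := Cop_pt w z q c _ hcop n p hp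
            rwa [rr_upd, Function.update_self] at this
          have f4 := spread_cmp w z q N hwone (hw2.trans hw'z) hq (fun n => rr 0 a (pt q c n)) r' hr1 hr2 b f3
          have f5 : DwP w z q c N (Function.update a 0 b) = Dw (fun _ => 1) (fun n => rr 0 a (pt q c n)) N w z b := by
            unfold DwP
            rw [Function.update_self]
            congr 1
            funext n
            exact rr_upd _ _ _
          rw [f5] at hgt
          have f6 : Dw (fun _ => 1) r' N w z b = Dw (fun _ => 1) r' N w' z b + Dw (fun _ => 1) r' N w w' b := by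
            unfold Dw
            ring
          have f7 := abs_add_le (Dw (fun _ => 1) r' N w' z b) (Dw (fun _ => 1) r' N w w' b)
          rw [← f6] at f7
          -- the error
          have g1 : 2 * Real.log q ≤ 2 * A * LL := by
            have g2 : Real.log q ≤ A * LL := by
              have hq0 : (0 : ℝ) < q := by exact_mod_cast hq
              have := Real.log_le_log hq0 hqA
              rwa [Real.log_pow] at this
            linarith
          have g3 : (N : ℝ) / w + 1 ≤ N * (2 / LL ^ (B + 5)) := by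
            have g4 : (N : ℝ) / w ≤ N * (1 / LL ^ (B + 5)) := by
              rw [div_eq_mul_one_div]
              apply mul_le_mul_of_nonneg_left _ hN0.le
              apply one_div_le_one_div_of_le (by positivity)
              exact (pow_le_pow_right₀ hLL1 (by omega)).trans hw1
            have g5 : 1 ≤ N * (1 / LL ^ (B + 5)) := by
              rw [mul_one_div, le_div_iff₀ (by positivity), one_mul]
              exact a8.trans hN
            have e : (N : ℝ) * (2 / LL ^ (B + 5)) = N * (1 / LL ^ (B + 5)) + N * (1 / LL ^ (B + 5)) := by ring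
            rw [e]
            linarith
          have g6 : (Vz z)⁻¹ * (2 * Real.log q * ((N : ℝ) / w + 1)) ≤ 1 / LL ^ B * N := by
            have hlq : 0 ≤ Real.log q := Real.log_natCast_nonneg q
            calc (Vz z)⁻¹ * (2 * Real.log q * ((N : ℝ) / w + 1)) ≤ LL ^ 3 * ((2 * A * LL) * (N * (2 / LL ^ (B + 5)))) := by
                  apply mul_le_mul hV _ (by positivity) (by positivity)
                  exact mul_le_mul g1 g3 (by positivity) (by positivity)
              _ = (4 * A) / LL * (1 / LL ^ B * N) := by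
                  rw [pow_add]
                  field_simp
                  ring
              _ ≤ 1 * (1 / LL ^ B * N) := by
                  apply mul_le_mul_of_nonneg_right _ (by positivity)
                  rw [div_le_one hLL0]
                  linarith
              _ = _ := one_mul _
          have g7 : 3 / LL ^ B * (N : ℝ) = 1 / LL ^ B * N + 1 / LL ^ B * N + 1 / LL ^ B * N := by ring
          rw [g7] at hgt
          linarith
        have hcard := (card_le_card hsub).trans (card_union_le _ _)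
        have hcardr : ((((Icc (-(H : ℤ)) H).filter (fun b : ℤ => Ncp w z (Function.update a 0 b) ∧
            Cop w z q c (Function.update a 0 b) ∧ 3 / LL ^ B * N < |DwP w z q c N (Function.update a 0 b)|)).card : ℕ) : ℝ) ≤
            ((((Icc (-(H : ℤ)) H).filter (fun b : ℤ => 1 / LL ^ B * N < |Dw (fun _ => 1) r' N w' z b|)).card : ℕ) : ℝ) +
            ((((Icc (-(H : ℤ)) H).filter (fun b : ℤ => 1 / LL ^ B * N < |Dw (fun _ => 1) r' N w w' b|)).card : ℕ) : ℝ) := by
          exact_mod_cast hcard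
        have hfin := hcardr.trans (add_le_add e1 e2)
        have e3 : (2 * H + 1 : ℝ) / L ^ U + (2 * H + 1) / L ^ U = 2 / L ^ U * (2 * H + 1) := by ring
        rw [e3] at hfin
        refine le_trans (le_of_eq ?_) hfin
        congr!
      · simp only [Ncp_upd, hn, false_and, filter_false, card_empty, Nat.cast_zero]
        positivity)
    convert key

end Pool.Agent.TP975.RP
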