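import Mathlib
import Pool.Agent.TP975.RP.Eh3

/-!
Residue classes: the main term.
-/

set_option autoImplicit false

namespace Pool.Agent.TP975.RP

open Finset
open Pool.Agent.H373R2.T7

/-- the constant of a modulus -/
noncomputable def Kq {d : ℕ} (w q : ℕ) (f : Fin (d + 1) → ℤ) : ℝ :=
  ∏ p ∈ (Icc 1 w).filter Nat.Prime, (1 - ((if p ∣ q then 0 else om1 f p : ℕ) : ℝ) / p) * (1 - 1 / (p : ℝ))⁻¹

/-- the points as the values of a polynomial -/
noncomputable def gpt (q c : ℕ) : Fin 1 → Polynomial ℤ := fun _ => Polynomial.C ((c : ℤ) - q) + Polynomial.C (q : ℤ) * Polynomial.X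

lemma gpt_eval (q c n : ℕ) (j : Fin 1) : (gpt q c j).eval (n : ℤ) = pt q c n := by
  unfold gpt pt
  simp

lemma pt_sub (q c n : ℕ) : (q : ℤ) ∣ pt q c n - c := by
  unfold pt
  exact ⟨n - 1, by ring⟩

lemma om_pt {d : ℕ} (q c p : ℕ) (hp : p.Prime) (f : Fin (d + 1) → ℤ) (h : p ∣ q → ¬ (p : ℤ) ∣ ev f (c : ℤ)) :
    omC (fun _ : Fin 1 => (0 : Fin 1)) (gpt q c) (fun _ => f) p = if p ∣ q then 0 else om1 f p := by
  unfold omC
  simp only [gpt_eval]
  split_ifs with hq
  · rw [card_eq_zero, filter_eq_empty_iff]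
    rintro n _ ⟨_, hd⟩
    apply h hq
    rw [ev_mod f p (c : ℤ) (pt q c n)]
    · exact hd
    · have h1 : (p : ℤ) ∣ (q : ℤ) := Int.natCast_dvd_natCast.2 hq
      have h2 := h1.trans (pt_sub q c n)
      rw [← neg_sub]
      exact (dvd_neg).2 h2
  · unfold om1
    have hp0 : (0 : ℤ) < p := by exact_mod_cast hp.pos
    set φ : ℕ → ℕ := fun n => ((pt q c n) % (p : ℤ)).toNat with hφ
    have e1 : ∀ n : ℕ, ((φ n : ℕ) : ℤ) = (pt q c n) % (p : ℤ) := fun n => Int.toNat_of_nonneg (Int.emod_nonneg _ hp0.ne')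
    have e2 : ∀ n : ℕ, φ n < p := by
      intro n
      have := Int.emod_lt_of_pos (pt q c n) hp0
      rw [← e1 n] at this
      exact_mod_cast this
    have e3 : ∀ n : ℕ, (p : ℤ) ∣ pt q c n - φ n := by
      intro n
      rw [e1]
      exact Int.dvd_self_sub_emod
    have hinj : Set.InjOn φ (range p : Set ℕ) := by
      intro n hn n' hn' heq
      rw [mem_coe, mem_range] at hn hn'
      have h1 : (p : ℤ) ∣ pt q c n - pt q c n' := by
        have e : pt q c n - pt q c n' = (pt q c n - φ n) - (pt q c n' - φ n') := by rw [heq]; ring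
        rw [e]
        exact dvd_sub (e3 n) (e3 n')
      have h2 : pt q c n - pt q c n' = (q : ℤ) * ((n : ℤ) - n') := by unfold pt; ring
      rw [h2] at h1
      rcases (Nat.prime_iff_prime_int.1 hp).dvd_or_dvd h1 with h3 | h3
      · exact absurd (Int.natCast_dvd_natCast.1 h3) hq
      · have h4 := Int.eq_zero_of_abs_lt_dvd h3 (by
          rw [abs_lt]
          constructor <;> omega)
        omega
    have hmaps : Set.MapsTo φ (range p : Set ℕ) (range p : Set ℕ) := fun n _ => by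
      rw [mem_coe, mem_range]
      exact e2 n
    have hsurj := Finset.surjOn_of_injOn_of_card_le φ hmaps hinj le_rfl
    apply card_nbij φ
    · intro n hn
      rw [mem_coe, mem_filter, mem_range] at hn
      rw [mem_coe, mem_filter, mem_range]
      refine ⟨e2 n, ?_⟩
      obtain ⟨_, _, hd⟩ := hn
      exact (ev_mod f p _ _ (e3 n)).1 hd
    · exact hinj.mono (by
        intro n hn
        rw [mem_coe, mem_filter] at hn
        exact hn.1)
    · intro m hm
      rw [mem_coe, mem_filter] at hm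
      obtain ⟨n, hn, rfl⟩ := hsurj hm.1
      refine ⟨n, ?_, rfl⟩
      rw [mem_coe, mem_filter]
      exact ⟨hn, 0, (ev_mod f p _ _ (e3 n)).2 hm.2⟩

lemma Kq_eq {d : ℕ} (w q c : ℕ) (f : Fin (d + 1) → ℤ) (h : ∀ p, p.Prime → p ∣ q → ¬ (p : ℤ) ∣ ev f (c : ℤ)) :
    CwC w (fun _ : Fin 1 => (0 : Fin 1)) (gpt q c) (fun _ => f) = Kq w q f := by
  unfold CwC Kq
  refine prod_congr rfl fun p hp => ?_
  rw [mem_filter] at hp
  rw [om_pt q c p hp.2 f (h p hp.2), pow_one]

lemma Kq_bd {d : ℕ} (w q c : ℕ) (f : Fin (d + 1) → ℤ) (h : ∀ p, p.Prime → p ∣ q → ¬ (p : ℤ) ∣ ev f (c : ℤ)) :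
    0 ≤ Kq w q f ∧ Kq w q f ≤ (Vz w)⁻¹ := by
  rw [← Kq_eq w q c f h]
  have := CwC_bd w (fun _ : Fin 1 => (0 : Fin 1)) (gpt q c) (fun _ => f)
  rwa [pow_one] at this

/-- the sifted sum of a class -/
theorem sift_pt (d E U : ℕ) : ∃ N0 : ℕ, ∀ x : ℕ, N0 ≤ x → ∀ w : ℕ, 1 ≤ w → (w : ℝ) ≤ Real.log x ^ E →
    ∀ (f : Fin (d + 1) → ℤ) (q c : ℕ), (∀ p, p.Prime → p ∣ q → ¬ (p : ℤ) ∣ ev f (c : ℤ)) →
    |∑ n ∈ Icc 1 x, lamz w (ev f (pt q c n)).natAbs - Kq w q f * x| ≤ (Vz w)⁻¹ * (x / Real.log x ^ U) := by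
  obtain ⟨N0, h0⟩ := MG_eval 1 d 1 E U
  refine ⟨max N0 1, fun x hx w hw hwE f q c h => ?_⟩
  have hx0 : N0 ≤ x := le_trans (le_max_left _ _) hx
  have hMG : MG w (fun _ : Fin 1 => (0 : Fin 1)) (Icc 1 x) (Gp (gpt q c)) (fun _ => f) =
      ∑ n ∈ Icc 1 x, lamz w (ev f (pt q c n)).natAbs := by
    unfold MG QM Gp
    refine sum_congr rfl fun n _ => ?_
    rw [Fintype.prod_unique, gpt_eval]
  by_cases hom : ∀ p ≤ w, p.Prime → omC (fun _ : Fin 1 => (0 : Fin 1)) (gpt q c) (fun _ => f) p < p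
  · have key := h0 x hx0 w hw hwE 1 (fun _ => 0) (gpt q c) (fun _ => f) (by
      intro j
      unfold gpt
      refine (Polynomial.natDegree_add_le _ _).trans (max_le ?_ ?_)
      · rw [Polynomial.natDegree_C]; omega
      · exact (Polynomial.natDegree_C_mul_le _ _).trans Polynomial.natDegree_X_le) hom
    rw [hMG, Kq_eq w q c f h, pow_one] at key
    exact key
  · push Not at hom
    obtain ⟨p, hpw, hp, hom⟩ := hom
    have h1 : omC (fun _ : Fin 1 => (0 : Fin 1)) (gpt q c) (fun _ => f) p = p := le_antisymm (omC_le _ _ _ _) hom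
    have hall : ∀ n ∈ range p, (p : ℤ) ∣ ev f (pt q c n) := by
      unfold omC at h1
      have h2 : (range p).filter (fun n : ℕ => ∃ j, (p : ℤ) ∣ ev ((fun _ => f : Fin 1 → Fin (d + 1) → ℤ) ((fun _ => 0 : Fin 1 → Fin 1) j)) ((gpt q c j).eval (n : ℤ))) = range p := by
        apply eq_of_subset_of_card_le (filter_subset _ _)
        rw [h1, card_range]
      intro n hn
      rw [← h2, mem_filter] at hn
      obtain ⟨_, j, hd⟩ := hn
      rwa [gpt_eval] at hd
    have hz : ∀ n : ℕ, lamz w (ev f (pt q c n)).natAbs = 0 := by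
      intro n
      unfold lamz
      rw [if_neg]
      intro hcon
      apply hcon p (mem_pz.2 ⟨hpw, hp⟩)
      rw [← Int.natCast_dvd]
      have h3 := hall (n % p) (mem_range.2 (Nat.mod_lt _ hp.pos))
      rw [ev_mod f p (pt q c n) (pt q c (n % p))]
      · exact h3
      · have e : pt q c n - pt q c (n % p) = q * ((n : ℤ) - ((n % p : ℕ) : ℤ)) := by unfold pt; ring
        rw [e]
        apply Dvd.dvd.mul_left
        rw [Int.natCast_mod]
        exact Int.dvd_self_sub_emod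
    have hK : Kq w q f = 0 := by
      rw [← Kq_eq w q c f h]
      unfold CwC
      apply prod_eq_zero (i := p)
      · rw [mem_filter, mem_Icc]
        exact ⟨⟨hp.one_le, hpw⟩, hp⟩
      · rw [h1, div_self (by exact_mod_cast hp.ne_zero), sub_self, zero_mul]
    simp only [hz, hK, sum_const_zero, zero_mul, sub_self, abs_zero]
    have hV1 := one_le_Vinv w
    have : 0 ≤ Real.log (x : ℝ) := Real.log_natCast_nonneg x
    positivity

/-- the number of the members of a class -/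
def Nc (q c y : ℕ) : ℕ := (y + q - c) / q

lemma Nc_bd (q c y : ℕ) (hq : 1 ≤ q) (hc : c ∈ Icc 1 q) : |(Nc q c y : ℝ) - (y : ℝ) / q| ≤ 1 := by
  rw [mem_Icc] at hc
  have hq0 : (0 : ℝ) < q := by exact_mod_cast hq
  unfold Nc
  have h1 := Nat.div_add_mod (y + q - c) q
  have h2 := Nat.mod_lt (y + q - c) (show q > 0 by omega)
  set N := (y + q - c) / q with hN
  set r := (y + q - c) % q with hr
  have h3 : (q : ℝ) * N + r + c = y + q := by
    have : q * N + r + c = y + q := by omega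
    exact_mod_cast this
  have h4 : (r : ℝ) < q := by exact_mod_cast h2
  have h5 : (0 : ℝ) ≤ r := Nat.cast_nonneg _
  have h6 : (1 : ℝ) ≤ c := by exact_mod_cast hc.1
  have h7 : (c : ℝ) ≤ q := by exact_mod_cast hc.2
  have h8 : (N : ℝ) - y / q = (q - r - c) / q := by
    field_simp
    linarith
  rw [h8, abs_le, le_div_iff₀ hq0, div_le_iff₀ hq0]
  constructor <;> linarith

/-- the members of a class and the points -/
lemma class_sum {α : Type} [AddCommMonoid α] (F : ℤ → α) (q c y : ℕ) (hq : 1 ≤ q) (hc : c ∈ Icc 1 q) :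
    ∑ m ∈ (Icc 1 y).filter (fun m => m % q = c % q), F (m : ℤ) = ∑ n ∈ Icc 1 (Nc q c y), F (pt q c n) := by
  rw [mem_Icc] at hc
  symm
  have hpt : ∀ n : ℕ, 1 ≤ n → pt q c n = ((c + q * (n - 1) : ℕ) : ℤ) := by
    intro n hn
    unfold pt
    obtain ⟨k, rfl⟩ : ∃ k, n = k + 1 := ⟨n - 1, by omega⟩
    push_cast
    ring
  have hdiv : ∀ n : ℕ, n ≤ Nc q c y ↔ q * n ≤ y + q - c := by
    intro n
    unfold Nc
    rw [Nat.le_div_iff_mul_le (by omega), mul_comm]
  apply sum_nbij' (fun n => c + q * (n - 1)) (fun m => (m - c) / q + 1)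
  · intro n hn
    rw [mem_Icc, hdiv] at hn
    rw [mem_filter, mem_Icc]
    obtain ⟨k, rfl⟩ : ∃ k, n = k + 1 := ⟨n - 1, by omega⟩
    have e : q * (k + 1) = q * k + q := by ring
    refine ⟨⟨?_, ?_⟩, ?_⟩
    · show 1 ≤ c + q * (k + 1 - 1)
      omega
    · show c + q * (k + 1 - 1) ≤ y
      rw [Nat.add_sub_cancel]
      omega
    · show (c + q * (k + 1 - 1)) % q = c % q
      rw [Nat.add_mul_mod_self_left]
  · intro m hm
    rw [mem_filter, mem_Icc] at hm
    obtain ⟨⟨h1, h2⟩, h3⟩ := hm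
    rw [mem_Icc, hdiv]
    have hcm : c ≤ m := by
      by_contra hlt
      push Not at hlt
      rcases Nat.lt_or_ge c q with h4 | h4
      · rw [Nat.mod_eq_of_lt h4, Nat.mod_eq_of_lt (hlt.trans h4)] at h3
        omega
      · have : c = q := by omega
        rw [this, Nat.mod_self, Nat.mod_eq_of_lt (by omega)] at h3
        omega
    have h5 := Nat.div_add_mod (m - c) q
    have h6 : (m - c) % q = 0 := Nat.sub_mod_eq_zero_of_mod_eq h3
    refine ⟨Nat.le_add_left 1 _, ?_⟩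
    show q * ((m - c) / q + 1) ≤ y + q - c
    have e : q * ((m - c) / q + 1) = q * ((m - c) / q) + q := by ring
    rw [e]
    omega
  · intro n hn
    rw [mem_Icc] at hn
    show (c + q * (n - 1) - c) / q + 1 = n
    rw [Nat.add_sub_cancel_left, Nat.mul_div_cancel_left _ (by omega)]
    omega
  · intro m hm
    rw [mem_filter, mem_Icc] at hm
    obtain ⟨⟨h1, h2⟩, h3⟩ := hm
    have hcm : c ≤ m := by
      by_contra hlt
      push Not at hlt
      rcases Nat.lt_or_ge c q with h4 | h4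
      · rw [Nat.mod_eq_of_lt h4, Nat.mod_eq_of_lt (hlt.trans h4)] at h3
        omega
      · have : c = q := by omega
        rw [this, Nat.mod_self, Nat.mod_eq_of_lt (by omega)] at h3
        omega
    have h5 := Nat.div_add_mod (m - c) q
    have h6 : (m - c) % q = 0 := Nat.sub_mod_eq_zero_of_mod_eq h3
    show c + q * ((m - c) / q + 1 - 1) = m
    rw [Nat.add_sub_cancel]
    omega
  · intro n hn
    rw [mem_Icc] at hn
    rw [hpt n hn.1]

end Pool.Agent.TP975.RP
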