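import Mathlib
import Pool.Agent.TP975.RP.Eh4

/-!
Residue classes: the deterministic part.
-/

set_option autoImplicit false

namespace Pool.Agent.TP975.RP

open Finset
open Pool.Agent.H373R2.T7

/-- the number of prime values in a residue class -/
def piq {d : ℕ} (f : Fin (d + 1) → ℤ) (q c y : ℕ) : ℕ :=
  ((Icc 1 y).filter (fun m : ℕ => m % q = c % q ∧ (ev f (m : ℤ)).natAbs.Prime)).card

/-- the coprime classes -/
def Cp {d : ℕ} (f : Fin (d + 1) → ℤ) (q c : ℕ) : Prop := ∀ p, p.Prime → p ∣ q → ¬ (p : ℤ) ∣ ev f (c : ℤ)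

lemma piq_mono {d : ℕ} (f : Fin (d + 1) → ℤ) (q c : ℕ) {y y' : ℕ} (h : y ≤ y') : piq f q c y ≤ piq f q c y' := by
  unfold piq
  apply card_le_card
  intro m hm
  rw [mem_filter, mem_Icc] at hm ⊢
  exact ⟨⟨hm.1.1, hm.1.2.trans h⟩, hm.2⟩

lemma piq_sum {d : ℕ} (L : ℝ) (f : Fin (d + 1) → ℤ) (q c y : ℕ) (hq : 1 ≤ q) (hc : c ∈ Icc 1 q) :
    L * piq f q c y = ∑ n ∈ Icc 1 (Nc q c y), L * (if (ev f (pt q c n)).natAbs.Prime then 1 else 0) := by
  rw [← class_sum (fun v => L * (if (ev f v).natAbs.Prime then (1 : ℝ) else 0)) q c y hq hc, ← mul_sum, ← sum_filter, sum_const,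
    nsmul_eq_mul, mul_one, filter_filter]
  rfl

/-- a grid point -/
lemma gridE {d : ℕ} (f : Fin (d + 1) → ℤ) (w z q c y X' : ℕ) (L η β V θ : ℝ) (hq : 1 ≤ q) (hc : c ∈ Icc 1 q)
    (hcp : Cp f q c) (hη0 : 0 ≤ η) (hη : 2 * η ≤ 1) (hβ0 : 0 ≤ β) (hθ0 : 0 ≤ θ) (hV : (Vz w)⁻¹ ≤ V) (hy : y ≤ X')
    (hP : ∀ m : ℕ, 1 ≤ m → m ≤ X' → |L * (if (ev f (m : ℤ)).natAbs.Prime then 1 else 0) -
      ArithmeticFunction.vonMangoldt (ev f (m : ℤ)).natAbs| ≤ 2 * η * ArithmeticFunction.vonMangoldt (ev f (m : ℤ)).natAbs)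
    (hD : |DwP w z q c (Nc q c y) f| ≤ β * Nc q c y)
    (hS : |∑ n ∈ Icc 1 (Nc q c y), lamz w (ev f (pt q c n)).natAbs - Kq w q f * Nc q c y| ≤ V * (θ * Nc q c y)) :
    |L * piq f q c y - Kq w q f * ((y : ℝ) / q)| ≤
      2 * |ErP z q c (Nc q c y) f| + (2 * β + 2 * η * V + V * θ) * Nc q c y + V := by
  set N := Nc q c y with hN
  have hVone : 1 ≤ V := (one_le_Vinv w).trans hV
  have hN0 : (0 : ℝ) ≤ N := Nat.cast_nonneg _
  have hev : ∀ n : ℕ, f 0 + rr 0 f (pt q c n) = ev f (pt q c n) := by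
    intro n
    rw [ev_rr 0]
    simp
  -- the sum of the von Mangoldt function
  set Sw := ∑ n ∈ Icc 1 N, lamz w (ev f (pt q c n)).natAbs with hSw
  set SL := ∑ n ∈ Icc 1 N, ArithmeticFunction.vonMangoldt (ev f (pt q c n)).natAbs with hSL
  have e1 : SL = ErP z q c N f + DwP w z q c N f + Sw := by
    rw [hSL, hSw]
    unfold ErP DwP Dw Tw hh
    simp only [hev, one_mul]
    rw [sum_sub_distrib]
    ring
  have hSw1 : Sw ≤ V * N := by
    rw [hSw]
    calc ∑ n ∈ Icc 1 N, lamz w (ev f (pt q c n)).natAbs ≤ ∑ n ∈ Icc 1 N, V :=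
          sum_le_sum fun n _ => (lamz_le _ _).trans hV
      _ = V * N := by rw [sum_const, Nat.card_Icc, Nat.add_sub_cancel, nsmul_eq_mul, mul_comm]
  have hSw0 : 0 ≤ Sw := sum_nonneg fun n _ => lamz_nonneg _ _
  have hSL0 : 0 ≤ SL := sum_nonneg fun n _ => ArithmeticFunction.vonMangoldt_nonneg
  have e2 : |L * piq f q c y - SL| ≤ 2 * η * SL := by
    rw [piq_sum L f q c y hq hc, ← hN, hSL, ← sum_sub_distrib, mul_sum]
    refine (abs_sum_le_sum_abs _ _).trans (sum_le_sum fun n hn => ?_)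
    rw [mem_Icc] at hn
    -- the point as a natural number
    have hc' := mem_Icc.1 hc
    have h1 : pt q c n = ((c + q * (n - 1) : ℕ) : ℤ) := by
      unfold pt
      obtain ⟨k, rfl⟩ : ∃ k, n = k + 1 := ⟨n - 1, by omega⟩
      push_cast
      ring
    have h2 : q * n ≤ y + q - c := by
      have h3 : n ≤ (y + q - c) / q := hn.2
      rw [Nat.le_div_iff_mul_le (by omega), mul_comm] at h3
      exact h3
    have h4 : c + q * (n - 1) ≤ X' := by
      obtain ⟨k, rfl⟩ : ∃ k, n = k + 1 := ⟨n - 1, by omega⟩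
      have e : q * (k + 1) = q * k + q := by ring
      rw [Nat.add_sub_cancel]
      omega
    rw [h1]
    exact hP _ (by omega) h4
  have hD1 := abs_le.1 hD
  have hE1 := le_abs_self (ErP z q c N f)
  have hE2 := neg_abs_le (ErP z q c N f)
  have hE0 := abs_nonneg (ErP z q c N f)
  have hSL1 : SL ≤ |ErP z q c N f| + β * N + V * N := by linarith
  have e3 : 2 * η * SL ≤ |ErP z q c N f| + β * N + 2 * η * (V * N) := by
    have h1 : 2 * η * SL ≤ 2 * η * (|ErP z q c N f| + β * N + V * N) := mul_le_mul_of_nonneg_left hSL1 (by positivity)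
    have h2 : 2 * η * (|ErP z q c N f| + β * N) ≤ 1 * (|ErP z q c N f| + β * N) :=
      mul_le_mul_of_nonneg_right hη (by positivity)
    linarith
  have hK := Kq_bd w q c f hcp
  have hNy := Nc_bd q c y hq hc
  rw [← hN] at hNy
  have e4 : |Kq w q f * N - Kq w q f * ((y : ℝ) / q)| ≤ V := by
    rw [← mul_sub, abs_mul, abs_of_nonneg hK.1]
    calc Kq w q f * |(N : ℝ) - (y : ℝ) / q| ≤ V * 1 := mul_le_mul (hK.2.trans hV) hNy (abs_nonneg _) (by linarith)
      _ = V := mul_one V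
  have f1 := abs_le.1 e2
  have f2 := abs_le.1 hS
  have f3 := abs_le.1 e4
  rw [abs_le]
  constructor <;> linarith

/-- interpolation -/
lemma interp {d : ℕ} (f : Fin (d + 1) → ℤ) (q c y1 y y2 : ℕ) (L K R : ℝ) (hL : 0 ≤ L) (hK : 0 ≤ K)
    (h1 : y1 ≤ y) (h2 : y ≤ y2)
    (g1 : |L * piq f q c y1 - K * ((y1 : ℝ) / q)| ≤ R) (g2 : |L * piq f q c y2 - K * ((y2 : ℝ) / q)| ≤ R) :
    |L * piq f q c y - K * ((y : ℝ) / q)| ≤ R + K * (((y2 : ℝ) - y1) / q) := by
  have p1 : (piq f q c y1 : ℝ) ≤ piq f q c y := by exact_mod_cast piq_mono f q c h1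
  have p2 : (piq f q c y : ℝ) ≤ piq f q c y2 := by exact_mod_cast piq_mono f q c h2
  have q1 : K * ((y1 : ℝ) / q) ≤ K * ((y : ℝ) / q) := by
    apply mul_le_mul_of_nonneg_left _ hK
    apply div_le_div_of_nonneg_right _ (Nat.cast_nonneg _)
    exact_mod_cast h1
  have q2 : K * ((y : ℝ) / q) ≤ K * ((y2 : ℝ) / q) := by
    apply mul_le_mul_of_nonneg_left _ hK
    apply div_le_div_of_nonneg_right _ (Nat.cast_nonneg _)
    exact_mod_cast h2
  have r1 := abs_le.1 g1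
  have r2 := abs_le.1 g2
  have s1 := mul_le_mul_of_nonneg_left p1 hL
  have s2 := mul_le_mul_of_nonneg_left p2 hL
  have e : K * (((y2 : ℝ) - y1) / q) = K * ((y2 : ℝ) / q) - K * ((y1 : ℝ) / q) := by ring
  rw [e, abs_le]
  constructor <;> linarith

open Classical in
/-- the coprime classes of a modulus -/
noncomputable def cls {d : ℕ} (f : Fin (d + 1) → ℤ) (q : ℕ) : Finset ℕ := (Icc 1 q).filter (fun c => Cp f q c)

/-- a class which is not coprime -/
lemma piq_zero {d : ℕ} (f : Fin (d + 1) → ℤ) (q c y y0 X' : ℕ) (hq : 1 ≤ q) (hqy : q ≤ y0) (hy : y ≤ X')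
    (hbig : ∀ m : ℕ, 1 ≤ m → m ≤ X' → y0 < (ev f (m : ℤ)).natAbs) (hc : ¬ Cp f q c) : piq f q c y = 0 := by
  unfold piq
  rw [card_eq_zero, filter_eq_empty_iff]
  rintro m hm ⟨h1, h2⟩
  rw [mem_Icc] at hm
  unfold Cp at hc
  push Not at hc
  obtain ⟨p, hp, hpq, hpd⟩ := hc
  have h3 : (q : ℤ) ∣ (m : ℤ) - c := by
    have : (m : ℤ) ≡ c [ZMOD q] := by exact_mod_cast (Int.natCast_modEq_iff.2 h1)
    exact this.symm.dvd
  have h4 : (p : ℤ) ∣ (m : ℤ) - c := (Int.natCast_dvd_natCast.2 hpq).trans h3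
  have h5 : (p : ℤ) ∣ ev f (m : ℤ) := (ev_mod f p _ _ h4).2 hpd
  have h6 := (Nat.prime_dvd_prime_iff_eq hp h2).1 (Int.natCast_dvd.1 h5)
  have h7 := hbig m hm.1 (hm.2.trans hy)
  have h8 := Nat.le_of_dvd (by omega) hpq
  omega

/-- all prime values -/
lemma piq_all {d : ℕ} (f : Fin (d + 1) → ℤ) (q y y0 X' : ℕ) (hq : 1 ≤ q) (hqy : q ≤ y0) (hy : y ≤ X')
    (hbig : ∀ m : ℕ, 1 ≤ m → m ≤ X' → y0 < (ev f (m : ℤ)).natAbs) :
    piq f 1 1 y = ∑ c ∈ cls f q, piq f q c y := by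
  classical
  have h1 : piq f 1 1 y = ∑ c ∈ Icc 1 q, piq f q c y := by
    unfold piq
    have h2 : (Icc 1 y).filter (fun m : ℕ => m % 1 = 1 % 1 ∧ (ev f (m : ℤ)).natAbs.Prime) =
        (Icc 1 q).biUnion (fun c => (Icc 1 y).filter (fun m : ℕ => m % q = c % q ∧ (ev f (m : ℤ)).natAbs.Prime)) := by
      ext m
      rw [mem_filter, mem_biUnion]
      constructor
      · rintro ⟨h3, _, h4⟩
        rcases Nat.eq_zero_or_pos (m % q) with h5 | h5
        · exact ⟨q, mem_Icc.2 ⟨hq, le_rfl⟩, mem_filter.2 ⟨h3, by rw [h5, Nat.mod_self], h4⟩⟩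
        · exact ⟨m % q, mem_Icc.2 ⟨h5, (Nat.mod_lt _ (by omega)).le⟩, mem_filter.2 ⟨h3, (Nat.mod_mod _ _).symm, h4⟩⟩
      · rintro ⟨c, _, hm⟩
        rw [mem_filter] at hm
        exact ⟨hm.1, by rw [Nat.mod_one, Nat.mod_one], hm.2.2⟩
    rw [h2, card_biUnion]
    intro c hc c' hc' hne
    rw [mem_coe, mem_Icc] at hc hc'
    rw [Function.onFun, disjoint_left]
    intro m hm hm'
    rw [mem_filter] at hm hm'
    have h3 : c % q = c' % q := hm.2.1.symm.trans hm'.2.1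
    apply hne
    rcases Nat.lt_or_ge c q with h4 | h4
    · rcases Nat.lt_or_ge c' q with h5 | h5
      · rwa [Nat.mod_eq_of_lt h4, Nat.mod_eq_of_lt h5] at h3
      · have : c' = q := by omega
        rw [this, Nat.mod_self, Nat.mod_eq_of_lt h4] at h3
        omega
    · rcases Nat.lt_or_ge c' q with h5 | h5
      · have : c = q := by omega
        rw [this, Nat.mod_self, Nat.mod_eq_of_lt h5] at h3
        omega
      · omega
  rw [h1]
  unfold cls
  rw [sum_filter]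
  refine sum_congr rfl fun c _ => ?_
  split_ifs with hc
  · rfl
  · exact piq_zero f q c y y0 X' hq hqy hy hbig hc

/-- averaging over the coprime classes -/
lemma averaging {d : ℕ} (f : Fin (d + 1) → ℤ) (q y y0 X' : ℕ) (L K R : ℝ) (hL : 0 < L) (hq : 1 ≤ q) (hqy : q ≤ y0) (hy : y ≤ X')
    (hbig : ∀ m : ℕ, 1 ≤ m → m ≤ X' → y0 < (ev f (m : ℤ)).natAbs)
    (h : ∀ c ∈ cls f q, |L * piq f q c y - K| ≤ R) (c : ℕ) (hc : c ∈ cls f q) :
    |(piq f q c y : ℝ) - (piq f 1 1 y : ℝ) / (cls f q).card| ≤ 2 * R / L := by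
  have hφ : (0 : ℝ) < (cls f q).card := by exact_mod_cast card_pos.2 ⟨c, hc⟩
  have h1 : (piq f 1 1 y : ℝ) = ∑ c' ∈ cls f q, (piq f q c' y : ℝ) := by
    rw [piq_all f q y y0 X' hq hqy hy hbig]
    push_cast
    rfl
  have h2 : (piq f q c y : ℝ) - (piq f 1 1 y : ℝ) / (cls f q).card =
      (∑ c' ∈ cls f q, ((piq f q c y : ℝ) - piq f q c' y)) / (cls f q).card := by
    rw [sum_sub_distrib, sum_const, nsmul_eq_mul, h1]
    field_simp
  rw [h2, abs_div, abs_of_pos hφ, div_le_iff₀ hφ]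
  refine (abs_sum_le_sum_abs _ _).trans ?_
  calc ∑ c' ∈ cls f q, |(piq f q c y : ℝ) - piq f q c' y| ≤ ∑ c' ∈ cls f q, 2 * R / L := by
        refine sum_le_sum fun c' hc' => ?_
        have h3 := abs_le.1 (h c hc)
        have h4 := abs_le.1 (h c' hc')
        rw [le_div_iff₀ hL, ← abs_of_pos hL, ← abs_mul, abs_le]
        constructor <;> nlinarith
    _ = 2 * R / L * (cls f q).card := by rw [sum_const, nsmul_eq_mul, mul_comm]

end Pool.Agent.TP975.RP
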