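import Mathlib
import Pool.Agent.TP975.RP.Eh5

/-!
Residue classes: the exceptional polynomials of a dyadic block of moduli.
-/

set_option autoImplicit false

namespace Pool.Agent.TP975.RP

open Finset
open Pool.Agent.H373R2.T7

open Classical in
/-- the exceptional polynomials of a block of moduli -/
noncomputable def EvE (d H z : ℕ) (T : ℝ) (k i j : ℕ) : Finset (Fin 1 → Fin (d + 1) → ℤ) :=
  (Bx 1 d H).filter (fun a => ∃ cc : ℕ → ℕ, (∀ q, 1 ≤ q → cc q ∈ Icc 1 q) ∧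
    2 ^ k / T < ∑ q ∈ Ico (2 ^ j) (2 ^ (j + 1)), |ErP z q (cc q) (Nc q (cc q) (i * 2 ^ k)) (a 0)|)

lemma EvE_card (d H z A F k i j : ℕ) (hd : 1 ≤ d) (T L LL ε : ℝ) (hL : L = Real.log H) (hLL : LL = Real.log L) (hL1 : 1 ≤ L)
    (hLL0 : 0 ≤ LL) (hT : 1 ≤ T)
    (hmom : ∀ q c N : ℕ, 1 ≤ q → 3 * L ≤ N → (N : ℝ) ≤ L ^ A → (∀ n ∈ Icc 1 N, |((pt q c n : ℤ) : ℝ)| ≤ L ^ A) →
      ∑ a ∈ Bx 1 d H, (ErP z q c N (a 0)) ^ (2 * d) ≤ (Bx 1 d H).card * (LL ^ F * (L * N) ^ d))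
    (hi1 : 1 ≤ i) (hiT : (i : ℝ) ≤ 3 * T) (hiA : ((i * 2 ^ k + 1 : ℕ) : ℝ) ≤ L ^ A) (h8 : 8 * L * 2 ^ j ≤ 2 ^ k)
    (hjk : ((2 : ℝ) ^ j) ^ (d + 1) * L ^ ((d : ℝ) + ε) ≤ (2 * T) ^ d * ((2 : ℝ) ^ k) ^ d) :
    ((EvE d H z T k i j).card : ℝ) ≤ (Bx 1 d H).card * (2 * 8 ^ d * LL ^ F * T ^ (4 * d) / L ^ ε) := by
  classical
  have hL0 : 0 < L := by linarith
  have hT0 : 0 < T := by linarith
  have h2j : (0 : ℝ) < 2 ^ j := by positivity
  have h2k : (0 : ℝ) < 2 ^ k := by positivity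
  have h2j1 : (1 : ℝ) ≤ 2 ^ j := one_le_pow₀ (by norm_num)
  have hBc0 : (0 : ℝ) ≤ (Bx 1 d H).card := Nat.cast_nonneg _
  have hir : (1 : ℝ) ≤ i := by exact_mod_cast hi1
  set W : ℝ := LL ^ F * (L * (4 * T * 2 ^ k / 2 ^ j)) ^ d with hW
  have hW0 : 0 ≤ W := by positivity
  -- one class
  have hone : ∀ q ∈ Ico (2 ^ j) (2 ^ (j + 1)), ∀ c ∈ Icc 1 q,
      ∑ a ∈ Bx 1 d H, (ErP z q c (Nc q c (i * 2 ^ k)) (a 0)) ^ (2 * d) ≤ (Bx 1 d H).card * W := by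
    intro q hq c hc
    rw [mem_Ico] at hq
    have hc' := mem_Icc.1 hc
    have hq1 : 1 ≤ q := hc'.1.trans hc'.2
    have hq0 : (0 : ℝ) < q := by exact_mod_cast hq1
    have hqj : (2 : ℝ) ^ j ≤ q := by exact_mod_cast hq.1
    have hqj' : (q : ℝ) ≤ 2 * 2 ^ j := by
      have : (q : ℝ) ≤ ((2 ^ (j + 1) : ℕ) : ℝ) := by exact_mod_cast hq.2.le
      refine this.trans (le_of_eq ?_)
      push_cast
      rw [pow_succ]
      ring
    have hN := abs_le.1 (Nc_bd q c (i * 2 ^ k) hq1 hc)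
    set N := Nc q c (i * 2 ^ k) with hNd
    push_cast at hN
    have h1 : 3 * L ≤ N := by
      have h2 : 4 * L ≤ (i : ℝ) * 2 ^ k / q := by
        rw [le_div_iff₀ hq0]
        calc 4 * L * q ≤ 4 * L * (2 * 2 ^ j) := mul_le_mul_of_nonneg_left hqj' (by positivity)
          _ = 8 * L * 2 ^ j := by ring
          _ ≤ 2 ^ k := h8
          _ ≤ i * 2 ^ k := le_mul_of_one_le_left h2k.le hir
      linarith [hN.1]
    have h2 : (N : ℝ) ≤ 4 * T * 2 ^ k / 2 ^ j := by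
      have h3 : (i : ℝ) * 2 ^ k / q ≤ 3 * T * 2 ^ k / 2 ^ j := by
        apply div_le_div₀ (by positivity) _ h2j hqj
        exact mul_le_mul_of_nonneg_right hiT h2k.le
      have h4 : 1 ≤ T * 2 ^ k / 2 ^ j := by
        rw [le_div_iff₀ h2j, one_mul]
        have : (2 : ℝ) ^ j ≤ 2 ^ k := by nlinarith
        nlinarith
      have h5 : 4 * T * 2 ^ k / 2 ^ j = 3 * T * 2 ^ k / 2 ^ j + T * 2 ^ k / 2 ^ j := by ring
      linarith [hN.2]
    have h3 : (N : ℝ) ≤ L ^ A := by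
      refine le_trans ?_ hiA
      push_cast
      have : (i : ℝ) * 2 ^ k / q ≤ i * 2 ^ k := div_le_self (by positivity) (by exact_mod_cast hq1)
      linarith [hN.2]
    have h4 : ∀ n ∈ Icc 1 N, |((pt q c n : ℤ) : ℝ)| ≤ L ^ A := by
      intro n hn
      rw [mem_Icc] at hn
      have e1 : pt q c n = ((c + q * (n - 1) : ℕ) : ℤ) := by
        unfold pt
        obtain ⟨k, rfl⟩ : ∃ k, n = k + 1 := ⟨n - 1, by omega⟩
        push_cast
        ring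
      have e2 : q * n ≤ i * 2 ^ k + q - c := by
        have h3 : n ≤ (i * 2 ^ k + q - c) / q := hn.2
        rw [Nat.le_div_iff_mul_le (by omega), mul_comm] at h3
        exact h3
      have e3 : c + q * (n - 1) ≤ i * 2 ^ k := by
        obtain ⟨k, rfl⟩ : ∃ k, n = k + 1 := ⟨n - 1, by omega⟩
        have e : q * (k + 1) = q * k + q := by ring
        rw [Nat.add_sub_cancel]
        omega
      rw [e1]
      have e4 : (((c + q * (n - 1) : ℕ) : ℤ) : ℝ) = ((c + q * (n - 1) : ℕ) : ℝ) := by push_cast; ring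
      rw [e4, abs_of_nonneg (Nat.cast_nonneg _)]
      refine le_trans ?_ hiA
      exact_mod_cast e3.trans (Nat.le_succ _)
    refine (hmom q c N hq1 h1 h3 h4).trans ?_
    apply mul_le_mul_of_nonneg_left _ hBc0
    rw [hW]
    apply mul_le_mul_of_nonneg_left _ (by positivity)
    apply pow_le_pow_left₀ (by positivity)
    exact mul_le_mul_of_nonneg_left h2 hL0.le
  -- the power mean inequality
  have hblkc : ((Ico (2 ^ j) (2 ^ (j + 1))).card : ℝ) = 2 ^ j := by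
    rw [Nat.card_Ico, pow_succ]
    have : 2 ^ j * 2 - 2 ^ j = 2 ^ j := by omega
    rw [this]
    push_cast
    rfl
  have h2d : 2 * d = (2 * d - 1) + 1 := by omega
  have hpm : ∀ a : Fin 1 → Fin (d + 1) → ℤ, ∀ cc : ℕ → ℕ, (∀ q, 1 ≤ q → cc q ∈ Icc 1 q) →
      (∑ q ∈ Ico (2 ^ j) (2 ^ (j + 1)), |ErP z q (cc q) (Nc q (cc q) (i * 2 ^ k)) (a 0)|) ^ (2 * d) ≤
      (2 ^ j) ^ (2 * d - 1) * ∑ q ∈ Ico (2 ^ j) (2 ^ (j + 1)), ∑ c ∈ Icc 1 q, (ErP z q c (Nc q c (i * 2 ^ k)) (a 0)) ^ (2 * d) := by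
    intro a cc hcc
    have h1 := pow_sum_le_card_mul_sum_pow (s := Ico (2 ^ j) (2 ^ (j + 1)))
      (f := fun q => |ErP z q (cc q) (Nc q (cc q) (i * 2 ^ k)) (a 0)|) (fun q _ => abs_nonneg _) (2 * d - 1)
    rw [← h2d, hblkc] at h1
    refine h1.trans ?_
    apply mul_le_mul_of_nonneg_left _ (by positivity)
    refine sum_le_sum fun q hq => ?_
    rw [mem_Ico] at hq
    have hq1 : 1 ≤ q := le_trans Nat.one_le_two_pow hq.1
    rw [(even_two_mul d).pow_abs]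
    exact single_le_sum (f := fun c => (ErP z q c (Nc q c (i * 2 ^ k)) (a 0)) ^ (2 * d))
      (fun c _ => (even_two_mul d).pow_nonneg _) (hcc q hq1)
  -- Markov
  have hτ : 0 < (2 : ℝ) ^ k / T := by positivity
  have hsum : ((EvE d H z T k i j).card : ℝ) * (2 ^ k / T) ^ (2 * d) ≤
      (2 ^ j) ^ (2 * d - 1) * (2 ^ j * (2 * 2 ^ j * ((Bx 1 d H).card * W))) := by
    calc ((EvE d H z T k i j).card : ℝ) * (2 ^ k / T) ^ (2 * d) = ∑ a ∈ EvE d H z T k i j, ((2 : ℝ) ^ k / T) ^ (2 * d) := by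
          rw [sum_const, nsmul_eq_mul]
      _ ≤ ∑ a ∈ EvE d H z T k i j, (2 ^ j) ^ (2 * d - 1) * ∑ q ∈ Ico (2 ^ j) (2 ^ (j + 1)), ∑ c ∈ Icc 1 q,
          (ErP z q c (Nc q c (i * 2 ^ k)) (a 0)) ^ (2 * d) := by
          refine sum_le_sum fun a ha => ?_
          unfold EvE at ha
          rw [mem_filter] at ha
          obtain ⟨_, cc, hcc, hgt⟩ := ha
          exact (pow_le_pow_left₀ hτ.le hgt.le _).trans (hpm a cc hcc)
      _ ≤ ∑ a ∈ Bx 1 d H, (2 ^ j) ^ (2 * d - 1) * ∑ q ∈ Ico (2 ^ j) (2 ^ (j + 1)), ∑ c ∈ Icc 1 q,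
          (ErP z q c (Nc q c (i * 2 ^ k)) (a 0)) ^ (2 * d) := by
          apply sum_le_sum_of_subset_of_nonneg (filter_subset _ _)
          intro a _ _
          apply mul_nonneg (by positivity)
          exact sum_nonneg fun q _ => sum_nonneg fun c _ => (even_two_mul d).pow_nonneg _
      _ = (2 ^ j) ^ (2 * d - 1) * ∑ q ∈ Ico (2 ^ j) (2 ^ (j + 1)), ∑ c ∈ Icc 1 q, ∑ a ∈ Bx 1 d H,
          (ErP z q c (Nc q c (i * 2 ^ k)) (a 0)) ^ (2 * d) := by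
          rw [← mul_sum, sum_comm]
          congr 1
          refine sum_congr rfl fun q _ => ?_
          rw [sum_comm]
      _ ≤ (2 ^ j) ^ (2 * d - 1) * ∑ q ∈ Ico (2 ^ j) (2 ^ (j + 1)), 2 * 2 ^ j * ((Bx 1 d H).card * W) := by
          apply mul_le_mul_of_nonneg_left _ (by positivity)
          refine sum_le_sum fun q hq => ?_
          refine (sum_le_sum fun c hc => hone q hq c hc).trans ?_
          rw [sum_const, Nat.card_Icc, Nat.add_sub_cancel, nsmul_eq_mul]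
          apply mul_le_mul_of_nonneg_right _ (mul_nonneg hBc0 hW0)
          rw [mem_Ico] at hq
          have : (q : ℝ) ≤ ((2 ^ (j + 1) : ℕ) : ℝ) := by exact_mod_cast hq.2.le
          refine this.trans (le_of_eq ?_)
          push_cast
          rw [pow_succ]
          ring
      _ = _ := by rw [sum_const, nsmul_eq_mul, hblkc]
  have hp : 0 < ((2 : ℝ) ^ k / T) ^ (2 * d) := by positivity
  apply le_of_mul_le_mul_right _ hp
  refine hsum.trans ?_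
  -- numerical part
  clear hsum hone hpm hmom
  generalize ((Bx 1 d H).card : ℝ) = Bc at hBc0 ⊢
  have hLd : 0 < L ^ ((d : ℝ) + ε) := by positivity
  have hLε : 0 < L ^ ε := by positivity
  have hLsplit : L ^ ((d : ℝ) + ε) = L ^ d * L ^ ε := by rw [Real.rpow_add hL0, Real.rpow_natCast]
  have hN1 : ((2 : ℝ) ^ j) ^ (d + 1) * L ^ d ≤ (2 * T) ^ d * ((2 : ℝ) ^ k) ^ d / L ^ ε := by
    rw [le_div_iff₀ hLε, mul_assoc, ← hLsplit]
    exact hjk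
  have e1 : ((2 : ℝ) ^ j) ^ (2 * d - 1) * (2 ^ j * (2 * 2 ^ j * (Bc * W))) =
      Bc * (2 * LL ^ F * (4 * T) ^ d * ((2 : ℝ) ^ k) ^ d * (((2 : ℝ) ^ j) ^ (d + 1) * L ^ d)) := by
    have e2 : ((2 : ℝ) ^ j) ^ (2 * d - 1) * 2 ^ j = ((2 : ℝ) ^ j) ^ d * ((2 : ℝ) ^ j) ^ d := by
      rw [← pow_succ, ← pow_add]; congr 1; omega
    have e3 : (L * (4 * T * 2 ^ k / 2 ^ j)) ^ d = L ^ d * ((4 * T) ^ d * ((2 : ℝ) ^ k) ^ d) / ((2 : ℝ) ^ j) ^ d := by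
      rw [mul_pow, div_pow, mul_pow (4 * T)]
      ring
    rw [← mul_assoc, e2, hW, e3]
    have h5 : ((2 : ℝ) ^ j) ^ d ≠ 0 := by positivity
    rw [pow_succ ((2 : ℝ) ^ j) d]
    field_simp
  rw [e1]
  have e4 : Bc * (2 * 8 ^ d * LL ^ F * T ^ (4 * d) / L ^ ε) * ((2 : ℝ) ^ k / T) ^ (2 * d) =
      Bc * (2 * LL ^ F * (4 * T) ^ d * ((2 : ℝ) ^ k) ^ d * ((2 * T) ^ d * ((2 : ℝ) ^ k) ^ d / L ^ ε)) := by
    have h5 : T ^ (4 * d) = T ^ (2 * d) * (T ^ d * T ^ d) := by rw [← pow_add, ← pow_add]; congr 1; ring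
    have h6 : ((2 : ℝ) ^ k / T) ^ (2 * d) = ((2 : ℝ) ^ k) ^ d * ((2 : ℝ) ^ k) ^ d / T ^ (2 * d) := by
      rw [div_pow, ← pow_add]; congr 2; ring
    have h7 : (8 : ℝ) ^ d = 4 ^ d * 2 ^ d := by rw [← mul_pow]; norm_num
    rw [h5, h6, h7, mul_pow 4 T, mul_pow 2 T]
    have h8 : T ^ (2 * d) ≠ 0 := by positivity
    field_simp
  rw [e4]
  apply mul_le_mul_of_nonneg_left _ hBc0
  exact mul_le_mul_of_nonneg_left hN1 (by positivity)

/-- the scale -/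
lemma scaleE (d A X Q : ℕ) (hd : 1 ≤ d) (L ε T : ℝ) (hε : 0 < ε) (hL : 1 ≤ L) (hT : 1 ≤ T) (hTL : 16 * T ≤ L ^ (ε / d))
    (hQ : 1 ≤ Q) (hX : (X : ℝ) ≤ L ^ A) (hc : (Q : ℝ) ^ (d + 1) * L ^ ((d : ℝ) + ε) ≤ (X : ℝ) ^ d) :
    (Q : ℝ) * L ≤ X ∧ ∃ k : ℕ, T * 2 ^ k ≤ X ∧ (X : ℝ) < 2 * T * 2 ^ k ∧ (2 : ℝ) ^ k ≤ L ^ A ∧
      ∀ j : ℕ, 2 ^ j ≤ Q → 8 * L * 2 ^ j ≤ 2 ^ k ∧
        ((2 : ℝ) ^ j) ^ (d + 1) * L ^ ((d : ℝ) + ε) ≤ (2 * T) ^ d * ((2 : ℝ) ^ k) ^ d := by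
  have hL0 : 0 < L := by linarith
  have hT0 : 0 < T := by linarith
  have hd0 : (0 : ℝ) < d := by exact_mod_cast hd
  have hQr : (1 : ℝ) ≤ Q := by exact_mod_cast hQ
  have hX0 : (0 : ℝ) ≤ X := Nat.cast_nonneg _
  have hLd : 0 < L ^ ((d : ℝ) + ε) := by positivity
  have hLsplit : (L * L ^ (ε / d)) ^ d = L ^ ((d : ℝ) + ε) := by
    rw [mul_pow, ← Real.rpow_natCast (L ^ (ε / d)), ← Real.rpow_mul hL0.le, div_mul_cancel₀ _ hd0.ne',
      ← Real.rpow_natCast L d, ← Real.rpow_add hL0]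
  have hbig : ∀ R : ℝ, 1 ≤ R → R ≤ Q → R * (L * L ^ (ε / d)) ≤ X := by
    intro R hR hRQ
    have h1 : (R * (L * L ^ (ε / d))) ^ d ≤ (X : ℝ) ^ d := by
      rw [mul_pow, hLsplit]
      refine le_trans ?_ hc
      apply mul_le_mul_of_nonneg_right _ hLd.le
      calc R ^ d ≤ (Q : ℝ) ^ d := pow_le_pow_left₀ (by linarith) hRQ d
        _ ≤ (Q : ℝ) ^ (d + 1) := pow_le_pow_right₀ hQr (by omega)
    exact le_of_pow_le_pow_left₀ (by omega) hX0 h1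
  have hLe1 : 1 ≤ L ^ (ε / d) := by nlinarith
  have hQX := hbig Q hQr le_rfl
  refine ⟨?_, ?_⟩
  · refine le_trans ?_ hQX
    have : L ≤ L * L ^ (ε / d) := le_mul_of_one_le_right hL0.le hLe1
    exact mul_le_mul_of_nonneg_left this (by linarith)
  have hXT : 16 * T ≤ X := by
    have h1 := hbig 1 le_rfl hQr
    nlinarith
  have h1 : 1 ≤ (X : ℝ) / T := by rw [le_div_iff₀ hT0]; nlinarith
  obtain ⟨k, hk1, hk2⟩ := exists_nat_pow_near h1 (show (1 : ℝ) < 2 by norm_num)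
  have h2k : (0 : ℝ) < 2 ^ k := by positivity
  have k1 : T * 2 ^ k ≤ X := by
    rw [le_div_iff₀ hT0] at hk1
    linarith
  have k2 : (X : ℝ) < 2 * T * 2 ^ k := by
    rw [div_lt_iff₀ hT0, pow_succ] at hk2
    linarith
  refine ⟨k, k1, k2, ?_, ?_⟩
  · have : (2 : ℝ) ^ k ≤ T * 2 ^ k := le_mul_of_one_le_left h2k.le hT
    linarith
  · intro j hj
    have hjr : (2 : ℝ) ^ j ≤ Q := by exact_mod_cast hj
    have h2j1 : (1 : ℝ) ≤ 2 ^ j := one_le_pow₀ (by norm_num)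
    constructor
    · have h3 := hbig (2 ^ j) h2j1 hjr
      have h4 : 2 ^ j * (L * (16 * T)) ≤ 2 ^ j * (L * L ^ (ε / d)) := by
        apply mul_le_mul_of_nonneg_left _ (by positivity)
        exact mul_le_mul_of_nonneg_left hTL hL0.le
      have h5 : (8 * L * 2 ^ j) * (2 * T) ≤ 2 ^ k * (2 * T) := by nlinarith
      exact le_of_mul_le_mul_right h5 (by positivity)
    · calc ((2 : ℝ) ^ j) ^ (d + 1) * L ^ ((d : ℝ) + ε) ≤ (Q : ℝ) ^ (d + 1) * L ^ ((d : ℝ) + ε) := by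
            apply mul_le_mul_of_nonneg_right _ hLd.le
            exact pow_le_pow_left₀ (by positivity) hjr _
        _ ≤ (X : ℝ) ^ d := hc
        _ ≤ (2 * T * 2 ^ k) ^ d := pow_le_pow_left₀ hX0 k2.le _
        _ = _ := by rw [mul_pow]

end Pool.Agent.TP975.RP
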