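import Mathlib
import Pool.Agent.TP975.RP.Eh6

/-!
Residue classes: one modulus, and the sum over the moduli.
-/

set_option autoImplicit false

namespace Pool.Agent.TP975.RP

open Finset
open Pool.Agent.H373R2.T7
open scoped NNReal

lemma mem_cls {d : ℕ} {f : Fin (d + 1) → ℤ} {q c : ℕ} : c ∈ cls f q ↔ c ∈ Icc 1 q ∧ Cp f q c := by
  classical
  unfold cls
  rw [mem_filter]

/-- the largest error of a modulus -/
noncomputable def mxE {d : ℕ} (f : Fin (d + 1) → ℤ) (X q : ℕ) : ℝ≥0 :=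
  ((range (X + 1)) ×ˢ (cls f q)).sup (fun t => ‖(piq f q t.2 t.1 : ℝ) - (piq f 1 1 t.1 : ℝ) / (cls f q).card‖₊)

lemma mxE_le {d : ℕ} (f : Fin (d + 1) → ℤ) (X q : ℕ) (R : ℝ) (hR : 0 ≤ R)
    (h : ∀ y ≤ X, ∀ c ∈ cls f q, |(piq f q c y : ℝ) - (piq f 1 1 y : ℝ) / (cls f q).card| ≤ R) : (mxE f X q : ℝ) ≤ R := by
  have h1 : mxE f X q ≤ ⟨R, hR⟩ := by
    unfold mxE
    apply Finset.sup_le
    rintro ⟨y, c⟩ ht
    rw [mem_product, mem_range] at ht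
    rw [← NNReal.coe_le_coe, coe_nnnorm, Real.norm_eq_abs]
    exact h y (by have := ht.1; simp only at this; omega) c ht.2
  exact_mod_cast h1

/-- one modulus -/
lemma det_q {d : ℕ} (f : Fin (d + 1) → ℤ) (w z q X X' k I : ℕ) (L η β V θ Nm : ℝ) (M : ℕ → ℝ) (hq : 1 ≤ q)
    (hL : 0 ≤ L) (hη0 : 0 ≤ η) (hη : 2 * η ≤ 1) (hβ0 : 0 ≤ β) (hθ0 : 0 ≤ θ) (hV : (Vz w)⁻¹ ≤ V) (hXI : X < I * 2 ^ k)
    (hIX : I * 2 ^ k ≤ X') (hNm : 0 ≤ Nm)
    (hP : ∀ m : ℕ, 1 ≤ m → m ≤ X' → |L * (if (ev f (m : ℤ)).natAbs.Prime then 1 else 0) -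
      ArithmeticFunction.vonMangoldt (ev f (m : ℤ)).natAbs| ≤ 2 * η * ArithmeticFunction.vonMangoldt (ev f (m : ℤ)).natAbs)
    (hD : ∀ c ∈ cls f q, ∀ i ∈ Icc 1 I, |DwP w z q c (Nc q c (i * 2 ^ k)) f| ≤ β * Nc q c (i * 2 ^ k))
    (hS : ∀ c ∈ cls f q, ∀ i ∈ Icc 1 I, |∑ n ∈ Icc 1 (Nc q c (i * 2 ^ k)), lamz w (ev f (pt q c n)).natAbs -
      Kq w q f * Nc q c (i * 2 ^ k)| ≤ V * (θ * Nc q c (i * 2 ^ k)))
    (hN : ∀ c ∈ cls f q, ∀ i ∈ Icc 1 I, (Nc q c (i * 2 ^ k) : ℝ) ≤ Nm)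
    (hM : ∀ i ∈ Icc 1 I, ∀ c ∈ Icc 1 q, |ErP z q c (Nc q c (i * 2 ^ k)) f| ≤ M i) (hM0 : ∀ i, 0 ≤ M i) :
    ∀ y ≤ X, ∀ c ∈ cls f q, |L * piq f q c y - Kq w q f * ((y : ℝ) / q)| ≤
      2 * ∑ i ∈ Icc 1 I, M i + (2 * β + 2 * η * V + V * θ) * Nm + V + V * (2 ^ k / q) := by
  intro y hy c hc
  have hVone : 1 ≤ V := (one_le_Vinv w).trans hV
  have hq0 : (0 : ℝ) < q := by exact_mod_cast hq
  have hc' := hc
  rw [mem_cls] at hc'
  have hK := Kq_bd w q c f hc'.2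
  have h2k : 0 < 2 ^ k := by positivity
  set R := 2 * ∑ i ∈ Icc 1 I, M i + (2 * β + 2 * η * V + V * θ) * Nm + V with hR
  have hS0 : 0 ≤ ∑ i ∈ Icc 1 I, M i := sum_nonneg fun i _ => hM0 i
  have hR0 : 0 ≤ R := by positivity
  have hgrid : ∀ i ≤ I, |L * piq f q c (i * 2 ^ k) - Kq w q f * (((i * 2 ^ k : ℕ) : ℝ) / q)| ≤ R := by
    intro i hi
    rcases Nat.eq_zero_or_pos i with h0 | h0
    · subst h0
      have : piq f q c (0 * 2 ^ k) = 0 := by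
        unfold piq
        simp
      rw [this]
      simp only [zero_mul, Nat.cast_zero, mul_zero, zero_div, sub_zero, abs_zero]
      exact hR0
    · have him : i ∈ Icc 1 I := mem_Icc.2 ⟨h0, hi⟩
      have h1 := gridE f w z q c (i * 2 ^ k) X' L η β V θ hq hc'.1 hc'.2 hη0 hη hβ0 hθ0 hV
        ((Nat.mul_le_mul_right _ hi).trans hIX) hP (hD c hc i him) (hS c hc i him)
      refine h1.trans ?_
      have h2 : |ErP z q c (Nc q c (i * 2 ^ k)) f| ≤ ∑ i ∈ Icc 1 I, M i :=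
        (hM i him c hc'.1).trans (single_le_sum (f := M) (fun i _ => hM0 i) him)
      have h3 := mul_le_mul_of_nonneg_left (hN c hc i him) (show 0 ≤ 2 * β + 2 * η * V + V * θ by positivity)
      rw [hR]
      linarith
  have h1 := Nat.div_add_mod y (2 ^ k)
  have h2 := Nat.mod_lt y h2k
  have h3 : y / 2 ^ k < I := by
    rw [Nat.div_lt_iff_lt_mul h2k]
    omega
  have h4 : y / 2 ^ k * 2 ^ k ≤ y := Nat.div_mul_le_self _ _
  have h5 : y ≤ (y / 2 ^ k + 1) * 2 ^ k := by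
    have : (y / 2 ^ k + 1) * 2 ^ k = 2 ^ k * (y / 2 ^ k) + 2 ^ k := by ring
    omega
  have key := interp f q c _ y _ L (Kq w q f) R hL hK.1 h4 h5 (hgrid _ h3.le) (hgrid _ h3)
  refine key.trans ?_
  have h6 : (((y / 2 ^ k + 1) * 2 ^ k : ℕ) : ℝ) - ((y / 2 ^ k * 2 ^ k : ℕ) : ℝ) = 2 ^ k := by
    push_cast
    ring
  rw [h6]
  have h7 : Kq w q f * ((2 : ℝ) ^ k / q) ≤ V * (2 ^ k / q) :=
    mul_le_mul_of_nonneg_right (hK.2.trans hV) (by positivity)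
  linarith

/-- the dyadic decomposition of the sum over the moduli -/
lemma dyadic_sum (Q : ℕ) (F : ℕ → ℝ) (hF : ∀ q, 0 ≤ F q) (τ : ℝ) (hQ : 1 ≤ Q)
    (h : ∀ j, 2 ^ j ≤ Q → ∑ q ∈ Ico (2 ^ j) (2 ^ (j + 1)), F q ≤ τ) :
    ∑ q ∈ Icc 1 Q, F q ≤ (Nat.log 2 Q + 1 : ℕ) * τ := by
  have h1 : Icc 1 Q ⊆ (range (Nat.log 2 Q + 1)).biUnion (fun j => Ico (2 ^ j) (2 ^ (j + 1))) := by
    intro q hq
    rw [mem_Icc] at hq
    rw [mem_biUnion]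
    refine ⟨Nat.log 2 q, ?_, ?_⟩
    · rw [mem_range]
      exact Nat.lt_succ_of_le (Nat.log_mono_right hq.2)
    · rw [mem_Ico]
      exact ⟨Nat.pow_log_le_self 2 (by omega), Nat.lt_pow_succ_log_self (by norm_num) q⟩
  refine (sum_le_sum_of_subset_of_nonneg h1 (fun q _ _ => hF q)).trans ?_
  have h2 : ∑ q ∈ (range (Nat.log 2 Q + 1)).biUnion (fun j => Ico (2 ^ j) (2 ^ (j + 1))), F q ≤
      ∑ j ∈ range (Nat.log 2 Q + 1), ∑ q ∈ Ico (2 ^ j) (2 ^ (j + 1)), F q := by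
    apply le_of_eq
    apply sum_biUnion
    intro j _ j' _ hne
    rw [Function.onFun, disjoint_left]
    intro q hq hq'
    rw [mem_Ico] at hq hq'
    rcases lt_or_gt_of_ne hne with h3 | h3
    · have : 2 ^ (j + 1) ≤ 2 ^ j' := Nat.pow_le_pow_right (by norm_num) h3
      omega
    · have : 2 ^ (j' + 1) ≤ 2 ^ j := Nat.pow_le_pow_right (by norm_num) h3
      omega
  refine h2.trans ?_
  calc ∑ j ∈ range (Nat.log 2 Q + 1), ∑ q ∈ Ico (2 ^ j) (2 ^ (j + 1)), F q ≤ ∑ j ∈ range (Nat.log 2 Q + 1), τ := by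
        refine sum_le_sum fun j hj => h j ?_
        rw [mem_range] at hj
        exact (Nat.pow_le_pow_right (by norm_num) (Nat.lt_succ_iff.1 hj)).trans (Nat.pow_log_le_self 2 (by omega))
    _ = _ := by rw [sum_const, card_range, nsmul_eq_mul]

/-- the harmonic sum -/
lemma harm_le (Q : ℕ) : ∑ q ∈ Icc 1 Q, 1 / (q : ℝ) ≤ 1 + Real.log Q := by
  have h2 : ∑ n ∈ Icc 1 Q, 1 / (n : ℝ) = ((harmonic Q : ℚ) : ℝ) := by
    rw [harmonic_eq_sum_Icc]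
    push_cast
    simp
  rw [h2]
  exact harmonic_le_one_add_log Q

end Pool.Agent.TP975.RP
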