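import Mathlib
import Pool.Agent.TP975.RP.Eh7

/-!
Residue classes: the theorem.
-/

set_option autoImplicit false

namespace Pool.Agent.TP975.RP

open Finset
open Pool.Agent.H373R2.T7
open scoped NNReal

open Classical in
/-- the exceptional polynomials of a scale and a block of moduli, in the admissible range -/
noncomputable def EvF (d A H z : ℕ) (ε T : ℝ) (k j i : ℕ) : Finset (Fin 1 → Fin (d + 1) → ℤ) :=
  if 8 * Real.log H * 2 ^ j ≤ 2 ^ k ∧ ((2 : ℝ) ^ j) ^ (d + 1) * Real.log H ^ ((d : ℝ) + ε) ≤ (2 * T) ^ d * ((2 : ℝ) ^ k) ^ d ∧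
    (2 : ℝ) ^ k ≤ Real.log H ^ A then EvE d H z T k i j else ∅

open Classical in
/-- the exceptional polynomials of a class and a length -/
noncomputable def EvG (d H w z : ℕ) (β : ℝ) (q c N : ℕ) : Finset (Fin 1 → Fin (d + 1) → ℤ) :=
  if Real.log H ≤ N then (Bx 1 d H).filter (fun a => Ncp w z (a 0) ∧ Cop w z q c (a 0) ∧ β * N < |DwP w z q c N (a 0)|) else ∅

/-- the numerical bound of the sum over the moduli -/
lemma num_final (X L LL T D Q h J I : ℝ) (hX : 0 ≤ X) (hL : 0 < L) (hLL : 88 ≤ LL) (hT : 1 ≤ T) (hTL : T ≤ L)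
    (hD : D * T ≤ X) (hD0 : 0 ≤ D) (hQ : Q * L ≤ X) (hh : h ≤ LL ^ 2) (hh0 : 0 ≤ h) (hJ : J ≤ LL ^ 2) (hJ0 : 0 ≤ J)
    (hI : I ≤ 3 * T) (hI0 : 0 ≤ I) :
    2 / L * (2 * (I * (J * (D / T))) + (2 * (3 / T) + 2 * (1 / T) * LL + LL * (1 / T)) * (4 * X) * h + LL * Q + LL * D * h) ≤
      88 * LL ^ 3 * X / (L * T) := by
  have hT0 : 0 < T := by linarith
  have hLL0 : 0 < LL := by linarith
  have hLL2 : 0 ≤ LL ^ 2 := by positivity
  have e0 : D ≤ X / T := by rw [le_div_iff₀ hT0]; exact hD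
  have e1 : 2 * (I * (J * (D / T))) ≤ 6 * LL ^ 2 * (X / T) := by
    have h1 : I * (J * (D / T)) ≤ (3 * T) * (LL ^ 2 * (X / T / T)) := by
      apply mul_le_mul hI _ (by positivity) (by positivity)
      exact mul_le_mul hJ (div_le_div_of_nonneg_right e0 hT0.le) (by positivity) (by positivity)
    have h2 : (3 * T) * (LL ^ 2 * (X / T / T)) = 3 * LL ^ 2 * (X / T) := by field_simp
    linarith
  have e2 : (2 * (3 / T) + 2 * (1 / T) * LL + LL * (1 / T)) * (4 * X) * h ≤ 36 * LL ^ 3 * (X / T) := by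
    have h1 : 2 * (3 / T) + 2 * (1 / T) * LL + LL * (1 / T) ≤ 9 * LL / T := by
      have : 2 * (3 / T) + 2 * (1 / T) * LL + LL * (1 / T) = (6 + 3 * LL) / T := by ring
      rw [this]
      apply div_le_div_of_nonneg_right _ hT0.le
      linarith
    calc (2 * (3 / T) + 2 * (1 / T) * LL + LL * (1 / T)) * (4 * X) * h ≤ (9 * LL / T) * (4 * X) * LL ^ 2 := by
          apply mul_le_mul (mul_le_mul_of_nonneg_right h1 (by positivity)) hh hh0 (by positivity)
      _ = _ := by ring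
  have e3 : LL * Q ≤ LL * (X / T) := by
    apply mul_le_mul_of_nonneg_left _ hLL0.le
    have h1 : Q ≤ X / L := by rw [le_div_iff₀ hL]; exact hQ
    exact h1.trans (div_le_div_of_nonneg_left hX hT0 hTL)
  have e4 : LL * D * h ≤ LL ^ 3 * (X / T) := by
    calc LL * D * h ≤ LL * (X / T) * LL ^ 2 := by
          apply mul_le_mul (mul_le_mul_of_nonneg_left e0 hLL0.le) hh hh0 (by positivity)
      _ = _ := by ring
  have e5 : 6 * LL ^ 2 * (X / T) + 36 * LL ^ 3 * (X / T) + LL * (X / T) + LL ^ 3 * (X / T) ≤ 44 * LL ^ 3 * (X / T) := by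
    have h1 : 6 * LL ^ 2 + 36 * LL ^ 3 + LL + LL ^ 3 ≤ 44 * LL ^ 3 := by nlinarith [sq_nonneg LL, mul_pos hLL0 hLL0]
    have h2 : 0 ≤ X / T := by positivity
    nlinarith
  have e6 : 88 * LL ^ 3 * X / (L * T) = 2 / L * (44 * LL ^ 3 * (X / T)) := by field_simp; ring
  rw [e6]
  apply mul_le_mul_of_nonneg_left _ (by positivity)
  linarith

end Pool.Agent.TP975.RP
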