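import Mathlib
import Pool.Agent.TP975.RP.Eh8

/-!
Residue classes: the number of the exceptional polynomials.
-/

set_option autoImplicit false

namespace Pool.Agent.TP975.RP

open Finset
open Pool.Agent.H373R2.T7

lemma cntS3 (d A A2 F B B' H z I0 : ℕ) (hd : 1 ≤ d) (T L LL ε : ℝ) (hL : L = Real.log H) (hLL : LL = Real.log L) (hL1 : 1 ≤ L)
    (hLL1 : 1 ≤ LL) (hT : T = LL ^ B')
    (hmom : ∀ q c N : ℕ, 1 ≤ q → 3 * L ≤ N → (N : ℝ) ≤ L ^ A2 → (∀ n ∈ Icc 1 N, |((pt q c n : ℤ) : ℝ)| ≤ L ^ A2) →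
      ∑ a ∈ Bx 1 d H, (ErP z q c N (a 0)) ^ (2 * d) ≤ (Bx 1 d H).card * (LL ^ F * (L * N) ^ d))
    (hI0 : (I0 : ℝ) ≤ 3 * T) (hiA : 3 * T * L ^ A + 1 ≤ L ^ A2) (h96 : 96 * 8 ^ d ≤ LL)
    (hbig : LL ^ (B + 6 + F + B' * (4 * d + 1)) ≤ L ^ ε) :
    ((((range (⌊LL ^ 2⌋₊ + 1)).biUnion (fun k => (range (⌊LL ^ 2⌋₊ + 1)).biUnion (fun j =>
      (Icc 1 I0).biUnion (fun i => EvF d A H z ε T k j i)))).card : ℕ) : ℝ) ≤ (Bx 1 d H).card * (1 / (4 * LL ^ B)) := by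
  classical
  have hL0 : 0 < L := by linarith
  have hLL0 : 0 < LL := by linarith
  have hT1 : 1 ≤ T := by rw [hT]; exact one_le_pow₀ hLL1
  have hT0 : 0 < T := by linarith
  have hBc0 : (0 : ℝ) ≤ (Bx 1 d H).card := Nat.cast_nonneg _
  set W : ℝ := 2 * 8 ^ d * LL ^ F * T ^ (4 * d) / L ^ ε with hW
  have hW0 : 0 ≤ W := by positivity
  have hone : ∀ k j i, i ∈ Icc 1 I0 → ((EvF d A H z ε T k j i).card : ℝ) ≤ (Bx 1 d H).card * W := by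
    intro k j i hi
    unfold EvF
    split_ifs with hc
    · rw [← hL] at hc
      rw [mem_Icc] at hi
      have hiT : (i : ℝ) ≤ 3 * T := by
        have : (i : ℝ) ≤ I0 := by exact_mod_cast hi.2
        linarith
      apply EvE_card d H z A2 F k i j hd T L LL ε hL hLL hL1 hLL0.le hT1 hmom hi.1 hiT _ hc.1 hc.2.1
      push_cast
      refine le_trans ?_ hiA
      have : (i : ℝ) * 2 ^ k ≤ 3 * T * L ^ A := mul_le_mul hiT hc.2.2 (by positivity) (by positivity)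
      linarith
    · rw [card_empty, Nat.cast_zero]
      exact mul_nonneg hBc0 hW0
  have h1 : ((((range (⌊LL ^ 2⌋₊ + 1)).biUnion (fun k => (range (⌊LL ^ 2⌋₊ + 1)).biUnion (fun j =>
      (Icc 1 I0).biUnion (fun i => EvF d A H z ε T k j i)))).card : ℕ) : ℝ) ≤
      ∑ k ∈ range (⌊LL ^ 2⌋₊ + 1), ∑ j ∈ range (⌊LL ^ 2⌋₊ + 1), ∑ i ∈ Icc 1 I0, ((EvF d A H z ε T k j i).card : ℝ) := by
    have : ((range (⌊LL ^ 2⌋₊ + 1)).biUnion (fun k => (range (⌊LL ^ 2⌋₊ + 1)).biUnion (fun j =>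
      (Icc 1 I0).biUnion (fun i => EvF d A H z ε T k j i)))).card ≤
      ∑ k ∈ range (⌊LL ^ 2⌋₊ + 1), ∑ j ∈ range (⌊LL ^ 2⌋₊ + 1), ∑ i ∈ Icc 1 I0, (EvF d A H z ε T k j i).card := by
      refine card_biUnion_le.trans (sum_le_sum fun k _ => card_biUnion_le.trans (sum_le_sum fun j _ => card_biUnion_le))
    exact_mod_cast this
  refine h1.trans ?_
  have h2 : ∑ k ∈ range (⌊LL ^ 2⌋₊ + 1), ∑ j ∈ range (⌊LL ^ 2⌋₊ + 1), ∑ i ∈ Icc 1 I0, ((EvF d A H z ε T k j i).card : ℝ) ≤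
      ((⌊LL ^ 2⌋₊ + 1 : ℕ) : ℝ) * (((⌊LL ^ 2⌋₊ + 1 : ℕ) : ℝ) * (I0 * ((Bx 1 d H).card * W))) := by
    calc _ ≤ ∑ k ∈ range (⌊LL ^ 2⌋₊ + 1), ∑ j ∈ range (⌊LL ^ 2⌋₊ + 1), ∑ i ∈ Icc 1 I0, ((Bx 1 d H).card : ℝ) * W :=
          sum_le_sum fun k _ => sum_le_sum fun j _ => sum_le_sum fun i hi => hone k j i hi
      _ = _ := by
          rw [sum_const, sum_const, sum_const, card_range, Nat.card_Icc, Nat.add_sub_cancel, nsmul_eq_mul, nsmul_eq_mul,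
            nsmul_eq_mul]
  refine h2.trans ?_
  have h3 : ((⌊LL ^ 2⌋₊ + 1 : ℕ) : ℝ) ≤ 2 * LL ^ 2 := by
    have r3 : (⌊LL ^ 2⌋₊ : ℝ) ≤ LL ^ 2 := Nat.floor_le (by positivity)
    have r4 : 1 ≤ LL ^ 2 := one_le_pow₀ hLL1
    push_cast
    linarith
  have h4 : ((⌊LL ^ 2⌋₊ + 1 : ℕ) : ℝ) * (((⌊LL ^ 2⌋₊ + 1 : ℕ) : ℝ) * (I0 * ((Bx 1 d H).card * W))) ≤
      (2 * LL ^ 2) * ((2 * LL ^ 2) * ((3 * T) * ((Bx 1 d H).card * W))) := by
    have h5 : 0 ≤ ((Bx 1 d H).card : ℝ) * W := mul_nonneg hBc0 hW0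
    have h6 : (0 : ℝ) ≤ I0 := Nat.cast_nonneg _
    apply mul_le_mul h3 _ (by positivity) (by positivity)
    apply mul_le_mul h3 _ (by positivity) (by positivity)
    exact mul_le_mul_of_nonneg_right hI0 h5
  refine h4.trans ?_
  clear h4 h2 h1 hone hmom
  generalize ((Bx 1 d H).card : ℝ) = Bc at hBc0 ⊢
  have e1 : (2 * LL ^ 2) * ((2 * LL ^ 2) * ((3 * T) * (Bc * W))) = Bc * (12 * LL ^ 4 * T * W) := by ring
  rw [e1]
  apply mul_le_mul_of_nonneg_left _ hBc0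
  have hLε : 0 < L ^ ε := by positivity
  rw [hW, mul_div_assoc', div_le_div_iff₀ hLε (by positivity), one_mul]
  refine le_trans ?_ hbig
  have e2 : T ^ (4 * d) * T = LL ^ (B' * (4 * d + 1)) := by rw [hT, ← pow_mul, ← pow_add]; congr 1
  have e3 : LL ^ (B + 6 + F + B' * (4 * d + 1)) = LL * (LL * LL ^ 4 * LL ^ B * LL ^ F * LL ^ (B' * (4 * d + 1))) := by ring
  have e4 : 12 * LL ^ 4 * T * (2 * 8 ^ d * LL ^ F * T ^ (4 * d)) * (4 * LL ^ B) =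
      (96 * 8 ^ d) * (LL ^ 4 * LL ^ B * LL ^ F * (T ^ (4 * d) * T)) := by ring
  rw [e3, e4, e2]
  apply mul_le_mul h96 _ (by positivity) hLL0.le
  have e5 : 0 ≤ LL ^ 4 * LL ^ B * LL ^ F * LL ^ (B' * (4 * d + 1)) := by positivity
  have e6 : LL * LL ^ 4 * LL ^ B * LL ^ F * LL ^ (B' * (4 * d + 1)) = LL * (LL ^ 4 * LL ^ B * LL ^ F * LL ^ (B' * (4 * d + 1))) := by
    ring
  rw [e6]
  exact le_mul_of_one_le_left e5 hLL1

open Classical in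
lemma cntS4 (d A H w z Nq X' B : ℕ) (L LL β : ℝ) (hL : L = Real.log H) (hL1 : 1 ≤ L) (hL8 : 8 ≤ L)
    (hLL1 : 1 ≤ LL) (hLLB : LL ^ B ≤ L) (hNq : (Nq : ℝ) ≤ L ^ A) (hX' : (X' : ℝ) ≤ L ^ (A + 1))
    (hblk : ∀ q c N : ℕ, 1 ≤ q → (q : ℝ) ≤ L ^ (A + 2) → L ≤ N →
      ((((Bx 1 d H).filter (fun a => Ncp w z (a 0) ∧ Cop w z q c (a 0) ∧ β * N < |DwP w z q c N (a 0)|)).card : ℕ) : ℝ) ≤
      (Bx 1 d H).card * (2 / L ^ (3 * A + 9))) :
    ((((Icc 1 Nq).biUnion (fun q => (Icc 1 Nq).biUnion (fun c => (Icc 1 X').biUnion (fun N =>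
      EvG d H w z β q c N)))).card : ℕ) : ℝ) ≤ (Bx 1 d H).card * (1 / (4 * LL ^ B)) := by
  have hL0 : 0 < L := by linarith
  have hBc0 : (0 : ℝ) ≤ (Bx 1 d H).card := Nat.cast_nonneg _
  set W : ℝ := 2 / L ^ (3 * A + 9) with hW
  have hW0 : 0 ≤ W := by positivity
  have hone : ∀ q ∈ Icc 1 Nq, ∀ c N, ((EvG d H w z β q c N).card : ℝ) ≤ (Bx 1 d H).card * W := by
    intro q hq c N
    rw [mem_Icc] at hq
    unfold EvG
    split_ifs with hc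
    · rw [← hL] at hc
      apply hblk q c N hq.1 _ hc
      have : (q : ℝ) ≤ Nq := by exact_mod_cast hq.2
      exact this.trans (hNq.trans (pow_le_pow_right₀ hL1 (by omega)))
    · rw [card_empty, Nat.cast_zero]
      exact mul_nonneg hBc0 hW0
  have h1 : ((((Icc 1 Nq).biUnion (fun q => (Icc 1 Nq).biUnion (fun c => (Icc 1 X').biUnion (fun N =>
      EvG d H w z β q c N)))).card : ℕ) : ℝ) ≤
      ∑ q ∈ Icc 1 Nq, ∑ c ∈ Icc 1 Nq, ∑ N ∈ Icc 1 X', ((EvG d H w z β q c N).card : ℝ) := by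
    have : ((Icc 1 Nq).biUnion (fun q => (Icc 1 Nq).biUnion (fun c => (Icc 1 X').biUnion (fun N =>
      EvG d H w z β q c N)))).card ≤ ∑ q ∈ Icc 1 Nq, ∑ c ∈ Icc 1 Nq, ∑ N ∈ Icc 1 X', (EvG d H w z β q c N).card := by
      refine card_biUnion_le.trans (sum_le_sum fun k _ => card_biUnion_le.trans (sum_le_sum fun j _ => card_biUnion_le))
    exact_mod_cast this
  refine h1.trans ?_
  have h2 : ∑ q ∈ Icc 1 Nq, ∑ c ∈ Icc 1 Nq, ∑ N ∈ Icc 1 X', ((EvG d H w z β q c N).card : ℝ) ≤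
      Nq * (Nq * (X' * ((Bx 1 d H).card * W))) := by
    calc _ ≤ ∑ q ∈ Icc 1 Nq, ∑ c ∈ Icc 1 Nq, ∑ N ∈ Icc 1 X', ((Bx 1 d H).card : ℝ) * W :=
          sum_le_sum fun q hq => sum_le_sum fun c _ => sum_le_sum fun N _ => hone q hq c N
      _ = _ := by
          rw [sum_const, sum_const, sum_const, Nat.card_Icc, Nat.card_Icc, Nat.add_sub_cancel, Nat.add_sub_cancel,
            nsmul_eq_mul, nsmul_eq_mul, nsmul_eq_mul]
  refine h2.trans ?_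
  have h5 : 0 ≤ ((Bx 1 d H).card : ℝ) * W := mul_nonneg hBc0 hW0
  have h3 : (Nq : ℝ) * (Nq * (X' * ((Bx 1 d H).card * W))) ≤ L ^ A * (L ^ A * (L ^ (A + 1) * ((Bx 1 d H).card * W))) := by
    apply mul_le_mul hNq _ (by positivity) (by positivity)
    apply mul_le_mul hNq _ (by positivity) (by positivity)
    exact mul_le_mul_of_nonneg_right hX' h5
  refine h3.trans ?_
  clear h3 h2 h1 hone hblk
  generalize ((Bx 1 d H).card : ℝ) = Bc at hBc0 ⊢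
  have e1 : L ^ A * (L ^ A * (L ^ (A + 1) * (Bc * W))) = Bc * (2 / L ^ 8) := by
    rw [hW]
    have : L ^ (3 * A + 9) = L ^ A * L ^ A * L ^ (A + 1) * L ^ 8 := by ring
    rw [this]
    field_simp
  rw [e1]
  apply mul_le_mul_of_nonneg_left _ hBc0
  rw [div_le_div_iff₀ (by positivity) (by positivity), one_mul]
  have e2 : L ^ 8 = L * L * L ^ 6 := by ring
  have e3 : 1 ≤ L ^ 6 := one_le_pow₀ hL1
  have e4 : 8 * LL ^ B ≤ L * L := mul_le_mul hL8 hLLB (by positivity) hL0.le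
  rw [e2]
  have e5 : L * L ≤ L * L * L ^ 6 := le_mul_of_one_le_right (by positivity) e3
  linarith

end Pool.Agent.TP975.RP
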