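import Mathlib
import Pool.Agent.TP975.RP.Eh8b

/-!
Residue classes in short intervals: the deterministic part.
-/

set_option autoImplicit false

namespace Pool.Agent.TP975.RP

open Finset
open Pool.Agent.H373R2.T7

lemma pt_shift (q c t n : ℕ) : pt q (c + q * t) n = pt q c (t + n) := by
  unfold pt
  push_cast
  ring

/-- the sum over the primes of a block -/
noncomputable def gP {d : ℕ} (L : ℝ) (f : Fin (d + 1) → ℤ) (q c n : ℕ) : ℝ := L * (if (ev f (pt q c n)).natAbs.Prime then 1 else 0)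

lemma Cp_shift {d : ℕ} (f : Fin (d + 1) → ℤ) (q c t : ℕ) (h : Cp f q c) : Cp f q (c + q * t) := by
  intro p hp hpq hd
  apply h p hp hpq
  refine (ev_mod f p ((c + q * t : ℕ) : ℤ) (c : ℤ) ?_).1 hd
  push_cast
  have h1 : (p : ℤ) ∣ (q : ℤ) := Int.natCast_dvd_natCast.2 hpq
  have e : (c : ℤ) + q * t - c = q * t := by ring
  rw [e]
  exact Dvd.dvd.mul_right h1 _

/-- a block -/
lemma blockE {d : ℕ} (f : Fin (d + 1) → ℤ) (w z q c N X' : ℕ) (L η β V θ : ℝ) (hq : 1 ≤ q) (hc : 1 ≤ c)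
    (hη0 : 0 ≤ η) (hη : 2 * η ≤ 1) (hβ0 : 0 ≤ β) (hV : (Vz w)⁻¹ ≤ V) (hX : c + q * N ≤ X')
    (hP : ∀ m : ℕ, 1 ≤ m → m ≤ X' → |L * (if (ev f (m : ℤ)).natAbs.Prime then 1 else 0) -
      ArithmeticFunction.vonMangoldt (ev f (m : ℤ)).natAbs| ≤ 2 * η * ArithmeticFunction.vonMangoldt (ev f (m : ℤ)).natAbs)
    (hD : |DwP w z q c N f| ≤ β * N)
    (hS : |∑ n ∈ Icc 1 N, lamz w (ev f (pt q c n)).natAbs - Kq w q f * N| ≤ V * (θ * N)) :
    |∑ n ∈ Icc 1 N, gP L f q c n - Kq w q f * N| ≤ 2 * |ErP z q c N f| + (2 * β + 2 * η * V + V * θ) * N := by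
  have hVone : 1 ≤ V := (one_le_Vinv w).trans hV
  have hN0 : (0 : ℝ) ≤ N := Nat.cast_nonneg _
  have hev : ∀ n : ℕ, f 0 + rr 0 f (pt q c n) = ev f (pt q c n) := by
    intro n
    rw [ev_rr 0]
    simp
  -- the sum of the von Mangoldt function
  set Sw := ∑ n ∈ Icc 1 N, lamz w (ev f (pt q c n)).natAbs with hSw
  set SL := ∑ n ∈ Icc 1 N, ArithmeticFunction.vonMangoldt (ev f (pt q c n)).natAbs with hSL
  have e1 : SL = ErP z q c N f + DwP w z q c N f + Sw := by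
    rw [hSL, hSw]
    unfold ErP DwP Dw Tw hh
    simp only [hev, one_mul]
    rw [sum_sub_distrib]
    ring
  have hSw1 : Sw ≤ V * N := by
    rw [hSw]
    calc ∑ n ∈ Icc 1 N, lamz w (ev f (pt q c n)).natAbs ≤ ∑ n ∈ Icc 1 N, V :=
          sum_le_sum fun n _ => (lamz_le _ _).trans hV
      _ = V * N := by rw [sum_const, Nat.card_Icc, Nat.add_sub_cancel, nsmul_eq_mul, mul_comm]
  have hSw0 : 0 ≤ Sw := sum_nonneg fun n _ => lamz_nonneg _ _
  have hSL0 : 0 ≤ SL := sum_nonneg fun n _ => ArithmeticFunction.vonMangoldt_nonneg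
  have e2 : |∑ n ∈ Icc 1 N, gP L f q c n - SL| ≤ 2 * η * SL := by
    unfold gP
    rw [hSL, ← sum_sub_distrib, mul_sum]
    refine (abs_sum_le_sum_abs _ _).trans (sum_le_sum fun n hn => ?_)
    rw [mem_Icc] at hn
    -- the point as a natural number
    have h1 : pt q c n = ((c + q * (n - 1) : ℕ) : ℤ) := by
      unfold pt
      obtain ⟨k, rfl⟩ : ∃ k, n = k + 1 := ⟨n - 1, by omega⟩
      push_cast
      ring
    have h4 : c + q * (n - 1) ≤ X' := by
      have : q * (n - 1) ≤ q * N := Nat.mul_le_mul_left _ (by omega)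
      omega
    rw [h1]
    exact hP _ (by omega) h4
  have hD1 := abs_le.1 hD
  have hE1 := le_abs_self (ErP z q c N f)
  have hE2 := neg_abs_le (ErP z q c N f)
  have hE0 := abs_nonneg (ErP z q c N f)
  have hSL1 : SL ≤ |ErP z q c N f| + β * N + V * N := by linarith
  have e3 : 2 * η * SL ≤ |ErP z q c N f| + β * N + 2 * η * (V * N) := by
    have h1 : 2 * η * SL ≤ 2 * η * (|ErP z q c N f| + β * N + V * N) := mul_le_mul_of_nonneg_left hSL1 (by positivity)
    have h2 : 2 * η * (|ErP z q c N f| + β * N) ≤ 1 * (|ErP z q c N f| + β * N) :=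
      mul_le_mul_of_nonneg_right hη (by positivity)
    linarith
  have f1 := abs_le.1 e2
  have f2 := abs_le.1 hS
  rw [abs_le]
  constructor <;> linarith

lemma sum_shiftE (g : ℕ → ℝ) (a b : ℕ) : ∑ n ∈ Icc 1 (a + b), g n = ∑ n ∈ Icc 1 a, g n + ∑ n ∈ Icc 1 b, g (a + n) := by
  induction b with
  | zero => simp
  | succ b ih =>
    rw [← add_assoc, sum_Icc_succ_top (by omega), ih, sum_Icc_succ_top (by omega)]
    ring_nf

/-- from the blocks to an interval -/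
lemma int_blocks (P : ℕ → ℝ) (hmono : Monotone P) (D N1 N2 : ℕ) (K E : ℝ) (hD : 1 ≤ D) (hN : N1 ≤ N2) (hK : 0 ≤ K)
    (h : ∀ i, N1 / D ≤ i → i ≤ N2 / D → |P (i * D + D) - P (i * D) - K * D| ≤ E) :
    |P N2 - P N1 - K * ((N2 : ℝ) - N1)| ≤ 2 * K * D + (((N2 / D : ℕ) : ℝ) - ((N1 / D : ℕ) : ℝ) + 1) * E := by
  set i1 := N1 / D with hi1
  set i2 := N2 / D with hi2
  have hi : i1 ≤ i2 := Nat.div_le_div_right hN
  have hD0 : (1 : ℝ) ≤ D := by exact_mod_cast hD
  have htel : ∀ m, m ≤ i2 - i1 + 1 → |P ((i1 + m) * D) - P (i1 * D) - K * (m * D)| ≤ m * E := by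
    intro m
    induction m with
    | zero => intro _; simp
    | succ m ih =>
      intro hm
      have h1 := abs_le.1 (ih (by omega))
      have h2 := abs_le.1 (h (i1 + m) (by omega) (by omega))
      have e : (i1 + (m + 1)) * D = (i1 + m) * D + D := by ring
      rw [e]
      push_cast at h1 h2 ⊢
      rw [abs_le]
      constructor <;> nlinarith
  have d1 := Nat.div_add_mod N1 D
  have d2 := Nat.div_add_mod N2 D
  have m1 := Nat.mod_lt N1 (show D > 0 by omega)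
  have m2 := Nat.mod_lt N2 (show D > 0 by omega)
  rw [← hi1] at d1
  rw [← hi2] at d2
  have c1 : (D : ℝ) * i1 ≤ N1 := by exact_mod_cast (by omega : D * i1 ≤ N1)
  have c2 : (N1 : ℝ) ≤ D * i1 + D := by exact_mod_cast (by omega : N1 ≤ D * i1 + D)
  have c3 : (D : ℝ) * i2 ≤ N2 := by exact_mod_cast (by omega : D * i2 ≤ N2)
  have c4 : (N2 : ℝ) ≤ D * i2 + D := by exact_mod_cast (by omega : N2 ≤ D * i2 + D)
  have p1 : P (i1 * D) ≤ P N1 := hmono (by rw [mul_comm]; omega)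
  have p2 : P N1 ≤ P ((i1 + 1) * D) := hmono (by
    have : (i1 + 1) * D = D * i1 + D := by ring
    omega)
  have p3 : P (i2 * D) ≤ P N2 := hmono (by rw [mul_comm]; omega)
  have p4 : P N2 ≤ P ((i2 + 1) * D) := hmono (by
    have : (i2 + 1) * D = D * i2 + D := by ring
    omega)
  have t1 := abs_le.1 (htel 1 (by omega))
  have t2 := abs_le.1 (htel (i2 - i1) (by omega))
  have t3 := abs_le.1 (htel (i2 - i1 + 1) le_rfl)
  have e1 : i1 + (i2 - i1) = i2 := by omega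
  have e2 : i1 + (i2 - i1 + 1) = i2 + 1 := by omega
  rw [e1] at t2
  rw [e2] at t3
  have hir : (i1 : ℝ) ≤ i2 := by exact_mod_cast hi
  have e3 : ((i2 - i1 : ℕ) : ℝ) = (i2 : ℝ) - i1 := by push_cast [Nat.cast_sub hi]; ring
  push_cast at t1 t2 t3
  rw [Nat.cast_sub hi] at t2 t3
  have q1 : K * (((i2 : ℝ) - i1 + 1) * D) ≤ K * ((N2 : ℝ) - N1 + 2 * D) := by
    apply mul_le_mul_of_nonneg_left _ hK
    linarith
  have q2 : K * ((N2 : ℝ) - N1 - 2 * D) ≤ K * (((i2 : ℝ) - i1 - 1) * D) := by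
    apply mul_le_mul_of_nonneg_left _ hK
    linarith
  rw [abs_le]
  constructor
  · have : P (i2 * D) - P ((i1 + 1) * D) ≥ K * (((i2 : ℝ) - i1 - 1) * D) - ((i2 : ℝ) - i1 + 1) * E := by
      have e : K * (((i2 : ℝ) - i1 - 1) * D) = K * (((i2 : ℝ) - i1) * D) - K * (1 * D) := by ring
      linarith [t1.2, t2.1]
    linarith
  · linarith [t3.2]

/-- one class and one interval -/
lemma class_int {d : ℕ} (f : Fin (d + 1) → ℤ) (w z q c x h D X' : ℕ) (L η β V θ μ T : ℝ) (hq : 1 ≤ q) (hc : c ∈ Icc 1 q)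
    (hcp : Cp f q c) (hL : 0 ≤ L) (hη0 : 0 ≤ η) (hη : 2 * η ≤ 1) (hβ0 : 0 ≤ β) (hθ0 : 0 ≤ θ) (hμ : 0 ≤ μ) (hV : (Vz w)⁻¹ ≤ V)
    (hT : 1 ≤ T) (hD : 1 ≤ D) (h1D : T * D ≤ (h : ℝ) / q) (h2D : (h : ℝ) / q ≤ 2 * T * D) (hX' : 4 * (x + h) ≤ X')
    (hP : ∀ m : ℕ, 1 ≤ m → m ≤ X' → |L * (if (ev f (m : ℤ)).natAbs.Prime then 1 else 0) -
      ArithmeticFunction.vonMangoldt (ev f (m : ℤ)).natAbs| ≤ 2 * η * ArithmeticFunction.vonMangoldt (ev f (m : ℤ)).natAbs)
    (hDw : ∀ j, j ≤ Nc q c (x + h) / D → |DwP w z q (c + q * (j * D)) D f| ≤ β * D)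
    (hS : ∀ j, |∑ n ∈ Icc 1 D, lamz w (ev f (pt q (c + q * (j * D)) n)).natAbs - Kq w q f * D| ≤ V * (θ * D))
    (hE : ∀ j, j ≤ Nc q c (x + h) / D → |ErP z q (c + q * (j * D)) D f| ≤ μ * D) :
    |L * ((piq f q c (x + h) : ℝ) - piq f q c x) - Kq w q f * ((h : ℝ) / q)| ≤
      (h / q) * (4 * V / T + 6 * (2 * μ + (2 * β + 2 * η * V + V * θ))) := by
  have hVone : 1 ≤ V := (one_le_Vinv w).trans hV
  have hq0 : (0 : ℝ) < q := by exact_mod_cast hq
  have hT0 : 0 < T := by linarith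
  have hDr : (1 : ℝ) ≤ D := by exact_mod_cast hD
  have hK := Kq_bd w q c f hcp
  have hc' := mem_Icc.1 hc
  set r : ℝ := (h : ℝ) / q with hr
  have hTD : (D : ℝ) ≤ T * D := le_mul_of_one_le_left (by linarith) hT
  have hrD : (D : ℝ) ≤ r := hTD.trans h1D
  have hr0 : 0 < r := by linarith
  set P : ℕ → ℝ := fun n0 => ∑ n ∈ Icc 1 n0, gP L f q c n with hPd
  have hg0 : ∀ n, 0 ≤ gP L f q c n := by
    intro n
    unfold gP
    split_ifs <;> simp [hL]
  have hmono : Monotone P := by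
    intro a b hab
    exact sum_le_sum_of_subset_of_nonneg (Icc_subset_Icc_right hab) (fun n _ _ => hg0 n)
  set N1 := Nc q c x with hN1
  set N2 := Nc q c (x + h) with hN2
  have hN12 : N1 ≤ N2 := by
    rw [hN1, hN2]
    unfold Nc
    apply Nat.div_le_div_right
    omega
  have b1 := abs_le.1 (Nc_bd q c x hq hc)
  have b2 := abs_le.1 (Nc_bd q c (x + h) hq hc)
  rw [← hN1] at b1
  rw [← hN2] at b2
  have hsplit : (((x + h : ℕ) : ℝ)) / q = (x : ℝ) / q + r := by rw [hr]; push_cast; ring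
  rw [hsplit] at b2
  set E : ℝ := (2 * μ + (2 * β + 2 * η * V + V * θ)) * D with hEd
  have hE0 : 0 ≤ E := by positivity
  have hblk : ∀ i, N1 / D ≤ i → i ≤ N2 / D → |P (i * D + D) - P (i * D) - Kq w q f * D| ≤ E := by
    intro i _ hi
    have e1 : P (i * D + D) - P (i * D) = ∑ n ∈ Icc 1 D, gP L f q (c + q * (i * D)) n := by
      rw [hPd]
      simp only
      rw [sum_shiftE (gP L f q c) (i * D) D, add_sub_cancel_left]
      refine sum_congr rfl fun n _ => ?_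
      unfold gP
      rw [pt_shift]
    rw [e1]
    have hiN : i * D ≤ N2 := by
      calc i * D ≤ N2 / D * D := Nat.mul_le_mul_right _ hi
        _ ≤ N2 := Nat.div_mul_le_self _ _
    have hXi : c + q * (i * D) + q * D ≤ X' := by
      -- the size of the points of the block
      have h1 : (c : ℝ) ≤ q := by exact_mod_cast hc'.2
      have h2 : ((i * D : ℕ) : ℝ) ≤ (x : ℝ) / q + r + 1 := by
        have : ((i * D : ℕ) : ℝ) ≤ N2 := by exact_mod_cast hiN
        linarith [b2.2]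
      have h3 : (q : ℝ) * ((i * D : ℕ) : ℝ) ≤ x + h + q := by
        have h4 : (q : ℝ) * ((i * D : ℕ) : ℝ) ≤ q * ((x : ℝ) / q + r + 1) := mul_le_mul_of_nonneg_left h2 hq0.le
        have h5 : (q : ℝ) * ((x : ℝ) / q + r + 1) = x + h + q := by rw [hr]; field_simp
        linarith
      have h6 : (q : ℝ) * D ≤ h := by
        have : (q : ℝ) * D ≤ q * r := mul_le_mul_of_nonneg_left hrD hq0.le
        have h7 : (q : ℝ) * r = h := by rw [hr]; field_simp
        linarith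
      have h8 : (q : ℝ) ≤ q * D := le_mul_of_one_le_right hq0.le hDr
      have h9 : ((c + q * (i * D) + q * D : ℕ) : ℝ) ≤ ((4 * (x + h) : ℕ) : ℝ) := by
        have hx0 : (0 : ℝ) ≤ x := Nat.cast_nonneg _
        push_cast at h3 ⊢
        linarith
      exact (by exact_mod_cast h9 : c + q * (i * D) + q * D ≤ 4 * (x + h)).trans hX'
    have h1 := blockE f w z q (c + q * (i * D)) D X' L η β V θ hq (by omega) hη0 hη hβ0 hV hXi hP (hDw i hi) (hS i)
    refine h1.trans ?_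
    have h2 := hE i hi
    rw [hEd]
    linarith
  have key := int_blocks P hmono D N1 N2 (Kq w q f) E hD hN12 hK.1 hblk
  have hP1 : P N1 = L * piq f q c x := (piq_sum L f q c x hq hc).symm
  have hP2 : P N2 = L * piq f q c (x + h) := (piq_sum L f q c (x + h) hq hc).symm
  rw [hP1, hP2] at key
  -- the number of the blocks
  have hnb : (((N2 / D : ℕ) : ℝ) - ((N1 / D : ℕ) : ℝ) + 1) ≤ 6 * T := by
    have d1 := Nat.div_add_mod N1 D
    have d2 := Nat.div_add_mod N2 D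
    have m1 := Nat.mod_lt N1 (show D > 0 by omega)
    have c2 : (N1 : ℝ) ≤ D * ((N1 / D : ℕ) : ℝ) + D := by exact_mod_cast (by omega : N1 ≤ D * (N1 / D) + D)
    have c3 : (D : ℝ) * ((N2 / D : ℕ) : ℝ) ≤ N2 := by exact_mod_cast (by omega : D * (N2 / D) ≤ N2)
    have h1 : (D : ℝ) * (((N2 / D : ℕ) : ℝ) - ((N1 / D : ℕ) : ℝ) + 1) ≤ D * (6 * T) := by nlinarith [b1.1, b2.2]
    exact le_of_mul_le_mul_left h1 (by linarith)
  have hV0 : 0 ≤ V := by linarith
  have hKV : Kq w q f ≤ V := hK.2.trans hV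
  have hDT : (D : ℝ) ≤ r / T := by rw [le_div_iff₀ hT0]; linarith
  have f1 : (((N2 / D : ℕ) : ℝ) - ((N1 / D : ℕ) : ℝ) + 1) * E ≤ r * (6 * (2 * μ + (2 * β + 2 * η * V + V * θ))) := by
    have hs0 : 0 ≤ 2 * μ + (2 * β + 2 * η * V + V * θ) := by positivity
    calc (((N2 / D : ℕ) : ℝ) - ((N1 / D : ℕ) : ℝ) + 1) * E ≤ 6 * T * E := mul_le_mul_of_nonneg_right hnb hE0
      _ = (T * D) * (6 * (2 * μ + (2 * β + 2 * η * V + V * θ))) := by rw [hEd]; ring
      _ ≤ _ := mul_le_mul_of_nonneg_right h1D (by positivity)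
  have f2 : Kq w q f * (2 * D + 2) ≤ r * (4 * V / T) := by
    calc Kq w q f * (2 * D + 2) ≤ V * (4 * (r / T)) := mul_le_mul hKV (by linarith) (by positivity) hV0
      _ = _ := by ring
  have f3 : |Kq w q f * ((N2 : ℝ) - N1) - Kq w q f * r| ≤ Kq w q f * 2 := by
    rw [← mul_sub, abs_mul, abs_of_nonneg hK.1]
    apply mul_le_mul_of_nonneg_left _ hK.1
    rw [abs_le]
    constructor <;> linarith [b1.1, b1.2, b2.1, b2.2]
  have g1 := abs_le.1 key
  have g2 := abs_le.1 f3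
  rw [abs_le]
  constructor <;> nlinarith

end Pool.Agent.TP975.RP
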