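import Mathlib
import Pool.Agent.TP975.RP.Mg1

/-!
Residue classes in short intervals: the number of the exceptional polynomials.
-/

set_option autoImplicit false

namespace Pool.Agent.TP975.RP

open Finset
open Pool.Agent.H373R2.T7

open Classical in
/-- the exceptional polynomials of a block of a class -/
noncomputable def EvM (d A H z : ℕ) (ε T : ℝ) (k j q c : ℕ) : Finset (Fin 1 → Fin (d + 1) → ℤ) :=
  if 3 * Real.log H ≤ 2 ^ k ∧ (((q * ((j + 2) * 2 ^ k) : ℕ) : ℝ) ≤ Real.log H ^ A ∧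
    (q : ℝ) ^ 2 * (((j : ℝ) + 1) * (2 ^ k * Real.log H ^ ((d : ℝ) + ε))) ≤ 3 * (2 * T * 2 ^ k) ^ (d + 1)) then
    (Bx 1 d H).filter (fun a => 2 ^ k / T < |ErP z q (c + q * (j * 2 ^ k)) (2 ^ k) (a 0)|) else ∅

lemma EvM_card (d H z A F k j q c : ℕ) (T L LL ε : ℝ) (hL : L = Real.log H) (hL1 : 1 ≤ L) (hLL0 : 0 ≤ LL)
    (hT : 1 ≤ T) (hq : 1 ≤ q) (hc : c ≤ q)
    (hmom : ∀ q c N : ℕ, 1 ≤ q → 3 * L ≤ N → (N : ℝ) ≤ L ^ A → (∀ n ∈ Icc 1 N, |((pt q c n : ℤ) : ℝ)| ≤ L ^ A) →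
      ∑ a ∈ Bx 1 d H, (ErP z q c N (a 0)) ^ (2 * d) ≤ (Bx 1 d H).card * (LL ^ F * (L * N) ^ d)) :
    ((EvM d A H z ε T k j q c).card : ℝ) ≤
      if (q : ℝ) ^ 2 * (((j : ℝ) + 1) * (2 ^ k * L ^ ((d : ℝ) + ε))) ≤ 3 * (2 * T * 2 ^ k) ^ (d + 1) then
        (Bx 1 d H).card * (LL ^ F * T ^ (2 * d) * (L / 2 ^ k) ^ d) else 0 := by
  classical
  have hL0 : 0 < L := by linarith
  have hT0 : 0 < T := by linarith
  have h2k : (0 : ℝ) < 2 ^ k := by positivity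
  have hBc0 : (0 : ℝ) ≤ (Bx 1 d H).card := Nat.cast_nonneg _
  unfold EvM
  rw [← hL]
  by_cases hcond : (q : ℝ) ^ 2 * (((j : ℝ) + 1) * (2 ^ k * L ^ ((d : ℝ) + ε))) ≤ 3 * (2 * T * 2 ^ k) ^ (d + 1)
  swap
  · rw [if_neg (fun h => hcond h.2.2), if_neg hcond, card_empty, Nat.cast_zero]
  rw [if_pos hcond]
  split_ifs with hC
  swap
  · rw [card_empty, Nat.cast_zero]; positivity
  obtain ⟨h1, h2, _⟩ := hC
  set D : ℕ := 2 ^ k with hD
  have hDr : (D : ℝ) = 2 ^ k := by rw [hD]; push_cast; rfl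
  have hD1 : 1 ≤ D := Nat.one_le_two_pow
  have hmomq := hmom q (c + q * (j * D)) D hq (by rw [hDr]; exact h1) (by
    refine le_trans ?_ h2
    have : D ≤ q * ((j + 2) * D) := by
      calc D = 1 * (1 * D) := by ring
        _ ≤ q * ((j + 2) * D) := Nat.mul_le_mul hq (Nat.mul_le_mul_right _ (by omega))
    exact_mod_cast this) (by
    intro n hn
    rw [mem_Icc] at hn
    have e1 : pt q (c + q * (j * D)) n = ((c + q * (j * D) + q * (n - 1) : ℕ) : ℤ) := by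
      unfold pt
      obtain ⟨k, rfl⟩ : ∃ k, n = k + 1 := ⟨n - 1, by omega⟩
      push_cast
      ring
    rw [e1]
    have e4 : (((c + q * (j * D) + q * (n - 1) : ℕ) : ℤ) : ℝ) = ((c + q * (j * D) + q * (n - 1) : ℕ) : ℝ) := by push_cast; ring
    rw [e4, abs_of_nonneg (Nat.cast_nonneg _)]
    refine le_trans ?_ h2
    have e5 : c + q * (j * D) + q * (n - 1) ≤ q * ((j + 2) * D) := by
      have h5 : q * (n - 1) ≤ q * D := Nat.mul_le_mul_left _ (by omega)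
      have h6 : q * ((j + 2) * D) = q * (j * D) + q * D + q * D := by ring
      have h7 : q ≤ q * D := Nat.le_mul_of_pos_right _ (by omega)
      omega
    exact_mod_cast e5)
  -- Markov
  have hτ : 0 < (2 : ℝ) ^ k / T := by positivity
  set S := (Bx 1 d H).filter (fun a => 2 ^ k / T < |ErP z q (c + q * (j * D)) D (a 0)|) with hS
  have hsum : (S.card : ℝ) * (2 ^ k / T) ^ (2 * d) ≤ (Bx 1 d H).card * (LL ^ F * (L * D) ^ d) := by
    calc (S.card : ℝ) * (2 ^ k / T) ^ (2 * d) = ∑ a ∈ S, ((2 : ℝ) ^ k / T) ^ (2 * d) := by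
          rw [sum_const, nsmul_eq_mul]
      _ ≤ ∑ a ∈ S, (ErP z q (c + q * (j * D)) D (a 0)) ^ (2 * d) := by
          refine sum_le_sum fun a ha => ?_
          rw [hS, mem_filter] at ha
          rw [← (even_two_mul d).pow_abs (ErP z q (c + q * (j * D)) D (a 0))]
          exact pow_le_pow_left₀ hτ.le ha.2.le _
      _ ≤ ∑ a ∈ Bx 1 d H, (ErP z q (c + q * (j * D)) D (a 0)) ^ (2 * d) := by
          apply sum_le_sum_of_subset_of_nonneg (filter_subset _ _)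
          intro a _ _
          exact (even_two_mul d).pow_nonneg _
      _ ≤ _ := hmomq
  have hp : 0 < ((2 : ℝ) ^ k / T) ^ (2 * d) := by positivity
  apply le_of_mul_le_mul_right _ hp
  refine hsum.trans (le_of_eq ?_)
  rw [hDr]
  have h6 : ((2 : ℝ) ^ k / T) ^ (2 * d) = ((2 : ℝ) ^ k) ^ d * ((2 : ℝ) ^ k) ^ d / T ^ (2 * d) := by
    rw [div_pow, ← pow_add]; congr 2; ring
  rw [h6, mul_pow L, div_pow]
  have h8 : T ^ (2 * d) ≠ 0 := by positivity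
  have h9 : ((2 : ℝ) ^ k) ^ d ≠ 0 := by positivity
  field_simp

/-- the sum over the moduli -/
lemma sum_q (N : ℕ) (u R : ℝ) (hu : 0 < u) (hR : 0 ≤ R) :
    ∑ q ∈ Icc 1 N, (if (q : ℝ) ^ 2 * u ≤ R then (q : ℝ) else 0) ≤ R / u := by
  rw [← sum_filter]
  set s : ℕ := ⌊√(R / u)⌋₊ with hs
  have h1 : ∀ q ∈ (Icc 1 N).filter (fun q : ℕ => (q : ℝ) ^ 2 * u ≤ R), q ∈ Icc 1 s := by
    intro q hq
    rw [mem_filter, mem_Icc] at hq
    rw [mem_Icc]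
    refine ⟨hq.1.1, ?_⟩
    apply Nat.le_floor
    apply Real.le_sqrt_of_sq_le
    rw [le_div_iff₀ hu]
    exact hq.2
  have h2 : (s : ℝ) ≤ √(R / u) := Nat.floor_le (Real.sqrt_nonneg _)
  calc ∑ q ∈ (Icc 1 N).filter (fun q : ℕ => (q : ℝ) ^ 2 * u ≤ R), (q : ℝ) ≤ ∑ q ∈ Icc 1 s, (q : ℝ) :=
        sum_le_sum_of_subset_of_nonneg h1 (fun _ _ _ => Nat.cast_nonneg _)
    _ ≤ ∑ q ∈ Icc 1 s, (s : ℝ) := sum_le_sum fun q hq => by exact_mod_cast (mem_Icc.1 hq).2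
    _ = s * s := by rw [sum_const, Nat.card_Icc, Nat.add_sub_cancel, nsmul_eq_mul]
    _ ≤ √(R / u) * √(R / u) := mul_le_mul h2 h2 (Nat.cast_nonneg _) (Real.sqrt_nonneg _)
    _ = R / u := Real.mul_self_sqrt (by positivity)

lemma cntM3 (d A F B B' H z J0 Nq : ℕ) (T L LL ε : ℝ) (hL : L = Real.log H) (hL1 : 1 ≤ L)
    (hLL1 : 1 ≤ LL) (hT : T = LL ^ B')
    (hmom : ∀ q c N : ℕ, 1 ≤ q → 3 * L ≤ N → (N : ℝ) ≤ L ^ A → (∀ n ∈ Icc 1 N, |((pt q c n : ℤ) : ℝ)| ≤ L ^ A) →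
      ∑ a ∈ Bx 1 d H, (ErP z q c N (a 0)) ^ (2 * d) ≤ (Bx 1 d H).card * (LL ^ F * (L * N) ^ d))
    (hJ : 1 + Real.log ((J0 + 1 : ℕ) : ℝ) ≤ LL ^ 2) (h48 : 48 * 2 ^ d ≤ LL)
    (hbig : LL ^ (B + 5 + F + B' * (3 * d + 1)) ≤ L ^ ε) :
    ((((range (⌊LL ^ 2⌋₊ + 1)).biUnion (fun k => (range (J0 + 1)).biUnion (fun j =>
      (Icc 1 Nq).biUnion (fun q => (Icc 1 q).biUnion (fun c => EvM d A H z ε T k j q c))))).card : ℕ) : ℝ) ≤
      (Bx 1 d H).card * (1 / (4 * LL ^ B)) := by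
  classical
  have hL0 : 0 < L := by linarith
  have hLL0 : 0 < LL := by linarith
  have hT1 : 1 ≤ T := by rw [hT]; exact one_le_pow₀ hLL1
  have hT0 : 0 < T := by linarith
  have hBc0 : (0 : ℝ) ≤ (Bx 1 d H).card := Nat.cast_nonneg _
  have h1 : ((((range (⌊LL ^ 2⌋₊ + 1)).biUnion (fun k => (range (J0 + 1)).biUnion (fun j =>
      (Icc 1 Nq).biUnion (fun q => (Icc 1 q).biUnion (fun c => EvM d A H z ε T k j q c))))).card : ℕ) : ℝ) ≤
      ∑ k ∈ range (⌊LL ^ 2⌋₊ + 1), ∑ j ∈ range (J0 + 1), ∑ q ∈ Icc 1 Nq, ∑ c ∈ Icc 1 q, ((EvM d A H z ε T k j q c).card : ℝ) := by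
    have : ((range (⌊LL ^ 2⌋₊ + 1)).biUnion (fun k => (range (J0 + 1)).biUnion (fun j =>
      (Icc 1 Nq).biUnion (fun q => (Icc 1 q).biUnion (fun c => EvM d A H z ε T k j q c))))).card ≤
      ∑ k ∈ range (⌊LL ^ 2⌋₊ + 1), ∑ j ∈ range (J0 + 1), ∑ q ∈ Icc 1 Nq, ∑ c ∈ Icc 1 q, (EvM d A H z ε T k j q c).card :=
      card_biUnion_le.trans (sum_le_sum fun k _ => card_biUnion_le.trans (sum_le_sum fun j _ =>
        card_biUnion_le.trans (sum_le_sum fun q _ => card_biUnion_le)))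
    exact_mod_cast this
  refine h1.trans ?_
  have hLd : 0 < L ^ ((d : ℝ) + ε) := by positivity
  have hLε : 0 < L ^ ε := by positivity
  have hLsplit : L ^ ((d : ℝ) + ε) = L ^ d * L ^ ε := by rw [Real.rpow_add hL0, Real.rpow_natCast]
  set W : ℝ := 3 * 2 ^ (d + 1) * LL ^ F * T ^ (3 * d + 1) / L ^ ε with hW
  have hW0 : 0 ≤ W := by positivity
  generalize hBc : ((Bx 1 d H).card : ℝ) = Bc at hBc0 ⊢
  have hk : ∀ k : ℕ, ∑ j ∈ range (J0 + 1), ∑ q ∈ Icc 1 Nq, ∑ c ∈ Icc 1 q, ((EvM d A H z ε T k j q c).card : ℝ) ≤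
      LL ^ 2 * (Bc * W) := by
    intro k
    have h2k : (0 : ℝ) < 2 ^ k := by positivity
    set Wk : ℝ := Bc * (LL ^ F * T ^ (2 * d) * (L / 2 ^ k) ^ d) with hWk
    have hWk0 : 0 ≤ Wk := by positivity
    set R : ℝ := 3 * (2 * T * 2 ^ k) ^ (d + 1) with hR
    have hR0 : 0 ≤ R := by positivity
    have hj : ∀ j : ℕ, ∑ q ∈ Icc 1 Nq, ∑ c ∈ Icc 1 q, ((EvM d A H z ε T k j q c).card : ℝ) ≤
        R / (2 ^ k * L ^ ((d : ℝ) + ε)) * Wk * (1 / ((j + 1 : ℕ) : ℝ)) := by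
      intro j
      have hj0 : (0 : ℝ) < (j : ℝ) + 1 := by positivity
      have hu : 0 < ((j : ℝ) + 1) * (2 ^ k * L ^ ((d : ℝ) + ε)) := by positivity
      have h2 : ∀ q ∈ Icc 1 Nq, ∑ c ∈ Icc 1 q, ((EvM d A H z ε T k j q c).card : ℝ) ≤
          (if (q : ℝ) ^ 2 * (((j : ℝ) + 1) * (2 ^ k * L ^ ((d : ℝ) + ε))) ≤ R then (q : ℝ) else 0) * Wk := by
        intro q hq
        rw [mem_Icc] at hq
        have h3 : ∀ c ∈ Icc 1 q, ((EvM d A H z ε T k j q c).card : ℝ) ≤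
            if (q : ℝ) ^ 2 * (((j : ℝ) + 1) * (2 ^ k * L ^ ((d : ℝ) + ε))) ≤ R then Wk else 0 := by
          intro c hc
          have := EvM_card d H z A F k j q c T L LL ε hL hL1 hLL0.le hT1 hq.1 (mem_Icc.1 hc).2 hmom
          rw [hBc] at this
          exact this
        refine (sum_le_sum h3).trans (le_of_eq ?_)
        rw [sum_const, Nat.card_Icc, Nat.add_sub_cancel, nsmul_eq_mul]
        split_ifs <;> ring
      refine (sum_le_sum h2).trans ?_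
      rw [← sum_mul]
      have h4 := sum_q Nq _ R hu hR0
      refine (mul_le_mul_of_nonneg_right h4 hWk0).trans (le_of_eq ?_)
      push_cast
      field_simp
    refine (sum_le_sum fun j _ => hj j).trans ?_
    rw [← mul_sum]
    have h5 : ∑ j ∈ range (J0 + 1), 1 / ((j + 1 : ℕ) : ℝ) ≤ LL ^ 2 := by
      have h6 : ∑ j ∈ range (J0 + 1), 1 / ((j + 1 : ℕ) : ℝ) = ∑ j ∈ Icc 1 (J0 + 1), 1 / (j : ℝ) := by
        rw [range_eq_Ico, sum_Ico_add' (fun j : ℕ => 1 / (j : ℝ)) 0 (J0 + 1) 1]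
        rfl
      rw [h6]
      exact (harm_le _).trans hJ
    have h7 : R / (2 ^ k * L ^ ((d : ℝ) + ε)) * Wk = Bc * W := by
      rw [hR, hWk, hW, hLsplit, mul_pow (2 * T), mul_pow 2 T, div_pow, pow_succ ((2 : ℝ) ^ k) d]
      have e1 : T ^ (3 * d + 1) = T ^ (d + 1) * T ^ (2 * d) := by rw [← pow_add]; congr 1; ring
      rw [e1]
      have h9 : ((2 : ℝ) ^ k) ^ d ≠ 0 := by positivity
      field_simp
    rw [h7, mul_comm (LL ^ 2)]
    exact mul_le_mul_of_nonneg_left h5 (by positivity)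
  refine (sum_le_sum fun k _ => hk k).trans ?_
  rw [sum_const, card_range, nsmul_eq_mul]
  have h3 : ((⌊LL ^ 2⌋₊ + 1 : ℕ) : ℝ) ≤ 2 * LL ^ 2 := by
    have r3 : (⌊LL ^ 2⌋₊ : ℝ) ≤ LL ^ 2 := Nat.floor_le (by positivity)
    have r4 : 1 ≤ LL ^ 2 := one_le_pow₀ hLL1
    push_cast
    linarith
  have h4 : ((⌊LL ^ 2⌋₊ + 1 : ℕ) : ℝ) * (LL ^ 2 * (Bc * W)) ≤ (2 * LL ^ 2) * (LL ^ 2 * (Bc * W)) :=
    mul_le_mul_of_nonneg_right h3 (by positivity)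
  refine h4.trans ?_
  clear h4 h1 hmom hk
  have e1 : (2 * LL ^ 2) * (LL ^ 2 * (Bc * W)) = Bc * (2 * LL ^ 4 * W) := by ring
  rw [e1]
  apply mul_le_mul_of_nonneg_left _ hBc0
  rw [hW, mul_div_assoc', div_le_div_iff₀ hLε (by positivity), one_mul]
  refine le_trans ?_ hbig
  have e2 : T ^ (3 * d + 1) = LL ^ (B' * (3 * d + 1)) := by rw [hT, ← pow_mul]
  have e3 : LL ^ (B + 5 + F + B' * (3 * d + 1)) = LL * (LL ^ 4 * LL ^ B * LL ^ F * LL ^ (B' * (3 * d + 1))) := by ring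
  have e4 : 2 * LL ^ 4 * (3 * 2 ^ (d + 1) * LL ^ F * T ^ (3 * d + 1)) * (4 * LL ^ B) =
      (48 * 2 ^ d) * (LL ^ 4 * LL ^ B * LL ^ F * T ^ (3 * d + 1)) := by ring
  rw [e3, e4, e2]
  exact mul_le_mul_of_nonneg_right h48 (by positivity)

open Classical in
/-- the exceptional polynomials of a block of a class: the sifted part -/
noncomputable def EvH (d H w z : ℕ) (β : ℝ) (k j q c : ℕ) : Finset (Fin 1 → Fin (d + 1) → ℤ) :=
  if Real.log H ≤ 2 ^ k then (Bx 1 d H).filter (fun a => Ncp w z (a 0) ∧ Cop w z q (c + q * (j * 2 ^ k)) (a 0) ∧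
    β * ((2 ^ k : ℕ) : ℝ) < |DwP w z q (c + q * (j * 2 ^ k)) (2 ^ k) (a 0)|) else ∅

open Classical in
lemma cntM4 (d A H w z Nq J0 B : ℕ) (L LL β : ℝ) (hL : L = Real.log H) (hL1 : 1 ≤ L) (hL8 : 32 ≤ L)
    (hLL1 : 1 ≤ LL) (hLLB : LL ^ (B + 2) ≤ L) (hNq : (Nq : ℝ) ≤ L ^ A) (hJ0 : ((J0 + 1 : ℕ) : ℝ) ≤ 2 * L ^ (A + 1))
    (hblk : ∀ q c N : ℕ, 1 ≤ q → (q : ℝ) ≤ L ^ (A + 1) → L ≤ N →
      ((((Bx 1 d H).filter (fun a => Ncp w z (a 0) ∧ Cop w z q c (a 0) ∧ β * N < |DwP w z q c N (a 0)|)).card : ℕ) : ℝ) ≤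
      (Bx 1 d H).card * (2 / L ^ (3 * A + 9))) :
    ((((range (⌊LL ^ 2⌋₊ + 1)).biUnion (fun k => (range (J0 + 1)).biUnion (fun j =>
      (Icc 1 Nq).biUnion (fun q => (Icc 1 Nq).biUnion (fun c => EvH d H w z β k j q c))))).card : ℕ) : ℝ) ≤
      (Bx 1 d H).card * (1 / (4 * LL ^ B)) := by
  have hL0 : 0 < L := by linarith
  have hBc0 : (0 : ℝ) ≤ (Bx 1 d H).card := Nat.cast_nonneg _
  set W : ℝ := 2 / L ^ (3 * A + 9) with hW
  have hW0 : 0 ≤ W := by positivity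
  have hone : ∀ q ∈ Icc 1 Nq, ∀ k j c, ((EvH d H w z β k j q c).card : ℝ) ≤ (Bx 1 d H).card * W := by
    intro q hq k j c
    rw [mem_Icc] at hq
    unfold EvH
    split_ifs with hc
    · rw [← hL] at hc
      apply hblk q _ (2 ^ k) hq.1 _ (by push_cast; exact hc)
      have : (q : ℝ) ≤ Nq := by exact_mod_cast hq.2
      exact this.trans (hNq.trans (pow_le_pow_right₀ hL1 (by omega)))
    · rw [card_empty, Nat.cast_zero]
      exact mul_nonneg hBc0 hW0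
  have h1 : ((((range (⌊LL ^ 2⌋₊ + 1)).biUnion (fun k => (range (J0 + 1)).biUnion (fun j =>
      (Icc 1 Nq).biUnion (fun q => (Icc 1 Nq).biUnion (fun c => EvH d H w z β k j q c))))).card : ℕ) : ℝ) ≤
      ∑ k ∈ range (⌊LL ^ 2⌋₊ + 1), ∑ j ∈ range (J0 + 1), ∑ q ∈ Icc 1 Nq, ∑ c ∈ Icc 1 Nq, ((EvH d H w z β k j q c).card : ℝ) := by
    have : ((range (⌊LL ^ 2⌋₊ + 1)).biUnion (fun k => (range (J0 + 1)).biUnion (fun j =>
      (Icc 1 Nq).biUnion (fun q => (Icc 1 Nq).biUnion (fun c => EvH d H w z β k j q c))))).card ≤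
      ∑ k ∈ range (⌊LL ^ 2⌋₊ + 1), ∑ j ∈ range (J0 + 1), ∑ q ∈ Icc 1 Nq, ∑ c ∈ Icc 1 Nq, (EvH d H w z β k j q c).card :=
      card_biUnion_le.trans (sum_le_sum fun k _ => card_biUnion_le.trans (sum_le_sum fun j _ =>
        card_biUnion_le.trans (sum_le_sum fun q _ => card_biUnion_le)))
    exact_mod_cast this
  refine h1.trans ?_
  have h2 : ∑ k ∈ range (⌊LL ^ 2⌋₊ + 1), ∑ j ∈ range (J0 + 1), ∑ q ∈ Icc 1 Nq, ∑ c ∈ Icc 1 Nq,
      ((EvH d H w z β k j q c).card : ℝ) ≤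
      ((⌊LL ^ 2⌋₊ + 1 : ℕ) : ℝ) * (((J0 + 1 : ℕ) : ℝ) * (Nq * (Nq * ((Bx 1 d H).card * W)))) := by
    calc _ ≤ ∑ k ∈ range (⌊LL ^ 2⌋₊ + 1), ∑ j ∈ range (J0 + 1), ∑ q ∈ Icc 1 Nq, ∑ c ∈ Icc 1 Nq, ((Bx 1 d H).card : ℝ) * W :=
          sum_le_sum fun k _ => sum_le_sum fun j _ => sum_le_sum fun q hq => sum_le_sum fun c _ => hone q hq k j c
      _ = _ := by
          simp only [sum_const, card_range, Nat.card_Icc, Nat.add_sub_cancel, nsmul_eq_mul]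
  refine h2.trans ?_
  have hLL0 : 0 < LL := by linarith
  have h3' : ((⌊LL ^ 2⌋₊ + 1 : ℕ) : ℝ) ≤ 2 * LL ^ 2 := by
    have r3 : (⌊LL ^ 2⌋₊ : ℝ) ≤ LL ^ 2 := Nat.floor_le (by positivity)
    have r4 : 1 ≤ LL ^ 2 := one_le_pow₀ hLL1
    push_cast
    linarith
  have h5 : 0 ≤ ((Bx 1 d H).card : ℝ) * W := mul_nonneg hBc0 hW0
  have h3 : ((⌊LL ^ 2⌋₊ + 1 : ℕ) : ℝ) * (((J0 + 1 : ℕ) : ℝ) * (Nq * (Nq * ((Bx 1 d H).card * W)))) ≤
      (2 * LL ^ 2) * ((2 * L ^ (A + 1)) * (L ^ A * (L ^ A * ((Bx 1 d H).card * W)))) := by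
    apply mul_le_mul h3' _ (by positivity) (by positivity)
    apply mul_le_mul hJ0 _ (by positivity) (by positivity)
    apply mul_le_mul hNq _ (by positivity) (by positivity)
    exact mul_le_mul_of_nonneg_right hNq h5
  refine h3.trans ?_
  clear h3 h2 h1 hone hblk
  generalize ((Bx 1 d H).card : ℝ) = Bc at hBc0 ⊢
  have e1 : (2 * LL ^ 2) * ((2 * L ^ (A + 1)) * (L ^ A * (L ^ A * (Bc * W)))) = Bc * (8 * LL ^ 2 / L ^ 8) := by
    rw [hW]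
    have : L ^ (3 * A + 9) = L ^ A * L ^ A * L ^ (A + 1) * L ^ 8 := by ring
    rw [this]
    field_simp
    ring
  rw [e1]
  apply mul_le_mul_of_nonneg_left _ hBc0
  rw [div_le_div_iff₀ (by positivity) (by positivity), one_mul]
  have e2 : L ^ 8 = L * L * L ^ 6 := by ring
  have e3 : 1 ≤ L ^ 6 := one_le_pow₀ hL1
  have e4 : 32 * LL ^ (B + 2) ≤ L * L := mul_le_mul hL8 hLLB (by positivity) hL0.le
  have e6 : 8 * LL ^ 2 * (4 * LL ^ B) = 32 * LL ^ (B + 2) := by ring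
  rw [e2, e6]
  have e5 : L * L ≤ L * L * L ^ 6 := le_mul_of_one_le_right (by positivity) e3
  linarith

end Pool.Agent.TP975.RP
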