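import Mathlib
import Pool.Agent.TP975.RP.Mg2

/-!
Residue classes in short intervals: one polynomial.
-/

set_option autoImplicit false

namespace Pool.Agent.TP975.RP

open Finset
open Pool.Agent.H373R2.T7

/-- averaging over the coprime classes, in an interval -/
lemma averaging2 {d : ℕ} (f : Fin (d + 1) → ℤ) (q y1 y2 y0 X' : ℕ) (L K R : ℝ) (hL : 0 < L) (hq : 1 ≤ q) (hqy : q ≤ y0)
    (hy1 : y1 ≤ X') (hy2 : y2 ≤ X')
    (hbig : ∀ m : ℕ, 1 ≤ m → m ≤ X' → y0 < (ev f (m : ℤ)).natAbs)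
    (h : ∀ c ∈ cls f q, |L * ((piq f q c y2 : ℝ) - piq f q c y1) - K| ≤ R) (c : ℕ) (hc : c ∈ cls f q) :
    |((piq f q c y2 : ℝ) - piq f q c y1) - ((piq f 1 1 y2 : ℝ) - piq f 1 1 y1) / (cls f q).card| ≤ 2 * R / L := by
  have hφ : (0 : ℝ) < (cls f q).card := by exact_mod_cast card_pos.2 ⟨c, hc⟩
  have h1 : (piq f 1 1 y2 : ℝ) - piq f 1 1 y1 = ∑ c' ∈ cls f q, ((piq f q c' y2 : ℝ) - piq f q c' y1) := by
    rw [piq_all f q y2 y0 X' hq hqy hy2 hbig, piq_all f q y1 y0 X' hq hqy hy1 hbig, sum_sub_distrib]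
    push_cast
    rfl
  have h2 : ((piq f q c y2 : ℝ) - piq f q c y1) - ((piq f 1 1 y2 : ℝ) - piq f 1 1 y1) / (cls f q).card =
      (∑ c' ∈ cls f q, (((piq f q c y2 : ℝ) - piq f q c y1) - ((piq f q c' y2 : ℝ) - piq f q c' y1))) / (cls f q).card := by
    rw [sum_sub_distrib, sum_const, nsmul_eq_mul, h1]
    field_simp
  rw [h2, abs_div, abs_of_pos hφ, div_le_iff₀ hφ]
  refine (abs_sum_le_sum_abs _ _).trans ?_
  calc ∑ c' ∈ cls f q, |((piq f q c y2 : ℝ) - piq f q c y1) - ((piq f q c' y2 : ℝ) - piq f q c' y1)| ≤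
        ∑ c' ∈ cls f q, 2 * R / L := by
        refine sum_le_sum fun c' hc' => ?_
        have h3 := abs_le.1 (h c hc)
        have h4 := abs_le.1 (h c' hc')
        rw [le_div_iff₀ hL, ← abs_of_pos hL, ← abs_mul, abs_le]
        constructor <;> nlinarith
    _ = 2 * R / L * (cls f q).card := by rw [sum_const, nsmul_eq_mul, mul_comm]

/-- the scale -/
lemma scaleM (d A q x h : ℕ) (hd : 1 ≤ d) (L ε T : ℝ) (hε : 0 < ε) (hL : 1 ≤ L) (hT : 1 ≤ T) (hTL : 16 * T ≤ L ^ (ε / d))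
    (hq : 1 ≤ q) (hh : 1 ≤ h) (hX : ((x + h : ℕ) : ℝ) ≤ L ^ A)
    (hc : (q : ℝ) ^ (d + 2) * ((x + h : ℕ) : ℝ) * L ^ ((d : ℝ) + ε) ≤ (h : ℝ) ^ (d + 1)) :
    q ≤ h ∧ ∃ k : ℕ, T * 2 ^ k ≤ (h : ℝ) / q ∧ (h : ℝ) / q ≤ 2 * T * 2 ^ k ∧ 3 * L ≤ 2 ^ k ∧ (2 : ℝ) ^ k ≤ L ^ A ∧
      q * ((x + h : ℕ) : ℝ) * L ^ ((d : ℝ) + ε) ≤ (2 * T * 2 ^ k) ^ (d + 1) := by
  have hL0 : 0 < L := by linarith
  have hT0 : 0 < T := by linarith
  have hd0 : (0 : ℝ) < d := by exact_mod_cast hd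
  have hq0 : (0 : ℝ) < q := by exact_mod_cast hq
  have hqr : (1 : ℝ) ≤ q := by exact_mod_cast hq
  have hhr : (1 : ℝ) ≤ h := by exact_mod_cast hh
  have hLd : 0 < L ^ ((d : ℝ) + ε) := by positivity
  have hxh : (h : ℝ) ≤ ((x + h : ℕ) : ℝ) := by exact_mod_cast Nat.le_add_left h x
  have hxh0 : (0 : ℝ) < ((x + h : ℕ) : ℝ) := by linarith
  set r : ℝ := (h : ℝ) / q with hr
  have hr0 : 0 < r := by positivity
  have hrh : r ≤ h := div_le_self (by positivity) hqr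
  have hqr' : (h : ℝ) = q * r := by rw [hr]; field_simp
  have h1 : q * ((x + h : ℕ) : ℝ) * L ^ ((d : ℝ) + ε) ≤ r ^ (d + 1) := by
    have h2 : (q : ℝ) ^ (d + 1) * (q * ((x + h : ℕ) : ℝ) * L ^ ((d : ℝ) + ε)) ≤ (q : ℝ) ^ (d + 1) * r ^ (d + 1) := by
      rw [← mul_pow, ← hqr']
      refine le_trans (le_of_eq ?_) hc
      ring
    exact le_of_mul_le_mul_left h2 (by positivity)
  have h2 : L * L ^ (ε / d) ≤ r := by
    have h3 : (L * L ^ (ε / d)) ^ d ≤ r ^ d := by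
      have hLsplit : (L * L ^ (ε / d)) ^ d = L ^ ((d : ℝ) + ε) := by
        rw [mul_pow, ← Real.rpow_natCast (L ^ (ε / d)), ← Real.rpow_mul hL0.le, div_mul_cancel₀ _ hd0.ne',
          ← Real.rpow_natCast L d, ← Real.rpow_add hL0]
      rw [hLsplit]
      have h4 : r * L ^ ((d : ℝ) + ε) ≤ r * r ^ d := by
        calc r * L ^ ((d : ℝ) + ε) ≤ (q * ((x + h : ℕ) : ℝ)) * L ^ ((d : ℝ) + ε) := by
              apply mul_le_mul_of_nonneg_right _ hLd.le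
              calc r ≤ ((x + h : ℕ) : ℝ) := hrh.trans hxh
                _ ≤ q * ((x + h : ℕ) : ℝ) := le_mul_of_one_le_left hxh0.le hqr
          _ ≤ r ^ (d + 1) := h1
          _ = r * r ^ d := by rw [pow_succ]; ring
      exact le_of_mul_le_mul_left h4 hr0
    exact le_of_pow_le_pow_left₀ (by omega) hr0.le h3
  have h16 : 16 * T * L ≤ r := by
    refine le_trans ?_ h2
    rw [mul_comm]
    exact mul_le_mul_of_nonneg_left hTL hL0.le
  have hqh : q ≤ h := by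
    have : (q : ℝ) ≤ h := by
      rw [hqr']
      apply le_mul_of_one_le_right hq0.le
      nlinarith
    exact_mod_cast this
  refine ⟨hqh, ?_⟩
  have h5 : 1 ≤ r / T := by rw [le_div_iff₀ hT0]; nlinarith
  obtain ⟨k, hk1, hk2⟩ := exists_nat_pow_near h5 (show (1 : ℝ) < 2 by norm_num)
  have h2k : (0 : ℝ) < 2 ^ k := by positivity
  have k1 : T * 2 ^ k ≤ r := by
    rw [le_div_iff₀ hT0] at hk1
    linarith
  have k2 : r < 2 * T * 2 ^ k := by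
    rw [div_lt_iff₀ hT0, pow_succ] at hk2
    linarith
  refine ⟨k, k1, k2.le, ?_, ?_, ?_⟩
  · have h6 : (2 * T) * (8 * L) ≤ (2 * T) * 2 ^ k := by nlinarith
    have h7 := le_of_mul_le_mul_left h6 (by positivity)
    linarith
  · have : (2 : ℝ) ^ k ≤ T * 2 ^ k := le_mul_of_one_le_left h2k.le hT
    linarith
  · refine h1.trans (pow_le_pow_left₀ hr0.le k2.le _)

/-- one polynomial -/
lemma mg_det (d A B w z X' Nq y0 : ℕ) (hd : 1 ≤ d) (ε L LL T : ℝ) (hε : 0 < ε) (hL32 : 32 ≤ L) (hLL88 : 88 ≤ LL)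
    (hLL : LL = Real.log L) (hLLA : 4 * (A : ℝ) + 4 ≤ LL) (hT : T = LL ^ (B + 2)) (hTLe : 16 * T ≤ L ^ (ε / d))
    (hV : (Vz w)⁻¹ ≤ LL) (hX' : X' = ⌊L ^ (A + 1)⌋₊) (hNq : Nq = ⌊L ^ A⌋₊) (f : Fin (d + 1) → ℤ)
    (hP : ∀ m : ℕ, 1 ≤ m → m ≤ X' → |L * (if (ev f (m : ℤ)).natAbs.Prime then 1 else 0) -
      ArithmeticFunction.vonMangoldt (ev f (m : ℤ)).natAbs| ≤
        2 * (1 / T) * ArithmeticFunction.vonMangoldt (ev f (m : ℤ)).natAbs)
    (hbig : ∀ m : ℕ, 1 ≤ m → m ≤ X' → y0 < (ev f (m : ℤ)).natAbs)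
    (hy0 : L ^ A ≤ y0)
    (hEv : ∀ k ∈ range (⌊LL ^ 2⌋₊ + 1), ∀ j ∈ range (X' + 1), ∀ q ∈ Icc 1 Nq, ∀ c ∈ Icc 1 q,
      3 * L ≤ 2 ^ k → (((q * ((j + 2) * 2 ^ k) : ℕ) : ℝ) ≤ L ^ (A + 1)) →
      (q : ℝ) ^ 2 * (((j : ℝ) + 1) * (2 ^ k * L ^ ((d : ℝ) + ε))) ≤ 3 * (2 * T * 2 ^ k) ^ (d + 1) →
      |ErP z q (c + q * (j * 2 ^ k)) (2 ^ k) f| ≤ 2 ^ k / T)
    (hDw : ∀ k ∈ range (⌊LL ^ 2⌋₊ + 1), ∀ j ∈ range (X' + 1), ∀ q ∈ Icc 1 Nq, ∀ c ∈ Icc 1 q,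
      L ≤ 2 ^ k → Cp f q (c + q * (j * 2 ^ k)) → |DwP w z q (c + q * (j * 2 ^ k)) (2 ^ k) f| ≤ 3 / T * ((2 ^ k : ℕ) : ℝ))
    (hsift : ∀ D q c : ℕ, L ≤ D → Cp f q c →
      |∑ n ∈ Icc 1 D, lamz w (ev f (pt q c n)).natAbs - Kq w q f * D| ≤ LL * (1 / T * D))
    (q x h c : ℕ) (hq : 1 ≤ q) (hc : c ∈ cls f q) (hX : ((x + h : ℕ) : ℝ) ≤ L ^ A)
    (hcond : (q : ℝ) ^ (d + 2) * ((x + h : ℕ) : ℝ) * L ^ ((d : ℝ) + ε) ≤ (h : ℝ) ^ (d + 1)) :
    |((piq f q c (x + h) : ℝ) - piq f q c x) - ((piq f 1 1 (x + h) : ℝ) - piq f 1 1 x) / (cls f q).card| ≤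
      h / (q * L * LL ^ B) := by
  have hL0 : 0 < L := by linarith
  have hL1 : 1 ≤ L := by linarith
  have hLL0 : 0 < LL := by linarith
  have hT1 : 1 ≤ T := by rw [hT]; exact one_le_pow₀ (by linarith)
  have hT0 : 0 < T := by linarith
  have hq0 : (0 : ℝ) < q := by exact_mod_cast hq
  have hqr : (1 : ℝ) ≤ q := by exact_mod_cast hq
  rcases Nat.eq_zero_or_pos h with h0 | h0
  · subst h0
    simp
  obtain ⟨hqh, k, k1, k2, k3, k4, k5⟩ := scaleM d A q x h hd L ε T hε hL1 hT1 hTLe hq h0 hX hcond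
  have h2k : (0 : ℝ) < 2 ^ k := by positivity
  have h2k1 : (1 : ℝ) ≤ 2 ^ k := one_le_pow₀ (by norm_num)
  have hx0 : (0 : ℝ) ≤ x := Nat.cast_nonneg _
  have hLA0 : 0 < L ^ A := by positivity
  have h4X : 4 * (x + h) ≤ X' := by
    rw [hX']
    apply Nat.le_floor
    have : L ^ (A + 1) = L ^ A * L := pow_succ _ _
    rw [this]
    push_cast at hX ⊢
    nlinarith
  have hqA : (q : ℝ) ≤ L ^ A := by
    have : (q : ℝ) ≤ ((x + h : ℕ) : ℝ) := by exact_mod_cast hqh.trans (Nat.le_add_left h x)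
    exact this.trans hX
  have hqN : q ∈ Icc 1 Nq := by
    rw [mem_Icc, hNq]
    exact ⟨hq, Nat.le_floor hqA⟩
  have hkr : k ∈ range (⌊LL ^ 2⌋₊ + 1) := by
    rw [mem_range]
    apply Nat.lt_succ_of_le
    apply Nat.le_floor
    have q1 := Real.log_le_log h2k k4
    rw [Real.log_pow, Real.log_pow, ← hLL] at q1
    have q2 := Real.log_two_gt_d9
    have hk0 : (0 : ℝ) ≤ k := Nat.cast_nonneg _
    have q3 : (k : ℝ) * (1 / 2) ≤ k * Real.log 2 := mul_le_mul_of_nonneg_left (by linarith) hk0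
    have q4 : (A : ℝ) * LL ≤ LL / 2 * LL := mul_le_mul_of_nonneg_right (by linarith) hLL0.le
    nlinarith
  have hDc : (((2 ^ k : ℕ)) : ℝ) = 2 ^ k := by push_cast; rfl
  have hqD : (q : ℝ) * 2 ^ k ≤ h := by
    have h1 : (2 : ℝ) ^ k ≤ T * 2 ^ k := le_mul_of_one_le_left h2k.le hT1
    have h2 : (2 : ℝ) ^ k ≤ (h : ℝ) / q := h1.trans k1
    rw [le_div_iff₀ hq0] at h2
    linarith
  have hqhr : (q : ℝ) ≤ h := by exact_mod_cast hqh
  -- the blocks of a class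
  have hjb : ∀ c' ∈ Icc 1 q, ∀ j, j ≤ Nc q c' (x + h) / 2 ^ k → (q : ℝ) * (j * 2 ^ k) ≤ x + h + q := by
    intro c' hc' j hj
    have h1 : j * 2 ^ k ≤ Nc q c' (x + h) := by
      calc j * 2 ^ k ≤ Nc q c' (x + h) / 2 ^ k * 2 ^ k := Nat.mul_le_mul_right _ hj
        _ ≤ _ := Nat.div_mul_le_self _ _
    have h2 := (abs_le.1 (Nc_bd q c' (x + h) hq hc')).2
    have h3 : ((j * 2 ^ k : ℕ) : ℝ) ≤ (((x + h : ℕ) : ℝ)) / q + 1 := by
      have : ((j * 2 ^ k : ℕ) : ℝ) ≤ Nc q c' (x + h) := by exact_mod_cast h1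
      linarith
    have h4 := mul_le_mul_of_nonneg_left h3 hq0.le
    have h5 : (q : ℝ) * ((((x + h : ℕ) : ℝ)) / q + 1) = x + h + q := by push_cast; field_simp
    rw [h5] at h4
    push_cast at h4
    exact h4
  have hjr : ∀ c' ∈ Icc 1 q, ∀ j, j ≤ Nc q c' (x + h) / 2 ^ k → j ∈ range (X' + 1) := by
    intro c' hc' j hj
    rw [mem_range]
    apply Nat.lt_succ_of_le
    refine le_trans ?_ h4X
    have h1 := hjb c' hc' j hj
    have h2 : (j : ℝ) ≤ (q : ℝ) * (j * 2 ^ k) := by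
      have hj0 : (0 : ℝ) ≤ j := Nat.cast_nonneg _
      calc (j : ℝ) ≤ j * 2 ^ k := le_mul_of_one_le_right hj0 h2k1
        _ ≤ q * (j * 2 ^ k) := le_mul_of_one_le_left (by positivity) hqr
    have h3 : (j : ℝ) ≤ ((4 * (x + h) : ℕ) : ℝ) := by
      push_cast
      linarith
    exact_mod_cast h3
  set K : ℝ := Kq w q f * ((h : ℝ) / q) with hK
  have key : ∀ c' ∈ cls f q, |L * ((piq f q c' (x + h) : ℝ) - piq f q c' x) - K| ≤
      (h / q) * (4 * LL / T + 6 * (2 * (1 / T) + (2 * (3 / T) + 2 * (1 / T) * LL + LL * (1 / T)))) := by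
    intro c' hc'
    have hc'' := mem_cls.1 hc'
    have hT2 : 2 * (1 / T) ≤ 1 := by
      rw [mul_one_div, div_le_one hT0]
      have : (2 : ℝ) ≤ LL ^ 1 := by rw [pow_one]; linarith
      rw [hT]
      exact this.trans (pow_le_pow_right₀ (by linarith) (by omega))
    apply class_int f w z q c' x h (2 ^ k) X' L (1 / T) (3 / T) LL (1 / T) (1 / T) T hq hc''.1 hc''.2 hL0.le (by positivity)
      hT2 (by positivity) (by positivity) (by positivity) hV hT1 Nat.one_le_two_pow (by rw [hDc]; exact k1)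
      (by rw [hDc]; exact k2) h4X hP
    · intro j hj
      exact hDw k hkr j (hjr c' hc''.1 j hj) q hqN c' hc''.1 (by linarith) (Cp_shift f q c' _ hc''.2)
    · intro j
      exact hsift (2 ^ k) q _ (by rw [hDc]; linarith) (Cp_shift f q c' _ hc''.2)
    · intro j hj
      have h1 := hjb c' hc''.1 j hj
      have h2 := hEv k hkr j (hjr c' hc''.1 j hj) q hqN c' hc''.1 k3 (by
        have : L ^ (A + 1) = L ^ A * L := pow_succ _ _
        rw [this]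
        push_cast at hX ⊢
        have e : (q : ℝ) * (((j : ℝ) + 2) * 2 ^ k) = q * (j * 2 ^ k) + 2 * (q * 2 ^ k) := by ring
        rw [e]
        nlinarith) (by
        have hLd : 0 < L ^ ((d : ℝ) + ε) := by positivity
        have e : (q : ℝ) ^ 2 * (((j : ℝ) + 1) * (2 ^ k * L ^ ((d : ℝ) + ε))) =
            (q * L ^ ((d : ℝ) + ε)) * (q * (j * 2 ^ k) + q * 2 ^ k) := by ring
        rw [e]
        have h3 : q * (j * 2 ^ k) + q * 2 ^ k ≤ 3 * ((x + h : ℕ) : ℝ) := by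
          push_cast
          linarith
        calc (q * L ^ ((d : ℝ) + ε)) * (q * (j * 2 ^ k) + q * 2 ^ k) ≤ (q * L ^ ((d : ℝ) + ε)) * (3 * ((x + h : ℕ) : ℝ)) :=
              mul_le_mul_of_nonneg_left h3 (by positivity)
          _ = 3 * (q * ((x + h : ℕ) : ℝ) * L ^ ((d : ℝ) + ε)) := by ring
          _ ≤ _ := mul_le_mul_of_nonneg_left k5 (by norm_num))
      rw [hDc, one_div_mul_eq_div]
      exact h2
  have hqy : q ≤ y0 := by
    have := hqA.trans hy0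
    exact_mod_cast this
  have hav := averaging2 f q x (x + h) y0 X' L K _ hL0 hq hqy (by omega) (by omega) hbig key c hc
  refine hav.trans ?_
  have e1 : 2 * ((h / q) * (4 * LL / T + 6 * (2 * (1 / T) + (2 * (3 / T) + 2 * (1 / T) * LL + LL * (1 / T))))) / L =
      h / (q * L) * ((44 * LL + 96) / T) := by
    field_simp
    ring
  rw [e1]
  have e2 : (44 * LL + 96) / T ≤ 1 / LL ^ B := by
    rw [div_le_div_iff₀ hT0 (by positivity), one_mul, hT, pow_add, mul_comm]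
    apply mul_le_mul_of_nonneg_left _ (by positivity)
    nlinarith
  calc h / (q * L) * ((44 * LL + 96) / T) ≤ h / (q * L) * (1 / LL ^ B) := mul_le_mul_of_nonneg_left e2 (by positivity)
    _ = h / (q * L * LL ^ B) := by rw [div_mul_div_comm, mul_one]

end Pool.Agent.TP975.RP
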