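import Mathlib
import Pool.Agent.TP975.RP.Mg3

/-!
Residue classes in short intervals: the theorem.
-/

set_option autoImplicit false

namespace Pool.Agent.TP975.RP

open Finset
open Pool.Agent.H373R2.T7

open Classical in
theorem mg_main (d A B : ℕ) (hd : 2 ≤ d) (ε : ℝ) (hε : 0 < ε) : ∃ H0 : ℕ, ∀ H : ℕ, H0 ≤ H →
    ((((QQ d H).filter (fun f => ∃ q x h c : ℕ, 1 ≤ q ∧ c ∈ cls f q ∧ ((x + h : ℕ) : ℝ) ≤ Real.log H ^ A ∧
      (q : ℝ) ^ (d + 2) * ((x + h : ℕ) : ℝ) * Real.log H ^ ((d : ℝ) + ε) ≤ (h : ℝ) ^ (d + 1) ∧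
      h / (q * Real.log H * Real.log (Real.log H) ^ B) < |((piq f q c (x + h) : ℝ) - piq f q c x) -
        ((piq f 1 1 (x + h) : ℝ) - piq f 1 1 x) / (cls f q).card|)).card : ℕ) : ℝ) ≤
      (QQ d H).card / Real.log (Real.log H) ^ B := by
  have hd0 : (0 : ℝ) < d := by
    have : 0 < d := by omega
    exact_mod_cast this
  set B' := B + 2 with hB'
  obtain ⟨F, c0, H1, h1⟩ := blkP d (A + 1) (3 * A + 9) B' hd
  obtain ⟨H2, h2⟩ := V_small (2 * B' + 15) 1
  obtain ⟨H3, h3⟩ := pow_small (B + 5 + F + B' * (3 * d + 1)) ε hε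
  obtain ⟨H4, h4⟩ := pow_small (B' + 1) (ε / d) (by positivity)
  obtain ⟨H5, h5⟩ := ll_ev (max (48 * 2 ^ d + 88) (4 * A + 4))
  obtain ⟨H6, h6⟩ := pow_small (B' + 1) 1 (by norm_num)
  obtain ⟨H7, h7⟩ := pow_small (2 * B' + 15) (1 / 4) (by norm_num)
  obtain ⟨H8, h8⟩ := Heta (A + 3) B' 76
  obtain ⟨H9, h9⟩ := Filter.eventually_atTop.1 (ev_log 32)
  obtain ⟨H10, h10⟩ := Heta ((A + 1) * d) B' ((d : ℝ) + 1)
  obtain ⟨N0, hsift⟩ := sift_pt d (2 * B' + 15) B'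
  obtain ⟨H11, h11⟩ := Filter.eventually_atTop.1 (ev_log (N0 : ℝ))
  refine ⟨max (max (max H1 H2) (max H3 H4)) (max (max H5 H6) (max (max H7 H8) (max H9 (max H10 (max H11 3))))),
    fun H hH => ?_⟩
  have b0 := le_trans (le_max_left _ _) hH
  have b0' := le_trans (le_max_right _ _) hH
  have c0' := le_trans (le_max_left _ _) b0'
  have c1 := le_trans (le_max_right _ _) b0'
  have c2 := le_trans (le_max_right _ _) c1
  have c3 := le_trans (le_max_right _ _) c2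
  have c4 := le_trans (le_max_right _ _) c3
  have a1 := h1 H (le_trans (le_trans (le_max_left _ _) (le_max_left _ _)) b0)
  have a2 := h2 H (le_trans (le_trans (le_max_right _ _) (le_max_left _ _)) b0)
  have a3 := h3 H (le_trans (le_trans (le_max_left _ _) (le_max_right _ _)) b0)
  have a4 := h4 H (le_trans (le_trans (le_max_right _ _) (le_max_right _ _)) b0)
  have a5 := h5 H (le_trans (le_max_left _ _) c0')
  have a6 := h6 H (le_trans (le_max_right _ _) c0')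
  have a7 := h7 H (le_trans (le_trans (le_max_left _ _) (le_max_left _ _)) c1)
  have a8 := h8 H (le_trans (le_trans (le_max_right _ _) (le_max_left _ _)) c1)
  have a9 := h9 H (le_trans (le_max_left _ _) c2)
  have a10 := h10 H (le_trans (le_max_left _ _) c3)
  have a11 := h11 H (le_trans (le_max_left _ _) c4)
  have hH3 : 3 ≤ H := le_trans (le_max_right _ _) c4
  clear h1 h2 h3 h4 h5 h6 h7 h8 h9 h10 h11 b0 b0' c0' c1 c2 c3 c4
  have hH1 : 1 ≤ H := by omega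
  have hH0 : (0 : ℝ) < H := by exact_mod_cast hH1
  have hH1r : (1 : ℝ) ≤ H := by exact_mod_cast hH1
  set L := Real.log H with hL
  set LL := Real.log L with hLL
  rw [Real.rpow_one] at a6
  simp only [pow_one] at a2
  have h2d : (1 : ℝ) ≤ 2 ^ d := one_le_pow₀ (by norm_num)
  have hLLd : 48 * 2 ^ d + 88 ≤ LL := (le_max_left _ _).trans a5
  have hLLA : 4 * (A : ℝ) + 4 ≤ LL := (le_max_right _ _).trans a5
  have hLL88 : 88 ≤ LL := by linarith
  have hLL0 : 0 < LL := by linarith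
  have hLL1 : 1 ≤ LL := by linarith
  have hL0 : 0 < L := by linarith
  have hL1 : 1 ≤ L := by linarith
  obtain ⟨z, hzc, hzH, hmom, hblk⟩ := a1
  -- the choice of `w`
  set w := ⌈LL ^ (2 * B' + 14)⌉₊ with hw
  have hwl : LL ^ (2 * B' + 14) ≤ w := Nat.le_ceil _
  have hwu : (w : ℝ) ≤ LL ^ (2 * B' + 15) := by
    have q1 : (w : ℝ) < LL ^ (2 * B' + 14) + 1 := Nat.ceil_lt_add_one (by positivity)
    have q2 : 1 ≤ LL ^ (2 * B' + 14) := one_le_pow₀ hLL1
    have q3 : LL ^ (2 * B' + 15) = LL ^ (2 * B' + 14) * LL := pow_succ _ _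
    rw [q3]
    nlinarith
  have hwsq : w ≤ ⌊√L⌋₊ := by
    apply Nat.le_floor
    refine hwu.trans (a7.trans ?_)
    rw [Real.sqrt_eq_rpow]
    exact Real.rpow_le_rpow_of_exponent_le hL1 (by norm_num)
  obtain ⟨hwz, hblk⟩ := hblk w hwl hwsq
  have hwr1 : (1 : ℝ) ≤ w := (one_le_pow₀ hLL1).trans hwl
  have hw1' : 1 ≤ w := by exact_mod_cast hwr1
  have hw0 : (0 : ℝ) < w := by linarith
  have hV := a2 w hwu
  set Bc : ℝ := ((Bx 1 d H).card : ℝ) with hBc
  have hBc0 : 0 ≤ Bc := Nat.cast_nonneg _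
  have hcB : Bc = (QQ d H).card := by
    rw [hBc, card_Bx, card_QQ, mul_one]
  set T := LL ^ B' with hT
  have hT1 : 1 ≤ T := one_le_pow₀ hLL1
  have hT0 : 0 < T := by linarith
  have hTLe : 16 * T ≤ L ^ (ε / d) := by
    refine le_trans ?_ a4
    rw [pow_succ LL B', mul_comm (LL ^ B') LL, ← hT]
    exact mul_le_mul_of_nonneg_right (by linarith) hT0.le
  have hLLB2 : LL ^ (B + 2) ≤ L := (pow_le_pow_right₀ hLL1 (by omega)).trans a6
  have hLLBL : LL ^ B ≤ L := (pow_le_pow_right₀ hLL1 (by omega)).trans a6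
  set X' : ℕ := ⌊L ^ (A + 1)⌋₊ with hX'
  have hXL : (X' : ℝ) ≤ L ^ (A + 1) := Nat.floor_le (by positivity)
  set η : ℝ := 1 / LL ^ B' with hη
  have hηT : η = 1 / T := hη
  have hη0 : 0 < η := by positivity
  have hLLB : 0 < LL ^ B := by positivity
  have hη4 : η ≤ 1 / 4 := by
    rw [hη]
    apply one_div_le_one_div_of_le (by norm_num)
    calc (4 : ℝ) ≤ LL ^ 1 := by rw [pow_one]; linarith
      _ ≤ LL ^ B' := pow_le_pow_right₀ hLL1 (by omega)
  set y := ⌊(H : ℝ) ^ (1 - η)⌋₊ with hy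
  set Y := ⌊(H : ℝ) ^ (1 + η)⌋₊ with hY
  have g5 : (1 - η) * L ≤ Real.log (y + 1) := by
    have : (H : ℝ) ^ (1 - η) ≤ y + 1 := (Nat.lt_floor_add_one _).le
    calc (1 - η) * L = Real.log ((H : ℝ) ^ (1 - η)) := (Real.log_rpow hH0 _).symm
      _ ≤ _ := Real.log_le_log (by positivity) this
  have hYle : (Y : ℝ) ≤ (H : ℝ) ^ (1 + η) := Nat.floor_le (by positivity)
  have hY1r : (1 : ℝ) ≤ (H : ℝ) ^ (1 + η) := Real.one_le_rpow (by exact_mod_cast hH1) (by linarith)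
  have hY1 : 1 ≤ Y := Nat.le_floor (by exact_mod_cast hY1r)
  have g6 : Real.log Y ≤ (1 + η) * L := by
    have h3 := Real.log_le_log (by exact_mod_cast hY1) hYle
    rwa [Real.log_rpow hH0] at h3
  have hLAy : L ^ A ≤ y := by
    have q1 := a8 η le_rfl
    have q2 : (H : ℝ) ^ η ≤ (H : ℝ) ^ (1 - η) := Real.rpow_le_rpow_of_exponent_le hH1r (by linarith)
    have q3 : L ^ A + 1 ≤ 76 * L ^ (A + 3) := by
      have h1 : L ^ A ≤ L ^ (A + 3) := pow_le_pow_right₀ hL1 (by omega)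
      have h2 : 1 ≤ L ^ (A + 3) := one_le_pow₀ hL1
      linarith
    have q4 : (H : ℝ) ^ (1 - η) < y + 1 := Nat.lt_floor_add_one _
    linarith
  set Nq : ℕ := ⌊L ^ A⌋₊ with hNq
  have hNqL : (Nq : ℝ) ≤ L ^ A := Nat.floor_le (by positivity)
  set S1 := (Bx 1 d H).filter (fun a => ¬ Ncp w z (a 0)) with hS1
  set S2 := (Bx 1 d H).filter (fun a => Bg X' y Y a) with hS2
  set S3 := (range (⌊LL ^ 2⌋₊ + 1)).biUnion (fun k => (range (X' + 1)).biUnion (fun j =>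
      (Icc 1 Nq).biUnion (fun q => (Icc 1 q).biUnion (fun c => EvM d (A + 1) H z ε T k j q c)))) with hS3
  set S4 := (range (⌊LL ^ 2⌋₊ + 1)).biUnion (fun k => (range (X' + 1)).biUnion (fun j =>
      (Icc 1 Nq).biUnion (fun q => (Icc 1 Nq).biUnion (fun c => EvH d H w z (3 / T) k j q c)))) with hS4
  rw [← card_one (H := H) (fun f => ∃ q x h c : ℕ, 1 ≤ q ∧ c ∈ cls f q ∧ ((x + h : ℕ) : ℝ) ≤ L ^ A ∧
      (q : ℝ) ^ (d + 2) * ((x + h : ℕ) : ℝ) * L ^ ((d : ℝ) + ε) ≤ (h : ℝ) ^ (d + 1) ∧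
      h / (q * L * LL ^ B) < |((piq f q c (x + h) : ℝ) - piq f q c x) -
        ((piq f 1 1 (x + h) : ℝ) - piq f 1 1 x) / (cls f q).card|), ← hcB]
  have hsub : (Bx 1 d H).filter (fun a => ∃ q x h c : ℕ, 1 ≤ q ∧ c ∈ cls (a 0) q ∧ ((x + h : ℕ) : ℝ) ≤ L ^ A ∧
      (q : ℝ) ^ (d + 2) * ((x + h : ℕ) : ℝ) * L ^ ((d : ℝ) + ε) ≤ (h : ℝ) ^ (d + 1) ∧
      h / (q * L * LL ^ B) < |((piq (a 0) q c (x + h) : ℝ) - piq (a 0) q c x) -
        ((piq (a 0) 1 1 (x + h) : ℝ) - piq (a 0) 1 1 x) / (cls (a 0) q).card|) ⊆ ((S1 ∪ S2) ∪ S3) ∪ S4 := by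
    intro a ha
    rw [mem_filter] at ha
    obtain ⟨haB, q, x, h, c, hq, hc, hXA, hcond, hgt⟩ := ha
    rw [mem_union, mem_union, mem_union]
    by_contra hcon
    push Not at hcon
    obtain ⟨⟨⟨n1, n2⟩, n3⟩, n4⟩ := hcon
    have g1 : Ncp w z (a 0) := by
      by_contra hc
      exact n1 (mem_filter.2 ⟨haB, hc⟩)
    have g2 : ¬ Bg X' y Y a := fun hc => n2 (mem_filter.2 ⟨haB, hc⟩)
    apply absurd hgt
    rw [not_lt]
    refine mg_det d A B w z X' Nq y (by omega) ε L LL T hε a9 hLL88 hLL hLLA hT hTLe hV hX' hNq (a 0) ?_ ?_ hLAy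
      ?_ ?_ ?_ q x h c hq hc hXA hcond
    · intro m hm1 hm2
      rw [← hηT]
      apply ptw y Y L η hL0.le hη0.le (by linarith) g5 g6
      · apply val_bd (A + 1) H Y η hH1 hη0 hL1 (a10 η le_rfl) hY haB
        have e : (((m : ℕ) : ℤ) : ℝ) = (m : ℝ) := by push_cast; ring
        rw [e, abs_of_nonneg (Nat.cast_nonneg _)]
        have q1 : (m : ℝ) ≤ X' := by exact_mod_cast hm2
        exact q1.trans hXL
      · intro hmem
        exact g2 ⟨m, mem_Icc.2 ⟨hm1, hm2⟩, 0, hmem⟩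
    · intro m hm1 hm2
      have h1 : |ev (a 0) (m : ℤ)| ≤ Y := by
        apply val_bd (A + 1) H Y η hH1 hη0 hL1 (a10 η le_rfl) hY haB
        have e : (((m : ℕ) : ℤ) : ℝ) = (m : ℝ) := by push_cast; ring
        rw [e, abs_of_nonneg (Nat.cast_nonneg _)]
        have q1 : (m : ℝ) ≤ X' := by exact_mod_cast hm2
        exact q1.trans hXL
      have h2 : ev (a 0) (m : ℤ) ∉ badS y Y := by
        intro hmem
        exact g2 ⟨m, mem_Icc.2 ⟨hm1, hm2⟩, 0, hmem⟩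
      have h3 := (not_badS y Y _ h2 h1).1
      have h4 : ((ev (a 0) (m : ℤ)).natAbs : ℤ) = |ev (a 0) (m : ℤ)| := Int.natCast_natAbs _
      omega
    · intro k hk j hj q' hq' c' hc' e1 e2 e3
      by_contra hcon
      push Not at hcon
      apply n3
      rw [hS3, mem_biUnion]
      refine ⟨k, hk, ?_⟩
      rw [mem_biUnion]
      refine ⟨j, hj, ?_⟩
      rw [mem_biUnion]
      refine ⟨q', hq', ?_⟩
      rw [mem_biUnion]
      refine ⟨c', hc', ?_⟩
      unfold EvM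
      rw [if_pos ⟨e1, e2, e3⟩, mem_filter]
      exact ⟨haB, hcon⟩
    · intro k hk j hj q' hq' c' hc' e1 e2
      by_contra hcon
      push Not at hcon
      apply n4
      rw [hS4, mem_biUnion]
      refine ⟨k, hk, ?_⟩
      rw [mem_biUnion]
      refine ⟨j, hj, ?_⟩
      rw [mem_biUnion]
      refine ⟨q', hq', ?_⟩
      rw [mem_biUnion]
      refine ⟨c', mem_Icc.2 ⟨(mem_Icc.1 hc').1, (mem_Icc.1 hc').2.trans (mem_Icc.1 hq').2⟩, ?_⟩
      unfold EvH
      rw [if_pos e1, mem_filter]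
      exact ⟨haB, g1, fun p hp => e2 p (mem_qz.1 hp).1.2 (mem_qz.1 hp).2.2, hcon⟩
    · intro D q' c' hD hcp
      have hN0 : N0 ≤ D := by exact_mod_cast a11.trans hD
      have hlogN : LL ≤ Real.log D := Real.log_le_log hL0 hD
      have h1 := hsift D hN0 w hw1' (hwu.trans (pow_le_pow_left₀ hLL0.le hlogN _)) (a 0) q' c' hcp
      refine h1.trans ?_
      have hNr : (0 : ℝ) ≤ D := Nat.cast_nonneg _
      apply mul_le_mul hV _ (by
        have : 0 ≤ Real.log (D : ℝ) := by linarith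
        positivity) hLL0.le
      rw [one_div_mul_eq_div]
      exact div_le_div_of_nonneg_left hNr hT0 (pow_le_pow_left₀ hLL0.le hlogN _)
  -- the four exceptional sets
  have hJlog : 1 + Real.log ((X' + 1 : ℕ) : ℝ) ≤ LL ^ 2 := by
    have h1 : ((X' + 1 : ℕ) : ℝ) ≤ 2 * L ^ (A + 1) := by
      have : 1 ≤ L ^ (A + 1) := one_le_pow₀ hL1
      push_cast
      linarith
    have h2 := Real.log_le_log (by positivity) h1
    rw [Real.log_mul (by norm_num) (by positivity), Real.log_pow, ← hLL] at h2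
    have h3 := Real.log_two_lt_d9
    push_cast at h2 ⊢
    have h4 : ((A : ℝ) + 1) * LL ≤ LL / 4 * LL := mul_le_mul_of_nonneg_right (by linarith) hLL0.le
    nlinarith
  have hX1 : ((X' + 1 : ℕ) : ℝ) ≤ 2 * L ^ (A + 1) := by
    have : 1 ≤ L ^ (A + 1) := one_le_pow₀ hL1
    push_cast
    linarith
  have hc1 : (S1.card : ℝ) ≤ Bc * (1 / (4 * LL ^ B)) := by
    refine (ncp_card d H w z hd hw1' hzH).trans ?_
    apply mul_le_mul_of_nonneg_left _ hBc0
    rw [div_le_div_iff₀ hw0 (by positivity), one_mul]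
    refine le_trans ?_ hwl
    have e : LL ^ (2 * B' + 14) = LL ^ B * LL ^ (B + 18) := by rw [← pow_add]; congr 1; omega
    rw [e]
    have : (16 : ℝ) ≤ LL ^ (B + 18) := by
      calc (16 : ℝ) ≤ LL ^ 1 := by rw [pow_one]; linarith
        _ ≤ _ := pow_le_pow_right₀ hLL1 (by omega)
    nlinarith
  have hc2 : (S2.card : ℝ) ≤ Bc * (1 / (4 * LL ^ B)) := by
    have g1 := BadG_card (d := d) H (fun _ : Fin 1 => (0 : Fin 1)) (Icc 1 X') (fun n _ => (n : ℤ)) y Y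
    have g2 := beta_le H η hη0 hη4 hH3 hL1
    have g3 : ((Icc 1 X').card : ℝ) * ((1 : ℕ) : ℝ) * (((badS y Y).card : ℝ) / (2 * H + 1)) ≤ 1 / (4 * LL ^ B) := by
      have hHη : 0 < (H : ℝ) ^ η := by positivity
      rw [Nat.card_Icc, Nat.add_sub_cancel, Nat.cast_one, mul_one]
      have g4 : (X' : ℝ) * (((badS y Y).card : ℝ) / (2 * H + 1)) ≤ L ^ (A + 1) * (19 * L / (H : ℝ) ^ η) :=
        mul_le_mul hXL g2 (by positivity) (by positivity)
      refine g4.trans ?_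
      have g5 := a8 η le_rfl
      rw [mul_div_assoc', div_le_div_iff₀ hHη (by positivity), one_mul]
      calc L ^ (A + 1) * (19 * L) * (4 * LL ^ B) = 76 * L ^ (A + 2) * LL ^ B := by ring
        _ ≤ 76 * L ^ (A + 2) * L := mul_le_mul_of_nonneg_left hLLBL (by positivity)
        _ = 76 * L ^ (A + 3) := by ring
        _ ≤ (H : ℝ) ^ η := g5
    exact le_trans g1 (mul_le_mul_of_nonneg_left g3 hBc0)
  have hc3 : (S3.card : ℝ) ≤ Bc * (1 / (4 * LL ^ B)) :=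
    cntM3 d (A + 1) F B B' H z X' Nq T L LL ε hL hL1 hLL1 hT hmom hJlog (by linarith) a3
  have hc4 : (S4.card : ℝ) ≤ Bc * (1 / (4 * LL ^ B)) :=
    cntM4 d A H w z Nq X' B L LL (3 / T) hL hL1 a9 hLL1 hLLB2 hNqL hX1 hblk
  have hfin : ((((Bx 1 d H).filter (fun a => ∃ q x h c : ℕ, 1 ≤ q ∧ c ∈ cls (a 0) q ∧ ((x + h : ℕ) : ℝ) ≤ L ^ A ∧
      (q : ℝ) ^ (d + 2) * ((x + h : ℕ) : ℝ) * L ^ ((d : ℝ) + ε) ≤ (h : ℝ) ^ (d + 1) ∧
      h / (q * L * LL ^ B) < |((piq (a 0) q c (x + h) : ℝ) - piq (a 0) q c x) -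
        ((piq (a 0) 1 1 (x + h) : ℝ) - piq (a 0) 1 1 x) / (cls (a 0) q).card|)).card : ℕ) : ℝ) ≤
      (S1.card : ℝ) + S2.card + S3.card + S4.card := by
    have r1 := (card_le_card hsub).trans (card_union_le _ _)
    have r2 := (card_union_le (S1 ∪ S2) S3).trans (Nat.add_le_add_right (card_union_le S1 S2) _)
    have r3 := r1.trans (Nat.add_le_add_right r2 _)
    exact_mod_cast r3
  refine hfin.trans ?_
  calc (S1.card : ℝ) + S2.card + S3.card + S4.card ≤ Bc * (1 / (4 * LL ^ B)) + Bc * (1 / (4 * LL ^ B)) +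
        Bc * (1 / (4 * LL ^ B)) + Bc * (1 / (4 * LL ^ B)) := by
        linarith
    _ = Bc / LL ^ B := by
        field_simp
        ring

end Pool.Agent.TP975.RP
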