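import Mathlib
import Pool.Agent.TP975.RP.Eh8b

/-!
Level of distribution of the prime values of almost all polynomials: the theorem.
-/

set_option autoImplicit false

namespace Pool.Agent.TP975.RP

open Finset
open Pool.Agent.H373R2.T7
open scoped NNReal

open Classical in
theorem eh_main (d A B : ℕ) (hd : 2 ≤ d) (ε : ℝ) (hε : 0 < ε) : ∃ H0 : ℕ, ∀ H : ℕ, H0 ≤ H →
    ((((QQ d H).filter (fun f => ∃ X Q : ℕ, (X : ℝ) ≤ Real.log H ^ A ∧
      (Q : ℝ) ^ (d + 1) * Real.log H ^ ((d : ℝ) + ε) ≤ (X : ℝ) ^ d ∧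
      X / (Real.log H * Real.log (Real.log H) ^ B) < ∑ q ∈ Icc 1 Q, (mxE f X q : ℝ))).card : ℕ) : ℝ) ≤
      (QQ d H).card / Real.log (Real.log H) ^ B := by
  have hd0 : (0 : ℝ) < d := by
    have : 0 < d := by omega
    exact_mod_cast this
  set B' := B + 4 with hB'
  obtain ⟨F, c0, H1, h1⟩ := blkP d (A + 2) (3 * A + 9) B' hd
  obtain ⟨H2, h2⟩ := V_small (2 * B' + 15) 1
  obtain ⟨H3, h3⟩ := pow_small (B + 6 + F + B' * (4 * d + 1)) ε hε
  obtain ⟨H4, h4⟩ := pow_small (B' + 1) (ε / d) (by positivity)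
  obtain ⟨H5, h5⟩ := ll_ev (max (96 * 8 ^ d + 88) (4 * A + 4))
  obtain ⟨H6, h6⟩ := pow_small (B' + 1) 1 (by norm_num)
  obtain ⟨H7, h7⟩ := pow_small (2 * B' + 15) (1 / 4) (by norm_num)
  obtain ⟨H8, h8⟩ := Heta (A + 3) B' 76
  obtain ⟨H9, h9⟩ := Filter.eventually_atTop.1 (ev_log 16)
  obtain ⟨H10, h10⟩ := Heta ((A + 1) * d) B' ((d : ℝ) + 1)
  obtain ⟨N0, hsift⟩ := sift_pt d (2 * B' + 15) B'
  obtain ⟨H11, h11⟩ := Filter.eventually_atTop.1 (ev_log (N0 : ℝ))
  refine ⟨max (max (max H1 H2) (max H3 H4)) (max (max H5 H6) (max (max H7 H8) (max H9 (max H10 (max H11 3))))),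
    fun H hH => ?_⟩
  have b0 := le_trans (le_max_left _ _) hH
  have b0' := le_trans (le_max_right _ _) hH
  have c0' := le_trans (le_max_left _ _) b0'
  have c1 := le_trans (le_max_right _ _) b0'
  have c2 := le_trans (le_max_right _ _) c1
  have c3 := le_trans (le_max_right _ _) c2
  have c4 := le_trans (le_max_right _ _) c3
  have a1 := h1 H (le_trans (le_trans (le_max_left _ _) (le_max_left _ _)) b0)
  have a2 := h2 H (le_trans (le_trans (le_max_right _ _) (le_max_left _ _)) b0)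
  have a3 := h3 H (le_trans (le_trans (le_max_left _ _) (le_max_right _ _)) b0)
  have a4 := h4 H (le_trans (le_trans (le_max_right _ _) (le_max_right _ _)) b0)
  have a5 := h5 H (le_trans (le_max_left _ _) c0')
  have a6 := h6 H (le_trans (le_max_right _ _) c0')
  have a7 := h7 H (le_trans (le_trans (le_max_left _ _) (le_max_left _ _)) c1)
  have a8 := h8 H (le_trans (le_trans (le_max_right _ _) (le_max_left _ _)) c1)
  have a9 := h9 H (le_trans (le_max_left _ _) c2)
  have a10 := h10 H (le_trans (le_max_left _ _) c3)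
  have a11 := h11 H (le_trans (le_max_left _ _) c4)
  have hH3 : 3 ≤ H := le_trans (le_max_right _ _) c4
  have hH1 : 1 ≤ H := by omega
  have hH0 : (0 : ℝ) < H := by exact_mod_cast hH1
  have hH1r : (1 : ℝ) ≤ H := by exact_mod_cast hH1
  set L := Real.log H with hL
  set LL := Real.log L with hLL
  rw [Real.rpow_one] at a6
  simp only [pow_one] at a2
  have h8d : (1 : ℝ) ≤ 8 ^ d := one_le_pow₀ (by norm_num)
  have hLLd : 96 * 8 ^ d + 88 ≤ LL := (le_max_left _ _).trans a5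
  have hLLA : 4 * (A : ℝ) + 4 ≤ LL := (le_max_right _ _).trans a5
  have hLL88 : 88 ≤ LL := by linarith
  have hLL0 : 0 < LL := by linarith
  have hLL1 : 1 ≤ LL := by linarith
  have hL0 : 0 < L := by linarith
  have hL1 : 1 ≤ L := by linarith
  obtain ⟨z, hzc, hzH, hmom, hblk⟩ := a1
  -- the choice of `w`
  set w := ⌈LL ^ (2 * B' + 14)⌉₊ with hw
  have hwl : LL ^ (2 * B' + 14) ≤ w := Nat.le_ceil _
  have hwu : (w : ℝ) ≤ LL ^ (2 * B' + 15) := by
    have q1 : (w : ℝ) < LL ^ (2 * B' + 14) + 1 := Nat.ceil_lt_add_one (by positivity)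
    have q2 : 1 ≤ LL ^ (2 * B' + 14) := one_le_pow₀ hLL1
    have q3 : LL ^ (2 * B' + 15) = LL ^ (2 * B' + 14) * LL := pow_succ _ _
    rw [q3]
    nlinarith
  have hwsq : w ≤ ⌊√L⌋₊ := by
    apply Nat.le_floor
    refine hwu.trans (a7.trans ?_)
    rw [Real.sqrt_eq_rpow]
    exact Real.rpow_le_rpow_of_exponent_le hL1 (by norm_num)
  obtain ⟨hwz, hblk⟩ := hblk w hwl hwsq
  have hwr1 : (1 : ℝ) ≤ w := (one_le_pow₀ hLL1).trans hwl
  have hw1' : 1 ≤ w := by exact_mod_cast hwr1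
  have hw0 : (0 : ℝ) < w := by linarith
  have hV := a2 w hwu
  set Bc : ℝ := ((Bx 1 d H).card : ℝ) with hBc
  have hBc0 : 0 ≤ Bc := Nat.cast_nonneg _
  have hcB : Bc = (QQ d H).card := by
    rw [hBc, card_Bx, card_QQ, mul_one]
  set T := LL ^ B' with hT
  have hT1 : 1 ≤ T := one_le_pow₀ hLL1
  have hT0 : 0 < T := by linarith
  have hTLL : LL * T ≤ L := by
    have e : LL * T = LL ^ (B' + 1) := by rw [hT]; ring
    rw [e]
    exact a6
  have hTL : T ≤ L := by nlinarith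
  set I0 : ℕ := ⌊2 * T⌋₊ + 1 with hI0
  have hI0r : (I0 : ℝ) ≤ 3 * T := by
    have : (⌊2 * T⌋₊ : ℝ) ≤ 2 * T := Nat.floor_le (by positivity)
    rw [hI0]
    push_cast
    linarith
  set X' : ℕ := ⌊L ^ (A + 1)⌋₊ with hX'
  set η : ℝ := 1 / LL ^ B' with hη
  have hηT : η = 1 / T := hη
  have hη0 : 0 < η := by positivity
  have hLLB : 0 < LL ^ B := by positivity
  have hη4 : η ≤ 1 / 4 := by
    rw [hη]
    apply one_div_le_one_div_of_le (by norm_num)
    calc (4 : ℝ) ≤ LL ^ 1 := by rw [pow_one]; linarith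
      _ ≤ LL ^ B' := pow_le_pow_right₀ hLL1 (by omega)
  set y := ⌊(H : ℝ) ^ (1 - η)⌋₊ with hy
  set Y := ⌊(H : ℝ) ^ (1 + η)⌋₊ with hY
  have g5 : (1 - η) * L ≤ Real.log (y + 1) := by
    have : (H : ℝ) ^ (1 - η) ≤ y + 1 := (Nat.lt_floor_add_one _).le
    calc (1 - η) * L = Real.log ((H : ℝ) ^ (1 - η)) := (Real.log_rpow hH0 _).symm
      _ ≤ _ := Real.log_le_log (by positivity) this
  have hYle : (Y : ℝ) ≤ (H : ℝ) ^ (1 + η) := Nat.floor_le (by positivity)
  have hY1r : (1 : ℝ) ≤ (H : ℝ) ^ (1 + η) := Real.one_le_rpow (by exact_mod_cast hH1) (by linarith)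
  have hY1 : 1 ≤ Y := Nat.le_floor (by exact_mod_cast hY1r)
  have g6 : Real.log Y ≤ (1 + η) * L := by
    have h3 := Real.log_le_log (by exact_mod_cast hY1) hYle
    rwa [Real.log_rpow hH0] at h3
  set Nq : ℕ := ⌊L ^ A⌋₊ with hNq
  set S1 := (Bx 1 d H).filter (fun a => ¬ Ncp w z (a 0)) with hS1
  set S2 := (Bx 1 d H).filter (fun a => Bg X' y Y a) with hS2
  set S3 := (range (⌊LL ^ 2⌋₊ + 1)).biUnion (fun k => (range (⌊LL ^ 2⌋₊ + 1)).biUnion (fun j =>
    (Icc 1 I0).biUnion (fun i => EvF d A H z ε T k j i))) with hS3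
  set S4 := (Icc 1 Nq).biUnion (fun q => (Icc 1 Nq).biUnion (fun c => (Icc 1 X').biUnion (fun N =>
    EvG d H w z (3 / T) q c N))) with hS4
  rw [← card_one (H := H) (fun f => ∃ X Q : ℕ, (X : ℝ) ≤ L ^ A ∧
      (Q : ℝ) ^ (d + 1) * L ^ ((d : ℝ) + ε) ≤ (X : ℝ) ^ d ∧
      X / (L * LL ^ B) < ∑ q ∈ Icc 1 Q, (mxE f X q : ℝ)), ← hcB]
  have hsub : (Bx 1 d H).filter (fun a => ∃ X Q : ℕ, (X : ℝ) ≤ L ^ A ∧
      (Q : ℝ) ^ (d + 1) * L ^ ((d : ℝ) + ε) ≤ (X : ℝ) ^ d ∧
      X / (L * LL ^ B) < ∑ q ∈ Icc 1 Q, (mxE (a 0) X q : ℝ)) ⊆ ((S1 ∪ S2) ∪ S3) ∪ S4 := by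
    intro a ha
    rw [mem_filter] at ha
    obtain ⟨haB, X, Q, hXA, hcond, hgt⟩ := ha
    rw [mem_union, mem_union, mem_union]
    by_contra hcon
    push Not at hcon
    obtain ⟨⟨⟨n1, n2⟩, n3⟩, n4⟩ := hcon
    have g1 : Ncp w z (a 0) := by
      by_contra hc
      exact n1 (mem_filter.2 ⟨haB, hc⟩)
    have g2 : ¬ Bg X' y Y a := fun hc => n2 (mem_filter.2 ⟨haB, hc⟩)
    have hQ1 : 1 ≤ Q := by
      rcases Nat.eq_zero_or_pos Q with h0 | h0
      · exfalso
        rw [h0] at hgt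
        simp only [show Icc 1 0 = (∅ : Finset ℕ) by rfl, sum_empty] at hgt
        have : 0 ≤ X / (L * LL ^ B) := by positivity
        linarith
      · exact h0
    have hTLe : 16 * T ≤ L ^ (ε / d) := by
      refine le_trans ?_ a4
      rw [pow_succ LL B', mul_comm (LL ^ B') LL, ← hT]
      exact mul_le_mul_of_nonneg_right (by linarith) hT0.le
    obtain ⟨hQX, k, k1, k2, k3, k4⟩ := scaleE d A X Q (by omega) L ε T hε hL1 hT1 hTLe hQ1 hXA hcond
    have h2k : (0 : ℝ) < 2 ^ k := by positivity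
    have hX0 : (0 : ℝ) ≤ X := Nat.cast_nonneg _
    have hQr : (1 : ℝ) ≤ Q := by exact_mod_cast hQ1
    have hQXr : (Q : ℝ) ≤ X := by nlinarith
    have hQXn : Q ≤ X := by exact_mod_cast hQXr
    have hXI : X < I0 * 2 ^ k := by
      have h1 : (X : ℝ) < ((I0 * 2 ^ k : ℕ) : ℝ) := by
        have h2 : 2 * T < I0 := by
          rw [hI0]
          push_cast
          exact Nat.lt_floor_add_one _
        push_cast
        nlinarith
      exact_mod_cast h1
    have hLA0 : 0 < L ^ A := by positivity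
    have hIX : I0 * 2 ^ k ≤ X' := by
      apply Nat.le_floor
      push_cast
      calc (I0 : ℝ) * 2 ^ k ≤ (3 * T) * L ^ A := mul_le_mul hI0r k3 h2k.le (by positivity)
        _ ≤ L * L ^ A := by
            apply mul_le_mul_of_nonneg_right _ hLA0.le
            nlinarith
        _ = L ^ (A + 1) := by rw [pow_succ]; ring
    have hsmall : ∀ j : ℕ, (2 : ℝ) ^ j ≤ L ^ A → j ∈ range (⌊LL ^ 2⌋₊ + 1) := by
      intro j hj
      rw [mem_range]
      apply Nat.lt_succ_of_le
      apply Nat.le_floor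
      have q1 := Real.log_le_log (show (0 : ℝ) < 2 ^ j by positivity) hj
      rw [Real.log_pow, Real.log_pow, ← hLL] at q1
      have q2 := Real.log_two_gt_d9
      have hk0 : (0 : ℝ) ≤ j := Nat.cast_nonneg _
      have q3 : (j : ℝ) * (1 / 2) ≤ j * Real.log 2 := mul_le_mul_of_nonneg_left (by linarith) hk0
      have q4 : (A : ℝ) * LL ≤ LL / 2 * LL := mul_le_mul_of_nonneg_right (by linarith) hLL0.le
      nlinarith
    have hP : ∀ m : ℕ, 1 ≤ m → m ≤ X' → |L * (if (ev (a 0) (m : ℤ)).natAbs.Prime then 1 else 0) -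
        ArithmeticFunction.vonMangoldt (ev (a 0) (m : ℤ)).natAbs| ≤
        2 * η * ArithmeticFunction.vonMangoldt (ev (a 0) (m : ℤ)).natAbs := by
      intro m hm1 hm2
      apply ptw y Y L η hL0.le hη0.le (by linarith) g5 g6
      · apply val_bd (A + 1) H Y η hH1 hη0 hL1 (a10 η le_rfl) hY haB
        have e : (((m : ℕ) : ℤ) : ℝ) = (m : ℝ) := by push_cast; ring
        rw [e, abs_of_nonneg (Nat.cast_nonneg _)]
        have q1 : (m : ℝ) ≤ X' := by exact_mod_cast hm2
        exact q1.trans (Nat.floor_le (by positivity))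
      · intro hmem
        exact g2 ⟨m, mem_Icc.2 ⟨hm1, hm2⟩, 0, hmem⟩
    have hbig : ∀ m : ℕ, 1 ≤ m → m ≤ X' → y < (ev (a 0) (m : ℤ)).natAbs := by
      intro m hm1 hm2
      have h1 : |ev (a 0) (m : ℤ)| ≤ Y := by
        apply val_bd (A + 1) H Y η hH1 hη0 hL1 (a10 η le_rfl) hY haB
        have e : (((m : ℕ) : ℤ) : ℝ) = (m : ℝ) := by push_cast; ring
        rw [e, abs_of_nonneg (Nat.cast_nonneg _)]
        have q1 : (m : ℝ) ≤ X' := by exact_mod_cast hm2
        exact q1.trans (Nat.floor_le (by positivity))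
      have h2 : ev (a 0) (m : ℤ) ∉ badS y Y := by
        intro hmem
        exact g2 ⟨m, mem_Icc.2 ⟨hm1, hm2⟩, 0, hmem⟩
      have h3 := (not_badS y Y _ h2 h1).1
      have h4 : ((ev (a 0) (m : ℤ)).natAbs : ℤ) = |ev (a 0) (m : ℤ)| := Int.natCast_natAbs _
      omega
    have hXX' : X ≤ X' := hXI.le.trans hIX
    have hQA : (Q : ℝ) ≤ L ^ A := hQXr.trans hXA
    have hQy : Q ≤ y := by
      apply Nat.le_floor
      have q1 := a8 η le_rfl
      have q2 : (H : ℝ) ^ η ≤ (H : ℝ) ^ (1 - η) := Real.rpow_le_rpow_of_exponent_le hH1r (by linarith)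
      have q3 : L ^ A ≤ 76 * L ^ (A + 3) := by
        have : L ^ A ≤ L ^ (A + 3) := pow_le_pow_right₀ hL1 (by omega)
        have : 0 < L ^ (A + 3) := by positivity
        linarith
      linarith
    -- the classes which attain the maxima
    have hmax : ∀ i q : ℕ, ∃ c : ℕ, 1 ≤ q → c ∈ Icc 1 q ∧ ∀ c' ∈ Icc 1 q,
        |ErP z q c' (Nc q c' (i * 2 ^ k)) (a 0)| ≤ |ErP z q c (Nc q c (i * 2 ^ k)) (a 0)| := by
      intro i q
      by_cases hq : 1 ≤ q
      · obtain ⟨c, hc, hcm⟩ := exists_max_image (Icc 1 q) (fun c' => |ErP z q c' (Nc q c' (i * 2 ^ k)) (a 0)|)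
          ⟨1, mem_Icc.2 ⟨le_rfl, hq⟩⟩
        exact ⟨c, fun _ => ⟨hc, hcm⟩⟩
      · exact ⟨0, fun h => absurd h hq⟩
    choose cc hcc using hmax
    set Mm : ℕ → ℕ → ℝ := fun q i => |ErP z q (cc i q) (Nc q (cc i q) (i * 2 ^ k)) (a 0)| with hMm
    -- the sums over the blocks
    have hblocks : ∀ i ∈ Icc 1 I0, ∑ q ∈ Icc 1 Q, Mm q i ≤ (Nat.log 2 Q + 1 : ℕ) * (2 ^ k / T) := by
      intro i hi
      apply dyadic_sum Q (fun q => Mm q i) (fun q => abs_nonneg _) _ hQ1
      intro j hj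
      by_contra hcon
      push Not at hcon
      apply n3
      have hjr : (2 : ℝ) ^ j ≤ L ^ A := by
        have : ((2 ^ j : ℕ) : ℝ) ≤ Q := by exact_mod_cast hj
        push_cast at this
        exact this.trans hQA
      rw [hS3, mem_biUnion]
      refine ⟨k, hsmall k k3, ?_⟩
      rw [mem_biUnion]
      refine ⟨j, hsmall j hjr, ?_⟩
      rw [mem_biUnion]
      refine ⟨i, hi, ?_⟩
      unfold EvF
      rw [if_pos ⟨(k4 j hj).1, (k4 j hj).2, k3⟩]
      unfold EvE
      rw [mem_filter]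
      exact ⟨haB, cc i, fun q hq => (hcc i q hq).1, hcon⟩
    -- one modulus
    have hone : ∀ q ∈ Icc 1 Q, (mxE (a 0) X q : ℝ) ≤ 2 * (2 * ∑ i ∈ Icc 1 I0, Mm q i +
        (2 * (3 / T) + 2 * (1 / T) * LL + LL * (1 / T)) * (4 * X / q) + LL + LL * (2 ^ k / q)) / L := by
      intro q hq
      rw [mem_Icc] at hq
      have hq1r : (1 : ℝ) ≤ q := by exact_mod_cast hq.1
      have hq0 : (0 : ℝ) < q := by linarith
      have hqQ : (q : ℝ) ≤ Q := by exact_mod_cast hq.2
      have hqX : (q : ℝ) ≤ X := hqQ.trans hQXr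
      -- the length of the classes
      have h4L : 4 * L ≤ 2 ^ k / q := by
        have h1 := (k4 (Nat.log 2 q) ((Nat.pow_log_le_self 2 (by omega)).trans hq.2)).1
        have h2 : (q : ℝ) ≤ 2 * 2 ^ (Nat.log 2 q) := by
          have h3 : q < 2 ^ (Nat.log 2 q + 1) := Nat.lt_pow_succ_log_self (by norm_num) q
          have h4 : (q : ℝ) ≤ ((2 ^ (Nat.log 2 q + 1) : ℕ) : ℝ) := by exact_mod_cast h3.le
          refine h4.trans (le_of_eq ?_)
          push_cast
          rw [pow_succ]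
          ring
        rw [le_div_iff₀ hq0]
        nlinarith
      have hNl : ∀ c ∈ Icc 1 q, ∀ i ∈ Icc 1 I0, L ≤ (Nc q c (i * 2 ^ k) : ℝ) ∧ (Nc q c (i * 2 ^ k) : ℝ) ≤ 4 * X / q ∧
          Nc q c (i * 2 ^ k) ∈ Icc 1 X' := by
        intro c hc i hi
        rw [mem_Icc] at hi
        have h1 := abs_le.1 (Nc_bd q c (i * 2 ^ k) hq.1 hc)
        push_cast at h1
        have hir : (1 : ℝ) ≤ i := by exact_mod_cast hi.1
        have hir2 : (i : ℝ) ≤ I0 := by exact_mod_cast hi.2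
        have h2 : (2 : ℝ) ^ k / q ≤ i * 2 ^ k / q := by
          apply div_le_div_of_nonneg_right _ hq0.le
          exact le_mul_of_one_le_left h2k.le hir
        have h3 : L ≤ (Nc q c (i * 2 ^ k) : ℝ) := by linarith [h1.1]
        have h4 : (Nc q c (i * 2 ^ k) : ℝ) ≤ 4 * X / q := by
          have h5 : (i : ℝ) * 2 ^ k / q ≤ 3 * X / q := by
            apply div_le_div_of_nonneg_right _ hq0.le
            calc (i : ℝ) * 2 ^ k ≤ (3 * T) * 2 ^ k := mul_le_mul_of_nonneg_right (hir2.trans hI0r) h2k.le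
              _ = 3 * (T * 2 ^ k) := by ring
              _ ≤ 3 * X := by linarith
          have h6 : 1 ≤ (X : ℝ) / q := by rw [le_div_iff₀ hq0]; linarith
          have h7 : 4 * (X : ℝ) / q = 3 * X / q + X / q := by ring
          linarith [h1.2]
        refine ⟨h3, h4, ?_⟩
        rw [mem_Icc]
        constructor
        · have : (1 : ℝ) ≤ (Nc q c (i * 2 ^ k) : ℝ) := hL1.trans h3
          exact_mod_cast this
        · refine le_trans ?_ ((Nat.mul_le_mul_right (2 ^ k) hi.2).trans hIX)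
          -- the length is at most the endpoint
          rw [mem_Icc] at hc
          unfold Nc
          have h8 : i * 2 ^ k + q - c ≤ i * 2 ^ k * q := by
            have h9 : q ≤ i * 2 ^ k := by
              have : (q : ℝ) ≤ ((i * 2 ^ k : ℕ) : ℝ) := by
                push_cast
                rw [le_div_iff₀ hq0] at h4L
                nlinarith
              exact_mod_cast this
            rcases Nat.lt_or_ge 1 q with h10 | h10
            · have : i * 2 ^ k * 2 ≤ i * 2 ^ k * q := Nat.mul_le_mul_left _ h10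
              omega
            · have : q = 1 := by omega
              subst this
              omega
          exact (Nat.div_le_div_right h8).trans (by rw [Nat.mul_div_cancel _ (by omega)])
      have key := det_q (a 0) w z q X X' k I0 L η (3 / T) LL (1 / T) (4 * X / q) (Mm q) hq.1 hL0.le hη0.le (by linarith)
        (by positivity) (by positivity) hV hXI hIX (by positivity) hP (by
          intro c hc i hi
          have hc' := mem_cls.1 hc
          obtain ⟨l1, l2, l3⟩ := hNl c hc'.1 i hi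
          by_contra hcon
          push Not at hcon
          apply n4
          have hqN : q ≤ Nq := Nat.le_floor (hqQ.trans hQA)
          rw [hS4, mem_biUnion]
          refine ⟨q, mem_Icc.2 ⟨hq.1, hqN⟩, ?_⟩
          rw [mem_biUnion]
          have hcI := mem_Icc.1 hc'.1
          refine ⟨c, mem_Icc.2 ⟨hcI.1, hcI.2.trans hqN⟩, ?_⟩
          rw [mem_biUnion]
          refine ⟨_, l3, ?_⟩
          unfold EvG
          rw [if_pos l1, mem_filter]
          exact ⟨haB, g1, fun p hp => hc'.2 p (mem_qz.1 hp).1.2 (mem_qz.1 hp).2.2, hcon⟩) (by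
          intro c hc i hi
          have hc' := mem_cls.1 hc
          obtain ⟨l1, l2, l3⟩ := hNl c hc'.1 i hi
          set N := Nc q c (i * 2 ^ k) with hN
          have hN0 : N0 ≤ N := by exact_mod_cast a11.trans l1
          have hlogN : LL ≤ Real.log N := Real.log_le_log hL0 l1
          have h1 := hsift N hN0 w hw1' (hwu.trans (pow_le_pow_left₀ hLL0.le hlogN _)) (a 0) q c hc'.2
          refine h1.trans ?_
          have hNr : (0 : ℝ) ≤ N := Nat.cast_nonneg _
          apply mul_le_mul hV _ (by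
            have : 0 ≤ Real.log (N : ℝ) := by linarith
            positivity) hLL0.le
          rw [one_div_mul_eq_div]
          exact div_le_div_of_nonneg_left hNr hT0 (pow_le_pow_left₀ hLL0.le hlogN _))
        (fun c hc i hi => (hNl c (mem_cls.1 hc).1 i hi).2.1)
        (fun i hi c hc => (hcc i q hq.1).2 c hc) (fun i => abs_nonneg _)
      set R : ℝ := 2 * ∑ i ∈ Icc 1 I0, Mm q i +
        (2 * (3 / T) + 2 * (1 / T) * LL + LL * (1 / T)) * (4 * X / q) + LL + LL * (2 ^ k / q) with hR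
      have hR0 : 0 ≤ R := by
        have : 0 ≤ ∑ i ∈ Icc 1 I0, Mm q i := sum_nonneg fun i _ => abs_nonneg _
        positivity
      apply mxE_le _ _ _ _ (by positivity)
      intro y' hy' c hc
      exact averaging (a 0) q y' y X' L (Kq w q (a 0) * ((y' : ℝ) / q)) R hL0 hq.1 (hq.2.trans hQy) (hy'.trans hXX') hbig
        (fun c' hc' => key y' hy' c' hc') c hc
    -- the sum over the moduli
    apply absurd hgt
    rw [not_lt]
    refine (sum_le_sum hone).trans ?_
    set h : ℝ := ∑ q ∈ Icc 1 Q, 1 / (q : ℝ) with hh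
    have hh0 : 0 ≤ h := sum_nonneg fun q _ => by positivity
    have hQ0 : (0 : ℝ) < Q := by linarith
    have hlogQ : Real.log Q ≤ A * LL := by
      have := Real.log_le_log hQ0 hQA
      rwa [Real.log_pow] at this
    have hh2 : h ≤ LL ^ 2 := by
      refine (harm_le Q).trans ?_
      have : (A : ℝ) * LL ≤ LL / 4 * LL := mul_le_mul_of_nonneg_right (by linarith) hLL0.le
      nlinarith
    have hJ : ((Nat.log 2 Q + 1 : ℕ) : ℝ) ≤ LL ^ 2 := by
      have h1 : (2 : ℝ) ^ (Nat.log 2 Q) ≤ Q := by exact_mod_cast Nat.pow_log_le_self 2 (by omega)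
      have h2 := Real.log_le_log (by positivity) h1
      rw [Real.log_pow] at h2
      have q2 := Real.log_two_gt_d9
      have hk0 : (0 : ℝ) ≤ (Nat.log 2 Q : ℕ) := Nat.cast_nonneg _
      have q3 : ((Nat.log 2 Q : ℕ) : ℝ) * (1 / 2) ≤ (Nat.log 2 Q : ℕ) * Real.log 2 := mul_le_mul_of_nonneg_left (by linarith) hk0
      have q4 : (A : ℝ) * LL ≤ LL / 4 * LL := mul_le_mul_of_nonneg_right (by linarith) hLL0.le
      push_cast
      nlinarith
    have e1 : ∑ q ∈ Icc 1 Q, 2 * (2 * ∑ i ∈ Icc 1 I0, Mm q i +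
        (2 * (3 / T) + 2 * (1 / T) * LL + LL * (1 / T)) * (4 * X / q) + LL + LL * (2 ^ k / q)) / L =
        2 / L * (2 * (∑ i ∈ Icc 1 I0, ∑ q ∈ Icc 1 Q, Mm q i) +
        (2 * (3 / T) + 2 * (1 / T) * LL + LL * (1 / T)) * (4 * X) * h + LL * Q + LL * 2 ^ k * h) := by
      rw [sum_comm (s := Icc 1 I0), hh, mul_sum, mul_sum, mul_sum]
      have e2 : LL * (Q : ℝ) = ∑ q ∈ Icc 1 Q, LL := by
        rw [sum_const, Nat.card_Icc, Nat.add_sub_cancel, nsmul_eq_mul, mul_comm]
      rw [e2, ← sum_add_distrib, ← sum_add_distrib, ← sum_add_distrib, mul_sum]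
      refine sum_congr rfl fun q _ => ?_
      ring
    rw [e1]
    have e3 : ∑ i ∈ Icc 1 I0, ∑ q ∈ Icc 1 Q, Mm q i ≤ I0 * (((Nat.log 2 Q + 1 : ℕ) : ℝ) * (2 ^ k / T)) := by
      refine (sum_le_sum hblocks).trans (le_of_eq ?_)
      rw [sum_const, Nat.card_Icc, Nat.add_sub_cancel, nsmul_eq_mul]
    have e4 := num_final X L LL T (2 ^ k) Q h ((Nat.log 2 Q + 1 : ℕ) : ℝ) I0 hX0 hL0 hLL88 hT1 hTL (by linarith)
      h2k.le hQX hh2 hh0 hJ (Nat.cast_nonneg _) hI0r (Nat.cast_nonneg _)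
    have e5 : 88 * LL ^ 3 * X / (L * T) ≤ X / (L * LL ^ B) := by
      have e6 : T = LL ^ B * LL ^ 3 * LL := by rw [hT, hB']; ring
      rw [e6, div_le_div_iff₀ (by positivity) (by positivity)]
      have e7 : 0 ≤ (X : ℝ) * L * LL ^ B * LL ^ 3 := by positivity
      nlinarith
    refine le_trans ?_ (e4.trans e5)
    apply mul_le_mul_of_nonneg_left _ (by positivity)
    linarith
  -- the four exceptional sets
  have hLLBL : LL ^ B ≤ L := (pow_le_pow_right₀ hLL1 (by omega)).trans a6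
  have hc1 : (S1.card : ℝ) ≤ Bc * (1 / (4 * LL ^ B)) := by
    refine (ncp_card d H w z hd hw1' hzH).trans ?_
    apply mul_le_mul_of_nonneg_left _ hBc0
    rw [div_le_div_iff₀ hw0 (by positivity), one_mul]
    refine le_trans ?_ hwl
    have e : LL ^ (2 * B' + 14) = LL ^ B * LL ^ (B + 22) := by rw [← pow_add]; congr 1; omega
    rw [e]
    have : (16 : ℝ) ≤ LL ^ (B + 22) := by
      calc (16 : ℝ) ≤ LL ^ 1 := by rw [pow_one]; linarith
        _ ≤ _ := pow_le_pow_right₀ hLL1 (by omega)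
    nlinarith
  have hc2 : (S2.card : ℝ) ≤ Bc * (1 / (4 * LL ^ B)) := by
    have g1 := BadG_card (d := d) H (fun _ : Fin 1 => (0 : Fin 1)) (Icc 1 X') (fun n _ => (n : ℤ)) y Y
    have g2 := beta_le H η hη0 hη4 hH3 hL1
    have hXL : (X' : ℝ) ≤ L ^ (A + 1) := Nat.floor_le (by positivity)
    have g3 : ((Icc 1 X').card : ℝ) * ((1 : ℕ) : ℝ) * (((badS y Y).card : ℝ) / (2 * H + 1)) ≤ 1 / (4 * LL ^ B) := by
      have hHη : 0 < (H : ℝ) ^ η := by positivity
      rw [Nat.card_Icc, Nat.add_sub_cancel, Nat.cast_one, mul_one]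
      have g4 : (X' : ℝ) * (((badS y Y).card : ℝ) / (2 * H + 1)) ≤ L ^ (A + 1) * (19 * L / (H : ℝ) ^ η) :=
        mul_le_mul hXL g2 (by positivity) (by positivity)
      refine g4.trans ?_
      have g5 := a8 η le_rfl
      rw [mul_div_assoc', div_le_div_iff₀ hHη (by positivity), one_mul]
      calc L ^ (A + 1) * (19 * L) * (4 * LL ^ B) = 76 * L ^ (A + 2) * LL ^ B := by ring
        _ ≤ 76 * L ^ (A + 2) * L := mul_le_mul_of_nonneg_left hLLBL (by positivity)
        _ = 76 * L ^ (A + 3) := by ring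
        _ ≤ (H : ℝ) ^ η := g5
    exact le_trans g1 (mul_le_mul_of_nonneg_left g3 hBc0)
  have hc3 : (S3.card : ℝ) ≤ Bc * (1 / (4 * LL ^ B)) := by
    refine cntS3 d A (A + 2) F B B' H z I0 (by omega) T L LL ε hL hLL hL1 hLL1 hT hmom hI0r ?_ (by linarith) a3
    have hLA1 : 1 ≤ L ^ A := one_le_pow₀ hL1
    have e1 : 3 * T * L ^ A + 1 ≤ 4 * T * L ^ A := by nlinarith
    have e2 : 4 * T * L ^ A ≤ L * L ^ A := by
      apply mul_le_mul_of_nonneg_right _ (by positivity)
      nlinarith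
    have e3 : L ^ (A + 2) = L * L ^ A * L := by ring
    have e4 : 0 < L * L ^ A := by positivity
    rw [e3]
    nlinarith
  have hc4 : (S4.card : ℝ) ≤ Bc * (1 / (4 * LL ^ B)) := by
    have hXL : (X' : ℝ) ≤ L ^ (A + 1) := Nat.floor_le (by positivity)
    have hNqL : (Nq : ℝ) ≤ L ^ A := Nat.floor_le (by positivity)
    have hL8 : 8 ≤ L := by nlinarith
    exact cntS4 d A H w z Nq X' B L LL (3 / T) hL hL1 hL8 hLL1 hLLBL hNqL hXL hblk
  have hfin : ((((Bx 1 d H).filter (fun a => ∃ X Q : ℕ, (X : ℝ) ≤ L ^ A ∧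
      (Q : ℝ) ^ (d + 1) * L ^ ((d : ℝ) + ε) ≤ (X : ℝ) ^ d ∧
      X / (L * LL ^ B) < ∑ q ∈ Icc 1 Q, (mxE (a 0) X q : ℝ))).card : ℕ) : ℝ) ≤
      (S1.card : ℝ) + S2.card + S3.card + S4.card := by
    have r1 := (card_le_card hsub).trans (card_union_le _ _)
    have r2 := (card_union_le (S1 ∪ S2) S3).trans (Nat.add_le_add_right (card_union_le S1 S2) _)
    have r3 := r1.trans (Nat.add_le_add_right r2 _)
    exact_mod_cast r3
  refine hfin.trans ?_
  calc (S1.card : ℝ) + S2.card + S3.card + S4.card ≤ Bc * (1 / (4 * LL ^ B)) + Bc * (1 / (4 * LL ^ B)) +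
        Bc * (1 / (4 * LL ^ B)) + Bc * (1 / (4 * LL ^ B)) := by
        linarith
    _ = Bc / LL ^ B := by
        field_simp
        ring

end Pool.Agent.TP975.RP
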