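import Mathlib
import Pool.Agent.TP975.RP.Po4

/-!
The joint factorial moments: the theorem in terms of the orders of the moments.
-/

set_option autoImplicit false

namespace Pool.Agent.TP975.RP

open Finset
open Pool.Agent.H373R2.T7

variable {m d k : ℕ}

/-- the number of residue classes in which a polynomial vanishes -/
def om1 (f : Fin (d + 1) → ℤ) (p : ℕ) : ℕ := ((range p).filter (fun n : ℕ => (p : ℤ) ∣ ev f (n : ℤ))).card

/-- the truncated constant of a polynomial -/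
noncomputable def cc1 (w : ℕ) (f : Fin (d + 1) → ℤ) : ℝ :=
  ∏ p ∈ (Icc 1 w).filter Nat.Prime, (1 - (om1 f p : ℝ) / p) * (1 - 1 / (p : ℝ))⁻¹

/-- the number of prime values in a window -/
def win1 (f : Fin (d + 1) → ℤ) (n U : ℕ) : ℕ := ((Icc 1 U).filter (fun u : ℕ => (ev f ((n : ℤ) + u)).natAbs.Prime)).card

lemma om_eq (a : Fin m → Fin (d + 1) → ℤ) (i : Fin m) (p : ℕ) : om (fun _ : Fin 1 => i) (fun _ => 0) a p = om1 (a i) p := by
  unfold om om1
  congr 1
  apply filter_congr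
  intro n _
  simp

lemma C1w_eq (w : ℕ) (a : Fin m → Fin (d + 1) → ℤ) (i : Fin m) : C1w w a i = cc1 w (a i) := by
  unfold C1w Cw cc1
  refine prod_congr rfl fun p _ => ?_
  rw [om_eq, pow_one]

lemma fib_card (r : Fin m → ℕ) (i : Fin m) :
    (univ.filter (fun j : Fin (∑ i, r i) => (finSigmaFinEquiv.symm j).1 = i)).card = r i := by
  classical
  have h : (univ : Finset (Fin (r i))).card = (univ.filter (fun j : Fin (∑ i, r i) => (finSigmaFinEquiv.symm j).1 = i)).card := by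
    apply card_bij (fun s _ => finSigmaFinEquiv (⟨i, s⟩ : (i : Fin m) × Fin (r i)))
    · intro s _
      rw [mem_filter]
      refine ⟨mem_univ _, ?_⟩
      rw [Equiv.symm_apply_apply]
    · intro s _ s' _ heq
      have := finSigmaFinEquiv.injective heq
      simpa using this
    · intro j hj
      rw [mem_filter] at hj
      obtain ⟨_, hj⟩ := hj
      generalize hs : finSigmaFinEquiv.symm j = s at hj
      obtain ⟨i', s⟩ := s
      simp only at hj
      subst hj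
      exact ⟨s, mem_univ _, by rw [← hs, Equiv.apply_symm_apply]⟩
  rw [← h, card_univ, Fintype.card_fin]

theorem poisson2 (m d : ℕ) (hd : 1 ≤ d) (r : Fin m → ℕ) (hr : ∀ i, r i ≤ d) (hr1 : 1 ≤ ∑ i, r i) (lam : ℝ) (hlam : 0 < lam)
    (ε : ℝ) (hε : 0 < ε) (A : ℕ) (δ : ℝ) (hδ : 0 < δ) : ∃ w0 : ℕ, ∀ w : ℕ, w0 ≤ w → ∃ H0 : ℕ, ∀ H : ℕ, H0 ≤ H →
    ∀ x : ℕ, Real.log H ^ (((∑ i, r i : ℕ) : ℝ) + ε) ≤ x → (x : ℝ) ≤ Real.log H ^ A →
    (((Bx m d H).filter (fun f => (∀ i, ∀ p ≤ w, p.Prime → om1 (f i) p < p) ∧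
      δ * (∏ i, (lam * cc1 w (f i)) ^ r i) <
        |((∑ n ∈ Icc 1 x, ∏ i, (win1 (f i) n ⌊lam * Real.log H⌋₊).descFactorial (r i) : ℕ) : ℝ) / x -
          ∏ i, (lam * cc1 w (f i)) ^ r i|)).card : ℝ) ≤ δ * (Bx m d H).card := by
  classical
  have h := poisson m d (∑ i, r i) hd hr1 (fun j => (finSigmaFinEquiv.symm j).1)
    (fun i => by rw [fib_card]; exact hr i) lam hlam ε hε A δ hδ
  obtain ⟨w0, h1⟩ := h
  refine ⟨w0, fun w hw => ?_⟩
  obtain ⟨H0, h2⟩ := h1 w hw
  refine ⟨H0, fun H hH x hx hxA => ?_⟩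
  have h3 := h2 H hH x hx hxA
  simp only [om_eq, C1w_eq, fib_card] at h3
  have e1 : ∀ f : Fin m → Fin (d + 1) → ℤ, ∏ j : Fin (∑ i, r i), (lam * cc1 w (f (finSigmaFinEquiv.symm j).1)) =
      ∏ i, (lam * cc1 w (f i)) ^ r i := by
    intro f
    rw [← prod_fiberwise (s := univ) (g := fun j : Fin (∑ i, r i) => (finSigmaFinEquiv.symm j).1)]
    refine prod_congr rfl fun i _ => ?_
    have e2 : ∀ j ∈ univ.filter (fun j : Fin (∑ i, r i) => (finSigmaFinEquiv.symm j).1 = i),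
        lam * cc1 w (f (finSigmaFinEquiv.symm j).1) = lam * cc1 w (f i) := by
      intro j hj
      rw [mem_filter] at hj
      rw [hj.2]
    rw [prod_congr rfl e2, prod_const, fib_card]
  simp only [e1] at h3
  exact h3

end Pool.Agent.TP975.RP
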